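import Pool.Agent.MP_c2f0e4_an.Defs

section

open Set Filter Topology Real

namespace Pool.Agent.MP_c2f0e4_an

/-! ### real cube root -/

noncomputable def cb (x : ℝ) : ℝ := if 0 ≤ x then x ^ (1 / 3 : ℝ) else -(-x) ^ (1 / 3 : ℝ)

lemma cb_pow (x : ℝ) : cb x ^ 3 = x := by
  have h : ∀ y : ℝ, 0 ≤ y → (y ^ (1 / 3 : ℝ)) ^ 3 = y := fun y hy => by
    rw [← Real.rpow_natCast, ← Real.rpow_mul hy]; norm_num
  unfold cb
  split_ifs with hx
  · exact h x hx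
  · have := h (-x) (by linarith)
    rw [Odd.neg_pow (by decide), this]; ring

lemma cube_strictMono : StrictMono fun x : ℝ => x ^ 3 := Odd.strictMono_pow (by decide)

lemma cube_inj {x y : ℝ} (h : x ^ 3 = y ^ 3) : x = y := cube_strictMono.injective h

lemma cube_lt {x y : ℝ} : x ^ 3 < y ^ 3 ↔ x < y := cube_strictMono.lt_iff_lt

lemma cube_le {x y : ℝ} : x ^ 3 ≤ y ^ 3 ↔ x ≤ y := cube_strictMono.le_iff_le

lemma cb_cube (x : ℝ) : cb (x ^ 3) = x := cube_inj (cb_pow _)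

lemma cb_eq_iff {x y : ℝ} : cb x = y ↔ x = y ^ 3 :=
  ⟨fun h => by rw [← h, cb_pow], fun h => by rw [h, cb_cube]⟩

lemma cb_strictMono : StrictMono cb := fun x y h => by
  rw [← cube_lt, cb_pow, cb_pow]; exact h

lemma cb_zero : cb 0 = 0 := cb_eq_iff.2 (by norm_num)

lemma cb_one : cb 1 = 1 := cb_eq_iff.2 (by norm_num)

lemma cb_neg (x : ℝ) : cb (-x) = -cb x := cb_eq_iff.2 (by rw [Odd.neg_pow (by decide), cb_pow])

lemma cb_mul (x y : ℝ) : cb (x * y) = cb x * cb y :=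
  cb_eq_iff.2 (by rw [mul_pow, cb_pow, cb_pow])

lemma cb_pos {x : ℝ} : 0 < cb x ↔ 0 < x := by
  rw [← cb_zero, cb_strictMono.lt_iff_lt, cb_zero]

lemma cb_neg_iff {x : ℝ} : cb x < 0 ↔ x < 0 := by
  rw [← cb_zero, cb_strictMono.lt_iff_lt, cb_zero]

lemma cb_eq_zero {x : ℝ} : cb x = 0 ↔ x = 0 := by rw [cb_eq_iff]; norm_num

lemma cb_continuous : Continuous cb :=
  cb_strictMono.monotone.continuous_of_surjective fun y => ⟨y ^ 3, cb_cube y⟩

lemma cb_analyticAt {x : ℝ} (hx : x ≠ 0) : AnalyticAt ℝ cb x := by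
  have h : ∀ y : ℝ, 0 < y → AnalyticAt ℝ cb y := fun y hy => by
    have h1 : AnalyticAt ℝ (fun t : ℝ => Real.exp (Real.log t * (1 / 3))) y :=
      ((analyticAt_log hy).mul analyticAt_const).rexp
    refine h1.congr ?_
    filter_upwards [lt_mem_nhds hy] with t ht
    simp only [cb, if_pos ht.le, Real.rpow_def_of_pos ht]
  rcases lt_or_gt_of_ne hx with h0 | h0
  · have h1 : AnalyticAt ℝ (fun t : ℝ => -cb (-t)) x :=
      ((h (-x) (by linarith)).comp (f := fun t : ℝ => -t) analyticAt_id.neg).neg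
    simpa only [cb_neg, neg_neg] using h1
  · exact h x h0

lemma cb_hasDerivAt {x : ℝ} (hx : x ≠ 0) : HasDerivAt cb (1 / (3 * cb x ^ 2)) x := by
  have h1 := (cb_analyticAt hx).differentiableAt.hasDerivAt
  have h2 : HasDerivAt (fun y => cb y ^ 3) (((3 : ℕ) : ℝ) * cb x ^ (3 - 1) * deriv cb x) x :=
    h1.pow 3
  have h3 : HasDerivAt (fun y => cb y ^ 3) 1 x := by
    simpa only [cb_pow] using hasDerivAt_id' x
  have h4 := h2.unique h3
  have h5 : cb x ≠ 0 := fun h => hx (cb_eq_zero.1 h)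
  have h6 : 1 / (3 * cb x ^ 2) = deriv cb x := by
    field_simp
    norm_num at h4
    linarith
  rw [h6]; exact h1

/-- a function whose cube is differentiable is differentiable where it does not vanish -/
lemma hasDerivAt_of_cube {u : ℝ → ℝ} {w x : ℝ} (h : HasDerivAt (fun y => u y ^ 3) w x)
    (hx : u x ≠ 0) : HasDerivAt u (w / (3 * u x ^ 2)) x := by
  have h1 := (cb_hasDerivAt (pow_ne_zero 3 hx)).comp x h
  have h2 : (cb ∘ fun y => u y ^ 3) = u := funext fun y => cb_cube _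
  rw [h2, cb_cube] at h1
  exact h1.congr_deriv (by ring)

lemma continuousAt_of_cube {u : ℝ → ℝ} {x : ℝ} (h : ContinuousAt (fun y => u y ^ 3) x) :
    ContinuousAt u x := by
  have h1 := cb_continuous.continuousAt.comp h
  have h2 : (cb ∘ fun y => u y ^ 3) = u := funext fun y => cb_cube _
  rwa [h2] at h1

/-! ### two one-variable lemmas -/

/-- mean value inequality with finitely many exceptional points -/
lemma sub_le_of_deriv_le {f : ℝ → ℝ} {S : Set ℝ} (hS : S.Finite) {c a b : ℝ} (hab : a ≤ b)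
    (hf : ContinuousOn f (Icc a b))
    (hd : ∀ x ∈ Ioo a b, x ∉ S → ∃ f', HasDerivAt f f' x ∧ f' ≤ c) :
    f b - f a ≤ c * (b - a) := by
  induction S, hS using Set.Finite.induction_on generalizing a b with
  | empty =>
    refine (convex_Icc a b).image_sub_le_mul_sub_of_deriv_le hf ?_ ?_ a (left_mem_Icc.2 hab) b
      (right_mem_Icc.2 hab) hab
    · intro x hx
      rw [interior_Icc] at hx
      obtain ⟨f', h1, -⟩ := hd x hx (by simp)
      exact h1.differentiableAt.differentiableWithinAt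
    · intro x hx
      rw [interior_Icc] at hx
      obtain ⟨f', h1, h2⟩ := hd x hx (by simp)
      rwa [h1.deriv]
  | @insert p S hp hS ih =>
    by_cases hpm : p ∈ Ioo a b
    · have h1 := ih hpm.1.le (hf.mono (Icc_subset_Icc_right hpm.2.le)) fun x hx hxS =>
        hd x ⟨hx.1, hx.2.trans hpm.2⟩ (by
          rintro (h | h)
          · exact hx.2.ne h
          · exact hxS h)
      have h2 := ih hpm.2.le (hf.mono (Icc_subset_Icc_left hpm.1.le)) fun x hx hxS =>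
        hd x ⟨hpm.1.trans hx.1, hx.2⟩ (by
          rintro (h | h)
          · exact hx.1.ne' h
          · exact hxS h)
      linarith
    · exact ih hab hf fun x hx hxS => hd x hx (by
        rintro (h | h)
        · exact hpm (h ▸ hx)
        · exact hxS h)

lemma le_sub_of_le_deriv {f : ℝ → ℝ} {S : Set ℝ} (hS : S.Finite) {c a b : ℝ} (hab : a ≤ b)
    (hf : ContinuousOn f (Icc a b))
    (hd : ∀ x ∈ Ioo a b, x ∉ S → ∃ f', HasDerivAt f f' x ∧ c ≤ f') :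
    c * (b - a) ≤ f b - f a := by
  have := sub_le_of_deriv_le (f := fun x => -f x) (c := -c) hS hab hf.neg fun x hx hxS => by
    obtain ⟨f', h1, h2⟩ := hd x hx hxS
    exact ⟨-f', h1.neg, by linarith⟩
  linarith

/-- a function with positive derivative at each of its zeros can only cross upwards -/
lemma pos_of_deriv_pos_at_zeros {f : ℝ → ℝ} {a b : ℝ} (hf : ContinuousOn f (Icc a b))
    (ha : 0 ≤ f a) (hd : ∀ x ∈ Icc a b, f x = 0 → ∃ f', HasDerivAt f f' x ∧ 0 < f') :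
    ∀ x ∈ Ioc a b, 0 < f x := by
  have key : ∀ x ∈ Icc a b, f x = 0 →
      (∀ᶠ y in 𝓝[>] x, 0 < f y) ∧ ∀ᶠ y in 𝓝[<] x, f y < 0 := by
    intro x hx h0
    obtain ⟨f', h1, h2⟩ := hd x hx h0
    have h3 := (hasDerivAt_iff_tendsto_slope.1 h1).eventually (lt_mem_nhds h2)
    constructor
    · filter_upwards [nhdsGT_le_nhdsNE x h3, self_mem_nhdsWithin] with y hy hy'
      rw [slope_def_field, h0, sub_zero] at hy
      exact (div_pos_iff_of_pos_right (sub_pos.2 hy')).1 hy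
    · filter_upwards [nhdsLT_le_nhdsNE x h3, self_mem_nhdsWithin] with y hy hy'
      rw [slope_def_field, h0, sub_zero] at hy
      have : y - x < 0 := sub_neg.2 hy'
      by_contra hc
      exact absurd hy (not_lt.2 (div_nonpos_of_nonneg_of_nonpos (not_lt.1 hc) this.le))
  intro x hx
  by_contra hneg
  push Not at hneg
  have hab : a < b := hx.1.trans_le hx.2
  -- a point just to the right of `a` with positive values
  have hright : ∀ᶠ y in 𝓝[>] a, 0 < f y := by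
    rcases ha.eq_or_lt with h | h
    · exact (key a (left_mem_Icc.2 hab.le) h.symm).1
    · have h1 := (hf a (left_mem_Icc.2 hab.le)).eventually (lt_mem_nhds h)
      exact nhdsWithin_le_of_mem (mem_of_superset (Ioo_mem_nhdsGT hab) Ioo_subset_Icc_self) h1
  obtain ⟨a', ha', hpos⟩ := (nhdsGT_basis a).eventually_iff.1 hright
  have hax : a' ≤ x := by
    by_contra h
    exact absurd (hpos ⟨hx.1, not_le.1 h⟩) (not_lt.2 hneg)
  obtain ⟨a0, ha0, ha0'⟩ := exists_between ha'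
  have hsub : Icc a0 x ⊆ Icc a b := Icc_subset_Icc ha0.le hx.2
  set S : Set ℝ := Icc a0 x ∩ f ⁻¹' Iic 0 with hSdef
  have hScl : IsClosed S := (hf.mono hsub).preimage_isClosed_of_isClosed isClosed_Icc isClosed_Iic
  have hSne : S.Nonempty := ⟨x, ⟨(ha0'.le.trans hax), le_rfl⟩, hneg⟩
  have hSbd : BddBelow S := ⟨a0, fun y hy => hy.1.1⟩
  have hc := hScl.csInf_mem hSne hSbd
  set c := sInf S
  have hca : a0 < c := by
    rcases hc.1.1.eq_or_lt with h | h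
    · have := hc.2
      rw [← h] at this
      exact absurd (hpos ⟨ha0, ha0'⟩) (not_lt.2 this)
    · exact h
  have hlt : ∀ y ∈ Ioo a0 c, 0 < f y := by
    intro y hy
    by_contra h
    exact absurd (csInf_le hSbd ⟨⟨hy.1.le, hy.2.le.trans hc.1.2⟩, not_lt.1 h⟩) (not_le.2 hy.2)
  have hleft : ∀ᶠ y in 𝓝[<] c, f y < 0 := by
    rcases (show f c ≤ 0 from hc.2).eq_or_lt with h | h
    · exact (key c (hsub hc.1) h).2
    · have h1 := (hf c (hsub hc.1)).eventually (gt_mem_nhds h)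
      refine nhdsWithin_le_of_mem (mem_of_superset (Ioo_mem_nhdsLT hca) ?_) h1
      exact fun y hy => hsub ⟨hy.1.le, hy.2.le.trans hc.1.2⟩
  obtain ⟨y, hy1, hy2⟩ := (hleft.and (Ioo_mem_nhdsLT hca)).exists
  exact absurd (hlt y hy2) (not_lt.2 hy1.le)

end Pool.Agent.MP_c2f0e4_an

end

section

open Set Filter Topology Real

namespace Pool.Agent.MP_c2f0e4_an

/-! ### the scalar equation `(U^3)' = -3 (A + B U^2)` -/

/-- global solutions of the scalar equation -/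
def Sol (A B U : ℝ → ℝ) : Prop :=
  Continuous U ∧ ∀ x, HasDerivAt (fun y => U y ^ 3) (-3 * (A x + B x * U x ^ 2)) x

/-- analytic on the whole line -/
def An (A : ℝ → ℝ) : Prop := ∀ x, AnalyticAt ℝ A x

/-- `U` does not pass through a singular point `(z, 0)`, `A z = 0`, over the set `s` -/
def GoodOn (A U : ℝ → ℝ) (s : Set ℝ) : Prop := ∀ x ∈ s, A x = 0 → U x ≠ 0

/-- good periodic solutions -/
def GP (A B U : ℝ → ℝ) : Prop := Sol A B U ∧ GoodOn A U univ ∧ Function.Periodic U (2 * π)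

/-- analytic antiperiodic coefficients -/
structure Sys (A B : ℝ → ℝ) : Prop where
  anA : An A
  anB : An B
  antiA : ∀ x, A (x + π) = -A x
  antiB : ∀ x, B (x + π) = -B x

/-- an interval of good periodic solutions -/
def Fam (A B : ℝ → ℝ) : Prop :=
  ∃ x0 p q : ℝ, p < q ∧ ∀ u ∈ Ioo p q, ∃ U, GP A B U ∧ U x0 = u

/-- an unbounded family of good periodic solutions -/
def Pole (A B : ℝ → ℝ) : Prop := ∃ x0 : ℝ, ∀ M : ℝ, ∃ U, GP A B U ∧ M ≤ |U x0|

/-- `V` is a solution approximated uniformly from below by solutions `U n` -/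
structure Top0 (A B V : ℝ → ℝ) (U : ℕ → ℝ → ℝ) : Prop where
  solV : Sol A B V
  solU : ∀ n, Sol A B (U n)
  lt : ∀ n x, U n x < V x
  unif : TendstoUniformly U V atTop

/-- `V` passes through the singular point `(x, 0)` -/
def Touch (A V : ℝ → ℝ) (x : ℝ) : Prop := A x = 0 ∧ V x = 0

/-- upper boundary of a family of good periodic solutions -/
structure Top (A B V : ℝ → ℝ) (U : ℕ → ℝ → ℝ) : Prop extends Top0 A B V U where
  perV : Function.Periodic V (2 * π)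
  perU : ∀ n, Function.Periodic (U n) (2 * π)
  good : ∀ n, GoodOn A (U n) univ
  sgn : ∀ z, A z = 0 → ∀ n, (U n z < 0 ↔ U 0 z < 0)
  touch : ∃ z, Touch A V z

/-- upper boundary and (mirrored) lower boundary of a bounded family -/
def Conf (A B : ℝ → ℝ) : Prop :=
  ∃ V U V2 U2, Top A B V U ∧ Top A B V2 U2 ∧ ∀ z, A z = 0 → (U2 0 z < 0 ↔ 0 < U 0 (z + π))

/-- exactly one touch per period -/
def One (A V : ℝ → ℝ) (z : ℝ) : Prop :=
  Touch A V z ∧ ∀ x ∈ Ioo z (z + 2 * π), ¬ Touch A V x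

/-- exactly two touches per period, both with `A' < 0` -/
def Two (A V : ℝ → ℝ) (z1 z2 : ℝ) : Prop :=
  z1 < z2 ∧ z2 < z1 + 2 * π ∧ Touch A V z1 ∧ Touch A V z2 ∧ deriv A z1 < 0 ∧ deriv A z2 < 0 ∧
    ∀ x ∈ Ioo z1 (z1 + 2 * π), Touch A V x → x = z2

/-- exactly three touches per period, all with `A' < 0` -/
def Three (A V : ℝ → ℝ) (z1 z2 z3 : ℝ) : Prop :=
  z1 < z2 ∧ z2 < z3 ∧ z3 < z1 + 2 * π ∧ Touch A V z1 ∧ Touch A V z2 ∧ Touch A V z3 ∧
    deriv A z1 < 0 ∧ deriv A z2 < 0 ∧ deriv A z3 < 0 ∧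
    ∀ x ∈ Ioo z1 (z1 + 2 * π), Touch A V x → x = z2 ∨ x = z3

/-- reversibility about `c` -/
def Rev (A B : ℝ → ℝ) (c : ℝ) : Prop := ∀ x, A (c - x) = -A (c + x) ∧ B (c - x) = -B (c + x)

/-- the centre conditions -/
def Concl (A B : ℝ → ℝ) : Prop := (∀ x, B x = 0) ∨ ∃ c, Rev A B c

noncomputable def Cub (a0 a1 a2 a3 x : ℝ) : ℝ :=
  a0 * cos x ^ 3 + a1 * cos x ^ 2 * sin x + a2 * cos x * sin x ^ 2 + a3 * sin x ^ 3

noncomputable def Lin (b1 b2 x : ℝ) : ℝ := b1 * cos x + b2 * sin x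

def IsCub (A : ℝ → ℝ) : Prop := ∃ a0 a1 a2 a3, A = Cub a0 a1 a2 a3

def IsLin (B : ℝ → ℝ) : Prop := ∃ b1 b2, B = Lin b1 b2

/-- the section coordinate `(V^3 - U^3)^(-1/6)` -/
noncomputable def Yv (V : ℝ → ℝ) (U : ℕ → ℝ → ℝ) (x : ℝ) (n : ℕ) : ℝ :=
  (V x ^ 3 - U n x ^ 3) ^ (-(1 / 6) : ℝ)

lemma An.continuous {A : ℝ → ℝ} (h : An A) : Continuous A :=
  continuous_iff_continuousAt.2 fun x => (h x).continuousAt

lemma An.affine {A : ℝ → ℝ} (h : An A) (k c l : ℝ) : An fun x => l * A (k * x + c) := fun x =>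
  analyticAt_const.mul ((h (k * x + c)).comp (f := fun x : ℝ => k * x + c) (by fun_prop))

section Sol
variable {A B U V : ℝ → ℝ}

lemma Sol.hasDerivAt (h : Sol A B U) {x : ℝ} (hx : U x ≠ 0) :
    HasDerivAt U (-B x - A x / U x ^ 2) x :=
  (hasDerivAt_of_cube (h.2 x) hx).congr_deriv (by field_simp; ring)

lemma Sol.neg (h : Sol A B U) : Sol (fun x => -A x) (fun x => -B x) (fun x => -U x) := by
  refine ⟨h.1.neg, fun x => ?_⟩
  have h1 : (fun y => (-U y) ^ 3) = fun y => -(U y ^ 3) := funext fun y => by ring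
  rw [h1]
  exact (h.2 x).neg.congr_deriv (by ring)

/-- affine change of the independent variable -/
lemma Sol.affine (h : Sol A B U) (k c : ℝ) :
    Sol (fun x => k * A (k * x + c)) (fun x => k * B (k * x + c)) (fun x => U (k * x + c)) := by
  refine ⟨h.1.comp (by fun_prop), fun x => ?_⟩
  have h1 : HasDerivAt (fun x : ℝ => k * x + c) k x := by
    simpa using ((hasDerivAt_id x).const_mul k).add_const c
  have h2 := (h.2 (k * x + c)).comp x h1
  refine HasDerivAt.congr_deriv (f' := _) h2 ?_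
  ring

lemma Sol.shift (h : Sol A B U) (c : ℝ) :
    Sol (fun x => A (x + c)) (fun x => B (x + c)) (fun x => U (x + c)) := by
  simpa using h.affine 1 c

lemma Sol.refl (h : Sol A B U) (c : ℝ) :
    Sol (fun x => -A (c - x)) (fun x => -B (c - x)) (fun x => U (c - x)) := by
  have := h.affine (-1) c
  simpa only [neg_mul, one_mul, neg_add_eq_sub] using this

/-- where `A < 0` at the zeros of `U`, crossings go upwards -/
lemma Sol.pos_forward (h : Sol A B U) {a b : ℝ} (hA : ∀ x ∈ Icc a b, U x = 0 → A x < 0)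
    (ha : 0 ≤ U a) : ∀ x ∈ Ioc a b, 0 < U x := by
  intro x hx
  have := pos_of_deriv_pos_at_zeros (f := fun y => U y ^ 3) (a := a) (b := b)
    (h.1.pow 3).continuousOn (pow_nonneg ha 3) (fun y hy h0 => by
      have h1 : U y = 0 := pow_eq_zero_iff (by norm_num) |>.1 h0
      refine ⟨_, h.2 y, ?_⟩
      rw [h1]; have := hA y hy h1; linarith) x hx
  exact (Odd.pow_pos_iff (by decide)).1 this

lemma Sol.neg_forward (h : Sol A B U) {a b : ℝ} (hA : ∀ x ∈ Icc a b, U x = 0 → 0 < A x)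
    (ha : U a ≤ 0) : ∀ x ∈ Ioc a b, U x < 0 := fun x hx => by
  have := h.neg.pos_forward (a := a) (b := b) (fun y hy h0 => by
    have := hA y hy (by simpa using h0); linarith) (by linarith) x hx
  linarith

lemma Sol.pos_backward (h : Sol A B U) {a b : ℝ} (hA : ∀ x ∈ Icc a b, U x = 0 → 0 < A x)
    (hb : 0 ≤ U b) : ∀ x ∈ Ico a b, 0 < U x := fun x hx => by
  have := (h.refl 0).pos_forward (a := -b) (b := -a) (fun y hy h0 => by
    have := hA (0 - y) ⟨by linarith [hy.2], by linarith [hy.1]⟩ h0; linarith) (by simpa using hb)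
    (-x) ⟨by linarith [hx.2], by linarith [hx.1]⟩
  simpa using this

lemma Sol.neg_backward (h : Sol A B U) {a b : ℝ} (hA : ∀ x ∈ Icc a b, U x = 0 → A x < 0)
    (hb : U b ≤ 0) : ∀ x ∈ Ico a b, U x < 0 := fun x hx => by
  have := h.neg.pos_backward (a := a) (b := b) (fun y hy h0 => by
    have := hA y hy (by simpa using h0); linarith) (by linarith) x hx
  linarith

/-- negative values propagate forward through an interval where `A > 0` -/
lemma Sol.neg_of_neg_left (h : Sol A B U) {a b : ℝ} (hA : ∀ x ∈ Ioo a b, 0 < A x)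
    (ha : U a < 0) : ∀ x ∈ Ico a b, U x < 0 := fun x hx => by
  rcases hx.1.eq_or_lt with h0 | h0
  · rwa [← h0]
  · refine h.neg_forward (a := a) (b := x) (fun y hy h1 => ?_) ha.le x ⟨h0, le_rfl⟩
    rcases hy.1.eq_or_lt with h2 | h2
    · rw [← h2] at h1; exact absurd h1 ha.ne
    · exact hA y ⟨h2, hy.2.trans_lt hx.2⟩

/-- negative values propagate backward through an interval where `A < 0` -/
lemma Sol.neg_of_neg_right (h : Sol A B U) {a b : ℝ} (hA : ∀ x ∈ Ioo a b, A x < 0)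
    (hb : U b < 0) : ∀ x ∈ Ioc a b, U x < 0 := fun x hx => by
  rcases hx.2.eq_or_lt with h0 | h0
  · rwa [h0]
  · refine h.neg_backward (a := x) (b := b) (fun y hy h1 => ?_) hb.le x ⟨le_rfl, h0⟩
    rcases hy.2.eq_or_lt with h2 | h2
    · rw [h2] at h1; exact absurd h1 hb.ne
    · exact hA y ⟨hx.1.trans_le hy.1, h2⟩

end Sol

section Trig

lemma Cub.an (a0 a1 a2 a3 : ℝ) : An (Cub a0 a1 a2 a3) := fun x => by
  unfold Cub; fun_prop

lemma Lin.an (b1 b2 : ℝ) : An (Lin b1 b2) := fun x => by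
  unfold Lin; fun_prop

lemma Cub.anti (a0 a1 a2 a3 x : ℝ) : Cub a0 a1 a2 a3 (x + π) = -Cub a0 a1 a2 a3 x := by
  simp only [Cub, cos_add_pi, sin_add_pi]; ring

lemma Lin.anti (b1 b2 x : ℝ) : Lin b1 b2 (x + π) = -Lin b1 b2 x := by
  simp only [Lin, cos_add_pi, sin_add_pi]; ring

lemma Cub.hasDerivAt (a0 a1 a2 a3 x : ℝ) :
    HasDerivAt (Cub a0 a1 a2 a3)
      (Cub a1 (2 * a2 - 3 * a0) (3 * a3 - 2 * a1) (-a2) x) x := by
  have hc := hasDerivAt_cos x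
  have hs := hasDerivAt_sin x
  have := ((((hc.pow 3).const_mul a0).add (((hc.pow 2).const_mul a1).mul hs)).add
    ((hc.const_mul a2).mul (hs.pow 2))).add ((hs.pow 3).const_mul a3)
  refine HasDerivAt.congr_deriv (f' := _) this ?_
  simp only [Cub, Pi.pow_apply]; push_cast; ring

lemma Cub.deriv (a0 a1 a2 a3 : ℝ) :
    deriv (Cub a0 a1 a2 a3) = Cub a1 (2 * a2 - 3 * a0) (3 * a3 - 2 * a1) (-a2) :=
  funext fun x => (Cub.hasDerivAt a0 a1 a2 a3 x).deriv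

lemma Lin.hasDerivAt (b1 b2 x : ℝ) : HasDerivAt (Lin b1 b2) (Lin b2 (-b1) x) x := by
  have := ((hasDerivAt_cos x).const_mul b1).add ((hasDerivAt_sin x).const_mul b2)
  refine HasDerivAt.congr_deriv (f' := _) this ?_
  simp only [Lin]; ring

lemma Lin.deriv (b1 b2 : ℝ) : deriv (Lin b1 b2) = Lin b2 (-b1) :=
  funext fun x => (Lin.hasDerivAt b1 b2 x).deriv

lemma Cub.zero (a0 a1 a2 a3 : ℝ) : Cub a0 a1 a2 a3 0 = a0 := by simp [Cub]

lemma Lin.zero (b1 b2 : ℝ) : Lin b1 b2 0 = b1 := by simp [Lin]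

/-- Taylor form of the shift of a linear form -/
lemma IsLin.shift_eq {B : ℝ → ℝ} (h : IsLin B) (c : ℝ) :
    (fun x => B (x + c)) = Lin (B c) (deriv B c) := by
  obtain ⟨b1, b2, rfl⟩ := h
  funext x
  simp only [Lin.deriv, Lin, cos_add, sin_add]; ring

/-- Taylor form of the shift of a cubic form -/
lemma IsCub.shift_eq {A : ℝ → ℝ} (h : IsCub A) (c : ℝ) :
    ∃ a3, (fun x => A (x + c))
      = Cub (A c) (deriv A c) ((deriv (deriv A) c + 3 * A c) / 2) a3 := by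
  obtain ⟨a0, a1, a2, a3, rfl⟩ := h
  refine ⟨Cub a3 (-a2) a1 (-a0) c, ?_⟩
  funext x
  simp only [Cub.deriv, Cub, cos_add, sin_add]; ring

lemma IsLin.shift {B : ℝ → ℝ} (h : IsLin B) (c : ℝ) : IsLin fun x => B (x + c) :=
  ⟨_, _, h.shift_eq c⟩

lemma IsCub.shift {A : ℝ → ℝ} (h : IsCub A) (c : ℝ) : IsCub fun x => A (x + c) :=
  let ⟨_, h1⟩ := h.shift_eq c; ⟨_, _, _, _, h1⟩

lemma Cub.refl_pi (a0 a1 a2 a3 : ℝ) :
    (fun x => -Cub a0 a1 a2 a3 (π - x)) = Cub a0 (-a1) a2 (-a3) := by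
  funext x; simp only [Cub, cos_pi_sub, sin_pi_sub]; ring

lemma Lin.refl_pi (b1 b2 : ℝ) : (fun x => -Lin b1 b2 (π - x)) = Lin b1 (-b2) := by
  funext x; simp only [Lin, cos_pi_sub, sin_pi_sub]; ring

lemma Cub.refl_zero (a0 a1 a2 a3 : ℝ) :
    (fun x => -Cub a0 a1 a2 a3 (0 - x)) = Cub (-a0) a1 (-a2) a3 := by
  funext x; simp only [Cub, zero_sub, cos_neg, sin_neg]; ring

lemma Lin.refl_zero (b1 b2 : ℝ) : (fun x => -Lin b1 b2 (0 - x)) = Lin (-b1) b2 := by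
  funext x; simp only [Lin, zero_sub, cos_neg, sin_neg]; ring

lemma Cub.shift_pi (a0 a1 a2 a3 : ℝ) :
    (fun x => Cub a0 a1 a2 a3 (x + π)) = Cub (-a0) (-a1) (-a2) (-a3) := by
  funext x; simp only [Cub, cos_add_pi, sin_add_pi]; ring

lemma Lin.shift_pi (b1 b2 : ℝ) : (fun x => Lin b1 b2 (x + π)) = Lin (-b1) (-b2) := by
  funext x; simp only [Lin, cos_add_pi, sin_add_pi]; ring

lemma sys_of {A B : ℝ → ℝ} (hA : IsCub A) (hB : IsLin B) : Sys A B := by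
  obtain ⟨a0, a1, a2, a3, rfl⟩ := hA
  obtain ⟨b1, b2, rfl⟩ := hB
  exact ⟨Cub.an _ _ _ _, Lin.an _ _, Cub.anti _ _ _ _, Lin.anti _ _⟩

lemma sys_cub (a0 a1 a2 a3 b1 b2 : ℝ) : Sys (Cub a0 a1 a2 a3) (Lin b1 b2) :=
  sys_of ⟨_, _, _, _, rfl⟩ ⟨_, _, rfl⟩

end Trig

section Symm
variable {A B V : ℝ → ℝ} {U : ℕ → ℝ → ℝ}

lemma Sys.perA (h : Sys A B) : Function.Periodic A (2 * π) := fun x => by
  rw [two_mul, ← add_assoc, h.antiA, h.antiA, neg_neg]

lemma Sys.perB (h : Sys A B) : Function.Periodic B (2 * π) := fun x => by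
  rw [two_mul, ← add_assoc, h.antiB, h.antiB, neg_neg]

lemma Sys.shift (h : Sys A B) (c : ℝ) : Sys (fun x => A (x + c)) (fun x => B (x + c)) :=
  ⟨by simpa using h.anA.affine 1 c 1, by simpa using h.anB.affine 1 c 1,
    fun x => by rw [add_right_comm, h.antiA], fun x => by rw [add_right_comm, h.antiB]⟩

/-- the symmetry `U ↦ -U (· + π)` -/
lemma Sol.sigma {W : ℝ → ℝ} (hs : Sys A B) (h : Sol A B W) : Sol A B fun x => -W (x + π) := by
  have := (h.shift π).neg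
  simpa only [hs.antiA, hs.antiB, neg_neg] using this

lemma Sol.shift_two_pi {W : ℝ → ℝ} (hs : Sys A B) (h : Sol A B W) :
    Sol A B fun x => W (x + 2 * π) := by
  have := h.shift (2 * π)
  simpa only [hs.perA _, hs.perB _] using this

lemma Top0.affine (h : Top0 A B V U) (k c : ℝ) :
    Top0 (fun x => k * A (k * x + c)) (fun x => k * B (k * x + c)) (fun x => V (k * x + c))
      (fun n x => U n (k * x + c)) :=
  ⟨h.solV.affine k c, fun n => (h.solU n).affine k c, fun n _ => h.lt n _,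
    h.unif.comp fun x => k * x + c⟩

lemma Top0.shift (h : Top0 A B V U) (c : ℝ) :
    Top0 (fun x => A (x + c)) (fun x => B (x + c)) (fun x => V (x + c))
      (fun n x => U n (x + c)) :=
  ⟨h.solV.shift c, fun n => (h.solU n).shift c, fun n _ => h.lt n _, h.unif.comp fun x => x + c⟩

lemma Top0.refl (h : Top0 A B V U) (c : ℝ) :
    Top0 (fun x => -A (c - x)) (fun x => -B (c - x)) (fun x => V (c - x))
      (fun n x => U n (c - x)) :=
  ⟨h.solV.refl c, fun n => (h.solU n).refl c, fun n _ => h.lt n _, h.unif.comp fun x => c - x⟩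

lemma periodic_shift {f : ℝ → ℝ} {T : ℝ} (h : Function.Periodic f T) (c : ℝ) :
    Function.Periodic (fun x => f (x + c)) T := fun x => by
  simp only [add_right_comm x T c, h _]

lemma periodic_refl {f : ℝ → ℝ} {T : ℝ} (h : Function.Periodic f T) (c : ℝ) :
    Function.Periodic (fun x => f (c - x)) T := fun x => by
  simp only [← sub_sub, h.sub_eq]

lemma Top.shift (h : Top A B V U) (c : ℝ) :
    Top (fun x => A (x + c)) (fun x => B (x + c)) (fun x => V (x + c))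
      (fun n x => U n (x + c)) :=
  ⟨h.toTop0.shift c, periodic_shift h.perV c, fun n => periodic_shift (h.perU n) c,
    fun n x _ hx => h.good n _ (mem_univ _) hx, fun z hz => h.sgn _ hz, by
      obtain ⟨z, hz⟩ := h.touch
      exact ⟨z - c, by simpa [Touch] using hz⟩⟩

lemma Top.refl (h : Top A B V U) (c : ℝ) :
    Top (fun x => -A (c - x)) (fun x => -B (c - x)) (fun x => V (c - x))
      (fun n x => U n (c - x)) :=
  ⟨h.toTop0.refl c, periodic_refl h.perV c, fun n => periodic_refl (h.perU n) c,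
    fun n x _ hx => h.good n _ (mem_univ _) (neg_eq_zero.1 hx),
    fun z hz => h.sgn _ (neg_eq_zero.1 hz), by
      obtain ⟨z, hz⟩ := h.touch
      exact ⟨c - z, by simpa [Touch] using hz⟩⟩

lemma Conf.shift (h : Conf A B) (c : ℝ) : Conf (fun x => A (x + c)) (fun x => B (x + c)) := by
  obtain ⟨V, U, V2, U2, h1, h2, h3⟩ := h
  refine ⟨_, _, _, _, h1.shift c, h2.shift c, fun z hz => ?_⟩
  simpa only [add_right_comm z π c] using h3 _ hz

lemma GP.shift {W : ℝ → ℝ} (h : GP A B W) (c : ℝ) :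
    GP (fun x => A (x + c)) (fun x => B (x + c)) (fun x => W (x + c)) :=
  ⟨h.1.shift c, fun _ _ hx => h.2.1 _ (mem_univ _) hx, periodic_shift h.2.2 c⟩

lemma GP.refl {W : ℝ → ℝ} (h : GP A B W) (c : ℝ) :
    GP (fun x => -A (c - x)) (fun x => -B (c - x)) (fun x => W (c - x)) :=
  ⟨h.1.refl c, fun _ _ hx => h.2.1 _ (mem_univ _) (neg_eq_zero.1 hx), periodic_refl h.2.2 c⟩

lemma GP.sigma {W : ℝ → ℝ} (hs : Sys A B) (h : GP A B W) : GP A B fun x => -W (x + π) :=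
  ⟨h.1.sigma hs, fun x _ hx => neg_ne_zero.2 (h.2.1 _ (mem_univ _) (by rw [hs.antiA, hx, neg_zero])),
    fun x => by simp only [add_right_comm x (2 * π) π, h.2.2 _]⟩

lemma Fam.shift (h : Fam A B) (c : ℝ) : Fam (fun x => A (x + c)) (fun x => B (x + c)) := by
  obtain ⟨x0, p, q, hpq, h⟩ := h
  refine ⟨x0 - c, p, q, hpq, fun u hu => ?_⟩
  obtain ⟨W, h1, h2⟩ := h u hu
  exact ⟨_, h1.shift c, by simpa using h2⟩

lemma Fam.refl (h : Fam A B) (c : ℝ) : Fam (fun x => -A (c - x)) (fun x => -B (c - x)) := by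
  obtain ⟨x0, p, q, hpq, h⟩ := h
  refine ⟨c - x0, p, q, hpq, fun u hu => ?_⟩
  obtain ⟨W, h1, h2⟩ := h u hu
  exact ⟨_, h1.refl c, by simpa using h2⟩

lemma Concl.of_shift {c : ℝ} (h : Concl (fun x => A (x + c)) (fun x => B (x + c))) :
    Concl A B := by
  rcases h with h | ⟨d, h⟩
  · exact Or.inl fun x => by simpa using h (x - c)
  · refine Or.inr ⟨d + c, fun x => ?_⟩
    have := h x
    simp only at this
    rwa [show d - x + c = d + c - x by ring, show d + x + c = d + c + x by ring] at this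

lemma Concl.of_refl {c : ℝ} (h : Concl (fun x => -A (c - x)) (fun x => -B (c - x))) :
    Concl A B := by
  rcases h with h | ⟨d, h⟩
  · exact Or.inl fun x => by simpa using h (c - x)
  · refine Or.inr ⟨c - d, fun x => ?_⟩
    have := h (-x)
    simp only at this
    rw [show c - (d - -x) = c - d - x by ring, show c - (d + -x) = c - d + x by ring] at this
    constructor <;> linarith [this.1, this.2]

lemma One.shift {z : ℝ} (h : One A V z) (c : ℝ) :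
    One (fun x => A (x + c)) (fun x => V (x + c)) (z - c) :=
  ⟨by simpa [Touch] using h.1, fun x hx hT =>
    h.2 (x + c) ⟨by linarith [hx.1], by linarith [hx.2]⟩ hT⟩

lemma One.refl {z : ℝ} (h : One A V z) (hA : Function.Periodic A (2 * π))
    (hV : Function.Periodic V (2 * π)) (c : ℝ) :
    One (fun x => -A (c - x)) (fun x => V (c - x)) (c - z) :=
  ⟨by simpa [Touch] using h.1, fun x hx hT =>
    h.2 (c - x + 2 * π) ⟨by linarith [hx.2], by linarith [hx.1]⟩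
      ⟨by rw [hA]; exact neg_eq_zero.1 hT.1, by rw [hV]; exact hT.2⟩⟩

lemma rev_pi_div_two (a0 a2 b : ℝ) : Rev (Cub a0 0 a2 0) (Lin b 0) (π / 2) := fun x => by
  simp only [Cub, Lin, cos_pi_div_two_sub, sin_pi_div_two_sub, add_comm (π / 2) x,
    cos_add_pi_div_two, sin_add_pi_div_two]
  constructor <;> ring

lemma rev_zero (a1 a3 b : ℝ) : Rev (Cub 0 a1 0 a3) (Lin 0 b) 0 := fun x => by
  simp only [Cub, Lin, zero_sub, zero_add, cos_neg, sin_neg]
  constructor <;> ring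

lemma Top0.tendsto (h : Top0 A B V U) (x : ℝ) : Tendsto (fun n => U n x) atTop (𝓝 (V x)) :=
  h.unif.tendsto_at x

/-- a limit of negative values is nonpositive -/
lemma Top0.nonpos (h : Top0 A B V U) {x : ℝ} (hx : ∀ n, U n x < 0) : V x ≤ 0 :=
  le_of_tendsto' (h.tendsto x) fun n => (hx n).le

lemma Top0.cube_pos (h : Top0 A B V U) (x : ℝ) (n : ℕ) : 0 < V x ^ 3 - U n x ^ 3 :=
  sub_pos.2 (cube_lt.2 (h.lt n x))

lemma Top0.Yv_pos (h : Top0 A B V U) (x : ℝ) (n : ℕ) : 0 < Yv V U x n :=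
  Real.rpow_pos_of_pos (h.cube_pos x n) _

lemma Top0.Yv_tendsto (h : Top0 A B V U) (x : ℝ) : Tendsto (Yv V U x) atTop atTop := by
  have h1 : Tendsto (fun n => V x ^ 3 - U n x ^ 3) atTop (𝓝[>] 0) := by
    refine tendsto_nhdsWithin_iff.2 ⟨?_, Eventually.of_forall fun n => h.cube_pos x n⟩
    have := ((h.tendsto x).pow 3).const_sub (V x ^ 3)
    rwa [sub_self] at this
  exact (tendsto_rpow_neg_nhdsGT_zero (by norm_num)).comp h1

lemma Top.Yv_per (h : Top A B V U) (x : ℝ) : Yv V U (x + 2 * π) = Yv V U x :=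
  funext fun n => by simp only [Yv, h.perV x, h.perU n x]

end Symm

end Pool.Agent.MP_c2f0e4_an

end

section

open Set Filter Topology Real Asymptotics

namespace Pool.Agent.MP_c2f0e4_an

/-! ## 1. analytic fixed point machinery -/

def SupStmt : Prop :=
  ∀ (G : (ℝ × ℝ) × ℝ → ℝ) (e0 : (ℝ × ℝ) × ℝ), AnalyticAt ℝ G e0 →
    ∃ N : C(unitInterval, (ℝ × ℝ) × ℝ) → C(unitInterval, ℝ),
      AnalyticAt ℝ N (ContinuousMap.const unitInterval e0) ∧
      ∀ᶠ z in 𝓝 (ContinuousMap.const unitInterval e0), ∀ t, N z t = G (z t)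

def FPStmt : Prop :=
  ∀ (K : C(unitInterval, ℝ) →L[ℝ] C(unitInterval, ℝ))
    (l : (ℝ × ℝ) →L[ℝ] C(unitInterval, ℝ × ℝ)) (c : (ℝ × ℝ) →L[ℝ] C(unitInterval, ℝ))
    (c0 : C(unitInterval, ℝ)) (G : (ℝ × ℝ) × ℝ → ℝ) (y0 : ℝ),
    AnalyticAt ℝ G (0, y0) → HasDerivAt (fun y => G (0, y)) 0 y0 →
    c0 + K (ContinuousMap.const unitInterval (G (0, y0))) = ContinuousMap.const unitInterval y0 →
    ∃ Z : ℝ × ℝ → C(unitInterval, ℝ), AnalyticAt ℝ Z 0 ∧
      Z 0 = ContinuousMap.const unitInterval y0 ∧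
      (∀ᶠ p in 𝓝 (0 : ℝ × ℝ), ∃ g : C(unitInterval, ℝ),
        (∀ t, g t = G (l p t, Z p t)) ∧ Z p = c0 + c p + K g) ∧
      ∃ η : ℝ, 0 < η ∧ ∀ (p : ℝ × ℝ) (z g : C(unitInterval, ℝ)), ‖p‖ < η →
        ‖z - ContinuousMap.const unitInterval y0‖ < η → (∀ t, g t = G (l p t, z t)) →
        z = c0 + c p + K g → z = Z p

/-- analytic local first integral of `y' = F (x, y)` -/
def AFStmt : Prop :=
  ∀ (F : ℝ × ℝ → ℝ) (p0 : ℝ × ℝ), AnalyticAt ℝ F p0 →
    ∃ H : ℝ × ℝ → ℝ, AnalyticAt ℝ H p0 ∧ fderiv ℝ H p0 (0, 1) ≠ 0 ∧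
      ∀ᶠ p in 𝓝 p0, fderiv ℝ H p (1, F p) = 0

/-- Briot-Bouquet: existence of an analytic solution, and uniqueness among solutions with a limit -/
def BBStmt : Prop :=
  ∀ (Ψ : ℝ × ℝ → ℝ) (ν y0 : ℝ), 1 ≤ ν → AnalyticAt ℝ Ψ (0, y0) → Ψ (0, y0) = ν * y0 →
    HasDerivAt (fun y => Ψ (0, y)) 0 y0 →
    ∃ Y : ℝ → ℝ, AnalyticAt ℝ Y 0 ∧ Y 0 = y0 ∧
      (∀ᶠ t in 𝓝 (0 : ℝ), t * deriv Y t + ν * Y t = Ψ (t, Y t)) ∧
      ∀ y : ℝ → ℝ, Tendsto y (𝓝[≠] 0) (𝓝 y0) →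
        (∀ᶠ t in 𝓝[≠] (0 : ℝ), ∃ y', HasDerivAt y y' t ∧ t * y' + ν * y t = Ψ (t, y t)) →
        ∀ᶠ t in 𝓝[≠] (0 : ℝ), y t = Y t

/-! ## 2. general theory of the scalar equation -/

def LocStmt : Prop :=
  ∀ A B : ℝ → ℝ, An A → An B → ∀ x0 u0 : ℝ, (A x0 = 0 → u0 ≠ 0) →
    ∃ (H : ℝ × ℝ → ℝ) (r : ℝ), 0 < r ∧
      (∀ x u, |x - x0| < r → |u - u0| < r →
        AnalyticAt ℝ H (x, u) ∧ (u ≠ 0 → fderiv ℝ H (x, u) (0, 1) ≠ 0)) ∧
      (∀ x, |x - x0| < r → InjOn (fun u => H (x, u)) (Ioo (u0 - r) (u0 + r))) ∧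
      ∀ U, Sol A B U → ∀ a b, a ≤ b → (∀ x ∈ Icc a b, |x - x0| < r ∧ |U x - u0| < r) →
        H (a, U a) = H (b, U b)

def UniqStmt : Prop :=
  ∀ A B U V : ℝ → ℝ, An A → An B → Sol A B U → Sol A B V → ∀ a b x0 : ℝ, x0 ∈ Icc a b →
    GoodOn A V (Icc a b) → U x0 = V x0 → ∀ x ∈ Icc a b, U x = V x

def BoundStmt : Prop :=
  ∀ A B : ℝ → ℝ, Continuous A → Continuous B → ∀ a b M : ℝ, ∃ M' : ℝ, ∀ U, Sol A B U →
    ∀ x0 ∈ Icc a b, |U x0| ≤ M → ∀ x ∈ Icc a b, |U x| ≤ M'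

def LimStmt : Prop :=
  ∀ A B : ℝ → ℝ, Continuous A → Continuous B → ∀ (l : Filter ℕ) (U : ℕ → ℝ → ℝ) (V : ℝ → ℝ),
    l.NeBot → (∀ n, Sol A B (U n)) → (∀ x, Tendsto (fun n => U n x) l (𝓝 (V x))) →
    Sol A B V ∧ ∀ a b, TendstoUniformlyOn U V l (Icc a b)

def ExistStmt : Prop :=
  ∀ A B : ℝ → ℝ, Continuous A → Continuous B → ∀ x0 u0 : ℝ, ∃ U, Sol A B U ∧ U x0 = u0

def DepStmt : Prop :=
  ∀ A B V : ℝ → ℝ, An A → An B → Sol A B V → ∀ a b x0 : ℝ, x0 ∈ Icc a b →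
    GoodOn A V (Icc a b) → ∀ η : ℝ, 0 < η → ∃ δ : ℝ, 0 < δ ∧ ∀ U, Sol A B U →
      |U x0 - V x0| < δ → ∀ x ∈ Icc a b, |U x - V x| < η

def TransitStmt : Prop :=
  ∀ A B V : ℝ → ℝ, An A → An B → Sol A B V → ∀ a b : ℝ, a ≤ b → GoodOn A V (Icc a b) →
    V a ≠ 0 → V b ≠ 0 →
    ∃ R : ℝ → ℝ, AnalyticAt ℝ R (V a) ∧ R (V a) = V b ∧ deriv R (V a) ≠ 0 ∧
      ∃ η : ℝ, 0 < η ∧ ∀ U, Sol A B U → (∀ x ∈ Icc a b, |U x - V x| < η) → U b = R (U a)

def ExtStmt : Prop :=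
  ∀ A B U : ℝ → ℝ, Sys A B → Sol A B U → ∀ a : ℝ, GoodOn A U (Icc a (a + 2 * π)) →
    U (a + 2 * π) = U a → GP A B U

def PerStmt : Prop :=
  ∀ A B U : ℝ → ℝ, Sys A B → Concl A B → Sol A B U → ∀ a : ℝ,
    GoodOn A U (Icc a (a + 3 * π)) → GP A B U

def MulStmt : Prop :=
  ∀ A B U : ℝ → ℝ, Sys A B → Sol A B U → GoodOn A U univ → ∀ m : ℕ, 0 < m →
    Function.Periodic U (m * (2 * π)) → GP A B U

def MaxStmt : Prop := ∀ A B : ℝ → ℝ, Sys A B → Fam A B → Pole A B ∨ Conf A B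

def PoleStmt : Prop :=
  ∀ a0 a1 a2 a3 b : ℝ, b ≠ 0 → Pole (Cub a0 a1 a2 a3) (Lin b 0) → a1 = 0 ∧ a3 = 0

/-! ## 3. the sphere and the plane -/

/-- the point of the sphere with longitude `θ` and slope `u` -/
noncomputable def Pt (θ u : ℝ) : ℝ × ℝ × ℝ :=
  (cos θ / √(1 + u ^ 2), sin θ / √(1 + u ^ 2), u / √(1 + u ^ 2))

def SphCoreStmt : Prop :=
  ∀ (b1 b2 a1 a2 a3 : ℝ) (γ : ℝ → ℝ × ℝ × ℝ) (θ0 u0 : ℝ), IsSol (fieldS b1 b2 a1 a2 a3) γ →
    γ 0 = Pt θ0 u0 → (Cub a1 a2 a3 0 θ0 = 0 → u0 ≠ 0) →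
    ∃ θ u : ℝ → ℝ, θ 0 = θ0 ∧ u 0 = u0 ∧ StrictMono θ ∧ (∀ t, γ t = Pt (θ t) (u t)) ∧
      (∀ t, Cub a1 a2 a3 0 (θ t) = 0 → u t ≠ 0) ∧
      (∀ t, HasDerivAt θ (u t ^ 2 / (1 + u t ^ 2)) t) ∧
      ∀ t, HasDerivAt u
        (-(Cub a1 a2 a3 0 (θ t) + Lin b1 b2 (θ t) * u t ^ 2) / (1 + u t ^ 2)) t

def RatioStmt : Prop :=
  ∀ A B θ u : ℝ → ℝ, Continuous A → Continuous B → StrictMono θ → Function.Surjective θ →
    (∀ t, HasDerivAt θ (u t ^ 2 / (1 + u t ^ 2)) t) →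
    (∀ t, HasDerivAt u (-(A (θ t) + B (θ t) * u t ^ 2) / (1 + u t ^ 2)) t) →
    ∃ U, Sol A B U ∧ ∀ t, U (θ t) = u t

def SphStmt : Prop :=
  ∀ (b1 b2 a1 a2 a3 : ℝ) (O : Set (ℝ × ℝ × ℝ)), IsOpen O → (O ∩ sph).Nonempty →
    (∀ z ∈ O ∩ sph, OnCycle (fieldS b1 b2 a1 a2 a3) z) → Fam (Cub a1 a2 a3 0) (Lin b1 b2)

def CentreStmt : Prop :=
  ∀ b1 b2 a1 a2 a3 : ℝ, Concl (Cub a1 a2 a3 0) (Lin b1 b2) →
    (∃ r : ℝ, 0 < r ∧ ∀ p : ℝ × ℝ, p ≠ 0 → ‖p‖ < r → OnCycle (fieldP b1 b2 a1 a2 a3) p) ∧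
      ∀ γ : ℝ → ℝ × ℝ, IsSol (fieldP b1 b2 a1 a2 a3) γ → Function.Periodic γ (2 * π)

def GlobStmt : Prop :=
  ∀ b1 b2 a1 a2 a3 : ℝ, Concl (Cub a1 a2 a3 0) (Lin b1 b2) →
    ∀ γ : ℝ → ℝ × ℝ × ℝ, IsSol (fieldS b1 b2 a1 a2 a3) γ → γ 0 ∈ sph →
      (∃ T : ℝ, 0 < T ∧ Function.Periodic γ T) ∨
        ∃ e ∈ closure (range γ), e.2.2 = 0 ∧ fieldS b1 b2 a1 a2 a3 e = 0

/-! ## 4. asymptotic expansions of passage maps -/

def AsyP (Ta Tb : ℕ → ℝ) (lam : ℝ) (e : ℕ → ℝ) (k7 k8 : ℝ) : Prop :=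
  (fun n => Tb n - lam * (Ta n + ∑ i ∈ Finset.range 7, e i * (Ta n)⁻¹ ^ i
    + k7 * (Ta n)⁻¹ ^ 6 * Real.log (Ta n) + k8 * (Ta n)⁻¹ ^ 7 * Real.log (Ta n)))
    =O[atTop] fun n => (Ta n)⁻¹ ^ 7

def Asy (Ta Tb : ℕ → ℝ) (lam m k7 k8 : ℝ) : Prop := ∃ e : ℕ → ℝ, e 0 = m ∧ AsyP Ta Tb lam e k7 k8

def AsyCompStmt : Prop :=
  ∀ (Ta Tb Tc : ℕ → ℝ) (l1 m1 k7 k8 l2 m2 j7 j8 : ℝ), Tendsto Ta atTop atTop → 0 < l1 →
    Asy Ta Tb l1 m1 k7 k8 → Asy Tb Tc l2 m2 j7 j8 →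
    Asy Ta Tc (l1 * l2) (m1 + m2 / l1) (k7 + j7 / l1 ^ 7)
      (k8 + j8 / l1 ^ 8 - 6 * m1 * j7 / l1 ^ 7)

def AsyIdStmt : Prop :=
  ∀ (T : ℕ → ℝ) (lam : ℝ) (e : ℕ → ℝ) (k7 k8 : ℝ), Tendsto T atTop atTop →
    AsyP T T lam e k7 k8 → lam = 1 ∧ (∀ i < 7, e i = 0) ∧ k7 = 0 ∧ k8 = 0

def AsyBTrStmt : Prop :=
  ∀ (Ta Tb : ℕ → ℝ) (l1 l2 c : ℝ) (e : ℕ → ℝ), Tendsto Ta atTop atTop → 0 < l1 →
    AsyP Ta Tb l1 e 0 0 → e 0 = 0 → AsyP Tb Ta l2 (fun i => if i = 5 then c else 0) 0 0 →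
    e 6 = 0

def AsyScaleStmt : Prop :=
  ∀ (Ya Yb : ℕ → ℝ) (μ ν lam : ℝ) (e : ℕ → ℝ) (k7 k8 : ℝ), Tendsto Ya atTop atTop → 0 < μ →
    0 < ν → AsyP (fun n => μ * Ya n) (fun n => ν * Yb n) lam e k7 k8 →
    AsyP Ya Yb (lam * μ / ν)
      (fun i => e i / μ ^ (i + 1) + if i = 6 then k7 * Real.log μ / μ ^ 7 else 0)
      (k7 / μ ^ 7) (k8 / μ ^ 8)

/-! ## 5. the passing lemma -/

structure ChiOK (χ : ℝ → ℝ) (ci : ℝ) : Prop where
  cont : Continuous χ
  even : ∀ ρ, χ (-ρ) = χ ρ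
  bd : ∃ C : ℝ, ∀ ρ, |χ ρ| * (1 + |ρ|) ^ 6 ≤ C ∧ |ρ ^ 6 * χ ρ - ci| * (1 + |ρ|) ^ 6 ≤ C

noncomputable def phi (i : ℕ) (ρ : ℝ) : ℝ := if i = 5 then Real.log |ρ| else ρ ^ i / ρ ^ 5

structure PData (χ : ℝ → ℝ) (ci : ℝ) (q : ℕ → ℝ) (P p : ℕ → ℝ → ℝ) (c e : ℕ → ℝ) (C : ℝ) :
    Prop where
  der : ∀ i ≤ 6, ∀ ρ, HasDerivAt (P i) (p i ρ) ρ
  recur : ∀ n ≤ 6, ∀ ρ, p n ρ = q n * (ρ ^ n * χ ρ - if n = 6 then ci else 0)
    + ∑ i ∈ Finset.range n, q (n - 1 - i) * ρ ^ (n - 1 - i) * χ ρ * (i * P i ρ - ρ * p i ρ)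
  wbd : ∀ i ≤ 6, ∀ ρ, |i * P i ρ - ρ * p i ρ| * (1 + |ρ|) ^ 2 ≤ C * (1 + |ρ|) ^ i
  pos : ∀ i ≤ 6, ∀ ρ, 1 ≤ ρ → |P i ρ - c i * phi i ρ| * ρ ^ 7 ≤ C * ρ ^ i
  neg : ∀ i ≤ 6, ∀ ρ, ρ ≤ -1 → |P i ρ + e i - c i * phi i ρ| * |ρ| ^ 7 ≤ C * |ρ| ^ i
  c5 : c 5 = q 5 * ci
  e0 : e 0 = q 0 * ∫ ρ, χ ρ
  e1 : e 1 = 0
  e6 : q 0 = 0 → q 1 = 0 → q 2 = 0 → e 6 = q 6 * ∫ ρ, (ρ ^ 6 * χ ρ - ci)

def PDataStmt : Prop :=
  ∀ (χ : ℝ → ℝ) (ci : ℝ) (q : ℕ → ℝ), ChiOK χ ci → ∃ P p c e C, PData χ ci q P p c e C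

/-- the hypotheses of the passing lemma -/
structure PHyp (χ : ℝ → ℝ) (q : ℕ → ℝ) (R : ℝ → ℝ) (a b : ℝ) (T : ℕ → ℝ → ℝ) : Prop where
  ha : a < 0
  hb : 0 < b
  contR : ContinuousOn R (Icc a b)
  lipR : ∃ L : ℝ, ∀ τ ∈ Icc a b, |R τ - q 6| ≤ L * |τ|
  pos : ∀ n, ∀ τ ∈ Icc a b, 0 < T n τ
  ode : ∀ n, ∀ τ ∈ Icc a b, HasDerivAt (T n)
    (T n τ * (∑ k ∈ Finset.range 6, q k * τ ^ k + τ ^ 6 * R τ) * χ (τ * T n τ)) τ
  lim : Tendsto (fun n => T n a) atTop atTop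

/-- the approximate first integral -/
noncomputable def PInt (P : ℕ → ℝ → ℝ) (τ T Λ : ℝ) : ℝ :=
  T - ∑ i ∈ Finset.range 7, P i (τ * T) * T⁻¹ ^ i - T⁻¹ ^ 5 * Λ

def PEstStmt : Prop :=
  ∀ (χ : ℝ → ℝ) (ci : ℝ) (q : ℕ → ℝ) (P p : ℕ → ℝ → ℝ) (c e : ℕ → ℝ) (C : ℝ) (R : ℝ → ℝ)
    (a b : ℝ) (T : ℕ → ℝ → ℝ), ChiOK χ ci → PData χ ci q P p c e C → PHyp χ q R a b T →
    ∃ Λa Λb k : ℝ, 0 < k ∧ (∀ n, k * T n a ≤ T n b) ∧
      (fun n => PInt P b (T n b) Λb - PInt P a (T n a) Λa) =O[atTop] fun n => (T n a)⁻¹ ^ 7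

def PBdStmt : Prop :=
  ∀ (χ : ℝ → ℝ) (ci : ℝ) (q : ℕ → ℝ) (P p : ℕ → ℝ → ℝ) (c e : ℕ → ℝ) (C : ℝ) (a b Λa Λb k : ℝ)
    (Ta Tb : ℕ → ℝ), PData χ ci q P p c e C → a < 0 → 0 < b → 0 < k → (∀ n, k * Ta n ≤ Tb n) →
    Tendsto Ta atTop atTop →
    ((fun n => PInt P b (Tb n) Λb - PInt P a (Ta n) Λa) =O[atTop] fun n => (Ta n)⁻¹ ^ 7) →
    ∃ ca cb : ℝ, (fun n => Tb n - cb * (Tb n)⁻¹ ^ 5 - c 5 * (Tb n)⁻¹ ^ 5 * Real.log (Tb n)
      - (Ta n + ∑ i ∈ Finset.range 7, e i * (Ta n)⁻¹ ^ i - ca * (Ta n)⁻¹ ^ 5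
        - c 5 * (Ta n)⁻¹ ^ 5 * Real.log (Ta n))) =O[atTop] fun n => (Ta n)⁻¹ ^ 7

def PInvStmt : Prop :=
  ∀ (Ta Tb : ℕ → ℝ) (e : ℕ → ℝ) (ca cb κ : ℝ), Tendsto Ta atTop atTop → Tendsto Tb atTop atTop →
    e 1 = 0 →
    ((fun n => Tb n - cb * (Tb n)⁻¹ ^ 5 - κ * (Tb n)⁻¹ ^ 5 * Real.log (Tb n)
      - (Ta n + ∑ i ∈ Finset.range 7, e i * (Ta n)⁻¹ ^ i - ca * (Ta n)⁻¹ ^ 5
        - κ * (Ta n)⁻¹ ^ 5 * Real.log (Ta n))) =O[atTop] fun n => (Ta n)⁻¹ ^ 7) →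
    ∃ e' : ℕ → ℝ, AsyP Ta Tb 1 e' (-5 * κ * e 0) (15 * κ * e 0 ^ 2) ∧ e' 0 = e 0 ∧
      (e 0 = 0 → e' 6 = e 6)

def PassStmt : Prop :=
  ∀ (χ : ℝ → ℝ) (ci : ℝ) (q : ℕ → ℝ) (R : ℝ → ℝ) (a b : ℝ) (T : ℕ → ℝ → ℝ), ChiOK χ ci →
    PHyp χ q R a b T →
    ∃ e : ℕ → ℝ, AsyP (fun n => T n a) (fun n => T n b) 1 e (-5 * (q 5 * ci) * e 0)
        (15 * (q 5 * ci) * e 0 ^ 2) ∧ e 0 = q 0 * ∫ ρ, χ ρ ∧
      (q 0 = 0 → q 1 = 0 → q 2 = 0 → e 6 = q 6 * ∫ ρ, (ρ ^ 6 * χ ρ - ci))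

/-- the concrete kernel; `s = 1` or `s = -1` -/
noncomputable def chi (s ρ : ℝ) : ℝ :=
  ρ ^ 2 * (ρ ^ 2 + cb (ρ ^ 6 + s)) / (ρ ^ 4 + ρ ^ 2 * cb (ρ ^ 6 + s) + cb (ρ ^ 6 + s) ^ 2) - 2 / 3

def ChiStmt : Prop := ∀ s : ℝ, (s = 1 ∨ s = -1) → ChiOK (chi s) (-s / 9)

def ChiIntStmt : Prop :=
  ∀ s : ℝ, (s = 1 ∨ s = -1) → (∫ ρ, chi s ρ) < 0 ∧ (∫ ρ, (ρ ^ 6 * chi s ρ - -s / 9)) ≠ 0

/-! ## 6. simple cusps -/

def BootStmt : Prop :=
  ∀ A B V : ℝ → ℝ, An A → Continuous B → Sol A B V → A 0 = 0 → V 0 = 0 →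
    (fun t => V (t ^ 3) ^ 3 + 3 / 2 * deriv A 0 * t ^ 6) =O[𝓝 0] fun t : ℝ => t ^ 7

def SignStmt : Prop :=
  ∀ A B V : ℝ → ℝ, An A → Continuous B → Sol A B V → ∀ z : ℝ, Touch A V z → deriv A z ≠ 0 →
    ∀ᶠ x in 𝓝[≠] z, deriv A z * V x < 0

def CuspWStmt : Prop :=
  ∀ (ε : ℝ) (A B V : ℝ → ℝ), (ε = 1 ∨ ε = -1) → An A → An B → Sol A B V → A 0 = 0 →
    deriv A 0 = -2 * ε / 3 → V 0 = 0 →
    ∃ W : ℝ → ℝ, AnalyticAt ℝ W 0 ∧ W 0 = ε ∧ ∀ᶠ t in 𝓝 (0 : ℝ), V (t ^ 3) = t ^ 2 * W t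

def CuspXDStmt : Prop :=
  ∀ (ε : ℝ) (A B V : ℝ → ℝ), (ε = 1 ∨ ε = -1) → An A → An B → Sol A B V → A 0 = 0 →
    deriv A 0 = -2 * ε / 3 → V 0 = 0 →
    ∃ X D : ℝ → ℝ, AnalyticAt ℝ X 0 ∧ AnalyticAt ℝ D 0 ∧ X 0 = 1 ∧ D 0 = 1 ∧
      ∀ᶠ τ in 𝓝 (0 : ℝ), V (τ ^ 3 * X τ) = ε * τ ^ 2 * D τ ∧
        B (τ ^ 3 * X τ) * (3 * X τ + τ * deriv X τ) = -(3 / 2) * ε * deriv D τ ∧
        A (τ ^ 3 * X τ) * (3 * X τ + τ * deriv X τ)
          = -ε * τ ^ 3 * D τ ^ 2 * (2 * D τ - τ * deriv D τ / 2)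

def CuspODEStmt : Prop :=
  ∀ (ε : ℝ) (A B V U X D : ℝ → ℝ) (τ X' D' : ℝ), (ε = 1 ∨ ε = -1) → Sol A B V → Sol A B U →
    HasDerivAt X X' τ → HasDerivAt D D' τ → 0 < D τ → V (τ ^ 3 * X τ) = ε * τ ^ 2 * D τ →
    B (τ ^ 3 * X τ) * (3 * X τ + τ * X') = -(3 / 2) * ε * D' →
    U (τ ^ 3 * X τ) < V (τ ^ 3 * X τ) →
    HasDerivAt (fun σ => √(D σ) * (V (σ ^ 3 * X σ) ^ 3 - U (σ ^ 3 * X σ) ^ 3) ^ (-(1 / 6) : ℝ))
      (√(D τ) * (V (τ ^ 3 * X τ) ^ 3 - U (τ ^ 3 * X τ) ^ 3) ^ (-(1 / 6) : ℝ)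
        * (-(3 / 4) * D' / D τ)
        * chi (-ε) (τ * (√(D τ) * (V (τ ^ 3 * X τ) ^ 3 - U (τ ^ 3 * X τ) ^ 3) ^ (-(1 / 6) : ℝ))))
      τ

def JetStmt : Prop :=
  ∀ (ε : ℝ) (A B X D : ℝ → ℝ), (ε = 1 ∨ ε = -1) → AnalyticAt ℝ A 0 → AnalyticAt ℝ B 0 →
    AnalyticAt ℝ X 0 → AnalyticAt ℝ D 0 → A 0 = 0 → deriv A 0 = -2 * ε / 3 → X 0 = 1 → D 0 = 1 →
    (∀ᶠ τ in 𝓝 (0 : ℝ),
        B (τ ^ 3 * X τ) * (3 * X τ + τ * deriv X τ) = -(3 / 2) * ε * deriv D τ ∧
        A (τ ^ 3 * X τ) * (3 * X τ + τ * deriv X τ)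
          = -ε * τ ^ 3 * D τ ^ 2 * (2 * D τ - τ * deriv D τ / 2)) →
    ∃ (q : ℕ → ℝ) (R : ℝ → ℝ), AnalyticAt ℝ R 0 ∧ R 0 = q 6 ∧
      (∀ᶠ τ in 𝓝 (0 : ℝ), -(3 / 4) * deriv D τ / D τ
        = ∑ k ∈ Finset.range 6, q k * τ ^ k + τ ^ 6 * R τ) ∧
      q 0 = 3 / 2 * ε * B 0 ∧
      q 5 = 23328 / 1925 * B 0 ^ 2 *
        (deriv (deriv A) 0 / 2 * B 0 + ε * deriv B 0 + 36 / 343 * B 0 ^ 4) ∧
      (B 0 = 0 → q 1 = 0 ∧ q 2 = 0 ∧
        q 6 = 9 / 8 * deriv (deriv A) 0 * deriv B 0 + 3 / 4 * ε * deriv (deriv B) 0)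

/-- the invariant of a simple cusp -/
noncomputable def gam (A B : ℝ → ℝ) (z : ℝ) : ℝ :=
  (deriv (deriv A) z / 2 * B z - 3 / 2 * deriv A z * deriv B z) / B z ^ 4 + 36 / 343

def CuspStmt : Prop :=
  ∀ ε : ℝ, (ε = 1 ∨ ε = -1) → ∃ Cε : ℝ, Cε ≠ 0 ∧
    ∀ (A B V : ℝ → ℝ) (U : ℕ → ℝ → ℝ) (z : ℝ), An A → An B → Top0 A B V U → Touch A V z →
      ε * deriv A z < 0 → ∀ η : ℝ, 0 < η →
      ∃ a b : ℝ, z - η < a ∧ a < z ∧ z < b ∧ b < z + η ∧ V a ≠ 0 ∧ V b ≠ 0 ∧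
        ∃ (lam w : ℝ) (e : ℕ → ℝ), 0 < lam ∧ 0 < w ∧ e 0 = -ε * w * B z ∧
          AsyP (Yv V U a) (Yv V U b) lam e (-5 * (Cε * gam A B z) * e 0 ^ 7)
            (15 * (Cε * gam A B z) * e 0 ^ 8) ∧
          (B z = 0 → e 6 = 0 →
            deriv (deriv A) z * deriv B z = deriv A z * deriv (deriv B) z)

/-- regular transit, in the two section coordinates -/
def TrStmt : Prop :=
  ∀ (A B V : ℝ → ℝ) (U : ℕ → ℝ → ℝ) (a b : ℝ), An A → An B → Top0 A B V U → a ≤ b →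
    GoodOn A V (Icc a b) → V a ≠ 0 → V b ≠ 0 →
    (∃ lam c : ℝ, 0 < lam ∧
      AsyP (Yv V U a) (Yv V U b) lam (fun i => if i = 5 then c else 0) 0 0) ∧
    ∃ Φ : ℝ → ℝ, AnalyticAt ℝ Φ 0 ∧ Φ 0 = 0 ∧ 0 < deriv Φ 0 ∧
      ∀ᶠ n in atTop, V b - U n b = Φ (V a - U n a)

def C1Stmt : Prop :=
  ∀ (A B V : ℝ → ℝ) (U : ℕ → ℝ → ℝ) (z : ℝ), An A → An B → Top A B V U → One A V z →
    Function.Periodic A (2 * π) → deriv A z ≠ 0 →
    B z = 0 ∧ deriv (deriv A) z * deriv B z = deriv A z * deriv (deriv B) z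

/-- the relation forced by two touches -/
def Rel2 (A B : ℝ → ℝ) (z1 z2 : ℝ) : Prop :=
  ∃ w1 w2 : ℝ, 0 < w1 ∧ 0 < w2 ∧ w1 * B z1 + w2 * B z2 = 0 ∧
    (B z1 ≠ 0 → gam A B z1 = gam A B z2)

/-- the relations forced by three touches -/
def Rel3 (A B : ℝ → ℝ) (z1 z2 z3 : ℝ) : Prop :=
  ∃ w1 w2 w3 : ℝ, 0 < w1 ∧ 0 < w2 ∧ 0 < w3 ∧ w1 * B z1 + w2 * B z2 + w3 * B z3 = 0 ∧
    (B z1 ≠ 0 → B z2 ≠ 0 → gam A B z1 * (w1 * B z1) ^ 6 = gam A B z2 * (w2 * B z2) ^ 6) ∧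
    (B z1 ≠ 0 → B z3 ≠ 0 → gam A B z1 * (w1 * B z1) ^ 6 = gam A B z3 * (w3 * B z3) ^ 6) ∧
    (B z2 ≠ 0 → B z3 ≠ 0 → gam A B z2 * (w2 * B z2) ^ 6 = gam A B z3 * (w3 * B z3) ^ 6)

def C2Stmt : Prop :=
  ∀ (A B V : ℝ → ℝ) (U : ℕ → ℝ → ℝ) (z1 z2 : ℝ), An A → An B → Top A B V U →
    Function.Periodic A (2 * π) → Two A V z1 z2 → Rel2 A B z1 z2

def C3Stmt : Prop :=
  ∀ (A B V : ℝ → ℝ) (U : ℕ → ℝ → ℝ) (z1 z2 z3 : ℝ), An A → An B → Top A B V U →
    Function.Periodic A (2 * π) → Three A V z1 z2 z3 → Rel3 A B z1 z2 z3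

/-! ## 7. double zeros -/

def D1Stmt : Prop :=
  ∀ (A B V : ℝ → ℝ) (U : ℕ → ℝ → ℝ) (δ c C : ℝ), Continuous A → Continuous B → Top0 A B V U →
    0 < δ → 0 < c → (∀ x ∈ Icc (-δ) δ, c * x ^ 2 ≤ A x ∧ A x ≤ C * x ^ 2) → V 0 = 0 →
    (∀ x ∈ Icc (-δ) δ, x ≠ 0 → V x < 0) → ∀ a ∈ Ico (-δ) 0, ∀ b ∈ Ioc 0 δ,
      Tendsto (fun n => (V b - U n b) / (V a - U n a)) atTop (𝓝 0)

def KappaStmt : Prop :=
  ∀ A B G V : ℝ → ℝ, AnalyticAt ℝ G 0 → AnalyticAt ℝ B 0 → 0 < G 0 →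
    (∀ᶠ x in 𝓝 (0 : ℝ), A x = x ^ 2 * G x) → Sol A B V → V 0 = 0 →
    (∀ᶠ x in 𝓝[≠] (0 : ℝ), x * V x < 0) →
    ∃ κ : ℝ → ℝ, AnalyticAt ℝ κ 0 ∧ κ 0 < 0 ∧ κ 0 ^ 3 + B 0 * κ 0 ^ 2 + G 0 = 0 ∧
      ∀ᶠ x in 𝓝 (0 : ℝ), V x = x * κ x

/-- the local model at a double zero, in the coordinate `ξ = V` -/
structure Model (m : ℝ → ℝ) (d0 : ℝ) (u : ℕ → ℝ → ℝ) : Prop where
  dpos : 0 < d0
  an : AnalyticAt ℝ m 0
  ode : ∀ n, ∀ ξ ∈ Icc (-d0) d0, HasDerivAt (fun y => u n y ^ 3)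
    (3 * ((1 + m ξ) * ξ ^ 2 - m ξ * u n ξ ^ 2)) ξ
  lt : ∀ n, ∀ ξ ∈ Icc (-d0) d0, u n ξ < ξ
  unif : TendstoUniformlyOn u (fun ξ => ξ) atTop (Icc (-d0) d0)

/-- the return along the regular part of the polycycle -/
def ModelTr (d0 : ℝ) (u : ℕ → ℝ → ℝ) : Prop :=
  ∀ d ∈ Ioc 0 d0, ∃ Φ : ℝ → ℝ, AnalyticAt ℝ Φ 0 ∧ Φ 0 = 0 ∧ 0 < deriv Φ 0 ∧
    ∀ᶠ n in atTop, d - u n d = Φ (-d - u n (-d))

def ModelStmt : Prop :=
  ∀ (A B V κ : ℝ → ℝ) (U : ℕ → ℝ → ℝ), AnalyticAt ℝ B 0 → Top0 A B V U → AnalyticAt ℝ κ 0 →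
    κ 0 < 0 → (∀ᶠ x in 𝓝 (0 : ℝ), V x = x * κ x) →
    ∃ (m h : ℝ → ℝ) (d0 : ℝ), Model m d0 (fun n ξ => U n (h ξ)) ∧
      (∀ ξ ∈ Icc (-d0) d0, V (h ξ) = ξ ∧ |h ξ| < 1 ∧ (ξ ≠ 0 → ξ * h ξ < 0)) ∧
      ∀ᶠ x in 𝓝 (0 : ℝ), B x = m (V x) * deriv V x

def BarStmt : Prop := ∀ (m : ℝ → ℝ) (d0 : ℝ) (u : ℕ → ℝ → ℝ), Model m d0 u → m 0 < 3

def Dh (m0 u ξ : ℝ) : ℝ := u ^ 2 + (1 + m0) * ξ * (u + ξ)

noncomputable def Theta (m0 w : ℝ) : ℝ :=
  2 / √((3 - m0) * (1 + m0)) *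
    arctan ((2 * (3 + 2 * m0) * w - (3 + m0)) / √((3 - m0) * (1 + m0)))

/-- first integral of the frozen model -/
noncomputable def LL (m0 u ξ : ℝ) : ℝ :=
  1 / (3 + 2 * m0) * Real.log (ξ - u) + (1 + m0) / (3 + 2 * m0) * Real.log (Dh m0 u ξ)
    - (1 + m0) * m0 / (3 + 2 * m0) * Theta m0 (ξ / (ξ - u))

def LLderStmt : Prop :=
  ∀ m0 : ℝ, -1 < m0 → m0 < 3 →
    (∃ c C : ℝ, 0 < c ∧ ∀ u ξ : ℝ, c * (ξ ^ 2 + (ξ - u) ^ 2) ≤ Dh m0 u ξ ∧
      Dh m0 u ξ ≤ C * (ξ ^ 2 + (ξ - u) ^ 2)) ∧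
    ContinuousOn (fun p : ℝ × ℝ => LL m0 p.1 p.2) {p | p.1 < p.2} ∧
    ∀ (u : ℝ → ℝ) (u' ξ m : ℝ), HasDerivAt u u' ξ → u ξ < ξ → u ξ ≠ 0 →
      u ξ ^ 2 * u' = (1 + m) * ξ ^ 2 - m * u ξ ^ 2 →
      HasDerivAt (fun y => LL m0 (u y) y) (-(m - m0) * (u ξ + ξ) / Dh m0 (u ξ) ξ) ξ

def LLbdStmt : Prop :=
  ∀ (m0 d : ℝ) (Φ : ℝ → ℝ), -1 < m0 → m0 < 3 → 0 < d → AnalyticAt ℝ Φ 0 → Φ 0 = 0 →
    0 < deriv Φ 0 → ∃ c0 c1 C : ℝ, ∀ᶠ s in 𝓝[>] (0 : ℝ),
      |LL m0 (d - Φ s) d - LL m0 (-d - s) (-d) - c0 - c1 * s| ≤ C * s ^ 2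

/-- the corrected first integral `K` and the size of `s = ξ - u` in terms of `s0 = - u 0` -/
structure Core (m0 : ℝ) (mu : ℝ → ℝ) (d : ℝ) (u K : ℕ → ℝ → ℝ) : Prop where
  cont : ∀ n, ContinuousOn (K n) (Icc (-d) d)
  der : ∀ n, ∀ ξ ∈ Ioo (-d) d, u n ξ ≠ 0 → HasDerivAt (K n)
    (-mu ξ * (ξ - u n ξ) * (2 * u n ξ + ξ) / ((3 + 2 * m0) * Dh m0 (u n ξ) ξ)) ξ
  fin : ∀ n, {ξ ∈ Icc (-d) d | u n ξ = 0}.Finite
  size : ∃ C : ℝ, 0 < C ∧ ∀ n, ∀ ξ ∈ Icc (-d) d,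
    ξ - u n ξ ≤ C * (-u n 0) ∧ (|ξ| ≤ -u n 0 → -u n 0 ≤ C * (ξ - u n ξ)) ∧
    (ξ - u n ξ) * |ξ| ^ (2 + 2 * m0) ≤ C * (-u n 0) ^ (3 + 2 * m0) ∧
    (-u n 0 ≤ |ξ| → (-u n 0) ^ (3 + 2 * m0) ≤ C * ((ξ - u n ξ) * |ξ| ^ (2 + 2 * m0)))
  bdry : ∃ c1 C : ℝ, ∀ᶠ n in atTop,
    |K n d - K n (-d) - c1 * (-d - u n (-d))| ≤ C * (-d - u n (-d)) ^ 2

def CoreAll (m0 : ℝ) (mu : ℝ → ℝ) (d0 : ℝ) (u : ℕ → ℝ → ℝ) : Prop :=
  ∃ d1 : ℝ, 0 < d1 ∧ d1 ≤ d0 ∧ ∀ d ∈ Ioc 0 d1, ∃ K, Core m0 mu d u K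

def CoreStmt : Prop :=
  ∀ (m mu : ℝ → ℝ) (m0 d0 : ℝ) (u : ℕ → ℝ → ℝ), Model m d0 u → ModelTr d0 u → -1 < m0 → m0 < 3 →
    AnalyticAt ℝ mu 0 → (∀ ξ, m ξ = m0 + ξ * mu ξ) → CoreAll m0 mu d0 u

def J1Stmt : Prop :=
  ∀ (m mu : ℝ → ℝ) (m0 d0 : ℝ) (u : ℕ → ℝ → ℝ), Model m d0 u → -1 < m0 → m0 < 3 →
    AnalyticAt ℝ mu 0 → (∀ ξ, m ξ = m0 + ξ * mu ξ) → CoreAll m0 mu d0 u → mu 0 = 0

def J2aStmt : Prop :=
  ∀ (m mt : ℝ → ℝ) (m0 d0 : ℝ) (u : ℕ → ℝ → ℝ), Model m d0 u → -1 / 2 < m0 → m0 < 3 → m0 ≠ 0 →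
    AnalyticAt ℝ mt 0 → (∀ ξ, m ξ = m0 + ξ * (ξ * mt ξ)) →
    CoreAll m0 (fun ξ => ξ * mt ξ) d0 u → mt 0 = 0

def J2bStmt : Prop :=
  ∀ (m mt : ℝ → ℝ) (d0 : ℝ) (u : ℕ → ℝ → ℝ), Model m d0 u → AnalyticAt ℝ mt 0 →
    CoreAll (-1 / 2) (fun ξ => ξ * mt ξ) d0 u → mt 0 = 0

def J2cStmt : Prop :=
  ∀ (m mt : ℝ → ℝ) (m0 d0 : ℝ) (u : ℕ → ℝ → ℝ), Model m d0 u → ModelTr d0 u → -1 < m0 →
    m0 < -1 / 2 → AnalyticAt ℝ mt 0 → (∀ ξ, m ξ = m0 + ξ * (ξ * mt ξ)) →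
    CoreAll m0 (fun ξ => ξ * mt ξ) d0 u → mt 0 = 0

/-- the second-order corrector and its derivative along solutions of the model -/
noncomputable def Pi2 (m0 u ξ : ℝ) : ℝ :=
  (u - ξ) * ((1 + m0) * (4 + 5 * m0) * ξ ^ 3 + 2 * (1 + m0) * (4 + 5 * m0) * u * ξ ^ 2
      + (4 + 5 * m0) * (3 + 2 * m0) * u ^ 2 * ξ + (2 + m0) * (3 + 2 * m0) * u ^ 3)
    / ((1 + m0) * (3 + 2 * m0) * (1 + 2 * m0) * (10 + 9 * m0) * Dh m0 u ξ)

noncomputable def Gam2 (m0 u ξ : ℝ) : ℝ :=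
  (6 * (1 + m0) * (1 + 2 * m0) * ξ ^ 3 + 12 * (1 + m0) ^ 2 * u * ξ ^ 2
      + (8 + 13 * m0 + 3 * m0 ^ 2) * u ^ 2 * ξ + 2 * (2 + m0) * u ^ 3)
    / ((1 + m0) * (1 + 2 * m0) * (10 + 9 * m0) * Dh m0 u ξ ^ 2)

def Pi2Stmt : Prop :=
  ∀ (m0 : ℝ) (u : ℝ → ℝ) (u' ξ m : ℝ), -1 < m0 → m0 ≠ -1 / 2 → Dh m0 (u ξ) ξ ≠ 0 →
    HasDerivAt u u' ξ → u ξ ≠ 0 → u ξ ^ 2 * u' = (1 + m) * ξ ^ 2 - m * u ξ ^ 2 →
    HasDerivAt (fun y => Pi2 m0 (u y) y)
      (ξ * (ξ - u ξ) * (2 * u ξ + ξ) / ((3 + 2 * m0) * Dh m0 (u ξ) ξ)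
        + 3 * m0 / ((1 + 2 * m0) * (10 + 9 * m0)) * (ξ - u ξ) ^ 3 / Dh m0 (u ξ) ξ
        + (m - m0) * Gam2 m0 (u ξ) ξ * (ξ ^ 2 - u ξ ^ 2)) ξ

def TrigStmt : Prop :=
  ∀ (a a' b0 b1 m0 : ℝ) (V m mt : ℝ → ℝ), a ≠ 0 → AnalyticAt ℝ V 0 → V 0 = 0 → deriv V 0 ≠ 0 →
    (∀ᶠ x in 𝓝 (0 : ℝ), Cub 0 0 a a' x = -V x ^ 2 * (deriv V x + Lin b0 b1 x)) →
    (∀ᶠ x in 𝓝 (0 : ℝ), Lin b0 b1 x = m (V x) * deriv V x) → AnalyticAt ℝ mt 0 →
    (∀ ξ, m ξ = m0 + ξ * (ξ * mt ξ)) → (m0 ≠ 0 → mt 0 = 0) →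
    (b0 = 0 ∧ b1 = 0) ∨ (b1 = 0 ∧ a' = 0)

def DblCoreStmt : Prop :=
  ∀ (a a' b0 b1 : ℝ) (V : ℝ → ℝ) (U : ℕ → ℝ → ℝ), 0 < a → Top (Cub 0 0 a a') (Lin b0 b1) V U →
    One (Cub 0 0 a a') V 0 → (b0 = 0 ∧ b1 = 0) ∨ (b1 = 0 ∧ a' = 0)

/-! ## 8. triple zeros -/

def T1Stmt : Prop :=
  ∀ (A B V : ℝ → ℝ) (U : ℕ → ℝ → ℝ) (δ c C : ℝ), Top0 A B V U → 0 < δ → 0 < c →
    (∀ x ∈ Icc (-δ) δ, c * x ^ 4 ≤ -x * A x ∧ -x * A x ≤ C * x ^ 4 ∧ c ≤ -B x ∧ -B x ≤ C) →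
    V 0 = 0 → ∃ d c' C' : ℝ, 0 < d ∧ d ≤ δ ∧ 0 < c' ∧
      ∀ x ∈ Icc (-d) d, c' * x ^ 2 ≤ x * V x ∧ x * V x ≤ C' * x ^ 2

/-- data near a triple zero: `al = -A / V^3`, `be = -B`, `E = exp (∫ 2 al)`, `ψ = E (V - U)` -/
structure TSeq (d c C : ℝ) (V al be E : ℝ → ℝ) (U : ℕ → ℝ → ℝ) : Prop where
  dpos : 0 < d
  cpos : 0 < c
  contV : ContinuousOn V (Icc (-d) d)
  contE : ContinuousOn E (Icc (-d) d)
  contU : ∀ n, ContinuousOn (U n) (Icc (-d) d)
  bdV : ∀ x ∈ Icc (-d) d, c * x ^ 2 ≤ x * V x ∧ x * V x ≤ C * x ^ 2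
  V0 : V 0 = 0
  bdE : ∀ x ∈ Icc (-d) d, c ≤ E x ∧ E x ≤ C
  bdal : ∀ x ∈ Icc (-d) d, x ≠ 0 → c ≤ al x ∧ al x ≤ C
  bdbe : ∀ x ∈ Icc (-d) d, c ≤ be x ∧ be x ≤ C
  lt : ∀ n, ∀ x ∈ Icc (-d) d, U n x < V x
  unif : TendstoUniformlyOn U V atTop (Icc (-d) d)
  fin : ∀ n, {x ∈ Icc (-d) d | U n x = 0}.Finite
  derU : ∀ n, ∀ x ∈ Ioo (-d) d, x ≠ 0 → U n x ≠ 0 →
    HasDerivAt (U n) (be x + al x * V x ^ 3 / U n x ^ 2) x ∧
      c ≤ be x + al x * V x ^ 3 / U n x ^ 2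
  derP : ∀ n, ∀ x ∈ Ioo (-d) d, x ≠ 0 → U n x ≠ 0 →
    HasDerivAt (fun y => E y * (V y - U n y))
      (-E x * al x * (V x - U n x) ^ 2 * (V x + 2 * U n x) / U n x ^ 2) x

def TSeqStmt : Prop :=
  ∀ (A B V : ℝ → ℝ) (U : ℕ → ℝ → ℝ) (δ c C : ℝ), Continuous A → Top0 A B V U → 0 < δ → 0 < c →
    (∀ x ∈ Icc (-δ) δ, c * x ^ 4 ≤ -x * A x ∧ -x * A x ≤ C * x ^ 4 ∧ c ≤ -B x ∧ -B x ≤ C) →
    V 0 = 0 → ∃ (d c' C' : ℝ) (al be E : ℝ → ℝ), d ≤ δ ∧ TSeq d c' C' V al be E U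

/-- variation bounds, `s0 = V (-d) - U n (-d)` -/
def TVar (d : ℝ) (V E : ℝ → ℝ) (U : ℕ → ℝ → ℝ) : Prop :=
  ∃ K : ℝ, 0 < K ∧ ∀ᶠ n in atTop, ∀ x ∈ Icc (-d) d,
    V x - U n x ≤ K * (V (-d) - U n (-d)) ∧
    |E x * (V x - U n x) - E (-d) * (V (-d) - U n (-d))|
      ≤ K * (V (-d) - U n (-d)) * √(V (-d) - U n (-d)) ∧
    ∀ y ∈ Icc x d, E y * (V y - U n y) - E x * (V x - U n x)
      ≤ K * (V (-d) - U n (-d)) ^ 2 * (1 + |Real.log (V (-d) - U n (-d))|)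

def T2aStmt : Prop :=
  ∀ (d c C : ℝ) (V al be E : ℝ → ℝ) (U : ℕ → ℝ → ℝ), TSeq d c C V al be E U → TVar d V E U

def T2bStmt : Prop :=
  ∀ (d c C : ℝ) (V al be E : ℝ → ℝ) (U : ℕ → ℝ → ℝ), TSeq d c C V al be E U → TVar d V E U →
    ∀ Φ : ℝ → ℝ, AnalyticAt ℝ Φ 0 → Φ 0 = 0 → 0 < deriv Φ 0 →
      ¬ ∀ᶠ n in atTop, V (-d) - U n (-d) = Φ (V d - U n d)

def TplCoreStmt : Prop :=
  ∀ (K b0 b1 : ℝ) (V : ℝ → ℝ) (U : ℕ → ℝ → ℝ), K < 0 → b0 < 0 →
    Top (Cub 0 0 0 K) (Lin b0 b1) V U → ¬ One (Cub 0 0 0 K) V 0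

/-! ## 9. global combinatorics -/

def Simple (A : ℝ → ℝ) : Prop := ∀ x, A x = 0 → deriv A x ≠ 0

def ClassStmt : Prop :=
  ∀ (A : ℝ → ℝ) (z : ℝ), IsCub A → Simple A → A z = 0 →
    (∀ x ∈ Ioo z (z + π), 0 < deriv A z * A x) ∨
      ∃ z' z'' : ℝ, z < z' ∧ z' < z'' ∧ z'' < z + π ∧ A z' = 0 ∧ A z'' = 0 ∧
        deriv A z * deriv A z' < 0 ∧ 0 < deriv A z * deriv A z'' ∧
        (∀ x ∈ Ioo z z', 0 < deriv A z * A x) ∧ (∀ x ∈ Ioo z' z'', deriv A z * A x < 0) ∧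
        ∀ x ∈ Ioo z'' (z + π), 0 < deriv A z * A x

def RedStmt : Prop :=
  ∀ A B : ℝ → ℝ, IsCub A → IsLin B → Simple A → Conf A B →
    ∃ V U, Top A B V U ∧ ((∃ z, One A V z) ∨ (∃ z1 z2, Two A V z1 z2) ∨
      ∃ z1 z2 z3, Three A V z1 z2 z3)

def SingleStmt : Prop :=
  ∀ (A B V : ℝ → ℝ) (U : ℕ → ℝ → ℝ) (z : ℝ), IsCub A → IsLin B → Top A B V U → One A V z →
    deriv A z ≠ 0 → Concl A B

def DblFinStmt : Prop :=
  ∀ a a' b0 b1 : ℝ, a ≠ 0 → Conf (Cub 0 0 a a') (Lin b0 b1) → Concl (Cub 0 0 a a') (Lin b0 b1)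

def TplFinStmt : Prop :=
  ∀ K b0 b1 : ℝ, K ≠ 0 → Conf (Cub 0 0 0 K) (Lin b0 b1) → Concl (Cub 0 0 0 K) (Lin b0 b1)

def DeltaStmt : Prop :=
  ∀ (a0 a1 a2 a3 b : ℝ) (V : ℝ → ℝ), 0 ≤ a1 → 0 < a3 → Sol (Cub a0 a1 a2 a3) (Lin b 0) V →
    Function.Periodic V (2 * π) → ∀ x ∈ Ioo (-(π / 2)) (π / 2), x ≠ 0 → V (π - x) < V x

/-- the cusp invariant as a polynomial in `tan z` -/
def Gp (a0 a1 a2 a3 p : ℝ) : ℝ :=
  2 * (a2 - a0) + 3 * (2 * a3 - a1) * p + (7 * a3 - a1) * p ^ 3 + 3 * a3 * p ^ 5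

def GamStmt : Prop :=
  ∀ a0 a1 a2 a3 b z : ℝ, b ≠ 0 → cos z ≠ 0 → Cub a0 a1 a2 a3 z = 0 →
    gam (Cub a0 a1 a2 a3) (Lin b 0) z = Gp a0 a1 a2 a3 (tan z) / (2 * b ^ 3) + 36 / 343 ∧
    a0 + a1 * tan z + a2 * tan z ^ 2 + a3 * tan z ^ 3 = 0 ∧
    deriv (Cub a0 a1 a2 a3) z = cos z * (a1 + 2 * a2 * tan z + 3 * a3 * tan z ^ 2)

def Mono2Stmt : Prop :=
  ∀ (a0 a1 a2 a3 b z1 z2 : ℝ) (V : ℝ → ℝ), b ≠ 0 →
    ((0 < a3 ∧ a1 ≤ 2 * a3) ∨ (a3 = 0 ∧ a1 ≠ 0)) → Two (Cub a0 a1 a2 a3) V z1 z2 →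
    ¬ Rel2 (Cub a0 a1 a2 a3) (Lin b 0) z1 z2

def Mono3Stmt : Prop :=
  ∀ (a0 a1 a2 a3 b z1 z2 z3 : ℝ) (V : ℝ → ℝ), b ≠ 0 →
    ((0 < a3 ∧ a1 ≤ 2 * a3) ∨ (a3 = 0 ∧ a1 ≠ 0)) → Three (Cub a0 a1 a2 a3) V z1 z2 z3 →
    ¬ Rel3 (Cub a0 a1 a2 a3) (Lin b 0) z1 z2 z3

def Non2Stmt : Prop :=
  ∀ (a0 a1 a2 a3 b z1 z2 : ℝ) (V : ℝ → ℝ), b ≠ 0 → 0 < a3 → 2 * a3 < a1 →
    Sol (Cub a0 a1 a2 a3) (Lin b 0) V → Function.Periodic V (2 * π) →
    Two (Cub a0 a1 a2 a3) V z1 z2 → ¬ Rel2 (Cub a0 a1 a2 a3) (Lin b 0) z1 z2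

def Non3Stmt : Prop :=
  ∀ (a0 a1 a2 a3 b z1 z2 z3 : ℝ) (V : ℝ → ℝ), 0 < a3 → 0 ≤ a1 →
    Sol (Cub a0 a1 a2 a3) (Lin b 0) V → Function.Periodic V (2 * π) →
    ¬ Three (Cub a0 a1 a2 a3) V z1 z2 z3

def MainStmt : Prop :=
  ∀ A B : ℝ → ℝ, IsCub A → IsLin B → (∃ x, A x ≠ 0) → Fam A B → Concl A B

end Pool.Agent.MP_c2f0e4_an

end

section

open Set Filter Topology Real Asymptotics

namespace Pool.Agent.MP_c2f0e4_an

section SupAux

variable {X E F : Type} [TopologicalSpace X] [CompactSpace X] [NormedAddCommGroup E]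
  [NormedSpace ℝ E] [NormedAddCommGroup F] [NormedSpace ℝ F]

/-- A multilinear map applied pointwise to continuous functions. -/
noncomputable def supMl {n : ℕ} (a : ContinuousMultilinearMap ℝ (fun _ : Fin n => E) F) :
    MultilinearMap ℝ (fun _ : Fin n => C(X, E)) C(X, F) :=
  MultilinearMap.mk' (fun z => ⟨fun t => a fun i => z i t,
      a.cont.comp (continuous_pi fun i => (z i).continuous)⟩)
    (fun z i x y => by
      ext t
      have h : ∀ w : C(X, E), (fun j => (Function.update z i w) j t) =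
          Function.update (fun j => z j t) i (w t) := fun w => by
        funext j
        by_cases hj : j = i
        · subst hj; simp
        · simp [Function.update_of_ne hj]
      simp only [ContinuousMap.coe_mk, ContinuousMap.add_apply, h, a.map_update_add])
    (fun z i c x => by
      ext t
      have h : ∀ w : C(X, E), (fun j => (Function.update z i w) j t) =
          Function.update (fun j => z j t) i (w t) := fun w => by
        funext j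
        by_cases hj : j = i
        · subst hj; simp
        · simp [Function.update_of_ne hj]
      simp only [ContinuousMap.coe_mk, ContinuousMap.smul_apply, h, a.map_update_smul])

omit [CompactSpace X] in
lemma supMl_apply {n : ℕ} (a : ContinuousMultilinearMap ℝ (fun _ : Fin n => E) F)
    (z : Fin n → C(X, E)) (t : X) : supMl a z t = a fun i => z i t := rfl

lemma supMl_bound {n : ℕ} (a : ContinuousMultilinearMap ℝ (fun _ : Fin n => E) F)
    (z : Fin n → C(X, E)) : ‖supMl a z‖ ≤ ‖a‖ * ∏ i, ‖z i‖ := by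
  refine (ContinuousMap.norm_le _ (by positivity)).2 fun t => ?_
  rw [supMl_apply]
  refine (a.le_opNorm _).trans (mul_le_mul_of_nonneg_left ?_ (norm_nonneg _))
  exact Finset.prod_le_prod (fun i _ => norm_nonneg _) fun i _ => (z i).norm_coe_le_norm t

/-- The pointwise power series. -/
noncomputable def supSer (X : Type) [TopologicalSpace X] [CompactSpace X]
    (p : FormalMultilinearSeries ℝ E F) : FormalMultilinearSeries ℝ C(X, E) C(X, F) :=
  fun n => (supMl (X := X) (p n)).mkContinuous ‖p n‖ (supMl_bound (p n))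

lemma supSer_radius (p : FormalMultilinearSeries ℝ E F) : p.radius ≤ (supSer X p).radius :=
  FormalMultilinearSeries.radius_le_of_le fun _ =>
    MultilinearMap.mkContinuous_norm_le _ (norm_nonneg _) _

lemma sup_general [CompleteSpace F] (G : E → F) (e0 : E) (hG : AnalyticAt ℝ G e0) :
    ∃ N : C(X, E) → C(X, F), AnalyticAt ℝ N (ContinuousMap.const X e0) ∧
      ∀ᶠ z in 𝓝 (ContinuousMap.const X e0), ∀ t, N z t = G (z t) := by
  obtain ⟨p, r, hp⟩ := hG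
  have hr : r ≤ (supSer X p).radius := hp.r_le.trans (supSer_radius p)
  have hq := (supSer X p).hasFPowerSeriesOnBall (hp.r_pos.trans_le hr)
  refine ⟨fun z => (supSer X p).sum (z - ContinuousMap.const X e0), ?_, ?_⟩
  · have h1 : AnalyticAt ℝ (supSer X p).sum
        ((fun z => z - ContinuousMap.const X e0) (ContinuousMap.const X e0)) := by
      simpa using hq.analyticAt
    exact AnalyticAt.comp (f := fun z => z - ContinuousMap.const X e0) h1
      (analyticAt_id.sub analyticAt_const)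
  · have h2 : ∀ᶠ z in 𝓝 (ContinuousMap.const X e0), z ∈ Metric.eball (ContinuousMap.const X e0) r :=
      Metric.eball_mem_nhds _ hp.r_pos
    filter_upwards [h2] with z hz t
    have h3 : z - ContinuousMap.const X e0 ∈ Metric.eball (0 : C(X, E)) r := by
      rw [Metric.mem_eball, edist_zero_right]
      rwa [Metric.mem_eball, edist_eq_enorm_sub] at hz
    have h4 := (supSer X p).hasSum (Metric.eball_subset_eball hr h3)
    have h5 := (ContinuousMap.evalCLM ℝ t).hasSum h4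
    have h6 : z t - e0 ∈ Metric.eball (0 : E) r := by
      rw [Metric.mem_eball, edist_zero_right] at h3 ⊢
      refine lt_of_le_of_lt ?_ h3
      rw [enorm_le_iff_norm_le]
      exact (z - ContinuousMap.const X e0).norm_coe_le_norm t
    have h7 := hp.hasSum h6
    rw [add_sub_cancel] at h7
    exact h5.unique h7

end SupAux

theorem supS : SupStmt := by
  intro G e0 hG
  exact sup_general G e0 hG

end Pool.Agent.MP_c2f0e4_an

end

section

open Set Filter Topology Real Asymptotics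

namespace Pool.Agent.MP_c2f0e4_an

/-- Extension of a continuous function on the unit interval to the line. -/
noncomputable def afE (g : C(unitInterval, ℝ)) (s : ℝ) : ℝ := g (projIcc 0 1 zero_le_one s)

lemma afE_cont (g : C(unitInterval, ℝ)) : Continuous (afE g) :=
  g.continuous.comp continuous_projIcc

lemma afE_mem (g : C(unitInterval, ℝ)) {s : ℝ} (hs : s ∈ Icc (0 : ℝ) 1) :
    afE g s = g ⟨s, hs⟩ := by
  rw [afE, projIcc_of_mem _ hs]

/-- The primitive vanishing at zero, as a linear map. -/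
noncomputable def afK0 : C(unitInterval, ℝ) →ₗ[ℝ] C(unitInterval, ℝ) where
  toFun g := ⟨fun t => ∫ s in (0 : ℝ)..(t : ℝ), afE g s,
    (intervalIntegral.continuous_primitive (fun a b => (afE_cont g).intervalIntegrable a b) 0).comp
      continuous_subtype_val⟩
  map_add' g g' := by
    ext t
    exact intervalIntegral.integral_add ((afE_cont g).intervalIntegrable _ _)
      ((afE_cont g').intervalIntegrable _ _)
  map_smul' a g := by
    ext t
    exact intervalIntegral.integral_const_mul a (afE g)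

/-- The primitive vanishing at zero. -/
noncomputable def afK : C(unitInterval, ℝ) →L[ℝ] C(unitInterval, ℝ) :=
  afK0.mkContinuous 1 fun g => by
    rw [one_mul]
    refine (ContinuousMap.norm_le _ (norm_nonneg g)).2 fun t => ?_
    have h := intervalIntegral.norm_integral_le_of_norm_le_const (a := 0) (b := (t : ℝ))
      (f := afE g) (C := ‖g‖) fun s _ => g.norm_coe_le_norm _
    refine h.trans ?_
    rw [sub_zero, abs_of_nonneg t.2.1]
    exact mul_le_of_le_one_right (norm_nonneg g) t.2.2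

lemma afK_apply (g : C(unitInterval, ℝ)) (t : unitInterval) :
    afK g t = ∫ s in (0 : ℝ)..(t : ℝ), afE g s := rfl

/-- The linear data `(h, h (1 - t))`. -/
noncomputable def afL : (ℝ × ℝ) →L[ℝ] C(unitInterval, ℝ × ℝ) :=
  (ContinuousLinearMap.fst ℝ ℝ ℝ).smulRight
    ⟨fun t => (1, 1 - (t : ℝ)), continuous_const.prodMk (continuous_const.sub continuous_subtype_val)⟩

lemma afL_apply (p : ℝ × ℝ) (t : unitInterval) : afL p t = (p.1, p.1 * (1 - (t : ℝ))) := by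
  simp [afL]

/-- The initial value. -/
noncomputable def afC : (ℝ × ℝ) →L[ℝ] C(unitInterval, ℝ) :=
  (ContinuousLinearMap.snd ℝ ℝ ℝ).smulRight (ContinuousMap.const unitInterval (1 : ℝ))

lemma afC_apply (p : ℝ × ℝ) (t : unitInterval) : afC p t = p.2 := by
  simp [afC]

lemma af_mem {r t : ℝ} (hr : r ∈ Icc (0 : ℝ) 1) (ht : t ∈ Icc (0 : ℝ) 1) :
    r + (1 - r) * t ∈ Icc (0 : ℝ) 1 := by
  constructor
  · nlinarith [hr.1, hr.2, ht.1, ht.2]
  · nlinarith [hr.1, hr.2, ht.1, ht.2]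

/-- Affine reparametrisation onto `[r, 1]`. -/
noncomputable def afR (r : unitInterval) : C(unitInterval, unitInterval) :=
  ⟨fun t => ⟨r + (1 - r) * t, af_mem r.2 t.2⟩, by fun_prop⟩

lemma afR_coe (r t : unitInterval) : (afR r t : ℝ) = r + (1 - r) * t := rfl

lemma af_restart (F : ℝ × ℝ → ℝ) (x0 y0 : ℝ) (Z : ℝ × ℝ → C(unitInterval, ℝ)) (η : ℝ)
    (hU : ∀ (p : ℝ × ℝ) (z g : C(unitInterval, ℝ)), ‖p‖ < η →
      ‖z - ContinuousMap.const unitInterval y0‖ < η →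
      (∀ t, g t = -(afL p t).1 * F (x0 + (afL p t).2, z t)) →
      z = ContinuousMap.const unitInterval y0 + afC p + afK g → z = Z p)
    (p : ℝ × ℝ) (hp : ‖p‖ < η) (hz : ‖Z p - ContinuousMap.const unitInterval y0‖ < η)
    (g : C(unitInterval, ℝ)) (hg : ∀ t, g t = -(afL p t).1 * F (x0 + (afL p t).2, Z p t))
    (hZ : Z p = ContinuousMap.const unitInterval y0 + afC p + afK g) (r : unitInterval) :
    Z (p.1 * (1 - r), Z p r - y0) 1 = Z p 1 := by
  have hval : ∀ t : unitInterval, Z p t = y0 + p.2 + ∫ s in (0 : ℝ)..(t : ℝ), afE g s := by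
    intro t
    have := congrArg (fun u : C(unitInterval, ℝ) => u t) hZ
    simpa [afC_apply, afK_apply] using this
  have hpt : ∀ t : unitInterval, |Z p t - y0| < η := fun t =>
    lt_of_le_of_lt ((Z p - ContinuousMap.const unitInterval y0).norm_coe_le_norm t) hz
  have key := hU (p.1 * (1 - r), Z p r - y0) ((Z p).comp (afR r))
    ((1 - (r : ℝ)) • g.comp (afR r)) ?_ ?_ ?_ ?_
  · rw [← key]
    have : afR r 1 = 1 := Subtype.ext (by simp [afR_coe])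
    simp [this]
  · rw [Prod.norm_def]
    refine max_lt ?_ (hpt r)
    refine lt_of_le_of_lt ?_ (lt_of_le_of_lt (norm_fst_le p) hp)
    rw [norm_mul]
    refine mul_le_of_le_one_right (norm_nonneg _) ?_
    rw [Real.norm_eq_abs, abs_le]
    constructor <;> linarith [r.2.1, r.2.2]
  · have hη : 0 < η := lt_of_le_of_lt (norm_nonneg _) hp
    rw [ContinuousMap.norm_lt_iff _ hη]
    intro t
    exact hpt _
  · intro t
    simp only [ContinuousMap.smul_apply, ContinuousMap.comp_apply, hg, afL_apply, afR_coe,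
      smul_eq_mul]
    rw [show p.1 * (1 - ((r : ℝ) + (1 - r) * t)) = p.1 * (1 - r) * (1 - t) by ring]
    ring
  · ext t
    simp only [ContinuousMap.comp_apply, ContinuousMap.add_apply, ContinuousMap.const_apply,
      afC_apply, afK_apply]
    have h1 : ∫ s in (0 : ℝ)..(t : ℝ), afE ((1 - (r : ℝ)) • g.comp (afR r)) s =
        ∫ s in (0 : ℝ)..(t : ℝ), (1 - (r : ℝ)) • afE g (r + (1 - r) * s) := by
      refine intervalIntegral.integral_congr fun s hs => ?_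
      rw [uIcc_of_le t.2.1] at hs
      have hs' : s ∈ Icc (0 : ℝ) 1 := ⟨hs.1, hs.2.trans t.2.2⟩
      rw [afE_mem _ hs', afE_mem _ (af_mem r.2 hs')]
      rfl
    rw [h1, intervalIntegral.integral_smul, intervalIntegral.smul_integral_comp_add_mul,
      hval, hval r, afR_coe, mul_zero, add_zero,
      ← intervalIntegral.integral_add_adjacent_intervals (b := (r : ℝ))
        ((afE_cont g).intervalIntegrable _ _) ((afE_cont g).intervalIntegrable _ _)]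
    ring

theorem afS (hFP : FPStmt) : AFStmt := by
  intro F p0 hF
  obtain ⟨x0, y0⟩ := p0
  have hG : AnalyticAt ℝ (fun q : (ℝ × ℝ) × ℝ => -q.1.1 * F (x0 + q.1.2, q.2)) (0, y0) := by
    refine (analyticAt_fst.comp analyticAt_fst).neg.mul ?_
    refine AnalyticAt.comp (g := F) (f := fun q : (ℝ × ℝ) × ℝ => (x0 + q.1.2, q.2)) ?_ ?_
    · simpa using hF
    · exact (analyticAt_const.add (analyticAt_snd.comp analyticAt_fst)).prod analyticAt_snd
  obtain ⟨Z, hZa, hZ0, hZe, η, hη, hU⟩ := hFP afK afL afC (ContinuousMap.const unitInterval y0)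
    (fun q => -q.1.1 * F (x0 + q.1.2, q.2)) y0 hG
    (by simpa using hasDerivAt_const y0 (0 : ℝ))
    (by
      have : ContinuousMap.const unitInterval (-(0 : ℝ × ℝ).1 * F (x0 + (0 : ℝ × ℝ).2, y0)) = 0 := by
        ext t; simp
      simp only [this, map_zero, add_zero])
  let H : ℝ × ℝ → ℝ := fun q => Z (q - (x0, y0)) 1
  have hsub : Tendsto (fun q : ℝ × ℝ => q - (x0, y0)) (𝓝 (x0, y0)) (𝓝 0) := by
    have : Continuous fun q : ℝ × ℝ => q - (x0, y0) := by fun_prop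
    simpa using this.tendsto (x0, y0)
  have hH : AnalyticAt ℝ H (x0, y0) := by
    refine ((ContinuousMap.evalCLM ℝ (1 : unitInterval)).analyticAt _).comp
      (f := fun q : ℝ × ℝ => Z (q - (x0, y0))) ?_
    refine AnalyticAt.comp (g := Z) (f := fun q : ℝ × ℝ => q - (x0, y0)) ?_ ?_
    · simpa using hZa
    · exact analyticAt_id.sub analyticAt_const
  have hval : ∀ (p : ℝ × ℝ) (g : C(unitInterval, ℝ)),
      Z p = ContinuousMap.const unitInterval y0 + afC p + afK g →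
      ∀ t : unitInterval, Z p t = y0 + p.2 + ∫ s in (0 : ℝ)..(t : ℝ), afE g s := by
    intro p g hZ t
    have := congrArg (fun u : C(unitInterval, ℝ) => u t) hZ
    simpa [afC_apply, afK_apply] using this
  refine ⟨H, hH, ?_, ?_⟩
  · have hc : HasDerivAt (fun y : ℝ => ((x0, y) : ℝ × ℝ)) (0, 1) y0 :=
      (hasDerivAt_const y0 x0).prodMk (hasDerivAt_id y0)
    have h1 : HasDerivAt (fun y : ℝ => H (x0, y)) (fderiv ℝ H (x0, y0) (0, 1)) y0 :=
      hH.differentiableAt.hasFDerivAt.comp_hasDerivAt y0 hc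
    have h2 : (fun y : ℝ => H (x0, y)) =ᶠ[𝓝 y0] fun y => y := by
      have ht : Tendsto (fun y : ℝ => ((x0, y) : ℝ × ℝ) - (x0, y0)) (𝓝 y0) (𝓝 0) :=
        hsub.comp hc.continuousAt
      filter_upwards [ht.eventually hZe] with y hy
      obtain ⟨g, hg, hZ⟩ := hy
      have hg0 : afE g = fun _ => 0 := by
        funext s
        rw [afE, hg, afL_apply]
        simp
      simp only [H]
      rw [hval _ g hZ, hg0]
      simp
    have h3 : HasDerivAt (fun y : ℝ => H (x0, y)) 1 y0 :=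
      (hasDerivAt_id y0).congr_of_eventuallyEq h2
    rw [h1.unique h3]
    exact one_ne_zero
  · have hzc : ∀ᶠ p in 𝓝 (0 : ℝ × ℝ), ‖Z p - ContinuousMap.const unitInterval y0‖ < η := by
      have := hZa.continuousAt.eventually (Metric.ball_mem_nhds (Z 0) hη)
      filter_upwards [this] with p hp
      rwa [dist_eq_norm, hZ0] at hp
    have hpc : ∀ᶠ p in 𝓝 (0 : ℝ × ℝ), ‖p‖ < η := by
      filter_upwards [Metric.ball_mem_nhds (0 : ℝ × ℝ) hη] with p hp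
      simpa using hp
    have hmain : ∀ᶠ q in 𝓝 ((x0, y0) : ℝ × ℝ), q.1 ≠ x0 → fderiv ℝ H q (1, F q) = 0 := by
      filter_upwards [hsub.eventually hZe, hsub.eventually hzc, hsub.eventually hpc,
        hH.eventually_analyticAt] with q h1 h2 h3 h4 hq
      obtain ⟨g, hg, hZ⟩ := h1
      set p : ℝ × ℝ := q - (x0, y0) with hp
      have hp1 : p.1 = q.1 - x0 := rfl
      have hp2 : p.2 = q.2 - y0 := rfl
      let γ : ℝ → ℝ × ℝ := fun r => (x0 + p.1 * (1 - r), y0 + p.2 + ∫ s in (0 : ℝ)..r, afE g s)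
      have hγ0 : γ 0 = q := by
        simp only [γ, hp1, hp2]
        ext <;> simp
      have hg0 : afE g 0 = -p.1 * F q := by
        rw [afE_mem g (left_mem_Icc.2 zero_le_one), hg, afL_apply, hval p g hZ]
        simp [hp1, hp2]
      have hγ : HasDerivAt γ (-p.1, -p.1 * F q) 0 := by
        refine HasDerivAt.prodMk ?_ ?_
        · simpa using (((hasDerivAt_id (0 : ℝ)).const_sub 1).const_mul p.1).const_add x0
        · rw [← hg0]
          exact (intervalIntegral.integral_hasDerivAt_right ((afE_cont g).intervalIntegrable _ _)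
            ((afE_cont g).stronglyMeasurableAtFilter _ _) (afE_cont g).continuousAt).const_add _
      have h5 : HasDerivAt (H ∘ γ) (fderiv ℝ H q (-p.1, -p.1 * F q)) 0 := by
        refine HasFDerivAt.comp_hasDerivAt 0 ?_ hγ
        rw [hγ0]
        exact h4.differentiableAt.hasFDerivAt
      have h6 : HasDerivWithinAt (H ∘ γ) 0 (Icc 0 1) 0 := by
        refine (hasDerivWithinAt_const (0 : ℝ) (Icc (0 : ℝ) 1) (Z p 1)).congr_of_mem ?_
          (left_mem_Icc.2 zero_le_one)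
        intro r hr
        have := af_restart F x0 y0 Z η hU p h3 h2 g hg hZ ⟨r, hr⟩
        rw [← this, hval p g hZ ⟨r, hr⟩]
        simp [H, γ]
      have h7 := (uniqueDiffOn_Icc zero_lt_one 0 (left_mem_Icc.2 zero_le_one)).eq_deriv _
        h5.hasDerivWithinAt h6
      have h8 : ((-p.1, -p.1 * F q) : ℝ × ℝ) = (-p.1) • ((1, F q) : ℝ × ℝ) := by simp
      rw [h8, map_smul, smul_eq_zero] at h7
      refine h7.resolve_left ?_
      rw [hp1, neg_eq_zero, sub_eq_zero]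
      exact hq
    filter_upwards [hmain.eventually_nhds, hH.eventually_analyticAt, hF.eventually_analyticAt]
      with q h1 h2 h3
    by_cases hq : q.1 = x0
    · have hcont : ContinuousAt (fun q : ℝ × ℝ => fderiv ℝ H q (1, F q)) q :=
        h2.fderiv.continuousAt.clm_apply (continuousAt_const.prodMk h3.continuousAt)
      have hl : Tendsto (fun s : ℝ => ((s, q.2) : ℝ × ℝ)) (𝓝[≠] x0) (𝓝 q) := by
        have : Continuous fun s : ℝ => ((s, q.2) : ℝ × ℝ) := by fun_prop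
        have h := this.tendsto x0
        rw [show ((x0, q.2) : ℝ × ℝ) = q from Prod.ext hq.symm rfl] at h
        exact h.mono_left nhdsWithin_le_nhds
      have h4 := hcont.tendsto.comp hl
      have h5 : Tendsto ((fun q : ℝ × ℝ => fderiv ℝ H q (1, F q)) ∘ fun s : ℝ => ((s, q.2) : ℝ × ℝ))
          (𝓝[≠] x0) (𝓝 0) := by
        refine tendsto_const_nhds.congr' ?_
        filter_upwards [hl.eventually h1, self_mem_nhdsWithin] with s hs hs'
        exact (hs hs').symm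
      exact tendsto_nhds_unique h4 h5
    · exact h1.self_of_nhds hq

end Pool.Agent.MP_c2f0e4_an

end

section

open Set Filter Topology Real Asymptotics

namespace Pool.Agent.MP_c2f0e4_an

theorem bb_cont {ν : ℝ} (hν : 1 ≤ ν) (g : C(unitInterval, ℝ)) :
    Continuous fun ρ : unitInterval =>
      ∫ r in (0 : ℝ)..1, r ^ (ν - 1) * g (projIcc 0 1 zero_le_one (ρ * r)) := by
  refine intervalIntegral.continuous_parametric_intervalIntegral_of_continuous'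
    (f := fun (ρ : unitInterval) (r : ℝ) => r ^ (ν - 1) * g (projIcc 0 1 zero_le_one (ρ * r))) ?_ 0 1
  refine ((Real.continuous_rpow_const (by linarith)).comp continuous_snd).mul ?_
  exact g.continuous.comp (continuous_projIcc.comp
    ((continuous_subtype_val.comp continuous_fst).mul continuous_snd))

theorem bb_integrable {ν : ℝ} (hν : 1 ≤ ν) (g : C(unitInterval, ℝ)) (ρ : ℝ) :
    IntervalIntegrable (fun r : ℝ => r ^ (ν - 1) * g (projIcc 0 1 zero_le_one (ρ * r)))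
      MeasureTheory.volume 0 1 :=
  ((Real.continuous_rpow_const (by linarith)).mul (g.continuous.comp (continuous_projIcc.comp
    (continuous_const.mul continuous_id)))).intervalIntegrable _ _

/-- the averaging operator, as a linear map -/
noncomputable def bbL {ν : ℝ} (hν : 1 ≤ ν) : C(unitInterval, ℝ) →ₗ[ℝ] C(unitInterval, ℝ) where
  toFun g := ⟨_, bb_cont hν g⟩
  map_add' g h := by
    ext ρ
    simp only [ContinuousMap.coe_mk, ContinuousMap.add_apply, mul_add]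
    exact intervalIntegral.integral_add (bb_integrable hν g ρ) (bb_integrable hν h ρ)
  map_smul' a g := by
    ext ρ
    simp only [ContinuousMap.coe_mk, ContinuousMap.smul_apply, smul_eq_mul, RingHom.id_apply]
    rw [← intervalIntegral.integral_const_mul]
    congr 1
    funext r
    ring

/-- the averaging operator -/
noncomputable def bbK {ν : ℝ} (hν : 1 ≤ ν) : C(unitInterval, ℝ) →L[ℝ] C(unitInterval, ℝ) :=
  (bbL hν).mkContinuous 1 fun g => by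
    rw [one_mul]
    refine (ContinuousMap.norm_le _ (norm_nonneg g)).2 fun ρ => ?_
    have h := intervalIntegral.norm_integral_le_of_norm_le_const (a := 0) (b := 1) (C := ‖g‖)
      (f := fun r : ℝ => r ^ (ν - 1) * g (projIcc 0 1 zero_le_one (ρ * r))) fun r hr => by
        rw [uIoc_of_le zero_le_one] at hr
        rw [norm_mul, Real.norm_of_nonneg (Real.rpow_nonneg hr.1.le _)]
        exact (mul_le_of_le_one_left (norm_nonneg _)
          (Real.rpow_le_one hr.1.le hr.2 (by linarith))).trans (g.norm_coe_le_norm _)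
    rw [sub_zero, abs_one, mul_one] at h
    exact h

theorem bbK_eq {ν : ℝ} (hν : 1 ≤ ν) (g : C(unitInterval, ℝ)) (ρ : unitInterval) (ψ : ℝ → ℝ)
    (h : ∀ x : unitInterval, g x = ψ x) :
    bbK hν g ρ = ∫ r in (0 : ℝ)..1, r ^ (ν - 1) * ψ (ρ * r) := by
  change ∫ r in (0 : ℝ)..1, r ^ (ν - 1) * g (projIcc 0 1 zero_le_one (ρ * r)) = _
  refine intervalIntegral.integral_congr fun r hr => ?_
  rw [uIcc_of_le zero_le_one] at hr
  have h1 : (ρ : ℝ) * r ∈ Icc (0 : ℝ) 1 :=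
    ⟨mul_nonneg ρ.2.1 hr.1, mul_le_one₀ ρ.2.2 hr.1 hr.2⟩
  simp only [h, projIcc_of_mem _ h1]

theorem bb_ftc {ν : ℝ} (hν : 1 ≤ ν) (w ψ : ℝ → ℝ) (hw : ContinuousOn w (Icc 0 1))
    (hψ : ContinuousOn ψ (Icc 0 1))
    (hd : ∀ r ∈ Ioo (0 : ℝ) 1, ∃ d, HasDerivAt w d r ∧ r * d + ν * w r = ψ r) :
    ∫ r in (0 : ℝ)..1, r ^ (ν - 1) * ψ r = w 1 := by
  have h := intervalIntegral.integral_eq_sub_of_hasDerivAt_of_le (f := fun r : ℝ => r ^ ν * w r)
    (f' := fun r : ℝ => r ^ (ν - 1) * ψ r) zero_le_one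
    ((Real.continuous_rpow_const (by linarith)).continuousOn.mul hw) (fun r hr => by
      obtain ⟨d, h1, h2⟩ := hd r hr
      have h3 := (Real.hasDerivAt_rpow_const (x := r) (p := ν) (Or.inr hν)).mul h1
      have h4 : r ^ ν = r ^ (ν - 1) * r := by
        rw [← Real.rpow_add_one hr.1.ne', sub_add_cancel]
      refine h3.congr_deriv ?_
      rw [← h2, h4]; ring)
    (ContinuousOn.intervalIntegrable_of_Icc zero_le_one
      ((Real.continuous_rpow_const (by linarith)).continuousOn.mul hψ))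
  rw [h, Real.one_rpow, Real.zero_rpow (by linarith), one_mul, zero_mul, sub_zero]

/-- from the integral equation to the differential equation -/
theorem bb_ode {ν : ℝ} (hν : 1 ≤ ν) (Y φ : ℝ → ℝ) (hY : AnalyticAt ℝ Y 0) (hφ : AnalyticAt ℝ φ 0)
    (h : ∀ᶠ t in 𝓝 (0 : ℝ), Y t = ∫ r in (0 : ℝ)..1, r ^ (ν - 1) * φ (t * r)) :
    ∀ᶠ t in 𝓝 (0 : ℝ), t * deriv Y t + ν * Y t = φ t := by
  have hf : AnalyticAt ℝ (fun t => t * deriv Y t + ν * Y t) 0 :=
    (analyticAt_id.mul hY.deriv).add (analyticAt_const.mul hY)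
  refine (hf.frequently_eq_iff_eventually_eq hφ).1 ?_
  obtain ⟨δ, hδ, hb⟩ := Metric.eventually_nhds_iff.1
    (h.and (hY.eventually_analyticAt.and hφ.eventually_analyticAt))
  have hb' : ∀ t, 0 ≤ t → t < δ → (Y t = ∫ r in (0 : ℝ)..1, r ^ (ν - 1) * φ (t * r)) ∧
      AnalyticAt ℝ Y t ∧ AnalyticAt ℝ φ t := fun t h0 h1 =>
    hb (by rwa [Real.dist_eq, sub_zero, abs_of_nonneg h0])
  have hc := Real.continuous_rpow_const (show 0 ≤ ν - 1 by linarith)
  have key : ∀ t ∈ Ioo 0 δ, t * deriv Y t + ν * Y t = φ t := by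
    intro t ht
    have h4 : ∀ x : ℝ, 0 < x → x ^ ν = x ^ (ν - 1) * x := fun x hx => by
      rw [← Real.rpow_add_one hx.ne', sub_add_cancel]
    have e : (fun x : ℝ => x ^ ν * Y x) =ᶠ[𝓝 t] fun x => ∫ s in (0 : ℝ)..x, s ^ (ν - 1) * φ s := by
      filter_upwards [Ioo_mem_nhds ht.1 ht.2] with x hx
      have h5 := intervalIntegral.smul_integral_comp_mul_left (a := 0) (b := 1)
        (fun s : ℝ => s ^ (ν - 1) * φ s) x
      rw [mul_zero, mul_one] at h5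
      rw [← h5, (hb' x hx.1.le hx.2).1, smul_eq_mul, h4 x hx.1, mul_comm _ x, mul_assoc,
        ← intervalIntegral.integral_const_mul]
      congr 1
      refine intervalIntegral.integral_congr fun r hr => ?_
      rw [uIcc_of_le zero_le_one] at hr
      simp only [Real.mul_rpow hx.1.le hr.1, mul_assoc]
    have hca : ∀ s ∈ Ioo 0 δ, ContinuousAt (fun s : ℝ => s ^ (ν - 1) * φ s) s := fun s hs =>
      hc.continuousAt.mul (hb' s hs.1.le hs.2).2.2.continuousAt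
    have d1 := intervalIntegral.integral_hasDerivAt_right (a := 0) (b := t)
      (f := fun s : ℝ => s ^ (ν - 1) * φ s)
      (ContinuousOn.intervalIntegrable_of_Icc ht.1.le fun s hs =>
        (hc.continuousAt.mul (hb' s hs.1 (hs.2.trans_lt ht.2)).2.2.continuousAt).continuousWithinAt)
      (ContinuousAt.stronglyMeasurableAtFilter isOpen_Ioo hca t ht) (hca t ht)
    have d2 := (Real.hasDerivAt_rpow_const (x := t) (p := ν) (Or.inr hν)).mul
      (hb' t ht.1.le ht.2).2.1.differentiableAt.hasDerivAt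
    have d3 := (d1.congr_of_eventuallyEq e).unique d2
    refine mul_left_cancel₀ (Real.rpow_pos_of_pos ht.1 (ν - 1)).ne' ?_
    rw [d3, h4 t ht.1]; ring
  have h6 : ∀ᶠ t in 𝓝[>] (0 : ℝ), t * deriv Y t + ν * Y t = φ t := by
    filter_upwards [Ioo_mem_nhdsGT hδ] with t ht using key t ht
  exact h6.frequently.filter_mono (nhdsWithin_mono _ fun x hx => ne_of_gt hx)

/-- the linear substitution -/
noncomputable def bbl : (ℝ × ℝ) →L[ℝ] C(unitInterval, ℝ × ℝ) :=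
  (ContinuousLinearMap.fst ℝ ℝ ℝ).smulRight
    ⟨fun ρ : unitInterval => ((ρ : ℝ), (0 : ℝ)), continuous_subtype_val.prodMk continuous_const⟩

theorem bbl_apply (p : ℝ × ℝ) (ρ : unitInterval) : (bbl p ρ).1 = p.1 * ρ := rfl

theorem bb_abs_le (t : ℝ) {r : ℝ} (hr : r ∈ Icc (0 : ℝ) 1) : |t * r| ≤ |t| := by
  rw [abs_mul, abs_of_nonneg hr.1]
  exact mul_le_of_le_one_right (abs_nonneg _) hr.2

theorem bbS (hFP : FPStmt) : BBStmt := by
  intro Ψ ν y0 hν hΨ h0 hd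
  have hG : AnalyticAt ℝ (fun e : (ℝ × ℝ) × ℝ => Ψ (e.1.1, e.2)) (0, y0) :=
    AnalyticAt.comp (g := Ψ) (f := fun e : (ℝ × ℝ) × ℝ => (e.1.1, e.2)) hΨ
      ((analyticAt_fst.comp analyticAt_fst).prod analyticAt_snd)
  obtain ⟨Z, hZ, hZ0, hfix, η, hη, huniq⟩ := hFP (bbK hν) bbl 0 0
    (fun e : (ℝ × ℝ) × ℝ => Ψ (e.1.1, e.2)) y0 hG hd (by
      ext ρ
      rw [zero_add, bbK_eq hν _ ρ (fun _ => Ψ (0, y0)) fun _ => rfl]
      exact bb_ftc hν (fun _ => y0) (fun _ => Ψ (0, y0)) continuousOn_const continuousOn_const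
        fun r _ => ⟨0, hasDerivAt_const _ _, by rw [h0]; ring⟩)
  have hι : AnalyticAt ℝ (fun t : ℝ => ((t, 0) : ℝ × ℝ)) 0 := analyticAt_id.prod analyticAt_const
  have hιt : Tendsto (fun t : ℝ => ((t, 0) : ℝ × ℝ)) (𝓝 0) (𝓝 0) := hι.continuousAt
  have hZι : AnalyticAt ℝ (fun t : ℝ => Z (t, 0)) 0 :=
    AnalyticAt.comp (g := Z) (f := fun t : ℝ => ((t, 0) : ℝ × ℝ)) hZ hι
  have hY : AnalyticAt ℝ (fun t : ℝ => Z (t, 0) 1) 0 :=
    AnalyticAt.comp (g := ContinuousMap.evalCLM ℝ (1 : unitInterval))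
      (f := fun t : ℝ => Z (t, 0)) (ContinuousLinearMap.analyticAt _ _) hZι
  have hY0 : Z (0, 0) 1 = y0 := by
    change Z 0 1 = y0
    rw [hZ0]; rfl
  have hn : ∀ s : ℝ, ‖((s, 0) : ℝ × ℝ)‖ = |s| := fun s => by
    rw [Prod.norm_def, norm_zero, Real.norm_eq_abs, max_eq_left (abs_nonneg _)]
  refine ⟨fun t => Z (t, 0) 1, hY, hY0, ?_, fun y hy hode => ?_⟩
  · have hφ : AnalyticAt ℝ (fun t : ℝ => Ψ (t, Z (t, 0) 1)) 0 :=
      AnalyticAt.comp (g := Ψ) (f := fun t : ℝ => (t, Z (t, 0) 1)) (by rwa [hY0])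
        (analyticAt_id.prod hY)
    refine bb_ode hν _ _ hY hφ ?_
    have h1 : ∀ᶠ t in 𝓝 (0 : ℝ), ‖Z (t, 0) - ContinuousMap.const unitInterval y0‖ < η := by
      have h2 : Tendsto (fun t : ℝ => Z (t, 0)) (𝓝 0) (𝓝 (ContinuousMap.const unitInterval y0)) := by
        rw [← hZ0]; exact hZι.continuousAt
      simpa only [dist_eq_norm] using Metric.tendsto_nhds.1 h2 η hη
    have h3 : ∀ᶠ t in 𝓝 (0 : ℝ), |t| < η := by
      simpa only [Real.dist_eq, sub_zero] using Metric.eventually_nhds_iff.2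
        ⟨η, hη, fun (t : ℝ) (h : dist t 0 < η) => h⟩
    filter_upwards [hιt.eventually hfix, h1, h3] with t ⟨g, hg, hz⟩ ht1 ht3
    rw [_root_.zero_apply, add_zero, zero_add] at hz
    have hsc : ∀ a : unitInterval, Z (t, 0) a = Z (t * a, 0) 1 := by
      intro a
      let m : C(unitInterval, unitInterval) := ⟨fun ρ => a * ρ, continuous_const.mul continuous_id⟩
      have h4 := huniq (t * a, 0) ((Z (t, 0)).comp m) (g.comp m)
        (by rw [hn]; exact (bb_abs_le t a.2).trans_lt ht3)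
        (by
          refine lt_of_le_of_lt ((ContinuousMap.norm_le _ (norm_nonneg _)).2 fun ρ => ?_) ht1
          exact (Z (t, 0) - ContinuousMap.const unitInterval y0).norm_coe_le_norm (a * ρ))
        (fun ρ => by
          change g (a * ρ) = Ψ (t * a * ρ, Z (t, 0) (a * ρ))
          rw [hg, bbl_apply, mul_assoc]; rfl)
        (by
          rw [_root_.zero_apply, add_zero, zero_add]
          ext ρ
          rw [bbK_eq hν _ ρ (fun x => g (projIcc 0 1 zero_le_one (a * x))) fun x => by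
            change g (a * x) = g (projIcc 0 1 zero_le_one ((a * x : unitInterval) : ℝ))
            rw [projIcc_val]]
          change Z (t, 0) (a * ρ) = _
          rw [hz]
          change ∫ r in (0 : ℝ)..1,
            r ^ (ν - 1) * g (projIcc 0 1 zero_le_one ((a : ℝ) * (ρ : ℝ) * r)) = _
          simp only [mul_assoc])
      rw [← h4]
      change _ = Z (t, 0) (a * 1)
      rw [mul_one]
    have h5 := bbK_eq hν g 1 (fun x => Ψ (t * x, Z (t * x, 0) 1)) fun x => by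
      rw [hg, bbl_apply, hsc]
    rw [← hz] at h5
    simpa only [Icc.coe_one, one_mul] using h5
  · classical
    have hu : ContinuousAt (Function.update y 0 y0) 0 := continuousAt_update_same.2 hy
    have hu0 : Function.update y 0 y0 0 = y0 := Function.update_self ..
    have hp : Tendsto (fun s : ℝ => (s, Function.update y 0 y0 s)) (𝓝 0) (𝓝 (0, y0)) := by
      have := continuousAt_id.prodMk hu
      rw [ContinuousAt] at this
      simpa only [id, hu0] using this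
    have h1 : ∀ᶠ s in 𝓝 (0 : ℝ), |Function.update y 0 y0 s - y0| < η / 2 := by
      have h2 := Metric.tendsto_nhds.1 hu (η / 2) (half_pos hη)
      simpa only [Real.dist_eq, hu0] using h2
    obtain ⟨δ, hδ, hb⟩ := Metric.eventually_nhds_iff.1 ((eventually_nhdsWithin_iff.1 hode).and
      (h1.and (hp.eventually hΨ.eventually_analyticAt)))
    simp only [Real.dist_eq, sub_zero, mem_compl_iff, mem_singleton_iff] at hb
    have hdu : ∀ s, |s| < δ → s ≠ 0 → ∃ y', HasDerivAt (Function.update y 0 y0) y' s ∧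
        s * y' + ν * Function.update y 0 y0 s = Ψ (s, Function.update y 0 y0 s) := by
      intro s h3 h4
      obtain ⟨y', h5, h6⟩ := (hb h3).1 h4
      refine ⟨y', h5.congr_of_eventuallyEq ?_, by rwa [Function.update_of_ne h4]⟩
      filter_upwards [isOpen_ne.mem_nhds h4] with x hx using Function.update_of_ne hx _ _
    have hcu : ∀ s, |s| < δ → ContinuousAt (Function.update y 0 y0) s := by
      intro s h3
      by_cases h4 : s = 0
      · rwa [h4]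
      · obtain ⟨y', h5, -⟩ := hdu s h3 h4
        exact h5.continuousAt
    have hcΨ : ∀ s, |s| < δ → ContinuousAt (fun s => Ψ (s, Function.update y 0 y0 s)) s :=
      fun s h3 => ContinuousAt.comp (g := Ψ) (f := fun s => (s, Function.update y 0 y0 s))
        (hb h3).2.2.continuousAt (continuousAt_id.prodMk (hcu s h3))
    have hcomp : ∀ (f : ℝ → ℝ), (∀ s, |s| < δ → ContinuousAt f s) → ∀ s, |s| < δ →
        ContinuousOn (fun r => f (s * r)) (Icc 0 1) := fun f hf s hs r hr =>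
      (ContinuousAt.comp (g := f) (f := fun r => s * r) (hf _ ((bb_abs_le s hr).trans_lt hs))
        (continuous_const.mul continuous_id).continuousAt).continuousWithinAt
    have hint : ∀ s, |s| < δ → ∫ r in (0 : ℝ)..1,
        r ^ (ν - 1) * Ψ (s * r, Function.update y 0 y0 (s * r)) = Function.update y 0 y0 s := by
      intro s hs
      have h3 := bb_ftc hν (fun r => Function.update y 0 y0 (s * r))
        (fun r => Ψ (s * r, Function.update y 0 y0 (s * r))) (hcomp _ hcu s hs) (hcomp _ hcΨ s hs)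
        fun r hr => by
          by_cases h4 : s = 0
          · refine ⟨0, ?_, ?_⟩
            · simp only [h4, zero_mul]; exact hasDerivAt_const _ _
            · simp only [h4, zero_mul, hu0, h0]; ring
          · obtain ⟨y', h5, h6⟩ := hdu (s * r) ((bb_abs_le s (Ioo_subset_Icc_self hr)).trans_lt hs)
              (mul_ne_zero h4 hr.1.ne')
            refine ⟨y' * s, ?_, by rw [← h6]; ring⟩
            have h7 := HasDerivAt.comp r h5 ((hasDerivAt_id r).const_mul s)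
            rw [mul_one] at h7
            exact h7
      rwa [mul_one] at h3
    have h3 : ∀ᶠ t in 𝓝 (0 : ℝ), |t| < min δ η := by
      simpa only [Real.dist_eq, sub_zero] using Metric.eventually_nhds_iff.2
        ⟨min δ η, lt_min hδ hη, fun (t : ℝ) (h : dist t 0 < min δ η) => h⟩
    filter_upwards [mem_nhdsWithin_of_mem_nhds h3, self_mem_nhdsWithin] with t ht ht0
    have ht1 : |t| < δ := lt_of_lt_of_le ht (min_le_left _ _)
    have ht2 : |t| < η := lt_of_lt_of_le ht (min_le_right _ _)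
    have h4 := huniq (t, 0)
      ⟨fun ρ => Function.update y 0 y0 (t * ρ), (hcomp _ hcu t ht1).domRestrict⟩
      ⟨fun ρ => Ψ (t * ρ, Function.update y 0 y0 (t * ρ)), (hcomp _ hcΨ t ht1).domRestrict⟩
      (by rwa [hn])
      (by
        refine lt_of_le_of_lt ((ContinuousMap.norm_le _ (half_pos hη).le).2 fun ρ => ?_)
          (half_lt_self hη)
        exact (hb ((bb_abs_le t ρ.2).trans_lt ht1)).2.1.le)
      (fun ρ => rfl)
      (by
        rw [_root_.zero_apply, add_zero, zero_add]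
        ext ρ
        rw [bbK_eq hν _ ρ (fun x => Ψ (t * x, Function.update y 0 y0 (t * x))) fun x => rfl]
        simp only [← mul_assoc]
        exact (hint _ ((bb_abs_le t ρ.2).trans_lt ht1)).symm)
    rw [← h4]
    change y t = Function.update y 0 y0 (t * 1)
    rw [mul_one, Function.update_of_ne ht0]

end Pool.Agent.MP_c2f0e4_an

end

section

open Set Filter Topology Real Asymptotics

namespace Pool.Agent.MP_c2f0e4_an

lemma loc_lt {g : ℝ → ℝ} {u v : ℝ} (huv : u < v) (hc : ContinuousOn g (Icc u v))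
    (hd : ∀ y ∈ Ioo u v, y ≠ 0 → 0 < deriv g y) : g u < g v := by
  have key : ∀ a b, u ≤ a → a < b → b ≤ v → (0 : ℝ) ∉ Ioo a b → g a < g b := by
    intro a b ha hab hb h0
    refine strictMonoOn_of_deriv_pos (convex_Icc a b) (hc.mono (Icc_subset_Icc ha hb)) ?_
      (left_mem_Icc.2 hab.le) (right_mem_Icc.2 hab.le) hab
    intro y hy
    rw [interior_Icc] at hy
    exact hd y ⟨ha.trans_lt hy.1, hy.2.trans_le hb⟩ fun h => h0 (h ▸ hy)
  by_cases h0 : (0 : ℝ) ∈ Ioo u v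
  · exact (key u 0 le_rfl h0.1 h0.2.le fun h => lt_irrefl _ h.2).trans
      (key 0 v h0.1.le h0.2 le_rfl fun h => lt_irrefl _ h.1)
  · exact key u v le_rfl huv le_rfl h0

lemma loc_core {A B : ℝ → ℝ} {x0 u0 s : ℝ} {H : ℝ × ℝ → ℝ}
    (h : ∀ᶠ p in 𝓝 (x0, u0), AnalyticAt ℝ H p ∧ (p.2 ≠ 0 → 0 < s * fderiv ℝ H p (0, 1)) ∧
      (p.2 ≠ 0 → fderiv ℝ H p (1, -B p.1 - A p.1 / p.2 ^ 2) = 0) ∧ (p.2 = 0 → 0 < A x0 * A p.1)) :
    ∃ r : ℝ, 0 < r ∧
      (∀ x u, |x - x0| < r → |u - u0| < r →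
        AnalyticAt ℝ H (x, u) ∧ (u ≠ 0 → fderiv ℝ H (x, u) (0, 1) ≠ 0)) ∧
      (∀ x, |x - x0| < r → InjOn (fun u => H (x, u)) (Ioo (u0 - r) (u0 + r))) ∧
      ∀ U, Sol A B U → ∀ a b, a ≤ b → (∀ x ∈ Icc a b, |x - x0| < r ∧ |U x - u0| < r) →
        H (a, U a) = H (b, U b) := by
  obtain ⟨r, hr, hb⟩ := Metric.eventually_nhds_iff.1 h
  have hb' := fun (x u : ℝ) (hx : |x - x0| < r) (hu : |u - u0| < r) =>
    hb (y := (x, u)) (by rw [Prod.dist_eq]; exact max_lt hx hu)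
  refine ⟨r, hr, fun x u hx hu => ⟨(hb' x u hx hu).1, fun h0 h1 => ?_⟩, fun x hx => ?_,
    fun U hU a b hab hbox => ?_⟩
  · have := (hb' x u hx hu).2.1 h0
    rw [h1, mul_zero] at this
    exact lt_irrefl _ this
  · have hd : ∀ u, |u - u0| < r →
        HasDerivAt (fun y => s * H (x, y)) (s * fderiv ℝ H (x, u) (0, 1)) u := fun u hu =>
      ((hb' x u hx hu).1.differentiableAt.hasFDerivAt.comp_hasDerivAt u
        ((hasDerivAt_const u x).prodMk (hasDerivAt_id u))).const_mul s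
    have hlt : ∀ u ∈ Ioo (u0 - r) (u0 + r), ∀ v ∈ Ioo (u0 - r) (u0 + r), u < v →
        s * H (x, u) < s * H (x, v) := by
      intro u hu v hv huv
      have hin : ∀ y ∈ Icc u v, |y - u0| < r := fun y hy =>
        abs_lt.2 ⟨by linarith [hu.1, hy.1], by linarith [hv.2, hy.2]⟩
      refine loc_lt (g := fun y => s * H (x, y)) huv
        (fun y hy => (hd y (hin y hy)).continuousAt.continuousWithinAt) fun y hy h0 => ?_
      rw [(hd y (hin y (Ioo_subset_Icc_self hy))).deriv]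
      exact (hb' x y hx (hin y (Ioo_subset_Icc_self hy))).2.1 h0
    intro u hu v hv huv
    have e : s * H (x, u) = s * H (x, v) := congrArg (s * ·) huv
    rcases lt_trichotomy u v with h1 | h1 | h1
    · exact absurd e (hlt u hu v hv h1).ne
    · exact h1
    · exact absurd e (hlt v hv u hu h1).ne'
  · have hz : ∀ x ∈ Icc a b, U x = 0 → 0 < A x0 * A x := fun x hx h0 =>
      (hb' x (U x) (hbox x hx).1 (hbox x hx).2).2.2.2 h0
    have two : ∀ x ∈ Icc a b, ∀ y ∈ Icc a b, x < y → U x = 0 → U y ≠ 0 := by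
      intro x hx y hy hxy h0
      have hsub : Icc x y ⊆ Icc a b := Icc_subset_Icc hx.1 hy.2
      rcases lt_or_ge 0 (A x0) with h1 | h1
      · exact (hU.neg_forward (a := x) (b := y)
          (fun z hz' h2 => (mul_pos_iff_of_pos_left h1).1 (hz z (hsub hz') h2)) h0.le y ⟨hxy, le_rfl⟩).ne
      · refine (hU.pos_forward (a := x) (b := y) (fun z hz' h2 => ?_) h0.ge y ⟨hxy, le_rfl⟩).ne'
        by_contra h3
        exact absurd (hz z (hsub hz') h2) (not_lt.2 (mul_nonpos_of_nonpos_of_nonneg h1 (not_lt.1 h3)))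
    have hS : {x ∈ Icc a b | U x = 0}.Finite := by
      refine Set.Subsingleton.finite fun x hx y hy => ?_
      rcases lt_trichotomy x y with h1 | h1 | h1
      · exact absurd hy.2 (two x hx.1 y hy.1 h1 hx.2)
      · exact h1
      · exact absurd hx.2 (two y hy.1 x hx.1 h1 hy.2)
    have hc : ContinuousOn (fun x => H (x, U x)) (Icc a b) := fun x hx =>
      (ContinuousAt.comp (f := fun x => (x, U x))
        (hb' x (U x) (hbox x hx).1 (hbox x hx).2).1.continuousAt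
        (continuousAt_id.prodMk hU.1.continuousAt)).continuousWithinAt
    have hd : ∀ x ∈ Ioo a b, x ∉ {x ∈ Icc a b | U x = 0} → HasDerivAt (fun x => H (x, U x)) 0 x := by
      intro x hx hxS
      have hx' := Ioo_subset_Icc_self hx
      have h0 : U x ≠ 0 := fun h => hxS ⟨hx', h⟩
      have h1 := hb' x (U x) (hbox x hx').1 (hbox x hx').2
      have h2 := h1.1.differentiableAt.hasFDerivAt.comp_hasDerivAt (f := fun x => (x, U x)) x
        ((hasDerivAt_id x).prodMk (hU.hasDerivAt h0))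
      rw [h1.2.2.1 h0] at h2
      exact h2
    have h1 := sub_le_of_deriv_le (c := 0) hS hab hc fun x hx hxS => ⟨0, hd x hx hxS, le_rfl⟩
    have h2 := le_sub_of_le_deriv (c := 0) hS hab hc fun x hx hxS => ⟨0, hd x hx hxS, le_rfl⟩
    linarith

lemma loc_sign {X : Type} [TopologicalSpace X] {f : X → ℝ} {p : X} (hf : ContinuousAt f p)
    (h : f p ≠ 0) : ∀ᶠ q in 𝓝 p, 0 < f p * f q :=
  (continuousAt_const.mul hf).eventually (lt_mem_nhds (mul_self_pos.2 h))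

lemma loc_cont {H : ℝ × ℝ → ℝ} {p : ℝ × ℝ} (h : AnalyticAt ℝ H p) (v : ℝ × ℝ) :
    ContinuousAt (fun q => fderiv ℝ H q v) p :=
  h.fderiv.continuousAt.clm_apply continuousAt_const

lemma loc_lin (L : ℝ × ℝ →L[ℝ] ℝ) (a b : ℝ) : L (a, b) = a * L (1, 0) + b * L (0, 1) := by
  have : (a, b) = a • ((1 : ℝ), (0 : ℝ)) + b • ((0 : ℝ), (1 : ℝ)) := by simp
  rw [this, map_add, map_smul, map_smul, smul_eq_mul, smul_eq_mul]

theorem locS (hAF : AFStmt) : LocStmt := by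
  intro A B hA hB x0 u0 h0
  by_cases hu : u0 = 0
  · subst hu
    have hA0 : A x0 ≠ 0 := fun h => h0 h rfl
    have hA2 : AnalyticAt ℝ (fun p : ℝ × ℝ => A p.2) (0, x0) :=
      (hA x0).comp_of_eq (f := Prod.snd) analyticAt_snd rfl
    have hB2 : AnalyticAt ℝ (fun p : ℝ × ℝ => B p.2) (0, x0) :=
      (hB x0).comp_of_eq (f := Prod.snd) analyticAt_snd rfl
    have hden : AnalyticAt ℝ (fun p : ℝ × ℝ => A p.2 + B p.2 * p.1 ^ 2) (0, x0) :=
      hA2.add (hB2.mul (analyticAt_fst.pow 2))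
    obtain ⟨G, hG, hG1, hG2⟩ := hAF (fun p => -p.1 ^ 2 / (A p.2 + B p.2 * p.1 ^ 2)) (0, x0)
      ((analyticAt_fst.pow 2).neg.div hden (by simpa using hA0))
    have hall := hG.eventually_analyticAt.and (hG2.and ((loc_sign (loc_cont hG (0, 1)) hG1).and
      ((loc_sign hden.continuousAt (by simpa using hA0)).and (loc_sign hA2.continuousAt hA0))))
    have hsw : Tendsto Prod.swap (𝓝 (x0, (0 : ℝ))) (𝓝 ((0 : ℝ), x0)) :=
      continuous_swap.continuousAt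
    refine ⟨fun p => G p.swap, loc_core (s := fderiv ℝ G (0, x0) (0, 1) * A x0) ?_⟩
    filter_upwards [hsw.eventually hall] with p hp
    obtain ⟨x, u⟩ := p
    obtain ⟨h1, h2, h3, h4, h5⟩ := hp
    simp only [Prod.swap_prod_mk] at h1 h2 h3 h4 h5
    have hf : ∀ a b : ℝ, fderiv ℝ (fun p : ℝ × ℝ => G p.swap) (x, u) (a, b) =
        fderiv ℝ G (u, x) (b, a) := by
      intro a b
      have := (h1.differentiableAt.hasFDerivAt.comp (f := fun p : ℝ × ℝ => (p.2, p.1)) (x, u)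
        (hasFDerivAt_snd.prodMk hasFDerivAt_fst)).fderiv
      exact congrArg (· (a, b)) this
    have h4' : 0 < A x0 * (A x + B x * u ^ 2) := by simpa using h4
    have hd : A x + B x * u ^ 2 ≠ 0 := fun h => by
      rw [h, mul_zero] at h4'; exact lt_irrefl _ h4'
    rw [loc_lin] at h2
    have h6 : fderiv ℝ G (u, x) (1, 0) =
        u ^ 2 / (A x + B x * u ^ 2) * fderiv ℝ G (u, x) (0, 1) := by
      rw [neg_div] at h2; linarith
    refine ⟨h1.comp_of_eq (f := fun p : ℝ × ℝ => (p.2, p.1))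
      (analyticAt_snd.prod analyticAt_fst) rfl, fun hu => ?_, fun hu => ?_, fun _ => h5⟩
    · have hu' : u ≠ 0 := hu
      rw [hf, h6]
      have e : fderiv ℝ G (0, x0) (0, 1) * A x0 *
          (u ^ 2 / (A x + B x * u ^ 2) * fderiv ℝ G (u, x) (0, 1)) =
          u ^ 2 * (fderiv ℝ G (0, x0) (0, 1) * fderiv ℝ G (u, x) (0, 1)) *
            (A x0 * (A x + B x * u ^ 2)) / (A x + B x * u ^ 2) ^ 2 := by
        field_simp
      rw [e]
      positivity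
    · have hu' : u ≠ 0 := hu
      rw [hf, loc_lin, h6]
      field_simp
      ring
  · have hA1 : AnalyticAt ℝ (fun p : ℝ × ℝ => A p.1) (x0, u0) :=
      (hA x0).comp_of_eq (f := Prod.fst) analyticAt_fst rfl
    have hB1 : AnalyticAt ℝ (fun p : ℝ × ℝ => B p.1) (x0, u0) :=
      (hB x0).comp_of_eq (f := Prod.fst) analyticAt_fst rfl
    obtain ⟨H, hH, hH1, hH2⟩ := hAF (fun p => -B p.1 - A p.1 / p.2 ^ 2) (x0, u0)
      (hB1.neg.sub (hA1.div (analyticAt_snd.pow 2) (pow_ne_zero 2 hu)))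
    refine ⟨H, loc_core (s := fderiv ℝ H (x0, u0) (0, 1)) ?_⟩
    have hne : ∀ᶠ p : ℝ × ℝ in 𝓝 (x0, u0), p.2 ≠ 0 := continuousAt_snd.eventually_ne hu
    filter_upwards [hH.eventually_analyticAt, hH2, loc_sign (loc_cont hH (0, 1)) hH1, hne]
      with p h1 h2 h3 h4
    exact ⟨h1, fun _ => h3, fun _ => h2, fun h => absurd h h4⟩

end Pool.Agent.MP_c2f0e4_an

end

section

open Set Filter Topology Real Asymptotics

namespace Pool.Agent.MP_c2f0e4_an

lemma uniq_loc (hLoc : LocStmt) {A B U V : ℝ → ℝ} (hA : An A) (hB : An B) (hU : Sol A B U)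
    (hV : Sol A B V) {c : ℝ} (hc : A c = 0 → V c ≠ 0) (h : U c = V c) :
    ∀ᶠ x in 𝓝 c, U x = V x := by
  obtain ⟨H, r, hr, -, hi, hH⟩ := hLoc A B hA hB c (V c) hc
  have e : ∀ W : ℝ → ℝ, Continuous W → W c = V c → ∀ᶠ x in 𝓝 c, |W x - V c| < r := by
    intro W hW h0
    refine ContinuousAt.eventually_lt (by fun_prop) continuousAt_const ?_
    simpa [h0] using hr
  have e0 : ∀ᶠ x in 𝓝 c, |x - c| < r :=
    ContinuousAt.eventually_lt (by fun_prop) continuousAt_const (by simpa using hr)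
  obtain ⟨⟨l, u⟩, hlu, hs⟩ := (nhds_basis_Ioo c).eventually_iff.1
    (e0.and ((e U hU.1 h).and (e V hV.1 rfl)))
  filter_upwards [Ioo_mem_nhds hlu.1 hlu.2] with x hx
  have k : ∀ W, Sol A B W → (∀ y ∈ Ioo l u, |W y - V c| < r) → H (x, W x) = H (c, W c) := by
    intro W hW hw
    rcases le_total x c with h1 | h1
    · exact hH W hW x c h1 fun y hy =>
        ⟨(hs (Icc_subset_Ioo hx.1 hlu.2 hy)).1, hw y (Icc_subset_Ioo hx.1 hlu.2 hy)⟩
    · exact (hH W hW c x h1 fun y hy =>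
        ⟨(hs (Icc_subset_Ioo hlu.1 hx.2 hy)).1, hw y (Icc_subset_Ioo hlu.1 hx.2 hy)⟩).symm
  obtain ⟨h1, h2, h3⟩ := hs hx
  rw [abs_lt] at h2 h3
  refine hi x h1 ⟨by linarith [h2.1], by linarith [h2.2]⟩ ⟨by linarith [h3.1], by linarith [h3.2]⟩ ?_
  simp only
  rw [k U hU fun y hy => (hs hy).2.1, k V hV fun y hy => (hs hy).2.2, h]

theorem uniqS (hLoc : LocStmt) : UniqStmt := by
  intro A B U V hA hB hU hV a b x0 hx0 hg h0 x hx
  have h1 : closure {y | ∀ᶠ z in 𝓝 y, U z = V z} ⊆ {y | U y = V y} :=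
    closure_minimal (fun y hy => hy.self_of_nhds) (isClosed_eq hU.1 hV.1)
  exact ((isPreconnected_Icc (a := a) (b := b)).subset_of_closure_inter_subset
    (isOpen_setOfPred_eventually_nhds (p := fun z => U z = V z))
    ⟨x0, hx0, uniq_loc hLoc hA hB hU hV (hg x0 hx0) h0⟩
    (fun y hy => uniq_loc hLoc hA hB hU hV (hg y hy.2) (h1 hy.1)) hx).self_of_nhds

lemma uniq_cover (a x : ℝ) {T : ℝ} (hT : 0 < T) : ∃ k : ℤ, x ∈ Icc (a + k * T) (a + k * T + T) := by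
  refine ⟨⌊(x - a) / T⌋, ?_, ?_⟩
  · linarith [(le_div_iff₀ hT).1 (Int.floor_le ((x - a) / T))]
  · linarith [(div_lt_iff₀ hT).1 (Int.lt_floor_add_one ((x - a) / T))]

theorem extS (hUniq : UniqStmt) : ExtStmt := by
  intro A B U hs hU a hg h0
  have hT : 0 < 2 * π := two_pi_pos
  have fw : ∀ c, GoodOn A U (Icc c (c + 2 * π)) ∧ U (c + 2 * π) = U c →
      ∀ x ∈ Icc c (c + 2 * π), U (x + 2 * π) = U x := fun c hc =>
    hUniq A B _ U hs.anA hs.anB (hU.shift_two_pi hs) hU _ _ c (left_mem_Icc.2 (by linarith))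
      hc.1 hc.2
  have hW : Sol A B fun x => U (x - 2 * π) := by
    simpa only [← sub_eq_add_neg, hs.perA.sub_eq, hs.perB.sub_eq] using hU.shift (-(2 * π))
  have bw : ∀ c, GoodOn A U (Icc c (c + 2 * π)) ∧ U (c + 2 * π) = U c →
      ∀ x ∈ Icc c (c + 2 * π), U (x - 2 * π) = U x := fun c hc =>
    hUniq A B _ U hs.anA hs.anB hW hU _ _ (c + 2 * π) (right_mem_Icc.2 (by linarith))
      hc.1 (by rw [add_sub_cancel_right, hc.2])
  have key : ∀ k : ℤ, GoodOn A U (Icc (a + k * (2 * π)) (a + k * (2 * π) + 2 * π)) ∧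
      U (a + k * (2 * π) + 2 * π) = U (a + k * (2 * π)) := by
    intro k
    induction k using Int.induction_on with
    | zero => simpa using ⟨hg, h0⟩
    | succ n ih =>
      rw [Int.cast_add, Int.cast_one, add_mul, one_mul, ← add_assoc]
      generalize a + ((n : ℤ) : ℝ) * (2 * π) = c at ih
      refine ⟨fun x hx hA => ?_, fw c ih _ (right_mem_Icc.2 (by linarith))⟩
      have hy : x - 2 * π ∈ Icc c (c + 2 * π) := ⟨by linarith [hx.1], by linarith [hx.2]⟩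
      have := fw c ih _ hy
      rw [sub_add_cancel] at this
      rw [this]
      exact ih.1 _ hy (by rw [hs.perA.sub_eq, hA])
    | pred n ih =>
      rw [Int.cast_sub, Int.cast_one, sub_mul, one_mul, ← add_sub_assoc, sub_add_cancel]
      generalize a + ((-n : ℤ) : ℝ) * (2 * π) = c at ih
      refine ⟨fun x hx hA => ?_, (bw c ih _ (left_mem_Icc.2 (by linarith))).symm⟩
      have hy : x + 2 * π ∈ Icc c (c + 2 * π) := ⟨by linarith [hx.1], by linarith [hx.2]⟩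
      have := bw c ih _ hy
      rw [add_sub_cancel_right] at this
      rw [this]
      exact ih.1 _ hy (by rw [hs.perA, hA])
  refine ⟨hU, fun x _ => ?_, fun x => ?_⟩
  · obtain ⟨k, hk⟩ := uniq_cover a x hT
    exact (key k).1 x hk
  · obtain ⟨k, hk⟩ := uniq_cover a x hT
    exact fw _ (key k) x hk

lemma uniq_rev {A B : ℝ → ℝ} (hs : Sys A B) {c : ℝ} (h : Rev A B c) (k : ℤ) :
    Rev A B (c + k * π) := by
  induction k using Int.induction_on with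
  | zero => simpa using h
  | succ n ih =>
    rw [Int.cast_add, Int.cast_one, add_mul, one_mul, ← add_assoc]
    intro x
    rw [add_sub_right_comm, add_right_comm _ π x, hs.antiA, hs.antiA, hs.antiB, hs.antiB,
      (ih x).1, (ih x).2]
    exact ⟨rfl, rfl⟩
  | pred n ih =>
    rw [Int.cast_sub, Int.cast_one, sub_mul, one_mul, ← add_sub_assoc]
    generalize c + ((-n : ℤ) : ℝ) * π = d at ih
    intro x
    have := ih x
    rw [show d - x = d - π - x + π by ring, show d + x = d - π + x + π by ring, hs.antiA,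
      hs.antiA, hs.antiB, hs.antiB] at this
    exact ⟨neg_injective this.1, neg_injective this.2⟩

theorem perS (hUniq : UniqStmt) (hExt : ExtStmt) : PerStmt := by
  intro A B U hs hc hU a hg
  have hπ := pi_pos
  rcases hc with hB | ⟨c, hc⟩
  · refine hExt A B U hs hU a (fun x hx => hg x ⟨hx.1, by linarith [hx.2]⟩) (cube_inj ?_)
    have h1 : ∀ x, HasDerivAt (fun y => U (y + π) ^ 3 + U y ^ 3) 0 x := fun x =>
      (((hU.shift π).2 x).fun_add (hU.2 x)).congr_deriv (by simp only [hs.antiA, hB]; ring)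
    have h2 := is_const_of_deriv_eq_zero (fun x => (h1 x).differentiableAt)
      (fun x => (h1 x).deriv) (a + π) a
    rw [add_assoc, ← two_mul] at h2
    linarith
  · obtain ⟨k, hk⟩ := uniq_cover c (a + 2 * π) hπ
    have hr := uniq_rev hs hc k
    generalize c + k * π = d at hk hr
    have hW : Sol A B fun x => U (2 * d - x) := by
      have e : ∀ x, -A (2 * d - x) = A x ∧ -B (2 * d - x) = B x := fun x => by
        have := hr (x - d)
        rw [show d - (x - d) = 2 * d - x by ring, add_sub_cancel] at this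
        exact ⟨by rw [this.1, neg_neg], by rw [this.2, neg_neg]⟩
      simpa only [(e _).1, (e _).2] using hU.refl (2 * d)
    have hg' : GoodOn A U (Icc (d - π) (d - π + 2 * π)) := fun x hx =>
      hg x ⟨by linarith [hx.1, hk.2], by linarith [hx.2, hk.1]⟩
    refine hExt A B U hs hU (d - π) hg' ?_
    have := hUniq A B _ U hs.anA hs.anB hW hU _ _ d ⟨by linarith, by linarith⟩ hg'
      (by rw [two_mul, add_sub_cancel_right]) (d - π) (left_mem_Icc.2 (by linarith))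
    rwa [show 2 * d - (d - π) = d - π + 2 * π by ring] at this

theorem mulS (hUniq : UniqStmt) (hExt : ExtStmt) : MulStmt := by
  intro A B U hs hU hg m hm hp
  by_cases h : ∃ x, U (x + 2 * π) = U x
  · obtain ⟨x, hx⟩ := h
    exact hExt A B U hs hU x (fun y _ => hg y (mem_univ _)) hx
  exfalso
  have hc : Continuous fun x => U (x + 2 * π) - U x := (hU.shift_two_pi hs).1.sub hU.1
  have h1 : ∀ x y, U (x + 2 * π) - U x ≤ 0 → 0 ≤ U (y + 2 * π) - U y → False := fun x y hx hy => by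
    obtain ⟨z, hz⟩ := intermediate_value_univ x y hc ⟨hx, hy⟩
    exact h ⟨z, sub_eq_zero.1 hz⟩
  have h2 : U ((m : ℕ) * (2 * π)) = U (((0 : ℕ) : ℝ) * (2 * π)) := by simpa using hp 0
  have e : ∀ n : ℕ, ((n + 1 : ℕ) : ℝ) * (2 * π) = n * (2 * π) + 2 * π := fun n => by
    push_cast; ring
  rcases le_total (U (0 + 2 * π) - U 0) 0 with h0 | h0
  · refine (strictAnti_nat_of_succ_lt (f := fun n : ℕ => U (n * (2 * π))) (fun n => ?_) hm).ne h2
    rw [e]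
    exact sub_neg.1 (not_le.1 (h1 0 _ h0))
  · refine (strictMono_nat_of_lt_succ (f := fun n : ℕ => U (n * (2 * π))) (fun n => ?_) hm).ne' h2
    rw [e]
    exact sub_pos.1 (not_le.1 fun h3 => h1 _ 0 h3 h0)

end Pool.Agent.MP_c2f0e4_an

end

section

open Set Filter Topology Real Asymptotics

namespace Pool.Agent.MP_c2f0e4_an

lemma lim_bd {A B : ℝ → ℝ} (hA : Continuous A) (hB : Continuous B) (a b : ℝ) :
    ∃ C : ℝ, 0 ≤ C ∧ ∀ x ∈ Icc a b, |A x| ≤ C ∧ |B x| ≤ C := by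
  obtain ⟨C1, h1⟩ := isCompact_Icc.exists_bound_of_continuousOn (hA.continuousOn (s := Icc a b))
  obtain ⟨C2, h2⟩ := isCompact_Icc.exists_bound_of_continuousOn (hB.continuousOn (s := Icc a b))
  exact ⟨max 0 (max C1 C2), le_max_left _ _, fun x hx =>
    ⟨(h1 x hx).trans ((le_max_left _ _).trans (le_max_right _ _)),
      (h2 x hx).trans ((le_max_right _ _).trans (le_max_right _ _))⟩⟩

lemma lim_der {p q u C : ℝ} (hp : |p| ≤ C) (hq : |q| ≤ C) :
    |-3 * (p + q * u ^ 2)| ≤ 3 * C * (1 + u ^ 2) := by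
  have h1 : |q * u ^ 2| ≤ C * u ^ 2 := by
    rw [abs_mul, abs_of_nonneg (sq_nonneg u)]
    exact mul_le_mul_of_nonneg_right hq (sq_nonneg u)
  have h2 := abs_add_le p (q * u ^ 2)
  rw [abs_mul, show |(-3 : ℝ)| = 3 by norm_num]
  linarith

lemma lim_pow {t : ℝ} (ht : 0 ≤ t) {k : ℕ} (hk : k ≤ 6) : t ^ k ≤ 1 + t ^ 6 := by
  rcases le_total t 1 with h | h
  · exact (pow_le_one₀ ht h).trans (le_add_of_nonneg_right (by positivity))
  · exact (pow_le_pow_right₀ h hk).trans (le_add_of_nonneg_left zero_le_one)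

theorem boundS : BoundStmt := by
  intro A B hA hB a b M
  obtain ⟨C, hC, hb⟩ := lim_bd hA hB a b
  refine ⟨exp (log (1 + M ^ 6) + 12 * C * (b - a)), fun U hU x0 hx0 hM x hx => ?_⟩
  have hd : ∀ y ∈ Icc a b, HasDerivWithinAt (fun y => log (1 + (U y ^ 3) ^ 2))
      (2 * U y ^ 3 * (-3 * (A y + B y * U y ^ 2)) / (1 + (U y ^ 3) ^ 2)) (Icc a b) y := by
    intro y _
    have h1 := (((hU.2 y).pow 2).const_add 1).log (by positivity : 1 + (U y ^ 3) ^ 2 ≠ 0)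
    refine (h1.congr_deriv ?_).hasDerivWithinAt
    simp
  have h1 := (convex_Icc a b).norm_image_sub_le_of_norm_hasDerivWithin_le (C := 12 * C) hd
    (fun y hy => by
      rw [Real.norm_eq_abs, abs_div, abs_of_pos (by positivity : 0 < 1 + (U y ^ 3) ^ 2),
        div_le_iff₀ (by positivity), abs_mul]
      have h2 := lim_der (u := U y) (hb y hy).1 (hb y hy).2
      have h3 := lim_pow (abs_nonneg (U y)) (k := 3) (by norm_num)
      have h4 := lim_pow (abs_nonneg (U y)) (k := 5) (by norm_num)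
      have h5 : |U y| ^ 6 = (U y ^ 3) ^ 2 := by rw [Even.pow_abs (by decide)]; ring
      have h6 : |2 * U y ^ 3| = 2 * |U y| ^ 3 := by rw [abs_mul, abs_pow]; norm_num
      rw [h6]
      refine (mul_le_mul_of_nonneg_left h2 (by positivity)).trans ?_
      rw [← sq_abs (U y), ← h5]
      nlinarith [mul_le_mul_of_nonneg_left (add_le_add h3 h4) hC]) hx0 hx
  have h2 : ‖x - x0‖ ≤ b - a := abs_sub_le_of_le_of_le hx.1 hx.2 hx0.1 hx0.2
  have h3 := mul_le_mul_of_nonneg_left h2 (by positivity : 0 ≤ 12 * C)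
  have h4 : log (1 + (U x0 ^ 3) ^ 2) ≤ log (1 + M ^ 6) := by
    refine log_le_log (by positivity) ?_
    have := pow_le_pow_left₀ (abs_nonneg _) hM 6
    rw [Even.pow_abs (by decide)] at this
    linarith [show (U x0 ^ 3) ^ 2 = U x0 ^ 6 by ring]
  have h5 := lim_pow (abs_nonneg (U x)) (k := 1) (by norm_num)
  rw [pow_one, Even.pow_abs (by decide), show U x ^ 6 = (U x ^ 3) ^ 2 by ring] at h5
  refine h5.trans ?_
  rw [← log_le_iff_le_exp (by positivity)]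
  linarith [(abs_le.1 (h1.trans h3)).2]

lemma lim_unif {l : Filter ℕ} [l.NeBot] {w : ℕ → ℝ → ℝ} {W : ℝ → ℝ} {a b K : ℝ} (hK : 0 ≤ K)
    (hl : ∀ᶠ n in l, ∀ x ∈ Icc a b, ∀ y ∈ Icc a b, |w n y - w n x| ≤ K * |y - x|)
    (hp : ∀ x, Tendsto (fun n => w n x) l (𝓝 (W x))) : TendstoUniformlyOn w W l (Icc a b) := by
  have hW : ∀ x ∈ Icc a b, ∀ y ∈ Icc a b, |W y - W x| ≤ K * |y - x| := fun x hx y hy =>
    le_of_tendsto ((hp y).sub (hp x)).abs (hl.mono fun n hn => hn x hx y hy)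
  rw [Metric.tendstoUniformlyOn_iff]
  intro ε hε
  obtain ⟨t, ht, hfin, hcov⟩ := finite_cover_balls_of_compact (isCompact_Icc (a := a) (b := b))
    (e := ε / (3 * (K + 1))) (by positivity)
  have h1 : ∀ᶠ n in l, ∀ x ∈ t, dist (w n x) (W x) < ε / 3 :=
    (eventually_all_finite hfin).2 fun x _ => Metric.tendsto_nhds.1 (hp x) _ (by positivity)
  filter_upwards [hl, h1] with n h2 h3 y hy
  obtain ⟨x, hx, hxy⟩ := mem_iUnion₂.1 (hcov hy)
  rw [Metric.mem_ball, Real.dist_eq, lt_div_iff₀ (by positivity)] at hxy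
  have h4 := abs_le.1 (h2 x (ht hx) y hy)
  have h5 := abs_le.1 (hW x (ht hx) y hy)
  have h6 := abs_lt.1 (h3 x hx)
  have h7 := abs_nonneg (y - x)
  rw [Real.dist_eq, abs_lt]
  constructor <;> nlinarith

lemma lim_cube {u v ε : ℝ} (hε : 0 < ε) (h : |u ^ 3 - v ^ 3| < ε ^ 3 / 4) : |u - v| < ε := by
  by_contra hc
  have h1 := pow_le_pow_left₀ hε.le (not_lt.1 hc) 3
  have h2 : |u ^ 3 - v ^ 3| = |u - v| * (u ^ 2 + u * v + v ^ 2) := by
    rw [← abs_of_nonneg (show 0 ≤ u ^ 2 + u * v + v ^ 2 by nlinarith [sq_nonneg (u + v)]),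
      ← abs_mul]
    congr 1; ring
  have h3 : |u - v| ^ 3 = |u - v| * (u - v) ^ 2 := by rw [← sq_abs (u - v)]; ring
  have h4 : (u - v) ^ 2 ≤ 4 * (u ^ 2 + u * v + v ^ 2) := by nlinarith [sq_nonneg (u + v)]
  nlinarith [mul_le_mul_of_nonneg_left h4 (abs_nonneg (u - v))]

theorem limS : LimStmt := by
  intro A B hA hB l U V hl hU hp
  have hbd : ∀ a b : ℝ, ∃ M : ℝ, 0 ≤ M ∧ ∀ᶠ n in l, ∀ x ∈ Icc a b, |U n x| ≤ M := by
    intro a b
    obtain ⟨M, hM⟩ := boundS A B hA hB a b (|V a| + 1)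
    refine ⟨max 0 M, le_max_left _ _, ?_⟩
    filter_upwards [(hp a).abs.eventually_le_const (lt_add_one _)] with n hn x hx
    exact (hM _ (hU n) a ⟨le_rfl, hx.1.trans hx.2⟩ hn x hx).trans (le_max_right _ _)
  have hun : ∀ a b : ℝ, TendstoUniformlyOn U V l (Icc a b) := by
    intro a b
    obtain ⟨C, hC, hb⟩ := lim_bd hA hB a b
    obtain ⟨M, hM0, hM⟩ := hbd a b
    have h1 := lim_unif (w := fun n x => U n x ^ 3) (W := fun x => V x ^ 3) (a := a) (b := b)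
      (K := 3 * C * (1 + M ^ 2)) (by positivity) (hM.mono fun n hn x hx y hy =>
        (convex_Icc a b).norm_image_sub_le_of_norm_hasDerivWithin_le
          (fun z _ => ((hU n).2 z).hasDerivWithinAt) (fun z hz =>
            (lim_der (hb z hz).1 (hb z hz).2).trans (by
              have := pow_le_pow_left₀ (abs_nonneg _) (hn z hz) 2
              rw [sq_abs] at this
              gcongr)) hx hy) fun x => (hp x).pow 3
    rw [Metric.tendstoUniformlyOn_iff] at h1 ⊢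
    intro ε hε
    filter_upwards [h1 (ε ^ 3 / 4) (by positivity)] with n hn x hx
    exact lim_cube hε (hn x hx)
  refine ⟨⟨continuous_iff_continuousAt.2 fun x => ?_, fun x => ?_⟩, hun⟩
  · exact ((hun (x - 1) (x + 1)).continuousOn (Frequently.of_forall fun n =>
      (hU n).1.continuousOn)).continuousAt (Icc_mem_nhds (by linarith) (by linarith))
  · obtain ⟨C, hC, hb⟩ := lim_bd hA hB (x - 1) (x + 1)
    obtain ⟨M, hM0, hM⟩ := hbd (x - 1) (x + 1)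
    refine hasDerivAt_of_tendstoUniformlyOn (l := l) (f := fun n y => U n y ^ 3)
      (f' := fun n y => -3 * (A y + B y * U n y ^ 2))
      (g' := fun y => -3 * (A y + B y * V y ^ 2)) (s := Ioo (x - 1) (x + 1)) isOpen_Ioo ?_
      (Eventually.of_forall fun n y _ => (hU n).2 y) (fun y _ => (hp y).pow 3)
      ⟨by linarith, by linarith⟩
    have h1 := hun (x - 1) (x + 1)
    rw [Metric.tendstoUniformlyOn_iff] at h1 ⊢
    intro ε hε
    filter_upwards [h1 (ε / (6 * C * M + 1)) (by positivity), hM] with n h2 h3 y hy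
    have hy' := Ioo_subset_Icc_self hy
    have h4 : |V y| ≤ M := le_of_tendsto (hp y).abs (hM.mono fun m hm => hm y hy')
    have h5 := h2 y hy'
    rw [Real.dist_eq, lt_div_iff₀ (by positivity)] at h5
    have h6 : |V y + U n y| ≤ 2 * M := (abs_add_le _ _).trans (by linarith [h3 y hy'])
    have h7 := mul_le_mul (hb y hy').2 h6 (abs_nonneg _) hC
    rw [Real.dist_eq, show -3 * (A y + B y * V y ^ 2) - -3 * (A y + B y * U n y ^ 2) =
      -3 * (B y * (V y + U n y) * (V y - U n y)) by ring, abs_mul, abs_mul, abs_mul,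
      show |(-3 : ℝ)| = 3 by norm_num]
    nlinarith [mul_le_mul_of_nonneg_right h7 (abs_nonneg (V y - U n y)), abs_nonneg (V y - U n y)]

theorem depS (hUniq : UniqStmt) : DepStmt := by
  intro A B V hA hB hV a b x0 hx0 hg η hη
  by_contra hc
  push Not at hc
  choose U hU h0 y hy hfar using fun n : ℕ => hc (1 / ((n : ℝ) + 1)) (by positivity)
  let l : Ultrafilter ℕ := Ultrafilter.of atTop
  have hl : (l : Filter ℕ) ≤ atTop := Ultrafilter.of_le _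
  have hlim : ∀ x, ∃ w, Tendsto (fun n => U n x) l (𝓝 w) := by
    intro x
    obtain ⟨M, hM⟩ := boundS A B hA.continuous hB.continuous (min x x0) (max x x0) (|V x0| + 1)
    obtain ⟨w, -, hw⟩ := (isCompact_Icc (a := -M) (b := M)).ultrafilter_le_nhds
      (l.map fun n => U n x) (le_principal_iff.2 (mem_map.2 (univ_mem' fun n : ℕ => abs_le.1
        (hM _ (hU n) x0 ⟨min_le_right _ _, le_max_right _ _⟩ (by
          have h1 : 1 / ((n : ℝ) + 1) ≤ 1 := by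
            rw [div_le_one (by positivity)]; linarith [Nat.cast_nonneg (α := ℝ) n]
          linarith [abs_sub_abs_le_abs_sub (U n x0) (V x0), h0 n]) x
          ⟨min_le_left _ _, le_max_left _ _⟩))))
    exact ⟨w, hw⟩
  choose W hW using hlim
  obtain ⟨hWs, hun⟩ := limS A B hA.continuous hB.continuous l U W inferInstance hU hW
  have h1 : Tendsto (fun n => U n x0) atTop (𝓝 (V x0)) :=
    tendsto_iff_norm_sub_tendsto_zero.2 (squeeze_zero (fun _ => norm_nonneg _)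
      (fun n => (h0 n).le) tendsto_one_div_add_atTop_nhds_zero_nat)
  have h2 := hUniq A B W V hA hB hWs hV a b x0 hx0 hg (tendsto_nhds_unique (hW x0) (h1.mono_left hl))
  obtain ⟨n, hn⟩ := (Metric.tendstoUniformlyOn_iff.1 (hun a b) η hη).exists
  have h3 := hn _ (hy n)
  rw [h2 _ (hy n), Real.dist_eq, abs_sub_comm] at h3
  exact absurd h3 (not_lt.2 (hfar n))

end Pool.Agent.MP_c2f0e4_an

end

section

open Set Filter Topology Real Asymptotics

namespace Pool.Agent.MP_c2f0e4_an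

/-- mean value inequality on an open interval -/
lemma exist_mvt {f d : ℝ → ℝ} {a b C x y : ℝ} (hd : ∀ z ∈ Ioo a b, HasDerivAt f (d z) z)
    (hC : ∀ z ∈ Ioo a b, |d z| ≤ C) (hx : x ∈ Ioo a b) (hy : y ∈ Ioo a b) :
    |f y - f x| ≤ C * |y - x| :=
  (convex_Ioo a b).norm_image_sub_le_of_norm_hasDerivWithin_le
    (fun z hz => (hd z hz).hasDerivWithinAt) hC hx hy

/-- limit of approximate solutions along an ultrafilter -/
lemma exist_limit {F : ℝ × ℝ → ℝ} (hF : Continuous F) {w d : ℕ → ℝ → ℝ} {x0 w0 : ℝ}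
    (h0 : ∀ k, w k x0 = w0)
    (hb : ∀ T : ℝ, ∃ R : ℝ, ∀ᶠ k in atTop, ∀ z ∈ Ioo (x0 - T) (x0 + T),
      HasDerivAt (w k) (d k z) z ∧ |w k z| ≤ R ∧ |d k z| ≤ R)
    (he : ∀ T ε : ℝ, 0 < ε → ∀ᶠ k in atTop, ∀ z ∈ Ioo (x0 - T) (x0 + T),
      |d k z - F (z, w k z)| ≤ ε) :
    ∃ v : ℝ → ℝ, v x0 = w0 ∧ ∀ x, HasDerivAt v (F (x, v x)) x := by
  have hU : (hyperfilter ℕ : Filter ℕ) ≤ atTop := by
    rw [← Nat.cofinite_eq_atTop]; exact hyperfilter_le_cofinite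
  have hmem : ∀ x : ℝ, x ∈ Ioo (x0 - (|x - x0| + 1)) (x0 + (|x - x0| + 1)) := fun x =>
    ⟨by linarith [neg_abs_le (x - x0)], by linarith [le_abs_self (x - x0)]⟩
  have hlim : ∀ x : ℝ, ∃ y : ℝ, Tendsto (fun k => w k x) (hyperfilter ℕ) (𝓝 y) := by
    intro x
    obtain ⟨R, hR⟩ := hb (|x - x0| + 1)
    have h1 : ((hyperfilter ℕ).map (fun k => w k x) : Filter ℝ) ≤ 𝓟 (Icc (-R) R) := by
      rw [le_principal_iff, Ultrafilter.coe_map, mem_map]
      filter_upwards [hU hR] with k hk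
      exact abs_le.1 (hk x (hmem x)).2.1
    obtain ⟨y, -, hy⟩ := isCompact_Icc.ultrafilter_le_nhds _ h1
    exact ⟨y, hy⟩
  choose v hv using hlim
  refine ⟨v, ?_, fun x => ?_⟩
  · have h1 := hv x0
    simp only [h0] at h1
    exact tendsto_nhds_unique h1 tendsto_const_nhds
  · rw [hasDerivAt_iff_isLittleO, isLittleO_iff]
    intro c hc
    obtain ⟨R, hR⟩ := hb (|x - x0| + 1)
    obtain ⟨η, hη, hFη⟩ := Metric.continuousAt_iff.1 (hF.continuousAt (x := (x, v x))) (c / 2)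
      (by positivity)
    have hR1 : 0 < |R| + 1 := by positivity
    obtain ⟨δ, hδ, hδ1, hδ2, hδ3⟩ : ∃ δ : ℝ, 0 < δ ∧ δ ≤ 1 ∧ δ ≤ η ∧ (|R| + 1) * δ ≤ η / 2 :=
      ⟨min (min 1 η) (η / 2 / (|R| + 1)), by positivity, (min_le_left _ _).trans (min_le_left _ _),
        (min_le_left _ _).trans (min_le_right _ _), by
          rw [← le_div_iff₀' hR1]; exact min_le_right _ _⟩
    have hsub : Ioo (x - δ) (x + δ) ⊆ Ioo (x0 - (|x - x0| + 1)) (x0 + (|x - x0| + 1)) :=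
      Ioo_subset_Ioo (by linarith [neg_abs_le (x - x0)]) (by linarith [le_abs_self (x - x0)])
    have hx : x ∈ Ioo (x - δ) (x + δ) := ⟨by linarith, by linarith⟩
    filter_upwards [Ioo_mem_nhds hx.1 hx.2] with y hy
    have hk : ∀ᶠ k in (hyperfilter ℕ : Filter ℕ),
        |(w k y - F (x, v x) * y) - (w k x - F (x, v x) * x)| ≤ c * |y - x| := by
      filter_upwards [hU hR, hU (he (|x - x0| + 1) (c / 2) (by positivity)),
        (hv x).eventually (Metric.ball_mem_nhds (v x) (half_pos hη))] with k h1 h2 h3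
      refine exist_mvt (f := fun z => w k z - F (x, v x) * z) (d := fun z => d k z - F (x, v x))
        (fun z hz => ?_) (fun z hz => ?_) hx hy
      · exact ((h1 z (hsub hz)).1.sub ((hasDerivAt_id z).const_mul (F (x, v x)))).congr_deriv
          (by rw [mul_one])
      · have h4 : |w k z - w k x| ≤ R * |z - x| :=
          exist_mvt (fun t ht => (h1 t (hsub ht)).1) (fun t ht => (h1 t (hsub ht)).2.2) hx hz
        have h5 : |z - x| < δ := abs_lt.2 ⟨by linarith [hz.1], by linarith [hz.2]⟩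
        have h6 : R * |z - x| ≤ η / 2 := by
          have : R * |z - x| ≤ (|R| + 1) * δ :=
            mul_le_mul (by linarith [le_abs_self R]) h5.le (abs_nonneg _) hR1.le
          linarith
        have h7 : |w k x - v x| < η / 2 := by simpa [Real.dist_eq] using h3
        have h8 : dist (z, w k z) (x, v x) < η := by
          rw [Prod.dist_eq, max_lt_iff, Real.dist_eq, Real.dist_eq]
          refine ⟨by linarith, ?_⟩
          have := abs_sub_le (w k z) (w k x) (v x)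
          linarith
        have h9 := hFη h8
        rw [Real.dist_eq] at h9
        have := abs_sub_le (d k z) (F (z, w k z)) (F (x, v x))
        linarith [h2 z (hsub hz)]
    have ht : Tendsto (fun k => |(w k y - F (x, v x) * y) - (w k x - F (x, v x) * x)|)
        (hyperfilter ℕ) (𝓝 |(v y - F (x, v x) * y) - (v x - F (x, v x) * x)|) :=
      (((hv y).sub_const _).sub ((hv x).sub_const _)).abs
    have := le_of_tendsto ht hk
    rw [Real.norm_eq_abs, Real.norm_eq_abs, smul_eq_mul]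
    have e : v y - v x - (y - x) * F (x, v x)
        = v y - F (x, v x) * y - (v x - F (x, v x) * x) := by ring
    rw [e]
    exact this

/-- bounded, locally Lipschitz approximations of `cb w ^ 2` -/
noncomputable def existG (k : ℕ) (w : ℝ) : ℝ := min (cb (w ^ 2 + 1 / ((k : ℝ) + 1))) ((k : ℝ) + 1)

lemma exist_cb_sq (w : ℝ) : cb (w ^ 2) = cb w ^ 2 := by rw [sq, cb_mul, sq]

lemma exist_cb_nonneg {x : ℝ} (hx : 0 ≤ x) : 0 ≤ cb x := by
  rw [← cb_zero]; exact cb_strictMono.monotone hx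

lemma exist_cb_add {x y : ℝ} (hx : 0 ≤ x) (hy : 0 ≤ y) : cb (x + y) ≤ cb x + cb y := by
  have h1 := exist_cb_nonneg hx
  have h2 := exist_cb_nonneg hy
  rw [← cube_le, cb_pow]
  have h3 : (cb x + cb y) ^ 3 = cb x ^ 3 + cb y ^ 3 + 3 * (cb x * cb y) * (cb x + cb y) := by ring
  rw [h3, cb_pow, cb_pow]
  have : 0 ≤ 3 * (cb x * cb y) * (cb x + cb y) := by positivity
  linarith

lemma exist_inv_le (k : ℕ) : 1 / ((k : ℝ) + 1) ≤ 1 := by
  rw [div_le_one (by positivity)]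
  linarith [Nat.cast_nonneg (α := ℝ) k]

lemma exist_cb_le (k : ℕ) (w : ℝ) : cb (w ^ 2 + 1 / ((k : ℝ) + 1)) ≤ 1 + |w| := by
  rw [← cube_le, cb_pow, ← sq_abs w]
  have h := abs_nonneg w
  have := exist_inv_le k
  nlinarith [mul_nonneg h h, mul_nonneg (mul_nonneg h h) h]

lemma existG_nonneg (k : ℕ) (w : ℝ) : 0 ≤ existG k w :=
  le_min (exist_cb_nonneg (by positivity)) (by positivity)

lemma existG_le (k : ℕ) (w : ℝ) : existG k w ≤ 1 + |w| := (min_le_left _ _).trans (exist_cb_le k w)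

lemma existG_err (k : ℕ) {w : ℝ} (hw : |w| ≤ k) :
    |existG k w - cb w ^ 2| ≤ cb (1 / ((k : ℝ) + 1)) := by
  have h1 : existG k w = cb (w ^ 2 + 1 / ((k : ℝ) + 1)) :=
    min_eq_left ((exist_cb_le k w).trans (by linarith))
  have h2 := exist_cb_add (x := w ^ 2) (y := 1 / ((k : ℝ) + 1)) (by positivity) (by positivity)
  have h3 : cb (w ^ 2) ≤ cb (w ^ 2 + 1 / ((k : ℝ) + 1)) :=
    cb_strictMono.monotone (le_add_of_nonneg_right (by positivity))
  rw [h1, ← exist_cb_sq, abs_le]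
  constructor <;> linarith [exist_cb_nonneg (x := 1 / ((k : ℝ) + 1)) (by positivity)]

lemma existG_lip (k : ℕ) (w0 a : ℝ) :
    ∃ K : ℝ, 0 ≤ K ∧ ∀ x ∈ Metric.closedBall w0 a, ∀ y ∈ Metric.closedBall w0 a,
      |existG k x - existG k y| ≤ K * |x - y| := by
  have h1 : ContDiff ℝ 1 fun w : ℝ => cb (w ^ 2 + 1 / ((k : ℝ) + 1)) := by
    rw [contDiff_iff_contDiffAt]
    intro w
    exact ((cb_analyticAt (x := w ^ 2 + 1 / ((k : ℝ) + 1)) (by positivity)).comp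
      (f := fun w : ℝ => w ^ 2 + 1 / ((k : ℝ) + 1)) (by fun_prop)).contDiffAt
  obtain ⟨K, hK⟩ := h1.contDiffOn.exists_lipschitzOnWith (s := Metric.closedBall w0 a) one_ne_zero
    (convex_closedBall _ _) (isCompact_closedBall _ _)
  refine ⟨K, K.2, fun x hx y hy => ?_⟩
  have h2 := hK.dist_le_mul x hx y hy
  rw [Real.dist_eq, Real.dist_eq] at h2
  exact (abs_min_sub_min_le_max _ _ _ _).trans (by simpa using h2)

lemma exist_bound {A B : ℝ → ℝ} (hA : Continuous A) (hB : Continuous B) (a b : ℝ) :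
    ∃ M : ℝ, 0 ≤ M ∧ ∀ z ∈ Icc a b, |A z| ≤ M ∧ |B z| ≤ M := by
  obtain ⟨M1, h1⟩ := isCompact_Icc.exists_bound_of_continuousOn (hA.continuousOn (s := Icc a b))
  obtain ⟨M2, h2⟩ := isCompact_Icc.exists_bound_of_continuousOn (hB.continuousOn (s := Icc a b))
  refine ⟨|M1| + |M2|, by positivity, fun z hz => ⟨?_, ?_⟩⟩
  · have := h1 z hz
    rw [Real.norm_eq_abs] at this
    linarith [le_abs_self M1, abs_nonneg M2]
  · have := h2 z hz
    rw [Real.norm_eq_abs] at this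
    linarith [le_abs_self M2, abs_nonneg M1]

lemma exist_rhs {a b g M G : ℝ} (ha : |a| ≤ M) (hb : |b| ≤ M) (hg : 0 ≤ g) (hG : g ≤ G) :
    |-3 * (a + b * g)| ≤ 3 * M * (1 + G) := by
  have h1 : |b * g| ≤ M * G := by
    rw [abs_mul, abs_of_nonneg hg]
    exact mul_le_mul hb hG hg ((abs_nonneg _).trans hb)
  have h2 := abs_add_le a (b * g)
  rw [abs_mul, abs_neg, abs_of_pos (by norm_num : (0 : ℝ) < 3)]
  linarith

/-- solutions of the approximate equations -/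
lemma exist_approx {A B : ℝ → ℝ} (hA : Continuous A) (hB : Continuous B) (x0 w0 : ℝ) (k : ℕ) :
    ∃ w : ℝ → ℝ, w x0 = w0 ∧ ∀ z ∈ Ioo (x0 - k) (x0 + k),
      HasDerivAt w (-3 * (A z + B z * existG k (w z))) z := by
  obtain ⟨M, hM, hMb⟩ := exist_bound hA hB (x0 - k) (x0 + k)
  have hk : (0 : ℝ) ≤ k := Nat.cast_nonneg k
  obtain ⟨L, hL⟩ : ∃ L : NNReal, (L : ℝ) = 3 * M * (1 + ((k : ℝ) + 1)) :=
    ⟨⟨_, by positivity⟩, rfl⟩
  obtain ⟨K, hK, hKb⟩ := existG_lip k w0 (L * k)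
  have hP : IsPicardLindelof (fun z w => -3 * (A z + B z * existG k w))
      (⟨x0, by constructor <;> linarith⟩ : Icc (x0 - k) (x0 + k)) w0 (L * k) 0 L
      ⟨3 * M * K, by positivity⟩ := by
    refine ⟨fun t ht => LipschitzOnWith.of_dist_le_mul fun x hx y hy => ?_, fun x _ => ?_,
      fun t ht x _ => ?_, ?_⟩
    · have h1 := hKb x (by simpa using hx) y (by simpa using hy)
      have h2 : -3 * (A t + B t * existG k x) - -3 * (A t + B t * existG k y)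
          = -3 * B t * (existG k x - existG k y) := by ring
      rw [Real.dist_eq, Real.dist_eq, h2, abs_mul, abs_mul, abs_neg,
        abs_of_pos (by norm_num : (0 : ℝ) < 3)]
      have h3 : |B t| * |existG k x - existG k y| ≤ M * (K * |x - y|) :=
        mul_le_mul (hMb t ht).2 h1 (abs_nonneg _) hM
      show _ ≤ 3 * M * K * |x - y|
      nlinarith
    · fun_prop
    · rw [hL, Real.norm_eq_abs]
      exact exist_rhs (hMb t ht).1 (hMb t ht).2 (existG_nonneg _ _) (min_le_right _ _)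
    · simp
  obtain ⟨w, h0, hw⟩ := hP.exists_eq_forall_mem_Icc_hasDerivWithinAt₀
  exact ⟨w, h0, fun z hz => (hw z (Ioo_subset_Icc_self hz)).hasDerivAt (Icc_mem_nhds hz.1 hz.2)⟩

/-- a priori bound -/
lemma exist_apriori {w d : ℝ → ℝ} {x0 T C : ℝ} (hC : 0 ≤ C)
    (hd : ∀ z ∈ Ioo (x0 - T) (x0 + T), HasDerivAt w (d z) z)
    (hb : ∀ z ∈ Ioo (x0 - T) (x0 + T), |d z| ≤ C * (2 + |w z|)) :
    ∀ z ∈ Ioo (x0 - T) (x0 + T), |w z| ≤ exp (log (1 + w x0 ^ 2) + 4 * C * T) := by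
  intro z hz
  have hx : x0 ∈ Ioo (x0 - T) (x0 + T) := ⟨by linarith [hz.1, hz.2], by linarith [hz.1, hz.2]⟩
  have h1 := exist_mvt (f := fun t => log (1 + w t ^ 2))
    (d := fun t => 2 * w t * d t / (1 + w t ^ 2)) (C := 4 * C) (fun t ht => ?_) (fun t ht => ?_) hx hz
  · have h2 : |z - x0| ≤ T := abs_le.2 ⟨by linarith [hz.1], by linarith [hz.2]⟩
    have h3 : log (1 + w z ^ 2) ≤ log (1 + w x0 ^ 2) + 4 * C * T := by
      have := mul_le_mul_of_nonneg_left h2 (by positivity : 0 ≤ 4 * C)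
      linarith [le_abs_self (log (1 + w z ^ 2) - log (1 + w x0 ^ 2))]
    have h4 := (log_le_iff_le_exp (by positivity)).1 h3
    have h5 : |w z| ≤ 1 + w z ^ 2 := by
      rw [← sq_abs]; nlinarith [sq_nonneg (|w z| - 1)]
    linarith
  · have h2 : HasDerivAt (fun t => 1 + w t ^ 2) (2 * w t * d t) t :=
      (((hd t ht).pow 2).const_add 1).congr_deriv (by simp)
    exact h2.log (by positivity)
  · have h2 := hb t ht
    have h3 := abs_nonneg (w t)
    rw [abs_div, abs_of_pos (by positivity : (0 : ℝ) < 1 + w t ^ 2), div_le_iff₀ (by positivity),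
      abs_mul, abs_mul, abs_of_pos (by norm_num : (0 : ℝ) < 2), ← sq_abs]
    have h4 : |w t| * |d t| ≤ |w t| * (C * (2 + |w t|)) := mul_le_mul_of_nonneg_left h2 h3
    nlinarith [mul_nonneg hC (sq_nonneg (|w t| - 1))]

theorem existS : ExistStmt := by
  intro A B hA hB x0 u0
  choose w h0 hw using exist_approx hA hB x0 (u0 ^ 3)
  have key : ∀ T : ℝ, ∃ M R : ℝ, 0 ≤ M ∧ (∀ z ∈ Ioo (x0 - T) (x0 + T), |A z| ≤ M ∧ |B z| ≤ M) ∧
      ∀ᶠ k : ℕ in atTop, ∀ z ∈ Ioo (x0 - T) (x0 + T),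
        HasDerivAt (w k) (-3 * (A z + B z * existG k (w k z))) z ∧ |w k z| ≤ R := by
    intro T
    obtain ⟨M, hM, hMb⟩ := exist_bound hA hB (x0 - T) (x0 + T)
    refine ⟨M, exp (log (1 + (u0 ^ 3) ^ 2) + 4 * (3 * M) * T), hM,
      fun z hz => hMb z (Ioo_subset_Icc_self hz), ?_⟩
    filter_upwards [tendsto_natCast_atTop_atTop.eventually_ge_atTop T] with k hk
    have hsub : Ioo (x0 - T) (x0 + T) ⊆ Ioo (x0 - k) (x0 + k) :=
      Ioo_subset_Ioo (by linarith) (by linarith)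
    intro z hz
    refine ⟨hw k z (hsub hz), ?_⟩
    rw [← h0 k]
    refine exist_apriori (by positivity) (fun t ht => hw k t (hsub ht)) (fun t ht => ?_) z hz
    have h1 := hMb t (Ioo_subset_Icc_self ht)
    have := exist_rhs h1.1 h1.2 (existG_nonneg k (w k t)) (existG_le k (w k t))
    linarith
  obtain ⟨v, hv0, hv⟩ := exist_limit (F := fun p => -3 * (A p.1 + B p.1 * cb p.2 ^ 2))
    (by have := cb_continuous; fun_prop) (w := w)
    (d := fun k z => -3 * (A z + B z * existG k (w k z))) (x0 := x0) h0 (fun T => by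
      obtain ⟨M, R, hM, hMb, h⟩ := key T
      refine ⟨|R| + 3 * M * (1 + (1 + |R|)), ?_⟩
      filter_upwards [h] with k hk z hz
      have h1 := (hk z hz).2.trans (le_abs_self R)
      have h2 := exist_rhs (hMb z hz).1 (hMb z hz).2 (existG_nonneg k (w k z))
        ((existG_le k (w k z)).trans (by linarith : 1 + |w k z| ≤ 1 + |R|))
      have h3 : 0 ≤ 3 * M * (1 + (1 + |R|)) := by positivity
      exact ⟨(hk z hz).1, by linarith, by linarith [abs_nonneg R]⟩) (fun T ε hε => by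
      obtain ⟨M, R, hM, hMb, h⟩ := key T
      have h1 : Tendsto (fun k : ℕ => 3 * M * cb (1 / ((k : ℝ) + 1))) atTop (𝓝 (3 * M * cb 0)) :=
        ((cb_continuous.tendsto 0).comp tendsto_one_div_add_atTop_nhds_zero_nat).const_mul _
      rw [cb_zero, mul_zero] at h1
      filter_upwards [h, h1.eventually (gt_mem_nhds hε),
        tendsto_natCast_atTop_atTop.eventually_ge_atTop R] with k hk h2 h3 z hz
      have h4 := existG_err k ((hk z hz).2.trans h3)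
      have h5 : -3 * (A z + B z * existG k (w k z)) - -3 * (A z + B z * cb (w k z) ^ 2)
          = -3 * B z * (existG k (w k z) - cb (w k z) ^ 2) := by ring
      show |-3 * (A z + B z * existG k (w k z)) - -3 * (A z + B z * cb (w k z) ^ 2)| ≤ ε
      rw [h5, abs_mul, abs_mul, abs_neg, abs_of_pos (by norm_num : (0 : ℝ) < 3)]
      have h6 := mul_le_mul (hMb z hz).2 h4 (abs_nonneg _) hM
      nlinarith)
  refine ⟨fun x => cb (v x), ⟨cb_continuous.comp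
    (continuous_iff_continuousAt.2 fun x => (hv x).continuousAt), fun x => ?_⟩, ?_⟩
  · simpa only [cb_pow] using hv x
  · simp only [hv0, cb_cube]

end Pool.Agent.MP_c2f0e4_an

end

section

open Set Filter Topology Real Asymptotics

namespace Pool.Agent.MP_c2f0e4_an

/-- the transition map from `a` to `b` along `V` -/
def transitT (A B V : ℝ → ℝ) (a b : ℝ) : Prop :=
  ∃ R : ℝ → ℝ, AnalyticAt ℝ R (V a) ∧ R (V a) = V b ∧ deriv R (V a) ≠ 0 ∧
    ∃ η : ℝ, 0 < η ∧ ∀ U, Sol A B U → (∀ x ∈ Icc a b, |U x - V x| < η) → U b = R (U a)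

variable {A B V : ℝ → ℝ}

lemma transit_trans {a x y : ℝ} (h1 : transitT A B V a x) (h2 : transitT A B V x y) (k1 : a ≤ x)
    (k2 : x ≤ y) : transitT A B V a y := by
  obtain ⟨R, r1, r2, r3, η, r4, r5⟩ := h1
  obtain ⟨S, s1, s2, s3, ε, s4, s5⟩ := h2
  rw [← r2] at s1 s2 s3
  refine ⟨S ∘ R, s1.comp r1, s2, ?_, min η ε, lt_min r4 s4, fun U hU h => ?_⟩
  · rw [deriv_comp _ s1.differentiableAt r1.differentiableAt]
    exact mul_ne_zero s3 r3
  · rw [s5 U hU fun t ht => (h t ⟨k1.trans ht.1, ht.2⟩).trans_le (min_le_right _ _),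
      r5 U hU fun t ht => (h t ⟨ht.1, ht.2.trans k2⟩).trans_le (min_le_left _ _)]
    rfl

lemma transit_slice {H : ℝ × ℝ → ℝ} {x u : ℝ} (h : AnalyticAt ℝ H (x, u))
    (h' : fderiv ℝ H (x, u) (0, 1) ≠ 0) :
    AnalyticAt ℝ (fun v => H (x, v)) u ∧ deriv (fun v => H (x, v)) u ≠ 0 := by
  refine ⟨h.comp (f := fun v : ℝ => (x, v)) (by fun_prop), ?_⟩
  have h1 : HasDerivAt (fun v : ℝ => (x, v)) (0, 1) u :=
    (hasDerivAt_const u x).prodMk (hasDerivAt_id u)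
  have h2 := h.differentiableAt.hasFDerivAt.comp_hasDerivAt u h1
  exact h2.deriv ▸ h'

lemma transit_loc (hLoc : LocStmt) (hA : An A) (hB : An B) (hV : Sol A B V) {c : ℝ}
    (hc : A c = 0 → V c ≠ 0) : ∃ δ, 0 < δ ∧ ∀ x y, x ≤ y → c - δ < x → y < c + δ → V x ≠ 0 →
      V y ≠ 0 → transitT A B V x y := by
  obtain ⟨H, r, hr, h1, -, h3⟩ := hLoc A B hA hB c (V c) hc
  obtain ⟨δ, hδ, h4⟩ := Metric.continuousAt_iff.1 (hV.1.continuousAt (x := c)) (r / 2) (by linarith)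
  refine ⟨min δ r, lt_min hδ hr, fun x y hxy hx hy vx vy => ?_⟩
  have h5 : ∀ t ∈ Icc x y, |t - c| < r ∧ |V t - V c| < r / 2 := fun t ht => by
    have k : |t - c| < min δ r := abs_sub_lt_iff.2 ⟨by linarith [ht.2], by linarith [ht.1]⟩
    exact ⟨k.trans_le (min_le_right _ _), h4 (k.trans_le (min_le_left _ _))⟩
  have kx := h5 x (left_mem_Icc.2 hxy)
  have ky := h5 y (right_mem_Icc.2 hxy)
  obtain ⟨a1, a2⟩ := h1 x (V x) kx.1 (by linarith [kx.2])
  obtain ⟨b1, b2⟩ := h1 y (V y) ky.1 (by linarith [ky.2])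
  obtain ⟨f1, f2⟩ := transit_slice a1 (a2 vx)
  obtain ⟨g1, g2⟩ := transit_slice b1 (b2 vy)
  have e : H (x, V x) = H (y, V y) :=
    h3 V hV x y hxy fun t ht => ⟨(h5 t ht).1, by linarith [(h5 t ht).2]⟩
  have k1 := g1.analyticAt_localInverse g2
  have k2 := (g1.hasStrictDerivAt.to_localInverse g2).hasDerivAt.deriv
  have k3 := g1.hasStrictDerivAt.eventually_left_inverse g2
  generalize g1.hasStrictDerivAt.localInverse _ _ _ g2 = k at k1 k2 k3
  simp only [← e] at k1 k2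
  obtain ⟨ε, hε, k4⟩ := Metric.eventually_nhds_iff.1 k3
  refine ⟨k ∘ fun v => H (x, v), AnalyticAt.comp (f := fun v => H (x, v)) k1 f1, ?_, ?_,
    min ε (r / 2), lt_min hε (by linarith), fun U hU h => ?_⟩
  · simp only [Function.comp, e]
    exact k3.self_of_nhds
  · rw [deriv_comp (h := fun v => H (x, v)) (V x) k1.differentiableAt f1.differentiableAt, k2]
    exact mul_ne_zero (inv_ne_zero g2) f2
  · have := h3 U hU x y hxy fun t ht => ⟨(h5 t ht).1, by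
      have := abs_sub_le (U t) (V t) (V c)
      linarith [(h5 t ht).2, (h t ht).trans_le (min_le_right _ _)]⟩
    simp only [Function.comp, this]
    exact (k4 ((h y (right_mem_Icc.2 hxy)).trans_le (min_le_left _ _))).symm

lemma transit_ne (hV : Sol A B V) {c : ℝ} (hc : A c = 0 → V c ≠ 0) : ∀ᶠ x in 𝓝[<] c, V x ≠ 0 := by
  by_cases h : V c = 0
  · have h1 := (hV.2 c).eventually_ne (c := 0) (by
      rw [h]
      simpa using fun k => hc k h)
    filter_upwards [nhdsLT_le_nhdsNE c h1] with x hx k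
    exact hx (by simp [k])
  · exact nhdsWithin_le_nhds (hV.1.continuousAt.eventually_ne h)

theorem transitS (hLoc : LocStmt) : TransitStmt := by
  intro A B V hA hB hV a b hab hG va vb
  let S : Set ℝ := {c | c ∈ Icc a b ∧ ∀ y ∈ Icc a c, V y ≠ 0 → transitT A B V a y}
  have h0 : a ∈ S := ⟨left_mem_Icc.2 hab, fun y hy _ => by
    obtain rfl : y = a := le_antisymm hy.2 hy.1
    exact ⟨id, analyticAt_id, rfl, by simp, 1, one_pos, fun _ _ _ => rfl⟩⟩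
  have hb : BddAbove S := ⟨b, fun c hc => hc.1.2⟩
  have s1 : a ≤ sSup S := le_csSup hb h0
  have s2 : sSup S ≤ b := csSup_le ⟨a, h0⟩ fun c hc => hc.1.2
  have s3 : ∀ y, a ≤ y → y < sSup S → V y ≠ 0 → transitT A B V a y := fun y k1 k2 k3 => by
    obtain ⟨c, hc, k⟩ := exists_lt_of_lt_csSup ⟨a, h0⟩ k2
    exact hc.2 y ⟨k1, k.le⟩ k3
  obtain ⟨δ, hδ, hl⟩ := transit_loc hLoc hA hB hV (hG _ ⟨s1, s2⟩)
  have s4 : ∀ y, a ≤ y → y < sSup S + δ → V y ≠ 0 → transitT A B V a y := fun y k1 k2 k3 => by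
    rcases lt_or_ge y (sSup S) with k | k
    · exact s3 y k1 k k3
    rcases s1.eq_or_lt with e | e
    · exact hl a y k1 (by linarith) k2 va k3
    obtain ⟨x, x1, x2⟩ := ((transit_ne hV (hG _ ⟨s1, s2⟩)).and
      (Ioo_mem_nhdsLT (max_lt e (sub_lt_self _ hδ)))).exists
    have x3 := max_lt_iff.1 x2.1
    exact transit_trans (s3 x x3.1.le x2.2 x1) (hl x y (x2.2.le.trans k) x3.2 k2 x1 k3) x3.1.le
      (x2.2.le.trans k)
  have s5 : min b (sSup S + δ / 2) ∈ S := ⟨⟨le_min hab (by linarith), min_le_left _ _⟩,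
    fun y hy => s4 y hy.1 (by linarith [hy.2.trans (min_le_right _ _)])⟩
  have s6 := min_le_iff.1 (le_csSup hb s5)
  exact s4 b hab (by rcases s6 with k | k <;> linarith) vb

end Pool.Agent.MP_c2f0e4_an

end

section

open Set Filter Topology Real Asymptotics

namespace Pool.Agent.MP_c2f0e4_an

lemma centre_polar (p : ℝ × ℝ) :
    ∃ ρ t0 : ℝ, 0 ≤ ρ ∧ ρ ≤ 2 * ‖p‖ ∧ p.1 = ρ * cos t0 ∧ p.2 = ρ * sin t0 := by
  refine ⟨‖(⟨p.1, p.2⟩ : ℂ)‖, Complex.arg ⟨p.1, p.2⟩, norm_nonneg _, ?_,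
    (Complex.norm_mul_cos_arg ⟨p.1, p.2⟩).symm, (Complex.norm_mul_sin_arg ⟨p.1, p.2⟩).symm⟩
  have h := Complex.norm_le_abs_re_add_abs_im ⟨p.1, p.2⟩
  have h1 := norm_fst_le p
  have h2 := norm_snd_le p
  rw [Real.norm_eq_abs] at h1 h2
  simp only at h
  linarith

lemma centre_lin {f F : ℝ → ℝ} (hF : Continuous F) (hf : ∀ t, HasDerivAt f (F t * f t) t) (t : ℝ) :
    f t = f 0 * Real.exp (∫ s in (0 : ℝ)..t, F s) := by
  have hI : ∀ t, HasDerivAt (fun t => ∫ s in (0 : ℝ)..t, F s) (F t) t := fun t =>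
    (hF.integral_hasStrictDerivAt 0 t).hasDerivAt
  have hg : ∀ t, HasDerivAt (fun t => f t * Real.exp (-∫ s in (0 : ℝ)..t, F s)) 0 t := fun t =>
    ((hf t).mul (hI t).neg.exp).congr_deriv (by simp only [Pi.neg_apply]; ring)
  have hc := is_const_of_deriv_eq_zero (fun t => (hg t).differentiableAt)
    (fun t => (hg t).deriv) t 0
  simp only [intervalIntegral.integral_same, neg_zero, Real.exp_zero, mul_one] at hc
  rw [← hc, mul_assoc, ← Real.exp_add]; simp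

lemma centre_bd (b1 b2 a1 a2 a3 x u : ℝ) (hu : 1 ≤ u) :
    Lin b1 b2 x + Cub a1 a2 a3 0 x / u ^ 2 ≤ |b1| + |b2| + |a1| + |a2| + |a3| := by
  have hc := abs_cos_le_one x
  have hs := abs_sin_le_one x
  have hc0 := abs_nonneg (cos x)
  have hs0 := abs_nonneg (sin x)
  have key : ∀ a w : ℝ, |w| ≤ 1 → |a * w| ≤ |a| := fun a w hw => by
    rw [abs_mul]; exact mul_le_of_le_one_right (abs_nonneg a) hw
  have h1 := key b1 _ hc
  have h2 := key b2 _ hs
  have h3 := key a1 (cos x ^ 3) (by rw [abs_pow]; exact pow_le_one₀ hc0 hc)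
  have h4 := key a2 (cos x ^ 2 * sin x) (by
    rw [abs_mul, abs_pow]; exact mul_le_one₀ (pow_le_one₀ hc0 hc) hs0 hs)
  have h5 := key a3 (cos x * sin x ^ 2) (by
    rw [abs_mul, abs_pow]; exact mul_le_one₀ hc (by positivity) (pow_le_one₀ hs0 hs))
  have h6 : |Cub a1 a2 a3 0 x| ≤ |a1| + |a2| + |a3| := by
    have e : Cub a1 a2 a3 0 x = a1 * cos x ^ 3 + a2 * (cos x ^ 2 * sin x)
      + a3 * (cos x * sin x ^ 2) := by unfold Cub; ring
    rw [e]
    exact (abs_add_three _ _ _).trans (by linarith)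
  have h7 : Cub a1 a2 a3 0 x / u ^ 2 ≤ |Cub a1 a2 a3 0 x| :=
    (div_le_div_of_nonneg_right (le_abs_self _) (by positivity)).trans
      (div_le_self (abs_nonneg _) (one_le_pow₀ hu))
  have h8 := le_abs_self (b1 * cos x)
  have h9 := le_abs_self (b2 * sin x)
  unfold Lin
  linarith

theorem centreS (hExist : ExistStmt) (hPer : PerStmt) : CentreStmt := by
  intro b1 b2 a1 a2 a3 hC
  have hsys := sys_cub a1 a2 a3 0 b1 b2
  constructor
  · obtain ⟨C, hCe⟩ : ∃ C, C = |b1| + |b2| + |a1| + |a2| + |a3| := ⟨_, rfl⟩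
    have hC0 : 0 ≤ C := by rw [hCe]; positivity
    have hK : 0 < 1 + 3 * π * (C + 1) := by positivity
    refine ⟨1 / (2 * (1 + 3 * π * (C + 1))), by positivity, fun p hp hr => ?_⟩
    obtain ⟨ρ, t0, h0, hρ, e1, e2⟩ := centre_polar p
    have hρ0 : 0 < ρ := h0.lt_of_ne fun h => hp (Prod.ext (by simp [e1, ← h]) (by simp [e2, ← h]))
    have hbig : 1 + 3 * π * (C + 1) < 1 / ρ := by
      rw [lt_div_iff₀ (by positivity)] at hr
      rw [lt_div_iff₀ hρ0]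
      nlinarith
    obtain ⟨U, hU, hU0⟩ := hExist _ _ (Cub.an a1 a2 a3 0).continuous (Lin.an b1 b2).continuous t0
      (1 / ρ)
    have hlow : ∀ x ∈ Icc t0 (t0 + 3 * π), 1 < 1 / ρ - (C + 1) * (x - t0) := fun x hx => by
      nlinarith [hx.1, hx.2]
    have hpos := pos_of_deriv_pos_at_zeros (a := t0) (b := t0 + 3 * π)
      (f := fun x => U x - (1 / ρ - (C + 1) * (x - t0)))
      (hU.1.sub (by fun_prop)).continuousOn (by simp [hU0]) fun x hx h => by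
        have h1 : 1 < U x := by have := hlow x hx; linarith
        have h2 := hU.hasDerivAt (x := x) (by linarith)
        have h3 : HasDerivAt (fun x => 1 / ρ - (C + 1) * (x - t0)) (-(C + 1)) x := by
          simpa using (((hasDerivAt_id x).sub_const t0).const_mul (C + 1)).const_sub (1 / ρ)
        refine ⟨_, h2.sub h3, ?_⟩
        have := centre_bd b1 b2 a1 a2 a3 x (U x) h1.le
        linarith
    have hpos' : ∀ x ∈ Icc t0 (t0 + 3 * π), 0 < U x := fun x hx => by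
      rcases hx.1.eq_or_lt with h | h
      · rw [← h, hU0]; positivity
      · have := hpos x ⟨h, hx.2⟩
        have := hlow x hx
        linarith
    obtain ⟨-, -, hper⟩ := hPer _ _ U hsys hC hU t0 fun x hx _ => (hpos' x hx).ne'
    have hall : ∀ x, 0 < U x := fun x => by
      obtain ⟨y, hy, e⟩ := hper.exists_mem_Ico two_pi_pos x t0
      rw [e]
      exact hpos' y ⟨hy.1, by linarith [hy.2, pi_pos]⟩
    refine ⟨fun t => (cos (t0 + t) / U (t0 + t), sin (t0 + t) / U (t0 + t)), fun t => ?_, ?_,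
      ⟨2 * π, two_pi_pos, fun t => ?_⟩, π, fun h => ?_⟩
    · have hne := (hall (t0 + t)).ne'
      have h1 := (hU.hasDerivAt hne).comp_const_add t0 t
      have h2 := (hasDerivAt_cos (t0 + t)).comp_const_add t0 t
      have h3 := (hasDerivAt_sin (t0 + t)).comp_const_add t0 t
      refine ((h2.div h1 hne).prodMk (h3.div h1 hne)).congr_deriv (Prod.ext ?_ ?_)
      · simp only [fieldP, Lin, Cub]; field_simp; ring
      · simp only [fieldP, Lin, Cub]; field_simp; ring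
    · refine Prod.ext ?_ ?_
      · simp only [add_zero, hU0, e1]; field_simp
      · simp only [add_zero, hU0, e2]; field_simp
    · simp only [← add_assoc, cos_add_two_pi, sin_add_two_pi, hper (t0 + t)]
    · have h1 := congrArg Prod.fst h
      have h2 := congrArg Prod.snd h
      simp only [cos_add_pi, sin_add_pi, e1, e2] at h1 h2
      have h3 := hall (t0 + π)
      rw [div_eq_iff h3.ne'] at h1 h2
      have h4 := sin_sq_add_cos_sq t0
      have h5 : -1 = ρ * U (t0 + π) := by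
        linear_combination cos t0 * h1 + sin t0 * h2 + (1 + ρ * U (t0 + π)) * h4
      nlinarith [mul_pos hρ0 h3]
  · intro γ hγ
    obtain ⟨ρ, t0, h0, -, e1, e2⟩ := centre_polar (γ 0)
    have hcont : Continuous γ := continuous_iff_continuousAt.2 fun t => (hγ t).continuousAt
    obtain ⟨F, hFe⟩ : ∃ F : ℝ → ℝ, F = fun t => b1 * (γ t).1 + b2 * (γ t).2 + a1 * (γ t).1 ^ 3
      + a2 * (γ t).1 ^ 2 * (γ t).2 + a3 * (γ t).1 * (γ t).2 ^ 2 := ⟨_, rfl⟩
    have hF : Continuous F := by rw [hFe]; fun_prop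
    have hx : ∀ t, HasDerivAt (fun t => (γ t).1) (-(γ t).2 + (γ t).1 * F t) t := fun t => by
      rw [hFe]; exact (hγ t).fst
    have hy : ∀ t, HasDerivAt (fun t => (γ t).2) ((γ t).1 + (γ t).2 * F t) t := fun t => by
      rw [hFe]; exact (hγ t).snd
    have hc := fun t => (hasDerivAt_cos (t0 + t)).comp_const_add t0 t
    have hs := fun t => (hasDerivAt_sin (t0 + t)).comp_const_add t0 t
    obtain ⟨f, hfe⟩ : ∃ f : ℝ → ℝ,
      f = fun t => (γ t).1 * cos (t0 + t) + (γ t).2 * sin (t0 + t) := ⟨_, rfl⟩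
    have hf : ∀ t, HasDerivAt f (F t * f t) t := fun t => by
      rw [hfe]
      exact (((hx t).mul (hc t)).add ((hy t).mul (hs t))).congr_deriv (by ring)
    have hg : ∀ t, HasDerivAt (fun t => (γ t).2 * cos (t0 + t) - (γ t).1 * sin (t0 + t))
        (F t * ((γ t).2 * cos (t0 + t) - (γ t).1 * sin (t0 + t))) t := fun t =>
      (((hy t).mul (hc t)).sub ((hx t).mul (hs t))).congr_deriv (by ring)
    have hg0 : ∀ t, (γ t).2 * cos (t0 + t) - (γ t).1 * sin (t0 + t) = 0 := fun t => by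
      have := centre_lin hF hg t
      simp only [add_zero, e1, e2] at this
      rw [this]; ring
    have hf0 : ∀ t, f t = ρ * Real.exp (∫ s in (0 : ℝ)..t, F s) := fun t => by
      rw [centre_lin hF hf t, hfe]
      simp only [add_zero, e1, e2]
      congr 1
      linear_combination ρ * sin_sq_add_cos_sq t0
    have g1 : ∀ t, (γ t).1 = f t * cos (t0 + t) := fun t => by
      rw [hfe]
      linear_combination (-sin (t0 + t)) * hg0 t - (γ t).1 * sin_sq_add_cos_sq (t0 + t)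
    have g2 : ∀ t, (γ t).2 = f t * sin (t0 + t) := fun t => by
      rw [hfe]
      linear_combination cos (t0 + t) * hg0 t - (γ t).2 * sin_sq_add_cos_sq (t0 + t)
    have hfp : Function.Periodic f (2 * π) := by
      rcases h0.eq_or_lt with h | h
      · intro t; rw [hf0, hf0, ← h]; simp
      · have hne : ∀ t, f t ≠ 0 := fun t => by rw [hf0]; positivity
        have hd : ∀ x, HasDerivAt (fun x => (f (x - t0))⁻¹)
            (-(F (x - t0) * f (x - t0)) / f (x - t0) ^ 2) x := fun x =>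
          ((hf (x - t0)).comp_sub_const x t0).inv (hne _)
        have hsol : Sol (Cub a1 a2 a3 0) (Lin b1 b2) fun x => (f (x - t0))⁻¹ := by
          refine ⟨continuous_iff_continuousAt.2 fun x => (hd x).continuousAt, fun x => ?_⟩
          refine ((hd x).pow 3).congr_deriv ?_
          have := hne (x - t0)
          rw [hFe]
          simp only [g1 (x - t0), g2 (x - t0), add_sub_cancel, Cub, Lin, Nat.add_one_sub_one,
            Nat.cast_ofNat]
          field_simp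
          ring
        obtain ⟨-, -, hper⟩ := hPer _ _ _ hsys hC hsol 0 fun x _ _ => inv_ne_zero (hne _)
        intro t
        have := hper (t + t0)
        simp only [add_sub_cancel_right, add_right_comm t t0] at this
        exact inv_injective this
    intro t
    refine Prod.ext ?_ ?_
    · rw [g1, g1, hfp, ← add_assoc, cos_add_two_pi]
    · rw [g2, g2, hfp, ← add_assoc, sin_add_two_pi]

end Pool.Agent.MP_c2f0e4_an

end

section

open Set Filter Topology Real Asymptotics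

namespace Pool.Agent.MP_c2f0e4_an

/-- uniqueness for global solutions of a `C^1` field -/
lemma glob_unique {V : Type} [NormedAddCommGroup V] [NormedSpace ℝ V] {X : V → V}
    (hX : ContDiff ℝ 1 X) {α β : ℝ → V} (hα : ∀ t, HasDerivAt α (X (α t)) t)
    (hβ : ∀ t, HasDerivAt β (X (β t)) t) (h0 : α 0 = β 0) : α = β := by
  funext t
  have hαc : ContinuousOn α (Icc (-(|t| + 1)) (|t| + 1)) := fun s _ =>
    (hα s).continuousAt.continuousWithinAt
  have hβc : ContinuousOn β (Icc (-(|t| + 1)) (|t| + 1)) := fun s _ =>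
    (hβ s).continuousAt.continuousWithinAt
  have hK : IsCompact (α '' Icc (-(|t| + 1)) (|t| + 1) ∪ β '' Icc (-(|t| + 1)) (|t| + 1)) :=
    (isCompact_Icc.image_of_continuousOn hαc).union (isCompact_Icc.image_of_continuousOn hβc)
  obtain ⟨K, hK'⟩ := (hX.locallyLipschitz.locallyLipschitzOn).exists_lipschitzOnWith_of_compact hK
  have h1 : (0 : ℝ) ∈ Ioo (-(|t| + 1)) (|t| + 1) :=
    ⟨by have := abs_nonneg t; linarith, by have := abs_nonneg t; linarith⟩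
  have h2 : t ∈ Icc (-(|t| + 1)) (|t| + 1) :=
    ⟨by have := neg_abs_le t; linarith, by have := le_abs_self t; linarith⟩
  exact ODE_solution_unique_of_mem_Icc (v := fun _ => X)
    (s := fun _ => α '' Icc (-(|t| + 1)) (|t| + 1) ∪ β '' Icc (-(|t| + 1)) (|t| + 1)) (K := K)
    (fun _ _ => hK') h1 hαc (fun s _ => hα s)
    (fun s hs => Or.inl ⟨s, Ioo_subset_Icc_self hs, rfl⟩) hβc (fun s _ => hβ s)
    (fun s hs => Or.inr ⟨s, Ioo_subset_Icc_self hs, rfl⟩) h0 h2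

lemma glob_contDiff (b1 b2 a1 a2 a3 : ℝ) : ContDiff ℝ 1 (fieldS b1 b2 a1 a2 a3) := by
  unfold fieldS polyG
  fun_prop

/-- a convergent function whose derivative converges has limit derivative zero -/
lemma glob_deriv_lim {f f' : ℝ → ℝ} {L M : ℝ} (hf : ∀ t, HasDerivAt f (f' t) t)
    (h1 : Tendsto f atTop (𝓝 L)) (h2 : Tendsto f' atTop (𝓝 M)) : M = 0 := by
  have h3 : ∀ t : ℝ, ∃ c ∈ Ioo t (t + 1), f' c = (f (t + 1) - f t) / (t + 1 - t) := fun t =>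
    exists_hasDerivAt_eq_slope f f' (by linarith)
      (fun s _ => (hf s).continuousAt.continuousWithinAt) (fun s _ => hf s)
  choose c hc hc' using h3
  have h4 : Tendsto c atTop atTop := tendsto_atTop_mono (fun t => (hc t).1.le) tendsto_id
  have h5 : Tendsto (fun t => f (t + 1) - f t) atTop (𝓝 (L - L)) :=
    (h1.comp (tendsto_atTop_add_const_right _ 1 tendsto_id)).sub h1
  have h6 : (fun t => f (t + 1) - f t) = f' ∘ c := funext fun t => by
    simp only [Function.comp, hc', add_sub_cancel_left, div_one]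
  rw [h6, sub_self] at h5
  exact tendsto_nhds_unique (h2.comp h4) h5

lemma glob_core {φ z z' : ℝ → ℝ} {C : ℝ} (hφ : ∀ t, HasDerivAt φ (z t ^ 2) t)
    (hz : ∀ t, HasDerivAt z (z' t) t) (hC : ∀ t, |z' t| ≤ C) (h1 : ∀ t, |z t| ≤ 1)
    (hb : BddAbove (range φ)) :
    ∃ p, Tendsto φ atTop (𝓝 p) ∧ Tendsto z atTop (𝓝 0) := by
  have hC0 : 0 ≤ C := (abs_nonneg _).trans (hC 0)
  have hm : Monotone φ := monotone_of_deriv_nonneg (fun t => (hφ t).differentiableAt)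
    fun t => by rw [(hφ t).deriv]; positivity
  have hp := tendsto_atTop_ciSup hm hb
  have hw : ∀ t, HasDerivAt (fun t => z t ^ 3 + 3 * C * φ t)
      (3 * z t ^ 2 * (z' t + C)) t := fun t => by
    refine HasDerivAt.congr_deriv (f' := _) (((hz t).pow 3).add ((hφ t).const_mul (3 * C))) ?_
    push_cast; ring
  have hwm : Monotone fun t => z t ^ 3 + 3 * C * φ t :=
    monotone_of_deriv_nonneg (fun t => (hw t).differentiableAt) fun t => by
      rw [(hw t).deriv]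
      have := (abs_le.1 (hC t)).1
      exact mul_nonneg (by positivity) (by linarith)
  obtain ⟨M, hM⟩ := hb
  have hwb : BddAbove (range fun t => z t ^ 3 + 3 * C * φ t) := by
    refine ⟨1 + 3 * C * M, ?_⟩
    rintro _ ⟨t, rfl⟩
    have h2 : φ t ≤ M := hM ⟨t, rfl⟩
    have h3 : z t ^ 3 ≤ 1 := by
      have := cube_le.2 (abs_le.1 (h1 t)).2
      simpa using this
    have := mul_le_mul_of_nonneg_left h2 (by positivity : 0 ≤ 3 * C)
    simp only
    linarith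
  have hq := tendsto_atTop_ciSup hwm hwb
  have h3 := hq.sub (hp.const_mul (3 * C))
  simp only [add_sub_cancel_right] at h3
  have h4 := (cb_continuous.tendsto _).comp h3
  have h5 : (cb ∘ fun t => z t ^ 3) = z := funext fun t => cb_cube _
  rw [h5] at h4
  have h6 := glob_deriv_lim hφ hp (h4.pow 2)
  rw [pow_eq_zero_iff (by norm_num)] at h6
  rw [h6] at h4
  exact ⟨_, hp, h4⟩

lemma glob_polyG_bd (b1 b2 a1 a2 a3 : ℝ) {w : ℝ × ℝ × ℝ} (hx : |w.1| ≤ 1) (hy : |w.2.1| ≤ 1)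
    (hz : |w.2.2| ≤ 1) :
    |polyG b1 b2 a1 a2 a3 w| ≤ |b1| + |b2| + |a1| + |a2| + |a3| := by
  have key : ∀ c p q r : ℝ, |p| ≤ 1 → |q| ≤ 1 → |r| ≤ 1 → |c * p * q * r| ≤ |c| := by
    intro c p q r hp hq hr
    rw [abs_mul, abs_mul, abs_mul]
    have h1 := mul_le_of_le_one_right (abs_nonneg c) hp
    have h2 := mul_le_of_le_one_right (mul_nonneg (abs_nonneg c) (abs_nonneg p)) hq
    have h3 := mul_le_of_le_one_right
      (mul_nonneg (mul_nonneg (abs_nonneg c) (abs_nonneg p)) (abs_nonneg q)) hr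
    linarith
  have h1 := abs_le.1 (key b1 _ _ _ hx hz hz)
  have h2 := abs_le.1 (key b2 _ _ _ hy hz hz)
  have h3 := abs_le.1 (key a1 _ _ _ hx hx hx)
  have h4 := abs_le.1 (key a2 _ _ _ hx hx hy)
  have h5 := abs_le.1 (key a3 _ _ _ hx hy hy)
  have h6 : polyG b1 b2 a1 a2 a3 w = b1 * w.1 * w.2.2 * w.2.2 + b2 * w.2.1 * w.2.2 * w.2.2
      + a1 * w.1 * w.1 * w.1 + a2 * w.1 * w.1 * w.2.1 + a3 * w.1 * w.2.1 * w.2.1 := by
    unfold polyG; ring
  rw [h6, abs_le]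
  constructor <;> linarith [h1.1, h1.2, h2.1, h2.2, h3.1, h3.2, h4.1, h4.2, h5.1, h5.2]

lemma glob_sq (u : ℝ) : (u / √(1 + u ^ 2)) ^ 2 = u ^ 2 / (1 + u ^ 2) := by
  rw [div_pow, sq_sqrt (by positivity)]

lemma glob_inv (u : ℝ) : √(1 - (u / √(1 + u ^ 2)) ^ 2) = 1 / √(1 + u ^ 2) := by
  have h : (0 : ℝ) < 1 + u ^ 2 := by positivity
  rw [glob_sq, show 1 - u ^ 2 / (1 + u ^ 2) = 1 / (1 + u ^ 2) by field_simp; ring,
    sqrt_div zero_le_one, sqrt_one]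

lemma glob_Pt (θ u : ℝ) : Pt θ u = (cos θ * √(1 - (Pt θ u).2.2 ^ 2),
    sin θ * √(1 - (Pt θ u).2.2 ^ 2), (Pt θ u).2.2) := by
  simp only [Pt, glob_inv, mul_one_div]

lemma glob_Pt_z (θ u : ℝ) : |(Pt θ u).2.2| ≤ 1 := by
  have h : (0 : ℝ) < 1 + u ^ 2 := by positivity
  rw [← sq_le_one_iff_abs_le_one]
  simp only [Pt, glob_sq]
  rw [div_le_one h]; linarith

/-- an orbit with bounded longitude tends to an equilibrium on the equator -/
lemma glob_end (b1 b2 a1 a2 a3 s : ℝ) (hs : |s| = 1) {g : ℝ → ℝ × ℝ × ℝ} {φ : ℝ → ℝ}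
    (hg : ∀ t, HasDerivAt (fun t => (g t).2.2)
      (s * (((g t).2.2 ^ 2 - 1) * polyG b1 b2 a1 a2 a3 (g t))) t)
    (hφ : ∀ t, HasDerivAt φ ((g t).2.2 ^ 2) t) (hb : BddAbove (range φ))
    (hz : ∀ t, |(g t).2.2| ≤ 1)
    (hpt : ∀ t, g t = (cos (s * φ t) * √(1 - (g t).2.2 ^ 2),
      sin (s * φ t) * √(1 - (g t).2.2 ^ 2), (g t).2.2)) :
    ∃ e, Tendsto g atTop (𝓝 e) ∧ e.2.2 = 0 ∧ fieldS b1 b2 a1 a2 a3 e = 0 := by
  have hr : ∀ t, |√(1 - (g t).2.2 ^ 2)| ≤ 1 := fun t => by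
    rw [abs_of_nonneg (sqrt_nonneg _)]
    exact sqrt_le_one.2 (by nlinarith [sq_nonneg (g t).2.2])
  have hC : ∀ t, |s * (((g t).2.2 ^ 2 - 1) * polyG b1 b2 a1 a2 a3 (g t))|
      ≤ |b1| + |b2| + |a1| + |a2| + |a3| := fun t => by
    have hx : |(g t).1| ≤ 1 := by
      rw [hpt t, abs_mul]
      exact mul_le_one₀ (abs_cos_le_one _) (abs_nonneg _) (hr t)
    have hy : |(g t).2.1| ≤ 1 := by
      rw [hpt t, abs_mul]
      exact mul_le_one₀ (abs_sin_le_one _) (abs_nonneg _) (hr t)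
    have h1 : |(g t).2.2 ^ 2 - 1| ≤ 1 := by
      have := (sq_le_one_iff_abs_le_one _).2 (hz t)
      rw [abs_le]
      constructor <;> nlinarith [sq_nonneg (g t).2.2]
    rw [abs_mul, hs, one_mul, abs_mul]
    exact (mul_le_of_le_one_left (abs_nonneg _) h1).trans (glob_polyG_bd _ _ _ _ _ hx hy (hz t))
  obtain ⟨p, hp, h0⟩ := glob_core hφ hg hC hz hb
  have hc : Continuous fun w : ℝ × ℝ =>
      ((cos (s * w.1) * √(1 - w.2 ^ 2), sin (s * w.1) * √(1 - w.2 ^ 2), w.2) : ℝ × ℝ × ℝ) := by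
    fun_prop
  have h1 := (hc.tendsto (p, 0)).comp (hp.prodMk_nhds h0)
  have h2 : Tendsto g atTop (𝓝 (cos (s * p) * √(1 - 0 ^ 2), sin (s * p) * √(1 - 0 ^ 2), 0)) :=
    h1.congr fun t => (hpt t).symm
  refine ⟨_, h2, rfl, ?_⟩
  have hc2 : Continuous fun w : ℝ × ℝ × ℝ =>
      s * ((w.2.2 ^ 2 - 1) * polyG b1 b2 a1 a2 a3 w) := by
    unfold polyG; fun_prop
  have h3 := glob_deriv_lim hg h0 ((hc2.tendsto _).comp h2)
  have hs0 : s ≠ 0 := fun h => by rw [h] at hs; simp at hs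
  have h4 := (mul_eq_zero.1 h3).resolve_left hs0
  simp only [fieldS, h4, zero_mul, Prod.mk_zero_zero]

lemma glob_polar {w : ℝ × ℝ × ℝ} (hw : w ∈ sph) (h : ¬ (w.1 = 0 ∧ w.2.1 = 0)) :
    ∃ θ u, w = Pt θ u := by
  obtain ⟨x, y, z⟩ := w
  change x ^ 2 + y ^ 2 + z ^ 2 = 1 at hw
  simp only at h
  have h1 := Complex.norm_mul_cos_arg ⟨x, y⟩
  have h2 := Complex.norm_mul_sin_arg ⟨x, y⟩
  have h3 : ‖(⟨x, y⟩ : ℂ)‖ ^ 2 = x ^ 2 + y ^ 2 := by
    rw [Complex.sq_norm, Complex.normSq_mk]; ring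
  have h4 : 0 < ‖(⟨x, y⟩ : ℂ)‖ := by
    refine norm_pos_iff.2 fun h0 => h ?_
    exact ⟨congrArg Complex.re h0, congrArg Complex.im h0⟩
  generalize ‖(⟨x, y⟩ : ℂ)‖ = r at h1 h2 h3 h4
  have h5 : √(1 + (z / r) ^ 2) = 1 / r := by
    rw [show 1 + (z / r) ^ 2 = (1 / r) ^ 2 by field_simp; linarith, sqrt_sq (by positivity)]
  generalize Complex.arg ⟨x, y⟩ = θ at h1 h2
  refine ⟨θ, z / r, ?_⟩
  simp only [Pt, h5] at h1 h2 ⊢
  refine Prod.ext ?_ (Prod.ext ?_ ?_)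
  · simp only; rw [← h1]; field_simp
  · simp only; rw [← h2]; field_simp
  · simp only; field_simp

theorem globS (hSphCore : SphCoreStmt) (hRatio : RatioStmt) (hPer : PerStmt) : GlobStmt := by
  intro b1 b2 a1 a2 a3 hcon γ hγ h0
  have hX := glob_contDiff b1 b2 a1 a2 a3
  by_cases hpole : (γ 0).1 = 0 ∧ (γ 0).2.1 = 0
  · have h1 : (γ 0).2.2 ^ 2 - 1 = 0 := by
      have : (γ 0).1 ^ 2 + (γ 0).2.1 ^ 2 + (γ 0).2.2 ^ 2 = 1 := h0
      rw [hpole.1, hpole.2] at this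
      linarith
    have h2 : fieldS b1 b2 a1 a2 a3 (γ 0) = 0 := by
      simp only [fieldS, hpole.1, hpole.2, h1, zero_mul, neg_zero, add_zero, mul_zero,
        Prod.mk_zero_zero]
    have h3 : γ = fun _ => γ 0 :=
      glob_unique hX hγ (fun t => by rw [h2]; exact hasDerivAt_const t _) rfl
    exact Or.inl ⟨1, one_pos, fun t => by rw [h3]⟩
  obtain ⟨θ0, u0, hw⟩ := glob_polar h0 hpole
  by_cases heq : Cub a1 a2 a3 0 θ0 = 0 ∧ u0 = 0
  · refine Or.inr ⟨γ 0, subset_closure ⟨0, rfl⟩, by rw [hw, heq.2]; simp [Pt], ?_⟩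
    have h1 : polyG b1 b2 a1 a2 a3 (cos θ0, sin θ0, 0) = 0 := by
      have := heq.1
      simp only [polyG, Cub] at this ⊢
      linear_combination this
    have h2 : γ 0 = (cos θ0, sin θ0, 0) := by rw [hw, heq.2]; simp [Pt]
    rw [h2]
    simp only [fieldS, h1, zero_mul, mul_zero, Prod.mk_zero_zero]
  obtain ⟨θ, u, hθ0, hu0, hmono, hpt, hgood, hθ, hu⟩ :=
    hSphCore b1 b2 a1 a2 a3 γ θ0 u0 hγ hw fun h1 h2 => heq ⟨h1, h2⟩
  have hz : ∀ t, HasDerivAt (fun t => (γ t).2.2)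
      (((γ t).2.2 ^ 2 - 1) * polyG b1 b2 a1 a2 a3 (γ t)) t := fun t => (hγ t).snd.snd
  have hθ' : ∀ t, HasDerivAt θ ((γ t).2.2 ^ 2) t := fun t => by
    rw [hpt t]; simp only [Pt, glob_sq]; exact hθ t
  have hz1 : ∀ t, |(γ t).2.2| ≤ 1 := fun t => by rw [hpt t]; exact glob_Pt_z _ _
  have hpt' : ∀ t, γ t = (cos (θ t) * √(1 - (γ t).2.2 ^ 2), sin (θ t) * √(1 - (γ t).2.2 ^ 2),
      (γ t).2.2) := fun t => by rw [hpt t]; exact glob_Pt _ _
  by_cases hab : BddAbove (range θ)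
  · obtain ⟨e, he, he1, he2⟩ := glob_end b1 b2 a1 a2 a3 1 abs_one (g := γ) (φ := θ)
      (fun t => by rw [one_mul]; exact hz t) hθ' hab hz1
      (fun t => by rw [one_mul]; exact hpt' t)
    exact Or.inr ⟨e, mem_closure_of_tendsto he (Eventually.of_forall fun t => ⟨t, rfl⟩), he1, he2⟩
  by_cases hbe : BddBelow (range θ)
  · obtain ⟨e, he, he1, he2⟩ := glob_end b1 b2 a1 a2 a3 (-1) (by simp) (g := fun t => γ (-t))
      (φ := fun t => -θ (-t))
      (fun t => ((hz (-t)).comp t (hasDerivAt_neg t)).congr_deriv (by ring))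
      (fun t => ((hθ' (-t)).comp t (hasDerivAt_neg t)).neg.congr_deriv (by ring))
      (by
        obtain ⟨M, hM⟩ := hbe
        refine ⟨-M, ?_⟩
        rintro _ ⟨t, rfl⟩
        exact neg_le_neg (hM ⟨-t, rfl⟩))
      (fun t => hz1 _)
      (fun t => by rw [neg_mul_neg, one_mul]; exact hpt' _)
    exact Or.inr ⟨e, mem_closure_of_tendsto he (Eventually.of_forall fun t => ⟨-t, rfl⟩), he1, he2⟩
  have hsurj : Function.Surjective θ := fun y => by
    have hc : Continuous θ := continuous_iff_continuousAt.2 fun t => (hθ t).continuousAt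
    obtain ⟨_, ⟨t1, rfl⟩, h1⟩ := not_bddAbove_iff.1 hab y
    obtain ⟨_, ⟨t2, rfl⟩, h2⟩ := not_bddBelow_iff.1 hbe y
    exact mem_range_of_exists_le_of_exists_ge hc ⟨t2, h2.le⟩ ⟨t1, h1.le⟩
  obtain ⟨U, hU, hUu⟩ := hRatio _ _ θ u (Cub.an a1 a2 a3 0).continuous (Lin.an b1 b2).continuous
    hmono hsurj hθ hu
  have hGP := hPer _ _ U (sys_cub a1 a2 a3 0 b1 b2) hcon hU 0 fun x _ hx => by
    obtain ⟨t, rfl⟩ := hsurj x
    rw [hUu]; exact hgood t hx
  obtain ⟨T, hT⟩ := hsurj (θ 0 + 2 * π)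
  have hT0 : 0 < T := hmono.lt_iff_lt.1 (by rw [hT]; linarith [pi_pos])
  have hγT : γ T = γ 0 := by
    rw [hpt T, hpt 0, ← hUu T, ← hUu 0, hT, hGP.2.2]
    simp only [Pt, cos_add_two_pi, sin_add_two_pi]
  have h1 : (fun t => γ (t + T)) = γ :=
    glob_unique hX (fun t => (hγ (t + T)).comp_add_const t T) hγ (by rw [zero_add, hγT])
  exact Or.inl ⟨T, hT0, fun t => congrFun h1 t⟩

end Pool.Agent.MP_c2f0e4_an

end

section

open Set Filter Topology Real Asymptotics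

namespace Pool.Agent.MP_c2f0e4_an

theorem asycomp_bdd {u : ℕ → ℝ} {a : ℝ} (hu : Tendsto u atTop (𝓝 a)) :
    u =O[atTop] fun _ => (1 : ℝ) := hu.isBigO_one ℝ

theorem asycomp_pow {z : ℕ → ℝ} (hz : Tendsto z atTop (𝓝 0)) {a b : ℕ} (h : a ≤ b) :
    (fun n => z n ^ b) =O[atTop] fun n => z n ^ a := by
  obtain ⟨c, rfl⟩ := Nat.exists_eq_add_of_le h
  have := (isBigO_refl (fun n => z n ^ a) atTop).mul (asycomp_bdd (hz.pow c))
  simpa [pow_add] using this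

theorem asycomp_lip {H : ℝ → ℝ} {a : ℝ} (hH : AnalyticAt ℝ H a) {x y : ℕ → ℝ}
    (hx : Tendsto x atTop (𝓝 a)) (hy : Tendsto y atTop (𝓝 a)) :
    (fun n => H (x n) - H (y n)) =O[atTop] fun n => x n - y n :=
  hH.hasStrictFDerivAt.isBigO_sub.comp_tendsto (hx.prodMk_nhds hy)

theorem asycomp_taylor {F : ℝ → ℝ} (hF : AnalyticAt ℝ F 0) {z : ℕ → ℝ}
    (hz : Tendsto z atTop (𝓝 0)) : ∃ c : ℕ → ℝ, c 0 = F 0 ∧
      (fun n => F (z n) - ∑ i ∈ Finset.range 7, c i * z n ^ i) =O[atTop] fun n => z n ^ 7 := by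
  obtain ⟨G, hG, h⟩ := hF.exists_eq_sum_add_pow_mul 7
  refine ⟨fun i => iteratedDeriv i F 0 / i.factorial, by simp, ?_⟩
  have h1 := (isBigO_refl (fun n => z n ^ 7) atTop).mul
    (asycomp_bdd (hG.continuousAt.tendsto.comp hz))
  refine (h1.congr_left fun n => ?_).congr_right fun n => mul_one _
  rw [h (z n), Finset.sum_congr rfl fun i _ => (by
    rw [smul_eq_mul]; ring : (z n ^ i / (i.factorial : ℝ)) • iteratedDeriv i F 0 =
      iteratedDeriv i F 0 / i.factorial * z n ^ i)]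
  simp

theorem asycomp_core (z L u : ℕ → ℝ) (l1 : ℝ) (e e' : ℕ → ℝ) (hz : Tendsto z atTop (𝓝 0))
    (hL : (fun n => z n * L n) =O[atTop] fun _ => (1 : ℝ))
    (hr : (fun n => u n - (1 + z n * ∑ i ∈ Finset.range 7, e i * z n ^ i)) =O[atTop]
      fun n => z n ^ 6) :
    Tendsto u atTop (𝓝 1) ∧
    (∃ c : ℕ → ℝ, c 0 = e' 0 ∧
      (fun n => ∑ i ∈ Finset.range 7, e' i * (z n * l1⁻¹ * (u n)⁻¹) ^ i
        - ∑ i ∈ Finset.range 7, c i * z n ^ i) =O[atTop] fun n => z n ^ 7) ∧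
    ((fun n => (z n * (u n)⁻¹) ^ 6 * (L n + Real.log l1 + Real.log (u n))
      - (z n ^ 6 * L n * (1 - 6 * e 0 * z n) + z n ^ 6 * Real.log l1)) =O[atTop]
        fun n => z n ^ 7) ∧
    ((fun n => (z n * (u n)⁻¹) ^ 7 * (L n + Real.log l1 + Real.log (u n))
      - z n ^ 7 * L n) =O[atTop] fun n => z n ^ 7) := by
  set E : ℝ → ℝ := fun t => ∑ i ∈ Finset.range 7, e i * t ^ i with hE
  set E' : ℝ → ℝ := fun t => ∑ i ∈ Finset.range 7, e' i * t ^ i with hE'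
  have hEa : AnalyticAt ℝ E 0 := Finset.analyticAt_fun_sum _ fun i _ => by fun_prop
  have hEa' : AnalyticAt ℝ E' 0 := Finset.analyticAt_fun_sum _ fun i _ => by fun_prop
  have hE0 : E 0 = e 0 := by simp [hE, Finset.sum_range_succ]
  have hE0' : E' 0 = e' 0 := by simp [hE', Finset.sum_range_succ]
  have hva : AnalyticAt ℝ (fun t => 1 + t * E t) 0 := by fun_prop
  have hv : Tendsto (fun n => 1 + z n * E (z n)) atTop (𝓝 1) := by
    simpa [Function.comp_def] using hva.continuousAt.tendsto.comp hz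
  have hr0 : Tendsto (fun n => u n - (1 + z n * E (z n))) atTop (𝓝 0) :=
    hr.trans_tendsto (by simpa using hz.pow 6)
  have hu : Tendsto u atTop (𝓝 1) := by simpa using hr0.add hv
  have hui : Tendsto (fun n => (u n)⁻¹) atTop (𝓝 1) := by simpa using hu.inv₀ one_ne_zero
  have h1 : (fun n => u n - 1 - e 0 * z n) =O[atTop] fun n => z n ^ 2 := by
    have h2 := (isBigO_refl z atTop).mul (asycomp_lip hEa hz tendsto_const_nhds)
    have h3 := (hr.trans (asycomp_pow hz (by norm_num : 2 ≤ 6))).add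
      (h2.congr_right fun n => (by ring : z n * (z n - 0) = z n ^ 2))
    refine h3.congr_left fun n => ?_
    rw [hE0]
    ring
  have h2 : (fun n => u n - 1) =O[atTop] z := by
    have h3 := (h1.trans (asycomp_pow hz (by norm_num : 1 ≤ 2))).congr_right fun n => pow_one _
    have h4 := h3.add ((isBigO_refl z atTop).const_mul_left (e 0))
    exact h4.congr_left fun n => by ring
  refine ⟨hu, ?_, ?_, ?_⟩
  · have hfa : AnalyticAt ℝ (fun t => t * l1⁻¹ * (1 + t * E t)⁻¹) 0 :=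
      (analyticAt_id.mul analyticAt_const).mul (hva.inv (by simp))
    have hF : AnalyticAt ℝ (fun t => E' (t * l1⁻¹ * (1 + t * E t)⁻¹)) 0 :=
      AnalyticAt.comp_of_eq (g := E') hEa' hfa (by simp)
    obtain ⟨c, hc0, hc⟩ := asycomp_taylor hF hz
    refine ⟨c, by simpa [hE0'] using hc0, ?_⟩
    have hw : Tendsto (fun n => z n * l1⁻¹ * (u n)⁻¹) atTop (𝓝 0) := by
      simpa using (hz.mul_const l1⁻¹).mul hui
    have hf : Tendsto (fun n => z n * l1⁻¹ * (1 + z n * E (z n))⁻¹) atTop (𝓝 0) := by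
      simpa [Function.comp_def] using hfa.continuousAt.tendsto.comp hz
    have h3 := asycomp_lip hEa' hw hf
    have h4 := (asycomp_lip (H := fun t => t⁻¹) (analyticAt_inv (by norm_num)) hu hv).trans hr
    have h5 := (((isBigO_refl z atTop).mul h4).const_mul_left l1⁻¹).congr_right
      fun n => (by ring : z n * z n ^ 6 = z n ^ 7)
    have h6 := (h3.trans (h5.congr_left fun n => by ring)).add hc
    exact h6.congr_left fun n => by ring
  · have hq : Tendsto (fun n => (6 * u n ^ 5 + 5 * u n ^ 4 + 4 * u n ^ 3 + 3 * u n ^ 2 + 2 * u n + 1)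
        * (u n)⁻¹ ^ 6) atTop (𝓝 _) :=
      (((((((hu.pow 5).const_mul 6).add ((hu.pow 4).const_mul 5)).add
        ((hu.pow 3).const_mul 4)).add ((hu.pow 2).const_mul 3)).add (hu.const_mul 2)).add_const
          1).mul (hui.pow 6)
    have h3 : (fun n => (u n)⁻¹ ^ 6 - 1 + 6 * (u n - 1)) =O[atTop] fun n => z n ^ 2 := by
      refine (((h2.pow 2).mul (asycomp_bdd hq)).congr_right fun n => mul_one _).congr' ?_
        EventuallyEq.rfl
      filter_upwards [hu.eventually_ne one_ne_zero] with n hn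
      field_simp
      ring
    have h4 : (fun n => (u n)⁻¹ ^ 6 - (1 - 6 * e 0 * z n)) =O[atTop] fun n => z n ^ 2 :=
      (h3.sub (h1.const_mul_left 6)).congr_left fun n => by ring
    have h5 := (((isBigO_refl (fun n => z n ^ 5) atTop).mul hL).mul h4).congr_right
      fun n => (by ring : z n ^ 5 * 1 * z n ^ 2 = z n ^ 7)
    have ha : AnalyticAt ℝ (fun t : ℝ => t⁻¹ ^ 6 * (Real.log l1 + Real.log t)) 1 :=
      ((analyticAt_inv (by norm_num)).pow 6).mul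
        (analyticAt_const.add (analyticAt_log (by norm_num)))
    have h6 := ((isBigO_refl (fun n => z n ^ 6) atTop).mul
      ((asycomp_lip ha hu tendsto_const_nhds).trans h2)).congr_right
        fun n => (by ring : z n ^ 6 * z n = z n ^ 7)
    refine (h5.add h6).congr_left fun n => ?_
    simp only [Real.log_one, inv_one]
    ring
  · have ha : AnalyticAt ℝ (fun t : ℝ => t⁻¹ ^ 7) 1 := (analyticAt_inv (by norm_num)).pow 7
    have h5 := (((isBigO_refl (fun n => z n ^ 6) atTop).mul hL).mul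
      ((asycomp_lip ha hu tendsto_const_nhds).trans h2)).congr_right
        fun n => (by ring : z n ^ 6 * 1 * z n = z n ^ 7)
    have hq := (hui.pow 7).mul ((hu.log one_ne_zero).const_add (Real.log l1))
    have h6 := ((isBigO_refl (fun n => z n ^ 7) atTop).mul (asycomp_bdd hq)).congr_right
      fun n => mul_one _
    refine (h5.add h6).congr_left fun n => ?_
    simp only [inv_one]
    ring

theorem asyCompS : AsyCompStmt := by
  rintro Ta Tb Tc l1 m1 k7 k8 l2 m2 j7 j8 hT hl ⟨e, rfl, A1⟩ ⟨e', rfl, A2⟩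
  have hz : Tendsto (fun n => (Ta n)⁻¹) atTop (𝓝 0) := hT.inv_tendsto_atTop
  have hpos : ∀ᶠ n in atTop, 0 < Ta n := hT.eventually_gt_atTop 0
  have hL : (fun n => (Ta n)⁻¹ * Real.log (Ta n)) =O[atTop] fun _ => (1 : ℝ) := by
    have h := (Real.isLittleO_log_id_atTop.tendsto_div_nhds_zero).comp hT
    exact (asycomp_bdd h).congr_left fun n => by simp [div_eq_inv_mul]
  unfold AsyP at A1 A2
  have hr : (fun n => Tb n * (Ta n)⁻¹ * l1⁻¹ -
      (1 + (Ta n)⁻¹ * ∑ i ∈ Finset.range 7, e i * (Ta n)⁻¹ ^ i)) =O[atTop]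
      fun n => (Ta n)⁻¹ ^ 6 := by
    have h1 := ((((isBigO_refl (fun n => (Ta n)⁻¹) atTop).mul A1).const_mul_left l1⁻¹).congr_right
      fun n => (by ring : (Ta n)⁻¹ * (Ta n)⁻¹ ^ 7 = (Ta n)⁻¹ ^ 8)).trans
        (asycomp_pow hz (by norm_num : 6 ≤ 8))
    have h2 := (((isBigO_refl (fun n => (Ta n)⁻¹ ^ 6) atTop).mul hL).mul
      (asycomp_bdd ((hz.const_mul k8).const_add k7))).congr_right
        fun n => (by ring : (Ta n)⁻¹ ^ 6 * 1 * 1 = (Ta n)⁻¹ ^ 6)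
    refine (h1.add h2).congr' ?_ EventuallyEq.rfl
    filter_upwards [hpos] with n hn
    generalize (∑ i ∈ Finset.range 7, e i * (Ta n)⁻¹ ^ i) = S
    field_simp
    ring
  obtain ⟨hu, ⟨c, hc0, A3⟩, A4, A5⟩ := asycomp_core (fun n => (Ta n)⁻¹) (fun n => Real.log (Ta n))
    (fun n => Tb n * (Ta n)⁻¹ * l1⁻¹) l1 e e' hz hL hr
  have hui : Tendsto (fun n => (Tb n * (Ta n)⁻¹ * l1⁻¹)⁻¹) atTop (𝓝 1) := by
    simpa only [inv_one] using hu.inv₀ one_ne_zero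
  have hw : ∀ᶠ n in atTop, (Ta n)⁻¹ * l1⁻¹ * (Tb n * (Ta n)⁻¹ * l1⁻¹)⁻¹ = (Tb n)⁻¹ := by
    filter_upwards [hpos] with n hn
    field_simp
  have hlog : ∀ᶠ n in atTop, Real.log (Ta n) + Real.log l1 + Real.log (Tb n * (Ta n)⁻¹ * l1⁻¹) =
      Real.log (Tb n) := by
    filter_upwards [hpos, hu.eventually_ne one_ne_zero] with n hn hn'
    rw [← Real.log_mul hn.ne' hl.ne', ← Real.log_mul (by positivity) hn']
    congr 1
    field_simp
  have hw7 : (fun n => (Tb n)⁻¹ ^ 7) =O[atTop] fun n => (Ta n)⁻¹ ^ 7 := by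
    have h1 : (fun n => (Tb n)⁻¹) =O[atTop] fun n => (Ta n)⁻¹ := by
      have h2 := (((isBigO_refl (fun n => (Ta n)⁻¹) atTop).mul
        (asycomp_bdd hui)).const_mul_left l1⁻¹).congr_right fun n => mul_one _
      refine h2.congr' ?_ EventuallyEq.rfl
      filter_upwards [hw] with n hn
      rw [← hn]
      ring
    exact h1.pow 7
  refine ⟨fun i => e i + c i / l1 + if i = 6 then j7 * Real.log l1 / l1 ^ 7 else 0,
    by simp [hc0], ?_⟩
  have h := ((((A2.trans hw7).add (A1.const_mul_left l2)).add (A3.const_mul_left l2)).add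
    (A4.const_mul_left (l2 * j7 * l1⁻¹ ^ 6))).add (A5.const_mul_left (l2 * j8 * l1⁻¹ ^ 7))
  refine h.congr' ?_ EventuallyEq.rfl
  filter_upwards [hw, hlog] with n h1 h2
  have h3 : (Ta n)⁻¹ * (Tb n * (Ta n)⁻¹ * l1⁻¹)⁻¹ = l1 * (Tb n)⁻¹ := by
    rw [← h1]
    generalize (Tb n * (Ta n)⁻¹ * l1⁻¹)⁻¹ = y
    field_simp
  rw [h1, h2, h3]
  generalize (∑ i ∈ Finset.range 7, e' i * (Tb n)⁻¹ ^ i) = S
  generalize (Tb n)⁻¹ = w
  generalize (Ta n)⁻¹ = z
  simp only [Finset.sum_range_succ, Finset.sum_range_zero]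
  norm_num
  field_simp
  ring

end Pool.Agent.MP_c2f0e4_an

end

section

open Set Filter Topology Real Asymptotics

namespace Pool.Agent.MP_c2f0e4_an

lemma asyid_peel {ι : Type*} {l : Filter ι} [l.NeBot] (g : ℕ → ι → ℝ) (c : ℕ → ℝ) (m : ℕ)
    (ho : ∀ j < m, g (j + 1) =o[l] g j) (hne : ∀ j < m, ∀ᶠ n in l, g j n ≠ 0)
    (h : (fun n => ∑ j ∈ Finset.range m, c j * g j n) =O[l] g m) : ∀ j < m, c j = 0 := by
  induction m with
  | zero => exact fun j hj => absurd hj (Nat.not_lt_zero j)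
  | succ m ih =>
    have h1 := h.trans_isLittleO (ho m m.lt_succ_self)
    simp only [Finset.sum_range_succ] at h1
    have h2 := ih (fun j hj => ho j (hj.trans m.lt_succ_self))
      (fun j hj => hne j (hj.trans m.lt_succ_self))
      ((h1.isBigO.sub ((isBigO_refl (g m) l).const_mul_left (c m))).congr_left fun n =>
        add_sub_cancel_right _ _)
    intro j hj
    rcases Nat.lt_succ_iff_lt_or_eq.1 hj with hj | rfl
    · exact h2 j hj
    by_contra hc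
    refine isLittleO_irrefl (hne j hj).frequently ((isLittleO_const_mul_left_iff hc).1
      (h1.congr_left fun n => ?_))
    rw [Finset.sum_eq_zero fun i hi => by rw [h2 i (Finset.mem_range.1 hi), zero_mul], zero_add]

/-- The asymptotic scale. -/
noncomputable def asyidG : ℕ → ℝ → ℝ
  | 0 => fun t => t
  | 7 => fun t => t⁻¹ ^ 6 * Real.log t
  | 8 => fun t => t⁻¹ ^ 6
  | 9 => fun t => t⁻¹ ^ 7 * Real.log t
  | 10 => fun t => t⁻¹ ^ 7
  | j + 1 => fun t => t⁻¹ ^ j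

lemma asyid_o (j : ℕ) (hj : j < 10) : asyidG (j + 1) =o[atTop] asyidG j := by
  have a : ∀ {f g u : ℝ → ℝ}, Tendsto u atTop (𝓝 0) → (∀ t, 1 < t → f t = u t * g t) →
      f =o[atTop] g := fun hu h =>
    isLittleO_iff_exists_eq_mul.2 ⟨_, hu, (eventually_gt_atTop 1).mono h⟩
  have u1 : Tendsto (fun t : ℝ => t⁻¹) atTop (𝓝 0) := tendsto_inv_atTop_zero
  have u2 : Tendsto (fun t : ℝ => Real.log t / t) atTop (𝓝 0) :=
    Real.isLittleO_log_id_atTop.tendsto_div_nhds_zero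
  have u3 : Tendsto (fun t : ℝ => (Real.log t)⁻¹) atTop (𝓝 0) :=
    tendsto_inv_atTop_zero.comp Real.tendsto_log_atTop
  have b : ∀ t : ℝ, 1 < t → ∀ x, x = (Real.log t)⁻¹ * (x * Real.log t) := fun t ht x => by
    have := (Real.log_pos ht).ne'
    field_simp
  interval_cases j
  · exact a u1 fun t ht => by simp only [asyidG]; rw [pow_zero, inv_mul_cancel₀ (by linarith)]
  iterate 5 exact a u1 fun t _ => by simp only [asyidG]; ring
  · exact a u2 fun t _ => by simp only [asyidG]; ring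
  · exact a u3 fun t ht => b t ht _
  · exact a u2 fun t _ => by simp only [asyidG]; ring
  · exact a u3 fun t ht => b t ht _

lemma asyid_ne (j : ℕ) (hj : j < 10) : ∀ᶠ t in atTop, asyidG j t ≠ 0 := by
  filter_upwards [eventually_gt_atTop 1] with t ht
  have h1 := Real.log_pos ht
  have h2 : 0 < t := zero_lt_one.trans ht
  interval_cases j <;> simp only [asyidG] <;> positivity

theorem asyIdS : AsyIdStmt := by
  intro T lam e k7 k8 hT h
  have key := asyid_peel (l := atTop) (fun j n => asyidG j (T n))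
    (fun j => match j with
      | 0 => 1 - lam
      | 7 => -(lam * k7)
      | 8 => -(lam * e 6)
      | 9 => -(lam * k8)
      | j + 1 => -(lam * e j)) 10
    (fun j hj => (asyid_o j hj).comp_tendsto hT) (fun j hj => hT.eventually (asyid_ne j hj))
    (IsBigO.congr_left h fun n => by
      simp only [Finset.sum_range_succ, Finset.sum_range_zero, asyidG]
      ring)
  obtain rfl : lam = 1 := (sub_eq_zero.1 (key 0 (by norm_num))).symm
  refine ⟨rfl, fun i hi => ?_, by simpa using key 7 (by norm_num),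
    by simpa using key 9 (by norm_num)⟩
  interval_cases i
  · simpa using key 1 (by norm_num)
  · simpa using key 2 (by norm_num)
  · simpa using key 3 (by norm_num)
  · simpa using key 4 (by norm_num)
  · simpa using key 5 (by norm_num)
  · simpa using key 6 (by norm_num)
  · simpa using key 8 (by norm_num)

theorem asyBTrS : AsyBTrStmt := by
  intro Ta Tb l1 l2 c e hT hl h1 he h2
  have hz : Tendsto (fun n => (Ta n)⁻¹) atTop (𝓝 0) := tendsto_inv_atTop_zero.comp hT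
  have hp : ∀ k : ℕ, (fun n => (Ta n)⁻¹ ^ (k + 1)) =O[atTop] fun n => (Ta n)⁻¹ := fun k => by
    simpa only [pow_succ, one_mul] using
      ((hz.pow k).isBigO_one ℝ).mul (isBigO_refl (fun n => (Ta n)⁻¹) atTop)
  have h3 : (fun n => Tb n - l1 * Ta n) =O[atTop] fun n => (Ta n)⁻¹ := by
    refine ((h1.trans (hp 6)).add ((IsBigO.fun_sum (s := Finset.range 6) fun i _ =>
      (hp i).const_mul_left (e (i + 1))).const_mul_left l1)).congr_left fun n => ?_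
    rw [Finset.sum_range_succ' _ 6, he]
    ring
  have h4 : Tendsto Tb atTop atTop :=
    ((hT.const_mul_atTop hl).atTop_add (h3.trans_tendsto hz)).congr fun n => by ring
  have h5 : (fun n => (Ta n)⁻¹ * (Tb n - l1 * Ta n)) =O[atTop] fun n => (Ta n)⁻¹ ^ 2 := by
    simpa only [pow_two] using (isBigO_refl (fun n => (Ta n)⁻¹) atTop).mul h3
  have h6 : (fun n => (Tb n)⁻¹) =O[atTop] fun n => (Ta n)⁻¹ := by
    have e1 := ((h5.trans_tendsto (by simpa using hz.pow 2)).add_const l1).inv₀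
      (by simpa using hl.ne')
    refine ((e1.isBigO_one ℝ).mul (isBigO_refl (fun n => (Ta n)⁻¹) atTop)).congr' ?_
      (Eventually.of_forall fun n => one_mul _)
    filter_upwards [hT.eventually_gt_atTop 0, h4.eventually_gt_atTop 0] with n ha hb
    rw [show (Ta n)⁻¹ * (Tb n - l1 * Ta n) + l1 = (Ta n)⁻¹ * Tb n by field_simp; ring]
    field_simp
  have h7 : (fun n => (Tb n)⁻¹ - l1⁻¹ * (Ta n)⁻¹) =O[atTop] fun n => (Ta n)⁻¹ ^ 3 := by
    refine ((h5.mul h6).const_mul_left (-l1⁻¹)).congr' ?_ (Eventually.of_forall fun n => by ring)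
    filter_upwards [hT.eventually_gt_atTop 0, h4.eventually_gt_atTop 0] with n ha hb
    field_simp
    ring
  have h8 : (fun n => ∑ i ∈ Finset.range 5, (Tb n)⁻¹ ^ i * (l1⁻¹ * (Ta n)⁻¹) ^ (5 - 1 - i))
      =O[atTop] fun n => (Ta n)⁻¹ ^ 4 := by
    refine IsBigO.fun_sum fun i hi => ((h6.pow i).mul (((isBigO_refl (fun n => (Ta n)⁻¹)
      atTop).const_mul_left l1⁻¹).pow (5 - 1 - i))).congr_right fun n => ?_
    rw [← pow_add, show i + (5 - 1 - i) = 4 by have := Finset.mem_range.1 hi; omega]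
  have h9 : (fun n => (Tb n)⁻¹ ^ 5 - (l1⁻¹ * (Ta n)⁻¹) ^ 5) =O[atTop] fun n => (Ta n)⁻¹ ^ 7 :=
    (h8.mul h7).congr (fun n => geom_sum₂_mul _ _ 5) fun n => by ring
  have h10 := (asyIdS Ta (l1 * l2) (fun i => e i + if i = 5 then c * l1⁻¹ ^ 6 else 0) 0 0 hT
    ((((h2.trans (h6.pow 7)).add (IsBigO.const_mul_left h1 l2)).add
      (h9.const_mul_left (l2 * c))).congr_left fun n => ?_)).2.1 6 (by norm_num)
  · simpa using h10
  · obtain ⟨k, hk⟩ : ∃ k, k = l1⁻¹ := ⟨_, rfl⟩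
    have hk' : l1 * k = 1 := by rw [hk, mul_inv_cancel₀ hl.ne']
    simp only [Finset.sum_range_succ, Finset.sum_range_zero, ← hk]
    generalize (Ta n)⁻¹ = z
    generalize (Tb n)⁻¹ = w
    norm_num
    linear_combination l2 * c * k ^ 5 * z ^ 5 * hk'

theorem asyScaleS : AsyScaleStmt := by
  intro Ya Yb μ ν lam e k7 k8 hT hμ hν h
  have h1 : (fun n => (μ * Ya n)⁻¹ ^ 7) =O[atTop] fun n => (Ya n)⁻¹ ^ 7 :=
    ((isBigO_refl (fun n => (Ya n)⁻¹ ^ 7) atTop).const_mul_left (μ⁻¹ ^ 7)).congr_left fun n => by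
      rw [mul_inv, mul_pow]
  refine (((IsBigO.trans h h1).const_mul_left ν⁻¹).add ((isBigO_refl (fun n => (Ya n)⁻¹ ^ 7)
    atTop).const_mul_left (lam / ν * k8 * Real.log μ / μ ^ 7))).congr' ?_ EventuallyEq.rfl
  filter_upwards [hT.eventually_gt_atTop 0] with n hn
  rw [Real.log_mul hμ.ne' hn.ne']
  obtain ⟨z, hz⟩ : ∃ z, z = (Ya n)⁻¹ := ⟨_, rfl⟩
  simp only [Finset.sum_range_succ, Finset.sum_range_zero, mul_inv, ← hz]
  norm_num
  field_simp
  ring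

end Pool.Agent.MP_c2f0e4_an

end

section

open Set Filter Topology Real Asymptotics

namespace Pool.Agent.MP_c2f0e4_an

theorem pbd_phi (i : ℕ) {τ t : ℝ} (hτ : τ ≠ 0) (ht : 0 < t) :
    phi i (τ * t) * t⁻¹ ^ i = phi i τ * t⁻¹ ^ 5 + if i = 5 then t⁻¹ ^ 5 * Real.log t else 0 := by
  unfold phi
  split_ifs with h
  · subst h
    rw [abs_mul, abs_of_pos ht, Real.log_mul (abs_pos.2 hτ).ne' ht.ne']
    ring
  · rw [mul_pow, mul_pow, inv_pow, inv_pow]
    have := ht.ne'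
    field_simp
    ring

theorem pbd_side (f : ℕ → ℝ → ℝ) (c : ℕ → ℝ) (C τ : ℝ) (hτ : τ ≠ 0) (T : ℕ → ℝ)
    (hT : Tendsto T atTop atTop) (h : ∀ i ≤ 6, ∀ t, 0 < t → 1 ≤ |τ| * t →
      |f i (τ * t) - c i * phi i (τ * t)| * |τ * t| ^ 7 ≤ C * |τ * t| ^ i) :
    (fun n => ∑ i ∈ Finset.range 7, f i (τ * T n) * (T n)⁻¹ ^ i
      - (∑ i ∈ Finset.range 7, c i * phi i τ) * (T n)⁻¹ ^ 5
      - c 5 * (T n)⁻¹ ^ 5 * Real.log (T n)) =O[atTop] fun n => (T n)⁻¹ ^ 7 := by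
  have ha : 0 < |τ| := abs_pos.2 hτ
  have e0 : ∀ᶠ n in atTop, 0 < T n := hT.eventually_gt_atTop 0
  have e1 : ∀ᶠ n in atTop, 1 ≤ |τ| * T n := (hT.const_mul_atTop ha).eventually_ge_atTop 1
  have h1 : ∀ i ∈ Finset.range 7,
      (fun n => (f i (τ * T n) - c i * phi i (τ * T n)) * (T n)⁻¹ ^ i) =O[atTop]
        fun n => (T n)⁻¹ ^ 7 := by
    intro i hi
    refine IsBigO.of_bound (C * |τ| ^ i / |τ| ^ 7) ?_
    filter_upwards [e0, e1] with n a0 a1
    have a2 := h i (Nat.lt_succ_iff.1 (Finset.mem_range.1 hi)) (T n) a0 a1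
    rw [abs_mul, abs_of_pos a0, ← le_div_iff₀ (by positivity)] at a2
    rw [norm_mul, Real.norm_eq_abs, Real.norm_of_nonneg (by positivity),
      Real.norm_of_nonneg (by positivity)]
    refine (mul_le_mul_of_nonneg_right a2 (by positivity)).trans (le_of_eq ?_)
    rw [mul_pow, mul_pow, inv_pow, inv_pow]
    field_simp
  refine (IsBigO.sum h1).congr' ?_ EventuallyEq.rfl
  filter_upwards [e0] with n a0
  simp only [Finset.sum_apply, sub_mul, mul_assoc, pbd_phi _ hτ a0]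
  simp only [Finset.sum_range_succ, Finset.sum_range_zero]
  norm_num
  ring

theorem pBdS : PBdStmt := by
  intro χ ci q P p c e C a b Λa Λb k Ta Tb hP ha hb hk hab hTa h
  have hTb : Tendsto Tb atTop atTop := tendsto_atTop_mono hab (hTa.const_mul_atTop hk)
  have h0 : (fun n => (Tb n)⁻¹ ^ 7) =O[atTop] fun n => (Ta n)⁻¹ ^ 7 := by
    refine IsBigO.of_bound (k⁻¹ ^ 7) ?_
    filter_upwards [hTa.eventually_gt_atTop 0, hTb.eventually_gt_atTop 0] with n a0 b0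
    rw [Real.norm_of_nonneg (by positivity), Real.norm_of_nonneg (by positivity), ← mul_pow,
      ← mul_inv]
    exact pow_le_pow_left₀ (by positivity) (inv_anti₀ (by positivity) (hab n)) 7
  have h1 := (pbd_side P c C b hb.ne' Tb hTb fun i hi t ht h1 => by
    rw [abs_of_pos hb] at h1
    rw [abs_of_pos (mul_pos hb ht)]
    exact hP.pos i hi _ h1).trans h0
  have h2 := pbd_side (fun i ρ => P i ρ + e i) c C a ha.ne Ta hTa fun i hi t ht h1 => by
    rw [abs_of_neg ha] at h1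
    exact hP.neg i hi _ (by linarith)
  refine ⟨∑ i ∈ Finset.range 7, c i * phi i a + Λa, ∑ i ∈ Finset.range 7, c i * phi i b + Λb,
    ((h.add h1).sub h2).congr_left fun n => ?_⟩
  simp only [PInt, add_mul, Finset.sum_add_distrib]
  ring

theorem passS (hPData : PDataStmt) (hPEst : PEstStmt) (hPInv : PInvStmt) : PassStmt := by
  intro χ ci q R a b T hχ hH
  obtain ⟨P, p, c, e, C, hP⟩ := hPData χ ci q hχ
  obtain ⟨Λa, Λb, k, hk, hab, h⟩ := hPEst χ ci q P p c e C R a b T hχ hP hH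
  obtain ⟨ca, cb, h1⟩ := pBdS χ ci q P p c e C a b Λa Λb k _ _ hP hH.ha hH.hb hk hab hH.lim h
  obtain ⟨e', a1, a2, a3⟩ := hPInv _ _ e ca cb (c 5) hH.lim
    (tendsto_atTop_mono hab (hH.lim.const_mul_atTop hk)) hP.e1 h1
  refine ⟨e', ?_, a2.trans hP.e0, fun q0 q1 q2 => ?_⟩
  · rw [a2, ← hP.c5]; exact a1
  · rw [a3 (by rw [hP.e0, q0, zero_mul]), hP.e6 q0 q1 q2]

end Pool.Agent.MP_c2f0e4_an

end

section

open Set Filter Topology Real Asymptotics

namespace Pool.Agent.MP_c2f0e4_an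

/-- order of magnitude `z ^ k` -/
def pinvO (z : ℕ → ℝ) (k : ℕ) (f : ℕ → ℝ) : Prop := f =O[atTop] fun n => z n ^ k

theorem pinv_bdd {z u : ℕ → ℝ} {a : ℝ} (hu : Tendsto u atTop (𝓝 a)) : pinvO z 0 u := by
  unfold pinvO
  simpa using hu.isBigO_one ℝ

theorem pinv_const (z : ℕ → ℝ) (a : ℝ) : pinvO z 0 fun _ => a := pinv_bdd tendsto_const_nhds

theorem pinv_pow (z : ℕ → ℝ) (k : ℕ) : pinvO z k fun n => z n ^ k := isBigO_refl _ _

theorem pinv_mul {z f g : ℕ → ℝ} {k l : ℕ} (hf : pinvO z k f) (hg : pinvO z l g) :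
    pinvO z (k + l) fun n => f n * g n := by
  unfold pinvO at *
  simpa [pow_add] using hf.mul hg

theorem pinv_cmul {z f : ℕ → ℝ} {k : ℕ} (c : ℝ) (hf : pinvO z k f) :
    pinvO z k fun n => c * f n := hf.const_mul_left c

theorem pinv_add {z f g : ℕ → ℝ} {k : ℕ} (hf : pinvO z k f) (hg : pinvO z k g) :
    pinvO z k fun n => f n + g n := hf.add hg

theorem pinv_mono {z f : ℕ → ℝ} (hz : Tendsto z atTop (𝓝 0)) {k : ℕ} (l : ℕ) (h : l ≤ k)
    (hf : pinvO z k f) : pinvO z l f := by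
  obtain ⟨c, rfl⟩ := Nat.exists_eq_add_of_le h
  have h1 := pinv_mul (pinv_pow z l) (pinv_bdd (z := z) (hz.pow c))
  unfold pinvO at *
  refine hf.trans ?_
  simpa [pow_add] using h1

theorem pinv_congr {z f g : ℕ → ℝ} {k : ℕ} (hf : pinvO z k f) (h : ∀ᶠ n in atTop, f n = g n) :
    pinvO z k g := hf.congr' h EventuallyEq.rfl

theorem pinv_log {T : ℕ → ℝ} (hT : Tendsto T atTop atTop) :
    Tendsto (fun n => (T n)⁻¹ * Real.log (T n)) atTop (𝓝 0) := by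
  have h := (Real.isLittleO_log_id_atTop.tendsto_div_nhds_zero).comp hT
  refine h.congr fun n => ?_
  simp [div_eq_inv_mul]

theorem pinv_log_one {x : ℕ → ℝ} (hx : Tendsto x atTop (𝓝 0)) :
    (fun n => Real.log (1 + x n) - x n) =O[atTop] fun n => x n ^ 2 := by
  refine IsBigO.of_bound 2 ?_
  filter_upwards [hx.eventually (Ioo_mem_nhds (show (-1 / 2 : ℝ) < 0 by norm_num)
    (show (0 : ℝ) < 1 / 2 by norm_num))] with n hn
  obtain ⟨h1, h2⟩ := hn
  have hp : 0 < 1 + x n := by linarith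
  have a1 := Real.log_le_sub_one_of_pos hp
  have a2 := Real.one_sub_inv_le_log_of_pos hp
  have a3 : (1 + x n)⁻¹ ≤ 1 - x n + 2 * x n ^ 2 := by
    rw [inv_eq_one_div, div_le_iff₀ hp]
    nlinarith [sq_nonneg (x n), mul_nonneg (sq_nonneg (x n)) (show 0 ≤ 1 + 2 * x n by linarith)]
  rw [Real.norm_eq_abs, Real.norm_eq_abs, abs_of_nonneg (sq_nonneg (x n)), abs_le]
  constructor <;> nlinarith [sq_nonneg (x n)]

theorem pInvS : PInvStmt := by
  intro Ta Tb e ca cb κ hTa hTb he1 H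
  obtain ⟨z, hzd⟩ : ∃ z : ℕ → ℝ, z = fun n => (Ta n)⁻¹ := ⟨_, rfl⟩
  obtain ⟨w, hwd⟩ : ∃ w : ℕ → ℝ, w = fun n => (Tb n)⁻¹ := ⟨_, rfl⟩
  obtain ⟨L, hLd⟩ : ∃ L : ℕ → ℝ, L = fun n => Real.log (Ta n) := ⟨_, rfl⟩
  obtain ⟨N, hNd⟩ : ∃ N : ℕ → ℝ, N = fun n => Real.log (Tb n) := ⟨_, rfl⟩
  obtain ⟨D, hDd⟩ : ∃ D : ℕ → ℝ, D = fun n => Tb n - Ta n := ⟨_, rfl⟩
  obtain ⟨R, hRd⟩ : ∃ R : ℕ → ℝ, R = fun n => D n - cb * w n ^ 5 - κ * w n ^ 5 * N n -
    (e 0 + e 2 * z n ^ 2 + e 3 * z n ^ 3 + e 4 * z n ^ 4 + e 5 * z n ^ 5 + e 6 * z n ^ 6) +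
      ca * z n ^ 5 + κ * z n ^ 5 * L n := ⟨_, rfl⟩
  have hz : Tendsto z atTop (𝓝 0) := by rw [hzd]; exact hTa.inv_tendsto_atTop
  have hw : Tendsto w atTop (𝓝 0) := by rw [hwd]; exact hTb.inv_tendsto_atTop
  have hzL : Tendsto (fun n => z n * L n) atTop (𝓝 0) := by
    rw [hzd, hLd]; exact pinv_log hTa
  have hwN : Tendsto (fun n => w n * N n) atTop (𝓝 0) := by
    rw [hwd, hNd]; exact pinv_log hTb
  have hR : pinvO z 7 R := by
    unfold pinvO
    rw [hzd]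
    refine H.congr_left fun n => ?_
    simp only [hRd, hDd, hwd, hzd, hLd, hNd, Finset.sum_range_succ, Finset.range_zero,
      Finset.sum_empty, he1]
    ring
  have hR0 : Tendsto R atTop (𝓝 0) := by
    have h7 : Tendsto (fun n => z n ^ 7) atTop (𝓝 0) := by simpa using hz.pow 7
    exact hR.trans_tendsto h7
  have hDe : ∀ n, D n - e 0 = R n + cb * w n ^ 5 + κ * (w n ^ 4 * (w n * N n)) +
      z n ^ 2 * (e 2 + e 3 * z n + e 4 * z n ^ 2 + (e 5 - ca) * z n ^ 3 + e 6 * z n ^ 4 -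
        κ * z n ^ 2 * (z n * L n)) := by
    intro n
    simp only [hRd]
    ring
  have hP : Tendsto (fun n => e 2 + e 3 * z n + e 4 * z n ^ 2 + (e 5 - ca) * z n ^ 3 +
      e 6 * z n ^ 4 - κ * z n ^ 2 * (z n * L n)) atTop
      (𝓝 (e 2 + e 3 * 0 + e 4 * 0 ^ 2 + (e 5 - ca) * 0 ^ 3 + e 6 * 0 ^ 4 - κ * 0 ^ 2 * 0)) :=
    (((((tendsto_const_nhds.add (hz.const_mul _)).add ((hz.pow 2).const_mul _)).add
      ((hz.pow 3).const_mul _)).add ((hz.pow 4).const_mul _))).sub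
      (((hz.pow 2).const_mul _).mul hzL)
  have hD : Tendsto D atTop (𝓝 (e 0)) := by
    have h1 := ((hR0.add ((hw.pow 5).const_mul cb)).add
      (((hw.pow 4).mul hwN).const_mul κ)).add ((hz.pow 2).mul hP)
    have h2 : Tendsto (fun n => D n - e 0) atTop (𝓝 0) := by
      simp only [hDe]
      convert h1 using 2
      simp
    simpa using h2.add_const (e 0)
  obtain ⟨x, hxd⟩ : ∃ x : ℕ → ℝ, x = fun n => D n * z n := ⟨_, rfl⟩
  obtain ⟨v, hvd⟩ : ∃ v : ℕ → ℝ, v = fun n => (1 + x n)⁻¹ := ⟨_, rfl⟩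
  have hx : Tendsto x atTop (𝓝 0) := by rw [hxd]; simpa using hD.mul hz
  have hv : Tendsto v atTop (𝓝 1) := by
    rw [hvd]
    simpa using (hx.const_add 1).inv₀ (by norm_num)
  have hev : ∀ᶠ n in atTop, w n = z n * v n ∧ N n = L n + Real.log (1 + x n) ∧
      v n * (1 + x n) = 1 := by
    filter_upwards [hTa.eventually_gt_atTop 0, hTb.eventually_gt_atTop 0] with n h1 h2
    have h3 : 1 + x n = Tb n / Ta n := by
      simp only [hxd, hDd, hzd]
      field_simp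
      ring
    refine ⟨?_, ?_, ?_⟩
    · simp only [hvd, h3, hwd, hzd]
      field_simp
    · simp only [h3, hNd, hLd]
      rw [Real.log_div h2.ne' h1.ne']
      ring
    · simp only [hvd]
      exact inv_mul_cancel₀ (by rw [h3]; positivity)
  have z1 : pinvO z 1 z := by simpa using pinv_pow z 1
  have w1 : pinvO z 1 w :=
    pinv_congr (pinv_mul z1 (pinv_bdd hv)) (hev.mono fun n h => h.1.symm)
  have w4 : pinvO z 4 fun n => w n ^ 4 := by
    unfold pinvO at *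
    simpa using w1.pow 4
  have D2 : pinvO z 2 fun n => D n - e 0 := by
    simp only [hDe]
    refine pinv_add (pinv_add (pinv_add (pinv_mono hz 2 (by norm_num) hR) (pinv_cmul _ ?_))
      (pinv_cmul _ ?_)) (pinv_mul (pinv_pow z 2) (pinv_bdd hP))
    · exact pinv_mono hz 2 (by norm_num)
        (pinv_congr (pinv_mul w4 w1) (Eventually.of_forall fun n => by ring))
    · exact pinv_mono hz 2 (by norm_num) (pinv_mul w4 (pinv_bdd hwN))
  have x1 : pinvO z 1 x := by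
    rw [hxd]
    exact pinv_mul (pinv_bdd hD) z1
  have x3 : pinvO z 3 fun n => x n - e 0 * z n :=
    pinv_congr (pinv_mul D2 z1) (Eventually.of_forall fun n => by simp only [hxd]; ring)
  have hQ : Tendsto (fun n => -((35 + 105 * x n + 126 * x n ^ 2 + 70 * x n ^ 3 + 15 * x n ^ 4) *
      v n ^ 5)) atTop (𝓝 (-((35 + 105 * 0 + 126 * 0 ^ 2 + 70 * 0 ^ 3 + 15 * 0 ^ 4) * 1 ^ 5))) :=
    (((((tendsto_const_nhds.add (hx.const_mul _)).add ((hx.pow 2).const_mul _)).add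
      ((hx.pow 3).const_mul _)).add ((hx.pow 4).const_mul _)).mul (hv.pow 5)).neg
  have V3 : pinvO z 3 fun n => v n ^ 5 - (1 - 5 * x n + 15 * x n ^ 2) := by
    refine pinv_congr (pinv_mul (pinv_mul (pinv_mul x1 x1) x1) (pinv_bdd hQ))
      (hev.mono fun n h => ?_)
    have h5 : v n ^ 5 * (1 + x n) ^ 5 = 1 := by rw [← mul_pow, h.2.2, one_pow]
    linear_combination (-(1 - 5 * x n + 15 * x n ^ 2)) * h5
  have A3 : pinvO z 3 fun n => v n ^ 5 - 1 + 5 * e 0 * z n - 15 * e 0 ^ 2 * z n ^ 2 := by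
    have h1 := pinv_mono hz 3 (by norm_num)
      (pinv_cmul 15 (pinv_mul x3 (pinv_add x1 (pinv_cmul (e 0) z1))))
    exact pinv_congr (pinv_add (pinv_add V3 (pinv_cmul (-5) x3)) h1)
      (Eventually.of_forall fun n => by ring)
  have A2 : pinvO z 2 fun n => v n ^ 5 - 1 + 5 * e 0 * z n :=
    pinv_congr (pinv_add (pinv_mono hz 2 (by norm_num) A3) (pinv_cmul (15 * e 0 ^ 2) (pinv_pow z 2)))
      (Eventually.of_forall fun n => by ring)
  have A1 : pinvO z 1 fun n => v n ^ 5 - 1 :=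
    pinv_congr (pinv_add (pinv_mono hz 1 (by norm_num) A2) (pinv_cmul (-5 * e 0) z1))
      (Eventually.of_forall fun n => by ring)
  have l2 : pinvO z 2 fun n => Real.log (1 + x n) - x n := by
    have h1 : pinvO z 2 fun n => x n ^ 2 :=
      pinv_congr (pinv_mul x1 x1) (Eventually.of_forall fun n => by ring)
    exact (pinv_log_one hx).trans h1
  have l1 : pinvO z 1 fun n => Real.log (1 + x n) :=
    pinv_congr (pinv_add (pinv_mono hz 1 (by norm_num) l2) x1)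
      (Eventually.of_forall fun n => by ring)
  have B2 : pinvO z 2 fun n => v n ^ 5 * Real.log (1 + x n) - e 0 * z n :=
    pinv_congr (pinv_add (pinv_add (pinv_mul A1 l1) l2) (pinv_mono hz 2 (by norm_num) x3))
      (Eventually.of_forall fun n => by ring)
  refine ⟨fun i => if i = 5 then e 5 - ca + cb else if i = 6 then e 6 + κ * e 0 - 5 * cb * e 0
    else e i, ?_, by simp, fun h => by simp [h]⟩
  have t1 := pinv_cmul cb (pinv_mul (pinv_pow z 5) A2)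
  have t2 := pinv_cmul κ (pinv_mul (pinv_mul (pinv_pow z 4) (pinv_bdd (z := z) hzL)) A3)
  have t3 := pinv_cmul κ (pinv_mul (pinv_pow z 5) B2)
  have tot : pinvO z 7 fun n => D n - (e 0 + e 2 * z n ^ 2 + e 3 * z n ^ 3 + e 4 * z n ^ 4 +
      (e 5 - ca + cb) * z n ^ 5 + (e 6 + κ * e 0 - 5 * cb * e 0) * z n ^ 6 +
      -5 * κ * e 0 * z n ^ 6 * L n + 15 * κ * e 0 ^ 2 * z n ^ 7 * L n) := by
    refine pinv_congr (pinv_add (pinv_add (pinv_add hR t1) t2) t3) (hev.mono fun n h => ?_)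
    simp only [hRd, h.1, h.2.1]
    ring
  unfold AsyP
  unfold pinvO at tot
  rw [hzd] at tot
  refine tot.congr_left fun n => ?_
  simp only [hDd, hLd, Finset.sum_range_succ, Finset.range_zero, Finset.sum_empty]
  norm_num [he1]
  ring

end Pool.Agent.MP_c2f0e4_an

end

section

open Set Filter Topology Real Asymptotics

namespace Pool.Agent.MP_c2f0e4_an

lemma boot_int {f f' : ℝ → ℝ} {n : ℕ} (hf : ∀ x, HasDerivAt f (f' x) x) (h0 : f 0 = 0)
    (h : f' =O[𝓝 0] fun t : ℝ => t ^ n) : f =O[𝓝 0] fun t : ℝ => t ^ (n + 1) := by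
  obtain ⟨c, hc, h⟩ := h.exists_pos
  obtain ⟨δ, hδ, h⟩ := Metric.eventually_nhds_iff.1 h.bound
  refine IsBigO.of_bound c ?_
  filter_upwards [Metric.ball_mem_nhds 0 hδ] with x hx
  have := (convex_closedBall (0 : ℝ) ‖x‖).norm_image_sub_le_of_norm_hasDerivWithin_le
    (C := c * ‖x‖ ^ n) (fun y _ => (hf y).hasDerivWithinAt) (fun y hy => by
      rw [mem_closedBall_zero_iff] at hy
      refine (h (y := y) ?_).trans ?_
      · rw [dist_zero_right]; exact hy.trans_lt (mem_ball_zero_iff.1 hx)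
      · rw [norm_pow]; gcongr)
    (Metric.mem_closedBall_self (norm_nonneg x)) (mem_closedBall_zero_iff.2 le_rfl)
  rw [h0, sub_zero, sub_zero] at this
  rwa [norm_pow, pow_succ, ← mul_assoc]

lemma boot_pow {a b : ℕ} (h : b ≤ a) : (fun t : ℝ => t ^ a) =O[𝓝 0] fun t : ℝ => t ^ b := by
  refine IsBigO.of_bound 1 ?_
  filter_upwards [Metric.closedBall_mem_nhds 0 one_pos] with t ht
  rw [one_mul, norm_pow, norm_pow]
  exact pow_le_pow_of_le_one (norm_nonneg t) (mem_closedBall_zero_iff.1 ht) h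

lemma boot_root {v : ℝ → ℝ} {p q : ℕ} (hpq : q * 3 ≤ p * 2)
    (h : (fun t => v t ^ 3) =O[𝓝 0] fun t : ℝ => t ^ p) :
    (fun t => v t ^ 2) =O[𝓝 0] fun t : ℝ => t ^ q := by
  refine IsBigO.of_pow (n := 3) (by norm_num) ?_
  refine ((h.pow 2).congr (fun t => ?_) fun t => (pow_mul t p 2).symm).trans
    ((boot_pow hpq).congr_right fun t => pow_mul t q 3)
  simp only [Pi.pow_apply]; ring

lemma boot_G {A : ℝ → ℝ} (hA : AnalyticAt ℝ A 0) (h0 : A 0 = 0) :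
    ∃ G : ℝ → ℝ, AnalyticAt ℝ G 0 ∧ G 0 = deriv A 0 ∧ ∀ x, A x = x * G x := by
  obtain ⟨p, hp⟩ := hA
  refine ⟨dslope A 0, hp.has_fpower_series_dslope_fslope.analyticAt, dslope_same _ _, fun x => ?_⟩
  simpa [h0] using (sub_smul_dslope A 0 x).symm

lemma boot_cube : Tendsto (fun t : ℝ => t ^ 3) (𝓝 0) (𝓝 0) :=
  (continuous_pow 3).tendsto' 0 0 (by norm_num)

lemma boot_der {A B V : ℝ → ℝ} (h : Sol A B V) (t : ℝ) : HasDerivAt (fun t => V (t ^ 3) ^ 3)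
    (-9 * (t ^ 2 * (A (t ^ 3) + B (t ^ 3) * V (t ^ 3) ^ 2))) t := by
  have h1 := (h.2 (t ^ 3)).comp t (hasDerivAt_pow 3 t)
  refine HasDerivAt.congr_deriv (f' := _) h1 ?_
  norm_num; ring

theorem bootS : BootStmt := by
  intro A B V hA hB hV hA0 hV0
  obtain ⟨G, hG, hG0, hAG⟩ := boot_G (hA 0) hA0
  have hb : (fun t : ℝ => B (t ^ 3)) =O[𝓝 0] fun _ => (1 : ℝ) :=
    ((hB.tendsto 0).comp boot_cube).isBigO_one ℝ
  have hg : (fun t : ℝ => G (t ^ 3)) =O[𝓝 0] fun _ => (1 : ℝ) :=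
    (hG.continuousAt.tendsto.comp boot_cube).isBigO_one ℝ
  have ha : (fun t : ℝ => A (t ^ 3)) =O[𝓝 0] fun t : ℝ => t ^ 3 :=
    ((isBigO_refl (fun t : ℝ => t ^ 3) _).mul hg).congr (fun t => (hAG _).symm) fun t => mul_one _
  have step : ∀ q ≤ 3, ((fun t : ℝ => V (t ^ 3) ^ 2) =O[𝓝 0] fun t : ℝ => t ^ q) →
      (fun t : ℝ => V (t ^ 3) ^ 3) =O[𝓝 0] fun t : ℝ => t ^ (2 + q + 1) := fun q hq h =>
    boot_int (boot_der hV) (by simp [hV0]) ((((isBigO_refl (fun t : ℝ => t ^ 2) _).mul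
      ((ha.trans (boot_pow hq)).add ((hb.mul h).congr_right fun t => one_mul _))).const_mul_left
        _).congr_right fun t => (pow_add t 2 q).symm)
  have h0 : (fun t : ℝ => V (t ^ 3) ^ 2) =O[𝓝 0] fun t : ℝ => t ^ 0 :=
    ((((hV.1.tendsto 0).comp boot_cube).pow 2).isBigO_one ℝ).congr_right fun t => (pow_zero t).symm
  have h4 : (fun t : ℝ => V (t ^ 3) ^ 2) =O[𝓝 0] fun t : ℝ => t ^ 4 :=
    boot_root (by norm_num) (step 3 le_rfl (boot_root (by norm_num) (step 2 (by norm_num)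
      (boot_root (by norm_num) (step 0 (by norm_num) h0)))))
  have h6 : (fun t : ℝ => t ^ 3 * (G (t ^ 3) - G 0)) =O[𝓝 0] fun t : ℝ => t ^ 4 :=
    (((isBigO_refl (fun t : ℝ => t ^ 3) _).mul
      (hG.differentiableAt.isBigO_sub.comp_tendsto boot_cube)).congr_right
        (g₂ := fun t : ℝ => t ^ 6) fun t => by simp only [Function.comp]; ring).trans
      (boot_pow (by norm_num))
  refine boot_int (f' := fun t => -9 * (t ^ 2 * (t ^ 3 * (G (t ^ 3) - G 0) +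
    B (t ^ 3) * V (t ^ 3) ^ 2))) (fun t => ((boot_der hV t).add
      ((hasDerivAt_pow 6 t).const_mul _)).congr_deriv ?_) (by simp [hV0]) ?_
  · rw [hAG, hG0]; norm_num; ring
  · exact (((isBigO_refl (fun t : ℝ => t ^ 2) _).mul
      (h6.add ((hb.mul h4).congr_right fun t => one_mul _))).const_mul_left
        _).congr_right fun t => (pow_add t 2 4).symm

theorem signS : SignStmt := by
  intro A B V hA hB hV z hz ha
  have h1 := bootS (fun x => A (x + z)) (fun x => B (x + z)) (fun x => V (x + z))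
    (by simpa using hA.affine 1 z 1) (hB.comp (by fun_prop)) (hV.shift z) (by simpa using hz.1)
    (by simpa using hz.2)
  rw [deriv_comp_add_const, zero_add] at h1
  have h2 := (h1.trans_isLittleO (isLittleO_pow_pow (by norm_num : 6 < 7))).bound (abs_pos.2 ha)
  have h3 : Tendsto (fun x => cb (x - z)) (𝓝 z) (𝓝 0) :=
    (cb_continuous.comp (continuous_sub_right z)).tendsto' z 0 (by simp [cb_zero])
  filter_upwards [nhdsWithin_le_nhds (h3.eventually h2), self_mem_nhdsWithin] with x hx hxz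
  have h4 : 0 < cb (x - z) ^ 6 :=
    Even.pow_pos (by decide) fun h => hxz (sub_eq_zero.1 (cb_eq_zero.1 h))
  rw [cb_pow, sub_add_cancel, Real.norm_eq_abs, Real.norm_of_nonneg h4.le] at hx
  have h5 : deriv A z * V x ^ 3 < 0 := by
    have h6 := (le_abs_self _).trans ((abs_mul (deriv A z) _).le.trans
      (mul_le_mul_of_nonneg_left hx (abs_nonneg (deriv A z))))
    rw [← mul_assoc, abs_mul_abs_self] at h6
    nlinarith [mul_pos (mul_self_pos.2 ha) h4]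
  by_contra h
  have := mul_nonneg (not_lt.1 h) (sq_nonneg (V x))
  nlinarith

theorem cuspWS (hBB : BBStmt) : CuspWStmt := by
  intro ε A B V hε hA hB hV hA0 ha hV0
  obtain ⟨G, hG, hG0, hAG⟩ := boot_G (hA 0) hA0
  have hε0 : ε ≠ 0 := by rcases hε with h | h <;> simp [h]
  have hε3 : cb ε = ε := cb_eq_iff.2 (by rcases hε with h | h <;> norm_num [h])
  have h3 : AnalyticAt ℝ (fun p : ℝ × ℝ => p.1 ^ 3) (0, ε) := analyticAt_fst.pow 3
  have hΨ : AnalyticAt ℝ (fun p : ℝ × ℝ => -9 * (G (p.1 ^ 3) + p.1 * B (p.1 ^ 3) * cb p.2 ^ 2))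
      (0, ε) :=
    analyticAt_const.mul ((hG.comp_of_eq h3 (by simp)).add ((analyticAt_fst.mul
      ((hB 0).comp_of_eq h3 (by simp))).mul
        (((cb_analyticAt hε0).comp_of_eq analyticAt_snd rfl).pow 2)))
  obtain ⟨Y, hY, hY0, -, hu⟩ := hBB _ 6 ε (by norm_num) hΨ
    (by simp only [hG0, ha, ne_eq, OfNat.ofNat_ne_zero, not_false_eq_true, zero_pow]; ring)
    (by simpa using hasDerivAt_const ε _)
  have hcb : ∀ t : ℝ, t ≠ 0 → cb (V (t ^ 3) ^ 3 / t ^ 6) = V (t ^ 3) / t ^ 2 := fun t _ =>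
    cb_eq_iff.2 (by ring)
  have h1 := ((bootS A B V hA hB.continuous hV hA0 hV0).trans_isLittleO
    (isLittleO_pow_pow (by norm_num : 6 < 7))).tendsto_div_nhds_zero
  have h2 := hu (fun t => V (t ^ 3) ^ 3 / t ^ 6) (by
    have := (h1.mono_left (nhdsWithin_le_nhds (s := {0}ᶜ))).add_const ε
    rw [zero_add] at this
    refine this.congr' ?_
    filter_upwards [self_mem_nhdsWithin] with t ht
    have ht' : t ≠ 0 := ht
    rw [ha]; field_simp; ring) (by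
    filter_upwards [self_mem_nhdsWithin] with t ht
    have ht' : t ≠ 0 := ht
    refine ⟨_, (boot_der hV t).div (hasDerivAt_pow 6 t) (pow_ne_zero 6 ht'), ?_⟩
    simp only [hcb t ht', hAG (t ^ 3)]
    norm_num
    field_simp
    ring)
  refine ⟨fun t => cb (Y t), (cb_analyticAt hε0).comp_of_eq hY hY0, by simp only [hY0, hε3], ?_⟩
  filter_upwards [eventually_nhdsWithin_iff.1 h2] with t ht
  by_cases h : t = 0
  · simp [h, hV0]
  · rw [← ht h, hcb t h]; field_simp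

end Pool.Agent.MP_c2f0e4_an

end

section

open Set Filter Topology Real Asymptotics

namespace Pool.Agent.MP_c2f0e4_an

lemma cuspxd_inv {h : ℝ → ℝ} (hh : AnalyticAt ℝ h 0) (h0 : h 0 = 0) :
    ∃ s : ℝ → ℝ, AnalyticAt ℝ s 0 ∧ s 0 = 0 ∧ ∀ᶠ x in 𝓝 (0 : ℝ), s x = x * exp (-h (s x)) := by
  have hτ : AnalyticAt ℝ (fun t => t * exp (h t)) 0 := analyticAt_id.mul hh.rexp
  have hd : HasDerivAt (fun t => t * exp (h t)) 1 0 :=
    ((hasDerivAt_id' (0 : ℝ)).mul hh.differentiableAt.hasDerivAt.exp).congr_deriv (by simp [h0])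
  have hne : deriv (fun t => t * exp (h t)) 0 ≠ 0 := by rw [hd.deriv]; exact one_ne_zero
  have h1 := hτ.analyticAt_localInverse hne
  have h2 : hτ.hasStrictDerivAt.localInverse _ _ _ hne ((fun t => t * exp (h t)) 0) = 0 :=
    HasStrictFDerivAt.localInverse_apply_image ..
  have h3 := HasStrictDerivAt.eventually_right_inverse hτ.hasStrictDerivAt hne
  simp only [zero_mul] at h1 h2 h3
  refine ⟨_, h1, h2, h3.mono fun x hx => ?_⟩
  generalize hτ.hasStrictDerivAt.localInverse _ _ _ hne x = y at hx ⊢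
  rw [← hx, mul_assoc, ← exp_add, add_neg_cancel, exp_zero, mul_one]

theorem cuspXDS (hCuspW : CuspWStmt) (hBB : BBStmt) : CuspXDStmt := by
  intro ε A B V hε hA hB hV hA0 hA1 hV0
  obtain ⟨W, hW, hW0, hVW⟩ := hCuspW ε A B V hε hA hB hV hA0 hA1 hV0
  have hεε : ε * ε = 1 := by rcases hε with h | h <;> rw [h] <;> norm_num
  have hε0 : ε ≠ 0 := by rintro rfl; norm_num at hεε
  have hg : AnalyticAt ℝ (fun t : ℝ => B (t ^ 3) / W t) 0 :=
    ((hB _).comp (f := fun t : ℝ => t ^ 3) (analyticAt_id.pow 3)).div hW (by rwa [hW0])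
  obtain ⟨Y, hY, -, hode, -⟩ := hBB (fun p => B (p.1 ^ 3) / W p.1) 1 (B (0 ^ 3) / W 0) le_rfl
    (hg.comp (f := Prod.fst) (x := ((0 : ℝ), B (0 ^ 3) / W 0)) analyticAt_fst) (one_mul _).symm
    (hasDerivAt_const _ (B (0 ^ 3) / W 0))
  have hεW : AnalyticAt ℝ (fun t => ε * W t) 0 := analyticAt_const.mul hW
  have hpos0 : 0 < ε * W 0 := by rw [hW0, hεε]; exact one_pos
  have hh : AnalyticAt ℝ (fun t => log (ε * W t) / 2 + t * Y t) 0 :=
    (((analyticAt_log hpos0).comp (f := fun t => ε * W t) hεW).div analyticAt_const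
      two_ne_zero).add (analyticAt_id.mul hY)
  obtain ⟨s, hs, hs0, hsx⟩ := cuspxd_inv hh (by rw [hW0, hεε]; simp)
  set κ : ℝ → ℝ := fun x => exp (-(log (ε * W (s x)) / 2 + s x * Y (s x))) with hκ
  set D : ℝ → ℝ := fun x => exp (-2 * (s x * Y (s x))) with hD
  have hκa : AnalyticAt ℝ κ 0 := (hh.comp_of_eq hs hs0).neg.rexp
  have hDa : AnalyticAt ℝ D 0 := (analyticAt_const.mul (hs.mul (hY.comp_of_eq hs hs0))).rexp
  have ht : Tendsto s (𝓝 0) (𝓝 0) := by simpa only [ContinuousAt, hs0] using hs.continuousAt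
  have hpos : ∀ᶠ x in 𝓝 (0 : ℝ), 0 < ε * W (s x) :=
    ht.eventually (hεW.continuousAt.eventually (lt_mem_nhds hpos0))
  have hkW : ∀ᶠ x in 𝓝 (0 : ℝ), κ x ^ 2 * W (s x) = ε * D x := by
    filter_upwards [hpos] with x hx
    have h1 : κ x ^ 2 * (ε * W (s x)) = D x := by
      conv_lhs => rw [← exp_log hx]
      simp only [hκ, hD]
      rw [← exp_nat_mul, ← exp_add]
      congr 1
      push_cast
      ring
    linear_combination ε * h1 - κ x ^ 2 * W (s x) * hεε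
  have hF : ∀ᶠ x in 𝓝 (0 : ℝ), V (x ^ 3 * κ x ^ 3) = ε * x ^ 2 * D x := by
    filter_upwards [hkW, hsx, ht.eventually hVW] with x h1 h2 h3
    have h2' : s x = x * κ x := h2
    rw [← mul_pow, ← h2', h3]
    conv_lhs => rw [h2', mul_pow, ← h2']
    linear_combination x ^ 2 * h1
  refine ⟨fun x => κ x ^ 3, D, hκa.pow 3, hDa, by simp [hκ, hs0, hW0, hεε], by simp [hD, hs0], ?_⟩
  filter_upwards [hF.eventually_nhds, hsx.eventually_nhds, hkW, hpos, hκa.eventually_analyticAt,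
    ht.eventually hY.eventually_analyticAt, ht.eventually hode] with x h1 h2 h3 h4 h5 h6 h7
  have h2' : s =ᶠ[𝓝 x] fun y => y * κ y := h2
  have hx : s x = x * κ x := h2'.eq_of_nhds
  have dκ := h5.differentiableAt.hasDerivAt
  have dY := h6.differentiableAt.hasDerivAt
  have ds : HasDerivAt s (κ x + x * deriv κ x) x :=
    (((hasDerivAt_id' x).mul dκ).congr_deriv (by ring)).congr_of_eventuallyEq h2'
  have dX : HasDerivAt (fun y => κ y ^ 3) (3 * κ x ^ 2 * deriv κ x) x :=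
    (dκ.pow 3).congr_deriv (by norm_num)
  have hW' : W (s x) ≠ 0 := fun h => by rw [h, mul_zero] at h4; exact lt_irrefl _ h4
  have h7' : s x * deriv Y (s x) + Y (s x) = B (s x ^ 3) / W (s x) := by simpa using h7
  have dD : HasDerivAt D (-2 * (B (s x ^ 3) / W (s x)) * (κ x + x * deriv κ x) * D x) x := by
    refine ((ds.mul (dY.comp x ds)).const_mul (-2)).exp.congr_deriv ?_
    rw [← h7']
    simp only [hD, Function.comp_apply, Pi.mul_apply]
    ring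
  have e2 : B (x ^ 3 * κ x ^ 3) * (3 * κ x ^ 3 + x * deriv (fun y => κ y ^ 3) x) =
      -(3 / 2) * ε * deriv D x := by
    rw [dX.deriv, dD.deriv, ← mul_pow, ← hx]
    field_simp
    linear_combination B (s x ^ 3) * (κ x + x * deriv κ x) * h3
  refine ⟨h1.self_of_nhds, e2, ?_⟩
  by_cases hx0 : x = 0
  · subst hx0
    simp [hA0]
  rw [dX.deriv] at e2 ⊢
  have d1 : HasDerivAt (fun y => y ^ 3 * κ y ^ 3)
      (x ^ 2 * (3 * κ x ^ 3 + x * (3 * κ x ^ 2 * deriv κ x))) x :=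
    (((hasDerivAt_id' x).pow 3).mul dX).congr_deriv (by simp; ring)
  have d2 := (hV.2 (x ^ 3 * κ x ^ 3)).comp x d1
  have dD' := dD.differentiableAt.hasDerivAt
  have d3 : HasDerivAt (fun y => (ε * y ^ 2 * D y) ^ 3)
      (3 * (ε * x ^ 2 * D x) ^ 2 * (ε * (2 * x) * D x + ε * x ^ 2 * deriv D x)) x :=
    (((((hasDerivAt_id' x).pow 2).const_mul ε).mul dD').pow 3).congr_deriv (by simp)
  have d4 := d2.unique (d3.congr_of_eventuallyEq (h1.mono fun y hy => by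
    simp only [Function.comp_apply]; rw [hy]))
  rw [h1.self_of_nhds] at d4
  apply mul_left_cancel₀ (pow_ne_zero 2 hx0)
  linear_combination (-1 / 3) * d4 - x ^ 6 * D x ^ 2 * e2 -
    (x ^ 6 * D x ^ 2 * B (x ^ 3 * κ x ^ 3) * (3 * κ x ^ 3 + x * (3 * κ x ^ 2 * deriv κ x)) +
      ε * x ^ 4 * D x ^ 2 * (2 * x * D x + x ^ 2 * deriv D x)) * hεε

end Pool.Agent.MP_c2f0e4_an

end

section

open Set Filter Topology Real Asymptotics

namespace Pool.Agent.MP_c2f0e4_an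

lemma cuspode_chi {ε u v Y ρ : ℝ} (hε : ε = 1 ∨ ε = -1) (hY : 0 < Y)
    (h1 : (v ^ 3 - u ^ 3) * Y ^ 6 = 1) (hρ : ρ ^ 2 = ε * v * Y ^ 2) :
    chi (-ε) ρ = v * (v + u) / (v ^ 2 + v * u + u ^ 2) - 2 / 3 := by
  have h6 : ρ ^ 6 = (ε * v * Y ^ 2) ^ 3 := by rw [← hρ]; ring
  have h4 : ρ ^ 4 = (ε * v * Y ^ 2) ^ 2 := by rw [← hρ]; ring
  have hc : cb (ρ ^ 6 + -ε) = ε * u * Y ^ 2 := by
    rw [cb_eq_iff, h6]
    rcases hε with rfl | rfl
    · linear_combination h1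
    · linear_combination -h1
  have hY0 := hY.ne'
  rw [chi, hc, h4, hρ]
  congr 1
  have e1 : (ε * v * Y ^ 2) ^ 2 + ε * v * Y ^ 2 * (ε * u * Y ^ 2) + (ε * u * Y ^ 2) ^ 2 =
      Y ^ 4 * (v ^ 2 + v * u + u ^ 2) := by
    rcases hε with rfl | rfl <;> ring
  have e2 : ε * v * Y ^ 2 * (ε * v * Y ^ 2 + ε * u * Y ^ 2) = Y ^ 4 * (v * (v + u)) := by
    rcases hε with rfl | rfl <;> ring
  rw [e1, e2, mul_div_mul_left _ _ (pow_ne_zero 4 hY0)]

theorem cuspODES : CuspODEStmt := by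
  intro ε A B V U X D τ X' D' hε hV hU hX hD hD0 hv hB hlt
  have hx : HasDerivAt (fun σ => σ ^ 3 * X σ) (τ ^ 2 * (3 * X τ + τ * X')) τ := by
    refine (((hasDerivAt_id' τ).pow 3).mul hX).congr_deriv ?_
    simp only [Pi.pow_apply]
    push_cast
    ring
  have hs0 : 0 < V (τ ^ 3 * X τ) ^ 3 - U (τ ^ 3 * X τ) ^ 3 := sub_pos.2 (cube_lt.2 hlt)
  have hs : HasDerivAt (fun σ => V (σ ^ 3 * X σ) ^ 3 - U (σ ^ 3 * X σ) ^ 3)
      (-3 * (A (τ ^ 3 * X τ) + B (τ ^ 3 * X τ) * V (τ ^ 3 * X τ) ^ 2) *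
          (τ ^ 2 * (3 * X τ + τ * X')) -
        -3 * (A (τ ^ 3 * X τ) + B (τ ^ 3 * X τ) * U (τ ^ 3 * X τ) ^ 2) *
          (τ ^ 2 * (3 * X τ + τ * X'))) τ := by
    have k1 := (hV.2 (τ ^ 3 * X τ)).comp τ hx
    have k2 := (hU.2 (τ ^ 3 * X τ)).comp τ hx
    exact k1.sub k2
  have h := (hD.sqrt hD0.ne').mul (hs.rpow_const (p := -(1 / 6 : ℝ)) (Or.inl hs0.ne'))
  refine HasDerivAt.congr_deriv (f' := _) h ?_
  rw [Real.rpow_sub_one hs0.ne']
  have hY : 0 < (V (τ ^ 3 * X τ) ^ 3 - U (τ ^ 3 * X τ) ^ 3) ^ (-(1 / 6) : ℝ) :=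
    Real.rpow_pos_of_pos hs0 _
  have h1 : (V (τ ^ 3 * X τ) ^ 3 - U (τ ^ 3 * X τ) ^ 3) *
      ((V (τ ^ 3 * X τ) ^ 3 - U (τ ^ 3 * X τ) ^ 3) ^ (-(1 / 6) : ℝ)) ^ 6 = 1 := by
    rw [← Real.rpow_mul_natCast hs0.le, show (-(1 / 6) : ℝ) * ((6 : ℕ) : ℝ) = -1 by norm_num,
      Real.rpow_neg_one]
    exact mul_inv_cancel₀ hs0.ne'
  have hr : 0 < √(D τ) := Real.sqrt_pos.2 hD0
  have hr2 : √(D τ) ^ 2 = D τ := Real.sq_sqrt hD0.le
  generalize (V (τ ^ 3 * X τ) ^ 3 - U (τ ^ 3 * X τ) ^ 3) ^ (-(1 / 6) : ℝ) = Y at hY h1 ⊢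
  generalize √(D τ) = r at hr hr2 ⊢
  generalize V (τ ^ 3 * X τ) = v at hv hlt hs0 h1 ⊢
  generalize U (τ ^ 3 * X τ) = u at hlt hs0 h1 ⊢
  generalize B (τ ^ 3 * X τ) = b at hB ⊢
  generalize A (τ ^ 3 * X τ) = a
  have hε2 : ε ^ 2 = 1 := by rcases hε with rfl | rfl <;> norm_num
  have hf : v ^ 3 - u ^ 3 = (v - u) * (v ^ 2 + v * u + u ^ 2) := by ring
  have hvu : v - u ≠ 0 := (sub_pos.2 hlt).ne'
  have hN : v ^ 2 + v * u + u ^ 2 ≠ 0 := by
    intro h0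
    rw [hf, h0, mul_zero] at hs0
    exact lt_irrefl _ hs0
  have hρ : (τ * (r * Y)) ^ 2 = ε * v * Y ^ 2 := by
    rw [hv, ← hr2]
    linear_combination -(τ ^ 2 * r ^ 2 * Y ^ 2) * hε2
  rw [cuspode_chi hε hY h1 hρ]
  have e1 : -3 * (a + b * v ^ 2) * (τ ^ 2 * (3 * X τ + τ * X')) -
      -3 * (a + b * u ^ 2) * (τ ^ 2 * (3 * X τ + τ * X')) =
      9 / 2 * (v / r ^ 2) * D' * ((v - u) * (v + u)) := by
    have e2 : v / r ^ 2 = ε * τ ^ 2 := by
      rw [div_eq_iff (pow_ne_zero 2 hr.ne'), hr2]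
      exact hv
    rw [e2]
    linear_combination (-3 * τ ^ 2 * (v ^ 2 - u ^ 2)) * hB
  rw [e1, hf, ← hr2]
  have hr0 := hr.ne'
  field_simp
  ring

end Pool.Agent.MP_c2f0e4_an

end

section

open Set Filter Topology Real Asymptotics

namespace Pool.Agent.MP_c2f0e4_an

lemma cusp_an {f : ℝ → ℝ} (h : An f) : An (deriv f) := fun x => (h x).deriv

lemma cusp_deriv {f : ℝ → ℝ} (h : An f) (k c l : ℝ) :
    deriv (fun x => l * f (k * x + c)) = fun x => l * k * deriv f (k * x + c) := by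
  funext x
  have h1 : HasDerivAt (fun x : ℝ => k * x + c) k x := by
    simpa using ((hasDerivAt_id x).const_mul k).add_const c
  have h2 := ((h (k * x + c)).differentiableAt.hasDerivAt.comp x h1).const_mul l
  exact h2.deriv.trans (by ring)

lemma cusp_alg {ε k I a1 a2 b0 b1 : ℝ} (hε : ε ^ 2 = 1) (hk : k * k * a1 = -2 * ε / 3)
    (hI : I ≠ 0) :
    23328 / 1925 * (k * b0) ^ 2 * (k * k * k * a2 / 2 * (k * b0) + ε * (k * k * b1) +
      36 / 343 * (k * b0) ^ 4) * (- -ε / 9) * (3 / 2 * ε * (k * b0) * I) =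
    23328 / 1925 * (ε / 9) / ((3 / 2) ^ 6 * I ^ 6) *
      ((a2 / 2 * b0 - 3 / 2 * a1 * b1) / b0 ^ 4 + 36 / 343) * (3 / 2 * ε * (k * b0) * I) ^ 7 := by
  by_cases hb : b0 = 0
  · simp [hb]
  have h1 : ε * (k * k * b1) = -(3 / 2) * k ^ 4 * a1 * b1 := by
    linear_combination (3 / 2 * k * k * b1) * hk
  have h2 : (3 / 2 * ε * (k * b0) * I) ^ 7 =
      (3 / 2 * (k * b0) * I) ^ 6 * (3 / 2 * ε * (k * b0) * I) := by
    rw [show (3 / 2 * ε * (k * b0) * I) ^ 7 = (ε ^ 2) ^ 3 * ((3 / 2 * (k * b0) * I) ^ 6 *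
      (3 / 2 * ε * (k * b0) * I)) by ring, hε, one_pow, one_mul]
  rw [h1, h2]
  field_simp
  ring

theorem cuspS (hCuspXD : CuspXDStmt) (hCuspODE : CuspODEStmt) (hJet : JetStmt) (hPass : PassStmt) (hChi : ChiStmt) (hChiInt : ChiIntStmt) (hAsyScale : AsyScaleStmt) : CuspStmt := by
  intro ε hε
  have hε' : -ε = 1 ∨ -ε = -1 := by rcases hε with h | h <;> simp [h]
  have hε2 : ε ^ 2 = 1 := by rcases hε with h | h <;> simp [h]
  have hε0 : ε ≠ 0 := by rcases hε with h | h <;> simp [h]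
  obtain ⟨hI, hJ⟩ := hChiInt _ hε'
  refine ⟨23328 / 1925 * (ε / 9) / ((3 / 2) ^ 6 * (∫ ρ, chi (-ε) ρ) ^ 6),
    div_ne_zero (mul_ne_zero (by norm_num) (div_ne_zero hε0 (by norm_num)))
      (mul_ne_zero (by norm_num) (pow_ne_zero _ hI.ne)), ?_⟩
  intro A B V U z hA hB hT hz hs η hη
  obtain ⟨k, hk0, hk⟩ : ∃ k : ℝ, 0 < k ∧ k * k * deriv A z = -2 * ε / 3 := by
    have h1 : 0 < 2 / (3 * -(ε * deriv A z)) := div_pos two_pos (by linarith)
    refine ⟨√(2 / (3 * -(ε * deriv A z))), sqrt_pos.2 h1, ?_⟩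
    rw [mul_self_sqrt h1.le, div_mul_eq_mul_div, div_eq_iff (by linarith)]
    linear_combination (-2 * deriv A z) * hε2
  have hT' := hT.affine k z
  have hA' := hA.affine k z k
  have hB' := hB.affine k z k
  have hA0 : (fun x => k * A (k * x + z)) 0 = 0 := by simp [hz.1]
  have hA1 : deriv (fun x => k * A (k * x + z)) 0 = -2 * ε / 3 := by
    rw [cusp_deriv hA]
    simpa using hk
  obtain ⟨X, D, hX, hD, hX0, hD0, hXD⟩ := hCuspXD ε _ _ _ hε hA' hB' hT'.solV hA0 hA1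
    (by simp [hz.2])
  obtain ⟨q, R, hR, hR0, hq, hq0, hq5, hq6⟩ := hJet ε _ _ X D hε (hA' 0) (hB' 0) hX hD hA0 hA1
    hX0 hD0 (hXD.mono fun _ h => h.2)
  simp only [cusp_deriv hA, cusp_deriv hB, cusp_deriv (cusp_an hA), cusp_deriv (cusp_an hB),
    mul_zero, zero_add] at hq0 hq5 hq6
  obtain ⟨L, hL⟩ := hR.differentiableAt.isBigO_sub.bound
  have cX := hX.continuousAt
  have e1 : ∀ᶠ τ in 𝓝 (0 : ℝ), 0 < X τ := continuousAt_const.eventually_lt cX (by simp [hX0])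
  have e2 : ∀ᶠ τ in 𝓝 (0 : ℝ), 0 < D τ :=
    continuousAt_const.eventually_lt hD.continuousAt (by simp [hD0])
  have e3 : ∀ᶠ τ in 𝓝 (0 : ℝ), |k * (τ ^ 3 * X τ)| < η :=
    ContinuousAt.eventually_lt (by fun_prop) continuousAt_const (by simpa using hη)
  obtain ⟨r, hr, H⟩ := Metric.eventually_nhds_iff.1 ((hXD.and hq).and ((e1.and e2).and
    ((e3.and hL).and (hX.eventually_analyticAt.and
      (hD.eventually_analyticAt.and hR.eventually_analyticAt)))))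
  obtain ⟨δ, hδ, hδr⟩ := exists_between hr
  replace H := fun τ (hτ : τ ∈ Icc (-δ) δ) =>
    @H τ (by rw [dist_zero_right]; exact (abs_le.2 hτ).trans_lt hδr)
  have ma : -δ ∈ Icc (-δ) δ := left_mem_Icc.2 (by linarith)
  have mb : δ ∈ Icc (-δ) δ := right_mem_Icc.2 (by linarith)
  have hP : PHyp (chi (-ε)) q R (-δ) δ
      fun n τ => √(D τ) * Yv V U (k * (τ ^ 3 * X τ) + z) n := by
    refine ⟨by linarith, hδ, fun τ hτ => (H τ hτ).2.2.2.2.2.continuousAt.continuousWithinAt,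
      ⟨L, fun τ hτ => ?_⟩, fun n τ hτ => mul_pos (sqrt_pos.2 (H τ hτ).2.1.2) (hT.Yv_pos _ n),
      fun n τ hτ => ?_, (hT.Yv_tendsto _).const_mul_atTop (sqrt_pos.2 (H _ ma).2.1.2)⟩
    · simpa [hR0] using (H τ hτ).2.2.1.2
    · obtain ⟨⟨h1, h2⟩, h3, -, h4, h5, -⟩ := H τ hτ
      rw [← h2]
      have := hCuspODE ε _ _ _ _ X D τ _ _ hε hT'.solV (hT'.solU n) h4.differentiableAt.hasDerivAt
        h5.differentiableAt.hasDerivAt h3.2 h1.1 h1.2.1 (hT'.lt n _)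
      simpa only [Yv] using this
  obtain ⟨f, hf, hf0, hf6⟩ := hPass _ _ q R _ _ _ (hChi _ hε') hP
  have hμ := sqrt_pos.2 (H _ ma).2.1.2
  have hν := sqrt_pos.2 (H _ mb).2.1.2
  have hS := hAsyScale _ _ _ _ _ _ _ _ (hT.Yv_tendsto _) hμ hν hf
  have ha := abs_lt.1 (H _ ma).2.2.1.1
  have hb := abs_lt.1 (H _ mb).2.2.1.1
  have ha' : 0 < k * (δ ^ 3 * X (-δ)) := by have := (H _ ma).2.1.1; positivity
  have hb' : 0 < k * (δ ^ 3 * X δ) := by have := (H _ mb).2.1.1; positivity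
  have hV : ∀ τ ∈ Icc (-δ) δ, τ ≠ 0 → V (k * (τ ^ 3 * X τ) + z) ≠ 0 := fun τ hτ h0 =>
    (H τ hτ).1.1.1.trans_ne (mul_ne_zero (mul_ne_zero hε0 (pow_ne_zero _ h0)) (H τ hτ).2.1.2.ne')
  have key := cusp_alg (a2 := deriv (deriv A) z) (b0 := B z) (b1 := deriv B z) hε2 hk hI.ne
  rw [← hq5, ← hq0, ← hf0, ← gam] at key
  generalize √(D (-δ)) = μ at hμ hS
  generalize 23328 / 1925 * (ε / 9) / ((3 / 2) ^ 6 * (∫ ρ, chi (-ε) ρ) ^ 6) * gam A B z = G
    at key ⊢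
  set e : ℕ → ℝ := fun i => f i / μ ^ (i + 1) +
    if i = 6 then -5 * (q 5 * (- -ε / 9)) * f 0 * Real.log μ / μ ^ 7 else 0 with he
  have e0 : e 0 = f 0 / μ := by simp [he]
  have k7 : -5 * (q 5 * (- -ε / 9)) * f 0 / μ ^ 7 = -5 * G * e 0 ^ 7 := by
    rw [e0]
    linear_combination (-5 / μ ^ 7) * key
  have k8 : 15 * (q 5 * (- -ε / 9)) * f 0 ^ 2 / μ ^ 8 = 15 * G * e 0 ^ 8 := by
    rw [e0]
    linear_combination (15 * f 0 / μ ^ 8) * key
  rw [k7, k8] at hS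
  have ha'' : k * ((-δ) ^ 3 * X (-δ)) = -(k * (δ ^ 3 * X (-δ))) := by ring
  have hw : 0 < -(3 / 2) * k * ∫ ρ, chi (-ε) ρ := mul_pos_of_neg_of_neg (by linarith) hI
  refine ⟨k * ((-δ) ^ 3 * X (-δ)) + z, k * (δ ^ 3 * X δ) + z, by linarith [ha.1], by linarith [ha''],
    by linarith, by linarith [hb.2], hV _ ma (by linarith), hV _ mb hδ.ne', _,
    -(3 / 2) * k * (∫ ρ, chi (-ε) ρ) / μ, e, by positivity, div_pos hw hμ, ?_, hS,
    fun hb0 h6 => ?_⟩
  · rw [e0, hf0, hq0]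
    ring
  · obtain ⟨h1, h2, h3⟩ := hq6 (by rw [hb0, mul_zero])
    have h0 : q 0 = 0 := by rw [hq0, hb0, mul_zero, mul_zero]
    simp only [he, hf0, hf6 h0 h1 h2, h0, zero_mul, mul_zero, zero_div, ite_self, add_zero] at h6
    have h4 := (mul_eq_zero.1 ((div_eq_zero_iff.1 h6).resolve_right
      (by positivity))).resolve_right hJ
    refine mul_left_cancel₀ (pow_ne_zero 5 hk0.ne') ?_
    linear_combination 8 / 9 * (h4 - h3) - k ^ 3 * deriv (deriv B) z * hk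

end Pool.Agent.MP_c2f0e4_an

end

section

open Set Filter Topology Real Asymptotics

namespace Pool.Agent.MP_c2f0e4_an

theorem c123_id (T : ℕ → ℝ) : Asy T T 1 0 0 0 :=
  ⟨fun _ => 0, rfl, by
    unfold AsyP
    simp only [zero_mul, Finset.sum_const_zero, add_zero, one_mul, sub_self]
    exact isBigO_zero _ _⟩

/-- composition with a cusp and a regular transit -/
theorem c123_step (hC : AsyCompStmt) {T0 T1 T2 T3 : ℕ → ℝ} {L S K7 K8 lam g l c : ℝ} {e : ℕ → ℝ}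
    (hT : Tendsto T0 atTop atTop) (hL : 0 < L) (hlam : 0 < lam) (h1 : Asy T0 T1 L S K7 K8)
    (h2 : AsyP T1 T2 lam e (-5 * g * e 0 ^ 7) (15 * g * e 0 ^ 8))
    (h3 : AsyP T2 T3 l (fun i => if i = 5 then c else 0) 0 0) :
    Asy T0 T3 (L * lam * l) (S + e 0 / L) (K7 - 5 * g * (e 0 / L) ^ 7)
      (K8 + 15 * g * (e 0 / L) ^ 8 + 30 * S * g * (e 0 / L) ^ 7) := by
  have h4 := hC _ _ _ _ _ _ _ _ _ _ _ hT hL h1 ⟨e, rfl, h2⟩
  have h5 := hC _ _ _ _ _ _ _ _ 0 _ _ hT (mul_pos hL hlam) h4 ⟨_, by simp, h3⟩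
  have e1 : S + e 0 / L + 0 / (L * lam) = S + e 0 / L := by ring
  have e2 : K7 + -5 * g * e 0 ^ 7 / L ^ 7 + 0 / (L * lam) ^ 7 = K7 - 5 * g * (e 0 / L) ^ 7 := by
    ring
  have e3 : K8 + 15 * g * e 0 ^ 8 / L ^ 8 - 6 * S * (-5 * g * e 0 ^ 7) / L ^ 7 + 0 / (L * lam) ^ 8 -
      6 * (S + e 0 / L) * 0 / (L * lam) ^ 7 =
      K8 + 15 * g * (e 0 / L) ^ 8 + 30 * S * g * (e 0 / L) ^ 7 := by ring
  rwa [e1, e2, e3] at h5

theorem c123_fin (hI : AsyIdStmt) {T : ℕ → ℝ} {L S K7 K8 : ℝ} (hT : Tendsto T atTop atTop)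
    (h : Asy T T L S K7 K8) : S = 0 ∧ K7 = 0 ∧ K8 = 0 := by
  obtain ⟨e, he, h1⟩ := h
  obtain ⟨-, h2, h3, h4⟩ := hI T L e K7 K8 hT h1
  exact ⟨he ▸ h2 0 (by norm_num), h3, h4⟩

theorem c123_alg {m1 m2 m3 k1 k2 k3 : ℝ} (h0 : m1 + m2 + m3 = 0)
    (h1 : k1 * m1 + k2 * m2 + k3 * m3 = 0)
    (h2 : k1 * m1 ^ 2 + k2 * (m2 ^ 2 + 2 * m1 * m2) + k3 * (m3 ^ 2 + 2 * (m1 + m2) * m3) = 0) :
    (m1 ≠ 0 → m2 ≠ 0 → k1 = k2) ∧ (m1 ≠ 0 → m3 ≠ 0 → k1 = k3) ∧
      (m2 ≠ 0 → m3 ≠ 0 → k2 = k3) := by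
  have h3 : m3 = -(m1 + m2) := by linarith
  subst h3
  have h4 : m1 ≠ 0 → m2 ≠ 0 → k1 = k2 := fun a b =>
    mul_left_cancel₀ (mul_ne_zero a b) (by linear_combination (m1 + m2) * h1 - h2)
  refine ⟨h4, fun a c => ?_, fun b c => ?_⟩
  · by_cases b : m2 = 0
    · subst b
      exact mul_left_cancel₀ a (by linear_combination h1)
    · have h5 := h4 a b
      subst h5
      exact mul_left_cancel₀ c (by linear_combination -h1)
  · by_cases a : m1 = 0
    · subst a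
      exact mul_left_cancel₀ b (by linear_combination h1)
    · have h5 := h4 a b
      subst h5
      exact mul_left_cancel₀ c (by linear_combination -h1)

theorem c1S (hCusp : CuspStmt) (hTr : TrStmt) (hAsyComp : AsyCompStmt) (hAsyId : AsyIdStmt) (hAsyBTr : AsyBTrStmt) : C1Stmt := by
  intro A B V U z hA hB hT h1 hper hz
  obtain ⟨ε, hε, hεz⟩ : ∃ ε : ℝ, (ε = 1 ∨ ε = -1) ∧ ε * deriv A z < 0 := by
    rcases lt_or_gt_of_ne hz with h | h
    · exact ⟨1, Or.inl rfl, by linarith⟩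
    · exact ⟨-1, Or.inr rfl, by linarith⟩
  have hε0 : ε ≠ 0 := by rcases hε with h | h <;> rw [h] <;> norm_num
  obtain ⟨C, hC, hc⟩ := hCusp ε hε
  obtain ⟨a, b, a1, a2, b1, b2, va, vb, lam, w, e, hlam, hw, he, hP, hfin⟩ :=
    hc A B V U z hA hB hT.toTop0 h1.1 hεz π pi_pos
  obtain ⟨⟨l, c, hl, hQ⟩, -⟩ := hTr A B V U b (a + 2 * π) hA hB hT.toTop0 (by linarith)
    (fun x hx hx1 hx2 => h1.2 x ⟨by linarith [hx.1], by linarith [hx.2]⟩ ⟨hx1, hx2⟩) vb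
    (by rwa [hT.perV])
  rw [hT.Yv_per] at hQ
  have hY := hT.toTop0.Yv_tendsto a
  have h2 := (c123_fin hAsyId hY (c123_step hAsyComp hY one_pos hlam (c123_id _) hP hQ)).1
  rw [zero_add, div_one] at h2
  have hBz : B z = 0 := by
    rw [h2] at he
    exact (mul_eq_zero.1 he.symm).resolve_left (mul_ne_zero (neg_ne_zero.2 hε0) hw.ne')
  refine ⟨hBz, hfin hBz (hAsyBTr _ _ lam l c e hY hlam ?_ h2 hQ)⟩
  rw [h2] at hP
  simpa using hP

theorem c2S (hCusp : CuspStmt) (hTr : TrStmt) (hAsyComp : AsyCompStmt) (hAsyId : AsyIdStmt) : C2Stmt := by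
  intro A B V U z1 z2 hA hB hT hper ⟨h12, h21, t1, t2, d1, d2, hu⟩
  obtain ⟨η, hη, g1, g2⟩ : ∃ η : ℝ, 0 < η ∧ 2 * η ≤ z2 - z1 ∧ 2 * η ≤ z1 + 2 * π - z2 :=
    ⟨min (z2 - z1) (z1 + 2 * π - z2) / 2, half_pos (lt_min (by linarith) (by linarith)),
      by linarith [min_le_left (z2 - z1) (z1 + 2 * π - z2)],
      by linarith [min_le_right (z2 - z1) (z1 + 2 * π - z2)]⟩
  obtain ⟨C, hC, hc⟩ := hCusp 1 (Or.inl rfl)
  obtain ⟨a1, b1, p1, q1, r1, s1, va1, vb1, lam1, w1, e1, hlam1, hw1, he1, hP1, -⟩ :=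
    hc A B V U z1 hA hB hT.toTop0 t1 (by linarith) η hη
  obtain ⟨a2, b2, p2, q2, r2, s2, va2, vb2, lam2, w2, e2, hlam2, hw2, he2, hP2, -⟩ :=
    hc A B V U z2 hA hB hT.toTop0 t2 (by linarith) η hη
  obtain ⟨⟨l1, c1, hl1, hQ1⟩, -⟩ := hTr A B V U b1 a2 hA hB hT.toTop0 (by linarith)
    (fun x hx hx1 hx2 => by
      have := hu x ⟨by linarith [hx.1], by linarith [hx.2]⟩ ⟨hx1, hx2⟩
      linarith [hx.2]) vb1 va2
  obtain ⟨⟨l2, c2, hl2, hQ2⟩, -⟩ := hTr A B V U b2 (a1 + 2 * π) hA hB hT.toTop0 (by linarith)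
    (fun x hx hx1 hx2 => by
      have := hu x ⟨by linarith [hx.1], by linarith [hx.2]⟩ ⟨hx1, hx2⟩
      linarith [hx.1]) vb2 (by rwa [hT.perV])
  rw [hT.Yv_per] at hQ2
  have hY := hT.toTop0.Yv_tendsto a1
  have hL : 0 < 1 * lam1 * l1 := by positivity
  obtain ⟨h1, h2, -⟩ := c123_fin hAsyId hY (c123_step hAsyComp hY hL hlam2
    (c123_step hAsyComp hY one_pos hlam1 (c123_id _) hP1 hQ1) hP2 hQ2)
  have m1 : e1 0 / 1 = -(w1 * B z1) := by rw [he1]; ring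
  have m2 : e2 0 / (1 * lam1 * l1) = -(w2 / (1 * lam1 * l1) * B z2) := by rw [he2]; ring
  rw [m1, m2] at h1 h2
  refine ⟨w1, _, hw1, div_pos hw2 hL, by linarith, fun hb => ?_⟩
  have h3 : w2 / (1 * lam1 * l1) * B z2 = -(w1 * B z1) := by linarith
  rw [h3] at h2
  exact mul_left_cancel₀ (mul_ne_zero hC (pow_ne_zero 7 (mul_ne_zero hw1.ne' hb)))
    (by linear_combination h2 / 5)

theorem c3S (hCusp : CuspStmt) (hTr : TrStmt) (hAsyComp : AsyCompStmt) (hAsyId : AsyIdStmt) : C3Stmt := by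
  intro A B V U z1 z2 z3 hA hB hT hper ⟨h12, h23, h31, t1, t2, t3, d1, d2, d3, hu⟩
  obtain ⟨η, hη, g1, g2, g3⟩ : ∃ η : ℝ, 0 < η ∧ 2 * η ≤ z2 - z1 ∧ 2 * η ≤ z3 - z2 ∧
      2 * η ≤ z1 + 2 * π - z3 :=
    ⟨min (min (z2 - z1) (z3 - z2)) (z1 + 2 * π - z3) / 2,
      half_pos (lt_min (lt_min (by linarith) (by linarith)) (by linarith)),
      by linarith [min_le_left (min (z2 - z1) (z3 - z2)) (z1 + 2 * π - z3),
        min_le_left (z2 - z1) (z3 - z2)],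
      by linarith [min_le_left (min (z2 - z1) (z3 - z2)) (z1 + 2 * π - z3),
        min_le_right (z2 - z1) (z3 - z2)],
      by linarith [min_le_right (min (z2 - z1) (z3 - z2)) (z1 + 2 * π - z3)]⟩
  obtain ⟨C, hC, hc⟩ := hCusp 1 (Or.inl rfl)
  obtain ⟨a1, b1, p1, q1, r1, s1, va1, vb1, lam1, w1, e1, hlam1, hw1, he1, hP1, -⟩ :=
    hc A B V U z1 hA hB hT.toTop0 t1 (by linarith) η hη
  obtain ⟨a2, b2, p2, q2, r2, s2, va2, vb2, lam2, w2, e2, hlam2, hw2, he2, hP2, -⟩ :=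
    hc A B V U z2 hA hB hT.toTop0 t2 (by linarith) η hη
  obtain ⟨a3, b3, p3, q3, r3, s3, va3, vb3, lam3, w3, e3, hlam3, hw3, he3, hP3, -⟩ :=
    hc A B V U z3 hA hB hT.toTop0 t3 (by linarith) η hη
  obtain ⟨⟨l1, c1, hl1, hQ1⟩, -⟩ := hTr A B V U b1 a2 hA hB hT.toTop0 (by linarith)
    (fun x hx hx1 hx2 => by
      rcases hu x ⟨by linarith [hx.1], by linarith [hx.2]⟩ ⟨hx1, hx2⟩ with h | h <;>
        linarith [hx.2]) vb1 va2
  obtain ⟨⟨l2, c2, hl2, hQ2⟩, -⟩ := hTr A B V U b2 a3 hA hB hT.toTop0 (by linarith)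
    (fun x hx hx1 hx2 => by
      rcases hu x ⟨by linarith [hx.1], by linarith [hx.2]⟩ ⟨hx1, hx2⟩ with h | h <;>
        linarith [hx.1, hx.2]) vb2 va3
  obtain ⟨⟨l3, c3, hl3, hQ3⟩, -⟩ := hTr A B V U b3 (a1 + 2 * π) hA hB hT.toTop0 (by linarith)
    (fun x hx hx1 hx2 => by
      rcases hu x ⟨by linarith [hx.1], by linarith [hx.2]⟩ ⟨hx1, hx2⟩ with h | h <;>
        linarith [hx.1]) vb3 (by rwa [hT.perV])
  rw [hT.Yv_per] at hQ3
  have hY := hT.toTop0.Yv_tendsto a1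
  have hL : 0 < 1 * lam1 * l1 := by positivity
  have hL' : 0 < 1 * lam1 * l1 * lam2 * l2 := by positivity
  obtain ⟨h1, h2, h3⟩ := c123_fin hAsyId hY (c123_step hAsyComp hY hL' hlam3
    (c123_step hAsyComp hY hL hlam2
      (c123_step hAsyComp hY one_pos hlam1 (c123_id _) hP1 hQ1) hP2 hQ2) hP3 hQ3)
  have m1 : e1 0 / 1 = -(w1 * B z1) := by rw [he1]; ring
  have m2 : e2 0 / (1 * lam1 * l1) = -(w2 / (1 * lam1 * l1) * B z2) := by rw [he2]; ring
  have m3 : e3 0 / (1 * lam1 * l1 * lam2 * l2) = -(w3 / (1 * lam1 * l1 * lam2 * l2) * B z3) := by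
    rw [he3]; ring
  rw [m1, m2, m3] at h1 h2 h3
  have hw2' := div_pos hw2 hL
  have hw3' := div_pos hw3 hL'
  generalize w2 / (1 * lam1 * l1) = v2 at h1 h2 h3 hw2'
  generalize w3 / (1 * lam1 * l1 * lam2 * l2) = v3 at h1 h2 h3 hw3'
  obtain ⟨k1, k2, k3⟩ := c123_alg (m1 := w1 * B z1) (m2 := v2 * B z2) (m3 := v3 * B z3)
    (k1 := gam A B z1 * (w1 * B z1) ^ 6) (k2 := gam A B z2 * (v2 * B z2) ^ 6)
    (k3 := gam A B z3 * (v3 * B z3) ^ 6) (by linarith)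
    (mul_left_cancel₀ hC (by linear_combination h2 / 5))
    (mul_left_cancel₀ hC (by linear_combination h3 / 15))
  exact ⟨w1, v2, v3, hw1, hw2', hw3', by linarith,
    fun a b => k1 (mul_ne_zero hw1.ne' a) (mul_ne_zero hw2'.ne' b),
    fun a b => k2 (mul_ne_zero hw1.ne' a) (mul_ne_zero hw3'.ne' b),
    fun a b => k3 (mul_ne_zero hw2'.ne' a) (mul_ne_zero hw3'.ne' b)⟩

end Pool.Agent.MP_c2f0e4_an

end

section

open Set Filter Topology Real Asymptotics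

namespace Pool.Agent.MP_c2f0e4_an

lemma d1_lin {A B V : ℝ → ℝ} {δ C : ℝ} (hB : Continuous B) (hV : Sol A B V)
    (hA : ∀ x ∈ Icc 0 δ, A x ≤ C * x ^ 2) (h0 : V 0 = 0) :
    ∃ K : ℝ, 0 < K ∧ ∀ x ∈ Ioc 0 δ, -V x ≤ K * x := by
  obtain ⟨M, hM⟩ := isCompact_Icc.exists_bound_of_continuousOn (hB.continuousOn (s := Icc 0 δ))
  refine ⟨|M| + |C| + 1, by positivity, fun x hx => le_of_forall_pos_lt_add fun ε hε => ?_⟩
  set K := |M| + |C| + 1 with hK
  have hK1 : 1 ≤ K := by have := abs_nonneg M; have := abs_nonneg C; linarith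
  have := pos_of_deriv_pos_at_zeros (f := fun y => K * y + ε + V y) (a := 0) (b := δ)
    (((continuous_const.mul continuous_id).add continuous_const).add hV.1).continuousOn
    (by simp [h0, hε.le]) (fun y hy hy0 => by
      have hVy : V y = -(K * y + ε) := by linarith
      have hKy : y ≤ K * y := le_mul_of_one_le_left hy.1 hK1
      have hlt : V y < 0 := by rw [hVy]; linarith [hy.1]
      have hd := hV.hasDerivAt hlt.ne
      have hd2 : HasDerivAt (fun y => K * y + ε) K y := by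
        simpa using ((hasDerivAt_id y).const_mul K).add_const ε
      refine ⟨_, hd2.add hd, ?_⟩
      have hB1 : B y ≤ |M| := (le_abs_self _).trans ((hM y hy).trans (le_abs_self _))
      have hV2 : 0 < V y ^ 2 := sq_pos_of_neg hlt
      have hy2 : y ^ 2 ≤ V y ^ 2 := by
        rw [hVy, neg_sq]
        exact pow_le_pow_left₀ hy.1 (by linarith) 2
      have hA1 : A y / V y ^ 2 ≤ |C| := by
        rw [div_le_iff₀ hV2]
        calc A y ≤ C * y ^ 2 := hA y hy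
          _ ≤ |C| * y ^ 2 := mul_le_mul_of_nonneg_right (le_abs_self _) (sq_nonneg _)
          _ ≤ |C| * V y ^ 2 := mul_le_mul_of_nonneg_left hy2 (abs_nonneg _)
      linarith) x hx
  linarith

lemma d1_deriv {A B V U : ℝ → ℝ} (hV : Sol A B V) (hU : Sol A B U) {x : ℝ} (h1 : V x ≠ 0)
    (h2 : U x ≠ 0) : HasDerivAt (fun y => V y - U y)
      ((V x - U x) * (A x * (U x + V x) / (U x ^ 2 * V x ^ 2))) x :=
  ((hV.hasDerivAt h1).sub (hU.hasDerivAt h2)).congr_deriv (by field_simp; ring)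

theorem d1S : D1Stmt := by
  intro A B V U δ c C _ hB hT hδ hc hA h0 hneg a ha b hb
  obtain ⟨K, hK, hKx⟩ := d1_lin (δ := δ) (C := C) hB hT.solV
    (fun x hx => (hA x ⟨by linarith [hx.1], hx.2⟩).2) h0
  have hs : ∀ n x, 0 < V x - U n x := fun n x => sub_pos.2 (hT.lt n x)
  have hcont : ∀ n, Continuous fun y => V y - U n y := fun n => hT.solV.1.sub (hT.solU n).1
  set k := c / (2 * K ^ 3) with hk
  have hkpos : 0 < k := by positivity
  rw [tendsto_order]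
  refine ⟨fun e he => Eventually.of_forall fun n => he.trans (div_pos (hs n b) (hs n a)),
    fun e he => ?_⟩
  set L := |Real.log e| + 1 with hL
  have hLpos : 0 < L := by positivity
  set η := b * Real.exp (-(L / k)) with hη
  have hη0 : 0 < η := mul_pos hb.1 (Real.exp_pos _)
  have hηb : η ≤ b := mul_le_of_le_one_right hb.1.le
    (Real.exp_le_one_iff.2 (neg_nonpos.2 (div_pos hLpos hkpos).le))
  have hlog : Real.log η = Real.log b - L / k := by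
    rw [hη, Real.log_mul hb.1.ne' (Real.exp_pos _).ne', Real.log_exp]; ring
  have hin : ∀ x ∈ Icc η b, x ∈ Icc (-δ) δ := fun x hx =>
    ⟨by linarith [hx.1], hx.2.trans hb.2⟩
  obtain ⟨x0, hx0, hmax⟩ := (isCompact_Icc (a := η) (b := b)).exists_isMaxOn
    (nonempty_Icc.2 hηb) hT.solV.1.continuousOn
  have hm : 0 < -V x0 := neg_pos.2 (hneg x0 (hin x0 hx0) (hη0.trans_le hx0.1).ne')
  filter_upwards [Metric.tendstoUniformly_iff.1 hT.unif _ hm] with n hn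
  have h1 : (V η - U n η) - (V a - U n a) ≤ 0 * (η - a) := by
    refine sub_le_of_deriv_le (f := fun y => V y - U n y) (finite_singleton (0 : ℝ))
      (ha.2.le.trans hη0.le) (hcont n).continuousOn fun x hx hx0 => ?_
    have hxI : x ∈ Icc (-δ) δ := ⟨ha.1.trans hx.1.le, hx.2.le.trans (hηb.trans hb.2)⟩
    have hVx : V x < 0 := hneg x hxI hx0
    have hUx : U n x < 0 := (hT.lt n x).trans hVx
    refine ⟨_, d1_deriv hT.solV (hT.solU n) hVx.ne hUx.ne, ?_⟩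
    have hAx : 0 ≤ A x := le_trans (by positivity) (hA x hxI).1
    exact mul_nonpos_of_nonneg_of_nonpos (hs n x).le (div_nonpos_of_nonpos_of_nonneg
      (mul_nonpos_of_nonneg_of_nonpos hAx (by linarith)) (by positivity))
  have h2 : (Real.log (V b - U n b) + k * Real.log b) -
      (Real.log (V η - U n η) + k * Real.log η) ≤ 0 * (b - η) := by
    refine sub_le_of_deriv_le (f := fun y => Real.log (V y - U n y) + k * Real.log y)
      finite_empty hηb ?_ fun x hx _ => ?_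
    · refine (((hcont n).log fun x => (hs n x).ne').continuousOn).add
        (continuousOn_const.mul (continuousOn_id.log fun x hx => (hη0.trans_le hx.1).ne'))
    · have hx' : x ∈ Icc η b := Ioo_subset_Icc_self hx
      have hxpos : 0 < x := hη0.trans hx.1
      have hxI := hin x hx'
      have hVx : V x < 0 := hneg x hxI hxpos.ne'
      have hUV := hT.lt n x
      have hUx : U n x < 0 := hUV.trans hVx
      refine ⟨_, ((d1_deriv hT.solV (hT.solU n) hVx.ne hUx.ne).log (hs n x).ne').add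
        ((Real.hasDerivAt_log hxpos.ne').const_mul k), ?_⟩
      rw [mul_div_cancel_left₀ _ (hs n x).ne']
      have hd := hn x
      rw [Real.dist_eq, abs_of_pos (hs n x)] at hd
      have hmx : V x ≤ V x0 := hmax hx'
      have hu2 : -U n x ≤ 2 * -V x := by linarith
      have hv : -V x ≤ K * x := hKx x ⟨hxpos, hxI.2⟩
      have hAx : c * x ^ 2 ≤ A x := (hA x hxI).1
      obtain ⟨u, hU'⟩ : ∃ u, U n x = -u := ⟨_, (neg_neg _).symm⟩
      obtain ⟨v, hV'⟩ : ∃ v, V x = -v := ⟨_, (neg_neg _).symm⟩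
      have hupos : 0 < u := by linarith
      have hvpos : 0 < v := by linarith
      rw [hU', hV', neg_neg, neg_neg] at hu2
      rw [hV', neg_neg] at hv
      rw [hU', hV', neg_sq, neg_sq]
      have e1 : k * x⁻¹ ≤ A x * (u + v) / (u ^ 2 * v ^ 2) := by
        rw [le_div_iff₀ (by positivity)]
        have e2 : u * v ^ 2 ≤ 2 * (K * x) ^ 3 := by
          calc u * v ^ 2 ≤ (2 * v) * v ^ 2 := mul_le_mul_of_nonneg_right hu2 (sq_nonneg _)
            _ = 2 * v ^ 3 := by ring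
            _ ≤ 2 * (K * x) ^ 3 := by gcongr
        calc k * x⁻¹ * (u ^ 2 * v ^ 2) = k * x⁻¹ * u * (u * v ^ 2) := by ring
          _ ≤ k * x⁻¹ * u * (2 * (K * x) ^ 3) :=
            mul_le_mul_of_nonneg_left e2 (by positivity)
          _ = c * x ^ 2 * u := by rw [hk]; field_simp
          _ ≤ A x * (u + v) := mul_le_mul hAx (by linarith) hupos.le
            (le_trans (by positivity) hAx)
      have e3 : A x * (-u + -v) / (u ^ 2 * v ^ 2) = -(A x * (u + v) / (u ^ 2 * v ^ 2)) := by ring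
      rw [e3]
      linarith
  have h3 : Real.log (V b - U n b) < Real.log (e * (V η - U n η)) := by
    rw [Real.log_mul he.ne' (hs n η).ne']
    have e4 : k * Real.log η = k * Real.log b - L := by rw [hlog]; field_simp
    have := neg_abs_le (Real.log e)
    linarith
  have h4 := (Real.log_lt_log_iff (hs n b) (mul_pos he (hs n η))).1 h3
  rw [div_lt_iff₀ (hs n a)]
  exact h4.trans_le (mul_le_mul_of_nonneg_left (by linarith) he.le)

end Pool.Agent.MP_c2f0e4_an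

end

section

open Set Filter Topology Real Asymptotics

namespace Pool.Agent.MP_c2f0e4_an

lemma kappa_bar {f : ℝ → ℝ} {b : ℝ} (hb : 0 ≤ b) (hf : Continuous f) (h0 : f 0 ≤ 0)
    (hd : ∀ x ∈ Ioo 0 b, 0 < f x → ∃ f', HasDerivAt f f' x ∧ f' ≤ 0) : f b ≤ 0 := by
  obtain ⟨c, ⟨hc, hc'⟩, hm⟩ := (isCompact_Icc.inter_right (isClosed_le hf continuous_const)
    ).exists_isGreatest ⟨0, left_mem_Icc.2 hb, h0⟩
  have := sub_le_of_deriv_le (c := 0) finite_empty hc.2 hf.continuousOn fun x hx _ =>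
    hd x ⟨hc.1.trans_lt hx.1, hx.2⟩ (not_le.1 fun h =>
      hx.1.not_ge (hm ⟨⟨hc.1.trans hx.1.le, hx.2.le⟩, h⟩))
  have hc' : f c ≤ 0 := hc'
  linarith

lemma kappa_lim {A B G V : ℝ → ℝ} (hG : ContinuousAt G 0) (hB : ContinuousAt B 0) (h0 : 0 < G 0)
    (hA : ∀ᶠ x in 𝓝 (0 : ℝ), A x = x ^ 2 * G x) (hV : Sol A B V) (V0 : V 0 = 0)
    (hs : ∀ᶠ x in 𝓝[>] (0 : ℝ), V x < 0) {k : ℝ} (hk : k < 0) (e : k + B 0 + G 0 / k ^ 2 = 0) :
    Tendsto (fun x => V x / x) (𝓝[>] 0) (𝓝 k) := by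
  have c0 : ∀ c : ℝ, ContinuousAt (fun x => c + B x + G x / c ^ 2) 0 := fun c =>
    (continuousAt_const.add hB).add (hG.div_const _)
  have ev := hs.and (((hG.eventually (lt_mem_nhds h0)).and hA).filter_mono nhdsWithin_le_nhds)
  have d : ∀ c x, V x < 0 → HasDerivAt (fun x => V x - c * x) (-B x - A x / V x ^ 2 - c) x :=
    fun c x h => (hV.hasDerivAt h.ne).sub (by simpa using (hasDerivAt_id x).const_mul c)
  refine tendsto_order.2 ⟨fun a ha => ?_, fun a ha => ?_⟩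
  · obtain ⟨c, c1, c2⟩ := exists_between ha
    have h1 : c + B 0 + G 0 / c ^ 2 < 0 := by
      have : G 0 / c ^ 2 ≤ G 0 / k ^ 2 :=
        div_le_div_of_nonneg_left h0.le (by nlinarith) (by nlinarith)
      linarith
    obtain ⟨r, r0, hr⟩ := (nhdsGT_basis 0).eventually_iff.1 (ev.and
      (((c0 c).eventually (gt_mem_nhds h1)).filter_mono nhdsWithin_le_nhds))
    filter_upwards [Ioo_mem_nhdsGT r0] with x hx
    have := kappa_bar (f := fun x => -(V x - c * x)) hx.1.le (by have := hV.1; fun_prop)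
      (by simp [V0]) fun y hy h => by
      obtain ⟨⟨a1, a2, a3⟩, a4⟩ := hr ⟨hy.1, hy.2.trans hx.2⟩
      refine ⟨_, (d c y a1).neg, ?_⟩
      have c3 : 0 < c ^ 2 := by nlinarith
      have : A y / V y ^ 2 ≤ G y / c ^ 2 := by
        rw [a3, div_le_div_iff₀ (by nlinarith) c3]
        have : (c * y) ^ 2 ≤ V y ^ 2 := by nlinarith [mul_neg_of_neg_of_pos (c2.trans hk) hy.1]
        nlinarith
      linarith
    exact c1.trans_le ((le_div_iff₀ hx.1).2 (by linarith))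
  · obtain ⟨c, c1, c2⟩ := exists_between (lt_min ha hk)
    have c3 := c2.trans_le (min_le_right _ _)
    have h1 : 0 < c + B 0 + G 0 / c ^ 2 := by
      have : G 0 / k ^ 2 ≤ G 0 / c ^ 2 :=
        div_le_div_of_nonneg_left h0.le (by nlinarith) (by nlinarith)
      linarith
    obtain ⟨r, r0, hr⟩ := (nhdsGT_basis 0).eventually_iff.1 (ev.and
      (((c0 c).eventually (lt_mem_nhds h1)).filter_mono nhdsWithin_le_nhds))
    filter_upwards [Ioo_mem_nhdsGT r0] with x hx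
    have := kappa_bar (f := fun x => V x - c * x) hx.1.le (by have := hV.1; fun_prop)
      (by simp [V0]) fun y hy h => by
      obtain ⟨⟨a1, a2, a3⟩, a4⟩ := hr ⟨hy.1, hy.2.trans hx.2⟩
      refine ⟨_, d c y a1, ?_⟩
      have : G y / c ^ 2 ≤ A y / V y ^ 2 := by
        rw [a3, div_le_div_iff₀ (by nlinarith) (by nlinarith)]
        have : V y ^ 2 ≤ (c * y) ^ 2 := by nlinarith [mul_neg_of_neg_of_pos c3 hy.1]
        nlinarith
      linarith
    exact ((div_le_iff₀ hx.1).2 (by linarith)).trans_lt (c2.trans_le (min_le_left _ _))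

theorem kappaS (hBB : BBStmt) : KappaStmt := by
  intro A B G V hG hB h0 hA hV V0 hs
  obtain ⟨k, hk, e⟩ : ∃ k < 0, k ^ 3 + B 0 * k ^ 2 + G 0 = 0 := by
    have T1 : 1 ≤ |B 0| + G 0 + 1 := by linarith [abs_nonneg (B 0)]
    obtain ⟨k, hk, e⟩ := intermediate_value_Ico (a := -(|B 0| + G 0 + 1)) (b := 0)
      (f := fun k => k ^ 3 + B 0 * k ^ 2 + G 0) (by linarith) (by fun_prop)
      (show (0 : ℝ) ∈ _ from ⟨by
        have := le_abs_self (B 0)
        generalize hT : |B 0| + G 0 + 1 = T at *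
        have : B 0 - T ≤ -(G 0 + 1) := by linarith
        have h2 : 1 ≤ T ^ 2 := by nlinarith
        show (-T) ^ 3 + B 0 * (-T) ^ 2 + G 0 ≤ 0
        nlinarith [mul_le_mul_of_nonneg_left this (sq_nonneg T)], by simpa using h0⟩)
    exact ⟨k, hk.2, e⟩
  have k0 := hk.ne
  have e' : k + B 0 + G 0 / k ^ 2 = 0 := by
    field_simp
    linarith
  have n0 : Tendsto (fun x : ℝ => 0 - x) (𝓝 0) (𝓝 0) := Continuous.tendsto' (by fun_prop) _ _ (by simp)
  have l1 := kappa_lim hG.continuousAt hB.continuousAt h0 hA hV V0 (by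
    filter_upwards [nhdsGT_le_nhdsNE 0 hs, self_mem_nhdsWithin] with x h1 h2
    exact neg_of_mul_neg_right h1 (le_of_lt h2)) hk e'
  have n1 : Tendsto (fun x : ℝ => 0 - x) (𝓝[>] 0) (𝓝[<] 0) := by
    simpa using tendsto_neg_nhdsGT (a := (0 : ℝ))
  have n2 : Tendsto (fun x : ℝ => 0 - x) (𝓝[<] 0) (𝓝[>] 0) := by
    simpa using tendsto_neg_nhdsLT (a := (0 : ℝ))
  have l2 := kappa_lim (G := fun x => G (0 - x)) (ContinuousAt.comp_of_eq hG.continuousAt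
    (by fun_prop) (by simp)) (ContinuousAt.comp_of_eq hB.continuousAt (f := fun x : ℝ => 0 - x)
      (by fun_prop) (by simp)).neg.neg (by simpa using h0) ((n0.eventually hA).mono fun x h => by
      simp only [h]; ring) (hV.refl 0).neg (by simp [V0]) (by
    filter_upwards [n1.eventually (nhdsLT_le_nhdsNE 0 hs), self_mem_nhdsWithin] with x h1 h2
    have h2 : 0 < x := h2
    nlinarith) hk (by simpa using e')
  have l3 : Tendsto (fun x => V x / x) (𝓝[≠] 0) (𝓝 k) := by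
    rw [← nhdsLT_sup_nhdsGT, tendsto_sup]
    exact ⟨(l2.comp n2).congr fun x => by simp, l1⟩
  have k3 : k ^ 3 < 0 := Odd.pow_neg (by decide) hk
  obtain ⟨Y, y1, y2, -, y3⟩ := hBB (fun p => (1 - 2 * G 0 / k ^ 3) * p.2 - p.2 - B p.1 -
    G p.1 / p.2 ^ 2) (1 - 2 * G 0 / k ^ 3) k
    (by linarith [div_neg_of_pos_of_neg (mul_pos two_pos h0) k3])
    ((((analyticAt_const.mul analyticAt_snd).sub analyticAt_snd).sub
      (hB.comp_of_eq analyticAt_fst rfl)).sub ((hG.comp_of_eq analyticAt_fst rfl).div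
        (analyticAt_snd.pow 2) (pow_ne_zero 2 k0))) (by simp only; linarith) (by
      refine (((((hasDerivAt_id' k).const_mul (1 - 2 * G 0 / k ^ 3)).fun_sub
        (hasDerivAt_id' k)).sub_const (B 0)).fun_sub ((hasDerivAt_const k (G 0)).fun_div
          (hasDerivAt_pow 2 k) (pow_ne_zero 2 k0))).congr_deriv ?_
      field_simp
      ring)
  refine ⟨Y, y1, y2 ▸ hk, y2 ▸ e, ?_⟩
  have := y3 _ l3 (by
    filter_upwards [hs, hA.filter_mono nhdsWithin_le_nhds, self_mem_nhdsWithin] with t h1 h2 h3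
    have h4 : V t ≠ 0 := fun h => by simp [h] at h1
    have h3 : t ≠ 0 := h3
    refine ⟨_, (hV.hasDerivAt h4).div (hasDerivAt_id' t) h3, ?_⟩
    simp only [h2]
    field_simp
    ring)
  rw [eventually_nhdsWithin_iff] at this
  refine this.mono fun x hx => ?_
  rcases eq_or_ne x 0 with rfl | h
  · simp [V0]
  · rw [← hx h, mul_div_cancel₀ _ h]

end Pool.Agent.MP_c2f0e4_an

end

section

open Set Filter Topology Real Asymptotics

namespace Pool.Agent.MP_c2f0e4_an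

lemma modelf_icc {p : ℝ → Prop} (h : ∀ᶠ x in 𝓝 (0 : ℝ), p x) :
    ∃ d : ℝ, 0 < d ∧ ∀ x ∈ Icc (-d) d, p x := by
  obtain ⟨d, hd, h1⟩ := Metric.nhds_basis_closedBall.eventually_iff.1 h
  refine ⟨d, hd, fun x hx => h1 ?_⟩
  rw [mem_closedBall_zero_iff, Real.norm_eq_abs]
  exact abs_le.2 hx

lemma modelf_inv {V : ℝ → ℝ} (hV : AnalyticAt ℝ V 0) (h0 : V 0 = 0) (h1 : deriv V 0 ≠ 0) :
    ∃ h : ℝ → ℝ, AnalyticAt ℝ h 0 ∧ h 0 = 0 ∧ (∀ᶠ y in 𝓝 (0 : ℝ), V (h y) = y) ∧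
      ∀ᶠ x in 𝓝 (0 : ℝ), h (V x) = x := by
  have ha := hV.analyticAt_localInverse h1
  have hl := hV.hasStrictDerivAt.eventually_left_inverse h1
  have hr := hV.hasStrictDerivAt.eventually_right_inverse h1
  have h2 := hl.self_of_nhds
  rw [h0] at ha hr h2
  exact ⟨_, ha, h2, hr, hl⟩

theorem modelS : ModelStmt := by
  intro A B V κ U hB hT hκ hκ0 hV
  have hVa : AnalyticAt ℝ V 0 := (analyticAt_id.mul hκ).congr (hV.mono fun x hx => hx.symm)
  have hV0 : V 0 = 0 := by simpa using hV.self_of_nhds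
  have hV1 : deriv V 0 ≠ 0 := by
    have h1 := ((hasDerivAt_id (0 : ℝ)).mul hκ.differentiableAt.hasDerivAt).congr_of_eventuallyEq hV
    rw [h1.deriv]
    simpa using hκ0.ne
  obtain ⟨h, ha, h0, hr, hl⟩ := modelf_inv hVa hV0 hV1
  have ht : Tendsto h (𝓝 0) (𝓝 0) := by simpa only [ContinuousAt, h0] using ha.continuousAt
  have htV : Tendsto V (𝓝 0) (𝓝 0) := by simpa only [ContinuousAt, hV0] using hVa.continuousAt
  have h1 : ∀ᶠ y in 𝓝 (0 : ℝ), |h y| < 1 := ht.abs.eventually_lt_const (by simp)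
  obtain ⟨d, hd, hall⟩ := modelf_icc (ha.eventually_analyticAt.and (hr.eventually_nhds.and
    (h1.and ((ht.eventually hV).and
      (ht.eventually (hκ.continuousAt.eventually_lt_const hκ0))))))
  refine ⟨fun y => B (h y) * deriv h y, h, d, ⟨hd, ?_, fun n y hy => ?_, fun n y hy => ?_, ?_⟩,
    fun y hy => ?_, ?_⟩
  · exact ((h0.symm ▸ hB : AnalyticAt ℝ B (h 0)).comp ha).mul ha.deriv
  · obtain ⟨e1, e2, -⟩ := hall y hy
    have d1 := e1.differentiableAt.hasDerivAt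
    have d2 := (hT.solV.2 (h y)).comp y d1
    have d3 : HasDerivAt ((fun z => V z ^ 3) ∘ h) (3 * y ^ 2) y := by
      refine HasDerivAt.congr_of_eventuallyEq (f := fun z => z ^ 3) ?_
        (e2.mono fun z hz => by simp [hz])
      simpa using hasDerivAt_pow 3 y
    have d4 := d2.unique d3
    rw [e2.self_of_nhds] at d4
    refine HasDerivAt.congr_deriv (f' := _) (((hT.solU n).2 (h y)).comp y d1) ?_
    linear_combination d4
  · exact (hT.lt n _).trans_eq (hall y hy).2.1.self_of_nhds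
  · exact (hT.unif.comp h).tendstoUniformlyOn.congr_right fun y hy =>
      (hall y hy).2.1.self_of_nhds
  · obtain ⟨-, e2, e3, e4, e5⟩ := hall y hy
    refine ⟨e2.self_of_nhds, e3, fun hy0 => ?_⟩
    rw [e2.self_of_nhds] at e4
    have e6 : h y ≠ 0 := fun h' => hy0 (by rw [e4, h', zero_mul])
    nth_rewrite 1 [e4]
    nlinarith [mul_pos (neg_pos.2 e5) (sq_pos_of_ne_zero e6)]
  · filter_upwards [hVa.eventually_analyticAt, htV.eventually ha.eventually_analyticAt,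
      hl.eventually_nhds] with x e1 e2 e3
    have d1 := e2.differentiableAt.hasDerivAt.comp x e1.differentiableAt.hasDerivAt
    have d2 : HasDerivAt (h ∘ V) 1 x := (hasDerivAt_id x).congr_of_eventuallyEq e3
    rw [e3.self_of_nhds, mul_assoc, d1.unique d2, mul_one]

lemma modelf_ineq {z m L : ℝ} (hz : 0 < z) (hL : 0 ≤ L) (hzL : 7 * (1 + L) * z ≤ 1)
    (hm : 3 - m ≤ L * z ^ 2) : (1 + m) - m * (-2 + z) ^ 2 < (-2 + z + z / 2) * (-2 + z) ^ 2 := by
  have h1 : z ≤ 1 / 7 := by nlinarith [mul_nonneg hL hz.le]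
  have h2 : (3 - m) * (1 - z) ≤ L * z ^ 2 := by
    have := mul_le_mul_of_nonneg_right hm (show 0 ≤ 1 - z by linarith)
    nlinarith [mul_nonneg (mul_nonneg hL (sq_nonneg z)) hz.le]
  have h3 : (3 - z) * (z ^ 2 + (3 - m) * (1 - z)) ≤ 3 * ((1 + L) * z ^ 2) := by
    have := mul_le_mul_of_nonneg_left h2 (show 0 ≤ 3 - z by linarith)
    nlinarith [mul_nonneg (mul_nonneg hL (sq_nonneg z)) hz.le, mul_nonneg (sq_nonneg z) hz.le]
  have h4 : (1 + L) * z ^ 2 ≤ z / 7 := by nlinarith [mul_le_mul_of_nonneg_right hzL hz.le]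
  have h5 : z / 2 * 1 ≤ z / 2 * (-2 + z) ^ 2 :=
    mul_le_mul_of_nonneg_left (by nlinarith) (by linarith)
  nlinarith

theorem barS : BarStmt := by
  intro m d0 u hM
  by_contra hc
  obtain ⟨L, hL, hb⟩ := hM.an.differentiableAt.isBigO_sub.exists_nonneg
  obtain ⟨d1, hd1, h1⟩ := modelf_icc hb.bound
  have hd0 := hM.dpos
  obtain ⟨d, hd, e0, e1, e2⟩ : ∃ d : ℝ, 0 < d ∧ d ≤ d0 ∧ d ≤ d1 ∧ d ≤ (1 / (7 * (1 + L))) ^ 2 :=
    ⟨min d0 (min d1 _), by positivity, min_le_left _ _,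
      (min_le_right _ _).trans (min_le_left _ _), (min_le_right _ _).trans (min_le_right _ _)⟩
  have hs : ∀ x ∈ Icc 0 d, x ∈ Icc (-d0) d0 := fun x hx => ⟨by linarith [hx.1], hx.2.trans e0⟩
  have hz : ∀ x ∈ Icc 0 d, 7 * (1 + L) * √x ≤ 1 := fun x hx => by
    rw [← le_div_iff₀' (by positivity)]
    exact Real.sqrt_le_iff.2 ⟨by positivity, hx.2.trans e2⟩
  have key : ∀ n, u n d ≤ 0 := by
    intro n
    have h0 : u n 0 < 0 := hM.lt n 0 (hs 0 ⟨le_rfl, hd.le⟩)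
    have h2 := pos_of_deriv_pos_at_zeros (f := fun x => (-2 + √x) * x - u n x) (a := 0) (b := d)
      (ContinuousOn.sub (by fun_prop) fun x hx =>
        (continuousAt_of_cube (hM.ode n x (hs x hx)).continuousAt).continuousWithinAt)
      (by simpa using h0.le) (fun x hx hf => by
        have hx0 : 0 < x := hx.1.lt_of_ne fun h' => by
          rw [← h'] at hf; simp at hf; linarith
        have hr := Real.sqrt_pos.2 hx0
        have hsq : x = √x ^ 2 := (Real.sq_sqrt hx.1).symm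
        have hu : u n x = (-2 + √x) * x := by linarith
        have hv : -2 + √x < 0 := by nlinarith [hz x hx, mul_nonneg hL hr.le]
        have hu0 : u n x ≠ 0 := by rw [hu]; exact (mul_neg_of_neg_of_pos hv hx0).ne
        refine ⟨_, (((hasDerivAt_sqrt hx0.ne').const_add (-2)).mul (hasDerivAt_id x)).sub
          (hasDerivAt_of_cube (hM.ode n x (hs x hx)) hu0), ?_⟩
        have h3 := h1 x ⟨by linarith, hx.2.trans e1⟩
        rw [sub_zero, Real.norm_eq_abs, Real.norm_of_nonneg hx.1] at h3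
        have h4 := modelf_ineq (m := m x) hr hL (hz x hx) (by
          rw [← hsq]; linarith [(abs_le.1 h3).1])
        have h5 : 1 / (2 * √x) * x = √x / 2 := by
          nth_rewrite 2 [hsq]; field_simp
        rw [sub_pos, div_lt_iff₀ (by positivity), id, h5, hu]
        nlinarith [mul_lt_mul_of_pos_right h4 (pow_pos hx0 2)]) d ⟨hd, le_rfl⟩
    have hv : -2 + √d < 0 := by
      nlinarith [hz d ⟨hd.le, le_rfl⟩, mul_nonneg hL (Real.sqrt_nonneg d)]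
    nlinarith [mul_neg_of_neg_of_pos hv hd]
  exact absurd (le_of_tendsto' (hM.unif.tendsto_at (hs d ⟨hd.le, le_rfl⟩)) key) (not_le.2 hd)

end Pool.Agent.MP_c2f0e4_an

end

section

open Set Filter Topology Real Asymptotics

namespace Pool.Agent.MP_c2f0e4_an

lemma llder_low {m0 : ℝ} (h1 : -1 < m0) (h2 : m0 < 3) (u ξ : ℝ) :
    (1 + m0) * (3 - m0) / 76 * (ξ ^ 2 + (ξ - u) ^ 2) ≤ Dh m0 u ξ := by
  have k0 : 0 < (1 + m0) * (3 - m0) := mul_pos (by linarith) (by linarith)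
  have k1 : (1 + m0) * (3 - m0) ≤ 4 := by nlinarith [sq_nonneg (m0 - 1)]
  have k2 : ((3 + m0) / 2) ^ 2 ≤ 9 := by nlinarith
  have k3 : (ξ - u) ^ 2 ≤ 18 * ξ ^ 2 + 2 * (u + (1 + m0) * ξ / 2) ^ 2 := by
    nlinarith [sq_nonneg ((3 + m0) / 2 * ξ + (u + (1 + m0) * ξ / 2)),
      mul_le_mul_of_nonneg_right k2 (sq_nonneg ξ)]
  have e : Dh m0 u ξ = (1 + m0) * (3 - m0) / 4 * ξ ^ 2 + (u + (1 + m0) * ξ / 2) ^ 2 := by
    unfold Dh; ring
  rw [e]
  generalize (1 + m0) * (3 - m0) = k at k0 k1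
  nlinarith [mul_le_mul_of_nonneg_left k3 k0.le,
    mul_le_mul_of_nonneg_right k1 (sq_nonneg (u + (1 + m0) * ξ / 2)),
    sq_nonneg (u + (1 + m0) * ξ / 2)]

lemma llder_pos {m0 : ℝ} (h1 : -1 < m0) (h2 : m0 < 3) {u ξ : ℝ} (h : u < ξ) : 0 < Dh m0 u ξ := by
  have k0 : 0 < (1 + m0) * (3 - m0) := mul_pos (by linarith) (by linarith)
  have k1 := pow_pos (sub_pos.2 h) 2
  exact lt_of_lt_of_le (by positivity) (llder_low h1 h2 u ξ)

lemma llder_theta {m0 : ℝ} (h1 : -1 < m0) (h2 : m0 < 3) (w : ℝ) :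
    HasDerivAt (Theta m0) (1 / ((3 + 2 * m0) * w ^ 2 - (3 + m0) * w + 1)) w := by
  have k0 : 0 < (3 - m0) * (1 + m0) := mul_pos (by linarith) (by linarith)
  have k1 := Real.sqrt_pos.2 k0
  have k2 := Real.sq_sqrt k0.le
  unfold Theta
  generalize √((3 - m0) * (1 + m0)) = D at k1 k2
  have k3 : HasDerivAt (fun w : ℝ => (2 * (3 + 2 * m0) * w - (3 + m0)) / D)
      (2 * (3 + 2 * m0) / D) w := by
    simpa using (((hasDerivAt_id w).const_mul (2 * (3 + 2 * m0))).sub_const (3 + m0)).div_const D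
  have k4 : D ^ 2 + (2 * (3 + 2 * m0) * w - (3 + m0)) ^ 2 =
      4 * (3 + 2 * m0) * ((3 + 2 * m0) * w ^ 2 - (3 + m0) * w + 1) := by rw [k2]; ring
  have k5 : 0 < 3 + 2 * m0 := by linarith
  have k6 : (3 + 2 * m0) * w ^ 2 - (3 + m0) * w + 1 ≠ 0 := fun k => by
    rw [k] at k4
    nlinarith [sq_nonneg (2 * (3 + 2 * m0) * w - (3 + m0)), pow_pos k1 2]
  refine (k3.arctan.const_mul (2 / D)).congr_deriv ?_
  generalize (3 + 2 * m0) * w ^ 2 - (3 + m0) * w + 1 = E at k4 k6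
  generalize 2 * (3 + 2 * m0) * w - (3 + m0) = z at k4
  field_simp
  linear_combination -k4

lemma llder_dh (m0 : ℝ) {u : ℝ → ℝ} {u' ξ : ℝ} (h : HasDerivAt u u' ξ) :
    HasDerivAt (fun y => Dh m0 (u y) y)
      (2 * u ξ * u' + (1 + m0) * (u ξ + ξ) + (1 + m0) * ξ * (u' + 1)) ξ := by
  unfold Dh
  refine ((h.pow 2).add (((hasDerivAt_id ξ).const_mul (1 + m0)).mul
    (h.add (hasDerivAt_id ξ)))).congr_deriv ?_
  simp only [id, Pi.add_apply]
  push_cast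
  ring

theorem llderS : LLderStmt := by
  intro m0 h1 h2
  refine ⟨⟨(1 + m0) * (3 - m0) / 76, 12, div_pos (mul_pos (by linarith) (by linarith)) (by norm_num),
    fun u ξ => ⟨llder_low h1 h2 u ξ, ?_⟩⟩, ?_, fun u u' ξ m hu hlt h0 he => ?_⟩
  · unfold Dh
    nlinarith [mul_nonneg (show 0 ≤ 3 - m0 by linarith) (sq_nonneg (2 * ξ + u)),
      mul_nonneg (show 0 ≤ 1 + m0 by linarith) (sq_nonneg (ξ - u)),
      mul_nonneg (show 0 ≤ 3 - m0 by linarith) (sq_nonneg ξ),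
      mul_nonneg (show 0 ≤ 3 - m0 by linarith) (sq_nonneg (ξ + u)),
      mul_nonneg (show 0 ≤ 1 + m0 by linarith) (sq_nonneg (2 * ξ - u)),
      sq_nonneg (3 * ξ - 2 * u), sq_nonneg (2 * ξ - u), sq_nonneg (ξ - u), sq_nonneg ξ]
  · have c1 : Continuous (Theta m0) :=
      continuous_iff_continuousAt.2 fun w => (llder_theta h1 h2 w).continuousAt
    have c2 : Continuous fun p : ℝ × ℝ => Dh m0 p.1 p.2 := by unfold Dh; fun_prop
    have c3 : Continuous fun p : ℝ × ℝ => p.2 - p.1 := by fun_prop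
    unfold LL
    exact ((continuousOn_const.mul (c3.continuousOn.log fun p hp => (sub_pos.2 hp).ne')).add
      (continuousOn_const.mul (c2.continuousOn.log fun p hp => (llder_pos h1 h2 hp).ne'))).sub
      (continuousOn_const.mul (c1.comp_continuousOn
        (continuous_snd.continuousOn.div c3.continuousOn fun p hp => (sub_pos.2 hp).ne')))
  · have s0 : ξ - u ξ ≠ 0 := (sub_pos.2 hlt).ne'
    have d0 := (llder_pos h1 h2 hlt).ne'
    have n0 : 3 + 2 * m0 ≠ 0 := by linarith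
    have k1 : HasDerivAt (fun y => y - u y) (1 - u') ξ := (hasDerivAt_id ξ).sub hu
    have k2 := (llder_theta h1 h2 (ξ / (ξ - u ξ))).comp ξ ((hasDerivAt_id' ξ).div k1 s0)
    have k3 : (3 + 2 * m0) * (ξ / (ξ - u ξ)) ^ 2 - (3 + m0) * (ξ / (ξ - u ξ)) + 1 =
        Dh m0 (u ξ) ξ / (ξ - u ξ) ^ 2 := by
      unfold Dh; field_simp; ring
    rw [k3] at k2
    unfold LL
    refine ((((k1.log s0).const_mul _).add (((llder_dh m0 hu).log d0).const_mul _)).sub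
      (k2.const_mul _)).congr_deriv ?_
    have e : u' = ((1 + m) * ξ ^ 2 - m * u ξ ^ 2) / u ξ ^ 2 := by rw [← he]; field_simp
    have e2 : Dh m0 (u ξ) ξ = u ξ ^ 2 + (1 + m0) * ξ * (u ξ + ξ) := rfl
    rw [e]
    field_simp
    rw [e2]
    ring

theorem pi2S : Pi2Stmt := by
  intro m0 u u' ξ m h1 h2 d0 hu h0 he
  have n0 : 3 + 2 * m0 ≠ 0 := by linarith
  have n1 : 1 + m0 ≠ 0 := by linarith
  have n2 : 1 + 2 * m0 ≠ 0 := fun k => h2 (by linarith)
  have n3 : 10 + 9 * m0 ≠ 0 := by linarith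
  have n4 : 3 + m0 * 2 ≠ 0 := by linarith
  have n5 : 1 + m0 * 2 ≠ 0 := fun k => h2 (by linarith)
  have n6 : 10 + m0 * 9 ≠ 0 := by linarith
  have i := hasDerivAt_id' ξ
  have k1 := (hu.sub i).mul (((((i.pow 3).const_mul ((1 + m0) * (4 + 5 * m0))).add
    ((hu.const_mul (2 * (1 + m0) * (4 + 5 * m0))).mul (i.pow 2))).add
    (((hu.pow 2).const_mul ((4 + 5 * m0) * (3 + 2 * m0))).mul i)).add
    ((hu.pow 3).const_mul ((2 + m0) * (3 + 2 * m0))))
  have k2 := (llder_dh m0 hu).const_mul ((1 + m0) * (3 + 2 * m0) * (1 + 2 * m0) * (10 + 9 * m0))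
  unfold Pi2 Gam2
  refine (k1.div k2 (mul_ne_zero (by positivity) d0)).congr_deriv ?_
  have e : u' = ((1 + m) * ξ ^ 2 - m * u ξ ^ 2) / u ξ ^ 2 := by rw [← he]; field_simp
  have e2 : Dh m0 (u ξ) ξ = u ξ ^ 2 + (1 + m0) * ξ * (u ξ + ξ) := rfl
  simp only [Pi.add_apply, Pi.mul_apply, Pi.sub_apply, Pi.pow_apply]
  rw [e]
  push_cast
  field_simp
  rw [e2]
  ring

end Pool.Agent.MP_c2f0e4_an

end

section

open Set Filter Topology Real Asymptotics

namespace Pool.Agent.MP_c2f0e4_an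

lemma llbd_dslope {f : ℝ → ℝ} (h : AnalyticAt ℝ f 0) : AnalyticAt ℝ (dslope f 0) 0 := by
  obtain ⟨p, hp⟩ := h
  exact ⟨_, hp.has_fpower_series_dslope_fslope⟩

lemma llbd_eq (f : ℝ → ℝ) (s : ℝ) : f s = f 0 + s * dslope f 0 s := by
  have := sub_smul_dslope f 0 s
  simp only [sub_zero, smul_eq_mul] at this
  linarith

lemma llbd_taylor {f : ℝ → ℝ} (h : AnalyticAt ℝ f 0) :
    ∃ c0 c1 C : ℝ, ∀ᶠ s in 𝓝 (0 : ℝ), |f s - c0 - c1 * s| ≤ C * s ^ 2 := by
  have h2 := (llbd_dslope (llbd_dslope h)).continuousAt.abs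
  set r := dslope (dslope f 0) 0 with hr
  refine ⟨f 0, dslope f 0 0, |r 0| + 1, ?_⟩
  filter_upwards [h2.eventually (gt_mem_nhds (lt_add_one _))] with s hs
  have e1 := llbd_eq f s
  have e2 := llbd_eq (dslope f 0) s
  have e : f s - f 0 - dslope f 0 0 * s = r s * s ^ 2 := by
    rw [e1, e2]
    ring
  rw [e, abs_mul, abs_of_nonneg (sq_nonneg s)]
  exact mul_le_mul_of_nonneg_right hs.le (sq_nonneg s)

lemma llbd_arctan {f : ℝ → ℝ} (h : AnalyticAt ℝ f 0) :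
    AnalyticAt ℝ (fun s => arctan (f s)) 0 :=
  (Real.contDiff_arctan.contDiffAt.analyticAt).comp h

theorem llbdS : LLbdStmt := by
  intro m0 d Φ hm1 hm3 hd hΦ h0 hder
  set ν := 3 + 2 * m0 with hν
  set R := √((3 - m0) * (1 + m0)) with hR
  have hν0 : 0 < ν := by rw [hν]; linarith
  have hR0 : 0 < R := Real.sqrt_pos.2 (mul_pos (by linarith) (by linarith))
  have hνd : 0 < ν * d := mul_pos hν0 hd
  set g := dslope Φ 0 with hg
  have ga : AnalyticAt ℝ g 0 := llbd_dslope hΦ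
  have g0 : 0 < g 0 := by rwa [hg, dslope_same]
  have hΦg : ∀ s, Φ s = s * g s := fun s => by
    have := llbd_eq Φ s
    rwa [h0, zero_add] at this
  have a1 : AnalyticAt ℝ (fun s => Real.log (g s)) 0 := ga.log g0
  have a2 : AnalyticAt ℝ (fun s => Real.log (Dh m0 (d - Φ s) d)) 0 := by
    refine AnalyticAt.log (by unfold Dh; fun_prop) ?_
    simp only [Dh, h0]
    nlinarith [mul_pos hνd hd]
  have a3 : AnalyticAt ℝ (fun s => Real.log (Dh m0 (-d - s) (-d))) 0 := by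
    refine AnalyticAt.log (by unfold Dh; fun_prop) ?_
    simp only [Dh]
    nlinarith [mul_pos hνd hd]
  have b1 : AnalyticAt ℝ (fun s => 2 * ν * d - (3 + m0) * Φ s) 0 := by fun_prop
  have b2 : AnalyticAt ℝ (fun s => -(2 * ν * d) - (3 + m0) * s) 0 := by fun_prop
  have c1 : 0 < 2 * ν * d - (3 + m0) * Φ 0 := by rw [h0]; linarith
  have c2 : -(2 * ν * d) - (3 + m0) * 0 < 0 := by linarith
  have a4 : AnalyticAt ℝ (fun s => arctan (R * Φ s / (2 * ν * d - (3 + m0) * Φ s))) 0 :=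
    llbd_arctan ((analyticAt_const.mul hΦ).div b1 c1.ne')
  have a5 : AnalyticAt ℝ (fun s => arctan (R * s / (-(2 * ν * d) - (3 + m0) * s))) 0 :=
    llbd_arctan ((analyticAt_const.mul analyticAt_id).div b2 c2.ne)
  have ha : AnalyticAt ℝ (fun s => 1 / ν * Real.log (g s)
      + (1 + m0) / ν * (Real.log (Dh m0 (d - Φ s) d) - Real.log (Dh m0 (-d - s) (-d)))
      - (1 + m0) * m0 / ν * (2 / R * (π - arctan (R * Φ s / (2 * ν * d - (3 + m0) * Φ s))
        + arctan (R * s / (-(2 * ν * d) - (3 + m0) * s))))) 0 :=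
    ((analyticAt_const.mul a1).add (analyticAt_const.mul (a2.sub a3))).sub
      (analyticAt_const.mul (analyticAt_const.mul ((analyticAt_const.sub a4).add a5)))
  obtain ⟨k0, k1, C, hC⟩ := llbd_taylor ha
  refine ⟨k0, k1, C, ?_⟩
  have e1 := ga.continuousAt.eventually (lt_mem_nhds g0)
  have e2 := b1.continuousAt.eventually (lt_mem_nhds c1)
  have e3 := b2.continuousAt.eventually (gt_mem_nhds c2)
  filter_upwards [nhdsWithin_le_nhds hC, nhdsWithin_le_nhds e1, nhdsWithin_le_nhds e2,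
    nhdsWithin_le_nhds e3, self_mem_nhdsWithin] with s s0 s1 s2 s3 hs
  have hs : 0 < s := hs
  have s1 : 0 < g s := s1
  have s2 : 0 < 2 * ν * d - (3 + m0) * Φ s := s2
  have s3 : -(2 * ν * d) - (3 + m0) * s < 0 := s3
  have hp : 0 < Φ s := by rw [hΦg]; exact mul_pos hs s1
  have l1 : Real.log (Φ s) = Real.log s + Real.log (g s) := by
    rw [hΦg, Real.log_mul hs.ne' s1.ne']
  have y1 : (2 * ν * (d / Φ s) - (3 + m0)) / R =
      (R * Φ s / (2 * ν * d - (3 + m0) * Φ s))⁻¹ := by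
    rw [inv_div]
    field_simp
  have y2 : (2 * ν * (-d / s) - (3 + m0)) / R =
      (R * s / (-(2 * ν * d) - (3 + m0) * s))⁻¹ := by
    rw [inv_div]
    field_simp
  have t1 := arctan_inv_of_pos (div_pos (mul_pos hR0 hp) s2)
  have t2 := arctan_inv_of_neg (div_neg_of_pos_of_neg (mul_pos hR0 hs) s3)
  have r1 : d - (d - Φ s) = Φ s := by ring
  have r2 : -d - (-d - s) = s := by ring
  refine le_of_eq_of_le (congrArg abs ?_) s0
  simp only [LL, Theta, r1, r2, ← hν, ← hR, y1, y2, t1, t2, l1]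
  ring

end Pool.Agent.MP_c2f0e4_an

end

section

open Set Filter Topology Real Asymptotics

namespace Pool.Agent.MP_c2f0e4_an

/-- the cubic form left after removing the diagonal value of `Gam2 * (u + ξ)` -/
def j2cP (m0 ξ s : ℝ) : ℝ :=
  (90 + 291 * m0 + 229 * m0 ^ 2 - 4 * m0 ^ 3 - 36 * m0 ^ 4) * ξ ^ 3
    + (-180 - 504 * m0 - 346 * m0 ^ 2 + 10 * m0 ^ 3 + 42 * m0 ^ 4) * ξ ^ 2 * s
    + (108 + 261 * m0 + 137 * m0 ^ 2 - 20 * m0 ^ 3 - 12 * m0 ^ 4) * ξ * s ^ 2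
    + (-24 - 48 * m0 - 14 * m0 ^ 2 + 8 * m0 ^ 3) * s ^ 3

noncomputable def j2cK (m0 : ℝ) : ℝ :=
  (1 + m0) * (1 + 2 * m0) * (10 + 9 * m0) * (3 + 2 * m0) ^ 2

noncomputable def j2cE (m0 μ ξ r mt : ℝ) : ℝ :=
  -(3 / (3 + 2 * m0) ^ 2) * r + 6 / ((1 + 2 * m0) * (3 + 2 * m0) ^ 2) * μ * ξ * mt

noncomputable def j2cT (m0 μ ξ u r mt th th' : ℝ) : ℝ :=
  -(r / (3 + 2 * m0) ^ 2) * (ξ * ((3 - m0) * ξ - 3 * (ξ - u)) / Dh m0 u ξ)
    + μ * mt / j2cK m0 * (ξ ^ 2 * j2cP m0 ξ (ξ - u) / Dh m0 u ξ ^ 2)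
    + (3 * (m0 + ξ * (ξ * mt)) * th - 3 * ξ * th' + (ξ - u) * th')

lemma j2c_h1 {m0 ξ u : ℝ} (h1 : -1 < m0) (hD : Dh m0 u ξ ≠ 0) :
    ξ * (2 * u + ξ) / ((3 + 2 * m0) * Dh m0 u ξ) = 3 / (3 + 2 * m0) ^ 2
      + (ξ - u) * (((3 - m0) * ξ - 3 * (ξ - u)) / Dh m0 u ξ) / (3 + 2 * m0) ^ 2 := by
  have hν : (3 + 2 * m0) ≠ 0 := by linarith
  field_simp
  unfold Dh
  ring

lemma j2c_h2 {m0 ξ u : ℝ} (h1 : -1 < m0) (h2 : m0 < -1 / 2) (hD : Dh m0 u ξ ≠ 0) :
    Gam2 m0 u ξ * (u + ξ) = 6 / ((1 + 2 * m0) * (3 + 2 * m0) ^ 2)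
      + (ξ - u) * (j2cP m0 ξ (ξ - u) / Dh m0 u ξ ^ 2) / j2cK m0 := by
  have hν : (3 + 2 * m0) ≠ 0 := by linarith
  have ha : (1 + m0) ≠ 0 := by linarith
  have hb : (1 + 2 * m0) ≠ 0 := by linarith
  have hc : (10 + 9 * m0) ≠ 0 := by linarith
  have key : (3 + 2 * m0) ^ 2 * ((6 * (1 + m0) * (1 + 2 * m0) * ξ ^ 3 + 12 * (1 + m0) ^ 2 * u * ξ ^ 2
      + (8 + 13 * m0 + 3 * m0 ^ 2) * u ^ 2 * ξ + 2 * (2 + m0) * u ^ 3) * (u + ξ))
      = 6 * (1 + m0) * (10 + 9 * m0) * Dh m0 u ξ ^ 2 + (ξ - u) * j2cP m0 ξ (ξ - u) := by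
    unfold Dh j2cP
    ring
  unfold Gam2 j2cK
  generalize (6 * (1 + m0) * (1 + 2 * m0) * ξ ^ 3 + 12 * (1 + m0) ^ 2 * u * ξ ^ 2
      + (8 + 13 * m0 + 3 * m0 ^ 2) * u ^ 2 * ξ + 2 * (2 + m0) * u ^ 3) = N at key ⊢
  generalize j2cP m0 ξ (ξ - u) = P at key ⊢
  generalize Dh m0 u ξ = D at key hD ⊢
  generalize 3 + 2 * m0 = ν at key hν ⊢
  generalize 1 + 2 * m0 = b at key hb ⊢
  generalize 10 + 9 * m0 = c at key hc ⊢
  generalize 1 + m0 = a at key ha ⊢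
  field_simp
  linear_combination key

/-- the derivative of the fully corrected first integral -/
lemma j2c_alg {m0 μ ξ u r mt th th' : ℝ} (h1 : -1 < m0) (h2 : m0 < -1 / 2) (hD : Dh m0 u ξ ≠ 0)
    (hmt : mt = μ + ξ * r)
    (hth : ξ * th' + -2 * m0 * th = 2 * ξ ^ 2 * mt * th - j2cE m0 μ ξ r mt / 3) :
    -(ξ * mt) * (ξ - u) * (2 * u + ξ) / ((3 + 2 * m0) * Dh m0 u ξ)
      + μ * (ξ * (ξ - u) * (2 * u + ξ) / ((3 + 2 * m0) * Dh m0 u ξ)
        + 3 * m0 / ((1 + 2 * m0) * (10 + 9 * m0)) * (ξ - u) ^ 3 / Dh m0 u ξ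
        + (m0 + ξ * (ξ * mt) - m0) * Gam2 m0 u ξ * (ξ ^ 2 - u ^ 2))
      + ((3 * ξ ^ 2 - 3 * ((1 + (m0 + ξ * (ξ * mt))) * ξ ^ 2 - (m0 + ξ * (ξ * mt)) * u ^ 2)) * th
        + (ξ ^ 3 - u ^ 3) * th')
    = μ * (3 * m0 / ((1 + 2 * m0) * (10 + 9 * m0))) * ((ξ - u) ^ 3 / Dh m0 u ξ)
      + (ξ - u) ^ 2 * j2cT m0 μ ξ u r mt th th' := by
  have e1 := j2c_h1 h1 hD
  have e2 := j2c_h2 h1 h2 hD
  unfold j2cE at hth
  unfold j2cT
  have e3 : -(ξ * mt) * (ξ - u) * (2 * u + ξ) / ((3 + 2 * m0) * Dh m0 u ξ)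
      = -mt * (ξ - u) * (ξ * (2 * u + ξ) / ((3 + 2 * m0) * Dh m0 u ξ)) := by ring
  have e4 : ξ * (ξ - u) * (2 * u + ξ) / ((3 + 2 * m0) * Dh m0 u ξ)
      = (ξ - u) * (ξ * (2 * u + ξ) / ((3 + 2 * m0) * Dh m0 u ξ)) := by ring
  have e5 : (m0 + ξ * (ξ * mt) - m0) * Gam2 m0 u ξ * (ξ ^ 2 - u ^ 2)
      = ξ ^ 2 * mt * (ξ - u) * (Gam2 m0 u ξ * (u + ξ)) := by ring
  have e6 : ξ * ((3 - m0) * ξ - 3 * (ξ - u)) / Dh m0 u ξ
      = ξ * (((3 - m0) * ξ - 3 * (ξ - u)) / Dh m0 u ξ) := by ring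
  have e7 : ξ ^ 2 * j2cP m0 ξ (ξ - u) / Dh m0 u ξ ^ 2
      = ξ ^ 2 * (j2cP m0 ξ (ξ - u) / Dh m0 u ξ ^ 2) := by ring
  have e8 : 3 * m0 / ((1 + 2 * m0) * (10 + 9 * m0)) * (ξ - u) ^ 3 / Dh m0 u ξ
      = 3 * m0 / ((1 + 2 * m0) * (10 + 9 * m0)) * ((ξ - u) ^ 3 / Dh m0 u ξ) := by ring
  rw [e3, e4, e5, e6, e7, e8, e1, e2]
  generalize ((3 - m0) * ξ - 3 * (ξ - u)) / Dh m0 u ξ = a1
  generalize j2cP m0 ξ (ξ - u) / Dh m0 u ξ ^ 2 = a2
  generalize (ξ - u) ^ 3 / Dh m0 u ξ = a3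
  generalize 3 * m0 / ((1 + 2 * m0) * (10 + 9 * m0)) = c2
  generalize 6 / ((1 + 2 * m0) * (3 + 2 * m0) ^ 2) = g at hth ⊢
  have e9 : r / (3 + 2 * m0) ^ 2 = r * ((3 + 2 * m0) ^ 2)⁻¹ := div_eq_mul_inv _ _
  have e10 : 3 / (3 + 2 * m0) ^ 2 = 3 * ((3 + 2 * m0) ^ 2)⁻¹ := div_eq_mul_inv _ _
  rw [e10] at hth
  simp only [div_eq_mul_inv] at *
  generalize ((3 + 2 * m0) ^ 2)⁻¹ = w at *
  generalize (j2cK m0)⁻¹ = k at *
  have e11 : μ = mt - ξ * r := by linarith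
  linear_combination (3 * ξ * (ξ - u)) * hth - ((ξ - u) * (3 * w + (ξ - u) * a1 * w)) * hmt

lemma j2c_q1 {m0 ξ s : ℝ} (h1 : -1 < m0) (h2 : m0 < -1 / 2) :
    |ξ * ((3 - m0) * ξ - 3 * s)| ≤ 7 * (ξ ^ 2 + s ^ 2) := by
  rw [abs_le]
  constructor <;> nlinarith [sq_nonneg (ξ - s), sq_nonneg (ξ + s), sq_nonneg ξ, sq_nonneg s,
    mul_nonneg (show 0 ≤ 1 + m0 by linarith) (sq_nonneg ξ),
    mul_nonneg (show 0 ≤ -m0 by linarith) (sq_nonneg ξ)]

lemma j2c_q2 (p0 p1 p2 p3 : ℝ) {ξ s : ℝ} (h1 : |ξ| ≤ 1) (h2 : |s| ≤ 1) :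
    |ξ ^ 2 * (p0 * ξ ^ 3 + p1 * ξ ^ 2 * s + p2 * ξ * s ^ 2 + p3 * s ^ 3)|
      ≤ (|p0| + |p1| + |p2| + |p3|) * (ξ ^ 2 + s ^ 2) ^ 2 := by
  have a1 : ξ ^ 4 ≤ (ξ ^ 2 + s ^ 2) ^ 2 := by nlinarith [sq_nonneg (ξ * s), sq_nonneg (s ^ 2)]
  have a2 : ξ ^ 2 * s ^ 2 ≤ (ξ ^ 2 + s ^ 2) ^ 2 := by
    nlinarith [sq_nonneg (ξ * s), sq_nonneg (s ^ 2), sq_nonneg (ξ ^ 2)]
  have key : ∀ p x y : ℝ, |x| ≤ 1 → 0 ≤ y → y ≤ (ξ ^ 2 + s ^ 2) ^ 2 →
      |p * x * y| ≤ |p| * (ξ ^ 2 + s ^ 2) ^ 2 := by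
    intro p x y hx hy hy'
    rw [abs_mul, abs_mul, abs_of_nonneg hy, mul_assoc]
    refine mul_le_mul_of_nonneg_left ?_ (abs_nonneg p)
    calc |x| * y ≤ 1 * y := mul_le_mul_of_nonneg_right hx hy
      _ ≤ _ := by linarith
  have b0 := key p0 ξ (ξ ^ 4) h1 (by positivity) a1
  have b1 := key p1 s (ξ ^ 4) h2 (by positivity) a1
  have b2 := key p2 ξ (ξ ^ 2 * s ^ 2) h1 (by positivity) a2
  have b3 := key p3 s (ξ ^ 2 * s ^ 2) h2 (by positivity) a2
  have e : ξ ^ 2 * (p0 * ξ ^ 3 + p1 * ξ ^ 2 * s + p2 * ξ * s ^ 2 + p3 * s ^ 3)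
      = p0 * ξ * ξ ^ 4 + p1 * s * ξ ^ 4 + p2 * ξ * (ξ ^ 2 * s ^ 2)
        + p3 * s * (ξ ^ 2 * s ^ 2) := by ring
  rw [e]
  have t1 := abs_add_le (p0 * ξ * ξ ^ 4 + p1 * s * ξ ^ 4 + p2 * ξ * (ξ ^ 2 * s ^ 2))
    (p3 * s * (ξ ^ 2 * s ^ 2))
  have t2 := abs_add_le (p0 * ξ * ξ ^ 4 + p1 * s * ξ ^ 4) (p2 * ξ * (ξ ^ 2 * s ^ 2))
  have t3 := abs_add_le (p0 * ξ * ξ ^ 4) (p1 * s * ξ ^ 4)
  nlinarith

lemma j2c_div_bd {a D Q c L : ℝ} (hc : 0 < c) (hQ : 0 < Q) (hD : c * Q ≤ D) (ha : |a| ≤ L * Q) :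
    |a / D| ≤ L / c := by
  have hD0 : 0 < D := (mul_pos hc hQ).trans_le hD
  have hL : 0 ≤ L := by
    by_contra h
    push Not at h
    have := mul_neg_of_neg_of_pos h hQ
    linarith [abs_nonneg a]
  rw [abs_div, abs_of_pos hD0, div_le_div_iff₀ hD0 hc]
  nlinarith [mul_le_mul_of_nonneg_left hD hL]

/-- uniform bound for the remainder -/
lemma j2c_Tbd {m0 c : ℝ} {M : ℝ} (hM : 0 ≤ M) (h1 : -1 < m0) (h2 : m0 < -1 / 2) (hc : 0 < c)
    (hDh : ∀ u ξ : ℝ, c * (ξ ^ 2 + (ξ - u) ^ 2) ≤ Dh m0 u ξ) :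
    ∃ B : ℝ, 0 < B ∧ ∀ μ ξ u r mt th th' : ℝ, |ξ| ≤ 1 → u < ξ → ξ - u ≤ 1 → |μ| ≤ M → |r| ≤ M →
      |mt| ≤ M → |th| ≤ M → |th'| ≤ M → |j2cT m0 μ ξ u r mt th th'| ≤ B := by
  obtain ⟨L, hL0, hL⟩ : ∃ L : ℝ, 0 ≤ L ∧ ∀ ξ s : ℝ, |ξ| ≤ 1 → |s| ≤ 1 →
      |ξ ^ 2 * j2cP m0 ξ s| ≤ L * (ξ ^ 2 + s ^ 2) ^ 2 :=
    ⟨_, by positivity, fun ξ s h1 h2 => j2c_q2 _ _ _ _ h1 h2⟩
  refine ⟨M * (7 / c) + M * M / |j2cK m0| * (L / c ^ 2) + (3 * (1 + M) * M + 4 * M) + 1,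
    by positivity, ?_⟩
  intro μ ξ u r mt th th' hξ hu hs hμ hr hmt hth hth'
  have hs0 : 0 < ξ - u := by linarith
  have hQ : 0 < ξ ^ 2 + (ξ - u) ^ 2 := by positivity
  have hs' : |ξ - u| ≤ 1 := by rw [abs_of_pos hs0]; exact hs
  have b1 : |ξ * ((3 - m0) * ξ - 3 * (ξ - u)) / Dh m0 u ξ| ≤ 7 / c :=
    j2c_div_bd hc hQ (hDh u ξ) (j2c_q1 h1 h2)
  have b2 : |ξ ^ 2 * j2cP m0 ξ (ξ - u) / Dh m0 u ξ ^ 2| ≤ L / c ^ 2 := by
    refine j2c_div_bd (Q := (ξ ^ 2 + (ξ - u) ^ 2) ^ 2) (by positivity) (by positivity) ?_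
      (hL _ _ hξ hs')
    rw [← mul_pow]
    exact pow_le_pow_left₀ (by positivity) (hDh u ξ) 2
  have c1 : |-(r / (3 + 2 * m0) ^ 2)| ≤ M := by
    rw [abs_neg, abs_div, abs_of_pos (show 0 < (3 + 2 * m0) ^ 2 by nlinarith)]
    refine (div_le_self (abs_nonneg r) (by nlinarith)).trans hr
  have c2 : |μ * mt / j2cK m0| ≤ M * M / |j2cK m0| := by
    rw [abs_div, abs_mul]
    gcongr
  have d1 : |-(r / (3 + 2 * m0) ^ 2) * (ξ * ((3 - m0) * ξ - 3 * (ξ - u)) / Dh m0 u ξ)|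
      ≤ M * (7 / c) := by
    rw [abs_mul]; gcongr
  have d2 : |μ * mt / j2cK m0 * (ξ ^ 2 * j2cP m0 ξ (ξ - u) / Dh m0 u ξ ^ 2)|
      ≤ M * M / |j2cK m0| * (L / c ^ 2) := by
    rw [abs_mul]
    gcongr
  have c3 : |m0 + ξ * (ξ * mt)| ≤ 1 + M := by
    have t1 := abs_add_le m0 (ξ * (ξ * mt))
    have t2 : |m0| ≤ 1 := by rw [abs_le]; constructor <;> linarith
    have t3 : |ξ * (ξ * mt)| ≤ 1 * (1 * M) := by
      rw [abs_mul, abs_mul]
      gcongr
    linarith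
  have d3 : |3 * (m0 + ξ * (ξ * mt)) * th| ≤ 3 * (1 + M) * M := by
    rw [abs_mul, abs_mul, abs_of_pos (show (0 : ℝ) < 3 by norm_num)]
    gcongr
  have d4 : |3 * ξ * th'| ≤ 3 * 1 * M := by
    rw [abs_mul, abs_mul, abs_of_pos (show (0 : ℝ) < 3 by norm_num)]
    gcongr
  have d5 : |(ξ - u) * th'| ≤ 1 * M := by
    rw [abs_mul]
    gcongr
  unfold j2cT
  rw [abs_le] at d1 d2 d3 d4 d5 ⊢
  constructor <;> linarith [d1.1, d1.2, d2.1, d2.2, d3.1, d3.2, d4.1, d4.2, d5.1, d5.2]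

end Pool.Agent.MP_c2f0e4_an

end

section

open Set Filter Topology Real Asymptotics

namespace Pool.Agent.MP_c2f0e4_an

lemma j2c_dslope {f : ℝ → ℝ} (hf : AnalyticAt ℝ f 0) : AnalyticAt ℝ (dslope f 0) 0 := by
  obtain ⟨p, hp⟩ := hf
  exact ⟨_, hp.has_fpower_series_dslope_fslope⟩

lemma j2c_dslope_eq (f : ℝ → ℝ) (x : ℝ) : f x = f 0 + x * dslope f 0 x := by
  have := sub_smul_dslope f 0 x
  rw [sub_zero, smul_eq_mul] at this
  linarith

lemma j2c_bd {f : ℝ → ℝ} (hf : AnalyticAt ℝ f 0) : ∀ᶠ x in 𝓝 (0 : ℝ), |f x| ≤ |f 0| + 1 := by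
  have h1 : ContinuousAt (fun x => |f x|) 0 := hf.continuousAt.abs
  exact h1.eventually (ge_mem_nhds (by simp))

lemma j2c_taylor {F : ℝ → ℝ} (hF : AnalyticAt ℝ F 0) (h0 : F 0 = 0) :
    ∃ c C : ℝ, ∀ᶠ s in 𝓝 (0 : ℝ), |F s - c * s| ≤ C * s ^ 2 := by
  have h2 := j2c_dslope (j2c_dslope hF)
  refine ⟨dslope F 0 0, |dslope (dslope F 0) 0 0| + 1, ?_⟩
  filter_upwards [j2c_bd h2] with s hs
  have e : F s - dslope F 0 0 * s = dslope (dslope F 0) 0 s * s ^ 2 := by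
    rw [j2c_dslope_eq F s, h0, j2c_dslope_eq (dslope F 0) s]; ring
  rw [e, abs_mul, abs_of_nonneg (sq_nonneg s)]
  exact mul_le_mul_of_nonneg_right hs (sq_nonneg s)

lemma j2c_up {f : ℝ → ℝ} {S : Set ℝ} (hS : S.Finite) {d s0 A : ℝ} (hd : 0 < d) (hs : 0 < s0)
    (hA : 0 ≤ A) (hf : ContinuousOn f (Icc (-d) d))
    (hder : ∀ ξ ∈ Ioo (-d) d, ξ ∉ S → ∃ f', HasDerivAt f f' ξ ∧
      f' ≤ A * (s0 ^ 3 / (ξ ^ 2 + s0 ^ 2)) + A * s0 ^ 2) :
    f d - f (-d) ≤ A * (π + 2 * d) * s0 ^ 2 := by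
  have hc : Continuous fun ξ : ℝ => A * s0 ^ 2 * arctan (ξ / s0) :=
    continuous_const.mul (continuous_arctan.comp (continuous_id.div_const _))
  have h := sub_le_of_deriv_le (f := fun ξ => f ξ - A * s0 ^ 2 * arctan (ξ / s0))
    (c := A * s0 ^ 2) hS (show -d ≤ d by linarith) (hf.sub hc.continuousOn) (by
      intro ξ hξ hξS
      obtain ⟨f', h1, h2⟩ := hder ξ hξ hξS
      have h3 : HasDerivAt (fun ξ : ℝ => A * s0 ^ 2 * arctan (ξ / s0))
          (A * s0 ^ 2 * (1 / (1 + (ξ / s0) ^ 2) * (1 / s0))) ξ :=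
        (((hasDerivAt_id' ξ).div_const s0).arctan).const_mul _
      refine ⟨_, h1.sub h3, ?_⟩
      have e : A * s0 ^ 2 * (1 / (1 + (ξ / s0) ^ 2) * (1 / s0))
          = A * (s0 ^ 3 / (ξ ^ 2 + s0 ^ 2)) := by
        field_simp
        ring
      rw [e]; linarith)
  have a1 := arctan_lt_pi_div_two (d / s0)
  have a2 := neg_pi_div_two_lt_arctan (-d / s0)
  have a3 : 0 ≤ A * s0 ^ 2 := by positivity
  have a4 : A * s0 ^ 2 * (arctan (d / s0) - arctan (-d / s0)) ≤ A * s0 ^ 2 * π :=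
    mul_le_mul_of_nonneg_left (by linarith) a3
  nlinarith

lemma j2c_low {f : ℝ → ℝ} {S : Set ℝ} (hS : S.Finite) {d η s0 c B B' : ℝ} (hs : 0 < s0)
    (h1 : s0 ≤ η) (h2 : η ≤ d) (hB' : 0 ≤ B') (hf : ContinuousOn f (Icc (-d) d))
    (hder : ∀ ξ ∈ Ioo (-d) d, ξ ∉ S → ∃ f', HasDerivAt f f' ξ ∧ -B ≤ f' ∧
      (|ξ| ≤ s0 → c - B ≤ f') ∧ (η ≤ |ξ| → -B' ≤ f')) :
    2 * c * s0 - 2 * η * B - 2 * d * B' ≤ f d - f (-d) := by
  have key : ∀ a b k : ℝ, -d ≤ a → a ≤ b → b ≤ d →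
      (∀ ξ ∈ Ioo a b, ∀ f', -B ≤ f' → (|ξ| ≤ s0 → c - B ≤ f') → (η ≤ |ξ| → -B' ≤ f') → k ≤ f') →
      k * (b - a) ≤ f b - f a := by
    intro a b k ha hab hb hk
    refine le_sub_of_le_deriv hS hab (hf.mono (Icc_subset_Icc ha hb)) ?_
    intro ξ hξ hξS
    obtain ⟨f', e1, e2, e3, e4⟩ := hder ξ ⟨ha.trans_lt hξ.1, hξ.2.trans_le hb⟩ hξS
    exact ⟨f', e1, hk ξ hξ f' e2 e3 e4⟩
  have p1 := key (-d) (-η) (-B') le_rfl (by linarith) (by linarith) fun ξ hξ f' _ _ e =>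
    e (by rw [abs_of_neg (by linarith [hξ.2])]; linarith [hξ.2])
  have p2 := key (-η) (-s0) (-B) (by linarith) (by linarith) (by linarith) fun ξ _ f' e _ _ => e
  have p3 := key (-s0) s0 (c - B) (by linarith) (by linarith) (by linarith) fun ξ hξ f' _ e _ =>
    e (abs_le.2 ⟨hξ.1.le, hξ.2.le⟩)
  have p4 := key s0 η (-B) (by linarith) (by linarith) (by linarith) fun ξ _ f' e _ _ => e
  have p5 := key η d (-B') (by linarith) (by linarith) le_rfl fun ξ hξ f' _ _ e =>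
    e (by rw [abs_of_pos (by linarith [hξ.1])]; linarith [hξ.1])
  nlinarith [mul_nonneg hB' (show 0 ≤ η by linarith)]

lemma j2c_rpow_tendsto {s0 : ℕ → ℝ} (ht : Tendsto s0 atTop (𝓝 0)) {p : ℝ} (hp : 0 < p) :
    Tendsto (fun n => s0 n ^ p) atTop (𝓝 0) := by
  have h := (Real.continuousAt_rpow_const 0 p (Or.inr hp.le)).tendsto.comp ht
  rwa [Real.zero_rpow hp.ne'] at h

lemma j2c_fin {s0 sm Δ : ℕ → ℝ} {ν c1 C A c B K : ℝ} (hν1 : 1 < ν) (hν2 : ν < 2)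
    (hs0 : ∀ n, 0 < s0 n) (hsm : ∀ n, 0 < sm n) (ht : Tendsto s0 atTop (𝓝 0)) (hc : 0 < c)
    (h1 : ∀ᶠ n in atTop, |Δ n - c1 * sm n| ≤ C * sm n ^ 2)
    (h2 : ∀ᶠ n in atTop, Δ n ≤ A * s0 n ^ 2)
    (h3 : ∀ᶠ n in atTop, c * s0 n ^ 2 - B * (s0 n ^ ν) ^ 2 ≤ Δ n)
    (h4 : ∀ᶠ n in atTop, s0 n ^ ν ≤ K * sm n ∧ sm n ≤ K * s0 n ^ ν) : False := by
  have tw := j2c_rpow_tendsto ht (show 0 < ν by linarith)
  have ta := j2c_rpow_tendsto ht (show 0 < ν - 1 by linarith)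
  have tb := j2c_rpow_tendsto ht (show 0 < 2 - ν by linarith)
  have ea : ∀ n, s0 n ^ ν = s0 n * s0 n ^ (ν - 1) := fun n => by
    rw [Real.rpow_sub_one (hs0 n).ne']; field_simp [(hs0 n).ne']
  have eb : ∀ n, s0 n ^ 2 = s0 n ^ ν * s0 n ^ (2 - ν) := fun n => by
    rw [← Real.rpow_add (hs0 n)]; norm_num
  have hc1 : c1 ≤ 0 := by
    have t1 : Tendsto (fun n => |A| * K * s0 n ^ (2 - ν) + |C| * K * s0 n ^ ν) atTop
        (𝓝 (|A| * K * 0 + |C| * K * 0)) := (tb.const_mul _).add (tw.const_mul _)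
    rw [mul_zero, mul_zero, add_zero] at t1
    refine ge_of_tendsto t1 ?_
    filter_upwards [h1, h2, h4] with n e1 e2 e4
    have hb : 0 < s0 n ^ (2 - ν) := Real.rpow_pos_of_pos (hs0 n) _
    have p := hsm n
    have f1 : A * s0 n ^ 2 ≤ |A| * (K * sm n * s0 n ^ (2 - ν)) := by
      calc A * s0 n ^ 2 ≤ |A| * s0 n ^ 2 :=
            mul_le_mul_of_nonneg_right (le_abs_self A) (sq_nonneg _)
        _ = |A| * (s0 n ^ ν * s0 n ^ (2 - ν)) := by rw [← eb]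
        _ ≤ _ := by gcongr; exact e4.1
    have f2 : C * sm n ^ 2 ≤ |C| * (sm n * (K * s0 n ^ ν)) := by
      calc C * sm n ^ 2 ≤ |C| * sm n ^ 2 :=
            mul_le_mul_of_nonneg_right (le_abs_self C) (sq_nonneg _)
        _ = |C| * (sm n * sm n) := by ring
        _ ≤ _ := by gcongr; exact e4.2
    have f3 := (abs_le.1 e1).1
    refine le_of_mul_le_mul_right ?_ p
    nlinarith
  have t2 : Tendsto (fun n => (|B| + |C| * K ^ 2) * (s0 n ^ (ν - 1)) ^ 2) atTop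
      (𝓝 ((|B| + |C| * K ^ 2) * 0 ^ 2)) := (ta.pow 2).const_mul _
  have hle : c ≤ (|B| + |C| * K ^ 2) * 0 ^ 2 := by
    refine ge_of_tendsto t2 ?_
    filter_upwards [h1, h3, h4] with n e1 e3 e4
    have p := hsm n
    have p0 := hs0 n
    have f1 : B * (s0 n ^ ν) ^ 2 ≤ |B| * (s0 n ^ ν) ^ 2 :=
      mul_le_mul_of_nonneg_right (le_abs_self B) (sq_nonneg _)
    have f2 : C * sm n ^ 2 ≤ |C| * (K * s0 n ^ ν) ^ 2 := by
      calc C * sm n ^ 2 ≤ |C| * sm n ^ 2 :=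
            mul_le_mul_of_nonneg_right (le_abs_self C) (sq_nonneg _)
        _ ≤ _ := by gcongr; exact e4.2
    have f3 := (abs_le.1 e1).2
    have f4 : c1 * sm n ≤ 0 := mul_nonpos_of_nonpos_of_nonneg hc1 p.le
    have f5 : c * s0 n ^ 2 ≤ (|B| + |C| * K ^ 2) * (s0 n ^ ν) ^ 2 := by nlinarith
    rw [ea n] at f5
    refine le_of_mul_le_mul_right ?_ (pow_pos p0 2)
    nlinarith
  norm_num at hle
  linarith

end Pool.Agent.MP_c2f0e4_an

end

section

open Set Filter Topology Real Asymptotics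

namespace Pool.Agent.MP_c2f0e4_an

lemma trig_coef {g : ℝ → ℝ} (k j : ℕ) (hg : ContinuousAt g 0)
    (h : (fun t => t ^ k * g t) =o[𝓝 0] fun t : ℝ => t ^ (k + j)) : g 0 = 0 := by
  have h1 : (fun t : ℝ => t ^ (k + j)) =O[𝓝 0] fun t : ℝ => t ^ k :=
    ((isBigO_refl (fun t : ℝ => t ^ k) _).mul
      (((continuous_pow j).tendsto (0 : ℝ)).isBigO_one ℝ)).congr (fun t => (pow_add _ _ _).symm)
      fun t => mul_one _
  have h2 := ((h.trans_isBigO h1).tendsto_div_nhds_zero).mono_left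
    (nhdsWithin_le_nhds (s := {0}ᶜ))
  refine tendsto_nhds_unique (hg.tendsto.mono_left (nhdsWithin_le_nhds (s := {0}ᶜ)))
    (h2.congr' ?_)
  filter_upwards [self_mem_nhdsWithin] with t ht
  exact mul_div_cancel_left₀ _ (pow_ne_zero k ht)

lemma trig_cos (t : ℝ) : cos (2 * arctan t) = (1 - t ^ 2) / (1 + t ^ 2) := by
  rw [cos_two_mul, cos_sq_arctan]
  field_simp
  ring

lemma trig_sin (t : ℝ) : sin (2 * arctan t) = 2 * t / (1 + t ^ 2) := by
  rw [sin_two_mul, ← tan_mul_cos (cos_arctan_pos t).ne', tan_arctan, mul_assoc, mul_assoc, ← sq,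
    cos_sq_arctan]
  ring

lemma trig_poly {p0 p1 p2 p3 p4 : ℝ}
    (h : (fun t : ℝ => t ^ 2 * (p0 + t * (p1 + t * (p2 + t * (p3 + t * p4))))) =o[𝓝 0]
      fun t : ℝ => t ^ 4) : p0 = 0 ∧ p1 = 0 ∧ p2 = 0 := by
  have h0 : p0 = 0 := by simpa using trig_coef 2 2 (by fun_prop) h
  have h1 : p1 = 0 := by
    simpa using trig_coef (g := fun t => p1 + t * (p2 + t * (p3 + t * p4))) 3 1 (by fun_prop)
      (h.congr_left fun t => by rw [h0]; ring)
  have h2 : p2 = 0 := by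
    simpa using trig_coef (g := fun t => p2 + t * (p3 + t * p4)) 4 0 (by fun_prop)
      (h.congr_left fun t => by rw [h0, h1]; ring)
  exact ⟨h0, h1, h2⟩

theorem trigS : TrigStmt := by
  intro a a' b0 b1 m0 V m mt ha hV hV0 _ hA hB hmt hm hm0
  have hVd : HasDerivAt V (deriv V 0) 0 := hV.differentiableAt.hasDerivAt
  have hmV : AnalyticAt ℝ (fun x => mt (V x)) 0 := AnalyticAt.comp (f := V) (by rwa [hV0]) hV
  by_cases h0 : m0 = 0
  · have hg : AnalyticAt ℝ (fun x => V x * mt (V x) * deriv V x) 0 := (hV.mul hmV).mul hV.deriv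
    have hB' : Lin b0 b1 =ᶠ[𝓝 0] fun x => V x * (V x * mt (V x) * deriv V x) := by
      filter_upwards [hB] with x hx
      rw [hx, hm, h0]
      ring
    have e0 : b0 = 0 := by simpa [Lin.zero, hV0] using hB'.self_of_nhds
    have h1 := (Lin.hasDerivAt b0 b1 0).unique
      ((hVd.mul hg.differentiableAt.hasDerivAt).congr_of_eventuallyEq hB')
    exact Or.inl ⟨e0, by simpa [Lin.zero, hV0] using h1⟩
  right
  have hO : V =O[𝓝 0] fun x : ℝ => x := by simpa [hV0] using hVd.isBigO_sub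
  set V0 : ℝ → ℝ := fun x => (b0 * sin x + b1 * (1 - cos x)) / m0 with hV0def
  have hV0d : ∀ x, HasDerivAt V0 (Lin b0 b1 x / m0) x := fun x =>
    ((((hasDerivAt_sin x).const_mul b0).add
      (((hasDerivAt_cos x).const_sub 1).const_mul b1)).div_const m0).congr_deriv (by simp [Lin])
  have hV00 : V0 0 = 0 := by simp [hV0def]
  have hO0 : V0 =O[𝓝 0] fun x : ℝ => x := by simpa [hV00] using (hV0d 0).isBigO_sub
  have hD : (fun x => deriv V x - Lin b0 b1 x / m0) =o[𝓝 0] fun x : ℝ => x ^ 2 := by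
    have h1 : Tendsto (fun x => -(mt (V x) * deriv V x) / m0) (𝓝 0) (𝓝 0) := by
      have := ((hmV.mul hV.deriv).continuousAt.neg.div_const m0).tendsto
      simpa [hV0, hm0 h0] using this
    refine ((hO.pow 2).mul_isLittleO ((isLittleO_one_iff ℝ).2 h1)).congr' ?_
      (Eventually.of_forall fun x => mul_one _)
    filter_upwards [hB] with x hx
    rw [hx, hm]
    field_simp
    ring
  have hW : (fun x => V x - V0 x) =o[𝓝 0] fun x : ℝ => x ^ 3 := by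
    obtain ⟨r, hr, hb⟩ := Metric.eventually_nhds_iff_ball.1 hV.eventually_analyticAt
    have h1 := (convex_ball (0 : ℝ) r).isLittleO_pow_succ_real (n := 2)
      (f := fun x => V x - V0 x) (f' := fun x => deriv V x - Lin b0 b1 x / m0)
      (Metric.mem_ball_self hr)
      (fun x hx => ((hb x hx).differentiableAt.hasDerivAt.sub (hV0d x)).hasDerivWithinAt)
      (by simpa using hD.mono nhdsWithin_le_nhds)
    rw [nhdsWithin_eq_nhds.2 (Metric.ball_mem_nhds _ hr)] at h1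
    simpa [hV0, hV00] using h1
  have hF : (fun x => Cub 0 0 a a' x + (1 + 1 / m0) * V0 x ^ 2 * Lin b0 b1 x) =o[𝓝 0]
      fun x : ℝ => x ^ 4 := by
    have h1 : (fun x => V x ^ 2 * (deriv V x - Lin b0 b1 x / m0)) =o[𝓝 0] fun x : ℝ => x ^ 4 :=
      ((hO.pow 2).mul_isLittleO hD).congr_right fun x => by ring
    have h2 : (fun x => Lin b0 b1 x * (V x + V0 x) * (V x - V0 x)) =o[𝓝 0] fun x : ℝ => x ^ 4 :=
      ((((Lin.hasDerivAt b0 b1 0).continuousAt.tendsto.isBigO_one ℝ).mul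
        (hO.add hO0)).mul_isLittleO hW).congr_right fun x => by ring
    refine (h1.neg_left.sub (h2.const_mul_left (1 + 1 / m0))).congr' ?_ EventuallyEq.rfl
    filter_upwards [hA] with x hx
    rw [hx]
    ring
  have hat : HasDerivAt (fun t : ℝ => 2 * arctan t) (2 * (1 / (1 + 0 ^ 2))) 0 :=
    (hasDerivAt_arctan 0).const_mul 2
  have ht : Tendsto (fun t : ℝ => 2 * arctan t) (𝓝 0) (𝓝 0) := by
    simpa using hat.continuousAt.tendsto
  have hO2 : (fun t : ℝ => 2 * arctan t) =O[𝓝 0] fun t : ℝ => t := by simpa using hat.isBigO_sub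
  have hc : ContinuousAt (fun t : ℝ => (1 + t ^ 2) ^ 3 / 4) 0 := by fun_prop
  have hG := (hc.tendsto.isBigO_one ℝ).mul_isLittleO
    ((hF.comp_tendsto ht).trans_isBigO (hO2.pow 4))
  set c := (1 + 1 / m0) / m0 ^ 2 with hcdef
  obtain ⟨e0, e1, e2⟩ := trig_poly (p0 := a + c * b0 ^ 3) (p1 := 2 * a' + 4 * c * b0 ^ 2 * b1)
    (p2 := -a + c * (5 * b0 * b1 ^ 2 - b0 ^ 3)) (p3 := c * (2 * b1 ^ 3 - 2 * b0 ^ 2 * b1))
    (p4 := -(c * b0 * b1 ^ 2)) (hG.congr (fun t => by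
      have : 1 + t ^ 2 ≠ 0 := by positivity
      simp only [Function.comp, Cub, Lin, hV0def, trig_cos, trig_sin, hcdef]
      field_simp
      ring) fun t => one_mul _)
  have h1 : c * b0 ≠ 0 := fun h => ha (by linear_combination e0 - b0 ^ 2 * h)
  have h2 : b1 = 0 := by
    have : c * b0 * b1 ^ 2 = 0 := by linear_combination (e0 + e2) / 5
    exact pow_eq_zero_iff two_ne_zero |>.1 ((mul_eq_zero.1 this).resolve_left h1)
  exact ⟨h2, by rw [h2] at e1; linarith⟩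

end Pool.Agent.MP_c2f0e4_an

end

section

open Set Filter Topology Real Asymptotics

namespace Pool.Agent.MP_c2f0e4_an

lemma main_concl_zero (a0 a2 b : ℝ) : Concl (Cub a0 0 a2 0) (Lin b 0) :=
  Or.inr ⟨_, rev_pi_div_two a0 a2 b⟩

/-- the normalised frame `B = b cos`, `a3 ≥ 0` -/
lemma main_frame (hMax : MaxStmt) (hPole : PoleStmt) (hRed : RedStmt) (hSingle : SingleStmt)
    (hDbl : DblFinStmt) (hTpl : TplFinStmt) (hC2 : C2Stmt) (hC3 : C3Stmt) (hM2 : Mono2Stmt)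
    (hM3 : Mono3Stmt) (hN2 : Non2Stmt) (hN3 : Non3Stmt) (a0 a1 a2 a3 b : ℝ) (hb : b ≠ 0)
    (h3 : 0 ≤ a3) (hA : ∃ x, Cub a0 a1 a2 a3 x ≠ 0) (hF : Fam (Cub a0 a1 a2 a3) (Lin b 0)) :
    Concl (Cub a0 a1 a2 a3) (Lin b 0) := by
  have hc : IsCub (Cub a0 a1 a2 a3) := ⟨_, _, _, _, rfl⟩
  have hl : IsLin (Lin b 0) := ⟨_, _, rfl⟩
  have hS := sys_of hc hl
  by_cases h0 : a1 = 0 ∧ a3 = 0
  · obtain ⟨rfl, rfl⟩ := h0
    exact main_concl_zero a0 a2 b
  rcases hMax _ _ hS hF with hP | hC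
  · exact absurd (hPole a0 a1 a2 a3 b hb hP) h0
  by_cases hs : Simple (Cub a0 a1 a2 a3)
  · obtain ⟨V, U, hT, h⟩ := hRed _ _ hc hl hs hC
    have hcase : ((0 < a3 ∧ a1 ≤ 2 * a3) ∨ (a3 = 0 ∧ a1 ≠ 0)) ∨ (0 < a3 ∧ 2 * a3 < a1) := by
      rcases h3.eq_or_lt with h | h
      · exact Or.inl (Or.inr ⟨h.symm, fun h1 => h0 ⟨h1, h.symm⟩⟩)
      · rcases le_or_gt a1 (2 * a3) with h1 | h1
        · exact Or.inl (Or.inl ⟨h, h1⟩)
        · exact Or.inr ⟨h, h1⟩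
    rcases h with ⟨z, hz⟩ | ⟨z1, z2, hz⟩ | ⟨z1, z2, z3, hz⟩
    · exact hSingle _ _ V U z hc hl hT hz (hs z hz.1.1)
    · have hR := hC2 _ _ V U z1 z2 hS.anA hS.anB hT hS.perA hz
      rcases hcase with h | h
      · exact absurd hR (hM2 a0 a1 a2 a3 b z1 z2 V hb h hz)
      · exact absurd hR (hN2 a0 a1 a2 a3 b z1 z2 V hb h.1 h.2 hT.solV hT.perV hz)
    · have hR := hC3 _ _ V U z1 z2 z3 hS.anA hS.anB hT hS.perA hz
      rcases hcase with h | h
      · exact absurd hR (hM3 a0 a1 a2 a3 b z1 z2 z3 V hb h hz)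
      · exact absurd hz (hN3 a0 a1 a2 a3 b z1 z2 z3 V h.1 (by linarith [h.1, h.2]) hT.solV hT.perV)
  · simp only [Simple, not_forall, not_not] at hs
    obtain ⟨d, hd0, hd1⟩ := hs
    obtain ⟨K, hK⟩ := hc.shift_eq d
    rw [hd0, hd1] at hK
    have hB := hl.shift_eq d
    have hC' := hC.shift d
    refine Concl.of_shift (c := d) ?_
    rw [hK, hB] at hC' ⊢
    generalize (deriv (deriv (Cub a0 a1 a2 a3)) d + 3 * 0) / 2 = a at hK hC' ⊢
    by_cases ha : a = 0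
    · subst ha
      refine hTpl K _ _ (fun h => ?_) hC'
      subst h
      obtain ⟨x, hx⟩ := hA
      have := congrFun hK (x - d)
      simp only [sub_add_cancel] at this
      exact hx (by rw [this]; simp [Cub])
    · exact hDbl a K _ _ ha hC'

theorem mainS (hMax : MaxStmt) (hPole : PoleStmt) (hRed : RedStmt) (hSingle : SingleStmt)
    (hDbl : DblFinStmt) (hTpl : TplFinStmt) (hC2 : C2Stmt) (hC3 : C3Stmt) (hM2 : Mono2Stmt)
    (hM3 : Mono3Stmt) (hN2 : Non2Stmt) (hN3 : Non3Stmt) : MainStmt := by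
  intro A B hA hB hne hF
  by_cases hB0 : ∀ x, B x = 0
  · exact Or.inl hB0
  -- rotate so that `B = b cos`
  obtain ⟨c, hc1, hc2⟩ : ∃ c, deriv B c = 0 ∧ B c ≠ 0 := by
    obtain ⟨b1, b2, rfl⟩ := hB
    have hne' : (⟨b1, b2⟩ : ℂ) ≠ 0 := by
      intro h
      have h1 : b1 = 0 := congrArg Complex.re h
      have h2 : b2 = 0 := congrArg Complex.im h
      exact hB0 fun x => by simp [Lin, h1, h2]
    have hn : ‖(⟨b1, b2⟩ : ℂ)‖ ≠ 0 := norm_ne_zero_iff.2 hne'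
    have hcos := Complex.cos_arg hne'
    have hsin := Complex.sin_arg (⟨b1, b2⟩ : ℂ)
    have hsq : ‖(⟨b1, b2⟩ : ℂ)‖ ^ 2 = b1 * b1 + b2 * b2 := by
      rw [Complex.sq_norm, Complex.normSq_mk]
    refine ⟨Complex.arg ⟨b1, b2⟩, ?_, ?_⟩
    · rw [Lin.deriv, Lin, hcos, hsin]; ring
    · rw [Lin, hcos, hsin]
      have : b1 * (b1 / ‖(⟨b1, b2⟩ : ℂ)‖) + b2 * (b2 / ‖(⟨b1, b2⟩ : ℂ)‖) = ‖(⟨b1, b2⟩ : ℂ)‖ := by
        field_simp
        linarith
      simpa only [this] using hn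
  refine Concl.of_shift (c := c) ?_
  have hF' := hF.shift c
  have hB' := hB.shift_eq c
  obtain ⟨a0, a1, a2, a3, hA'⟩ := hA.shift c
  have hne' : ∃ x, Cub a0 a1 a2 a3 x ≠ 0 := by
    obtain ⟨x, hx⟩ := hne
    refine ⟨x - c, ?_⟩
    rw [← hA']; simpa using hx
  rw [hc1] at hB'
  rw [hA', hB'] at hF' ⊢
  rcases le_total 0 a3 with h3 | h3
  · exact main_frame hMax hPole hRed hSingle hDbl hTpl hC2 hC3 hM2 hM3 hN2 hN3 _ _ _ _ _ hc2 h3
      hne' hF'
  · refine Concl.of_refl (c := π) ?_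
    have hF2 := hF'.refl π
    rw [Cub.refl_pi, Lin.refl_pi, neg_zero] at hF2 ⊢
    refine main_frame hMax hPole hRed hSingle hDbl hTpl hC2 hC3 hM2 hM3 hN2 hN3 _ _ _ _ _ hc2
      (by linarith) ?_ hF2
    obtain ⟨x, hx⟩ := hne'
    refine ⟨π - x, ?_⟩
    rw [← Cub.refl_pi]; simpa using hx

end Pool.Agent.MP_c2f0e4_an

end
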