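import Pool.Agent.Mg.F402458.G1bc3d2

section

open Set Filter Topology Real Asymptotics

namespace Pool.Agent.MP_c2f0e4_an

/-- The Taylor series at the origin. -/
noncomputable def jetT (f : ℝ → ℝ) : PowerSeries ℝ :=
  PowerSeries.mk fun n => iteratedDeriv n f 0 / n.factorial

/-- `f` is analytic at the origin with Taylor series `φ`. -/
def Jet (f : ℝ → ℝ) (φ : PowerSeries ℝ) : Prop := AnalyticAt ℝ f 0 ∧ jetT f = φ

lemma jet_coeff (f : ℝ → ℝ) (n : ℕ) :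
    PowerSeries.coeff n (jetT f) = iteratedDeriv n f 0 / n.factorial := PowerSeries.coeff_mk _ _

lemma jet_cm (φ ψ : PowerSeries ℝ) (n : ℕ) : PowerSeries.coeff n (φ * ψ) =
    ∑ i ∈ Finset.range (n + 1), PowerSeries.coeff i φ * PowerSeries.coeff (n - i) ψ := by
  rw [PowerSeries.coeff_mul, Finset.Nat.sum_antidiagonal_eq_sum_range_succ_mk]

lemma jet_self {f : ℝ → ℝ} (hf : AnalyticAt ℝ f 0) : Jet f (jetT f) := ⟨hf, rfl⟩

lemma Jet.unique {f g : ℝ → ℝ} {φ ψ : PowerSeries ℝ} (hf : Jet f φ) (hg : Jet g ψ)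
    (h : ∀ᶠ τ in 𝓝 (0 : ℝ), f τ = g τ) : φ = ψ := by
  rw [← hf.2, ← hg.2]
  ext n
  rw [jet_coeff, jet_coeff, Filter.EventuallyEq.iteratedDeriv_eq n h]

lemma Jet.add {f g : ℝ → ℝ} {φ ψ : PowerSeries ℝ} (hf : Jet f φ) (hg : Jet g ψ) :
    Jet (fun τ => f τ + g τ) (φ + ψ) := by
  refine ⟨hf.1.add hg.1, ?_⟩
  rw [← hf.2, ← hg.2]
  ext n
  rw [map_add, jet_coeff, jet_coeff, jet_coeff,
    iteratedDeriv_fun_add hf.1.contDiffAt hg.1.contDiffAt, add_div]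

lemma Jet.mul {f g : ℝ → ℝ} {φ ψ : PowerSeries ℝ} (hf : Jet f φ) (hg : Jet g ψ) :
    Jet (fun τ => f τ * g τ) (φ * ψ) := by
  refine ⟨hf.1.mul hg.1, ?_⟩
  rw [← hf.2, ← hg.2]
  ext n
  rw [jet_cm, jet_coeff, iteratedDeriv_fun_mul hf.1.contDiffAt hg.1.contDiffAt, Finset.sum_div]
  refine Finset.sum_congr rfl fun i hi => ?_
  have h := Nat.choose_mul_factorial_mul_factorial (Nat.lt_succ_iff.1 (Finset.mem_range.1 hi))
  have h' : (n.factorial : ℝ) = n.choose i * i.factorial * (n - i).factorial := by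
    exact_mod_cast h.symm
  have h1 : (n.choose i : ℝ) ≠ 0 := by
    exact_mod_cast (Nat.choose_pos (Nat.lt_succ_iff.1 (Finset.mem_range.1 hi))).ne'
  rw [jet_coeff, jet_coeff, h']
  field_simp

lemma jet_const (c : ℝ) : Jet (fun _ => c) (PowerSeries.C c) := by
  refine ⟨analyticAt_const, ?_⟩
  ext n
  rw [jet_coeff, iteratedDeriv_const, PowerSeries.coeff_C]
  split_ifs with h
  · simp [h]
  · simp

lemma jet_id : Jet (fun τ => τ) PowerSeries.X := by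
  refine ⟨analyticAt_id, ?_⟩
  ext n
  rw [jet_coeff, iteratedDeriv_fun_id_zero, PowerSeries.coeff_X]
  split_ifs with h
  · simp [h]
  · simp

lemma Jet.pow {f : ℝ → ℝ} {φ : PowerSeries ℝ} (hf : Jet f φ) (k : ℕ) :
    Jet (fun τ => f τ ^ k) (φ ^ k) := by
  induction k with
  | zero => simpa using jet_const 1
  | succ k ih => simpa only [pow_succ] using ih.mul hf

lemma Jet.der {f : ℝ → ℝ} {φ : PowerSeries ℝ} (hf : Jet f φ) :
    Jet (deriv f) (PowerSeries.derivative ℝ φ) := by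
  refine ⟨hf.1.deriv, ?_⟩
  rw [← hf.2]
  ext n
  rw [PowerSeries.coeff_derivative, jet_coeff, jet_coeff, iteratedDeriv_succ', Nat.factorial_succ]
  have : (n.factorial : ℝ) ≠ 0 := by exact_mod_cast n.factorial_ne_zero
  push_cast
  field_simp

/-- Substitution of a function that vanishes at the origin. -/
lemma Jet.comp3 {A x : ℝ → ℝ} {ξ : PowerSeries ℝ} (hA : AnalyticAt ℝ A 0) (hx : Jet x ξ)
    (h0 : x 0 = 0) : ∃ W, Jet (fun τ => A (x τ)) (PowerSeries.C (A 0) +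
      PowerSeries.C (deriv A 0) * ξ + PowerSeries.C (deriv (deriv A) 0 / 2) * ξ ^ 2 +
      ξ ^ 3 * W) := by
  obtain ⟨R, hR, h⟩ := hA.exists_eq_sum_add_pow_mul 3
  have hR' : AnalyticAt ℝ (fun τ => R (x τ)) 0 := AnalyticAt.comp (h0.symm ▸ hR) hx.1
  refine ⟨jetT fun τ => R (x τ), ?_⟩
  have := (((jet_const (A 0)).add ((jet_const (deriv A 0)).mul hx)).add
    ((jet_const (deriv (deriv A) 0 / 2)).mul (hx.pow 2))).add ((hx.pow 3).mul (jet_self hR'))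
  convert this using 2 with τ
  rw [h (x τ)]
  simp [Finset.sum_range_succ, iteratedDeriv_succ, Nat.factorial]
  ring

lemma jet_real {ε a2 b0 b1 b2 x1 x2 x3 x4 x5 x6 d1 d2 d3 d4 d5 d6 d7 q0 q1 q2 q3 q4 q5 q6 : ℝ}
    (hε : ε = 1 ∨ ε = -1)
    (e0 : b0 * 3 = -(3 / 2) * ε * d1)
    (e1 : b0 * (4 * x1) = -(3 / 2) * ε * (d2 * 2))
    (e2 : b0 * (5 * x2) = -(3 / 2) * ε * (d3 * 3))
    (e3 : b0 * (6 * x3) + b1 * 3 = -(3 / 2) * ε * (d4 * 4))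
    (e4 : b0 * (7 * x4) + b1 * (7 * x1) = -(3 / 2) * ε * (d5 * 5))
    (e5 : b0 * (8 * x5) + b1 * (8 * x2 + 4 * x1 ^ 2) = -(3 / 2) * ε * (d6 * 6))
    (e6 : b0 * (9 * x6) + b1 * (9 * x3 + 9 * x1 * x2) + b2 * 3 = -(3 / 2) * ε * (d7 * 7))
    (f1 : -2 * ε / 3 * (7 * x1) = -ε * (11 / 2 * d1))
    (f2 : -2 * ε / 3 * (8 * x2 + 4 * x1 ^ 2) = -ε * (5 * d2 + 5 * d1 ^ 2))
    (f3 : -2 * ε / 3 * (9 * x3 + 9 * x1 * x2) + a2 * 3 =
      -ε * (9 / 2 * d3 + 9 * d1 * d2 + 3 / 2 * d1 ^ 3))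
    (f4 : -2 * ε / 3 * (10 * x4 + 10 * x1 * x3 + 5 * x2 ^ 2) + a2 * (10 * x1) =
      -ε * (4 * d4 + 8 * d1 * d3 + 4 * d2 ^ 2 + 4 * d1 ^ 2 * d2))
    (f5 : -2 * ε / 3 * (11 * x5 + 11 * x1 * x4 + 11 * x2 * x3) + a2 * (11 * x2 + 11 * x1 ^ 2) =
      -ε * (7 / 2 * d5 + 7 * d1 * d4 + 7 * d2 * d3 + 7 / 2 * d1 ^ 2 * d3 + 7 / 2 * d1 * d2 ^ 2))
    (g0 : q0 = -(3 / 4) * d1)
    (g1 : q0 * d1 + q1 = -(3 / 4) * (d2 * 2))
    (g2 : q0 * d2 + q1 * d1 + q2 = -(3 / 4) * (d3 * 3))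
    (g3 : q0 * d3 + q1 * d2 + q2 * d1 + q3 = -(3 / 4) * (d4 * 4))
    (g4 : q0 * d4 + q1 * d3 + q2 * d2 + q3 * d1 + q4 = -(3 / 4) * (d5 * 5))
    (g5 : q0 * d5 + q1 * d4 + q2 * d3 + q3 * d2 + q4 * d1 + q5 = -(3 / 4) * (d6 * 6))
    (g6 : q0 * d6 + q1 * d5 + q2 * d4 + q3 * d3 + q4 * d2 + q5 * d1 + q6 = -(3 / 4) * (d7 * 7)) :
    q0 = 3 / 2 * ε * b0 ∧ q5 = 23328 / 1925 * b0 ^ 2 * (a2 * b0 + ε * b1 + 36 / 343 * b0 ^ 4) ∧
      (b0 = 0 → q1 = 0 ∧ q2 = 0 ∧ q6 = 9 / 4 * a2 * b1 + 3 / 2 * ε * b2) := by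
  obtain rfl : d1 = -2 * ε * b0 := by rcases hε with rfl | rfl <;> linarith only [e0]
  obtain rfl : x1 = -(33 / 14) * ε * b0 := by rcases hε with rfl | rfl <;> linarith only [f1]
  obtain rfl : d2 = 22 / 7 * b0 ^ 2 := by rcases hε with rfl | rfl <;> linarith only [e1]
  obtain rfl : x2 = 192 / 49 * b0 ^ 2 := by rcases hε with rfl | rfl <;> linarith only [f2]
  obtain rfl : d3 = -(640 / 147) * ε * b0 ^ 3 := by rcases hε with rfl | rfl <;> linarith only [e2]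
  obtain rfl : x3 = ε * a2 / 2 - 1872 / 343 * ε * b0 ^ 3 := by
    rcases hε with rfl | rfl <;> linarith only [f3]
  obtain rfl : d4 = -a2 * b0 / 2 + 1872 / 343 * b0 ^ 4 - ε * b1 / 2 := by
    rcases hε with rfl | rfl <;> linarith only [e3]
  obtain rfl : x4 = -(93 / 35) * a2 * b0 + 79852 / 12005 * b0 ^ 4 - 3 / 10 * ε * b1 := by
    rcases hε with rfl | rfl <;> linarith only [f4]
  obtain rfl : d5 = 62 / 25 * (ε * a2 * b0 ^ 2 + b0 * b1) - 159704 / 25725 * ε * b0 ^ 5 := by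
    rcases hε with rfl | rfl <;> linarith only [e4]
  obtain rfl : x5 = 125163 / 15400 * ε * a2 * b0 ^ 2 + 11019 / 7700 * b0 * b1 -
      4700954 / 660275 * ε * b0 ^ 5 := by
    rcases hε with rfl | rfl <;> linarith only [f5]
  obtain rfl : d6 = -(13907 / 1925) * (a2 * b0 ^ 3 + ε * b0 ^ 2 * b1) +
      37607632 / 5942475 * b0 ^ 6 := by
    rcases hε with rfl | rfl <;> linarith only [e5]
  obtain rfl : q0 = 3 / 2 * ε * b0 := by linarith only [g0]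
  obtain rfl : q1 = -(12 / 7) * b0 ^ 2 := by rcases hε with rfl | rfl <;> linarith only [g1]
  obtain rfl : q2 = 81 / 49 * ε * b0 ^ 3 := by rcases hε with rfl | rfl <;> linarith only [g2]
  obtain rfl : q3 = 3 / 2 * (a2 * b0 + ε * b1) - 394 / 343 * b0 ^ 4 := by
    rcases hε with rfl | rfl <;> linarith only [g3]
  obtain rfl : q4 = -(111 / 20) * (ε * a2 * b0 ^ 2 + b0 * b1) + 236 / 1715 * ε * b0 ^ 5 := by
    rcases hε with rfl | rfl <;> linarith only [g4]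
  refine ⟨rfl, by rcases hε with rfl | rfl <;> linarith only [g5], ?_⟩
  rintro rfl
  refine ⟨by ring, by ring, ?_⟩
  rcases hε with rfl | rfl <;> linarith only [e6, g6]

open PowerSeries in
lemma jet_alg {ε a2 b0 b1 b2 : ℝ} (hε : ε = 1 ∨ ε = -1) {x d q WA WB : PowerSeries ℝ}
    (hx : coeff 0 x = 1) (hd : coeff 0 d = 1)
    (h1 : (C b0 + C b1 * (X ^ 3 * x) + C b2 * (X ^ 3 * x) ^ 2 + (X ^ 3 * x) ^ 3 * WB) *
      (C 3 * x + X * derivative ℝ x) = C (-(3 / 2) * ε) * derivative ℝ d)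
    (h2 : (C 0 + C (-2 * ε / 3) * (X ^ 3 * x) + C a2 * (X ^ 3 * x) ^ 2 + (X ^ 3 * x) ^ 3 * WA) *
      (C 3 * x + X * derivative ℝ x) =
      C (-ε) * X ^ 3 * d ^ 2 * (C 2 * d + C (-1 / 2) * (X * derivative ℝ d)))
    (h3 : q * d = C (-(3 / 4)) * derivative ℝ d) :
    coeff 0 q = 3 / 2 * ε * b0 ∧
      coeff 5 q = 23328 / 1925 * b0 ^ 2 * (a2 * b0 + ε * b1 + 36 / 343 * b0 ^ 4) ∧
      (b0 = 0 → coeff 1 q = 0 ∧ coeff 2 q = 0 ∧
        coeff 6 q = 9 / 4 * a2 * b1 + 3 / 2 * ε * b2) := by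
  have hXd : ∀ (φ : PowerSeries ℝ) (k : ℕ), coeff k (X * derivative ℝ φ) = k * coeff k φ := by
    intro φ k
    cases k with
    | zero => simp
    | succ k =>
      rw [coeff_succ_X_mul, coeff_derivative]
      push_cast
      ring
  obtain ⟨Y, hY⟩ : ∃ Y, Y = C 3 * x + X * derivative ℝ x := ⟨_, rfl⟩
  obtain ⟨Z, hZ⟩ : ∃ Z, Z = C 2 * d + C (-1 / 2) * (X * derivative ℝ d) := ⟨_, rfl⟩
  have cY : ∀ k, coeff k Y = (3 + k) * coeff k x := fun k => by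
    rw [hY, map_add, coeff_C_mul, hXd]
    ring
  have cZ : ∀ k, coeff k Z = (2 - k / 2) * coeff k d := fun k => by
    rw [hZ, map_add, coeff_C_mul, coeff_C_mul, hXd]
    ring
  rw [← hY] at h1 h2
  rw [← hZ] at h2
  have k1 : C b0 * Y + C b1 * (X ^ 3 * (x * Y)) + C b2 * (X ^ 6 * (x * (x * Y))) +
      X ^ 9 * (x ^ 3 * WB * Y) = C (-(3 / 2) * ε) * derivative ℝ d := by
    rw [← h1]
    ring
  have k2 : C (-2 * ε / 3) * (x * Y) + C a2 * (X ^ 3 * (x * (x * Y))) +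
      X ^ 6 * (x ^ 3 * WA * Y) = C (-ε) * (d * (d * Z)) := by
    refine mul_left_cancel₀ (pow_ne_zero 3 (X_ne_zero (R := ℝ))) ?_
    rw [map_zero] at h2
    linear_combination h2
  have E := fun k => congrArg (coeff k) k1
  have F := fun k => congrArg (coeff k) k2
  have G := fun k => congrArg (coeff k) h3
  simp only [map_add, coeff_C_mul, coeff_X_pow_mul', coeff_derivative] at E F G
  have e0 := E 0
  have e1 := E 1
  have e2 := E 2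
  have e3 := E 3
  have e4 := E 4
  have e5 := E 5
  have e6 := E 6
  have f1 := F 1
  have f2 := F 2
  have f3 := F 3
  have f4 := F 4
  have f5 := F 5
  have g0 := G 0
  have g1 := G 1
  have g2 := G 2
  have g3 := G 3
  have g4 := G 4
  have g5 := G 5
  have g6 := G 6
  simp only [jet_cm, Finset.sum_range_succ, Finset.sum_range_zero, cY, cZ, hx, hd, Nat.reduceSub,
    Nat.reduceAdd, Nat.reduceLeDiff, if_true, if_false, le_refl, tsub_self, tsub_zero, zero_add,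
    Nat.cast_ofNat, Nat.cast_zero, Nat.cast_one] at e0 e1 e2 e3 e4 e5 e6 f1 f2 f3 f4 f5 g0 g1 g2 g3 g4 g5 g6
  refine jet_real (x1 := coeff 1 x) (x2 := coeff 2 x) (x3 := coeff 3 x) (x4 := coeff 4 x)
    (x5 := coeff 5 x) (x6 := coeff 6 x) (d1 := coeff 1 d) (d2 := coeff 2 d) (d3 := coeff 3 d)
    (d4 := coeff 4 d) (d5 := coeff 5 d) (d6 := coeff 6 d) (d7 := coeff 7 d) (q3 := coeff 3 q)
    (q4 := coeff 4 q) hε ?_ ?_ ?_ ?_ ?_ ?_ ?_ ?_ ?_ ?_ ?_ ?_ ?_ ?_ ?_ ?_ ?_ ?_ ?_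
  · linear_combination e0
  · linear_combination e1
  · linear_combination e2
  · linear_combination e3
  · linear_combination e4
  · linear_combination e5
  · linear_combination e6
  · linear_combination f1
  · linear_combination f2
  · linear_combination f3
  · linear_combination f4
  · linear_combination f5
  · linear_combination g0
  · linear_combination g1
  · linear_combination g2
  · linear_combination g3
  · linear_combination g4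
  · linear_combination g5
  · linear_combination g6

theorem jetS : JetStmt := by
  intro ε A B X D hε hA hB hX hD hA0 hA1 hX0 hD0 heq
  have jX := jet_self hX
  have jD := jet_self hD
  have jx := (jet_id.pow 3).mul jX
  obtain ⟨WA, jA⟩ := Jet.comp3 hA jx (by simp)
  obtain ⟨WB, jB⟩ := Jet.comp3 hB jx (by simp)
  have jY := ((jet_const 3).mul jX).add (jet_id.mul jX.der)
  have hD1 : D 0 ≠ 0 := by rw [hD0]; exact one_ne_zero
  have hQ : AnalyticAt ℝ (fun τ => -(3 / 4) * deriv D τ / D τ) 0 :=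
    (analyticAt_const.mul hD.deriv).div hD hD1
  have h1 := (jB.mul jY).unique ((jet_const (-(3 / 2) * ε)).mul jD.der) (heq.mono fun τ h => h.1)
  have h2 := (jA.mul jY).unique ((((jet_const (-ε)).mul (jet_id.pow 3)).mul (jD.pow 2)).mul
    (((jet_const 2).mul jD).add ((jet_const (-1 / 2)).mul (jet_id.mul jD.der))))
    (heq.mono fun τ h => by rw [h.2]; ring)
  have h3 := ((jet_self hQ).mul jD).unique ((jet_const (-(3 / 4))).mul jD.der)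
    ((hD.continuousAt.eventually_ne hD1).mono fun τ h => by field_simp)
  rw [hA0, hA1] at h2
  obtain ⟨k0, k5, k6⟩ := jet_alg hε (by simp [jet_coeff, hX0]) (by simp [jet_coeff, hD0]) h1 h2 h3
  obtain ⟨F, hF, hQF⟩ := hQ.exists_eq_sum_add_pow_mul 7
  refine ⟨fun n => PowerSeries.coeff n (jetT fun τ => -(3 / 4) * deriv D τ / D τ),
    fun τ => PowerSeries.coeff 6 (jetT fun τ => -(3 / 4) * deriv D τ / D τ) + τ * F τ,
    analyticAt_const.add (analyticAt_id.mul hF), by simp, Eventually.of_forall fun τ => ?_,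
    k0, k5, fun h => ⟨(k6 h).1, (k6 h).2.1, ?_⟩⟩
  · refine (hQF τ).trans ?_
    rw [Finset.sum_range_succ]
    simp only [jet_coeff, smul_eq_mul]
    rw [add_assoc]
    congr 1
    · exact Finset.sum_congr rfl fun i _ => by ring
    · ring
  · exact (k6 h).2.2.trans (by ring)

end Pool.Agent.MP_c2f0e4_an

end

section

open Set Filter Topology Real Asymptotics

namespace Pool.Agent.MP_c2f0e4_an

noncomputable def j1Pi (m0 u ξ : ℝ) : ℝ :=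
  3 * (u - ξ) * ((1 + m0) * ξ ^ 2 + 2 * (1 + m0) * u * ξ + (3 + 2 * m0) * u ^ 2)
    / (2 * (1 + m0) * (3 + 2 * m0) * (6 + 5 * m0) * Dh m0 u ξ)

noncomputable def j1Gam (m0 u ξ : ℝ) : ℝ :=
  3 * (3 * (1 + m0) * ξ ^ 2 + 2 * (1 + m0) * u * ξ + 1 * u ^ 2)
    / (2 * (1 + m0) * (6 + 5 * m0) * Dh m0 u ξ ^ 2)

lemma j1_dh (m0 : ℝ) {u : ℝ → ℝ} {u' ξ : ℝ} (h : HasDerivAt u u' ξ) :
    HasDerivAt (fun y => Dh m0 (u y) y)
      (2 * u ξ * u' + (1 + m0) * (u ξ + ξ) + (1 + m0) * ξ * (u' + 1)) ξ := by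
  unfold Dh
  refine ((h.pow 2).add (((hasDerivAt_id ξ).const_mul (1 + m0)).mul
    (h.add (hasDerivAt_id ξ)))).congr_deriv ?_
  simp only [id, Pi.add_apply]
  push_cast
  ring

lemma j1_der {m0 : ℝ} {u : ℝ → ℝ} {u' ξ m : ℝ} (h1 : -1 < m0) (d0 : Dh m0 (u ξ) ξ ≠ 0)
    (hu : HasDerivAt u u' ξ) (h0 : u ξ ≠ 0)
    (he : u ξ ^ 2 * u' = (1 + m) * ξ ^ 2 - m * u ξ ^ 2) :
    HasDerivAt (fun y => j1Pi m0 (u y) y)
      ((ξ - u ξ) * (2 * u ξ + ξ) / ((3 + 2 * m0) * Dh m0 (u ξ) ξ)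
        + 2 / (6 + 5 * m0) * ((ξ - u ξ) ^ 2 / Dh m0 (u ξ) ξ)
        + (m - m0) * (j1Gam m0 (u ξ) ξ * (ξ ^ 2 - u ξ ^ 2))) ξ := by
  have n0 : 3 + 2 * m0 ≠ 0 := by linarith
  have n1 : 1 + m0 ≠ 0 := by linarith
  have n3 : 6 + 5 * m0 ≠ 0 := by linarith
  have n4 : 3 + m0 * 2 ≠ 0 := by linarith
  have n6 : 6 + m0 * 5 ≠ 0 := by linarith
  have i := hasDerivAt_id' ξ
  have k1 := ((hu.sub i).const_mul 3).mul ((((i.pow 2).const_mul (1 + m0)).add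
    ((hu.const_mul (2 * (1 + m0))).mul i)).add ((hu.pow 2).const_mul (3 + 2 * m0)))
  have k2 := (j1_dh m0 hu).const_mul (2 * (1 + m0) * (3 + 2 * m0) * (6 + 5 * m0))
  unfold j1Pi j1Gam
  refine (k1.div k2 (mul_ne_zero (by positivity) d0)).congr_deriv ?_
  have e : u' = ((1 + m) * ξ ^ 2 - m * u ξ ^ 2) / u ξ ^ 2 := by rw [← he]; field_simp
  have e2 : Dh m0 (u ξ) ξ = u ξ ^ 2 + (1 + m0) * ξ * (u ξ + ξ) := rfl
  simp only [Pi.add_apply, Pi.mul_apply, Pi.sub_apply, Pi.pow_apply]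
  rw [e]
  push_cast
  field_simp
  rw [e2]
  ring

lemma j1_div {x y y' z : ℝ} (hy' : 0 < y') (hy : y' ≤ y) (hz : 0 ≤ z) (h : |x| ≤ z * y') :
    |x / y| ≤ z := by
  have h0 : 0 < y := hy'.trans_le hy
  rw [abs_div, abs_of_pos h0, div_le_iff₀ h0]
  exact h.trans (mul_le_mul_of_nonneg_left hy hz)

lemma j1_quad (a0 a1 a2 : ℝ) {u ξ T : ℝ} (hu : |u| ≤ T) (hξ : |ξ| ≤ T) :
    |a0 * ξ ^ 2 + a1 * u * ξ + a2 * u ^ 2| ≤ (|a0| + |a1| + |a2|) * T ^ 2 := by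
  have hT : 0 ≤ T := (abs_nonneg _).trans hu
  have h0 : |a0 * ξ ^ 2| ≤ |a0| * T ^ 2 := by
    rw [abs_mul, abs_pow]; gcongr
  have h1 : |a1 * u * ξ| ≤ |a1| * T * T := by
    rw [abs_mul, abs_mul]; gcongr
  have h2 : |a2 * u ^ 2| ≤ |a2| * T ^ 2 := by
    rw [abs_mul, abs_pow]; gcongr
  have h5 := abs_add_le (a0 * ξ ^ 2 + a1 * u * ξ) (a2 * u ^ 2)
  have h6 := abs_add_le (a0 * ξ ^ 2) (a1 * u * ξ)
  nlinarith

lemma j1_basic {u ξ : ℝ} (h : u < ξ) :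
    |u| ≤ |ξ| + (ξ - u) ∧ |ξ| ≤ |ξ| + (ξ - u) ∧ 0 < ξ ^ 2 + (ξ - u) ^ 2 ∧
      (|ξ| + (ξ - u)) ^ 2 ≤ 2 * (ξ ^ 2 + (ξ - u) ^ 2) := by
  refine ⟨abs_le.2 ⟨by linarith [neg_abs_le ξ], by linarith [le_abs_self ξ]⟩, by linarith, ?_, ?_⟩
  · have : 0 < (ξ - u) ^ 2 := by have := sub_pos.2 h; positivity
    positivity
  · rw [← sq_abs ξ]; nlinarith [sq_nonneg (|ξ| - (ξ - u))]

lemma j1_pi {m0 c : ℝ} (hm : -1 < m0) (hc : 0 < c) :
    ∃ C : ℝ, 0 ≤ C ∧ ∀ u ξ : ℝ, u < ξ → c * (ξ ^ 2 + (ξ - u) ^ 2) ≤ Dh m0 u ξ →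
      |j1Pi m0 u ξ| ≤ C * (ξ - u) := by
  obtain ⟨B, hB⟩ : ∃ B, B = 2 * (1 + m0) * (3 + 2 * m0) * (6 + 5 * m0) := ⟨_, rfl⟩
  have hB0 : 0 < B := by
    have h1 : 0 < 1 + m0 := by linarith
    have h2 : 0 < 3 + 2 * m0 := by linarith
    have h4 : 0 < 6 + 5 * m0 := by linarith
    rw [hB]; positivity
  obtain ⟨A, hA⟩ : ∃ A, A = |1 + m0| + |2 * (1 + m0)| + |3 + 2 * m0| := ⟨_, rfl⟩
  have hA0 : 0 ≤ A := by rw [hA]; positivity
  refine ⟨6 * A / (B * c), by positivity, fun u ξ h hD => ?_⟩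
  obtain ⟨b1, b2, b3, b4⟩ := j1_basic h
  have hs : 0 < ξ - u := sub_pos.2 h
  have h3 := j1_quad (1 + m0) (2 * (1 + m0)) (3 + 2 * m0) b1 b2
  rw [← hA] at h3
  unfold j1Pi
  rw [← hB]
  refine j1_div (y' := B * (c * (ξ ^ 2 + (ξ - u) ^ 2))) (by positivity) (by gcongr)
    (by positivity) ?_
  rw [abs_mul, abs_mul, abs_sub_comm, abs_of_pos hs, abs_of_pos (by norm_num : (0 : ℝ) < 3)]
  have h4 : 6 * A / (B * c) * (ξ - u) * (B * (c * (ξ ^ 2 + (ξ - u) ^ 2)))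
      = 3 * (ξ - u) * (A * (2 * (ξ ^ 2 + (ξ - u) ^ 2))) := by field_simp; ring
  rw [h4]
  exact mul_le_mul_of_nonneg_left (h3.trans (mul_le_mul_of_nonneg_left b4 hA0)) (by positivity)

lemma j1_gam {m0 c : ℝ} (hm : -1 < m0) (hc : 0 < c) :
    ∃ C : ℝ, 0 ≤ C ∧ ∀ u ξ : ℝ, u < ξ → c * (ξ ^ 2 + (ξ - u) ^ 2) ≤ Dh m0 u ξ →
      |ξ * (j1Gam m0 u ξ * (ξ ^ 2 - u ^ 2))| ≤ C * (ξ - u) := by
  obtain ⟨B, hB⟩ : ∃ B, B = 2 * (1 + m0) * (6 + 5 * m0) := ⟨_, rfl⟩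
  have hB0 : 0 < B := by
    have h1 : 0 < 1 + m0 := by linarith
    have h4 : 0 < 6 + 5 * m0 := by linarith
    rw [hB]; positivity
  obtain ⟨A, hA⟩ : ∃ A, A = |3 * (1 + m0)| + |2 * (1 + m0)| + |(1 : ℝ)| := ⟨_, rfl⟩
  have hA0 : 0 ≤ A := by rw [hA]; positivity
  refine ⟨24 * A / (B * c ^ 2), by positivity, fun u ξ h hD => ?_⟩
  obtain ⟨b1, b2, b3, b4⟩ := j1_basic h
  have hs : 0 < ξ - u := sub_pos.2 h
  have h3 := j1_quad (3 * (1 + m0)) (2 * (1 + m0)) 1 b1 b2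
  rw [← hA] at h3
  unfold j1Gam
  rw [← hB, div_mul_eq_mul_div, ← mul_div_assoc]
  refine j1_div (y' := B * (c * (ξ ^ 2 + (ξ - u) ^ 2)) ^ 2) (by positivity) (by gcongr)
    (by positivity) ?_
  have h4 : 24 * A / (B * c ^ 2) * (ξ - u) * (B * (c * (ξ ^ 2 + (ξ - u) ^ 2)) ^ 2)
      = 6 * A * (ξ - u) * (2 * (ξ ^ 2 + (ξ - u) ^ 2)) ^ 2 := by field_simp; ring
  have h5 : |ξ ^ 2 - u ^ 2| ≤ (ξ - u) * (2 * (|ξ| + (ξ - u))) := by
    rw [show ξ ^ 2 - u ^ 2 = (ξ - u) * (ξ + u) by ring, abs_mul, abs_of_pos hs]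
    exact mul_le_mul_of_nonneg_left ((abs_add_le _ _).trans (by linarith)) hs.le
  rw [h4, abs_mul, abs_mul, abs_mul, abs_of_pos (by norm_num : (0 : ℝ) < 3)]
  have h6 : ((|ξ| + (ξ - u)) ^ 2) ^ 2 ≤ (2 * (ξ ^ 2 + (ξ - u) ^ 2)) ^ 2 := by gcongr
  calc |ξ| * (3 * |3 * (1 + m0) * ξ ^ 2 + 2 * (1 + m0) * u * ξ + 1 * u ^ 2| * |ξ ^ 2 - u ^ 2|)
      ≤ (|ξ| + (ξ - u)) * (3 * (A * (|ξ| + (ξ - u)) ^ 2)
        * ((ξ - u) * (2 * (|ξ| + (ξ - u))))) := by gcongr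
    _ = 6 * A * (ξ - u) * ((|ξ| + (ξ - u)) ^ 2) ^ 2 := by ring
    _ ≤ _ := by gcongr

lemma j1_err {m0 c L M : ℝ} (μ : ℝ) (hm : -1 < m0) (hc : 0 < c) (hL : 0 ≤ L) (hM : 0 ≤ M) :
    ∃ C : ℝ, 0 ≤ C ∧ ∀ u ξ b : ℝ, u < ξ → c * (ξ ^ 2 + (ξ - u) ^ 2) ≤ Dh m0 u ξ →
      |b - μ| ≤ L * |ξ| → |b| ≤ M →
      |-(b - μ) * (ξ - u) * (2 * u + ξ) / ((3 + 2 * m0) * Dh m0 u ξ)
        + μ * b * (ξ * (j1Gam m0 u ξ * (ξ ^ 2 - u ^ 2)))| ≤ C * (ξ - u) := by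
  obtain ⟨G, hG0, hG⟩ := j1_gam hm hc
  have hν : 0 < 3 + 2 * m0 := by linarith
  refine ⟨6 * L / ((3 + 2 * m0) * c) + |μ| * M * G, by positivity, fun u ξ b h hD h2 h3 => ?_⟩
  obtain ⟨b1, b2, b3, b4⟩ := j1_basic h
  have hs : 0 < ξ - u := sub_pos.2 h
  have e1 : |-(b - μ) * (ξ - u) * (2 * u + ξ) / ((3 + 2 * m0) * Dh m0 u ξ)|
      ≤ 6 * L / ((3 + 2 * m0) * c) * (ξ - u) := by
    refine j1_div (y' := (3 + 2 * m0) * (c * (ξ ^ 2 + (ξ - u) ^ 2))) (by positivity) (by gcongr)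
      (by positivity) ?_
    have h4 : 6 * L / ((3 + 2 * m0) * c) * (ξ - u)
        * ((3 + 2 * m0) * (c * (ξ ^ 2 + (ξ - u) ^ 2)))
        = 3 * L * (ξ - u) * (2 * (ξ ^ 2 + (ξ - u) ^ 2)) := by field_simp; ring
    have h5 : |2 * u + ξ| ≤ 3 * (|ξ| + (ξ - u)) := by
      refine (abs_add_le _ _).trans ?_
      rw [abs_mul, abs_two]; linarith
    have h6 : |b - μ| ≤ L * (|ξ| + (ξ - u)) := h2.trans (by gcongr)
    rw [h4, abs_mul, abs_mul, abs_neg, abs_of_pos hs]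
    calc |b - μ| * (ξ - u) * |2 * u + ξ|
        ≤ L * (|ξ| + (ξ - u)) * (ξ - u) * (3 * (|ξ| + (ξ - u))) := by gcongr
      _ = 3 * L * (ξ - u) * (|ξ| + (ξ - u)) ^ 2 := by ring
      _ ≤ _ := by gcongr
  have e2 : |μ * b * (ξ * (j1Gam m0 u ξ * (ξ ^ 2 - u ^ 2)))| ≤ |μ| * M * G * (ξ - u) := by
    rw [abs_mul, abs_mul]
    calc |μ| * |b| * |ξ * (j1Gam m0 u ξ * (ξ ^ 2 - u ^ 2))|
        ≤ |μ| * M * (G * (ξ - u)) := by gcongr; exact hG u ξ h hD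
      _ = _ := by ring
  refine (abs_add_le _ _).trans ?_
  linarith

/-- the main term near the origin -/
lemma j1_main {C C1 s s0 ξ D : ℝ} (hs : 0 < s) (hD : 0 < D)
    (hD1 : D ≤ C1 * (ξ ^ 2 + s ^ 2)) (h1 : |ξ| ≤ s0) (h2 : s0 ≤ C * s) :
    1 / ((|C1| + 1) * (C ^ 2 + 1)) ≤ s ^ 2 / D := by
  have h3 : ξ ^ 2 ≤ (C * s) ^ 2 := by
    rw [← sq_abs ξ]; gcongr; exact h1.trans h2
  have h4 : D ≤ (|C1| + 1) * ((C ^ 2 + 1) * s ^ 2) := by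
    refine hD1.trans (mul_le_mul (by linarith [le_abs_self C1]) (by nlinarith) (by positivity)
      (by positivity))
  rw [le_div_iff₀ hD]
  calc 1 / ((|C1| + 1) * (C ^ 2 + 1)) * D
      ≤ 1 / ((|C1| + 1) * (C ^ 2 + 1)) * ((|C1| + 1) * ((C ^ 2 + 1) * s ^ 2)) := by
        gcongr
    _ = s ^ 2 := by field_simp

lemma j1_three {F : ℝ → ℝ} {S : Set ℝ} (hS : S.Finite) {d s0 a b : ℝ} (h0 : 0 ≤ s0)
    (hd : s0 ≤ d) (hF : ContinuousOn F (Icc (-d) d))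
    (h : ∀ x ∈ Ioo (-d) d, x ∉ S → ∃ f', HasDerivAt F f' x ∧ -b ≤ f' ∧ (|x| ≤ s0 → a - b ≤ f')) :
    2 * a * s0 - 2 * b * d ≤ F d - F (-d) := by
  have h1 := le_sub_of_le_deriv (c := -b) (a := -d) (b := -s0) hS (by linarith)
    (hF.mono (Icc_subset_Icc_right (by linarith))) fun x hx hxS => by
      obtain ⟨f', e1, e2, -⟩ := h x ⟨hx.1, by linarith [hx.2]⟩ hxS
      exact ⟨f', e1, e2⟩
  have h2 := le_sub_of_le_deriv (c := a - b) (a := -s0) (b := s0) hS (by linarith)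
    (hF.mono (Icc_subset_Icc (by linarith) hd)) fun x hx hxS => by
      obtain ⟨f', e1, -, e2⟩ := h x ⟨by linarith [hx.1], by linarith [hx.2]⟩ hxS
      exact ⟨f', e1, e2 (abs_le.2 ⟨hx.1.le, hx.2.le⟩)⟩
  have h3 := le_sub_of_le_deriv (c := -b) (a := s0) (b := d) hS hd
    (hF.mono (Icc_subset_Icc_left (by linarith))) fun x hx hxS => by
      obtain ⟨f', e1, e2, -⟩ := h x ⟨by linarith [hx.1], hx.2⟩ hxS
      exact ⟨f', e1, e2⟩
  linarith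

lemma j1_mt {mt : ℝ → ℝ} (h : AnalyticAt ℝ mt 0) :
    ∃ L r : ℝ, 0 ≤ L ∧ 0 < r ∧ r ≤ 1 ∧ ∀ ξ, |ξ| ≤ r → |mt ξ - mt 0| ≤ L * |ξ| := by
  obtain ⟨L, hL, h1⟩ := h.differentiableAt.isBigO_sub.exists_pos
  obtain ⟨r, hr, h2⟩ := Metric.eventually_nhds_iff.1 h1.bound
  refine ⟨L, min (r / 2) 1, hL.le, by positivity, min_le_right _ _, fun ξ hξ => ?_⟩
  have := h2 (y := ξ) (by
    rw [Real.dist_eq, sub_zero]; linarith [min_le_left (r / 2) 1])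
  simpa using this

theorem j1S (hLLder : LLderStmt) : J1Stmt := by
  intro m mt m0 d0 u hM hm hm3 hmt hmm ⟨d1, hd1, hd10, hK⟩
  by_contra hμ
  obtain ⟨⟨c, C1, hc, hDh⟩, -, -⟩ := hLLder m0 hm hm3
  obtain ⟨L, r, hL, hr, hr1, hLr⟩ := j1_mt hmt
  obtain ⟨E, hE0, hE⟩ := j1_err (L := L) (M := |mt 0| + L) (mt 0) hm hc hL (by positivity)
  obtain ⟨P, hP0, hP⟩ := j1_pi hm hc
  obtain ⟨K1, hK1⟩ := hK d1 ⟨hd1, le_rfl⟩
  obtain ⟨C, hC, hsz⟩ := hK1.size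
  obtain ⟨C2, hC2⟩ : ∃ C2, C2 = 2 / (6 + 5 * m0) := ⟨_, rfl⟩
  have hC20 : C2 ≠ 0 := by
    have h4 : 0 < 6 + 5 * m0 := by linarith
    rw [hC2]; positivity
  obtain ⟨g, hg1, hg⟩ : ∃ g : ℝ, |g| = 1 ∧ 0 < g * (mt 0 * C2) := by
    rcases (mul_ne_zero hμ hC20).lt_or_gt with h | h
    · exact ⟨-1, by simp, by linarith⟩
    · exact ⟨1, by simp, by linarith⟩
  obtain ⟨a, ha⟩ : ∃ a, a = g * (mt 0 * C2) * (1 / ((|C1| + 1) * (C ^ 2 + 1))) := ⟨_, rfl⟩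
  have ha0 : 0 < a := by rw [ha]; positivity
  obtain ⟨d, hd, hdr, hdd, hda⟩ : ∃ d : ℝ, 0 < d ∧ d ≤ r ∧ d ≤ d1 ∧ (E * C + 1) * d ≤ a / 2 :=
    ⟨min (min r d1) (a / 2 / (E * C + 1)), by positivity,
      (min_le_left _ _).trans (min_le_left _ _), (min_le_left _ _).trans (min_le_right _ _), by
        rw [← le_div_iff₀' (by positivity)]; exact min_le_right _ _⟩
  obtain ⟨K, hKd⟩ := hK d ⟨hd, hdd⟩
  obtain ⟨c1, C3, hbd⟩ := hKd.bdry
  have sub1 : Icc (-d) d ⊆ Icc (-d1) d1 := Icc_subset_Icc (by linarith) hdd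
  have sub0 : Icc (-d) d ⊆ Icc (-d0) d0 := Icc_subset_Icc (by linarith) (by linarith)
  have hz : (0 : ℝ) ∈ Icc (-d) d := ⟨by linarith, hd.le⟩
  have hs0 : ∀ n, 0 < -u n 0 := fun n => by linarith [hM.lt n 0 (sub0 hz)]
  have hlim : Tendsto (fun n => -u n 0) atTop (𝓝 0) := by
    simpa using (hM.unif.tendsto_at (sub0 hz)).neg
  have hDpos : ∀ n, ∀ ξ ∈ Icc (-d) d, 0 < Dh m0 (u n ξ) ξ := fun n ξ hξ =>
    (mul_pos hc (j1_basic (hM.lt n ξ (sub0 hξ))).2.2.1).trans_le (hDh _ _).1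
  have e2 : 3 + 2 * m0 = 1 + (2 + 2 * m0) := by ring
  have hν : 0 < 2 + 2 * m0 := by linarith
  -- lower bound
  have low : ∀ n, -u n 0 ≤ d → a * (-u n 0) ≤
      g * (K n d + mt 0 * j1Pi m0 (u n d) d)
        - g * (K n (-d) + mt 0 * j1Pi m0 (u n (-d)) (-d)) := by
    intro n hn
    have hu : ContinuousOn (u n) (Icc (-d) d) := fun ξ hξ =>
      (continuousAt_of_cube (hM.ode n ξ (sub0 hξ)).continuousAt).continuousWithinAt
    have hPc : ContinuousOn (fun ξ => j1Pi m0 (u n ξ) ξ) (Icc (-d) d) := by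
      unfold j1Pi
      refine ContinuousOn.div (by fun_prop) (by unfold Dh; fun_prop) fun ξ hξ => ?_
      have h1 : 0 < 1 + m0 := by linarith
      have h2 : 0 < 3 + 2 * m0 := by linarith
      have h4 : 0 < 6 + 5 * m0 := by linarith
      have := hDpos n ξ hξ
      positivity
    have h := j1_three (F := fun ξ => g * (K n ξ + mt 0 * j1Pi m0 (u n ξ) ξ)) (hKd.fin n)
      (a := a) (b := E * (C * (-u n 0))) (hs0 n).le hn
      (continuousOn_const.mul ((hKd.cont n).add (continuousOn_const.mul hPc))) fun ξ hξ hS => by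
        have hξ' := Ioo_subset_Icc_self hξ
        have hu0 : u n ξ ≠ 0 := fun h => hS ⟨hξ', h⟩
        have hlt := hM.lt n ξ (sub0 hξ')
        have hD := hDpos n ξ hξ'
        have hξr : |ξ| ≤ r := (abs_le.2 hξ').trans hdr
        have h1 := j1_der (m := m ξ) hm hD.ne'
          (hasDerivAt_of_cube (hM.ode n ξ (sub0 hξ')) hu0) hu0 (by field_simp)
        have h2 := ((hKd.der n ξ hξ hu0).add (h1.const_mul (mt 0))).const_mul g
        have h3 := hE (u n ξ) ξ (mt ξ) hlt (hDh _ _).1 (hLr ξ hξr) (by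
          have h4 := hLr ξ hξr
          have h5 := mul_le_mul_of_nonneg_left (hξr.trans hr1) hL
          have := abs_sub_abs_le_abs_sub (mt ξ) (mt 0)
          linarith)
        obtain ⟨z1, z2, -, -⟩ := hsz n ξ (sub1 hξ')
        obtain ⟨er, her⟩ : ∃ er, er = -(mt ξ - mt 0) * (ξ - u n ξ) * (2 * u n ξ + ξ)
          / ((3 + 2 * m0) * Dh m0 (u n ξ) ξ)
          + mt 0 * mt ξ * (ξ * (j1Gam m0 (u n ξ) ξ * (ξ ^ 2 - u n ξ ^ 2))) := ⟨_, rfl⟩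
        rw [← her] at h3
        have h5 : -(E * (C * (-u n 0))) ≤ g * er := by
          have h6 : |g * er| ≤ E * (C * (-u n 0)) := by
            rw [abs_mul, hg1, one_mul]
            exact h3.trans (mul_le_mul_of_nonneg_left z1 hE0)
          exact (abs_le.1 h6).1
        have hs := sub_pos.2 hlt
        refine ⟨g * (mt 0 * C2) * ((ξ - u n ξ) ^ 2 / Dh m0 (u n ξ) ξ) + g * er,
          h2.congr_deriv ?_, ?_, fun h6 => ?_⟩
        · rw [her, hmm ξ, ← hC2]; ring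
        · have : 0 ≤ g * (mt 0 * C2) * ((ξ - u n ξ) ^ 2 / Dh m0 (u n ξ) ξ) := by positivity
          linarith
        · have h7 := mul_le_mul_of_nonneg_left
            (j1_main hs hD (hDh _ _).2 h6 (z2 h6)) hg.le
          rw [← ha] at h7
          linarith
    have h2 : E * C * d * (-u n 0) ≤ a / 2 * (-u n 0) :=
      mul_le_mul_of_nonneg_right (by nlinarith) (hs0 n).le
    nlinarith
  -- upper bound
  obtain ⟨Q, hQ⟩ : ∃ Q, Q = C / d ^ (2 + 2 * m0) := ⟨_, rfl⟩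
  have hdp : 0 < d ^ (2 + 2 * m0) := Real.rpow_pos_of_pos hd _
  have hQ0 : 0 < Q := by rw [hQ]; positivity
  have hend : ∀ n, ∀ ξ ∈ Icc (-d) d, |ξ| = d →
      ξ - u n ξ ≤ Q * ((-u n 0) * (-u n 0) ^ (2 + 2 * m0)) := fun n ξ hξ hξd => by
    have z3 := (hsz n ξ (sub1 hξ)).2.2.1
    rw [hξd, e2, Real.rpow_add (hs0 n), Real.rpow_one] at z3
    rw [hQ, div_mul_eq_mul_div, le_div_iff₀ hdp]
    exact z3
  obtain ⟨R, hR⟩ : ∃ R, R = (|c1| + |C3| + 2 * (|mt 0| * P)) * Q := ⟨_, rfl⟩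
  have hlim2 : Tendsto (fun n => R * (-u n 0) ^ (2 + 2 * m0)) atTop (𝓝 0) := by
    have := (hlim.rpow_const (p := 2 + 2 * m0) (Or.inr hν.le)).const_mul R
    rwa [Real.zero_rpow hν.ne', mul_zero] at this
  have hlim3 : Tendsto (fun n => C * (-u n 0)) atTop (𝓝 0) := by
    simpa using hlim.const_mul C
  obtain ⟨n, h1, h2, h3, h4⟩ := (hbd.and ((hlim.eventually (gt_mem_nhds hd)).and
    ((hlim2.eventually (gt_mem_nhds ha0)).and (hlim3.eventually (gt_mem_nhds one_pos))))).exists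
  have hdm : d ∈ Icc (-d) d := ⟨by linarith, le_rfl⟩
  have hdm' : -d ∈ Icc (-d) d := ⟨le_rfl, by linarith⟩
  have l1 := hM.lt n d (sub0 hdm)
  have l2 := hM.lt n (-d) (sub0 hdm')
  have s2 : -d - u n (-d) ≤ 1 := (hsz n (-d) (sub1 hdm')).1.trans h4.le
  have ad : |d| = d := abs_of_pos hd
  have ad' : |-d| = d := by rw [abs_neg, ad]
  have p1 := hP _ _ l1 (hDh _ _).1
  have p2 := hP _ _ l2 (hDh _ _).1
  have t1 := hend n d hdm ad
  have t2 := hend n (-d) hdm' ad'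
  obtain ⟨Z, hZ⟩ : ∃ Z, Z = Q * ((-u n 0) * (-u n 0) ^ (2 + 2 * m0)) := ⟨_, rfl⟩
  rw [← hZ] at t1 t2
  have hs2 := sub_pos.2 l2
  have q1 : |mt 0 * j1Pi m0 (u n d) d| ≤ |mt 0| * (P * Z) := by
    rw [abs_mul]; gcongr; exact p1.trans (by gcongr)
  have q2 : |mt 0 * j1Pi m0 (u n (-d)) (-d)| ≤ |mt 0| * (P * Z) := by
    rw [abs_mul]; gcongr; exact p2.trans (by gcongr)
  have q3 : |c1 * (-d - u n (-d))| ≤ |c1| * Z := by
    rw [abs_mul, abs_of_pos hs2]; gcongr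
  have q4 : C3 * (-d - u n (-d)) ^ 2 ≤ |C3| * Z :=
    mul_le_mul (le_abs_self _) (by nlinarith) (sq_nonneg _) (abs_nonneg _)
  have q5 : |(K n d + mt 0 * j1Pi m0 (u n d) d) - (K n (-d) + mt 0 * j1Pi m0 (u n (-d)) (-d))|
      ≤ (|c1| + |C3| + 2 * (|mt 0| * P)) * Z := by
    have a1 := abs_le.1 (h1.trans q4)
    have a2 := abs_le.1 q1
    have a3 := abs_le.1 q2
    have a4 := abs_le.1 q3
    rw [abs_le]
    constructor <;> linarith [a1.1, a1.2, a2.1, a2.2, a3.1, a3.2, a4.1, a4.2]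
  have q6 := low n h2.le
  rw [← mul_sub] at q6
  have q7 := (q6.trans (le_abs_self _))
  rw [abs_mul, hg1, one_mul] at q7
  have q8 : (|c1| + |C3| + 2 * (|mt 0| * P)) * Z
      = R * (-u n 0) ^ (2 + 2 * m0) * (-u n 0) := by rw [hR, hZ]; ring
  have q9 := mul_lt_mul_of_pos_right h3 (hs0 n)
  linarith

end Pool.Agent.MP_c2f0e4_an

end
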