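import Pool.Agent.Mg.F402458.G1bc3d2

section

open Set Filter Topology Real Asymptotics

namespace Pool.Agent.MP_c2f0e4_an

lemma t2a_neg {V u : ℝ} (h : u < V) (h1 : V + 2 * u < 0) :
    (V - u) * -(V + 2 * u) / u ^ 2 ≤ 9 ∧ -(V + 2 * u) / u ^ 2 * |u| ≤ 3 := by
  have hu : u < 0 := by linarith
  have h2 : 0 < u ^ 2 := by nlinarith
  rw [div_le_iff₀ h2, div_mul_eq_mul_div, div_le_iff₀ h2, abs_of_neg hu]
  constructor <;> nlinarith

lemma t2a_alg1 {C V u E al : ℝ} (h : u < V) (hE : 0 ≤ E) (h0 : 0 ≤ al) (h1 : al ≤ C) :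
    -E * al * (V - u) ^ 2 * (V + 2 * u) / u ^ 2 ≤ 9 * C * (E * (V - u)) := by
  have hs := sub_pos.2 h
  have hC := h0.trans h1
  rcases lt_or_ge (V + 2 * u) 0 with h2 | h2
  · have h3 := mul_le_mul h1 (t2a_neg h h2).1
      (div_nonneg (mul_nonneg hs.le (by linarith)) (sq_nonneg _)) hC
    calc _ = al * ((V - u) * -(V + 2 * u) / u ^ 2) * (E * (V - u)) := by ring
      _ ≤ C * 9 * (E * (V - u)) := mul_le_mul_of_nonneg_right h3 (by positivity)
      _ = _ := by ring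
  · have : 0 ≤ E * al * (V - u) ^ 2 * (V + 2 * u) / u ^ 2 := by positivity
    have : 0 ≤ 9 * C * (E * (V - u)) := by positivity
    rw [neg_mul, neg_mul, neg_mul, neg_div]
    linarith

lemma t2a_alg2 {C K s V u E al : ℝ} (h : u < V) (hE : 0 ≤ E) (hE' : E ≤ C) (h0 : 0 ≤ al)
    (h1 : al ≤ C) (hK : 1 ≤ K) (hs0 : 0 < s) (hs : V - u ≤ K * s) :
    -E * al * (V - u) ^ 2 * (V + 2 * u) / u ^ 2 * (|u| + s) ≤ 12 * C ^ 2 * K ^ 2 * s ^ 2 := by
  have hs' := sub_pos.2 h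
  have hC := h0.trans h1
  rcases lt_or_ge (V + 2 * u) 0 with h2 | h2
  · have h3 := mul_le_mul_of_nonneg_right (t2a_alg1 h hE h0 h1) hs0.le
    have h4 : E * (V - u) ≤ C * (K ^ 2 * s) :=
      mul_le_mul hE' (hs.trans (by nlinarith)) hs'.le hC
    have h5 := mul_le_mul (mul_le_mul (mul_le_mul hE' h1 h0 hC) (pow_le_pow_left₀ hs'.le hs 2)
      (by positivity) (by positivity)) (t2a_neg h h2).2
      (mul_nonneg (div_nonneg (by linarith) (sq_nonneg _)) (abs_nonneg _)) (by positivity)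
    have h6 := mul_le_mul_of_nonneg_left h4 (by positivity : 0 ≤ 9 * C * s)
    calc _ = E * al * (V - u) ^ 2 * (-(V + 2 * u) / u ^ 2 * |u|) +
          -E * al * (V - u) ^ 2 * (V + 2 * u) / u ^ 2 * s := by ring
      _ ≤ _ := by linarith
  · have : 0 ≤ E * al * (V - u) ^ 2 * (V + 2 * u) / u ^ 2 * (|u| + s) := by positivity
    have : 0 ≤ 12 * C ^ 2 * K ^ 2 * s ^ 2 := by positivity
    rw [neg_mul, neg_mul, neg_mul, neg_div, neg_mul]
    linarith

lemma t2a_alg3 {c C K s h V u E al be D : ℝ} (hc : 0 < c) (hV : u < V) (hE : 0 ≤ E) (hE' : E ≤ C)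
    (h0 : 0 ≤ al) (h1 : al ≤ C) (hK : 1 ≤ K) (hs0 : 0 < s) (hs : V - u ≤ K * s) (hu : u ≠ 0)
    (hbe : c ≤ be) (hu' : c ≤ be + al * V ^ 3 / u ^ 2) (hh : h ^ 2 = s ^ 3)
    (hD : c ≤ D * (|u| + s)) :
    E * al * (V - u) ^ 2 * (V + 2 * u) / u ^ 2 ≤ 12 * C ^ 2 * K ^ 3 / c * s ^ 2 * D +
      7 * C * (8 * C * K ^ 3 / c + 1) *
        ((be + al * V ^ 3 / u ^ 2) * h ^ 2 / (h ^ 2 + u ^ 2)) := by
  have hs' := sub_pos.2 hV
  have hC := h0.trans h1
  have hu2 : 0 < u ^ 2 := by positivity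
  have hD0 : 0 < D := (mul_pos_iff_of_pos_right (by positivity)).1 (hc.trans_le hD)
  have hp := hc.trans_le hu'
  have t1 : 0 ≤ 12 * C ^ 2 * K ^ 3 / c * s ^ 2 * D := by positivity
  have t2 : 0 ≤ 7 * C * (8 * C * K ^ 3 / c + 1) *
      ((be + al * V ^ 3 / u ^ 2) * h ^ 2 / (h ^ 2 + u ^ 2)) := by positivity
  rcases le_or_gt (V + 2 * u) 0 with h2 | h2
  · exact (div_nonpos_of_nonpos_of_nonneg (mul_nonpos_of_nonneg_of_nonpos (by positivity) h2)
      hu2.le).trans (add_nonneg t1 t2)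
  have hV0 : 0 < V := by linarith
  rcases le_or_gt s u with h3 | h3
  · have hu0 : 0 < u := hs0.trans_le h3
    rw [abs_of_pos hu0] at hD
    have h4 : V + 2 * u ≤ 6 * K * u := by nlinarith
    have h5 := mul_le_mul (mul_le_mul (mul_le_mul hE' h1 h0 hC) (pow_le_pow_left₀ hs'.le hs 2)
      (by positivity) (by positivity)) h4 h2.le (by positivity)
    have h6 : c ≤ 2 * D * u := by nlinarith
    refine le_add_of_le_of_nonneg ?_ t2
    rw [div_le_iff₀ hu2]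
    refine h5.trans ?_
    have h7 := mul_le_mul_of_nonneg_left h6 (by positivity : 0 ≤ 6 * C ^ 2 * K ^ 3 / c * s ^ 2 * u)
    refine le_trans (le_of_eq ?_) (h7.trans (le_of_eq (by ring)))
    field_simp
  · refine le_add_of_nonneg_of_le t1 ?_
    have h4 : V ≤ 2 * K * s := by nlinarith
    have h5 : al * V ^ 3 ≤ 8 * C * K ^ 3 * h ^ 2 := by
      rw [hh]
      exact (mul_le_mul h1 (pow_le_pow_left₀ hV0.le h4 3) (by positivity) hC).trans_eq (by ring)
    have h6 : (V - u) ^ 2 * (V + 2 * u) ≤ 7 * V ^ 3 := by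
      have := mul_le_mul (pow_le_pow_left₀ hs'.le (by linarith : V - u ≤ 3 / 2 * V) 2)
        (by linarith : V + 2 * u ≤ 3 * V) h2.le (by positivity)
      nlinarith [pow_pos hV0 3]
    have h7 : E * al * (V - u) ^ 2 * (V + 2 * u) ≤ 7 * C * (al * V ^ 3) := by
      have := mul_le_mul (mul_le_mul_of_nonneg_right hE' h0) h6 (by positivity) (by positivity)
      linarith
    have ht : 0 ≤ al * V ^ 3 := by positivity
    generalize al * V ^ 3 = t at *
    refine (div_le_div_of_nonneg_right h7 hu2.le).trans ?_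
    rw [mul_div_assoc, mul_assoc (7 * C)]
    refine mul_le_mul_of_nonneg_left ?_ (by positivity)
    rw [← mul_div_assoc, le_div_iff₀ (by positivity)]
    have h8 : t / u ^ 2 * u ^ 2 = t := div_mul_cancel₀ _ hu2.ne'
    have h9 : 0 ≤ t / u ^ 2 := by positivity
    have h10 : 8 * C * K ^ 3 / c * c = 8 * C * K ^ 3 := div_mul_cancel₀ _ hc.ne'
    have h11 : 0 ≤ 8 * C * K ^ 3 / c := by positivity
    generalize 8 * C * K ^ 3 / c = T at *
    generalize t / u ^ 2 = w at *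
    have h12 : 0 ≤ h ^ 2 := sq_nonneg h
    nlinarith [mul_nonneg (mul_nonneg h11 h9) h12, mul_nonneg (mul_nonneg h11 (sub_nonneg.2 hbe)) h12,
      mul_nonneg (hc.le.trans hbe) h12]

lemma t2a_sqrt (r : ℝ) : √(1 + r ^ 2) ≤ 1 + |r| :=
  Real.sqrt_le_iff.2 ⟨by positivity, by nlinarith [sq_abs r, abs_nonneg r]⟩

lemma t2a_arsinh {u : ℝ → ℝ} {u' x c s : ℝ} (hu : HasDerivAt u u' x) (hc : 0 < c) (h : c ≤ u')
    (hs : 0 < s) :
    ∃ D, HasDerivAt (fun y => arsinh (u y / s)) D x ∧ c ≤ D * (|u x| + s) := by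
  refine ⟨_, (hu.div_const s).arsinh, h.trans ?_⟩
  have h1 := t2a_sqrt (u x / s)
  have h2 : 0 < √(1 + (u x / s) ^ 2) := by positivity
  have h3 : u' / s * (|u x| + s) = u' * (1 + |u x / s|) := by
    rw [abs_div, abs_of_pos hs]
    field_simp
    ring
  rw [smul_eq_mul, mul_assoc, le_inv_mul_iff₀ h2, h3, mul_comm]
  exact mul_le_mul_of_nonneg_left h1 (hc.le.trans h)

lemma t2a_arsinh_le {u B s : ℝ} (hu : |u| ≤ B) (hs : 0 < s) (h1 : s ≤ 1) :
    |arsinh (u / s)| ≤ (2 * B + 1) * (1 + |Real.log s|) := by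
  have hB := (abs_nonneg u).trans hu
  have h2 : arsinh (B / s) ≤ (2 * B + 1) * (1 + |Real.log s|) := by
    have h3 := t2a_sqrt (B / s)
    rw [abs_of_nonneg (by positivity)] at h3
    have h4 : B / s + √(1 + (B / s) ^ 2) ≤ (2 * B + 1) / s := by
      have : 1 ≤ 1 / s := one_le_one_div hs h1
      rw [add_div, mul_div_assoc]
      linarith
    have h5 := Real.log_le_log (by positivity) h4
    rw [Real.log_div (by positivity) hs.ne'] at h5
    have h6 := Real.log_le_sub_one_of_pos (by positivity : 0 < 2 * B + 1)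
    have h7 := neg_le_abs (Real.log s)
    rw [arsinh]
    nlinarith [mul_nonneg hB (abs_nonneg (Real.log s))]
  refine abs_le.2 ⟨?_, (arsinh_le_arsinh.2 ?_).trans h2⟩
  · rw [neg_le, ← arsinh_neg, ← neg_div]
    exact (arsinh_le_arsinh.2 (div_le_div_of_nonneg_right ((neg_le_abs u).trans hu) hs.le)).trans h2
  · exact div_le_div_of_nonneg_right ((le_abs_self u).trans hu) hs.le

lemma t2a_log {s : ℝ} (hs : 0 < s) (h1 : s ≤ 1) : s * (1 + |Real.log s|) ≤ 3 * √s := by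
  have h2 : 0 < √s := by positivity
  have h3 : √s ≤ 1 := Real.sqrt_le_one.2 h1
  have h4 := Real.one_sub_inv_le_log_of_pos h2
  rw [Real.log_sqrt hs.le] at h4
  rw [abs_of_nonpos (Real.log_nonpos hs.le h1)]
  have h5 : s * (√s)⁻¹ = √s := by
    rw [← div_eq_mul_inv, Real.div_sqrt]
  have h6 := Real.mul_self_sqrt hs.le
  nlinarith [mul_le_mul_of_nonneg_left h4 hs.le]

variable {d c C : ℝ} {V al be E : ℝ → ℝ} {U : ℕ → ℝ → ℝ}

lemma t2a_anti (h : TSeq d c C V al be E U) (n : ℕ) {f : ℝ → ℝ}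
    (hf : ContinuousOn f (Icc (-d) d))
    (hd : ∀ x ∈ Ioo (-d) d, x ≠ 0 → U n x ≠ 0 → ∃ f', HasDerivAt f f' x ∧ f' ≤ 0) :
    ∀ x ∈ Icc (-d) d, ∀ y ∈ Icc x d, f y ≤ f x := fun x hx y hy => by
  have := sub_le_of_deriv_le ((h.fin n).insert 0) hy.1 (hf.mono (Icc_subset_Icc hx.1 hy.2))
    fun z hz hS => by
      have h1 : z ∈ Ioo (-d) d := ⟨hx.1.trans_lt hz.1, hz.2.trans_le hy.2⟩
      exact hd z h1 (fun h0 => hS (Or.inl h0)) fun h0 => hS (Or.inr ⟨Ioo_subset_Icc_self h1, h0⟩)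
  linarith

lemma t2a_step1 (h : TSeq d c C V al be E U) :
    ∃ K : ℝ, 1 ≤ K ∧ ∀ n, ∀ x ∈ Icc (-d) d, V x - U n x ≤ K * (V (-d) - U n (-d)) := by
  have hd := h.dpos
  have hc := h.cpos
  have hm : -d ∈ Icc (-d) d := left_mem_Icc.2 (by linarith)
  have hC : c ≤ C := (h.bdE _ hm).1.trans (h.bdE _ hm).2
  have hC0 := hc.trans_le hC
  refine ⟨C / c * exp (18 * C * d), one_le_mul_of_one_le_of_one_le ((one_le_div hc).2 hC)
    (one_le_exp (by positivity)), fun n x hx => ?_⟩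
  have h1 := t2a_anti h n (f := fun y => E y * (V y - U n y) * exp (-(9 * C) * y))
    ((h.contE.mul (h.contV.sub (h.contU n))).mul (by fun_prop)) (fun y hy h0 hu => by
      have hy' := Ioo_subset_Icc_self hy
      refine ⟨_, (h.derP n y hy h0 hu).mul ((hasDerivAt_id' y).const_mul (-(9 * C))).exp, ?_⟩
      have h2 := t2a_alg1 (h.lt n y hy') (hc.le.trans (h.bdE y hy').1)
        (hc.le.trans (h.bdal y hy' h0).1) (h.bdal y hy' h0).2
      nlinarith [mul_le_mul_of_nonneg_right h2 (exp_pos (-(9 * C) * y)).le]) _ hm x hx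
  have h2 := sub_pos.2 (h.lt n x hx)
  have h3 := sub_pos.2 (h.lt n _ hm)
  have h4 : exp (-(9 * C) * -d) ≤ exp (18 * C * d) * exp (-(9 * C) * x) := by
    rw [← exp_add, exp_le_exp]
    nlinarith [hx.2]
  have h5 := mul_le_mul (mul_le_mul_of_nonneg_right (h.bdE _ hm).2 h3.le) h4 (exp_pos _).le
    (by positivity)
  have h6 := le_of_mul_le_mul_right ((h1.trans h5).trans_eq (mul_assoc _ _ _).symm) (exp_pos _)
  rw [div_mul_eq_mul_div, div_mul_eq_mul_div, le_div_iff₀ hc]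
  nlinarith [mul_le_mul_of_nonneg_right (h.bdE x hx).1 h2.le]

theorem t2aS : T2aStmt := by
  intro d c C V al be E U h
  obtain ⟨K, hK, h1⟩ := t2a_step1 h
  have hd := h.dpos
  have hc := h.cpos
  have hm : -d ∈ Icc (-d) d := left_mem_Icc.2 (by linarith)
  have hC := hc.trans_le ((h.bdE _ hm).1.trans (h.bdE _ hm).2)
  obtain ⟨B, hB⟩ := isCompact_Icc.exists_bound_of_continuousOn h.contV
  have hB0 := (norm_nonneg _).trans (hB _ hm)
  obtain ⟨P, hP0, hP, hP'⟩ : ∃ P : ℝ, 0 ≤ P ∧ P = 12 * C ^ 2 * K ^ 3 / c ∧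
      12 * C ^ 2 * K ^ 2 ≤ P * c := by
    refine ⟨_, by positivity, rfl, ?_⟩
    rw [div_mul_cancel₀ _ hc.ne']
    exact mul_le_mul_of_nonneg_left (pow_le_pow_right₀ hK (by norm_num)) (by positivity)
  obtain ⟨Q, hQ0, hQ⟩ : ∃ Q : ℝ, 0 ≤ Q ∧ Q = 7 * C * (8 * C * K ^ 3 / c + 1) :=
    ⟨_, by positivity, rfl⟩
  obtain ⟨R, hR0, hR⟩ : ∃ R : ℝ, 0 ≤ R ∧ R = 2 * P * (2 * (B + K) + 1) :=
    ⟨_, by positivity, rfl⟩
  refine ⟨K + 3 * R + 4 * Q, by positivity, ?_⟩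
  filter_upwards [(h.unif.tendsto_at hm).eventually (lt_mem_nhds (sub_one_lt (V (-d))))] with n hn
  have hs := sub_pos.2 (h.lt n _ hm)
  have hs1 : V (-d) - U n (-d) ≤ 1 := by linarith
  have h2 := h1 n
  set s := V (-d) - U n (-d) with hsd
  have hL : ∀ x ∈ Icc (-d) d, |P * s ^ 2 * arsinh (U n x / s)| ≤
      R / 2 * s ^ 2 * (1 + |Real.log s|) := fun x hx => by
    have h3 : |U n x| ≤ B + K := by
      have h4 := abs_le.1 (hB x hx)
      have h5 := h.lt n x hx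
      exact abs_le.2 ⟨by nlinarith [h2 x hx], by linarith⟩
    rw [abs_mul, abs_of_nonneg (by positivity), hR]
    exact (mul_le_mul_of_nonneg_left (t2a_arsinh_le h3 hs hs1) (by positivity)).trans_eq (by ring)
  have cψ := h.contE.mul (h.contV.sub (h.contU n))
  have cL : ContinuousOn (fun y => P * s ^ 2 * arsinh (U n y / s)) (Icc (-d) d) :=
    continuousOn_const.mul (continuous_arsinh.comp_continuousOn ((h.contU n).div_const s))
  have h3 := t2a_anti h n (cψ.sub cL) fun y hy h0 hu => by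
    have hy' := Ioo_subset_Icc_self hy
    obtain ⟨D, hD, hD'⟩ := t2a_arsinh (h.derU n y hy h0 hu).1 hc (h.derU n y hy h0 hu).2 hs
    refine ⟨_, (h.derP n y hy h0 hu).sub (hD.const_mul _), sub_nonpos.2 ?_⟩
    refine le_of_mul_le_mul_right ((t2a_alg2 (h.lt n y hy') (hc.le.trans (h.bdE y hy').1)
      (h.bdE y hy').2 (hc.le.trans (h.bdal y hy' h0).1) (h.bdal y hy' h0).2 hK hs
      (h2 y hy')).trans ?_) (by positivity)
    nlinarith [mul_le_mul_of_nonneg_left hD' (by positivity : 0 ≤ P * s ^ 2),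
      mul_le_mul_of_nonneg_right hP' (sq_nonneg s)]
  have h4 : ∀ x ∈ Icc (-d) d, ∀ y ∈ Icc x d, E y * (V y - U n y) - E x * (V x - U n x) ≤
      R * s ^ 2 * (1 + |Real.log s|) := fun x hx y hy => by
    have h5 := h3 x hx y hy
    simp only [Pi.sub_apply, Pi.mul_apply] at h5
    linarith [abs_le.1 (hL x hx), abs_le.1 (hL y ⟨hx.1.trans hy.1, hy.2⟩)]
  have hh : 0 < s * √s := by positivity
  have hh2 : (s * √s) ^ 2 = s ^ 3 := by rw [mul_pow, Real.sq_sqrt hs.le, ← pow_succ]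
  have h6 : R * s ^ 2 * (1 + |Real.log s|) ≤ 3 * R * (s * √s) := by
    nlinarith [mul_le_mul_of_nonneg_left (t2a_log hs hs1) (by positivity : 0 ≤ R * s)]
  generalize hg : s * √s = g at hh hh2 h6
  have h5 := t2a_anti h n (f := fun y => -(E y * (V y - U n y)) -
      P * s ^ 2 * arsinh (U n y / s) - Q * (g * arctan (U n y / g)))
    ((cψ.neg.sub cL).sub (continuousOn_const.mul (continuousOn_const.mul
      (continuous_arctan.comp_continuousOn ((h.contU n).div_const g))))) fun y hy h0 hu => by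
    have hy' := Ioo_subset_Icc_self hy
    obtain ⟨D, hD, hD'⟩ := t2a_arsinh (h.derU n y hy h0 hu).1 hc (h.derU n y hy h0 hu).2 hs
    refine ⟨_, ((h.derP n y hy h0 hu).neg.sub (hD.const_mul _)).sub
      ((((h.derU n y hy h0 hu).1.div_const g).arctan.const_mul g).const_mul Q), ?_⟩
    have h7 := t2a_alg3 hc (h.lt n y hy') (hc.le.trans (h.bdE y hy').1)
      (h.bdE y hy').2 (hc.le.trans (h.bdal y hy' h0).1) (h.bdal y hy' h0).2 hK hs (h2 y hy') hu
      (h.bdbe y hy').1 (h.derU n y hy h0 hu).2 hh2 hD'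
    have h8 : g * (1 / (1 + (U n y / g) ^ 2) * ((be y + al y * V y ^ 3 / U n y ^ 2) / g)) =
        (be y + al y * V y ^ 3 / U n y ^ 2) * g ^ 2 / (g ^ 2 + U n y ^ 2) := by field_simp
    rw [h8, neg_mul, neg_mul, neg_mul, neg_div, neg_neg]
    rw [← hP, ← hQ] at h7
    linarith
  have h7 : ∀ t : ℝ, |Q * (g * arctan t)| ≤ 2 * Q * g := fun t => by
    have h8 : |arctan t| ≤ 2 := abs_le.2
      ⟨by linarith [neg_pi_div_two_lt_arctan t, pi_le_four], by
        linarith [arctan_lt_pi_div_two t, pi_le_four]⟩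
    rw [← mul_assoc, abs_mul, abs_of_nonneg (by positivity)]
    nlinarith [mul_le_mul_of_nonneg_left h8 (by positivity : 0 ≤ Q * g)]
  intro x hx
  refine ⟨(h2 x hx).trans (mul_le_mul_of_nonneg_right (by linarith) hs.le), ?_,
    fun y hy => (h4 x hx y hy).trans (mul_le_mul_of_nonneg_right
      (mul_le_mul_of_nonneg_right (by linarith) (sq_nonneg s)) (by positivity))⟩
  have h8 := h4 _ hm x hx
  have h9 := h5 _ hm x hx
  have h10 : 0 ≤ K * g := by positivity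
  have h11 : 0 ≤ Q * g := by positivity
  rw [mul_assoc, hg]
  refine abs_le.2 ⟨?_, by linarith⟩
  linarith [abs_le.1 (hL x hx), abs_le.1 (hL _ hm), abs_le.1 (h7 (U n x / g)),
    abs_le.1 (h7 (U n (-d) / g))]

end Pool.Agent.MP_c2f0e4_an

end

section

open Set Filter Topology Real Asymptotics

namespace Pool.Agent.MP_c2f0e4_an

lemma mono_sin {a0 a1 a2 a3 x y : ℝ} (h1 : x < y) (h2 : y < x + 2 * π)
    (hx : deriv (Cub a0 a1 a2 a3) x < 0) (hy : deriv (Cub a0 a1 a2 a3) y < 0) :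
    sin y * cos x ≠ cos y * sin x := by
  intro h
  have h3 : sin (y - x - π) = 0 := by rw [sin_sub_pi, sin_sub, h, sub_self, neg_zero]
  have h4 := (sin_eq_zero_iff_of_lt_of_lt (by linarith) (by linarith)).1 h3
  have h5 : y = x + π := by linarith
  rw [h5, Cub.deriv, Cub.anti, ← Cub.deriv] at hy
  linarith

lemma mono_tan {x y : ℝ} (h : sin y * cos x ≠ cos y * sin x) (hx : cos x ≠ 0) (hy : cos y ≠ 0) :
    tan x ≠ tan y := by
  intro h1
  rw [tan_eq_sin_div_cos, tan_eq_sin_div_cos, div_eq_div_iff hx hy] at h1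
  exact h (by linarith)

lemma mono_gp {a0 a1 a2 a3 p q : ℝ} (h3 : 0 < a3) (h1 : a1 ≤ 2 * a3) (h : p < q) :
    Gp a0 a1 a2 a3 p < Gp a0 a1 a2 a3 q := by
  have e3 : p ^ 3 < q ^ 3 := cube_strictMono h
  have e5 : p ^ 5 < q ^ 5 := Odd.strictMono_pow (by decide) h
  have k1 := mul_le_mul_of_nonneg_left h.le (show 0 ≤ 2 * a3 - a1 by linarith)
  have k3 := mul_lt_mul_of_pos_left e3 (show 0 < 7 * a3 - a1 by linarith)
  have k5 := mul_lt_mul_of_pos_left e5 h3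
  unfold Gp
  linarith

lemma mono_gp_ne {a0 a1 a2 a3 p q : ℝ} (ha : (0 < a3 ∧ a1 ≤ 2 * a3) ∨ (a3 = 0 ∧ a1 ≠ 0))
    (h : p ≠ q) : Gp a0 a1 a2 a3 p ≠ Gp a0 a1 a2 a3 q := by
  wlog hl : p < q generalizing p q
  · exact (this h.symm (lt_of_le_of_ne (not_lt.1 hl) h.symm)).symm
  rcases ha with ⟨h3, h1⟩ | ⟨rfl, h1⟩
  · exact (mono_gp h3 h1 hl).ne
  · intro e
    have e3 : p ^ 3 < q ^ 3 := cube_strictMono hl
    have k : a1 * (3 * (q - p) + (q ^ 3 - p ^ 3)) = 0 := by unfold Gp at e; linarith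
    rcases mul_eq_zero.1 k with k | k
    · exact h1 k
    · linarith

lemma mono_gam (hGam : GamStmt) {a0 a1 a2 a3 b x y : ℝ} (hb : b ≠ 0)
    (ha : (0 < a3 ∧ a1 ≤ 2 * a3) ∨ (a3 = 0 ∧ a1 ≠ 0)) (h : sin y * cos x ≠ cos y * sin x)
    (hx : cos x ≠ 0) (hy : cos y ≠ 0) (zx : Cub a0 a1 a2 a3 x = 0) (zy : Cub a0 a1 a2 a3 y = 0) :
    gam (Cub a0 a1 a2 a3) (Lin b 0) x ≠ gam (Cub a0 a1 a2 a3) (Lin b 0) y := by
  rw [(hGam _ _ _ _ b x hb hx zx).1, (hGam _ _ _ _ b y hb hy zy).1]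
  intro e
  refine mono_gp_ne (a0 := a0) (a2 := a2) ha (mono_tan h hx hy) ?_
  exact (div_left_inj' (by positivity)).1 (add_right_cancel e)

lemma mono_lin (b x : ℝ) : Lin b 0 x = b * cos x := by simp [Lin]

theorem mono2S (hGam : GamStmt) : Mono2Stmt := by
  rintro a0 a1 a2 a3 b z1 z2 V hb ha ⟨l1, l2, t1, t2, d1, d2, -⟩ ⟨w1, w2, p1, p2, hs, hg⟩
  have h := mono_sin l1 l2 d1 d2
  rw [mono_lin, mono_lin] at hs
  rw [mono_lin] at hg
  have c1 : cos z1 ≠ 0 := by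
    intro c
    have c2 : cos z2 = 0 := by simpa [c, p2.ne', hb] using hs
    exact h (by rw [c, c2]; simp)
  have c2 : cos z2 ≠ 0 := by
    intro c
    exact c1 (by simpa [c, p1.ne', hb] using hs)
  exact mono_gam hGam hb ha h c1 c2 t1.1 t2.1 (hg (mul_ne_zero hb c1))

lemma mono_alg {g1 g2 g3 m1 m2 m3 : ℝ} (hg : (g1 < g2 ∧ g2 < g3) ∨ (g3 < g2 ∧ g2 < g1))
    (h1 : 0 < m1) (h3 : 0 < m3) (k1 : m1 < m2) (k3 : m3 < m2) (e1 : g1 * m1 = g2 * m2)
    (e3 : g3 * m3 = g2 * m2) : False := by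
  rcases le_total 0 g2 with h | h
  · have a1 : g2 ≤ g1 := le_of_mul_le_mul_right (by nlinarith) h1
    have a3 : g2 ≤ g3 := le_of_mul_le_mul_right (by nlinarith) h3
    rcases hg with hg | hg <;> linarith [hg.1, hg.2]
  · have a1 : g1 ≤ g2 := le_of_mul_le_mul_right (by nlinarith) h1
    have a3 : g3 ≤ g2 := le_of_mul_le_mul_right (by nlinarith) h3
    rcases hg with hg | hg <;> linarith [hg.1, hg.2]

lemma mono_roots {a0 a1 a2 a3 p q r : ℝ} (hp : a0 + a1 * p + a2 * p ^ 2 + a3 * p ^ 3 = 0)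
    (hq : a0 + a1 * q + a2 * q ^ 2 + a3 * q ^ 3 = 0)
    (hr : a0 + a1 * r + a2 * r ^ 2 + a3 * r ^ 3 = 0) (h1 : p < q) (h2 : q < r) :
    a2 = -a3 * (p + q + r) ∧ a1 = a3 * (p * q + p * r + q * r) := by
  have e1 : a1 + a2 * (p + q) + a3 * (p ^ 2 + p * q + q ^ 2) = 0 :=
    mul_left_cancel₀ (sub_pos.2 h1).ne' (by linear_combination hq - hp)
  have e2 : a1 + a2 * (q + r) + a3 * (q ^ 2 + q * r + r ^ 2) = 0 :=
    mul_left_cancel₀ (sub_pos.2 h2).ne' (by linear_combination hr - hq)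
  have e3 : a2 = -a3 * (p + q + r) :=
    mul_left_cancel₀ (sub_pos.2 (h1.trans h2)).ne' (by linear_combination e2 - e1)
  exact ⟨e3, by linear_combination e1 - (p + q) * e3⟩

lemma mono_ord (hGam : GamStmt) {a0 a1 a2 a3 b x y z u v w : ℝ} (hb : b ≠ 0)
    (ha : (0 < a3 ∧ a1 ≤ 2 * a3) ∨ (a3 = 0 ∧ a1 ≠ 0))
    (hx : cos x ≠ 0) (hy : cos y ≠ 0) (hz : cos z ≠ 0)
    (zx : Cub a0 a1 a2 a3 x = 0) (zy : Cub a0 a1 a2 a3 y = 0) (zz : Cub a0 a1 a2 a3 z = 0)
    (dx : deriv (Cub a0 a1 a2 a3) x < 0) (dy : deriv (Cub a0 a1 a2 a3) y < 0)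
    (dz : deriv (Cub a0 a1 a2 a3) z < 0) (hu : 0 < u) (hv : 0 < v) (hw : 0 < w)
    (hs : u * (b * cos x) + v * (b * cos y) + w * (b * cos z) = 0)
    (e1 : gam (Cub a0 a1 a2 a3) (Lin b 0) x * (u * (b * cos x)) ^ 6 =
      gam (Cub a0 a1 a2 a3) (Lin b 0) y * (v * (b * cos y)) ^ 6)
    (e2 : gam (Cub a0 a1 a2 a3) (Lin b 0) z * (w * (b * cos z)) ^ 6 =
      gam (Cub a0 a1 a2 a3) (Lin b 0) y * (v * (b * cos y)) ^ 6)
    (h1 : tan x < tan y) (h2 : tan y < tan z) : False := by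
  obtain ⟨gx, rx, fx⟩ := hGam _ _ _ _ b x hb hx zx
  obtain ⟨gy, ry, fy⟩ := hGam _ _ _ _ b y hb hy zy
  obtain ⟨gz, rz, fz⟩ := hGam _ _ _ _ b z hb hz zz
  obtain ⟨k2, k1⟩ := mono_roots rx ry rz h1 h2
  obtain ⟨h3, h4⟩ : 0 < a3 ∧ a1 ≤ 2 * a3 := ha.resolve_right fun h => h.2 (by rw [k1, h.1]; simp)
  have s1 := sub_pos.2 h1
  have s2 := sub_pos.2 h2
  have s3 := sub_pos.2 (h1.trans h2)
  have cx : cos x < 0 := by
    rw [fx, show a1 + 2 * a2 * tan x + 3 * a3 * tan x ^ 2 =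
      a3 * ((tan y - tan x) * (tan z - tan x)) by rw [k1, k2]; ring] at dx
    exact neg_of_mul_neg_left dx (by positivity)
  have cz : cos z < 0 := by
    rw [fz, show a1 + 2 * a2 * tan z + 3 * a3 * tan z ^ 2 =
      a3 * ((tan z - tan y) * (tan z - tan x)) by rw [k1, k2]; ring] at dz
    exact neg_of_mul_neg_left dz (by positivity)
  have hs' : v * cos y = u * -cos x + w * -cos z :=
    mul_left_cancel₀ hb (by linear_combination hs)
  have px : 0 < u * -cos x := mul_pos hu (neg_pos.2 cx)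
  have pz : 0 < w * -cos z := mul_pos hw (neg_pos.2 cz)
  have hb6 : 0 < b ^ 6 := by positivity
  refine mono_alg (g1 := gam (Cub a0 a1 a2 a3) (Lin b 0) x) (g2 := gam (Cub a0 a1 a2 a3) (Lin b 0) y)
    (g3 := gam (Cub a0 a1 a2 a3) (Lin b 0) z) (m1 := (u * -cos x) ^ 6) (m2 := (v * cos y) ^ 6)
    (m3 := (w * -cos z) ^ 6) ?_ (by positivity) (by positivity)
    (pow_lt_pow_left₀ (by linarith) px.le (by norm_num))
    (pow_lt_pow_left₀ (by linarith) pz.le (by norm_num))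
    (mul_left_cancel₀ hb6.ne' (by linear_combination e1))
    (mul_left_cancel₀ hb6.ne' (by linear_combination e2))
  have q1 := mono_gp (a0 := a0) (a2 := a2) h3 h4 h1
  have q2 := mono_gp (a0 := a0) (a2 := a2) h3 h4 h2
  rw [gx, gy, gz]
  rcases lt_or_gt_of_ne hb with h | h
  · have hn : 2 * b ^ 3 < 0 := by nlinarith [Odd.pow_neg (show Odd 3 by decide) h]
    exact Or.inr ⟨by linarith [(div_lt_div_right_of_neg hn).2 q2],
      by linarith [(div_lt_div_right_of_neg hn).2 q1]⟩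
  · have hn : 0 < 2 * b ^ 3 := by positivity
    exact Or.inl ⟨by linarith [div_lt_div_of_pos_right q1 hn],
      by linarith [div_lt_div_of_pos_right q2 hn]⟩

lemma mono_opp {g1 g2 m1 m2 : ℝ} (h : m1 + m2 = 0) (h1 : m1 ≠ 0)
    (e : g1 * m1 ^ 6 = g2 * m2 ^ 6) : g1 = g2 := by
  rw [show m2 = -m1 by linarith, Even.neg_pow (by decide)] at e
  exact mul_right_cancel₀ (pow_ne_zero 6 h1) e

theorem mono3S (hGam : GamStmt) : Mono3Stmt := by
  rintro a0 a1 a2 a3 b z1 z2 z3 V hb ha ⟨l1, l2, l3, t1, t2, t3, d1, d2, d3, -⟩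
    ⟨w1, w2, w3, p1, p2, p3, hs, e12, e13, e23⟩
  have s12 := mono_sin l1 (by linarith) d1 d2
  have s13 := mono_sin (l1.trans l2) l3 d1 d3
  have s23 := mono_sin l2 (by linarith) d2 d3
  simp only [mono_lin] at hs e12 e13 e23
  have two : ∀ {x y : ℝ}, sin y * cos x ≠ cos y * sin x → cos x = 0 → cos y = 0 → False :=
    fun h hx hy => h (by rw [hx, hy]; simp)
  have c1 : cos z1 ≠ 0 := fun c => by
    have c2 : cos z2 ≠ 0 := two s12 c
    have c3 : cos z3 ≠ 0 := two s13 c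
    refine mono_gam hGam hb ha s23 c2 c3 t2.1 t3.1 (mono_opp ?_ (by positivity)
      (e23 (by positivity) (by positivity)))
    simpa [c] using hs
  have c2 : cos z2 ≠ 0 := fun c => by
    have c3 : cos z3 ≠ 0 := two s23 c
    refine mono_gam hGam hb ha s13 c1 c3 t1.1 t3.1 (mono_opp ?_ (by positivity)
      (e13 (by positivity) (by positivity)))
    simpa [c] using hs
  have c3 : cos z3 ≠ 0 := fun c => by
    refine mono_gam hGam hb ha s12 c1 c2 t1.1 t2.1 (mono_opp ?_ (by positivity)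
      (e12 (by positivity) (by positivity)))
    simpa [c] using hs
  have f12 := e12 (by positivity) (by positivity)
  have f13 := e13 (by positivity) (by positivity)
  have f23 := e23 (by positivity) (by positivity)
  rcases lt_or_gt_of_ne (mono_tan s12 c1 c2) with h12 | h12 <;>
    rcases lt_or_gt_of_ne (mono_tan s13 c1 c3) with h13 | h13 <;>
    rcases lt_or_gt_of_ne (mono_tan s23 c2 c3) with h23 | h23
  · exact mono_ord hGam hb ha c1 c2 c3 t1.1 t2.1 t3.1 d1 d2 d3 p1 p2 p3 hs f12 f23.symm h12 h23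
  · exact mono_ord hGam hb ha c1 c3 c2 t1.1 t3.1 t2.1 d1 d3 d2 p1 p3 p2 (by linarith) f13 f23
      h13 h23
  · linarith
  · exact mono_ord hGam hb ha c3 c1 c2 t3.1 t1.1 t2.1 d3 d1 d2 p3 p1 p2 (by linarith) f13.symm
      f12.symm h13 h12
  · exact mono_ord hGam hb ha c2 c1 c3 t2.1 t1.1 t3.1 d2 d1 d3 p2 p1 p3 (by linarith) f12.symm
      f13.symm h12 h13
  · linarith
  · exact mono_ord hGam hb ha c2 c3 c1 t2.1 t3.1 t1.1 d2 d3 d1 p2 p3 p1 (by linarith) f23 f13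
      h23 h13
  · exact mono_ord hGam hb ha c3 c2 c1 t3.1 t2.1 t1.1 d3 d2 d1 p3 p2 p1 (by linarith) f23.symm f12
      h23 h12

end Pool.Agent.MP_c2f0e4_an

end
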