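import Pool.Agent.Mg.F402458.G1bc3d2

section

open Set Filter Topology Real Asymptotics

namespace Pool.Agent.MP_c2f0e4_an

lemma j2a_div {x y y' z : ℝ} (hy' : 0 < y') (hy : y' ≤ y) (hz : 0 ≤ z) (h : |x| ≤ z * y') :
    |x / y| ≤ z := by
  have h0 : 0 < y := hy'.trans_le hy
  rw [abs_div, abs_of_pos h0, div_le_iff₀ h0]
  exact h.trans (mul_le_mul_of_nonneg_left hy hz)

lemma j2a_cub (a0 a1 a2 a3 : ℝ) {u ξ T : ℝ} (hu : |u| ≤ T) (hξ : |ξ| ≤ T) :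
    |a0 * ξ ^ 3 + a1 * u * ξ ^ 2 + a2 * u ^ 2 * ξ + a3 * u ^ 3|
      ≤ (|a0| + |a1| + |a2| + |a3|) * T ^ 3 := by
  have hT : 0 ≤ T := (abs_nonneg _).trans hu
  have h0 : |a0 * ξ ^ 3| ≤ |a0| * T ^ 3 := by
    rw [abs_mul, abs_pow]; gcongr
  have h1 : |a1 * u * ξ ^ 2| ≤ |a1| * T * T ^ 2 := by
    rw [abs_mul, abs_mul, abs_pow]; gcongr
  have h2 : |a2 * u ^ 2 * ξ| ≤ |a2| * T ^ 2 * T := by
    rw [abs_mul, abs_mul, abs_pow]; gcongr
  have h3 : |a3 * u ^ 3| ≤ |a3| * T ^ 3 := by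
    rw [abs_mul, abs_pow]; gcongr
  have h4 := abs_add_le (a0 * ξ ^ 3 + a1 * u * ξ ^ 2 + a2 * u ^ 2 * ξ) (a3 * u ^ 3)
  have h5 := abs_add_le (a0 * ξ ^ 3 + a1 * u * ξ ^ 2) (a2 * u ^ 2 * ξ)
  have h6 := abs_add_le (a0 * ξ ^ 3) (a1 * u * ξ ^ 2)
  nlinarith

lemma j2a_basic {u ξ : ℝ} (h : u < ξ) :
    |u| ≤ |ξ| + (ξ - u) ∧ |ξ| ≤ |ξ| + (ξ - u) ∧ 0 < ξ ^ 2 + (ξ - u) ^ 2 ∧
      (|ξ| + (ξ - u)) ^ 2 ≤ 2 * (ξ ^ 2 + (ξ - u) ^ 2) := by
  refine ⟨abs_le.2 ⟨by linarith [neg_abs_le ξ], by linarith [le_abs_self ξ]⟩, by linarith, ?_, ?_⟩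
  · have : 0 < (ξ - u) ^ 2 := by have := sub_pos.2 h; positivity
    positivity
  · rw [← sq_abs ξ]; nlinarith [sq_nonneg (|ξ| - (ξ - u))]

lemma j2a_pi2 {m0 c : ℝ} (hm : -1 / 2 < m0) (hc : 0 < c) :
    ∃ C : ℝ, 0 ≤ C ∧ ∀ u ξ : ℝ, u < ξ → c * (ξ ^ 2 + (ξ - u) ^ 2) ≤ Dh m0 u ξ → |ξ| ≤ 1 →
      ξ - u ≤ 1 → |Pi2 m0 u ξ| ≤ C * (ξ - u) := by
  obtain ⟨B, hB⟩ : ∃ B, B = (1 + m0) * (3 + 2 * m0) * (1 + 2 * m0) * (10 + 9 * m0) := ⟨_, rfl⟩
  have hB0 : 0 < B := by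
    have h1 : 0 < 1 + m0 := by linarith
    have h2 : 0 < 3 + 2 * m0 := by linarith
    have h3 : 0 < 1 + 2 * m0 := by linarith
    have h4 : 0 < 10 + 9 * m0 := by linarith
    rw [hB]; positivity
  obtain ⟨A, hA⟩ : ∃ A, A = |(1 + m0) * (4 + 5 * m0)| + |2 * (1 + m0) * (4 + 5 * m0)|
    + |(4 + 5 * m0) * (3 + 2 * m0)| + |(2 + m0) * (3 + 2 * m0)| := ⟨_, rfl⟩
  have hA0 : 0 ≤ A := by rw [hA]; positivity
  refine ⟨4 * A / (B * c), by positivity, fun u ξ h hD h1 h2 => ?_⟩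
  obtain ⟨b1, b2, b3, b4⟩ := j2a_basic h
  have hs : 0 < ξ - u := sub_pos.2 h
  have h3 := j2a_cub ((1 + m0) * (4 + 5 * m0)) (2 * (1 + m0) * (4 + 5 * m0))
    ((4 + 5 * m0) * (3 + 2 * m0)) ((2 + m0) * (3 + 2 * m0)) b1 b2
  rw [← hA] at h3
  unfold Pi2
  rw [← hB]
  refine j2a_div (y' := B * (c * (ξ ^ 2 + (ξ - u) ^ 2))) (by positivity) (by gcongr)
    (by positivity) ?_
  rw [abs_mul, abs_sub_comm, abs_of_pos hs]
  have h4 : 4 * A / (B * c) * (ξ - u) * (B * (c * (ξ ^ 2 + (ξ - u) ^ 2)))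
      = (ξ - u) * (A * (2 * (2 * (ξ ^ 2 + (ξ - u) ^ 2)))) := by field_simp; ring
  rw [h4]
  refine mul_le_mul_of_nonneg_left (h3.trans (mul_le_mul_of_nonneg_left ?_ hA0)) hs.le
  rw [pow_succ']
  exact mul_le_mul (by linarith) b4 (by positivity) (by norm_num)

lemma j2a_gam {m0 c : ℝ} (hm : -1 / 2 < m0) (hc : 0 < c) :
    ∃ C : ℝ, 0 ≤ C ∧ ∀ u ξ : ℝ, u < ξ → c * (ξ ^ 2 + (ξ - u) ^ 2) ≤ Dh m0 u ξ →
      |Gam2 m0 u ξ * (ξ ^ 2 - u ^ 2)| ≤ C * (ξ - u) := by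
  obtain ⟨B, hB⟩ : ∃ B, B = (1 + m0) * (1 + 2 * m0) * (10 + 9 * m0) := ⟨_, rfl⟩
  have hB0 : 0 < B := by
    have h1 : 0 < 1 + m0 := by linarith
    have h3 : 0 < 1 + 2 * m0 := by linarith
    have h4 : 0 < 10 + 9 * m0 := by linarith
    rw [hB]; positivity
  obtain ⟨A, hA⟩ : ∃ A, A = |6 * (1 + m0) * (1 + 2 * m0)| + |12 * (1 + m0) ^ 2|
    + |8 + 13 * m0 + 3 * m0 ^ 2| + |2 * (2 + m0)| := ⟨_, rfl⟩
  have hA0 : 0 ≤ A := by rw [hA]; positivity
  refine ⟨8 * A / (B * c ^ 2), by positivity, fun u ξ h hD => ?_⟩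
  obtain ⟨b1, b2, b3, b4⟩ := j2a_basic h
  have hs : 0 < ξ - u := sub_pos.2 h
  have h3 := j2a_cub (6 * (1 + m0) * (1 + 2 * m0)) (12 * (1 + m0) ^ 2)
    (8 + 13 * m0 + 3 * m0 ^ 2) (2 * (2 + m0)) b1 b2
  rw [← hA] at h3
  unfold Gam2
  rw [← hB, div_mul_eq_mul_div]
  refine j2a_div (y' := B * (c * (ξ ^ 2 + (ξ - u) ^ 2)) ^ 2) (by positivity) (by gcongr)
    (by positivity) ?_
  have h4 : 8 * A / (B * c ^ 2) * (ξ - u) * (B * (c * (ξ ^ 2 + (ξ - u) ^ 2)) ^ 2)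
      = 2 * A * (ξ - u) * (2 * (ξ ^ 2 + (ξ - u) ^ 2)) ^ 2 := by field_simp; ring
  have h5 : |ξ ^ 2 - u ^ 2| ≤ (ξ - u) * (2 * (|ξ| + (ξ - u))) := by
    rw [show ξ ^ 2 - u ^ 2 = (ξ - u) * (ξ + u) by ring, abs_mul, abs_of_pos hs]
    exact mul_le_mul_of_nonneg_left ((abs_add_le _ _).trans (by linarith)) hs.le
  rw [h4, abs_mul]
  refine (mul_le_mul h3 h5 (abs_nonneg _) (by positivity)).trans ?_
  have h6 : ((|ξ| + (ξ - u)) ^ 2) ^ 2 ≤ (2 * (ξ ^ 2 + (ξ - u) ^ 2)) ^ 2 := by gcongr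
  calc A * (|ξ| + (ξ - u)) ^ 3 * ((ξ - u) * (2 * (|ξ| + (ξ - u))))
      = 2 * A * (ξ - u) * ((|ξ| + (ξ - u)) ^ 2) ^ 2 := by ring
    _ ≤ _ := by gcongr

lemma j2a_err {m0 c L M : ℝ} (μ : ℝ) (hm : -1 / 2 < m0) (hc : 0 < c) (hL : 0 ≤ L) (hM : 0 ≤ M) :
    ∃ C : ℝ, 0 ≤ C ∧ ∀ u ξ b : ℝ, u < ξ → c * (ξ ^ 2 + (ξ - u) ^ 2) ≤ Dh m0 u ξ → |ξ| ≤ 1 →
      |b - μ| ≤ L * |ξ| → |b| ≤ M →
      |-(b - μ) * ξ * (ξ - u) * (2 * u + ξ) / ((3 + 2 * m0) * Dh m0 u ξ)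
        + μ * (ξ * (ξ * b)) * (Gam2 m0 u ξ * (ξ ^ 2 - u ^ 2))| ≤ C * (|ξ| * (ξ - u)) := by
  obtain ⟨G, hG0, hG⟩ := j2a_gam hm hc
  have hν : 0 < 3 + 2 * m0 := by linarith
  refine ⟨6 * L / ((3 + 2 * m0) * c) + |μ| * M * G, by positivity, fun u ξ b h hD h1 h2 h3 => ?_⟩
  obtain ⟨b1, b2, b3, b4⟩ := j2a_basic h
  have hs : 0 < ξ - u := sub_pos.2 h
  have e1 : |-(b - μ) * ξ * (ξ - u) * (2 * u + ξ) / ((3 + 2 * m0) * Dh m0 u ξ)|
      ≤ 6 * L / ((3 + 2 * m0) * c) * (|ξ| * (ξ - u)) := by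
    refine j2a_div (y' := (3 + 2 * m0) * (c * (ξ ^ 2 + (ξ - u) ^ 2))) (by positivity) (by gcongr)
      (by positivity) ?_
    have h4 : 6 * L / ((3 + 2 * m0) * c) * (|ξ| * (ξ - u))
        * ((3 + 2 * m0) * (c * (ξ ^ 2 + (ξ - u) ^ 2)))
        = 3 * L * |ξ| * (ξ - u) * (2 * (ξ ^ 2 + (ξ - u) ^ 2)) := by field_simp; ring
    have h5 : |2 * u + ξ| ≤ 3 * (|ξ| + (ξ - u)) := by
      refine (abs_add_le _ _).trans ?_
      rw [abs_mul, abs_two]; linarith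
    rw [h4, abs_mul, abs_mul, abs_mul, abs_neg, abs_of_pos hs]
    calc |b - μ| * |ξ| * (ξ - u) * |2 * u + ξ|
        ≤ L * |ξ| * (|ξ| + (ξ - u)) * (ξ - u) * (3 * (|ξ| + (ξ - u))) := by gcongr
      _ = 3 * L * |ξ| * (ξ - u) * (|ξ| + (ξ - u)) ^ 2 := by ring
      _ ≤ _ := by gcongr
  have e2 : |μ * (ξ * (ξ * b)) * (Gam2 m0 u ξ * (ξ ^ 2 - u ^ 2))|
      ≤ |μ| * M * G * (|ξ| * (ξ - u)) := by
    rw [abs_mul, abs_mul, abs_mul, abs_mul]
    calc |μ| * (|ξ| * (|ξ| * |b|)) * |Gam2 m0 u ξ * (ξ ^ 2 - u ^ 2)|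
        ≤ |μ| * (|ξ| * (1 * M)) * (G * (ξ - u)) := by gcongr; exact hG u ξ h hD
      _ = _ := by ring
  refine (abs_add_le _ _).trans ?_
  linarith

/-- `|ξ| s ≤ C s0 ^ 2` -/
lemma j2a_size {C s s0 ξ ν : ℝ} (hC : 0 < C) (hs : 0 < s) (hs0 : 0 < s0) (hν : 0 ≤ ν)
    (h1 : s ≤ C * s0) (h3 : s * |ξ| ^ (1 + ν) ≤ C * s0 ^ (2 + ν)) : |ξ| * s ≤ C * s0 ^ 2 := by
  rcases le_total |ξ| s0 with h | h
  · calc |ξ| * s ≤ s0 * (C * s0) := by gcongr
      _ = _ := by ring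
  · have hξ : 0 < |ξ| := hs0.trans_le h
    have h4 : s0 ^ ν ≤ |ξ| ^ ν := Real.rpow_le_rpow hs0.le h hν
    have h5 : 0 < s0 ^ ν := Real.rpow_pos_of_pos hs0 ν
    rw [Real.rpow_add hξ, Real.rpow_add hs0, Real.rpow_one, Real.rpow_two] at h3
    have h6 : |ξ| * s * s0 ^ ν ≤ C * s0 ^ 2 * s0 ^ ν :=
      calc |ξ| * s * s0 ^ ν ≤ |ξ| * s * |ξ| ^ ν := by gcongr
        _ = s * (|ξ| * |ξ| ^ ν) := by ring
        _ ≤ _ := by linarith
    exact le_of_mul_le_mul_right h6 h5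

/-- the main term near the origin -/
lemma j2a_main {C C1 s s0 ξ D : ℝ} (hC : 0 < C) (hs : 0 < s) (hs0 : 0 < s0) (hD : 0 < D)
    (hD1 : D ≤ C1 * (ξ ^ 2 + s ^ 2)) (h1 : |ξ| ≤ s0) (h2 : s0 ≤ C * s) :
    1 / (C * (|C1| + 1) * (C ^ 2 + 1)) * s0 ≤ s ^ 3 / D := by
  have h3 : ξ ^ 2 ≤ (C * s) ^ 2 := by
    rw [← sq_abs ξ]; gcongr; exact h1.trans h2
  have h4 : D ≤ (|C1| + 1) * ((C ^ 2 + 1) * s ^ 2) := by
    refine hD1.trans (mul_le_mul (by linarith [le_abs_self C1]) (by nlinarith) (by positivity)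
      (by positivity))
  rw [le_div_iff₀ hD]
  calc 1 / (C * (|C1| + 1) * (C ^ 2 + 1)) * s0 * D
      ≤ 1 / (C * (|C1| + 1) * (C ^ 2 + 1)) * (C * s) * ((|C1| + 1) * ((C ^ 2 + 1) * s ^ 2)) := by
        gcongr
    _ = s ^ 3 := by field_simp

lemma j2a_three {F : ℝ → ℝ} {S : Set ℝ} (hS : S.Finite) {d s0 a b : ℝ} (h0 : 0 ≤ s0)
    (hd : s0 ≤ d) (hF : ContinuousOn F (Icc (-d) d))
    (h : ∀ x ∈ Ioo (-d) d, x ∉ S → ∃ f', HasDerivAt F f' x ∧ -b ≤ f' ∧ (|x| ≤ s0 → a - b ≤ f')) :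
    2 * a * s0 - 2 * b * d ≤ F d - F (-d) := by
  have h1 := le_sub_of_le_deriv (c := -b) (a := -d) (b := -s0) hS (by linarith)
    (hF.mono (Icc_subset_Icc_right (by linarith))) fun x hx hxS => by
      obtain ⟨f', e1, e2, -⟩ := h x ⟨hx.1, by linarith [hx.2]⟩ hxS
      exact ⟨f', e1, e2⟩
  have h2 := le_sub_of_le_deriv (c := a - b) (a := -s0) (b := s0) hS (by linarith)
    (hF.mono (Icc_subset_Icc (by linarith) hd)) fun x hx hxS => by
      obtain ⟨f', e1, -, e2⟩ := h x ⟨by linarith [hx.1], by linarith [hx.2]⟩ hxS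
      exact ⟨f', e1, e2 (abs_le.2 ⟨hx.1.le, hx.2.le⟩)⟩
  have h3 := le_sub_of_le_deriv (c := -b) (a := s0) (b := d) hS hd
    (hF.mono (Icc_subset_Icc_left (by linarith))) fun x hx hxS => by
      obtain ⟨f', e1, e2, -⟩ := h x ⟨by linarith [hx.1], hx.2⟩ hxS
      exact ⟨f', e1, e2⟩
  linarith

lemma j2a_mt {mt : ℝ → ℝ} (h : AnalyticAt ℝ mt 0) :
    ∃ L r : ℝ, 0 ≤ L ∧ 0 < r ∧ r ≤ 1 ∧ ∀ ξ, |ξ| ≤ r → |mt ξ - mt 0| ≤ L * |ξ| := by
  obtain ⟨L, hL, h1⟩ := h.differentiableAt.isBigO_sub.exists_pos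
  obtain ⟨r, hr, h2⟩ := Metric.eventually_nhds_iff.1 h1.bound
  refine ⟨L, min (r / 2) 1, hL.le, by positivity, min_le_right _ _, fun ξ hξ => ?_⟩
  have := h2 (y := ξ) (by
    rw [Real.dist_eq, sub_zero]; linarith [min_le_left (r / 2) 1])
  simpa using this

theorem j2aS (hLLder : LLderStmt) (hPi2 : Pi2Stmt) : J2aStmt := by
  intro m mt m0 d0 u hM hm hm3 hm0 hmt hmm ⟨d1, hd1, hd10, hK⟩
  by_contra hμ
  obtain ⟨⟨c, C1, hc, hDh⟩, -, -⟩ := hLLder m0 (by linarith) hm3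
  obtain ⟨L, r, hL, hr, hr1, hLr⟩ := j2a_mt hmt
  obtain ⟨E, hE0, hE⟩ := j2a_err (L := L) (M := |mt 0| + L) (mt 0) hm hc hL (by positivity)
  obtain ⟨P, hP0, hP⟩ := j2a_pi2 hm hc
  obtain ⟨K1, hK1⟩ := hK d1 ⟨hd1, le_rfl⟩
  obtain ⟨C, hC, hsz⟩ := hK1.size
  obtain ⟨C2, hC2⟩ : ∃ C2, C2 = 3 * m0 / ((1 + 2 * m0) * (10 + 9 * m0)) := ⟨_, rfl⟩
  have hC20 : C2 ≠ 0 := by
    have h3 : 0 < 1 + 2 * m0 := by linarith
    have h4 : 0 < 10 + 9 * m0 := by linarith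
    rw [hC2]; positivity
  obtain ⟨g, hg1, hg⟩ : ∃ g : ℝ, |g| = 1 ∧ 0 < g * (mt 0 * C2) := by
    rcases (mul_ne_zero hμ hC20).lt_or_gt with h | h
    · exact ⟨-1, by simp, by linarith⟩
    · exact ⟨1, by simp, by linarith⟩
  obtain ⟨a, ha⟩ : ∃ a, a = g * (mt 0 * C2) * (1 / (C * (|C1| + 1) * (C ^ 2 + 1))) := ⟨_, rfl⟩
  have ha0 : 0 < a := by rw [ha]; positivity
  obtain ⟨d, hd, hdr, hdd, hda⟩ : ∃ d : ℝ, 0 < d ∧ d ≤ r ∧ d ≤ d1 ∧ (E * C + 1) * d ≤ a / 2 :=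
    ⟨min (min r d1) (a / 2 / (E * C + 1)), by positivity,
      (min_le_left _ _).trans (min_le_left _ _), (min_le_left _ _).trans (min_le_right _ _), by
        rw [← le_div_iff₀' (by positivity)]; exact min_le_right _ _⟩
  obtain ⟨K, hKd⟩ := hK d ⟨hd, hdd⟩
  obtain ⟨c1, C3, hbd⟩ := hKd.bdry
  have sub1 : Icc (-d) d ⊆ Icc (-d1) d1 := Icc_subset_Icc (by linarith) hdd
  have sub0 : Icc (-d) d ⊆ Icc (-d0) d0 := Icc_subset_Icc (by linarith) (by linarith)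
  have hz : (0 : ℝ) ∈ Icc (-d) d := ⟨by linarith, hd.le⟩
  have hs0 : ∀ n, 0 < -u n 0 := fun n => by linarith [hM.lt n 0 (sub0 hz)]
  have hlim : Tendsto (fun n => -u n 0) atTop (𝓝 0) := by
    simpa using (hM.unif.tendsto_at (sub0 hz)).neg
  have hDpos : ∀ n, ∀ ξ ∈ Icc (-d) d, 0 < Dh m0 (u n ξ) ξ := fun n ξ hξ =>
    (mul_pos hc (j2a_basic (hM.lt n ξ (sub0 hξ))).2.2.1).trans_le (hDh _ _).1
  have e1 : 2 + 2 * m0 = 1 + (1 + 2 * m0) := by ring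
  have e2 : 3 + 2 * m0 = 2 + (1 + 2 * m0) := by ring
  have hν : 0 < 1 + 2 * m0 := by linarith
  -- lower bound
  have low : ∀ n, -u n 0 ≤ d → a * (-u n 0) ^ 2 ≤
      g * (K n d + mt 0 * Pi2 m0 (u n d) d) - g * (K n (-d) + mt 0 * Pi2 m0 (u n (-d)) (-d)) := by
    intro n hn
    have hu : ContinuousOn (u n) (Icc (-d) d) := fun ξ hξ =>
      (continuousAt_of_cube (hM.ode n ξ (sub0 hξ)).continuousAt).continuousWithinAt
    have hPc : ContinuousOn (fun ξ => Pi2 m0 (u n ξ) ξ) (Icc (-d) d) := by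
      unfold Pi2
      refine ContinuousOn.div (by fun_prop) (by unfold Dh; fun_prop) fun ξ hξ => ?_
      have h1 : 0 < 1 + m0 := by linarith
      have h2 : 0 < 3 + 2 * m0 := by linarith
      have h4 : 0 < 10 + 9 * m0 := by linarith
      have := hDpos n ξ hξ
      positivity
    have h := j2a_three (F := fun ξ => g * (K n ξ + mt 0 * Pi2 m0 (u n ξ) ξ)) (hKd.fin n)
      (a := a * (-u n 0)) (b := E * (C * (-u n 0) ^ 2)) (hs0 n).le hn
      (continuousOn_const.mul ((hKd.cont n).add (continuousOn_const.mul hPc))) fun ξ hξ hS => by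
        have hξ' := Ioo_subset_Icc_self hξ
        have hu0 : u n ξ ≠ 0 := fun h => hS ⟨hξ', h⟩
        have hlt := hM.lt n ξ (sub0 hξ')
        have hD := hDpos n ξ hξ'
        have hξr : |ξ| ≤ r := (abs_le.2 hξ').trans hdr
        have h1 := hPi2 m0 (u n) _ ξ (m ξ) (by linarith) (by linarith) hD.ne'
          (hasDerivAt_of_cube (hM.ode n ξ (sub0 hξ')) hu0) hu0 (by field_simp)
        have h2 := ((hKd.der n ξ hξ hu0).add (h1.const_mul (mt 0))).const_mul g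
        have h3 := hE (u n ξ) ξ (mt ξ) hlt (hDh _ _).1 (hξr.trans hr1) (hLr ξ hξr) (by
          have h4 := hLr ξ hξr
          have h5 := mul_le_mul_of_nonneg_left (hξr.trans hr1) hL
          have := abs_sub_abs_le_abs_sub (mt ξ) (mt 0)
          linarith)
        obtain ⟨z1, z2, z3, -⟩ := hsz n ξ (sub1 hξ')
        rw [e1, e2] at z3
        have h4 := j2a_size hC (sub_pos.2 hlt) (hs0 n) hν.le z1 z3
        obtain ⟨er, her⟩ : ∃ er, er = -(mt ξ - mt 0) * ξ * (ξ - u n ξ) * (2 * u n ξ + ξ)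
          / ((3 + 2 * m0) * Dh m0 (u n ξ) ξ)
          + mt 0 * (ξ * (ξ * mt ξ)) * (Gam2 m0 (u n ξ) ξ * (ξ ^ 2 - u n ξ ^ 2)) := ⟨_, rfl⟩
        rw [← her] at h3
        have h5 : -(E * (C * (-u n 0) ^ 2)) ≤ g * er := by
          have h6 : |g * er| ≤ E * (C * (-u n 0) ^ 2) := by
            rw [abs_mul, hg1, one_mul]
            exact h3.trans (mul_le_mul_of_nonneg_left h4 hE0)
          exact (abs_le.1 h6).1
        have hs := sub_pos.2 hlt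
        refine ⟨g * (mt 0 * C2) * ((ξ - u n ξ) ^ 3 / Dh m0 (u n ξ) ξ) + g * er,
          h2.congr_deriv ?_, ?_, fun h6 => ?_⟩
        · rw [her, hmm ξ, ← hC2]; ring
        · have : 0 ≤ g * (mt 0 * C2) * ((ξ - u n ξ) ^ 3 / Dh m0 (u n ξ) ξ) := by positivity
          linarith
        · have h7 := mul_le_mul_of_nonneg_left
            (j2a_main hC hs (hs0 n) hD (hDh _ _).2 h6 (z2 h6)) hg.le
          rw [← mul_assoc, ← ha] at h7
          linarith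
    have h2 : E * C * d * (-u n 0) ^ 2 ≤ a / 2 * (-u n 0) ^ 2 :=
      mul_le_mul_of_nonneg_right (by nlinarith) (sq_nonneg _)
    nlinarith
  -- upper bound
  obtain ⟨Q, hQ⟩ : ∃ Q, Q = C / d ^ (2 + 2 * m0) := ⟨_, rfl⟩
  have hdp : 0 < d ^ (2 + 2 * m0) := Real.rpow_pos_of_pos hd _
  have hQ0 : 0 < Q := by rw [hQ]; positivity
  have hend : ∀ n, ∀ ξ ∈ Icc (-d) d, |ξ| = d →
      ξ - u n ξ ≤ Q * ((-u n 0) ^ 2 * (-u n 0) ^ (1 + 2 * m0)) := fun n ξ hξ hξd => by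
    have z3 := (hsz n ξ (sub1 hξ)).2.2.1
    rw [hξd, e2, Real.rpow_add (hs0 n), Real.rpow_two] at z3
    rw [hQ, div_mul_eq_mul_div, le_div_iff₀ hdp]
    exact z3
  obtain ⟨R, hR⟩ : ∃ R, R = (|c1| + |C3| + 2 * (|mt 0| * P)) * Q := ⟨_, rfl⟩
  have hlim2 : Tendsto (fun n => R * (-u n 0) ^ (1 + 2 * m0)) atTop (𝓝 0) := by
    have := (hlim.rpow_const (p := 1 + 2 * m0) (Or.inr hν.le)).const_mul R
    rwa [Real.zero_rpow hν.ne', mul_zero] at this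
  have hlim3 : Tendsto (fun n => C * (-u n 0)) atTop (𝓝 0) := by
    simpa using hlim.const_mul C
  obtain ⟨n, h1, h2, h3, h4⟩ := (hbd.and ((hlim.eventually (gt_mem_nhds hd)).and
    ((hlim2.eventually (gt_mem_nhds ha0)).and (hlim3.eventually (gt_mem_nhds one_pos))))).exists
  have hdm : d ∈ Icc (-d) d := ⟨by linarith, le_rfl⟩
  have hdm' : -d ∈ Icc (-d) d := ⟨le_rfl, by linarith⟩
  have l1 := hM.lt n d (sub0 hdm)
  have l2 := hM.lt n (-d) (sub0 hdm')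
  have s1 : d - u n d ≤ 1 := (hsz n d (sub1 hdm)).1.trans h4.le
  have s2 : -d - u n (-d) ≤ 1 := (hsz n (-d) (sub1 hdm')).1.trans h4.le
  have ad : |d| = d := abs_of_pos hd
  have ad' : |-d| = d := by rw [abs_neg, ad]
  have p1 := hP _ _ l1 (hDh _ _).1 (by rw [ad]; linarith) s1
  have p2 := hP _ _ l2 (hDh _ _).1 (by rw [ad']; linarith) s2
  have t1 := hend n d hdm ad
  have t2 := hend n (-d) hdm' ad'
  obtain ⟨Z, hZ⟩ : ∃ Z, Z = Q * ((-u n 0) ^ 2 * (-u n 0) ^ (1 + 2 * m0)) := ⟨_, rfl⟩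
  rw [← hZ] at t1 t2
  have hs2 := sub_pos.2 l2
  have q1 : |mt 0 * Pi2 m0 (u n d) d| ≤ |mt 0| * (P * Z) := by
    rw [abs_mul]; gcongr; exact p1.trans (by gcongr)
  have q2 : |mt 0 * Pi2 m0 (u n (-d)) (-d)| ≤ |mt 0| * (P * Z) := by
    rw [abs_mul]; gcongr; exact p2.trans (by gcongr)
  have q3 : |c1 * (-d - u n (-d))| ≤ |c1| * Z := by
    rw [abs_mul, abs_of_pos hs2]; gcongr
  have q4 : C3 * (-d - u n (-d)) ^ 2 ≤ |C3| * Z :=
    mul_le_mul (le_abs_self _) (by nlinarith) (sq_nonneg _) (abs_nonneg _)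
  have q5 : |(K n d + mt 0 * Pi2 m0 (u n d) d) - (K n (-d) + mt 0 * Pi2 m0 (u n (-d)) (-d))|
      ≤ (|c1| + |C3| + 2 * (|mt 0| * P)) * Z := by
    have a1 := abs_le.1 (h1.trans q4)
    have a2 := abs_le.1 q1
    have a3 := abs_le.1 q2
    have a4 := abs_le.1 q3
    rw [abs_le]
    constructor <;> linarith [a1.1, a1.2, a2.1, a2.2, a3.1, a3.2, a4.1, a4.2]
  have q6 := low n h2.le
  rw [← mul_sub] at q6
  have q7 := (q6.trans (le_abs_self _))
  rw [abs_mul, hg1, one_mul] at q7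
  have q8 : (|c1| + |C3| + 2 * (|mt 0| * P)) * Z
      = R * (-u n 0) ^ (1 + 2 * m0) * (-u n 0) ^ 2 := by rw [hR, hZ]; ring
  have q9 := mul_lt_mul_of_pos_right h3 (pow_pos (hs0 n) 2)
  linarith

end Pool.Agent.MP_c2f0e4_an

end

section

open Set Filter Topology Real Asymptotics

namespace Pool.Agent.MP_c2f0e4_an

theorem t1_left {a x c C u : ℝ} (hc : 0 < c) (hx : x < 0) (h : -x * a ≤ C * x ^ 4)
    (hd : 16 * C * -x ≤ c ^ 3) (hu : u ≤ c / 2 * x) : a / u ^ 2 ≤ c / 4 := by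
  have h0 : c / 2 * x < 0 := by nlinarith
  have h1 : a ≤ C * -x * x ^ 2 := by
    by_contra hcon
    have := mul_lt_mul_of_pos_left (not_le.1 hcon) (neg_pos.2 hx)
    nlinarith
  have h2 : (c / 2 * x) ^ 2 ≤ u ^ 2 := by nlinarith
  have h3 : 0 < u ^ 2 := by nlinarith
  rw [div_le_iff₀ h3]
  have h4 : C * -x * x ^ 2 ≤ c ^ 3 / 16 * x ^ 2 := by
    have := sq_nonneg x
    nlinarith
  nlinarith

theorem t1_right {a x c C u : ℝ} (hc : 0 < c) (hx : 0 < x) (h : -x * a ≤ C * x ^ 4)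
    (hd : 16 * C * x ≤ c ^ 3) (hu : c * x ≤ u) : -a / u ^ 2 ≤ c / 4 := by
  have := t1_left (a := -a) (x := -x) (C := C) (u := -u) hc (by linarith) (by nlinarith)
    (by linarith) (by nlinarith)
  rwa [neg_sq] at this

theorem t1_sign {a x c : ℝ} (hc : 0 < c) (h : c * x ^ 4 ≤ -x * a) :
    (x < 0 → 0 < a) ∧ (0 < x → a < 0) := by
  constructor
  · intro hx
    have : 0 < c * x ^ 4 := mul_pos hc (Even.pow_pos (by decide) hx.ne)
    by_contra hcon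
    nlinarith
  · intro hx
    have : 0 < c * x ^ 4 := by positivity
    by_contra hcon
    nlinarith

theorem t1_main {A B V : ℝ → ℝ} {U : ℕ → ℝ → ℝ} {d c C : ℝ} (hT : Top0 A B V U) (hc : 0 < c)
    (h : ∀ x ∈ Icc (-d) d, c * x ^ 4 ≤ -x * A x ∧ -x * A x ≤ C * x ^ 4 ∧ c ≤ -B x ∧ -B x ≤ C)
    (hd : 0 < d) (hdC : 16 * C * d ≤ c ^ 3) (h0 : V 0 = 0) :
    ∀ x ∈ Icc (-d) d, c / 2 * x ^ 2 ≤ x * V x ∧ x * V x ≤ 2 * C * x ^ 2 := by
  have hcC : c ≤ C := by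
    have := h 0 ⟨by linarith, hd.le⟩
    linarith [this.2.2.1, this.2.2.2]
  have hC : 0 < C := by linarith
  have hl1 : ∀ x ∈ Ico (-d) 0, V x ≤ c / 2 * x := by
    intro x hx
    refine le_of_tendsto' (hT.tendsto x) fun n => ?_
    by_contra hcon
    have hU0 : U n 0 < 0 := (hT.lt n 0).trans_eq h0
    have := pos_of_deriv_pos_at_zeros (f := fun y => U n y - c / 2 * y) (a := x) (b := 0)
      ((hT.solU n).1.sub (by fun_prop)).continuousOn (by linarith) (fun y hy hy0 => by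
        have hy1 : y < 0 := by
          refine lt_of_le_of_ne hy.2 fun h1 => ?_
          rw [h1] at hy0
          linarith
        have hy2 : y ∈ Icc (-d) d := ⟨hx.1.trans hy.1, by linarith⟩
        have hU : U n y = c / 2 * y := by linarith
        have hne : U n y ≠ 0 := by rw [hU]; exact mul_ne_zero (by positivity) hy1.ne
        refine ⟨_, ((hT.solU n).hasDerivAt hne).sub ((hasDerivAt_id y).const_mul (c / 2)), ?_⟩
        have h3 := t1_left hc hy1 (h y hy2).2.1 (by nlinarith [hy2.1]) hU.le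
        linarith [(h y hy2).2.2.1]) 0 ⟨hx.2, le_rfl⟩
    linarith
  have hl2 : ∀ x ∈ Ico (-d) 0, C * x ≤ V x := by
    intro x hx
    have := sub_le_of_deriv_le (f := V) (c := C) finite_empty hx.2.le hT.solV.1.continuousOn
      fun y hy _ => by
        have hy2 : y ∈ Icc (-d) d := ⟨hx.1.trans hy.1.le, by linarith [hy.2]⟩
        have h1 := hl1 y ⟨hy2.1, hy.2⟩
        have hne : V y ≠ 0 := by nlinarith [hy.2]
        refine ⟨_, hT.solV.hasDerivAt hne, ?_⟩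
        have h2 := (t1_sign hc (h y hy2).1).1 hy.2
        have h3 : 0 ≤ A y / V y ^ 2 := by positivity
        linarith [(h y hy2).2.2.2]
    rw [h0] at this
    linarith
  have hr0 : ∀ x ∈ Ioc 0 d, 0 < V x := by
    intro x hx
    have hm : StrictMonoOn (fun y => V y ^ 3) (Icc 0 d) := by
      refine strictMonoOn_of_deriv_pos (convex_Icc 0 d) (hT.solV.1.pow 3).continuousOn ?_
      intro y hy
      rw [interior_Icc] at hy
      have hy2 : y ∈ Icc (-d) d := ⟨by linarith [hy.1], hy.2.le⟩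
      rw [(hT.solV.2 y).deriv]
      have h2 := (t1_sign hc (h y hy2).1).2 hy.1
      have h3 := (h y hy2).2.2.1
      nlinarith [sq_nonneg (V y)]
    have := hm ⟨le_rfl, hd.le⟩ ⟨hx.1.le, hx.2⟩ hx.1
    simp only [h0] at this
    exact (Odd.pow_pos_iff (n := 3) (by decide)).1 (by simpa using this)
  have hr1 : ∀ x ∈ Ioc 0 d, c * x ≤ V x := by
    intro x hx
    have := le_sub_of_le_deriv (f := V) (c := c) finite_empty hx.1.le hT.solV.1.continuousOn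
      fun y hy _ => by
        have hy2 : y ∈ Icc (-d) d := ⟨by linarith [hy.1], hy.2.le.trans hx.2⟩
        have h1 := hr0 y ⟨hy.1, hy2.2⟩
        refine ⟨_, hT.solV.hasDerivAt h1.ne', ?_⟩
        have h2 := (t1_sign hc (h y hy2).1).2 hy.1
        have h3 : A y / V y ^ 2 ≤ 0 := div_nonpos_of_nonpos_of_nonneg h2.le (sq_nonneg _)
        linarith [(h y hy2).2.2.1]
    rw [h0] at this
    linarith
  have hr2 : ∀ x ∈ Ioc 0 d, V x ≤ 2 * C * x := by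
    intro x hx
    have := sub_le_of_deriv_le (f := V) (c := 2 * C) finite_empty hx.1.le hT.solV.1.continuousOn
      fun y hy _ => by
        have hy2 : y ∈ Icc (-d) d := ⟨by linarith [hy.1], hy.2.le.trans hx.2⟩
        have h1 := hr0 y ⟨hy.1, hy2.2⟩
        refine ⟨_, hT.solV.hasDerivAt h1.ne', ?_⟩
        have h2 := t1_right hc hy.1 (h y hy2).2.1 (by nlinarith [hy2.2]) (hr1 y ⟨hy.1, hy2.2⟩)
        rw [neg_div] at h2
        linarith [(h y hy2).2.2.2]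
    rw [h0] at this
    linarith
  intro x hx
  rcases lt_trichotomy x 0 with h1 | h1 | h1
  · have h2 := hl1 x ⟨hx.1, h1⟩
    have h3 := hl2 x ⟨hx.1, h1⟩
    constructor <;> nlinarith [sq_nonneg x]
  · simp [h1]
  · have h2 := hr1 x ⟨h1, hx.2⟩
    have h3 := hr2 x ⟨h1, hx.2⟩
    constructor <;> nlinarith [sq_nonneg x]

theorem t1_d {δ c C : ℝ} (hδ : 0 < δ) (hc : 0 < c) (hC : 0 < C) :
    ∃ d, 0 < d ∧ d ≤ δ ∧ 16 * C * d ≤ c ^ 3 := by
  refine ⟨min δ (c ^ 3 / (16 * C)), lt_min hδ (by positivity), min_le_left _ _, ?_⟩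
  have := min_le_right δ (c ^ 3 / (16 * C))
  rw [le_div_iff₀ (by positivity)] at this
  linarith

theorem t1S : T1Stmt := by
  intro A B V U δ c C hT hδ hc h h0
  have hC : 0 < C := by
    have := h 0 ⟨by linarith, hδ.le⟩
    linarith [this.2.2.1, this.2.2.2]
  obtain ⟨d, hd, hdδ, hdC⟩ := t1_d hδ hc hC
  exact ⟨d, c / 2, 2 * C, hd, hdδ, by positivity,
    t1_main hT hc (fun x hx => h x ⟨by linarith [hx.1], hx.2.trans hdδ⟩) hd hdC h0⟩

theorem t1_al {a v x c C : ℝ} (hc : 0 < c) (hC : 0 < C) (hx : x ≠ 0) (h1 : c * x ^ 4 ≤ -x * a)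
    (h2 : -x * a ≤ C * x ^ 4) (h3 : c / 2 * x ^ 2 ≤ x * v) (h4 : x * v ≤ 2 * C * x ^ 2) :
    v ≠ 0 ∧ c / (2 * C) ^ 3 ≤ -a / v ^ 3 ∧ -a / v ^ 3 ≤ C / (c / 2) ^ 3 := by
  have hx2 : 0 < x ^ 2 := by positivity
  have hxv : 0 < x * v := lt_of_lt_of_le (by positivity) h3
  have hv : v ≠ 0 := by
    rintro rfl
    simp at hxv
  have e : -a / v ^ 3 = (-x * a * x ^ 2) / (x * v) ^ 3 := by field_simp
  have e1 : c / (2 * C) ^ 3 = (c * x ^ 4 * x ^ 2) / (2 * C * x ^ 2) ^ 3 := by field_simp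
  have e2 : C / (c / 2) ^ 3 = (C * x ^ 4 * x ^ 2) / (c / 2 * x ^ 2) ^ 3 := by field_simp
  have h5 : 0 ≤ -x * a := le_trans (by positivity) h1
  refine ⟨hv, ?_, ?_⟩
  · rw [e, e1]
    gcongr
  · rw [e, e2]
    gcongr

theorem tSeqS : TSeqStmt := by
  intro A B V U δ c C hA hT hδ hc h' h0
  have hcC : c ≤ C := by
    have := h' 0 ⟨by linarith, hδ.le⟩
    linarith [this.2.2.1, this.2.2.2]
  have hC : 0 < C := by linarith
  obtain ⟨d, hd, hdδ, hdC⟩ := t1_d hδ hc hC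
  have h : ∀ x ∈ Icc (-d) d,
      c * x ^ 4 ≤ -x * A x ∧ -x * A x ≤ C * x ^ 4 ∧ c ≤ -B x ∧ -B x ≤ C :=
    fun x hx => h' x ⟨by linarith [hx.1], hx.2.trans hdδ⟩
  have hV := t1_main hT hc h hd hdC h0
  have hal := fun x (hx : x ∈ Icc (-d) d) (hx0 : x ≠ 0) =>
    t1_al hc hC hx0 (h x hx).1 (h x hx).2.1 (hV x hx).1 (hV x hx).2
  set M := C / (c / 2) ^ 3 with hM
  have hM0 : 0 < M := by positivity
  have hm0 : 0 < c / (2 * C) ^ 3 := by positivity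
  let f : ℝ → ℝ := fun x => 2 * (-A x / V x ^ 3)
  have hfm : Measurable f :=
    (hA.measurable.neg.div (hT.solV.1.measurable.pow_const 3)).const_mul 2
  have hfb : ∀ x ∈ Icc (-d) d, ‖f x‖ ≤ 2 * M := by
    intro x hx
    by_cases hx0 : x = 0
    · simp only [f, hx0, h0]
      simp [hM0.le]
    · obtain ⟨-, h1, h2⟩ := hal x hx hx0
      rw [Real.norm_eq_abs, abs_le]
      simp only [f]
      constructor <;> linarith
  have hfi : MeasureTheory.IntegrableOn f (Icc (-d) d) :=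
    MeasureTheory.Measure.integrableOn_of_bounded (M := 2 * M) measure_Icc_lt_top.ne
      hfm.aestronglyMeasurable
      ((MeasureTheory.ae_restrict_iff' measurableSet_Icc).2 (Eventually.of_forall hfb))
  have h0m : (0 : ℝ) ∈ Icc (-d) d := ⟨by linarith, hd.le⟩
  have hfi' : ∀ x ∈ Icc (-d) d, IntervalIntegrable f MeasureTheory.volume 0 x := fun x hx =>
    (hfi.mono_set (uIcc_subset_Icc h0m hx)).intervalIntegrable
  have hI : ∀ x ∈ Icc (-d) d, |∫ t in (0 : ℝ)..x, f t| ≤ 2 * M * d := by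
    intro x hx
    have h1 := intervalIntegral.norm_integral_le_of_norm_le_const (a := 0) (b := x) (f := f)
      (C := 2 * M) fun t ht => hfb t (uIcc_subset_Icc h0m hx (uIoc_subset_uIcc ht))
    rw [Real.norm_eq_abs, sub_zero] at h1
    have h2 : |x| ≤ d := abs_le.2 hx
    nlinarith
  have hcont : ContinuousOn (fun x => ∫ t in (0 : ℝ)..x, f t) (Icc (-d) d) := by
    have h1 : IntervalIntegrable f MeasureTheory.volume (-d) d :=
      (hfi.mono_set (by rw [uIcc_of_le (by linarith)])).intervalIntegrable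
    have h2 := intervalIntegral.continuousOn_primitive_interval' h1
      (a := 0) (by rw [uIcc_of_le (by linarith)]; exact h0m)
    rwa [uIcc_of_le (by linarith)] at h2
  refine ⟨d, min (c / 2) (min (c / (2 * C) ^ 3) (Real.exp (-(2 * M * d)))),
    max (2 * C) (max M (Real.exp (2 * M * d))), fun x => -A x / V x ^ 3, fun x => -B x,
    fun x => Real.exp (∫ t in (0 : ℝ)..x, f t), hdδ, ?_⟩
  set c' := min (c / 2) (min (c / (2 * C) ^ 3) (Real.exp (-(2 * M * d)))) with hc'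
  set C' := max (2 * C) (max M (Real.exp (2 * M * d))) with hC'
  have a1 : c' ≤ c / 2 := min_le_left _ _
  have a2 : c' ≤ c / (2 * C) ^ 3 := (min_le_right _ _).trans (min_le_left _ _)
  have a3 : c' ≤ Real.exp (-(2 * M * d)) := (min_le_right _ _).trans (min_le_right _ _)
  have b1 : 2 * C ≤ C' := le_max_left _ _
  have b2 : M ≤ C' := (le_max_left _ _).trans (le_max_right _ _)
  have b3 : Real.exp (2 * M * d) ≤ C' := (le_max_right _ _).trans (le_max_right _ _)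
  have hneg : ∀ n, ∀ x ∈ Icc (-d) d, x < 0 → U n x ≤ c / 2 * x := by
    intro n x hx hx0
    have h1 := (hV x hx).1
    have h2 := hT.lt n x
    by_contra hcon
    nlinarith
  have hzero : ∀ n, ∀ x ∈ Icc (-d) d, U n x = 0 → 0 < x := by
    intro n x hx hU
    rcases lt_trichotomy x 0 with h1 | h1 | h1
    · have := hneg n x hx h1
      nlinarith
    · have := hT.lt n x
      rw [hU, h1, h0] at this
      exact absurd this (lt_irrefl _)
    · exact h1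
  refine ⟨hd, lt_min (by positivity) (lt_min hm0 (Real.exp_pos _)), hT.solV.1.continuousOn,
    hcont.rexp, fun n => (hT.solU n).1.continuousOn, fun x hx => ?_, h0, fun x hx => ?_,
    fun x hx hx0 => ?_, fun x hx => ?_, fun n x _ => hT.lt n x, hT.unif.tendstoUniformlyOn,
    fun n => ?_, fun n x hx hx0 hU => ?_, fun n x hx hx0 hU => ?_⟩
  · obtain ⟨h1, h2⟩ := hV x hx
    constructor <;> nlinarith [sq_nonneg x]
  · obtain ⟨h1, h2⟩ := abs_le.1 (hI x hx)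
    exact ⟨a3.trans (Real.exp_le_exp.2 h1), (Real.exp_le_exp.2 h2).trans b3⟩
  · obtain ⟨-, h1, h2⟩ := hal x hx hx0
    exact ⟨a2.trans h1, h2.trans b2⟩
  · obtain ⟨-, -, h1, h2⟩ := h x hx
    constructor <;> linarith
  · have key : ∀ a ∈ Icc (-d) d, ∀ b ∈ Icc (-d) d, U n a = 0 → U n b = 0 → ¬ a < b := by
      intro a ha b hb hUa hUb hab
      have := (hT.solU n).pos_forward (a := a) (b := b) (fun y hy hy0 => by
        have hy2 : y ∈ Icc (-d) d := ⟨ha.1.trans hy.1, hy.2.trans hb.2⟩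
        exact (t1_sign hc (h y hy2).1).2 (hzero n y hy2 hy0)) hUa.ge b ⟨hab, le_rfl⟩
      exact this.ne' hUb
    refine Set.Subsingleton.finite fun a ha b hb => ?_
    exact le_antisymm (not_lt.1 (key b hb.1 a ha.1 hb.2 ha.2)) (not_lt.1 (key a ha.1 b hb.1 ha.2 hb.2))
  · have hx' := Ioo_subset_Icc_self hx
    obtain ⟨hv, -, -⟩ := hal x hx' hx0
    have e : -B x + -A x / V x ^ 3 * V x ^ 3 / U n x ^ 2 = -B x - A x / U n x ^ 2 := by
      field_simp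
      ring
    simp only [e]
    refine ⟨(hT.solU n).hasDerivAt hU, ?_⟩
    have h1 := (h x hx').2.2.1
    rcases lt_or_gt_of_ne hx0 with h2 | h2
    · have := t1_left hc h2 (h x hx').2.1 (by nlinarith [hx'.1]) (hneg n x hx' h2)
      linarith
    · have h3 := (t1_sign hc (h x hx').1).2 h2
      have h4 : A x / U n x ^ 2 ≤ 0 := div_nonpos_of_nonpos_of_nonneg h3.le (sq_nonneg _)
      linarith
  · have hx' := Ioo_subset_Icc_self hx
    obtain ⟨hv, -, -⟩ := hal x hx' hx0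
    have hfc : ContinuousAt f x :=
      continuousAt_const.mul (hA.continuousAt.neg.div (hT.solV.1.continuousAt.pow 3)
        (pow_ne_zero 3 hv))
    have h1 := (intervalIntegral.integral_hasDerivAt_right (hfi' x hx')
      hfm.stronglyMeasurable.stronglyMeasurableAtFilter hfc).exp
    refine (h1.mul ((hT.solV.hasDerivAt hv).sub ((hT.solU n).hasDerivAt hU))).congr_deriv ?_
    simp only [f, Pi.sub_apply]
    field_simp
    ring

end Pool.Agent.MP_c2f0e4_an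

end

section

open Set Filter Topology Real Asymptotics

namespace Pool.Agent.MP_c2f0e4_an

lemma t2b_mono {d c C : ℝ} {V al be E : ℝ → ℝ} {U : ℕ → ℝ → ℝ} (h : TSeq d c C V al be E U)
    (n : ℕ) {x y : ℝ} (hx : -d ≤ x) (hxy : x ≤ y) (hy : y ≤ d) : U n x ≤ U n y := by
  have := le_sub_of_le_deriv (f := U n) (c := c) ((h.fin n).insert 0) hxy
    ((h.contU n).mono (Icc_subset_Icc hx hy)) fun z hz hzS => by
      have hz' : z ∈ Ioo (-d) d := ⟨hx.trans_lt hz.1, hz.2.trans_le hy⟩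
      have h0 : z ≠ 0 := fun e => hzS (Or.inl e)
      have h1 : U n z ≠ 0 := fun e => hzS (Or.inr ⟨Ioo_subset_Icc_self hz', e⟩)
      exact ⟨_, h.derU n z hz' h0 h1⟩
  nlinarith [h.cpos]

/-- the pointwise inequality between the two derivatives -/
lemma t2b_alg {c C K c1 r e a b v u : ℝ} (hc : 0 < c) (hK : 0 < K) (hc1 : 0 < c1) (hr : 0 < r)
    (hr1 : r ≤ 1) (hr2 : 6 * r ≤ c1) (he : c ≤ e) (ha : c ≤ a) (ha' : a ≤ C) (hb : b ≤ C)
    (hs : c1 * r ^ 2 ≤ v - u) (hs' : v - u ≤ K * r ^ 2) (hu : -r ^ 3 ≤ u) (hu' : u ≤ r ^ 3)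
    (hu0 : u ≠ 0) :
    -e * a * (v - u) ^ 2 * (v + 2 * u) / u ^ 2 +
      c ^ 2 * c1 ^ 3 / 2 / (C * (1 + (K + 1) ^ 3)) * (b + a * v ^ 3 / u ^ 2) ≤ 0 := by
  have hC : 0 < C := hc.trans_le (ha.trans ha')
  have hu2 : 0 < u ^ 2 := by positivity
  have hr3 : 6 * r ^ 3 ≤ c1 * r ^ 2 := by nlinarith [sq_nonneg r]
  have hr4 : r ^ 3 ≤ r ^ 2 := pow_le_pow_of_le_one hr.le hr1 (by norm_num)
  have hr5 : 0 < r ^ 3 := by positivity
  have h1 : c1 * r ^ 2 / 2 ≤ v + 2 * u := by linarith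
  have h2 : 0 ≤ v := by linarith
  have h3 : v ≤ (K + 1) * r ^ 2 := by linarith
  have h4 : u ^ 2 ≤ r ^ 6 := by
    rw [show r ^ 6 = (r ^ 3) ^ 2 by ring]
    exact sq_le_sq' hu hu'
  have h5 : c * c * (c1 * r ^ 2) ^ 2 * (c1 * r ^ 2 / 2) ≤ e * a * (v - u) ^ 2 * (v + 2 * u) := by
    have : 0 < e := hc.trans_le he
    have : 0 < a := hc.trans_le ha
    gcongr
  have h6 : a * v ^ 3 ≤ C * ((K + 1) * r ^ 2) ^ 3 := by gcongr
  have h7 : b * u ^ 2 ≤ C * r ^ 6 :=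
    (mul_le_mul_of_nonneg_right hb hu2.le).trans (mul_le_mul_of_nonneg_left h4 hC.le)
  have h8 : b + a * v ^ 3 / u ^ 2 ≤ C * (1 + (K + 1) ^ 3) * r ^ 6 / u ^ 2 := by
    rw [le_div_iff₀ hu2, add_mul, div_mul_cancel₀ _ hu2.ne']
    nlinarith
  have hD : 0 < C * (1 + (K + 1) ^ 3) := by positivity
  have h9 := mul_le_mul_of_nonneg_left h8
    (show 0 ≤ c ^ 2 * c1 ^ 3 / 2 / (C * (1 + (K + 1) ^ 3)) by positivity)
  have h10 : c ^ 2 * c1 ^ 3 / 2 / (C * (1 + (K + 1) ^ 3)) *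
      (C * (1 + (K + 1) ^ 3) * r ^ 6 / u ^ 2) = c ^ 2 * c1 ^ 3 / 2 * r ^ 6 / u ^ 2 := by
    field_simp
  have h11 : c ^ 2 * c1 ^ 3 / 2 * r ^ 6 / u ^ 2 ≤ e * a * (v - u) ^ 2 * (v + 2 * u) / u ^ 2 :=
    div_le_div_of_nonneg_right (le_of_eq_of_le (by ring) h5) hu2.le
  have h12 : -e * a * (v - u) ^ 2 * (v + 2 * u) / u ^ 2 =
      -(e * a * (v - u) ^ 2 * (v + 2 * u) / u ^ 2) := by ring
  linarith

/-- the drop of `ψ` across the zero -/
lemma t2b_drop {d c C K L r : ℝ} {V al be E : ℝ → ℝ} {U : ℕ → ℝ → ℝ}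
    (h : TSeq d c C V al be E U) (n : ℕ) (hK : 0 < K) (hr : 0 < r)
    (hs0 : V (-d) - U n (-d) = r ^ 2) (hr1 : r ≤ 1) (hr2 : 6 * r ≤ c / (2 * C))
    (hr3 : K * r ≤ c / 2) (hr4 : (K + 1) * r ≤ c * d)
    (H : ∀ x ∈ Icc (-d) d, V x - U n x ≤ K * r ^ 2 ∧
      |E x * (V x - U n x) - E (-d) * r ^ 2| ≤ K * r ^ 2 * r ∧
      ∀ y ∈ Icc x d, E y * (V y - U n y) - E x * (V x - U n x) ≤ L) :
    E d * (V d - U n d) - E (-d) * r ^ 2 ≤
      2 * L - 2 * (c ^ 2 * (c / (2 * C)) ^ 3 / 2 / (C * (1 + (K + 1) ^ 3))) * r ^ 3 := by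
  have hd := h.dpos
  have hc := h.cpos
  have ml : -d ∈ Icc (-d) d := left_mem_Icc.2 (by linarith)
  have mr : d ∈ Icc (-d) d := right_mem_Icc.2 (by linarith)
  have hC : 0 < C := hc.trans_le ((h.bdE d mr).1.trans (h.bdE d mr).2)
  have hr2' : 0 < r ^ 2 := by positivity
  have hr3' : 0 < r ^ 3 := by positivity
  have p2 : r ^ 2 ≤ r := by nlinarith
  have p3 : r ^ 3 ≤ r ^ 2 := pow_le_pow_of_le_one hr.le hr1 (by norm_num)
  have hlow : ∀ x ∈ Icc (-d) d, c / (2 * C) * r ^ 2 ≤ V x - U n x := by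
    intro x hx
    have h1 := (abs_le.1 (H x hx).2.1).1
    have h2 := mul_le_mul_of_nonneg_right (h.bdE _ ml).1 hr2'.le
    have h3 := mul_le_mul_of_nonneg_right hr3 hr2'.le
    have h4 := mul_le_mul_of_nonneg_right (h.bdE _ hx).2 (sub_pos.2 (h.lt n x hx)).le
    rw [div_mul_eq_mul_div, div_le_iff₀ (by positivity)]
    nlinarith
  have hVl : V (-d) ≤ -(c * d) := by
    have := (h.bdV _ ml).1
    nlinarith
  have hVr : c * d ≤ V d := by
    have := (h.bdV _ mr).1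
    nlinarith
  have hUl : U n (-d) ≤ -r ^ 3 := by
    have := h.lt n _ ml
    nlinarith
  have hUr : r ^ 3 ≤ U n d := by
    have := (H d mr).1
    nlinarith
  obtain ⟨x1, hx1, e1⟩ := intermediate_value_Icc (by linarith : -d ≤ d) (h.contU n)
    (show -r ^ 3 ∈ Icc (U n (-d)) (U n d) from ⟨hUl, by linarith⟩)
  obtain ⟨x2, hx2, e2⟩ := intermediate_value_Icc hx1.2
    ((h.contU n).mono (Icc_subset_Icc_left hx1.1))
    (show r ^ 3 ∈ Icc (U n x1) (U n d) from ⟨by linarith, hUr⟩)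
  have hsub : Icc x1 x2 ⊆ Icc (-d) d := Icc_subset_Icc hx1.1 hx2.2
  set k := c ^ 2 * (c / (2 * C)) ^ 3 / 2 / (C * (1 + (K + 1) ^ 3)) with hk
  have key := sub_le_of_deriv_le (f := fun y => E y * (V y - U n y) + k * U n y) (c := 0)
    ((h.fin n).insert 0) hx2.1
    (((h.contE.mul (h.contV.sub (h.contU n))).add (continuousOn_const.mul (h.contU n))).mono hsub)
    fun z hz hzS => by
      have hz' : z ∈ Ioo (-d) d := ⟨hx1.1.trans_lt hz.1, hz.2.trans_le hx2.2⟩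
      have hz'' := Ioo_subset_Icc_self hz'
      have h0 : z ≠ 0 := fun e => hzS (Or.inl e)
      have h1 : U n z ≠ 0 := fun e => hzS (Or.inr ⟨hz'', e⟩)
      refine ⟨_, (h.derP n z hz' h0 h1).add ((h.derU n z hz' h0 h1).1.const_mul k), ?_⟩
      exact t2b_alg hc hK (by positivity) hr hr1 hr2 (h.bdE z hz'').1 (h.bdal z hz'' h0).1
        (h.bdal z hz'' h0).2 (h.bdbe z hz'').2 (hlow z hz'') (H z hz'').1
        (e1 ▸ t2b_mono h n hx1.1 hz.1.le hz''.2) (e2 ▸ t2b_mono h n hz''.1 hz.2.le hx2.2) h1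
  have a1 := (H _ ml).2.2 x1 hx1
  have a2 := (H x2 (hsub (right_mem_Icc.2 hx2.1))).2.2 d (right_mem_Icc.2 hx2.2)
  rw [hs0] at a1
  have e3 : k * U n x1 = -(k * r ^ 3) := by rw [e1]; ring
  have e4 : k * U n x2 = k * r ^ 3 := by rw [e2]
  linarith

lemma t2b_taylor {Φ : ℝ → ℝ} (h : AnalyticAt ℝ Φ 0) (h0 : Φ 0 = 0) :
    ∃ M : ℝ, 0 ≤ M ∧ ∀ᶠ t in 𝓝 (0 : ℝ), |Φ t - deriv Φ 0 * t| ≤ M * t ^ 2 := by
  obtain ⟨p, hp⟩ := h
  have hg : AnalyticAt ℝ (dslope Φ 0) 0 := ⟨_, hp.has_fpower_series_dslope_fslope⟩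
  obtain ⟨M, hM, hb⟩ := hg.differentiableAt.isBigO_sub.exists_nonneg
  refine ⟨M, hM, ?_⟩
  filter_upwards [hb.bound] with t ht
  have e := sub_smul_dslope Φ 0 t
  rw [h0, sub_zero, sub_zero, smul_eq_mul] at e
  rw [dslope_same, sub_zero, Real.norm_eq_abs, Real.norm_eq_abs] at ht
  rw [← e, show t * dslope Φ 0 t - deriv Φ 0 * t = t * (dslope Φ 0 t - deriv Φ 0) by ring, abs_mul,
    ← sq_abs t]
  nlinarith [abs_nonneg t]

theorem t2bS : T2bStmt := by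
  intro d c C V al be E U h ⟨K, hK, hV⟩ Φ hΦ hΦ0 hp hev
  obtain ⟨M, hM, hT⟩ := t2b_taylor hΦ hΦ0
  set p := deriv Φ 0
  have hd := h.dpos
  have hc := h.cpos
  have ml : -d ∈ Icc (-d) d := left_mem_Icc.2 (by linarith)
  have mr : d ∈ Icc (-d) d := right_mem_Icc.2 (by linarith)
  have hE : 0 < E d := hc.trans_le (h.bdE d mr).1
  have hC : 0 < C := hE.trans_le (h.bdE d mr).2
  have lim : ∀ x ∈ Icc (-d) d, Tendsto (fun n => V x - U n x) atTop (𝓝 0) := fun x hx => by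
    have := (tendsto_const_nhds (x := V x)).sub (h.unif.tendsto_at hx)
    rwa [sub_self] at this
  set r : ℕ → ℝ := fun n => √(V (-d) - U n (-d)) with hr
  have rpos : ∀ n, 0 < r n := fun n => Real.sqrt_pos.2 (sub_pos.2 (h.lt n _ ml))
  have rsq : ∀ n, V (-d) - U n (-d) = r n ^ 2 := fun n =>
    (Real.sq_sqrt (sub_pos.2 (h.lt n _ ml)).le).symm
  have rlim : Tendsto r atTop (𝓝 0) := by
    have := (lim _ ml).sqrt
    rwa [Real.sqrt_zero] at this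
  have small : ∀ a b : ℝ, 0 < b → ∀ᶠ n in atTop, a * r n ≤ b := fun a b hb => by
    have := rlim.const_mul a
    rw [mul_zero] at this
    exact this.eventually (ge_mem_nhds hb)
  set c0 := E d / p - E (-d)
  set A := E d / p * (M * K ^ 2)
  have hA : ∀ᶠ n in atTop, |E d * (V d - U n d) - E (-d) * r n ^ 2 - c0 * r n ^ 2| ≤
      A * r n ^ 4 := by
    filter_upwards [hV, hev, (lim d mr).eventually hT] with n h1 h2 h3
    have h4 := (h1 d mr).1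
    rw [← h2, rsq] at h3
    rw [rsq] at h4
    have h5 : (V d - U n d) ^ 2 ≤ (K * r n ^ 2) ^ 2 :=
      pow_le_pow_left₀ (sub_pos.2 (h.lt n d mr)).le h4 2
    have e : E d * (V d - U n d) - E (-d) * r n ^ 2 - c0 * r n ^ 2 =
        -(E d / p) * (r n ^ 2 - p * (V d - U n d)) := by
      simp only [c0]
      field_simp
      ring
    rw [e, abs_mul, abs_neg, abs_of_pos (div_pos hE hp), mul_assoc]
    refine mul_le_mul_of_nonneg_left (h3.trans ?_) (div_pos hE hp).le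
    nlinarith
  have hc0 : c0 = 0 := by
    have l1 : Tendsto (fun n => K * r n + A * r n ^ 2) atTop (𝓝 (K * 0 + A * 0 ^ 2)) :=
      (rlim.const_mul K).add ((rlim.pow 2).const_mul A)
    have := ge_of_tendsto l1 (b := |c0|) (by
      filter_upwards [hV, hA] with n h1 h2
      have h3 : |E d * (V d - U n d) - E (-d) * (V (-d) - U n (-d))| ≤
        K * (V (-d) - U n (-d)) * r n := (h1 d mr).2.1
      rw [rsq] at h3
      have h4 : |c0| * r n ^ 2 ≤ (K * r n + A * r n ^ 2) * r n ^ 2 := by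
        rw [← abs_of_nonneg (sq_nonneg (r n)), ← abs_mul, abs_of_nonneg (sq_nonneg (r n))]
        have := abs_le.1 h2
        have := abs_le.1 h3
        rw [abs_le]
        constructor <;> nlinarith
      exact le_of_mul_le_mul_right h4 (pow_pos (rpos n) 2))
    rw [mul_zero, zero_add, zero_pow two_ne_zero, mul_zero] at this
    exact abs_nonpos_iff.1 this
  set k := c ^ 2 * (c / (2 * C)) ^ 3 / 2 / (C * (1 + (K + 1) ^ 3)) with hk
  have kpos : 0 < k := by positivity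
  have l2 : Tendsto (fun n => (A + 2 * K) * r n + 4 * K * |r n * Real.log (r n)|) atTop
      (𝓝 ((A + 2 * K) * 0 + 4 * K * |0 * Real.log 0|)) :=
    (rlim.const_mul _).add
      (((Real.continuous_mul_log.tendsto 0).comp rlim).abs.const_mul _)
  have := ge_of_tendsto l2 (b := 2 * k) (by
    filter_upwards [hV, hA, small 1 1 one_pos, small 6 (c / (2 * C)) (by positivity),
      small K (c / 2) (by positivity), small (K + 1) (c * d) (by positivity)]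
      with n h1 h2 s1 s2 s3 s4
    have h3 := t2b_drop (L := K * (r n ^ 2) ^ 2 * (1 + |Real.log (r n ^ 2)|)) h n hK (rpos n)
      (rsq n) (by linarith) s2 s3 s4 fun x hx => by
        have := h1 x hx
        change _ ∧ _ ≤ _ * r n ∧ _ at this
        rwa [rsq] at this
    rw [hc0, zero_mul, sub_zero] at h2
    have h4 := (abs_le.1 h2).1
    rw [Real.log_pow, abs_mul, Nat.cast_ofNat, abs_two, ← hk] at h3
    rw [abs_mul, abs_of_pos (rpos n)]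
    refine le_of_mul_le_mul_right ?_ (pow_pos (rpos n) 3)
    nlinarith)
  rw [mul_zero, zero_mul, abs_zero, mul_zero, add_zero] at this
  linarith

lemma t2b_sin {x : ℝ} (hx : |x| ≤ 1) : x ^ 4 / 8 ≤ x * sin x ^ 3 ∧ x * sin x ^ 3 ≤ x ^ 4 := by
  have key : ∀ y : ℝ, 0 ≤ y → y ≤ 1 → y ^ 4 / 8 ≤ y * sin y ^ 3 ∧ y * sin y ^ 3 ≤ y ^ 4 := by
    intro y h0 h1
    have h2 := Real.mul_le_sin h0 (by linarith [Real.pi_gt_three])
    have h3 : 1 / 2 ≤ 2 / π := by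
      rw [div_le_div_iff₀ two_pos Real.pi_pos]
      linarith [Real.pi_le_four]
    have h4 : y / 2 ≤ sin y := by nlinarith
    have h5 := Real.sin_le h0
    have h6 : (y / 2) ^ 3 ≤ sin y ^ 3 := pow_le_pow_left₀ (by linarith) h4 3
    have h7 : sin y ^ 3 ≤ y ^ 3 := pow_le_pow_left₀ (by linarith) h5 3
    constructor <;> nlinarith
  rcases le_total 0 x with h | h
  · exact key x h (abs_le.1 hx).2
  · have := key (-x) (by linarith) (by linarith [(abs_le.1 hx).1])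
    rw [sin_neg] at this
    constructor <;> nlinarith [this.1, this.2]

theorem tplCoreS (hTSeq : TSeqStmt) (hT2a : T2aStmt) (hTr : TrStmt) : TplCoreStmt := by
  intro K b0 b1 V U hK hb hT hO
  have hB : ∀ᶠ x in 𝓝 (0 : ℝ), Lin b0 b1 x ∈ Icc (2 * b0) (b0 / 2) :=
    (Lin.an b0 b1).continuous.continuousAt.eventually
      (Icc_mem_nhds (by rw [Lin.zero]; linarith) (by rw [Lin.zero]; linarith))
  obtain ⟨ε, hε, hB⟩ := Metric.eventually_nhds_iff.1 hB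
  obtain ⟨d, c, C, al, be, E, hdδ, hS⟩ := hTSeq _ _ V U (min 1 (ε / 2)) (min (-K / 8) (-b0 / 2))
    (max (-K) (-2 * b0)) (Cub.an 0 0 0 K).continuous hT.toTop0 (lt_min one_pos (half_pos hε))
    (lt_min (by linarith) (by linarith)) (fun x hx => by
      have h1 : |x| ≤ min 1 (ε / 2) := abs_le.2 hx
      have h2 := t2b_sin (h1.trans (min_le_left _ _))
      have h3 := hB (y := x) (by
        rw [Real.dist_eq, sub_zero]
        linarith [h1.trans (min_le_right _ _)])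
      have h4 : 0 ≤ x ^ 4 := by positivity
      have e : -x * Cub 0 0 0 K x = -K * (x * sin x ^ 3) := by unfold Cub; ring
      have m1 := min_le_left (-K / 8) (-b0 / 2)
      have m2 := min_le_right (-K / 8) (-b0 / 2)
      have m3 := le_max_left (-K) (-2 * b0)
      have m4 := le_max_right (-K) (-2 * b0)
      rw [e]
      refine ⟨?_, ?_, by linarith [h3.2], by linarith [h3.1]⟩
      · nlinarith [h2.1]
      · nlinarith [h2.2]) hO.1.2
  have hd := hS.dpos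
  have hc := hS.cpos
  have hd1 : d ≤ 1 := hdδ.trans (min_le_left _ _)
  have hpi := Real.pi_gt_three
  have v1 : V d ≠ 0 := fun e => by
    have := (hS.bdV d (right_mem_Icc.2 (by linarith))).1
    rw [e, mul_zero] at this
    exact absurd this (not_le.2 (by positivity))
  have v2 : V (-d + 2 * π) ≠ 0 := fun e => by
    have := (hS.bdV (-d) (left_mem_Icc.2 (by linarith))).1
    rw [hT.perV] at e
    rw [e, mul_zero, neg_sq] at this
    exact absurd this (not_le.2 (by positivity))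
  obtain ⟨-, Φ, h1, h2, h3, h4⟩ := hTr _ _ V U d (-d + 2 * π) (Cub.an 0 0 0 K) (Lin.an b0 b1)
    hT.toTop0 (by linarith)
    (fun x hx hA hV => hO.2 x ⟨by linarith [hx.1], by linarith [hx.2]⟩ ⟨hA, hV⟩) v1 v2
  refine t2bS d c C V al be E U hS (hT2a d c C V al be E U hS) Φ h1 h2 h3 ?_
  filter_upwards [h4] with n hn
  rwa [hT.perV, hT.perU n] at hn

end Pool.Agent.MP_c2f0e4_an

end
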