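import Pool.Agent.Mg.F402458.G1bc3d2

section

open Set Filter Topology Real Asymptotics

namespace Pool.Agent.MP_c2f0e4_an

namespace pdat

open MeasureTheory

/-- growth of order at most `k` -/
def Bd (f : ℝ → ℝ) (k : ℤ) : Prop := ∃ C : ℝ, 0 ≤ C ∧ ∀ ρ, |f ρ| ≤ C * (1 + |ρ|) ^ k

lemma wpos (ρ : ℝ) : 0 < 1 + |ρ| := by positivity

lemma one_le_w (ρ : ℝ) : 1 ≤ 1 + |ρ| := le_add_of_nonneg_right (abs_nonneg ρ)

namespace Bd

variable {f g : ℝ → ℝ} {k l : ℤ}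

lemma congr (h : Bd f k) (e : ∀ ρ, g ρ = f ρ) : Bd g k := by
  rwa [show g = f from funext e]

lemma mono (h : Bd f k) (hk : k ≤ l) : Bd f l := by
  obtain ⟨C, h0, h⟩ := h
  exact ⟨C, h0, fun ρ => (h ρ).trans
    (mul_le_mul_of_nonneg_left (zpow_le_zpow_right₀ (one_le_w ρ) hk) h0)⟩

lemma add (h : Bd f k) (h' : Bd g k) : Bd (fun ρ => f ρ + g ρ) k := by
  obtain ⟨C, h0, h⟩ := h
  obtain ⟨D, h0', h'⟩ := h'
  refine ⟨C + D, add_nonneg h0 h0', fun ρ => (abs_add_le _ _).trans ?_⟩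
  rw [add_mul]
  exact add_le_add (h ρ) (h' ρ)

lemma mul (h : Bd f k) (h' : Bd g l) : Bd (fun ρ => f ρ * g ρ) (k + l) := by
  obtain ⟨C, h0, h⟩ := h
  obtain ⟨D, h0', h'⟩ := h'
  refine ⟨C * D, mul_nonneg h0 h0', fun ρ => ?_⟩
  rw [abs_mul, zpow_add₀ (wpos ρ).ne', mul_mul_mul_comm]
  exact mul_le_mul (h ρ) (h' ρ) (abs_nonneg _) ((abs_nonneg _).trans (h ρ))

lemma const (c : ℝ) : Bd (fun _ => c) 0 := ⟨|c|, abs_nonneg c, fun _ => by simp⟩

lemma cmul (c : ℝ) (h : Bd f k) : Bd (fun ρ => c * f ρ) k := by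
  simpa using (const c).mul h

lemma sub (h : Bd f k) (h' : Bd g k) : Bd (fun ρ => f ρ - g ρ) k :=
  (h.add (h'.cmul (-1))).congr fun ρ => by ring

lemma pow (n : ℕ) : Bd (fun ρ => ρ ^ n) n :=
  ⟨1, zero_le_one, fun ρ => by
    rw [one_mul, zpow_natCast, abs_pow]
    exact pow_le_pow_left₀ (abs_nonneg ρ) (by linarith) n⟩

lemma id : Bd (fun ρ => ρ) 1 := by simpa using pow 1

lemma zero (k : ℤ) : Bd (fun _ => 0) k := ⟨0, le_rfl, fun _ => by simp⟩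

lemma sum {ι : Type} (s : Finset ι) {F : ι → ℝ → ℝ} (h : ∀ i ∈ s, Bd (F i) k) :
    Bd (fun ρ => ∑ i ∈ s, F i ρ) k := by
  classical
  induction s using Finset.induction_on with
  | empty => simpa using zero k
  | insert a s ha ih =>
    refine ((h a (Finset.mem_insert_self a s)).add
      (ih fun i hi => h i (Finset.mem_insert_of_mem hi))).congr fun ρ => ?_
    rw [Finset.sum_insert ha]

lemma of_mul {C : ℝ} {n : ℕ} (h : ∀ ρ, |f ρ| * (1 + |ρ|) ^ n ≤ C) : Bd f (-n) := by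
  refine ⟨C, le_trans (by positivity) (h 0), fun ρ => ?_⟩
  rw [zpow_neg, zpow_natCast, ← div_eq_mul_inv, le_div_iff₀ (pow_pos (wpos ρ) n)]
  exact h ρ

lemma inv : Bd (fun ρ => (1 + ρ ^ 6)⁻¹) (-6) := by
  refine of_mul (n := 6) (C := 32) fun ρ => ?_
  have h := add_pow_le zero_le_one (abs_nonneg ρ) 6
  have h6 : |ρ| ^ 6 = ρ ^ 6 := by rw [← abs_pow]; exact abs_of_nonneg (by positivity)
  rw [abs_of_pos (by positivity), inv_mul_le_iff₀ (by positivity)]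
  rw [h6] at h
  norm_num at h
  linarith

lemma neg_arg (h : Bd f k) : Bd (fun ρ => f (-ρ)) k := by
  obtain ⟨C, h0, h⟩ := h
  exact ⟨C, h0, fun ρ => by simpa using h (-ρ)⟩

lemma integrable (h : Bd f (-2)) (hf : Continuous f) : Integrable f := by
  obtain ⟨C, h0, h⟩ := h
  refine (integrable_inv_one_add_sq.const_mul C).mono' hf.aestronglyMeasurable
    (Eventually.of_forall fun ρ => (h ρ).trans (mul_le_mul_of_nonneg_left ?_ h0))
  rw [zpow_neg]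
  refine inv_anti₀ (by positivity) ?_
  have h1 : (1 + |ρ|) ^ (2 : ℤ) = (1 + |ρ|) ^ (2 : ℕ) := zpow_natCast _ 2
  rw [h1, ← sq_abs ρ]
  nlinarith [abs_nonneg ρ]

lemma tendsto (h : Bd f (-1)) : Tendsto f atTop (𝓝 0) := by
  obtain ⟨C, h0, h⟩ := h
  have h1 : Tendsto (fun ρ : ℝ => C * (1 + |ρ|) ^ (-1 : ℤ)) atTop (𝓝 0) := by
    simp only [zpow_neg_one]
    rw [← mul_zero C]
    exact (tendsto_inv_atTop_zero.comp
      (tendsto_atTop_add_const_left _ 1 tendsto_abs_atTop_atTop)).const_mul C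
  exact squeeze_zero_norm h h1

/-- the tail integral -/
lemma tail {j : ℕ} (h : Bd f (-(j + 2 : ℕ))) :
    ∃ C : ℝ, 0 ≤ C ∧ ∀ ρ, 1 ≤ ρ → |∫ x in Ioi ρ, f x| * ρ ^ (j + 1) ≤ C := by
  obtain ⟨C, h0, h⟩ := h
  refine ⟨C, h0, fun ρ hρ => ?_⟩
  have hρ0 : 0 < ρ := by linarith
  have h1 : ‖∫ x in Ioi ρ, f x‖ ≤ ∫ x in Ioi ρ, C / ρ ^ j * x ^ (-2 : ℝ) := by
    refine norm_integral_le_of_norm_le
      ((integrableOn_Ioi_rpow_of_lt (by norm_num) hρ0).const_mul _)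
      (ae_restrict_of_forall_mem measurableSet_Ioi fun x hx => (h x).trans ?_)
    have hx' : ρ < x := hx
    have hx0 : 0 < x := by linarith
    rw [zpow_neg, zpow_natCast, Real.rpow_neg hx0.le, Real.rpow_two, div_eq_mul_inv, mul_assoc,
      ← mul_inv, abs_of_pos hx0]
    refine mul_le_mul_of_nonneg_left (inv_anti₀ (by positivity) ?_) h0
    rw [pow_add]
    gcongr <;> linarith
  rw [integral_const_mul, integral_Ioi_rpow_of_lt (by norm_num) hρ0, Real.norm_eq_abs] at h1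
  have h2 : -ρ ^ ((-2 : ℝ) + 1) / (-2 + 1) = ρ⁻¹ := by
    norm_num [Real.rpow_neg_one]
  rw [h2] at h1
  refine (mul_le_mul_of_nonneg_right h1 (by positivity)).trans (le_of_eq ?_)
  field_simp
  ring

end Bd

/-- the primitive vanishing at plus infinity -/
noncomputable def HH (h : ℝ → ℝ) (ρ : ℝ) : ℝ := -∫ x in Ioi ρ, h x

lemma HH_add {h : ℝ → ℝ} (hi : Integrable h) (ρ : ℝ) : HH h ρ + ∫ x, h x = ∫ x in Iic ρ, h x := by
  rw [HH, ← intervalIntegral.integral_Iic_add_Ioi (b := ρ) hi.integrableOn hi.integrableOn]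
  ring

lemma HH_der {h : ℝ → ℝ} (hi : Integrable h) (hc : Continuous h) (ρ : ℝ) :
    HasDerivAt (HH h) (h ρ) ρ := by
  have e : HH h = fun u => (∫ x in (0 : ℝ)..u, h x) + ((∫ x in Iic 0, h x) - ∫ x, h x) := by
    funext u
    rw [← intervalIntegral.integral_Iic_sub_Iic hi.integrableOn hi.integrableOn, ← HH_add hi u]
    ring
  rw [e]
  exact (hc.integral_hasStrictDerivAt 0 ρ).hasDerivAt.add_const _

lemma HH_bd {h : ℝ → ℝ} (hi : Integrable h) : Bd (HH h) 0 := by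
  refine ⟨∫ x, ‖h x‖, integral_nonneg fun _ => norm_nonneg _, fun ρ => ?_⟩
  rw [zpow_zero, mul_one, HH, abs_neg, ← Real.norm_eq_abs]
  exact (norm_integral_le_integral_norm _).trans
    (setIntegral_le_integral hi.norm (Eventually.of_forall fun _ => norm_nonneg _))

lemma HH_tail {h : ℝ → ℝ} {j : ℕ} (hb : Bd h (-(j + 2 : ℕ))) (hc : Continuous h) :
    ∃ C : ℝ, 0 ≤ C ∧ (∀ ρ, 1 ≤ ρ → |HH h ρ| * ρ ^ (j + 1) ≤ C) ∧
      ∀ ρ, ρ ≤ -1 → |HH h ρ + ∫ x, h x| * |ρ| ^ (j + 1) ≤ C := by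
  have hi : Integrable h := (hb.mono (by omega)).integrable hc
  obtain ⟨C, h0, hC⟩ := hb.tail
  obtain ⟨D, h0', hD⟩ := hb.neg_arg.tail
  refine ⟨C + D, add_nonneg h0 h0', fun ρ hρ => ?_, fun ρ hρ => ?_⟩
  · rw [HH, abs_neg]
    linarith [hC ρ hρ]
  · have := hD (-ρ) (by linarith)
    rw [integral_comp_neg_Ioi, neg_neg] at this
    rw [HH_add hi, abs_of_neg (a := ρ) (by linarith)]
    linarith

lemma HH_bd_one {h : ℝ → ℝ} (hb : Bd h (-2)) (hc : Continuous h) (h0 : ∫ x, h x = 0) :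
    Bd (HH h) (-1) := by
  obtain ⟨B, hB0, hB⟩ := HH_bd (hb.integrable hc)
  obtain ⟨C, hC0, h1, h2⟩ := HH_tail (j := 0) hb hc
  simp only [zpow_zero, mul_one, h0, add_zero, zero_add, pow_one] at hB h1 h2
  refine Bd.of_mul (n := 1) (C := 2 * B + C) fun ρ => ?_
  have h3 := hB ρ
  have h4 := abs_nonneg (HH h ρ)
  rw [pow_one, mul_add, mul_one]
  rcases le_total 1 ρ with h5 | h5
  · have := h1 ρ h5
    rw [abs_of_pos (a := ρ) (by linarith)]
    linarith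
  · rcases le_total ρ (-1) with h6 | h6
    · linarith [h2 ρ h6]
    · have : |ρ| ≤ 1 := abs_le.2 ⟨h6, h5⟩
      nlinarith

noncomputable def th (n : ℕ) (ρ : ℝ) : ℝ :=
  if n = 5 then Real.log (1 + ρ ^ 6) / 6 else ρ ^ (n + 1) * (1 + ρ ^ 6)⁻¹

noncomputable def td (n : ℕ) (ρ : ℝ) : ℝ :=
  if n = 5 then ρ ^ 5 * (1 + ρ ^ 6)⁻¹
  else ((n + 1) * ρ ^ n + (n - 5) * ρ ^ (n + 6)) * ((1 + ρ ^ 6)⁻¹ * (1 + ρ ^ 6)⁻¹)

lemma th_der (n : ℕ) (ρ : ℝ) : HasDerivAt (th n) (td n ρ) ρ := by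
  have h0 : (1 + ρ ^ 6) ≠ 0 := by positivity
  have h1 : HasDerivAt (fun x : ℝ => 1 + x ^ 6) (6 * ρ ^ 5) ρ := by
    simpa using (hasDerivAt_pow 6 ρ).const_add 1
  unfold th td
  split_ifs
  · refine ((h1.log h0).div_const 6).congr_deriv ?_
    field_simp
  · refine ((hasDerivAt_pow (n + 1) ρ).mul (h1.inv h0)).congr_deriv ?_
    simp only [Pi.inv_apply, Nat.add_sub_cancel]
    push_cast
    field_simp
    ring

lemma inv_cont : Continuous fun ρ : ℝ => (1 + ρ ^ 6)⁻¹ :=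
  Continuous.inv₀ (by fun_prop) fun ρ => by positivity

lemma td_cont (n : ℕ) : Continuous (td n) := by
  have := inv_cont
  unfold td
  split_ifs <;> fun_prop

lemma td_bd (n : ℕ) : Bd (td n) (n - 6) := by
  unfold td
  split_ifs with h
  · subst h
    exact ((Bd.pow 5).mul Bd.inv).mono (by norm_num)
  · exact (((((Bd.pow n).mono (l := (n + 6 : ℕ)) (by omega)).cmul _).add
      ((Bd.pow (n + 6)).cmul _)).mul (Bd.inv.mul Bd.inv)).mono (by omega)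

lemma th_bd' {n : ℕ} (h : n ≠ 5) : Bd (th n) (n - 5) := by
  unfold th
  simp only [if_neg h]
  exact ((Bd.pow (n + 1)).mul Bd.inv).mono (by omega)

lemma th_bd (n : ℕ) : Bd (th n) (n - 4) := by
  rcases eq_or_ne n 5 with rfl | h
  · refine ⟨1, zero_le_one, fun ρ => ?_⟩
    have h6 : |ρ| ^ 6 = ρ ^ 6 := by rw [← abs_pow]; exact abs_of_nonneg (by positivity)
    have h1 : 0 ≤ Real.log (1 + ρ ^ 6) := Real.log_nonneg (le_add_of_nonneg_right (by positivity))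
    have h2 : 1 + ρ ^ 6 ≤ (1 + |ρ|) ^ 6 := by
      have := pow_add_pow_le zero_le_one (abs_nonneg ρ) (n := 6) (by norm_num)
      rwa [one_pow, h6] at this
    have h3 := Real.log_le_log (by positivity) h2
    rw [Real.log_pow] at h3
    have h4 := Real.log_le_sub_one_of_pos (wpos ρ)
    simp only [th, if_true]
    rw [abs_of_nonneg (by positivity)]
    norm_num at h3 ⊢
    linarith
  · exact (th_bd' h).mono (by omega)

lemma th_phi {n : ℕ} (hn : n ≤ 5) {ρ : ℝ} (hρ : 1 ≤ |ρ|) :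
    |th n ρ - phi n ρ| * |ρ| ^ 7 ≤ |ρ| ^ n := by
  have h0 : 0 < |ρ| := by linarith
  have hρ0 : ρ ≠ 0 := abs_pos.1 h0
  have h6 : |ρ| ^ 6 = ρ ^ 6 := by rw [← abs_pow]; exact abs_of_nonneg (by positivity)
  have hp : 0 < ρ ^ 6 := by positivity
  unfold th phi
  split_ifs with h
  · subst h
    have e : Real.log (1 + ρ ^ 6) / 6 - Real.log |ρ| = Real.log ((1 + ρ ^ 6) / ρ ^ 6) / 6 := by
      rw [Real.log_div (by positivity) hp.ne', ← h6, Real.log_pow]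
      push_cast
      ring
    have h1 : 0 ≤ Real.log ((1 + ρ ^ 6) / ρ ^ 6) :=
      Real.log_nonneg ((one_le_div hp).2 (by linarith))
    have h2 := Real.log_le_sub_one_of_pos (show 0 < (1 + ρ ^ 6) / ρ ^ 6 by positivity)
    have h3 : (1 + ρ ^ 6) / ρ ^ 6 - 1 = 1 / |ρ| ^ 6 := by rw [h6]; field_simp; ring
    rw [h3] at h2
    rw [e, abs_of_nonneg (by positivity)]
    calc Real.log ((1 + ρ ^ 6) / ρ ^ 6) / 6 * |ρ| ^ 7 ≤ 1 / |ρ| ^ 6 * |ρ| ^ 7 := by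
          exact mul_le_mul_of_nonneg_right (by linarith) (by positivity)
      _ = |ρ| ^ 1 := by field_simp
      _ ≤ |ρ| ^ 5 := pow_le_pow_right₀ hρ (by norm_num)
  · have e : ρ ^ (n + 1) * (1 + ρ ^ 6)⁻¹ - ρ ^ n / ρ ^ 5 = -(ρ ^ n / (ρ ^ 5 * (1 + ρ ^ 6))) := by
      field_simp
      ring
    rw [e, abs_neg, abs_div, abs_mul, abs_pow, abs_pow, abs_of_pos (a := 1 + ρ ^ 6) (by positivity),
      div_mul_eq_mul_div, div_le_iff₀ (by positivity), ← h6]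
    refine mul_le_mul_of_nonneg_left ?_ (by positivity)
    calc |ρ| ^ 7 ≤ |ρ| ^ (5 + 6) := pow_le_pow_right₀ hρ (by norm_num)
      _ = |ρ| ^ 5 * |ρ| ^ 6 := pow_add _ _ _
      _ ≤ |ρ| ^ 5 * (1 + |ρ| ^ 6) := by gcongr; linarith

variable (χ : ℝ → ℝ) (ci : ℝ) (q : ℕ → ℝ)

noncomputable def cc (n : ℕ) : ℝ :=
  if n = 5 then q 5 * ci else if n = 6 then 0 else q n * ci / (n - 5)

noncomputable def PP (n : ℕ) (p : ℝ → ℝ) (ρ : ℝ) : ℝ :=
  cc ci q n * th n ρ + HH (fun x => p x - cc ci q n * td n x) ρ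

noncomputable def pp (n : ℕ) (ρ : ℝ) : ℝ :=
  q n * (ρ ^ n * χ ρ - if n = 6 then ci else 0) +
    ∑ i : Fin n, q (n - 1 - i) * ρ ^ (n - 1 - i) * χ ρ * (i * PP ci q i (pp i) ρ - ρ * pp i ρ)
termination_by n

noncomputable def WW (i : ℕ) (ρ : ℝ) : ℝ := i * PP ci q i (pp χ ci q i) ρ - ρ * pp χ ci q i ρ

noncomputable def hh (n : ℕ) (x : ℝ) : ℝ := pp χ ci q n x - cc ci q n * td n x

lemma pp_eq (n : ℕ) (ρ : ℝ) : pp χ ci q n ρ = q n * (ρ ^ n * χ ρ - if n = 6 then ci else 0) +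
    ∑ i ∈ Finset.range n, q (n - 1 - i) * ρ ^ (n - 1 - i) * χ ρ * WW χ ci q i ρ := by
  rw [pp, ← Fin.sum_univ_eq_sum_range
    (fun i => q (n - 1 - i) * ρ ^ (n - 1 - i) * χ ρ * WW χ ci q i ρ) n]
  rfl

lemma PP_eq (n : ℕ) (ρ : ℝ) :
    PP ci q n (pp χ ci q n) ρ = cc ci q n * th n ρ + HH (hh χ ci q n) ρ := rfl

lemma pp_zero (ρ : ℝ) : pp χ ci q 0 ρ = q 0 * χ ρ := by simp [pp_eq]

lemma pp_one (ρ : ℝ) : pp χ ci q 1 ρ = q 1 * (ρ * χ ρ) - q 0 * χ ρ * (ρ * (q 0 * χ ρ)) := by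
  rw [pp_eq, Finset.sum_range_one, WW, pp_zero]
  simp [sub_eq_add_neg]

variable {χ ci}

lemma chi_bd (h : ChiOK χ ci) : Bd χ (-6) :=
  let ⟨_, hC⟩ := h.bd; Bd.of_mul (n := 6) fun ρ => (hC ρ).1

lemma chi_bd' (h : ChiOK χ ci) : Bd (fun ρ => ρ ^ 6 * χ ρ - ci) (-6) :=
  let ⟨_, hC⟩ := h.bd; Bd.of_mul (n := 6) fun ρ => (hC ρ).2

lemma main_bd (h : ChiOK χ ci) {n : ℕ} (hn : n ≤ 6) :
    Bd (fun ρ => q n * (ρ ^ n * χ ρ - if n = 6 then ci else 0) - cc ci q n * td n ρ) (n - 8) := by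
  have hδ := (chi_bd h).add (chi_bd' h)
  by_cases h5 : n = 5
  · subst h5
    refine (((((Bd.pow 5).mul hδ).mul Bd.inv).cmul (q 5)).mono (by norm_num)).congr fun ρ => ?_
    have h0 : (1 + ρ ^ 6) ≠ 0 := by positivity
    simp only [cc, td, if_true]
    norm_num
    field_simp
    ring
  · by_cases h6 : n = 6
    · subst h6
      refine (((chi_bd' h).cmul (q 6)).mono (by norm_num)).congr fun ρ => ?_
      simp [cc]
    · have h7 : (n : ℝ) - 5 ≠ 0 := by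
        rw [sub_ne_zero]
        exact_mod_cast h5
      refine ((((((Bd.pow n).mul hδ).mul Bd.inv).cmul (q n)).mono (l := n - 8) (by omega)).add
        ((((Bd.pow n).mul (Bd.inv.mul Bd.inv)).cmul (q n * ci * (1 - (n + 1) / (n - 5)))).mono
          (by omega))).congr fun ρ => ?_
      have h0 : (1 + ρ ^ 6) ≠ 0 := by positivity
      simp only [cc, td, if_neg h5, if_neg h6]
      field_simp
      ring

lemma int_hh_one (h : ChiOK χ ci) : ∫ x, hh χ ci q 1 x = 0 := by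
  have h1 : ∀ x, hh χ ci q 1 (-x) = -hh χ ci q 1 x := fun x => by
    simp only [hh, pp_one, td, h.even]
    norm_num
    ring
  have h2 := integral_neg_eq_self (hh χ ci q 1) volume
  simp only [h1, integral_neg] at h2
  linarith

lemma good (h : ChiOK χ ci) (n : ℕ) (hn : n ≤ 6) :
    Continuous (hh χ ci q n) ∧ Bd (hh χ ci q n) (n - 8) ∧ Continuous (WW χ ci q n) ∧
      Bd (WW χ ci q n) (n - 2) := by
  induction n using Nat.strong_induction_on with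
  | _ n ih =>
  have hχ := h.cont
  have hp : Continuous (pp χ ci q n) := by
    rw [funext (pp_eq χ ci q n)]
    refine Continuous.add (by fun_prop) (continuous_finsetSum _ fun i hi => ?_)
    have := (ih i (Finset.mem_range.1 hi) (by have := Finset.mem_range.1 hi; omega)).2.2.1
    fun_prop
  have h1 : Continuous (hh χ ci q n) := hp.sub (continuous_const.mul (td_cont n))
  have h2 : Bd (hh χ ci q n) (n - 8) := by
    refine ((main_bd q h hn).add (Bd.sum (Finset.range n) (F := fun i ρ =>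
      q (n - 1 - i) * ρ ^ (n - 1 - i) * χ ρ * WW χ ci q i ρ) fun i hi => ?_)).congr fun ρ => ?_
    · have hi' := Finset.mem_range.1 hi
      exact ((((Bd.pow (n - 1 - i)).cmul _).mul (chi_bd h)).mul
        (ih i hi' (by omega)).2.2.2).mono (by omega)
    · rw [hh, pp_eq]
      ring
  have hi : Integrable (hh χ ci q n) := (h2.mono (by omega)).integrable h1
  have hP : Continuous (PP ci q n (pp χ ci q n)) :=
    continuous_iff_continuousAt.2 fun ρ =>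
      (((th_der n ρ).const_mul (cc ci q n)).add (HH_der hi h1 ρ)).continuousAt
  refine ⟨h1, h2, (continuous_const.mul hP).sub (continuous_id.mul hp), Bd.sub ?_ ?_⟩
  · rcases Nat.lt_or_ge n 2 with h3 | h3
    · interval_cases n
      · simpa using Bd.zero _
      · exact ((((th_bd 1).cmul _).mono (by norm_num)).add
          (HH_bd_one (h2.mono (by norm_num)) h1 (int_hh_one q h))).cmul _
    · exact ((((th_bd n).cmul _).mono (by omega)).add ((HH_bd hi).mono (by omega))).cmul _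
  · refine ((Bd.id.mul ((h2.mono (l := n - 6) (by omega)).add
      ((td_bd n).cmul (cc ci q n)))).mono (by omega)).congr fun ρ => ?_
    rw [hh]
    ring

lemma bounds (h : ChiOK χ ci) (i : ℕ) : ∃ C : ℝ, 0 ≤ C ∧ (i ≤ 6 →
    (∀ ρ, |WW χ ci q i ρ| * (1 + |ρ|) ^ 2 ≤ C * (1 + |ρ|) ^ i) ∧
    (∀ ρ, 1 ≤ ρ → |PP ci q i (pp χ ci q i) ρ - cc ci q i * phi i ρ| * ρ ^ 7 ≤ C * ρ ^ i) ∧
    ∀ ρ, ρ ≤ -1 → |PP ci q i (pp χ ci q i) ρ + (∫ x, hh χ ci q i x) - cc ci q i * phi i ρ|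
      * |ρ| ^ 7 ≤ C * |ρ| ^ i) := by
  by_cases hi : i ≤ 6
  swap
  · exact ⟨0, le_rfl, fun h => absurd h hi⟩
  obtain ⟨h1, h2, -, A, hA0, hA⟩ := good q h i hi
  obtain ⟨B, hB0, hB1, hB2⟩ := HH_tail (j := 6 - i) (h2.mono (by omega)) h1
  have hc0 := abs_nonneg (cc ci q i)
  have key : ∀ ρ H : ℝ, 1 ≤ |ρ| → |H| * |ρ| ^ (6 - i + 1) ≤ B →
      |cc ci q i * (th i ρ - phi i ρ) + H| * |ρ| ^ 7 ≤ (A + B + |cc ci q i|) * |ρ| ^ i := by
    intro ρ H hρ hH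
    have h3 : |cc ci q i * (th i ρ - phi i ρ)| * |ρ| ^ 7 ≤ |cc ci q i| * |ρ| ^ i := by
      rcases hi.lt_or_eq with h4 | rfl
      · rw [abs_mul, mul_assoc]
        exact mul_le_mul_of_nonneg_left (th_phi (by omega) hρ) hc0
      · simp [cc]
    have h4 : |H| * |ρ| ^ 7 ≤ B * |ρ| ^ i := by
      rw [show 7 = 6 - i + 1 + i by omega, pow_add, ← mul_assoc]
      exact mul_le_mul_of_nonneg_right hH (by positivity)
    have h5 : 0 ≤ A * |ρ| ^ i := by positivity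
    have h6 := mul_le_mul_of_nonneg_right (abs_add_le (cc ci q i * (th i ρ - phi i ρ)) H)
      (show 0 ≤ |ρ| ^ 7 by positivity)
    linarith
  refine ⟨A + B + |cc ci q i|, by positivity, fun _ => ⟨fun ρ => ?_, fun ρ hρ => ?_,
    fun ρ hρ => ?_⟩⟩
  · have h3 := mul_le_mul_of_nonneg_right (hA ρ) (show 0 ≤ (1 + |ρ|) ^ 2 by positivity)
    have h4 : (1 + |ρ|) ^ ((i : ℤ) - 2) * (1 + |ρ|) ^ 2 = (1 + |ρ|) ^ i := by
      rw [← zpow_natCast, ← zpow_natCast, ← zpow_add₀ (wpos ρ).ne']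
      congr 1
      omega
    rw [mul_assoc, h4] at h3
    refine h3.trans (mul_le_mul_of_nonneg_right (by linarith) (by positivity))
  · have e : |ρ| = ρ := abs_of_pos (by linarith)
    have := key ρ (HH (hh χ ci q i) ρ) (by rwa [e]) (by rw [e]; exact hB1 ρ hρ)
    rw [e] at this
    convert this using 3
    rw [PP_eq]
    ring
  · have := key ρ _ (by rw [abs_of_neg (by linarith)]; linarith) (hB2 ρ hρ)
    convert this using 3
    rw [PP_eq]
    ring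

lemma int_hh_zero (h : ChiOK χ ci) : ∫ x, hh χ ci q 0 x = q 0 * ∫ ρ, χ ρ := by
  have i1 : Integrable χ := ((chi_bd h).mono (by norm_num)).integrable h.cont
  have i2 : Integrable (td 0) := ((td_bd 0).mono (by norm_num)).integrable (td_cont 0)
  have b : Bd (th 0) (-1) := (th_bd' (by norm_num)).mono (by norm_num)
  have t : Tendsto (th 0) atBot (𝓝 0) := by
    simpa [Function.comp_def] using b.neg_arg.tendsto.comp tendsto_neg_atBot_atTop
  have := integral_of_hasDerivAt_of_tendsto (th_der 0) i2 t b.tendsto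
  simp only [hh, pp_zero]
  rw [integral_sub (i1.const_mul _) (i2.const_mul _), integral_const_mul, integral_const_mul, this]
  ring

lemma int_hh_six (h0 : q 0 = 0) (h1 : q 1 = 0) (h2 : q 2 = 0) :
    ∫ x, hh χ ci q 6 x = q 6 * ∫ ρ, (ρ ^ 6 * χ ρ - ci) := by
  have key : ∀ i, q i = 0 → i ≠ 5 → (∀ ρ, pp χ ci q i ρ = 0) → ∀ ρ, WW χ ci q i ρ = 0 := by
    intro i hq hi hp ρ
    have hc : cc ci q i = 0 := by simp [cc, hq, hi]
    simp [WW, PP, HH, hp, hc]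
  have w0 := key 0 h0 (by norm_num) fun ρ => by simp [pp_zero, h0]
  have w1 := key 1 h1 (by norm_num) fun ρ => by simp [pp_one, h0, h1]
  have w2 := key 2 h2 (by norm_num) fun ρ => by simp [pp_eq, h2, w0, w1, Finset.sum_range_succ]
  rw [← integral_const_mul]
  congr 1
  funext x
  simp [hh, pp_eq, cc, Finset.sum_range_succ, w0, w1, w2, h0, h1, h2]

end pdat

open pdat in
theorem pDataS : PDataStmt := by
  intro χ ci q h
  choose C hC0 hC using bounds q h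
  have hle : ∀ i ≤ 6, C i ≤ ∑ j ∈ Finset.range 7, C j := fun i hi =>
    Finset.single_le_sum (fun j _ => hC0 j) (Finset.mem_range.2 (by omega))
  refine ⟨fun i => PP ci q i (pp χ ci q i), pp χ ci q, cc ci q, fun i => ∫ x, hh χ ci q i x,
    ∑ j ∈ Finset.range 7, C j, fun i hi ρ => ?_, fun n _ ρ => pp_eq χ ci q n ρ,
    fun i hi ρ => ?_, fun i hi ρ hρ => ?_, fun i hi ρ hρ => ?_, by simp [cc], int_hh_zero q h,
    int_hh_one q h, int_hh_six q⟩
  · obtain ⟨h1, h2, -⟩ := good q h i hi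
    refine (((th_der i ρ).const_mul (cc ci q i)).add
      (HH_der ((h2.mono (by omega)).integrable h1) h1 ρ)).congr_deriv ?_
    rw [hh]
    ring
  · exact ((hC i hi).1 ρ).trans (mul_le_mul_of_nonneg_right (hle i hi) (by positivity))
  · exact ((hC i hi).2.1 ρ hρ).trans
      (mul_le_mul_of_nonneg_right (hle i hi) (pow_nonneg (by linarith) _))
  · exact ((hC i hi).2.2 ρ hρ).trans (mul_le_mul_of_nonneg_right (hle i hi) (by positivity))

end Pool.Agent.MP_c2f0e4_an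

end

section

open Set Filter Topology Real Asymptotics

namespace Pool.Agent.MP_c2f0e4_an

lemma pest_term {M c ρ x W z : ℝ} {i k : ℕ} (hM : 1 ≤ M) (hz : 0 < z) (h6 : 6 ≤ i + k)
    (h12 : i + k ≤ 12) (hc : |c| ≤ M) (hx : |x| * (1 + |ρ|) ^ 6 ≤ M)
    (hW : |W| * (1 + |ρ|) ^ 2 ≤ M * (1 + |ρ|) ^ i) (hu : (1 + |ρ|) * z ≤ M) :
    |c * ρ ^ k * x * W * z ^ (i + k + 1)| * (1 + |ρ|) ^ 2 ≤ M ^ 9 * z ^ 7 := by
  obtain ⟨j, hj⟩ := Nat.exists_eq_add_of_le h6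
  have h1 : ((1 + |ρ|) * z) ^ j ≤ M ^ 6 :=
    (pow_le_pow_left₀ (by positivity) hu j).trans (pow_le_pow_right₀ hM (by omega))
  have h2 : (1 + |ρ|) ^ k * (1 + |ρ|) ^ i = (1 + |ρ|) ^ 6 * (1 + |ρ|) ^ j := by
    rw [← pow_add, ← pow_add, ← hj, add_comm k]
  calc _ = |c| * |ρ| ^ k * |x| * (|W| * (1 + |ρ|) ^ 2) * z ^ (6 + j + 1) := by
        rw [hj]
        simp only [abs_mul, abs_pow, abs_of_pos hz]
        ring
    _ ≤ M * (1 + |ρ|) ^ k * |x| * (M * (1 + |ρ|) ^ i) * z ^ (6 + j + 1) := by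
        gcongr
        linarith
    _ = M ^ 2 * (|x| * (1 + |ρ|) ^ 6) * ((1 + |ρ|) * z) ^ j * z ^ 7 := by
        rw [mul_pow]
        linear_combination M ^ 2 * |x| * z ^ (6 + j + 1) * h2
    _ ≤ M ^ 2 * M * M ^ 6 * z ^ 7 := by gcongr
    _ = _ := by ring

lemma pest_lin {M c ρ x y z : ℝ} (hz : 0 < z) (hc : 0 ≤ c) (hx : |x| * (1 + |ρ|) ^ 6 ≤ M)
    (hy : |y| ≤ c * |ρ * z|) : |z ^ 6 * x * y| * (1 + |ρ|) ^ 2 ≤ c * M * z ^ 7 := by
  have h0 : 1 ≤ 1 + |ρ| := by linarith [abs_nonneg ρ]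
  have h1 : |ρ| * (1 + |ρ|) ^ 2 ≤ (1 + |ρ|) ^ 6 :=
    calc _ ≤ (1 + |ρ|) * (1 + |ρ|) ^ 2 := by gcongr; linarith
      _ = (1 + |ρ|) ^ 3 := by ring
      _ ≤ _ := pow_le_pow_right₀ h0 (by norm_num)
  rw [abs_mul, abs_of_pos hz] at hy
  calc _ = z ^ 6 * |x| * |y| * (1 + |ρ|) ^ 2 := by simp only [abs_mul, abs_pow, abs_of_pos hz]
    _ ≤ z ^ 6 * |x| * (c * (|ρ| * z)) * (1 + |ρ|) ^ 2 := by gcongr
    _ = c * (|x| * (|ρ| * (1 + |ρ|) ^ 2)) * z ^ 7 := by ring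
    _ ≤ c * (|x| * (1 + |ρ|) ^ 6) * z ^ 7 := by gcongr
    _ ≤ _ := by gcongr

lemma pest_id {ρ z T x ci R Λ Q : ℝ} {q a b : ℕ → ℝ} (hT : T * z = 1)
    (hQ : Q = ∑ k ∈ Finset.range 6, q k * (ρ * z) ^ k + (ρ * z) ^ 6 * R)
    (hrec : ∀ n ≤ 6, b n = q n * (ρ ^ n * x - if n = 6 then ci else 0)
      + ∑ i ∈ Finset.range n, q (n - 1 - i) * ρ ^ (n - 1 - i) * x * (i * a i - ρ * b i)) :
    (T * Q * x - ∑ i ∈ Finset.range 7, (b i * (T + ρ * Q * x) * z ^ i - a i * (i * (Q * x) * z ^ i))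
      - (z ^ 5 * (ci * R) - 5 * (Q * x) * z ^ 5 * Λ)) * z =
    z ^ 6 * (ρ ^ 6 * x - ci) * (R - q 6) + z ^ 6 * x * (5 * Q * Λ) +
      ∑ i ∈ Finset.range 7, ∑ k ∈ Finset.range 7, if 6 ≤ i + k then
        (if k = 6 then R else q k) * ρ ^ k * x * (i * a i - ρ * b i) * z ^ (i + k + 1) else 0 := by
  have h0 := hrec 0 (by norm_num)
  have h1 := hrec 1 (by norm_num)
  have h2 := hrec 2 (by norm_num)
  have h3 := hrec 3 (by norm_num)
  have h4 := hrec 4 (by norm_num)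
  have h5 := hrec 5 (by norm_num)
  have h6 := hrec 6 (by norm_num)
  simp only [Finset.sum_range_succ, Finset.sum_range_zero] at h0 h1 h2 h3 h4 h5 h6 hQ ⊢
  norm_num at h0 h1 h2 h3 h4 h5 h6 hQ ⊢
  linear_combination (Q * x - (b 0 + b 1 * z + b 2 * z ^ 2 + b 3 * z ^ 3 + b 4 * z ^ 4 + b 5 * z ^ 5
      + b 6 * z ^ 6)) * hT - h0 - z * h1 - z ^ 2 * h2 - z ^ 3 * h3 - z ^ 4 * h4 - z ^ 5 * h5
    - z ^ 6 * h6 + (x + x * z * (-ρ * b 0 + (a 1 - ρ * b 1) * z + (2 * a 2 - ρ * b 2) * z ^ 2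
      + (3 * a 3 - ρ * b 3) * z ^ 3 + (4 * a 4 - ρ * b 4) * z ^ 4 + (5 * a 5 - ρ * b 5) * z ^ 5
      + (6 * a 6 - ρ * b 6) * z ^ 6)) * hQ

lemma pest_pt {M ρ z T x ci R Λ Q : ℝ} {q a b : ℕ → ℝ} (hM : 1 ≤ M) (hz : 0 < z) (hT : T * z = 1)
    (hQ : Q = ∑ k ∈ Finset.range 6, q k * (ρ * z) ^ k + (ρ * z) ^ 6 * R)
    (hrec : ∀ n ≤ 6, b n = q n * (ρ ^ n * x - if n = 6 then ci else 0)
      + ∑ i ∈ Finset.range n, q (n - 1 - i) * ρ ^ (n - 1 - i) * x * (i * a i - ρ * b i))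
    (hq : ∀ k < 6, |q k| ≤ M) (hR : |R| ≤ M) (hQM : |Q| ≤ M) (hL : |R - q 6| ≤ M * |ρ * z|)
    (hΛ : |Λ| ≤ M * |ρ * z|) (hx : |x| * (1 + |ρ|) ^ 6 ≤ M)
    (hy : |ρ ^ 6 * x - ci| * (1 + |ρ|) ^ 6 ≤ M)
    (hW : ∀ i ≤ 6, |i * a i - ρ * b i| * (1 + |ρ|) ^ 2 ≤ M * (1 + |ρ|) ^ i)
    (hu : (1 + |ρ|) * z ≤ M) :
    |T * Q * x - ∑ i ∈ Finset.range 7, (b i * (T + ρ * Q * x) * z ^ i - a i * (i * (Q * x) * z ^ i))
      - (z ^ 5 * (ci * R) - 5 * (Q * x) * z ^ 5 * Λ)| * (1 + ρ ^ 2) ≤ 55 * M ^ 9 * z ^ 6 := by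
  have e := pest_id (Λ := Λ) hT hQ hrec
  generalize T * Q * x - _ - _ = E at e ⊢
  have hM0 : 0 ≤ M := by linarith
  have h1 := pest_lin hz hM0 hy hL
  have h2 := pest_lin (c := 5 * M * M) (y := 5 * Q * Λ) hz (by positivity) hx (by
    rw [abs_mul, abs_mul, mul_assoc (5 * M), abs_of_pos (show (0 : ℝ) < 5 by norm_num)]
    gcongr)
  have h3 : |∑ i ∈ Finset.range 7, ∑ k ∈ Finset.range 7, if 6 ≤ i + k then
        (if k = 6 then R else q k) * ρ ^ k * x * (i * a i - ρ * b i) * z ^ (i + k + 1) else 0|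
      * (1 + |ρ|) ^ 2 ≤ ∑ i ∈ Finset.range 7, ∑ k ∈ Finset.range 7, M ^ 9 * z ^ 7 := by
    refine (mul_le_mul_of_nonneg_right ((Finset.abs_sum_le_sum_abs _ _).trans
      (Finset.sum_le_sum fun i _ => Finset.abs_sum_le_sum_abs _ _)) (by positivity)).trans ?_
    simp only [Finset.sum_mul]
    refine Finset.sum_le_sum fun i hi => Finset.sum_le_sum fun k hk => ?_
    rw [Finset.mem_range] at hi hk
    by_cases h : 6 ≤ i + k
    · rw [if_pos h]
      refine pest_term hM hz h (by omega) ?_ hx (hW i (by omega)) hu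
      split_ifs with h'
      exacts [hR, hq k (by omega)]
    · rw [if_neg h, abs_zero, zero_mul]
      positivity
  simp only [Finset.sum_const, Finset.card_range, nsmul_eq_mul, Nat.cast_ofNat] at h3
  have h4 := mul_le_mul_of_nonneg_right ((congrArg abs e).trans_le (abs_add_three _ _ _))
    (show 0 ≤ (1 + |ρ|) ^ 2 by positivity)
  have h5 : M * M * z ^ 7 ≤ M ^ 9 * z ^ 7 := by
    rw [← sq]
    gcongr
    norm_num
  have h6 : M ^ 3 * z ^ 7 ≤ M ^ 9 * z ^ 7 := by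
    gcongr
    norm_num
  have h7 : |E * z| * (1 + ρ ^ 2) ≤ |E * z| * (1 + |ρ|) ^ 2 := by
    gcongr
    nlinarith [abs_nonneg ρ, sq_abs ρ]
  refine le_of_mul_le_mul_right ?_ hz
  rw [abs_mul, abs_of_pos hz] at h4 h7
  nlinarith

lemma pest_cmp {f g f' g' : ℝ → ℝ} {a b K : ℝ} (hab : a ≤ b) (hK : 0 ≤ K)
    (hf : ∀ x ∈ Icc a b, HasDerivAt f (f' x) x) (hg : ∀ x ∈ Icc a b, HasDerivAt g (g' x) x)
    (h : ∀ x ∈ Icc a b, |f' x| * (1 + g x ^ 2) ≤ K * g' x) : |f b - f a| ≤ π * K := by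
  have key : ∀ s : ℝ, |s| = 1 → s * f b - s * f a ≤ π * K := fun s hs => by
    have hd := fun x hx => ((hf x hx).const_mul s).fun_sub ((hg x hx).arctan.const_mul K)
    have := sub_le_of_deriv_le (c := 0) finite_empty hab
      (fun x hx => (hd x hx).continuousAt.continuousWithinAt) fun x hx _ =>
        ⟨_, hd x (Ioo_subset_Icc_self hx), by
          have h1 := h x (Ioo_subset_Icc_self hx)
          have h2 : s * f' x ≤ |f' x| := by
            simpa [abs_mul, hs] using le_abs_self (s * f' x)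
          rw [← le_div_iff₀ (by positivity)] at h1
          have h3 : K * g' x / (1 + g x ^ 2) = K * (1 / (1 + g x ^ 2) * g' x) := by ring
          linarith⟩
    have h1 := mul_le_mul_of_nonneg_left (arctan_lt_pi_div_two (g b)).le hK
    have h2 := mul_le_mul_of_nonneg_left (neg_pi_div_two_lt_arctan (g a)).le hK
    linarith
  have h1 := key 1 abs_one
  have h2 := key (-1) (by simp)
  rw [abs_le]
  constructor <;> linarith

lemma pest_pow {T : ℝ → ℝ} {g τ : ℝ} (h : HasDerivAt T (T τ * g) τ) (h0 : T τ ≠ 0) (i : ℕ) :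
    HasDerivAt (fun t => (T t)⁻¹ ^ i) (-(i * g * (T τ)⁻¹ ^ i)) τ := by
  refine ((h.fun_inv h0).fun_pow i).congr_deriv ?_
  rcases i with _ | i
  · simp
  · rw [Nat.add_sub_cancel, pow_succ _ i]
    field_simp

theorem pEstS : PEstStmt := by
  intro χ ci q P p c e C R a b T hχ hP hH
  have hab : a ≤ b := (hH.ha.trans hH.hb).le
  obtain ⟨C1, hC1⟩ := hχ.bd
  obtain ⟨L, hL⟩ := hH.lipR
  obtain ⟨MR, hMR⟩ := isCompact_Icc.exists_bound_of_continuousOn hH.contR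
  obtain ⟨MQ, hMQ⟩ := isCompact_Icc.exists_bound_of_continuousOn
    (f := fun τ => ∑ k ∈ Finset.range 6, q k * τ ^ k + τ ^ 6 * R τ)
    ((Continuous.continuousOn (by fun_prop)).add
      ((Continuous.continuousOn (by fun_prop)).mul hH.contR))
  obtain ⟨M, ⟨⟨m1, m2⟩, m3, m4⟩, ⟨m5, m6⟩, ⟨m7, m8⟩, m9⟩ := ((((eventually_ge_atTop (1 : ℝ)).and
    (eventually_ge_atTop C1)).and ((eventually_ge_atTop L).and (eventually_ge_atTop MR))).and
    (((eventually_ge_atTop MQ).and (eventually_ge_atTop C)).and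
    (((eventually_ge_atTop (1 + (b - a))).and (eventually_ge_atTop (|ci| * MR))).and
    (eventually_ge_atTop (∑ k ∈ Finset.range 6, |q k|))))).exists
  have hRc : Continuous fun x => R (projIcc a b hab x) :=
    hH.contR.comp_continuous (continuous_subtype_val.comp continuous_projIcc)
      fun x => (projIcc a b hab x).2
  set Λ : ℝ → ℝ := fun τ => ci * ∫ x in (0 : ℝ)..τ, R (projIcc a b hab x) with hΛ
  have dΛ : ∀ τ ∈ Icc a b, HasDerivAt Λ (ci * R τ) τ := fun τ hτ => by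
    have := (hRc.integral_hasStrictDerivAt 0 τ).hasDerivAt.const_mul ci
    rwa [projIcc_of_mem hab hτ] at this
  have bΛ : ∀ τ, |Λ τ| ≤ M * |τ| := fun τ => by
    have := intervalIntegral.norm_integral_le_of_norm_le_const (a := 0) (b := τ)
      (f := fun x => R (projIcc a b hab x)) fun x _ => hMR _ (projIcc a b hab x).2
    rw [sub_zero, Real.norm_eq_abs] at this
    rw [hΛ, abs_mul]
    exact (mul_le_mul_of_nonneg_left this (abs_nonneg _)).trans (by rw [← mul_assoc]; gcongr)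
  have hσ : ∀ ρ : ℝ, 1 + |ρ| ≤ (1 + |ρ|) ^ 6 := fun ρ =>
    le_self_pow₀ (by linarith [abs_nonneg ρ]) (by norm_num)
  have hχ1 : ∀ ρ, |χ ρ| * (1 + |ρ|) ≤ M := fun ρ =>
    (mul_le_mul_of_nonneg_left (hσ ρ) (abs_nonneg _)).trans ((hC1 ρ).1.trans m2)
  set Q : ℝ → ℝ := fun τ => ∑ k ∈ Finset.range 6, q k * τ ^ k + τ ^ 6 * R τ with hQ
  have bQ : ∀ τ ∈ Icc a b, |Q τ| ≤ M := fun τ hτ => (hMQ τ hτ).trans m5
  have dT : ∀ n, ∀ τ ∈ Icc a b, HasDerivAt (T n) (T n τ * (Q τ * χ (τ * T n τ))) τ :=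
    fun n τ hτ => (hH.ode n τ hτ).congr_deriv (mul_assoc _ _ _)
  have hg : ∀ τ ∈ Icc a b, ∀ ρ, |Q τ * χ ρ| * (1 + |ρ|) ≤ M * M := fun τ hτ ρ => by
    rw [abs_mul, mul_assoc]
    exact mul_le_mul (bQ τ hτ) (hχ1 ρ) (by positivity) (by linarith)
  set k := Real.exp (-(M * M) * (b - a)) with hk
  have hk0 : 0 < k := Real.exp_pos _
  have hlow : ∀ n, ∀ τ ∈ Icc a b, k * T n a ≤ T n τ := fun n τ hτ => by
    have hs : Icc a τ ⊆ Icc a b := Icc_subset_Icc_right hτ.2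
    have hd := fun x hx => (dT n x (hs hx)).log (hH.pos n x (hs hx)).ne'
    have := le_sub_of_le_deriv (c := -(M * M)) finite_empty hτ.1
      (fun x hx => (hd x hx).continuousAt.continuousWithinAt) fun x hx _ =>
        ⟨_, hd x (Ioo_subset_Icc_self hx), by
          have hx' := hs (Ioo_subset_Icc_self hx)
          rw [mul_div_cancel_left₀ _ (hH.pos n x hx').ne']
          have h1 := hg x hx' (x * T n x)
          have h2 := neg_abs_le (Q x * χ (x * T n x))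
          nlinarith [abs_nonneg (Q x * χ (x * T n x)), abs_nonneg (x * T n x)]⟩
    have ha := hH.pos n a (left_mem_Icc.2 hab)
    rw [← Real.log_le_log_iff (mul_pos hk0 ha) (hH.pos n τ hτ), Real.log_mul hk0.ne' ha.ne', hk,
      Real.log_exp]
    nlinarith [mul_nonneg (mul_self_nonneg M) (sub_nonneg.2 hτ.2)]
  refine ⟨Λ a, Λ b, k, hk0, fun n => hlow n b (right_mem_Icc.2 hab),
    IsBigO.of_bound (π * (110 * M ^ 9 * k⁻¹ ^ 7)) ?_⟩
  filter_upwards [(hH.lim.const_mul_atTop hk0).eventually_ge_atTop (2 * (M * M))] with n hn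
  have ha := hH.pos n a (left_mem_Icc.2 hab)
  rw [Real.norm_eq_abs, Real.norm_of_nonneg (by positivity), mul_assoc]
  have dρ : ∀ τ ∈ Icc a b, HasDerivAt (fun τ => τ * T n τ)
      (T n τ + τ * T n τ * Q τ * χ (τ * T n τ)) τ := fun τ hτ =>
    ((hasDerivAt_id' τ).fun_mul (dT n τ hτ)).congr_deriv (by ring)
  refine pest_cmp (f := fun τ => PInt P τ (T n τ) (Λ τ)) hab (by positivity) (f' := fun τ =>
    T n τ * Q τ * χ (τ * T n τ) - ∑ i ∈ Finset.range 7,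
      (p i (τ * T n τ) * (T n τ + τ * T n τ * Q τ * χ (τ * T n τ)) * (T n τ)⁻¹ ^ i
        - P i (τ * T n τ) * (i * (Q τ * χ (τ * T n τ)) * (T n τ)⁻¹ ^ i))
      - ((T n τ)⁻¹ ^ 5 * (ci * R τ) - 5 * (Q τ * χ (τ * T n τ)) * (T n τ)⁻¹ ^ 5 * Λ τ))
    (fun τ hτ => ?_) dρ fun τ hτ => ?_
  · have h0 := (hH.pos n τ hτ).ne'
    refine ((hH.ode n τ hτ).fun_sub (HasDerivAt.fun_sum fun i hi => ?_)).fun_sub ?_
    · exact (((hP.der i (Nat.lt_succ_iff.1 (Finset.mem_range.1 hi)) _).comp τ (dρ τ hτ)).fun_mul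
        (pest_pow (dT n τ hτ) h0 i)).congr_deriv (by simp only [Function.comp]; ring)
    · exact ((pest_pow (dT n τ hτ) h0 5).fun_mul (dΛ τ hτ)).congr_deriv (by push_cast; ring)
  · have h0 := hH.pos n τ hτ
    have h1 := hn.trans (hlow n τ hτ)
    have e1 : τ * T n τ * (T n τ)⁻¹ = τ := mul_inv_cancel_right₀ h0.ne' τ
    have hz : (T n τ)⁻¹ ≤ 1 := inv_le_one_of_one_le₀ (by nlinarith)
    have hz' : (T n τ)⁻¹ ≤ k⁻¹ * (T n a)⁻¹ := by
      rw [← mul_inv]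
      exact inv_anti₀ (mul_pos hk0 ha) (hlow n τ hτ)
    refine (pest_pt (q := q) (a := fun i => P i (τ * T n τ)) (b := fun i => p i (τ * T n τ)) m1
      (inv_pos.2 h0) (mul_inv_cancel₀ h0.ne') (by rw [e1]) (fun i hi => hP.recur i hi _)
      (fun j hj => (Finset.single_le_sum (f := fun j => |q j|) (fun _ _ => abs_nonneg _)
        (Finset.mem_range.2 hj)).trans m9) ((hMR τ hτ).trans m4) (bQ τ hτ)
      (by rw [e1]; exact (hL τ hτ).trans (by gcongr)) (by rw [e1]; exact bΛ τ)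
      ((hC1 _).1.trans m2) ((hC1 _).2.trans m2)
      (fun i hi => (hP.wbd i hi _).trans (by gcongr)) ?_).trans ?_
    · rw [add_mul, one_mul, ← abs_of_pos (inv_pos.2 h0), ← abs_mul, e1, abs_of_pos (inv_pos.2 h0)]
      have : |τ| ≤ b - a := abs_le.2 ⟨by linarith [hτ.1, hH.hb], by linarith [hτ.2, hH.ha]⟩
      linarith
    · have h2 := hg τ hτ (τ * T n τ)
      have h3 := neg_abs_le (τ * T n τ * (Q τ * χ (τ * T n τ)))
      rw [abs_mul] at h3
      have h4 : T n τ / 2 ≤ T n τ + τ * T n τ * Q τ * χ (τ * T n τ) := by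
        nlinarith [abs_nonneg (Q τ * χ (τ * T n τ))]
      calc _ = 110 * M ^ 9 * (T n τ)⁻¹ ^ 7 * (T n τ / 2) := by field_simp; norm_num
        _ ≤ 110 * M ^ 9 * (k⁻¹ * (T n a)⁻¹) ^ 7 * (T n τ + τ * T n τ * Q τ * χ (τ * T n τ)) := by
          gcongr
        _ = _ := by ring

end Pool.Agent.MP_c2f0e4_an

end

section

open Set Filter Topology Real Asymptotics

namespace Pool.Agent.MP_c2f0e4_an

lemma coref_mvt {f : ℝ → ℝ} {S : Set ℝ} (hS : S.Finite) {c a b : ℝ} (hab : a ≤ b)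
    (hf : ContinuousOn f (Icc a b))
    (hd : ∀ x ∈ Ioo a b, x ∉ S → ∃ f', HasDerivAt f f' x ∧ |f'| ≤ c) :
    |f b - f a| ≤ c * (b - a) := by
  have h1 := sub_le_of_deriv_le (c := c) hS hab hf fun x hx hxS => by
    obtain ⟨f', h1, h2⟩ := hd x hx hxS
    exact ⟨f', h1, (abs_le.1 h2).2⟩
  have h2 := le_sub_of_le_deriv (c := -c) hS hab hf fun x hx hxS => by
    obtain ⟨f', h1, h2⟩ := hd x hx hxS
    exact ⟨f', h1, (abs_le.1 h2).1⟩
  rw [abs_le]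
  constructor <;> linarith

lemma coref_le_exp {x y k : ℝ} (hx : 0 < x) (hy : 0 < y) (h : log x ≤ log y + k) :
    x ≤ exp k * y := by
  have := exp_le_exp.2 h
  rwa [exp_log hx, exp_add, exp_log hy, mul_comm] at this

lemma coref_size (p k : ℝ) (hp : 0 < p) (hk : 0 ≤ k) : ∃ C : ℝ, 0 < C ∧ ∀ s s0 ξ : ℝ, 0 < s →
    0 < s0 → |log s + p * log (ξ ^ 2 + s ^ 2) - (1 + 2 * p) * log s0| ≤ k →
    s ≤ C * s0 ∧ (|ξ| ≤ s0 → s0 ≤ C * s) ∧ s * |ξ| ^ (2 * p) ≤ C * s0 ^ (1 + 2 * p) ∧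
      (s0 ≤ |ξ| → s0 ^ (1 + 2 * p) ≤ C * (s * |ξ| ^ (2 * p))) := by
  set E := exp k with hE
  have hE0 : 0 < E := exp_pos k
  have hL : 0 ≤ log (1 + E ^ 2) := log_nonneg (by nlinarith)
  set L := log (1 + E ^ 2) with hLdef
  have hpL : 0 ≤ p * L := mul_nonneg hp.le hL
  refine ⟨exp (k + p * L), exp_pos _, fun s s0 ξ hs hs0 h => ?_⟩
  obtain ⟨h1, h2⟩ := abs_le.1 h
  have hQ : 0 < ξ ^ 2 + s ^ 2 := by positivity
  have hq1 : 2 * log s ≤ log (ξ ^ 2 + s ^ 2) := by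
    have := log_le_log (pow_pos hs 2) (show s ^ 2 ≤ ξ ^ 2 + s ^ 2 by nlinarith)
    rwa [log_pow, Nat.cast_ofNat] at this
  have ha : log s ≤ log s0 + k := by
    have h3 : p * (2 * log s) ≤ p * log (ξ ^ 2 + s ^ 2) := mul_le_mul_of_nonneg_left hq1 hp.le
    by_contra hc
    push Not at hc
    have h4 : 0 < log s - log s0 - k := by linarith
    nlinarith [mul_pos hp h4, mul_nonneg hp.le hk]
  have hsE : s ≤ E * s0 := coref_le_exp hs hs0 ha
  -- upper bound for the quadratic form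
  have hup : ∀ t : ℝ, 0 < t → |ξ| ≤ t → s0 ≤ t → log (ξ ^ 2 + s ^ 2) ≤ L + 2 * log t := by
    intro t ht h3 h4
    have h5 : ξ ^ 2 ≤ t ^ 2 := by rw [← sq_abs]; exact pow_le_pow_left₀ (abs_nonneg _) h3 2
    have h6 : s ^ 2 ≤ (E * t) ^ 2 :=
      pow_le_pow_left₀ hs.le (hsE.trans (mul_le_mul_of_nonneg_left h4 hE0.le)) 2
    have h7 := log_le_log hQ (show ξ ^ 2 + s ^ 2 ≤ (1 + E ^ 2) * t ^ 2 by nlinarith)
    rwa [log_mul (by positivity) (by positivity), log_pow, Nat.cast_ofNat] at h7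
  refine ⟨coref_le_exp hs hs0 (by linarith), fun h3 => coref_le_exp hs0 hs ?_, ?_, fun h3 => ?_⟩
  · have := mul_le_mul_of_nonneg_left (hup s0 hs0 h3 le_rfl) hp.le
    linarith
  · rcases eq_or_ne ξ 0 with h0 | h0
    · rw [h0, abs_zero, zero_rpow (by positivity), mul_zero]
      positivity
    · have hx : 0 < |ξ| := abs_pos.2 h0
      refine coref_le_exp (by positivity) (by positivity) ?_
      rw [log_mul hs.ne' (by positivity), log_rpow hx, log_rpow hs0]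
      have h4 : 2 * log |ξ| ≤ log (ξ ^ 2 + s ^ 2) := by
        have := log_le_log (pow_pos hx 2) (show |ξ| ^ 2 ≤ ξ ^ 2 + s ^ 2 by rw [sq_abs]; nlinarith)
        rwa [log_pow, Nat.cast_ofNat] at this
      have := mul_le_mul_of_nonneg_left h4 hp.le
      linarith
  · have hx : 0 < |ξ| := hs0.trans_le h3
    refine coref_le_exp (by positivity) (by positivity) ?_
    rw [log_mul hs.ne' (by positivity), log_rpow hx, log_rpow hs0]
    have := mul_le_mul_of_nonneg_left (hup |ξ| hx le_rfl h3) hp.le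
    linarith

lemma coref_theta (m0 : ℝ) : ∃ k : ℝ, ∀ w, |Theta m0 w| ≤ k := by
  refine ⟨|2 / √((3 - m0) * (1 + m0))| * (π / 2), fun w => ?_⟩
  unfold Theta
  rw [abs_mul]
  refine mul_le_mul_of_nonneg_left ?_ (abs_nonneg _)
  exact abs_le.2 ⟨(neg_pi_div_two_lt_arctan _).le, (arctan_lt_pi_div_two _).le⟩

/-- two bounds for the derivative of the corrected first integral -/
lemma coref_bd {μ M ν c D u ξ : ℝ} (hμ : |μ| ≤ M) (hν : 1 ≤ ν) (hc : 0 < c) (hu : u < ξ)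
    (hD : c * (ξ ^ 2 + (ξ - u) ^ 2) ≤ D) :
    |-μ * (ξ - u) * (2 * u + ξ) / (ν * D)| ≤ 4 * M / c ∧
      ∀ η ε : ℝ, 0 < η → η ≤ |ξ| → ξ - u ≤ ε →
        |-μ * (ξ - u) * (2 * u + ξ) / (ν * D)| ≤ 4 * M / c * (ε / η) := by
  have hs : 0 < ξ - u := sub_pos.2 hu
  have hM : 0 ≤ M := (abs_nonneg _).trans hμ
  set s := ξ - u with hsdef
  have hQ : 0 < ξ ^ 2 + s ^ 2 := by positivity
  have hD0 : 0 < D := (mul_pos hc hQ).trans_le hD
  have h1 : |2 * u + ξ| ≤ 3 * |ξ| + 2 * s := by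
    rw [show 2 * u + ξ = 3 * ξ - 2 * s by rw [hsdef]; ring, abs_le]
    constructor <;> linarith [le_abs_self ξ, neg_abs_le ξ]
  have h2 : |-μ * s * (2 * u + ξ) / (ν * D)|
      ≤ M / c * (s * (3 * |ξ| + 2 * s) / (ξ ^ 2 + s ^ 2)) := by
    rw [abs_div, abs_mul, abs_mul, abs_neg, abs_of_pos hs, abs_of_pos (by positivity : 0 < ν * D),
      div_mul_div_comm]
    refine div_le_div₀ (by positivity) ?_ (by positivity) (hD.trans (by nlinarith))
    rw [mul_assoc]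
    exact mul_le_mul hμ (mul_le_mul_of_nonneg_left h1 hs.le) (by positivity) hM
  have hx := abs_nonneg ξ
  have hsq := sq_abs ξ
  have hMc : 0 ≤ M / c := by positivity
  refine ⟨h2.trans ?_, fun η ε hη h3 h4 => h2.trans ?_⟩
  · rw [show 4 * M / c = M / c * 4 by ring]
    refine mul_le_mul_of_nonneg_left ?_ hMc
    rw [div_le_iff₀ hQ]
    nlinarith [sq_nonneg (|ξ| - s)]
  · rw [show 4 * M / c * (ε / η) = M / c * (4 * ε / η) by ring]
    refine mul_le_mul_of_nonneg_left ?_ hMc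
    rw [div_le_div_iff₀ hQ hη]
    have h5 : (3 * |ξ| + 2 * s) * η ≤ 4 * (ξ ^ 2 + s ^ 2) := by
      have := mul_le_mul_of_nonneg_left h3 (by positivity : 0 ≤ 3 * |ξ| + 2 * s)
      nlinarith [sq_nonneg (|ξ| - s)]
    calc s * (3 * |ξ| + 2 * s) * η = s * ((3 * |ξ| + 2 * s) * η) := by ring
      _ ≤ ε * (4 * (ξ ^ 2 + s ^ 2)) := mul_le_mul h4 h5 (by positivity) (hs.le.trans h4)
      _ = 4 * ε * (ξ ^ 2 + s ^ 2) := by ring

/-- the choice of the interval and of a primitive of `mu` -/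
lemma coref_setup {m mu : ℝ → ℝ} {m0 d0 : ℝ} (hd0 : 0 < d0) (h1 : -1 < m0)
    (hmu : AnalyticAt ℝ mu 0) (hm : ∀ ξ, m ξ = m0 + ξ * mu ξ) :
    ∃ (d1 M : ℝ) (Mu : ℝ → ℝ), 0 < d1 ∧ d1 ≤ d0 ∧ ∀ ξ ∈ Icc (-d1) d1,
      0 < 1 + m ξ ∧ |mu ξ| ≤ M ∧ HasDerivAt Mu (mu ξ) ξ := by
  have hc : ContinuousAt mu 0 := hmu.continuousAt
  have e1 : ∀ᶠ ξ in 𝓝 (0 : ℝ), ContinuousAt mu ξ :=
    hmu.eventually_analyticAt.mono fun ξ h => h.continuousAt
  have e2 : ∀ᶠ ξ in 𝓝 (0 : ℝ), 0 < 1 + m ξ := by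
    have : ContinuousAt (fun ξ : ℝ => 1 + (m0 + ξ * mu ξ)) 0 := by fun_prop
    have := this.eventually (lt_mem_nhds (show 0 < 1 + (m0 + 0 * mu 0) by linarith))
    simpa only [hm] using this
  have e3 : ∀ᶠ ξ in 𝓝 (0 : ℝ), |mu ξ| ≤ |mu 0| + 1 :=
    hc.abs.eventually (ge_mem_nhds (lt_add_one _))
  obtain ⟨r, hr, h⟩ := Metric.eventually_nhds_iff_ball.1 (e1.and (e2.and e3))
  have hco : ContinuousOn mu (Metric.ball 0 r) := fun ξ hξ => (h ξ hξ).1.continuousWithinAt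
  refine ⟨min d0 (r / 2), |mu 0| + 1, fun ξ => ∫ t in (0 : ℝ)..ξ, mu t, by positivity,
    min_le_left _ _, fun ξ hξ => ?_⟩
  have hb : ξ ∈ Metric.ball (0 : ℝ) r := by
    rw [mem_ball_zero_iff, Real.norm_eq_abs, abs_lt]
    constructor <;> linarith [hξ.1, hξ.2, min_le_right d0 (r / 2)]
  refine ⟨(h ξ hb).2.1, (h ξ hb).2.2, intervalIntegral.integral_hasDerivAt_right ?_ ?_ (h ξ hb).1⟩
  · refine (hco.mono ?_).intervalIntegrable
    exact (convex_ball (0 : ℝ) r).ordConnected.uIcc_subset (Metric.mem_ball_self hr) hb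
  · exact hco.stronglyMeasurableAtFilter Metric.isOpen_ball ξ hb

theorem coreS (hLLder : LLderStmt) (hLLbd : LLbdStmt) : CoreStmt := by
  intro m mu m0 d0 u hmod htr h1 h3 hmu hm
  obtain ⟨d1, M, Mu, hd1, hd10, hset⟩ := coref_setup hmod.dpos h1 hmu hm
  obtain ⟨⟨c, C, hc, hDh⟩, hLc, hLd⟩ := hLLder m0 h1 h3
  refine ⟨d1, hd1, hd10, fun d hd => ?_⟩
  have hν : 1 ≤ 3 + 2 * m0 := by linarith
  have hs1 : Icc (-d) d ⊆ Icc (-d1) d1 := Icc_subset_Icc (by linarith [hd.2]) hd.2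
  have hs0 : Icc (-d) d ⊆ Icc (-d0) d0 := Icc_subset_Icc (by linarith [hd.2]) (hd.2.trans hd10)
  have hz : (0 : ℝ) ∈ Icc (-d) d := ⟨by linarith [hd.1], hd.1.le⟩
  have hM : 0 ≤ M := (abs_nonneg _).trans (hset 0 (hs1 hz)).2.1
  set K : ℕ → ℝ → ℝ := fun n ξ => LL m0 (u n ξ) ξ + 2 / (3 + 2 * m0) * Mu ξ with hK
  have hlt : ∀ n, ∀ ξ ∈ Icc (-d) d, u n ξ < ξ := fun n ξ hξ => hmod.lt n ξ (hs0 hξ)
  have hMuc : ContinuousOn Mu (Icc (-d) d) := fun ξ hξ =>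
    (hset ξ (hs1 hξ)).2.2.continuousAt.continuousWithinAt
  have hcont : ∀ n, ContinuousOn (K n) (Icc (-d) d) := fun n => by
    have hu : ContinuousOn (u n) (Icc (-d) d) := fun ξ hξ =>
      (continuousAt_of_cube (hmod.ode n ξ (hs0 hξ)).continuousAt).continuousWithinAt
    have h4 := hLc.comp (f := fun ξ : ℝ => (u n ξ, ξ)) (hu.prodMk continuousOn_id)
      fun ξ hξ => hlt n ξ hξ
    exact h4.add (hMuc.const_mul _)
  have hDpos : ∀ n, ∀ ξ ∈ Icc (-d) d, 0 < Dh m0 (u n ξ) ξ := fun n ξ hξ => by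
    have := sub_pos.2 (hlt n ξ hξ)
    exact lt_of_lt_of_le (by positivity) (hDh (u n ξ) ξ).1
  have hder : ∀ n, ∀ ξ ∈ Ioo (-d) d, u n ξ ≠ 0 → HasDerivAt (K n)
      (-mu ξ * (ξ - u n ξ) * (2 * u n ξ + ξ) / ((3 + 2 * m0) * Dh m0 (u n ξ) ξ)) ξ := by
    intro n ξ hξ hu
    have hξ' := Ioo_subset_Icc_self hξ
    have h4 := hLd (u n) _ ξ (m ξ) (hasDerivAt_of_cube (hmod.ode n ξ (hs0 hξ')) hu) (hlt n ξ hξ')
      hu (by field_simp)
    have h5 := h4.add ((hset ξ (hs1 hξ')).2.2.const_mul (2 / (3 + 2 * m0)))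
    refine HasDerivAt.congr_deriv (f' := _) h5 ?_
    have h6 := (hDpos n ξ hξ').ne'
    have h7 : 3 + 2 * m0 ≠ 0 := by linarith
    have h8 : Dh m0 (u n ξ) ξ = u n ξ ^ 2 + (1 + m0) * ξ * (u n ξ + ξ) := rfl
    rw [hm ξ, div_mul_eq_mul_div, div_add_div _ _ h6 h7,
      div_eq_div_iff (mul_ne_zero h6 h7) (mul_ne_zero h7 h6), h8]
    ring
  have hfin : ∀ n, {ξ ∈ Icc (-d) d | u n ξ = 0}.Finite := fun n => by
    have key : ∀ x ∈ Icc (-d) d, ∀ y ∈ Icc (-d) d, u n x = 0 → u n y = 0 → ¬ x < y := by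
      intro x hx y hy h4 h5 hxy
      have hsub : Icc x y ⊆ Icc (-d) d := Icc_subset_Icc hx.1 hy.2
      have := pos_of_deriv_pos_at_zeros (f := fun t => u n t ^ 3) (a := x) (b := y)
        (fun t ht => (hmod.ode n t (hs0 (hsub ht))).continuousAt.continuousWithinAt)
        (by simp [h4]) (fun t ht h0 => by
          have h6 : u n t = 0 := pow_eq_zero_iff (by norm_num) |>.1 h0
          refine ⟨_, hmod.ode n t (hs0 (hsub ht)), ?_⟩
          have h7 := hlt n t (hsub ht)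
          rw [h6] at h7 ⊢
          have h8 := (hset t (hs1 (hsub ht))).1
          have : 0 < (1 + m t) * t ^ 2 := by positivity
          linarith) y ⟨hxy, le_rfl⟩
      simp [h5] at this
    refine Set.Subsingleton.finite fun x hx y hy => ?_
    exact le_antisymm (not_lt.1 (key y hy.1 x hx.1 hy.2 hx.2))
      (not_lt.1 (key x hx.1 y hy.1 hx.2 hy.2))
  -- variation of `K` over a subinterval
  have hvar : ∀ n, ∀ a b k : ℝ, a ≤ b → Icc a b ⊆ Icc (-d) d → (∀ ξ ∈ Ioo a b,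
      |-mu ξ * (ξ - u n ξ) * (2 * u n ξ + ξ) / ((3 + 2 * m0) * Dh m0 (u n ξ) ξ)| ≤ k) →
      |K n b - K n a| ≤ k * (b - a) := by
    intro n a b k hab hsub hk
    refine coref_mvt (hfin n) hab ((hcont n).mono hsub) fun x hx hxS => ⟨_, hder n x ?_ ?_, hk x hx⟩
    · exact ⟨(hsub (left_mem_Icc.2 hab)).1.trans_lt hx.1, hx.2.trans_le (hsub (right_mem_Icc.2 hab)).2⟩
    · exact fun h0 => hxS ⟨hsub (Ioo_subset_Icc_self hx), h0⟩
  have hbd := fun n ξ (hξ : ξ ∈ Icc (-d) d) =>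
    coref_bd (hset ξ (hs1 hξ)).2.1 hν hc (hlt n ξ hξ) (hDh (u n ξ) ξ).1
  set C1 := 4 * M / c with hC1
  have hC10 : 0 ≤ C1 := by positivity
  have hvar1 : ∀ n, ∀ a b : ℝ, a ≤ b → Icc a b ⊆ Icc (-d) d → |K n b - K n a| ≤ C1 * (b - a) :=
    fun n a b hab hsub =>
      hvar n a b C1 hab hsub fun ξ hξ => (hbd n ξ (hsub (Ioo_subset_Icc_self hξ))).1
  refine ⟨K, hcont, hder, hfin, ?_, ?_⟩
  · obtain ⟨kT, hT⟩ := coref_theta m0
    obtain ⟨kM, hkM⟩ := isCompact_Icc.exists_bound_of_continuousOn hMuc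
    have hp : 0 < 1 + m0 := by linarith
    have hcC : 0 < C := by
      have h4 := hDh 0 1
      norm_num at h4
      linarith [h4.1, h4.2]
    have hkT : 0 ≤ kT := (abs_nonneg _).trans (hT 0)
    have hkM0 : 0 ≤ kM := (norm_nonneg _).trans (hkM 0 hz)
    obtain ⟨C2, hC2, hsz⟩ := coref_size (1 + m0) ((3 + 2 * m0) * (C1 * d) + 4 * kM
      + (1 + m0) * |m0| * (2 * kT) + (1 + m0) * (|log c| + |log C|)) hp
      (by have := hd.1; positivity)
    refine ⟨C2, hC2, fun n ξ hξ => ?_⟩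
    have hs : 0 < ξ - u n ξ := sub_pos.2 (hlt n ξ hξ)
    have hs' : 0 < -u n 0 := neg_pos.2 (hlt n 0 hz)
    have h4 := hsz (ξ - u n ξ) (-u n 0) ξ hs hs' ?_
    · rwa [show 2 * (1 + m0) = 2 + 2 * m0 by ring, show 1 + (2 + 2 * m0) = 3 + 2 * m0 by ring] at h4
    have hK1 : |K n ξ - K n 0| ≤ C1 * d := by
      rcases le_total 0 ξ with h5 | h5
      · refine (hvar1 n 0 ξ h5 (Icc_subset_Icc hz.1 hξ.2)).trans ?_
        exact mul_le_mul_of_nonneg_left (by linarith [hξ.2]) hC10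
      · rw [abs_sub_comm]
        refine (hvar1 n ξ 0 h5 (Icc_subset_Icc hξ.1 hz.2)).trans ?_
        exact mul_le_mul_of_nonneg_left (by linarith [hξ.1]) hC10
    have hK2 : |(3 + 2 * m0) * (K n ξ - K n 0)| ≤ (3 + 2 * m0) * (C1 * d) := by
      rw [abs_mul, abs_of_pos (by linarith : 0 < 3 + 2 * m0)]
      exact mul_le_mul_of_nonneg_left hK1 (by linarith)
    have hQ : 0 < ξ ^ 2 + (ξ - u n ξ) ^ 2 := by positivity
    have hl : |log (Dh m0 (u n ξ) ξ) - log (ξ ^ 2 + (ξ - u n ξ) ^ 2)| ≤ |log c| + |log C| := by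
      have h5 := log_le_log (by positivity) (hDh (u n ξ) ξ).1
      have h6 := log_le_log (hDpos n ξ hξ) (hDh (u n ξ) ξ).2
      rw [log_mul hc.ne' hQ.ne'] at h5
      rw [log_mul hcC.ne' hQ.ne'] at h6
      rw [abs_le]
      constructor <;> linarith [neg_abs_le (log c), le_abs_self (log C), abs_nonneg (log c),
        abs_nonneg (log C)]
    have hl2 : |(1 + m0) * (log (Dh m0 (u n ξ) ξ) - log (ξ ^ 2 + (ξ - u n ξ) ^ 2))|
        ≤ (1 + m0) * (|log c| + |log C|) := by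
      rw [abs_mul, abs_of_pos hp]
      exact mul_le_mul_of_nonneg_left hl hp.le
    have hT2 : |(1 + m0) * m0 * (Theta m0 (ξ / (ξ - u n ξ)) - Theta m0 (0 / (0 - u n 0)))|
        ≤ (1 + m0) * |m0| * (2 * kT) := by
      rw [abs_mul, abs_mul, abs_of_pos hp]
      refine mul_le_mul_of_nonneg_left ?_ (by positivity)
      refine (abs_sub _ _).trans ?_
      linarith [hT (ξ / (ξ - u n ξ)), hT (0 / (0 - u n 0))]
    have hM1 := abs_le.1 (show |Mu ξ| ≤ kM from hkM ξ hξ)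
    have hM2 := abs_le.1 (show |Mu 0| ≤ kM from hkM 0 hz)
    have hD0 : log (Dh m0 (u n 0) 0) = 2 * log (-u n 0) := by
      rw [show Dh m0 (u n 0) 0 = (-u n 0) ^ 2 by unfold Dh; ring, log_pow, Nat.cast_ofNat]
    have hid : log (ξ - u n ξ) + (1 + m0) * log (ξ ^ 2 + (ξ - u n ξ) ^ 2)
        - (1 + 2 * (1 + m0)) * log (-u n 0)
        = (3 + 2 * m0) * (K n ξ - K n 0) - 2 * (Mu ξ - Mu 0)
          + (1 + m0) * m0 * (Theta m0 (ξ / (ξ - u n ξ)) - Theta m0 (0 / (0 - u n 0)))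
          - (1 + m0) * (log (Dh m0 (u n ξ) ξ) - log (ξ ^ 2 + (ξ - u n ξ) ^ 2)) := by
      have h7 : 3 + 2 * m0 ≠ 0 := by linarith
      have h8 : (3 + 2 * m0) * (3 + 2 * m0)⁻¹ = 1 := mul_inv_cancel₀ h7
      simp only [hK, LL, hD0, zero_sub, div_eq_mul_inv _ (3 + 2 * m0)]
      linear_combination (-(log (ξ - u n ξ) + (1 + m0) * log (Dh m0 (u n ξ) ξ)
        - (1 + m0) * m0 * Theta m0 (ξ / (ξ - u n ξ)) + 2 * Mu ξ
        - (log (-u n 0) + (1 + m0) * (2 * log (-u n 0))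
        - (1 + m0) * m0 * Theta m0 (0 / -u n 0) + 2 * Mu 0))) * h8
    rw [hid, abs_le]
    have h8 := abs_le.1 hK2
    have h9 := abs_le.1 hl2
    have h10 := abs_le.1 hT2
    constructor <;> linarith [h8.1, h8.2, h9.1, h9.2, h10.1, h10.2, hM1.1, hM1.2, hM2.1, hM2.2]
  · obtain ⟨Φ, hΦ, hΦ0, hΦ', hev⟩ := htr d ⟨hd.1, hd.2.trans hd10⟩
    obtain ⟨c0, c1, C3, hb⟩ := hLLbd m0 d Φ h1 h3 hd.1 hΦ hΦ0 hΦ'
    have hl : -d ∈ Icc (-d) d := left_mem_Icc.2 (by linarith [hd.1])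
    have hs : Tendsto (fun n => -d - u n (-d)) atTop (𝓝 0) := by
      have := (hmod.unif.tendsto_at (hs0 hl)).const_sub (-d)
      rwa [sub_self] at this
    have hs' : Tendsto (fun n => -d - u n (-d)) atTop (𝓝[>] 0) :=
      tendsto_nhdsWithin_iff.2 ⟨hs, Eventually.of_forall fun n => sub_pos.2 (hlt n _ hl)⟩
    set c0' := c0 + 2 / (3 + 2 * m0) * (Mu d - Mu (-d)) with hc0'
    have hev2 : ∀ᶠ n in atTop, |K n d - K n (-d) - c0' - c1 * (-d - u n (-d))|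
        ≤ C3 * (-d - u n (-d)) ^ 2 := by
      filter_upwards [hev, hs'.eventually hb] with n h4 h5
      rw [← h4, sub_sub_cancel, sub_sub_cancel] at h5
      refine le_of_eq_of_le ?_ h5
      congr 1
      simp only [hK, hc0']
      ring
    have hc0 : ∀ η ∈ Ioc 0 d, |c0'| ≤ (2 * C1 + 2 * d * C1) * η := by
      intro η hη
      have ht : Tendsto (fun n => (2 * C1 + 2 * d * C1) * η + (|c1 * (-d - u n (-d))|
          + C3 * (-d - u n (-d)) ^ 2)) atTop (𝓝 ((2 * C1 + 2 * d * C1) * η + (|c1 * 0|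
          + C3 * 0 ^ 2))) :=
        ((hs.const_mul c1).abs.add ((hs.pow 2).const_mul C3)).const_add _
      simp only [mul_zero, abs_zero, ne_eq, OfNat.ofNat_ne_zero, not_false_eq_true, zero_pow,
        add_zero] at ht
      refine ge_of_tendsto ht ?_
      have hη0 := hη.1
      filter_upwards [hev2, Metric.tendstoUniformlyOn_iff.1 hmod.unif (η ^ 2) (by positivity)]
        with n h4 h5
      have h6 : ∀ ξ ∈ Icc (-d) d, η ≤ |ξ| → |-mu ξ * (ξ - u n ξ) * (2 * u n ξ + ξ)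
          / ((3 + 2 * m0) * Dh m0 (u n ξ) ξ)| ≤ C1 * η := fun ξ hξ h7 => by
        have h8 := (hbd n ξ hξ).2 η (η ^ 2) hη0 h7
          ((le_abs_self _).trans (by simpa only [Real.dist_eq] using (h5 ξ (hs0 hξ)).le))
        rwa [show η ^ 2 / η = η by field_simp] at h8
      have a1 : Icc (-d) (-η) ⊆ Icc (-d) d := Icc_subset_Icc le_rfl (by linarith [hd.1])
      have a2 : Icc η d ⊆ Icc (-d) d := Icc_subset_Icc (by linarith [hd.1]) le_rfl
      have b1 := abs_le.1 (hvar n (-d) (-η) _ (by linarith [hη.2]) a1 fun ξ hξ =>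
        h6 ξ (a1 (Ioo_subset_Icc_self hξ)) (by linarith [hξ.2, neg_le_abs ξ]))
      have b2 := abs_le.1 (hvar n η d _ hη.2 a2 fun ξ hξ =>
        h6 ξ (a2 (Ioo_subset_Icc_self hξ)) (by linarith [hξ.1, le_abs_self ξ]))
      have b3 := abs_le.1 (hvar1 n (-η) η (by linarith)
        (Icc_subset_Icc (by linarith [hη.2]) hη.2))
      have b4 := abs_le.1 h4
      have b5 : 0 ≤ C1 * η * η := by positivity
      rw [abs_le]
      constructor <;> nlinarith [b1.1, b1.2, b2.1, b2.2, b3.1, b3.2, b4.1, b4.2,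
        le_abs_self (c1 * (-d - u n (-d))), neg_abs_le (c1 * (-d - u n (-d)))]
    have hc00 : c0' = 0 := by
      have ht : Tendsto (fun η : ℝ => (2 * C1 + 2 * d * C1) * η) (𝓝[>] 0) (𝓝 0) := by
        have : Tendsto (fun η : ℝ => (2 * C1 + 2 * d * C1) * η) (𝓝 0)
            (𝓝 ((2 * C1 + 2 * d * C1) * 0)) := tendsto_id.const_mul _
        rw [mul_zero] at this
        exact this.mono_left nhdsWithin_le_nhds
      have := ge_of_tendsto ht (mem_of_superset (Ioc_mem_nhdsGT hd.1) hc0)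
      exact abs_nonpos_iff.1 this
    refine ⟨c1, C3, ?_⟩
    simpa only [hc00, sub_zero] using hev2

end Pool.Agent.MP_c2f0e4_an

end

section

open Set Filter Topology Real Asymptotics

namespace Pool.Agent.MP_c2f0e4_an

lemma j2b_form (g a u ξ : ℝ) :
    -g * (-(ξ * a) * (ξ - u) * (2 * u + ξ) / ((3 + 2 * (-1 / 2 : ℝ)) * Dh (-1 / 2) u ξ)) =
      g * a * (ξ - u) * ((3 * ξ ^ 2 - 2 * ξ * (ξ - u)) /
        (4 * ξ ^ 2 - 5 * ξ * (ξ - u) + 2 * (ξ - u) ^ 2)) := by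
  have : (3 + 2 * (-1 / 2 : ℝ)) * Dh (-1 / 2) u ξ =
      4 * ξ ^ 2 - 5 * ξ * (ξ - u) + 2 * (ξ - u) ^ 2 := by unfold Dh; ring
  rw [this]; ring

lemma j2b_den {ξ s : ℝ} (hs : 0 < s) : 0 < 4 * ξ ^ 2 - 5 * ξ * s + 2 * s ^ 2 := by
  nlinarith [sq_nonneg (8 * ξ - 5 * s), mul_pos hs hs]

lemma j2b_low {ξ s : ℝ} (hs : 0 < s) :
    -7 ≤ (3 * ξ ^ 2 - 2 * ξ * s) / (4 * ξ ^ 2 - 5 * ξ * s + 2 * s ^ 2) := by
  rw [le_div_iff₀ (j2b_den hs)]
  nlinarith [sq_nonneg (62 * ξ - 37 * s), mul_pos hs hs]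

lemma j2b_big {ξ s : ℝ} (hs : 0 < s) (h : s ≤ |ξ|) :
    1 / 11 ≤ (3 * ξ ^ 2 - 2 * ξ * s) / (4 * ξ ^ 2 - 5 * ξ * s + 2 * s ^ 2) := by
  rw [le_div_iff₀ (j2b_den hs)]
  rcases le_total 0 ξ with h0 | h0
  · rw [abs_of_nonneg h0] at h; nlinarith
  · rw [abs_of_nonpos h0] at h; nlinarith

theorem j2bS (hLLder : LLderStmt) : J2bStmt := by
  intro m mt d0 u hM hmt ⟨d1, hd1, hd10, hcore⟩
  by_contra hne
  obtain ⟨g, hg1, hg⟩ : ∃ g : ℝ, |g| = 1 ∧ 0 < g * mt 0 := by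
    rcases lt_or_gt_of_ne hne with h | h
    · exact ⟨-1, by simp, by linarith⟩
    · exact ⟨1, by simp, by linarith⟩
  obtain ⟨c, hc⟩ : ∃ c, c = g * mt 0 / 2 := ⟨_, rfl⟩
  have hc0 : 0 < c := by linarith
  have hev : ∀ᶠ ξ in 𝓝 (0 : ℝ), g * mt ξ ∈ Ioo c (3 * c) :=
    (hmt.continuousAt.const_mul g).eventually (Ioo_mem_nhds (by linarith) (by linarith))
  obtain ⟨ε, hε, hball⟩ := Metric.eventually_nhds_iff.1 hev
  obtain ⟨d, hd0, hdd1, hdε⟩ : ∃ d, 0 < d ∧ d ≤ d1 ∧ d < ε :=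
    ⟨min d1 (ε / 2), by positivity, min_le_left _ _, (min_le_right _ _).trans_lt (by linarith)⟩
  have hgm : ∀ ξ ∈ Icc (-d) d, c < g * mt ξ ∧ g * mt ξ < 3 * c := fun ξ hξ =>
    hball (by rw [Real.dist_eq, sub_zero]; exact (abs_le.2 hξ).trans_lt hdε)
  obtain ⟨K, hK⟩ := hcore d ⟨hd0, hdd1⟩
  obtain ⟨C0, hC0, hsize0⟩ := hK.size
  obtain ⟨c1, C2, hb⟩ := hK.bdry
  have hsub : Icc (-d) d ⊆ Icc (-d0) d0 := Icc_subset_Icc (by linarith) (by linarith)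
  have hs : ∀ n, ∀ ξ ∈ Icc (-d) d, 0 < ξ - u n ξ := fun n ξ hξ => sub_pos.2 (hM.lt n ξ (hsub hξ))
  have h0mem : (0 : ℝ) ∈ Icc (-d) d := ⟨by linarith, hd0.le⟩
  have hs0 : ∀ n, 0 < -u n 0 := fun n => by simpa using hs n 0 h0mem
  obtain ⟨C, hCe⟩ : ∃ C, C = C0 + 1 := ⟨_, rfl⟩
  have hC1 : 1 ≤ C := by linarith
  have hsize : ∀ n, ∀ ξ ∈ Icc (-d) d, ξ - u n ξ ≤ C * (-u n 0) ∧
      (ξ - u n ξ) * |ξ| ≤ C * (-u n 0) ^ 2 ∧
      (-u n 0 ≤ |ξ| → (-u n 0) ^ 2 ≤ C * ((ξ - u n ξ) * |ξ|)) := fun n ξ hξ => by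
    obtain ⟨h1, -, h3, h4⟩ := hsize0 n ξ hξ
    have e1 : (2 + 2 * (-1 / 2) : ℝ) = 1 := by norm_num
    have e2 : (3 + 2 * (-1 / 2) : ℝ) = (2 : ℕ) := by norm_num
    rw [e1, e2, Real.rpow_one, Real.rpow_natCast] at h3 h4
    have := hs0 n
    have h5 : 0 ≤ (ξ - u n ξ) * |ξ| := mul_nonneg (hs n ξ hξ).le (abs_nonneg _)
    refine ⟨by nlinarith, by nlinarith [sq_nonneg (-u n 0)], fun h => by nlinarith [h4 h]⟩
  have hlim : Tendsto (fun n => -u n 0) atTop (𝓝[>] 0) := by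
    refine tendsto_nhdsWithin_iff.2 ⟨?_, Eventually.of_forall hs0⟩
    simpa using (hM.unif.tendsto_at (hsub h0mem)).neg
  obtain ⟨κ, hκ⟩ : ∃ κ, κ = c / (11 * C) := ⟨_, rfl⟩
  have hκ0 : 0 < κ := by rw [hκ]; positivity
  obtain ⟨C3, hC3⟩ : ∃ C3, C3 = |c1| * (C / d) + |C2| * (C / d) ^ 2 := ⟨_, rfl⟩
  have hlog : ∀ᶠ n in atTop,
      Real.log (-u n 0) < Real.log d - Real.log C - (C3 + 42 * c * C ^ 2) / κ :=
    (Real.tendsto_log_nhdsGT_zero.comp hlim).eventually (eventually_lt_atBot _)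
  have hsm : ∀ᶠ n in atTop, -u n 0 < min 1 (d / C) :=
    (tendsto_nhds_of_tendsto_nhdsWithin hlim).eventually (gt_mem_nhds (by positivity))
  obtain ⟨n, hb, hlog, hsm⟩ := (hb.and (hlog.and hsm)).exists
  obtain ⟨s0, hs0e⟩ : ∃ s0, s0 = -u n 0 := ⟨_, rfl⟩
  have hs0p : 0 < s0 := hs0e ▸ hs0 n
  have hsz := hsize n
  rw [← hs0e] at hlog hsm hsz
  have hs1 : s0 < 1 := hsm.trans_le (min_le_left _ _)
  have hCd : C * s0 < d := by
    have := hsm.trans_le (min_le_right _ _)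
    rw [lt_div_iff₀ (by linarith)] at this; linarith
  have hCs : 0 < C * s0 := by positivity
  have hder : ∀ ξ ∈ Ioo (-d) d, ξ ∉ {ξ ∈ Icc (-d) d | u n ξ = 0} →
      HasDerivAt (fun y => -g * K n y) (g * mt ξ * (ξ - u n ξ) *
        ((3 * ξ ^ 2 - 2 * ξ * (ξ - u n ξ)) /
          (4 * ξ ^ 2 - 5 * ξ * (ξ - u n ξ) + 2 * (ξ - u n ξ) ^ 2))) ξ := fun ξ hξ hS => by
    rw [← j2b_form]
    exact (hK.der n ξ hξ fun h => hS ⟨Ioo_subset_Icc_self hξ, h⟩).const_mul (-g)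
  have hcont : ContinuousOn (fun y => -g * K n y) (Icc (-d) d) :=
    continuousOn_const.mul (hK.cont n)
  have A1 := le_sub_of_le_deriv (hK.fin n) (c := 0) (a := -d) (b := -(C * s0)) (by linarith)
    (hcont.mono (Icc_subset_Icc_right (by linarith))) fun ξ hξ hS => by
      have hξ' : ξ ∈ Ioo (-d) d := ⟨hξ.1, by linarith [hξ.2]⟩
      have hI := Ioo_subset_Icc_self hξ'
      refine ⟨_, hder ξ hξ' hS, ?_⟩
      have h1 := j2b_big (ξ := ξ) (hs n ξ hI) ((hsz ξ hI).1.trans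
        (by rw [abs_of_neg (by linarith [hξ.2])]; linarith [hξ.2]))
      have h2 := (hgm ξ hI).1
      have h3 := hs n ξ hI
      exact mul_nonneg (mul_nonneg (by linarith) h3.le) (by linarith)
  have A2 := le_sub_of_le_deriv (hK.fin n) (c := -(21 * c * (C * s0))) (a := -(C * s0))
    (b := C * s0) (by linarith)
    (hcont.mono (Icc_subset_Icc (by linarith) hCd.le)) fun ξ hξ hS => by
      have hξ' : ξ ∈ Ioo (-d) d := ⟨by linarith [hξ.1], by linarith [hξ.2]⟩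
      have hI := Ioo_subset_Icc_self hξ'
      refine ⟨_, hder ξ hξ' hS, ?_⟩
      have h1 := j2b_low (ξ := ξ) (hs n ξ hI)
      obtain ⟨h2, h2'⟩ := hgm ξ hI
      have h3 := hs n ξ hI
      have h4 := (hsz ξ hI).1
      have h5 : 0 ≤ g * mt ξ * (ξ - u n ξ) := mul_nonneg (by linarith) h3.le
      have h6 : g * mt ξ * (ξ - u n ξ) ≤ 3 * c * (C * s0) :=
        mul_le_mul h2'.le h4 h3.le (by positivity)
      nlinarith [mul_le_mul_of_nonneg_left h1 h5]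
  have A3 := le_sub_of_le_deriv (hK.fin n) (c := 0) (a := C * s0) (b := d) hCd.le
    (f := fun y => -g * K n y - κ * s0 ^ 2 * Real.log y)
    ((hcont.mono (Icc_subset_Icc_left (by linarith))).sub (continuousOn_const.mul
      (Real.continuousOn_log.mono fun y hy => (hCs.trans_le hy.1).ne'))) fun ξ hξ hS => by
      have hξ0 : 0 < ξ := hCs.trans hξ.1
      have hξ' : ξ ∈ Ioo (-d) d := ⟨by linarith, hξ.2⟩
      have hI := Ioo_subset_Icc_self hξ'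
      refine ⟨_, (hder ξ hξ' hS).sub ((Real.hasDerivAt_log hξ0.ne').const_mul _), ?_⟩
      have h1 := j2b_big (ξ := ξ) (hs n ξ hI) ((hsz ξ hI).1.trans
        (by rw [abs_of_pos hξ0]; exact hξ.1.le))
      have h2 := (hgm ξ hI).1
      have h3 := hs n ξ hI
      have h4 := (hsz ξ hI).2.2 (by rw [abs_of_pos hξ0]; nlinarith [hξ.1])
      rw [abs_of_pos hξ0] at h4
      have h5 : κ * s0 ^ 2 * ξ⁻¹ ≤ c * (ξ - u n ξ) * (1 / 11) := by
        rw [hκ, ← div_eq_mul_inv, div_le_iff₀ hξ0, div_mul_eq_mul_div, div_le_iff₀ (by positivity)]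
        nlinarith [mul_le_mul_of_nonneg_left h4 hc0.le]
      have h6 : c * (ξ - u n ξ) * (1 / 11) ≤ g * mt ξ * (ξ - u n ξ) *
          ((3 * ξ ^ 2 - 2 * ξ * (ξ - u n ξ)) /
            (4 * ξ ^ 2 - 5 * ξ * (ξ - u n ξ) + 2 * (ξ - u n ξ) ^ 2)) :=
        mul_le_mul (mul_le_mul_of_nonneg_right h2.le h3.le) h1 (by norm_num)
          (mul_nonneg (by linarith) h3.le)
      linarith
  have hI : -d ∈ Icc (-d) d := ⟨le_rfl, by linarith⟩
  have t0 := hs n _ hI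
  have t1 : -d - u n (-d) ≤ C / d * s0 ^ 2 := by
    have := (hsz _ hI).2.1
    rw [abs_neg, abs_of_pos hd0] at this
    rw [div_mul_eq_mul_div, le_div_iff₀ hd0]; exact this
  have t2 : (-d - u n (-d)) ^ 2 ≤ (C / d) ^ 2 * s0 ^ 2 := by
    have h1 : s0 ^ 2 ≤ s0 := by nlinarith
    have h2 : -d - u n (-d) ≤ C / d * s0 := t1.trans (by gcongr)
    rw [← mul_pow]; gcongr
  have t3 : |K n d - K n (-d)| ≤ C3 * s0 ^ 2 := by
    have h1 := abs_sub_abs_le_abs_sub (K n d - K n (-d)) (c1 * (-d - u n (-d)))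
    rw [abs_mul, abs_of_pos t0] at h1
    have h2 : C2 * (-d - u n (-d)) ^ 2 ≤ |C2| * ((C / d) ^ 2 * s0 ^ 2) :=
      mul_le_mul (le_abs_self _) t2 (sq_nonneg _) (abs_nonneg _)
    have h3 : |c1| * (-d - u n (-d)) ≤ |c1| * (C / d * s0 ^ 2) := by gcongr
    rw [hC3]; linarith
  have t4 : -g * (K n d - K n (-d)) ≤ C3 * s0 ^ 2 := by
    refine (le_abs_self _).trans ?_
    rwa [abs_mul, abs_neg, hg1, one_mul]
  rw [Real.log_mul (by linarith) hs0p.ne'] at A3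
  have t5 : C3 + 42 * c * C ^ 2 < κ * (Real.log d - Real.log C - Real.log s0) := by
    rw [← div_lt_iff₀' hκ0]; linarith
  have t6 := mul_lt_mul_of_pos_right t5 (pow_pos hs0p 2)
  nlinarith

end Pool.Agent.MP_c2f0e4_an

end
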