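import Pool.Agent.Mg.F402458.G1bc3d2
import Pool.Agent.MP_402458_gt.ODE
import Pool.Agent.Mg.F402458.Gf8ec62
import Pool.Agent.Mg.F402458.G8f5d4c
import Pool.Agent.Mg.F402458.Gaa07eb
import Pool.Agent.Mg.F402458.G413fde
import Pool.Agent.Mg.F402458.Ga0d5d3

section

open Set Filter Topology Real Asymptotics

namespace Pool.Agent.MP_c2f0e4_an

/-- The pair of functions `(l p, z)` as one function. -/
noncomputable def fpL (l : (ℝ × ℝ) →L[ℝ] C(unitInterval, ℝ × ℝ)) :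
    ((ℝ × ℝ) × C(unitInterval, ℝ)) →L[ℝ] C(unitInterval, (ℝ × ℝ) × ℝ) :=
  ((ContinuousLinearMap.inl ℝ (ℝ × ℝ) ℝ).compLeftContinuous ℝ unitInterval).comp
      (l.comp (ContinuousLinearMap.fst ℝ _ _)) +
    ((ContinuousLinearMap.inr ℝ (ℝ × ℝ) ℝ).compLeftContinuous ℝ unitInterval).comp
      (ContinuousLinearMap.snd ℝ _ _)

lemma fpL_apply (l : (ℝ × ℝ) →L[ℝ] C(unitInterval, ℝ × ℝ))
    (v : (ℝ × ℝ) × C(unitInterval, ℝ)) (t : unitInterval) : fpL l v t = (l v.1 t, v.2 t) := by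
  simp [fpL]

theorem fpS (hSup : SupStmt) : FPStmt := by
  intro K l c c0 G y0 hG hd h0
  obtain ⟨N, hN, hev⟩ := hSup G (0, y0) hG
  set u : (ℝ × ℝ) × C(unitInterval, ℝ) := (0, ContinuousMap.const unitInterval y0) with hu
  have hLu : fpL l u = ContinuousMap.const unitInterval ((0 : ℝ × ℝ), y0) := by
    ext1 t; rw [fpL_apply]; simp [hu]
  rw [← hLu] at hN hev
  have hev' : ∀ᶠ v in 𝓝 u, ∀ t, N (fpL l v) t = G (l v.1 t, v.2 t) := by
    filter_upwards [(fpL l).continuous.continuousAt.eventually hev] with v hv t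
    rw [hv t, fpL_apply]
  have hNu : N (fpL l u) = ContinuousMap.const unitInterval (G (0, y0)) := by
    ext1 t; rw [hev'.self_of_nhds t]; simp [hu]
  set Φ : (ℝ × ℝ) × C(unitInterval, ℝ) → C(unitInterval, ℝ) :=
    fun v => v.2 - c0 - c v.1 - K (N (fpL l v)) with hΦ
  have hNL : AnalyticAt ℝ (fun v => N (fpL l v)) u := hN.comp ((fpL l).analyticAt u)
  have hΦa : AnalyticAt ℝ Φ u :=
    ((analyticAt_snd.sub analyticAt_const).sub
      ((c.comp (ContinuousLinearMap.fst ℝ _ _)).analyticAt u)).sub ((K.analyticAt _).comp hNL)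
  have hΦu : Φ u = 0 := by
    simp only [hΦ, hNu]
    rw [hu, map_zero, sub_zero, sub_sub, h0, sub_self]
  set D := fderiv ℝ (fun v => N (fpL l v)) u with hD
  have hD1 : HasFDerivAt (fun v => N (fpL l v)) D u := hNL.differentiableAt.hasFDerivAt
  have hD0 : ∀ h : C(unitInterval, ℝ), D (0, h) = 0 := by
    intro h
    ext1 t
    have hin : HasFDerivAt (fun z : C(unitInterval, ℝ) => ((0 : ℝ × ℝ), z))
        (ContinuousLinearMap.inr ℝ (ℝ × ℝ) C(unitInterval, ℝ))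
        (ContinuousMap.const unitInterval y0) :=
      (ContinuousLinearMap.inr ℝ (ℝ × ℝ) C(unitInterval, ℝ)).hasFDerivAt
    have h1 := (ContinuousMap.evalCLM ℝ t : C(unitInterval, ℝ) →L[ℝ] ℝ).hasFDerivAt.comp _
      (hD1.comp (ContinuousMap.const unitInterval y0) hin)
    have h2 := hd.comp_hasFDerivAt_of_eq (ContinuousMap.const unitInterval y0)
      (ContinuousMap.evalCLM ℝ t : C(unitInterval, ℝ) →L[ℝ] ℝ).hasFDerivAt rfl
    have h3 := hin.continuousAt.eventually hev'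
    have h4 := h1.unique (h2.congr_of_eventuallyEq (by
      filter_upwards [h3] with z hz
      simpa using hz t))
    simpa using congrArg (fun A => A h) h4
  have hΦd : HasFDerivAt Φ (ContinuousLinearMap.snd ℝ _ _ - c.comp (ContinuousLinearMap.fst ℝ _ _)
      - K.comp D) u :=
    ((hasFDerivAt_snd.sub_const c0).sub
      (c.comp (ContinuousLinearMap.fst ℝ _ _)).hasFDerivAt).sub (K.hasFDerivAt.comp u hD1)
  have hinv : (fderiv ℝ Φ u ∘L ContinuousLinearMap.inr ℝ (ℝ × ℝ) C(unitInterval, ℝ)).IsInvertible := by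
    refine ⟨ContinuousLinearEquiv.refl ℝ _, ?_⟩
    rw [hΦd.fderiv]
    ext1 h
    simp [hD0]
  have hc : ContDiffAt ℝ ⊤ Φ u := hΦa.contDiffAt
  have hn : (⊤ : WithTop ℕ∞) ≠ 0 := by simp
  have hZa : AnalyticAt ℝ (hc.implicitFunction hn hinv) 0 :=
    (hc.contDiffAt_implicitFunction hn hinv).analyticAt
  have hZ0 : hc.implicitFunction hn hinv 0 = ContinuousMap.const unitInterval y0 :=
    hc.implicitFunction_apply_self hn hinv
  refine ⟨hc.implicitFunction hn hinv, hZa, hZ0, ?_, ?_⟩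
  · have h1 : Tendsto (fun p => (p, hc.implicitFunction hn hinv p)) (𝓝 0) (𝓝 u) := by
      have := (continuousAt_id.prodMk hZa.continuousAt).tendsto
      rw [hZ0] at this
      exact this
    filter_upwards [h1.eventually hev', hc.eventually_apply_implicitFunction hn hinv] with p hp hq
    refine ⟨N (fpL l (p, hc.implicitFunction hn hinv p)), hp, ?_⟩
    rw [hΦu] at hq
    simp only [hΦ] at hq
    rw [sub_sub, sub_sub, sub_eq_zero, ← add_assoc] at hq
    exact hq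
  · obtain ⟨η, hη, hb⟩ := Metric.eventually_nhds_iff.1
      (hev'.and (hc.eventually_apply_eq_iff_implicitFunction hn hinv))
    refine ⟨η, hη, fun p z g hp hz hg he => ?_⟩
    have h1 : dist (p, z) u < η := by
      rw [Prod.dist_eq, max_lt_iff, dist_eq_norm, dist_eq_norm]
      exact ⟨by simpa [hu] using hp, hz⟩
    obtain ⟨h2, h3⟩ := hb h1
    have h4 : N (fpL l (p, z)) = g := by ext1 t; rw [h2 t, hg t]
    refine (h3.1 ?_).symm
    rw [hΦu]
    simp only [hΦ, h4]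
    rw [sub_sub, sub_sub, sub_eq_zero, ← add_assoc]
    exact he

end Pool.Agent.MP_c2f0e4_an

end

section

open Set Filter Topology Real Asymptotics

namespace Pool.Agent.MP_c2f0e4_an

variable {A B : ℝ → ℝ}

lemma max_uniq (hUniq : UniqStmt) (hs : Sys A B) {U V : ℝ → ℝ} (hU : Sol A B U) (hV : GP A B V)
    {x0 : ℝ} (h : U x0 = V x0) (x : ℝ) : U x = V x :=
  hUniq A B U V hs.anA hs.anB hU hV.1 (min x x0) (max x x0) x0
    ⟨min_le_right _ _, le_max_right _ _⟩ (fun y _ => hV.2.1 y (mem_univ _)) h x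
    ⟨min_le_left _ _, le_max_left _ _⟩

lemma max_lt (hUniq : UniqStmt) (hs : Sys A B) {U V : ℝ → ℝ} (hU : Sol A B U) (hV : GP A B V)
    {x0 : ℝ} (h : U x0 < V x0) (x : ℝ) : U x < V x := by
  by_contra hc
  obtain ⟨y, hy⟩ := intermediate_value_univ₂ hU.1 hV.1.1 h.le (not_lt.1 hc)
  exact h.ne (max_uniq hUniq hs hU hV hy x0)

lemma max_sign (hDep : DepStmt) (hs : Sys A B) {S : ℝ → ℝ → ℝ} {x0 p Q : ℝ}
    (hS : ∀ u ∈ Ioo p Q, GP A B (S u)) (hS0 : ∀ u ∈ Ioo p Q, S u x0 = u) {z : ℝ} (hz : A z = 0)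
    {u u' : ℝ} (hu : u ∈ Ioo p Q) (hu' : u' ∈ Ioo p Q) (h : S u z < 0) : S u' z < 0 := by
  have hc : ContinuousOn (fun u => S u z) (Ioo p Q) := by
    refine Metric.continuousOn_iff.2 fun v hv η hη => ?_
    obtain ⟨δ, hδ, h1⟩ := hDep A B (S v) hs.anA hs.anB (hS v hv).1 (min z x0) (max z x0) x0
      ⟨min_le_right _ _, le_max_right _ _⟩ (fun y _ => (hS v hv).2.1 y (mem_univ _)) η hη
    refine ⟨δ, hδ, fun w hw hwv => ?_⟩
    rw [Real.dist_eq] at hwv ⊢
    exact h1 (S w) (hS w hw).1 (by rwa [hS0 w hw, hS0 v hv]) z ⟨min_le_left _ _, le_max_left _ _⟩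
  by_contra hn
  obtain ⟨w, hw, hw0⟩ := isPreconnected_Ioo.intermediate_value hu hu' hc ⟨h.le, not_lt.1 hn⟩
  exact (hS w hw).2.1 z (mem_univ _) hz hw0

lemma max_good {V : ℝ → ℝ} (hA : Continuous A) (hV : Continuous V) {a b : ℝ}
    (h : GoodOn A V (Icc a b)) :
    ∃ η > 0, ∀ U : ℝ → ℝ, (∀ x ∈ Icc a b, |U x - V x| < η) → GoodOn A U (Icc a b) := by
  obtain ⟨η, hη, h1⟩ := (isCompact_Icc (a := a) (b := b)).exists_forall_le'
    (f := fun x => |A x| + |V x|) (by fun_prop) (a := 0) (fun x hx => by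
      by_cases h0 : A x = 0
      · have := abs_pos.2 (h x hx h0); positivity
      · have := abs_pos.2 h0; positivity)
  refine ⟨η, hη, fun U hU x hx h0 hU0 => ?_⟩
  have h2 := hU x hx
  have h3 := h1 x hx
  simp only [h0, hU0, abs_zero, zero_add, zero_sub, abs_neg] at h2 h3
  linarith

/-- a good periodic solution approximated by periodic solutions lies inside a family -/
lemma max_open (hExist : ExistStmt) (hDep : DepStmt) (hTransit : TransitStmt) (hExt : ExtStmt)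
    (hs : Sys A B) {V : ℝ → ℝ} {U : ℕ → ℝ → ℝ} (h : Top0 A B V U) (hV : GP A B V)
    (hU : ∀ n, Function.Periodic (U n) (2 * π)) (x0 : ℝ) :
    ∃ δ > 0, ∀ u, |u - V x0| < δ → ∃ W, GP A B W ∧ W x0 = u := by
  obtain ⟨x1, hx1⟩ : ∃ x1, V x1 ≠ 0 := by
    by_contra hc
    push Not at hc
    have h1 := hV.1.2 0
    simp only [hc] at h1
    have h2 := h1.unique (hasDerivAt_const (0 : ℝ) ((0 : ℝ) ^ 3))
    exact hV.2.1 0 (mem_univ _) (by linarith) (hc 0)
  have hpi : x1 ≤ x1 + 2 * π := by linarith [pi_pos]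
  have hg : ∀ s, GoodOn A V s := fun s y _ => hV.2.1 y (mem_univ _)
  obtain ⟨R, hR, -, -, η, hη, hT⟩ := hTransit A B V hs.anA hs.anB hV.1 x1 (x1 + 2 * π) hpi
    (hg _) hx1 (by rwa [hV.2.2])
  have h1 : ∀ᶠ n in atTop, R (U n x1) = U n x1 := by
    filter_upwards [Metric.tendstoUniformly_iff.1 h.unif η hη] with n hn
    rw [← hT (U n) (h.solU n) fun x _ => by
      rw [abs_sub_comm, ← Real.dist_eq]; exact hn x, hU n]
  have h2 : Tendsto (fun n => U n x1) atTop (𝓝[≠] (V x1)) :=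
    tendsto_nhdsWithin_iff.2 ⟨h.tendsto x1, Eventually.of_forall fun n => (h.lt n x1).ne⟩
  have h3 : ∀ᶠ y in 𝓝 (V x1), R y = id y :=
    (hR.frequently_eq_iff_eventually_eq analyticAt_id).1 (h2.frequently h1.frequently)
  obtain ⟨ε, hε, h4⟩ := Metric.eventually_nhds_iff.1 h3
  obtain ⟨η1, hη1, h5⟩ := max_good hs.anA.continuous hV.1.1 (hg (Icc x1 (x1 + 2 * π)))
  obtain ⟨δ, hδ, h6⟩ := hDep A B V hs.anA hs.anB hV.1 (min x0 x1) (max x0 (x1 + 2 * π)) x0
    ⟨min_le_left _ _, le_max_left _ _⟩ (hg _) (min η (min ε η1)) (by positivity)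
  refine ⟨δ, hδ, fun u hu => ?_⟩
  obtain ⟨W, hW, hW0⟩ := hExist A B hs.anA.continuous hs.anB.continuous x0 u
  have h7 : ∀ x ∈ Icc x1 (x1 + 2 * π), |W x - V x| < min η (min ε η1) := fun x hx =>
    h6 W hW (by rwa [hW0]) x ⟨(min_le_right _ _).trans hx.1, hx.2.trans (le_max_right _ _)⟩
  simp only [lt_min_iff] at h7
  refine ⟨W, hExt A B W hs hW x1 (h5 W fun x hx => (h7 x hx).2.2) ?_, hW0⟩
  rw [hT W hW fun x hx => (h7 x hx).1]
  exact h4 (by rw [Real.dist_eq]; exact (h7 x1 (left_mem_Icc.2 hpi)).2.1)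

lemma max_upper (hUniq : UniqStmt) (hBound : BoundStmt) (hLim : LimStmt) (hExist : ExistStmt)
    (hDep : DepStmt) (hTransit : TransitStmt) (hExt : ExtStmt) (hs : Sys A B) (hP : ¬ Pole A B)
    {x0 p q : ℝ} (hpq : p < q) (hF : ∀ u ∈ Ioo p q, ∃ U, GP A B U ∧ U x0 = u) :
    ∃ V U, Top A B V U ∧ ∀ W, GP A B W → W x0 ∈ Ioo p q → ∀ z, A z = 0 →
      (U 0 z < 0 ↔ W z < 0) := by
  obtain ⟨M, hM⟩ : ∃ M, ∀ U, GP A B U → |U x0| < M := by
    by_contra hc
    push Not at hc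
    exact hP ⟨x0, hc⟩
  set T : Set ℝ := {q' | ∀ u ∈ Ioo p q', ∃ U, GP A B U ∧ U x0 = u} with hT
  have hqT : q ∈ T := hF
  have hbd : BddAbove T := by
    refine ⟨max p M, fun q' hq' => ?_⟩
    by_contra hc
    obtain ⟨u, hu1, hu2⟩ := exists_between (not_le.1 hc)
    obtain ⟨U, hU, rfl⟩ := hq' u ⟨(le_max_left _ _).trans_lt hu1, hu2⟩
    linarith [hM U hU, le_abs_self (U x0), le_max_right p M]
  set Q := sSup T with hQ
  have hqQ : q ≤ Q := le_csSup hbd hqT
  have hpQ : p < Q := hpq.trans_le hqQ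
  have hG : ∀ u ∈ Ioo p Q, ∃ U, GP A B U ∧ U x0 = u := fun u hu => by
    obtain ⟨q', hq', h1⟩ := exists_lt_of_lt_csSup ⟨q, hqT⟩ hu.2
    exact hq' u ⟨hu.1, h1⟩
  choose! S hS hS0 using hG
  set u : ℕ → ℝ := fun n => Q - (Q - p) / ((n : ℝ) + 2) with hu
  have hd : 0 < Q - p := sub_pos.2 hpQ
  have hum : ∀ n, u n ∈ Ioo p Q := fun n => by
    have h1 : (Q - p) / ((n : ℝ) + 2) < Q - p :=
      div_lt_self hd (by linarith [Nat.cast_nonneg (α := ℝ) n])
    have h2 : 0 < (Q - p) / ((n : ℝ) + 2) := by positivity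
    exact ⟨by simp only [hu]; linarith, by simp only [hu]; linarith⟩
  have hmono : StrictMono u := fun m n hmn => by
    have h1 : (m : ℝ) < n := by exact_mod_cast hmn
    exact sub_lt_sub_left (div_lt_div_of_pos_left hd (by positivity) (by linarith)) _
  have hlim : Tendsto u atTop (𝓝 Q) := by
    have h1 : Tendsto (fun n : ℕ => (Q - p) / ((n : ℝ) + 2)) atTop (𝓝 0) :=
      tendsto_const_nhds.div_atTop (tendsto_atTop_add_const_right _ _ tendsto_natCast_atTop_atTop)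
    simpa using h1.const_sub Q
  set U : ℕ → ℝ → ℝ := fun n => S (u n) with hU
  have hUG : ∀ n, GP A B (U n) := fun n => hS _ (hum n)
  have hU0 : ∀ n, U n x0 = u n := fun n => hS0 _ (hum n)
  have hUm : ∀ x, StrictMono fun n => U n x := fun x m n hmn =>
    max_lt hUniq hs (hUG m).1 (hUG n) (x0 := x0) (by rw [hU0, hU0]; exact hmono hmn) x
  have hUb : ∀ x, BddAbove (range fun n => U n x) := fun x => by
    obtain ⟨M', h1⟩ := hBound A B hs.anA.continuous hs.anB.continuous (min x x0) (max x x0) M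
    refine ⟨M', ?_⟩
    rintro _ ⟨n, rfl⟩
    exact (le_abs_self _).trans (h1 _ (hUG n).1 x0 ⟨min_le_right _ _, le_max_right _ _⟩
      (hM _ (hUG n)).le x ⟨min_le_left _ _, le_max_left _ _⟩)
  set V : ℝ → ℝ := fun x => ⨆ n, U n x with hV
  have hVl : ∀ x, Tendsto (fun n => U n x) atTop (𝓝 (V x)) := fun x =>
    tendsto_atTop_ciSup (hUm x).monotone (hUb x)
  obtain ⟨hVs, hVu⟩ := hLim A B hs.anA.continuous hs.anB.continuous atTop U V inferInstance
    (fun n => (hUG n).1) hVl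
  have hVp : Function.Periodic V (2 * π) := fun x => by
    simp only [hV, fun n => (hUG n).2.2 x]
  have hT0 : Top0 A B V U := by
    refine ⟨hVs, fun n => (hUG n).1, fun n x =>
      (hUm x (Nat.lt_succ_self n)).trans_le (le_ciSup (hUb x) (n + 1)), ?_⟩
    refine Metric.tendstoUniformly_iff.2 fun ε hε => ?_
    filter_upwards [Metric.tendstoUniformlyOn_iff.1 (hVu 0 (2 * π)) ε hε] with n hn x
    have hp : Function.Periodic (fun x => dist (V x) (U n x)) (2 * π) := fun x => by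
      simp only [hVp x, (hUG n).2.2 x]
    obtain ⟨y, hy, e⟩ := hp.exists_mem_Ico₀ two_pi_pos x
    exact e.trans_lt (hn y (Ico_subset_Icc_self hy))
  have hV0 : V x0 = Q := tendsto_nhds_unique (hVl x0) (by simpa only [hU0] using hlim)
  refine ⟨V, U, ⟨hT0, hVp, fun n => (hUG n).2.2, fun n => (hUG n).2.1, fun z hz n =>
    ⟨max_sign hDep hs hS hS0 hz (hum n) (hum 0), max_sign hDep hs hS hS0 hz (hum 0) (hum n)⟩,
    ?_⟩, fun W hW hW0 z hz => ?_⟩
  · by_contra hc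
    have hVG : GP A B V := ⟨hVs, fun z _ hz h0 => hc ⟨z, hz, h0⟩, hVp⟩
    obtain ⟨δ, hδ, h1⟩ := max_open hExist hDep hTransit hExt hs hT0 hVG (fun n => (hUG n).2.2) x0
    have h2 : Q + δ ∈ T := fun w hw => by
      by_cases h3 : w < Q
      · exact ⟨S w, hS w ⟨hw.1, h3⟩, hS0 w ⟨hw.1, h3⟩⟩
      · refine h1 w ?_
        rw [hV0, abs_lt]
        constructor <;> linarith [hw.2, not_lt.1 h3]
    linarith [le_csSup hbd h2]
  · have h1 : W x0 ∈ Ioo p Q := ⟨hW0.1, hW0.2.trans_le hqQ⟩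
    rw [max_uniq hUniq hs hW.1 (hS _ h1) (hS0 _ h1).symm z]
    exact ⟨max_sign hDep hs hS hS0 hz (hum 0) h1, max_sign hDep hs hS hS0 hz h1 (hum 0)⟩

theorem maxS (hUniq : UniqStmt) (hBound : BoundStmt) (hLim : LimStmt) (hExist : ExistStmt) (hDep : DepStmt) (hTransit : TransitStmt) (hExt : ExtStmt) : MaxStmt := by
  rintro A B hs ⟨x0, p, q, hpq, hF⟩
  refine or_iff_not_imp_left.2 fun hP => ?_
  obtain ⟨V, U, h1, h2⟩ := max_upper hUniq hBound hLim hExist hDep hTransit hExt hs hP hpq hF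
  obtain ⟨V2, U2, h3, h4⟩ := max_upper hUniq hBound hLim hExist hDep hTransit hExt hs hP
    (x0 := x0 - π) (neg_lt_neg hpq) fun u hu => by
      obtain ⟨W, hW, hW0⟩ := hF (-u) ⟨by linarith [hu.2], by linarith [hu.1]⟩
      exact ⟨_, hW.sigma hs, by simp [hW0]⟩
  refine ⟨V, U, V2, U2, h1, h3, fun z hz => ?_⟩
  obtain ⟨W, hW, hW0⟩ := hF ((p + q) / 2) ⟨by linarith, by linarith⟩
  have hz' : A (z + π) = 0 := by rw [hs.antiA, hz, neg_zero]
  have h5 := h2 W hW (by rw [hW0]; exact ⟨by linarith, by linarith⟩) _ hz'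
  have h6 := h4 _ (hW.sigma hs)
    (by simp only [sub_add_cancel, hW0]; exact ⟨by linarith, by linarith⟩) z hz
  have h7 := hW.2.1 _ (mem_univ _) hz'
  have h8 := h1.good 0 _ (mem_univ _) hz'
  rw [h6, neg_lt_zero]
  constructor
  · intro h
    exact lt_of_le_of_ne (not_lt.1 fun h' => lt_asymm h (h5.1 h')) h8.symm
  · intro h
    exact lt_of_le_of_ne (not_lt.1 fun h' => lt_asymm h (h5.2 h')) h7.symm

end Pool.Agent.MP_c2f0e4_an

end

section

open Set Filter Topology Real Asymptotics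

namespace Pool.Agent.MP_c2f0e4_an

def polef_p (c0 c1 c2 c3 c4 c5 c6 u : ℝ) : ℝ :=
  c0 + c1 * u + c2 * u ^ 2 + c3 * u ^ 3 + c4 * u ^ 4 + c5 * u ^ 5 + c6 * u ^ 6

lemma polef_poly (c0 c1 c2 c3 c4 c5 c6 x : ℝ) :
    HasDerivAt (fun x => polef_p c0 c1 c2 c3 c4 c5 c6 (sin x))
      (polef_p c1 (2 * c2) (3 * c3) (4 * c4) (5 * c5) (6 * c6) 0 (sin x) * cos x) x := by
  have h := hasDerivAt_sin x
  refine HasDerivAt.congr_deriv (f' := _) ((((((((h.const_mul c1).const_add c0).add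
    ((h.pow 2).const_mul c2)).add ((h.pow 3).const_mul c3)).add ((h.pow 4).const_mul c4)).add
    ((h.pow 5).const_mul c5)).add ((h.pow 6).const_mul c6))) ?_
  simp only [polef_p]
  push_cast
  ring

lemma polef_prim (a0 a1 a2 a3 l1 l2 l3 : ℝ) : ∃ G : ℝ → ℝ, Function.Periodic G (2 * π) ∧
    ∀ x, HasDerivAt G (Cub a0 a1 a2 a3 x * (1 + l1 * sin x + l2 * sin x ^ 2 + l3 * sin x ^ 3) -
      (l1 * (a1 + 3 * a3) / 8 + l3 * (a1 + 5 * a3) / 16)) x := by
  refine ⟨fun x => polef_p 0 a0 (a0 * l1 / 2) ((a0 * l2 + (a2 - a0)) / 3)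
    ((a0 * l3 + (a2 - a0) * l1) / 4) ((a2 - a0) * l2 / 5) ((a2 - a0) * l3 / 6) (sin x) -
    cos x * polef_p (a1 + 2 * (a1 * l2 + (a3 - a1)) / 3 + 8 * ((a3 - a1) * l2) / 15)
      (a1 * l1 / 2 + 3 * (a1 * l3 + (a3 - a1) * l1) / 8 + 5 * ((a3 - a1) * l3) / 16)
      ((a1 * l2 + (a3 - a1)) / 3 + 4 * ((a3 - a1) * l2) / 15)
      ((a1 * l3 + (a3 - a1) * l1) / 4 + 5 * ((a3 - a1) * l3) / 24)
      ((a3 - a1) * l2 / 5) ((a3 - a1) * l3 / 6) 0 (sin x),
    fun x => by simp only [sin_add_two_pi, cos_add_two_pi], fun x => ?_⟩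
  refine HasDerivAt.congr_deriv (f' := _) ((polef_poly _ _ _ _ _ _ _ x).sub
    ((hasDerivAt_cos x).mul (polef_poly _ _ _ _ _ _ _ x))) ?_
  have h : cos x ^ 2 = 1 - sin x ^ 2 := cos_sq' x
  have h3 : cos x ^ 3 = cos x * (1 - sin x ^ 2) := by rw [← h]; ring
  rw [mul_left_comm (cos x), ← pow_two, Cub, h, h3]
  simp only [polef_p]
  ring

lemma polef_low {A B U : ℝ → ℝ} (h : Sol A B U) {α β : ℝ} (hA : ∀ x, |A x| ≤ α)
    (hB : ∀ x, |B x| ≤ β) {x0 : ℝ} (h0 : 7 * (α + β + 1) + 1 ≤ U x0) :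
    ∀ x ∈ Icc x0 (x0 + 2 * π), U x0 - 7 * (α + β + 1) ≤ U x := by
  have hα := (abs_nonneg _).trans (hA 0)
  have hβ := (abs_nonneg _).trans (hB 0)
  have h1 : ∀ x ∈ Icc x0 (x0 + 2 * π),
      U x0 - 7 * (α + β + 1) ≤ U x0 - (α + β + 1) * (x - x0) := fun x hx => by
    nlinarith [hx.2, pi_lt_d2]
  have h2 := pos_of_deriv_pos_at_zeros
    (f := fun x => U x ^ 3 - (U x0 - (α + β + 1) * (x - x0)) ^ 3) (a := x0) (b := x0 + 2 * π)
    ((h.1.pow 3).sub (by fun_prop)).continuousOn (by simp) fun x hx h3 => by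
      have h4 : U x = U x0 - (α + β + 1) * (x - x0) := cube_inj (sub_eq_zero.1 h3)
      have h5 := ((((hasDerivAt_id' x).sub_const x0).const_mul (α + β + 1)).const_sub (U x0)).pow 3
      refine ⟨_, (h.2 x).sub h5, ?_⟩
      rw [← h4]
      have h6 : 1 ≤ U x ^ 2 := one_le_pow₀ (by linarith [h1 x hx])
      have h7 := (abs_le.1 (hA x)).2
      have h8 := (abs_le.1 (hB x)).2
      push_cast
      nlinarith
  intro x hx
  rcases hx.1.eq_or_lt with h3 | h3
  · rw [← h3]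
    linarith
  · exact (h1 x hx).trans (cube_lt.1 (sub_pos.1 (h2 x ⟨h3, hx.2⟩))).le

lemma polef_low' {A B U : ℝ → ℝ} (h : Sol A B U) {α β : ℝ} (hA : ∀ x, |A x| ≤ α)
    (hB : ∀ x, |B x| ≤ β) {x0 : ℝ} (h0 : 7 * (α + β + 1) + 1 ≤ |U x0|) :
    ∀ x ∈ Icc x0 (x0 + 2 * π), |U x0| - 7 * (α + β + 1) ≤ |U x| := fun x hx => by
  rcases le_total 0 (U x0) with h1 | h1
  · rw [abs_of_nonneg h1] at h0 ⊢
    exact (polef_low h hA hB h0 x hx).trans (le_abs_self _)
  · rw [abs_of_nonpos h1] at h0 ⊢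
    exact (polef_low h.neg (by simpa using hA) (by simpa using hB) h0 x hx).trans (neg_le_abs _)

lemma polef_alg {z d : ℝ} (hz : |z| ≤ 1) (hd : |d| ≤ 1) :
    |(1 + d) ^ 2 - (1 + d - z) ^ 2 * (1 + 2 * z + 3 * z ^ 2 + 4 * z ^ 3)| ≤
      9 * z ^ 4 + 23 * (|d| * |z|) := by
  have e : (1 + d) ^ 2 - (1 + d - z) ^ 2 * (1 + 2 * z + 3 * z ^ 2 + 4 * z ^ 3) =
      z ^ 4 * (5 - 4 * z) + d * z * (2 * (-1 - z - z ^ 2 + 4 * z ^ 3) -
        d * (2 + 3 * z + 4 * z ^ 2)) := by ring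
  have h1 := abs_le.1 hz
  have h2 : |z ^ 2| ≤ 1 := by rw [abs_pow]; exact pow_le_one₀ (abs_nonneg _) hz
  have h3 : |z ^ 3| ≤ 1 := by rw [abs_pow]; exact pow_le_one₀ (abs_nonneg _) hz
  have h4 : |d * (2 + 3 * z + 4 * z ^ 2)| ≤ 1 * 9 := by
    rw [abs_mul]
    refine mul_le_mul hd (abs_le.2 ⟨?_, ?_⟩) (abs_nonneg _) zero_le_one <;>
      linarith [abs_le.1 h2]
  have h5 : |2 * (-1 - z - z ^ 2 + 4 * z ^ 3) - d * (2 + 3 * z + 4 * z ^ 2)| ≤ 23 := by
    refine abs_le.2 ⟨?_, ?_⟩ <;> linarith [abs_le.1 h2, abs_le.1 h3, abs_le.1 h4]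
  have h6 : |5 - 4 * z| ≤ 9 := abs_le.2 ⟨by linarith, by linarith⟩
  rw [e]
  refine (abs_add_le _ _).trans (add_le_add ?_ ?_)
  · rw [abs_mul, abs_of_nonneg (by positivity : 0 ≤ z ^ 4), mul_comm]
    exact mul_le_mul_of_nonneg_right h6 (by positivity)
  · rw [abs_mul, abs_mul, mul_comm]
    exact mul_le_mul_of_nonneg_right h5 (by positivity)

lemma polef_fin {p q C : ℝ}
    (h : ∀ ε : ℝ, 0 < ε → ∃ e : ℝ, e ≠ 0 ∧ |e| ≤ ε ∧ |p * e + q * e ^ 3| ≤ C * e ^ 4) :
    p = 0 ∧ q = 0 := by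
  have key : ∀ r D : ℝ, (∀ ε : ℝ, 0 < ε → ε ≤ 1 → |r| ≤ D * ε) → r = 0 := fun r D h1 => by
    have h2 : Tendsto (fun ε : ℝ => D * ε) (𝓝[>] 0) (𝓝 (D * 0)) :=
      tendsto_nhdsWithin_of_tendsto_nhds (by fun_prop : Continuous fun ε : ℝ => D * ε).continuousAt
    rw [mul_zero] at h2
    refine abs_nonpos_iff.1 (ge_of_tendsto h2 ?_)
    filter_upwards [Ioc_mem_nhdsGT one_pos] with ε hε using h1 ε hε.1 hε.2
  have h3 : ∀ ε : ℝ, 0 < ε → ∃ e : ℝ, 0 < |e| ∧ |e| ≤ ε ∧ |p + q * e ^ 2| ≤ |C| * |e| ^ 3 :=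
    fun ε hε => by
    obtain ⟨e, h1, h2, h3⟩ := h ε hε
    refine ⟨e, abs_pos.2 h1, h2, le_of_mul_le_mul_right ?_ (abs_pos.2 h1)⟩
    rw [← abs_mul, mul_assoc, ← pow_succ, ← abs_pow, ← abs_mul]
    exact (le_of_eq (by congr 1; ring)).trans (h3.trans (le_abs_self _))
  have hp : p = 0 := key p (|q| + |C|) fun ε h0 h1 => by
    obtain ⟨e, h4, h5, h6⟩ := h3 ε h0
    have h7 := abs_sub (p + q * e ^ 2) (q * e ^ 2)
    rw [add_sub_cancel_right, abs_mul, abs_pow] at h7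
    have h8 : |e| ^ 2 ≤ ε := (pow_le_of_le_one h4.le (h5.trans h1) two_ne_zero).trans h5
    have h9 : |e| ^ 3 ≤ ε := (pow_le_of_le_one h4.le (h5.trans h1) three_ne_zero).trans h5
    nlinarith [mul_le_mul_of_nonneg_left h8 (abs_nonneg q),
      mul_le_mul_of_nonneg_left h9 (abs_nonneg C)]
  refine ⟨hp, key q |C| fun ε h0 _ => ?_⟩
  obtain ⟨e, h4, h5, h6⟩ := h3 ε h0
  rw [hp, zero_add, abs_mul, abs_pow, pow_succ' |e| 2, ← mul_assoc] at h6
  exact (le_of_mul_le_mul_right h6 (by positivity)).trans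
    (mul_le_mul_of_nonneg_left h5 (abs_nonneg C))

lemma polef_main {a0 a1 a2 a3 b α x0 e : ℝ} {U : ℝ → ℝ} (h : GP (Cub a0 a1 a2 a3) (Lin b 0) U)
    (hA : ∀ x, |Cub a0 a1 a2 a3 x| ≤ α) (he : e * (U x0 + b * sin x0) = 1) (h1 : |e| ≤ 1)
    (h2 : |e| * |b| ≤ 1) (h3 : |e| * (28 * α) ≤ 1)
    (hU : ∀ x ∈ Icc x0 (x0 + 2 * π), 1 ≤ 4 * (e * U x) ^ 2) :
    |2 * b * e * (a1 + 3 * a3) / 8 + 4 * b ^ 3 * e ^ 3 * (a1 + 5 * a3) / 16| ≤
      α * (4 * (9 * b ^ 4 + 23 * (28 * α * |b|))) * e ^ 4 := by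
  have hα := (abs_nonneg _).trans (hA 0)
  have hU0 : ∀ x ∈ Icc x0 (x0 + 2 * π), U x ≠ 0 := fun x hx h0 => by
    have := hU x hx
    rw [h0] at this
    norm_num at this
  have hy : ∀ x ∈ Icc x0 (x0 + 2 * π), HasDerivAt (fun x => U x + b * sin x)
      (-(Cub a0 a1 a2 a3 x / U x ^ 2)) x := fun x hx =>
    ((h.1.hasDerivAt (hU0 x hx)).add ((hasDerivAt_sin x).const_mul b)).congr_deriv
      (by simp only [Lin]; ring)
  have hη : ∀ x ∈ Icc x0 (x0 + 2 * π),
      |U x + b * sin x - (U x0 + b * sin x0)| ≤ 28 * α * e ^ 2 := fun x hx => by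
    have h4 := norm_image_sub_le_of_norm_deriv_le_segment' (C := 4 * α * e ^ 2)
      (fun x hx => (hy x hx).hasDerivWithinAt) (fun x hx => by
        have h5 := hU0 x (Ico_subset_Icc_self hx)
        rw [norm_neg, Real.norm_eq_abs, abs_div, abs_of_nonneg (sq_nonneg (U x)),
          div_le_iff₀ (by positivity)]
        nlinarith [hA x, mul_le_mul_of_nonneg_left (hU x (Ico_subset_Icc_self hx)) hα]) x hx
    have h5 : 0 ≤ α * e ^ 2 := by positivity
    rw [Real.norm_eq_abs] at h4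
    nlinarith [hx.2, pi_lt_d2]
  obtain ⟨G, hG, hG'⟩ := polef_prim a0 a1 a2 a3 (2 * b * e) (3 * b ^ 2 * e ^ 2) (4 * b ^ 3 * e ^ 3)
  have hΦ := fun x hx => (((hy x hx).pow 3).div_const 3).add (hG' x)
  obtain ⟨x, hx, h4⟩ := exists_hasDerivAt_eq_zero (by linarith [pi_pos] : x0 < x0 + 2 * π)
    (fun x hx => (hΦ x hx).continuousAt.continuousWithinAt)
    (by simp only [Pi.add_apply, Pi.pow_apply, h.2.2 x0, hG x0, sin_add_two_pi])
    fun x hx => hΦ x (Ioo_subset_Icc_self hx)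
  have hx' := Ioo_subset_Icc_self hx
  have h5 := hU0 x hx'
  have h6 := hU x hx'
  have h7 := hη x hx'
  have hs : |b * sin x| ≤ |b| := by
    rw [abs_mul]
    exact mul_le_of_le_one_right (abs_nonneg _) (abs_sin_le_one x)
  have he2 : e ^ 2 = |e| * |e| := by rw [abs_mul_abs_self, pow_two]
  have hz : |e * (b * sin x)| ≤ |e| * |b| := by
    rw [abs_mul]
    exact mul_le_mul_of_nonneg_left hs (abs_nonneg _)
  have hd : |e * (U x + b * sin x - (U x0 + b * sin x0))| ≤ |e| * (28 * α * e ^ 2) := by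
    rw [abs_mul]
    exact mul_le_mul_of_nonneg_left h7 (abs_nonneg _)
  have hd1 : |e| * (28 * α * e ^ 2) ≤ 1 := by
    rw [← mul_assoc]
    exact mul_le_one₀ h3 (sq_nonneg _) (he2 ▸ mul_le_one₀ h1 (abs_nonneg _) h1)
  have h8 := polef_alg (hz.trans h2) (hd.trans hd1)
  have h9 := mul_le_mul hd hz (abs_nonneg _) (by positivity)
  have h10 : (e * (b * sin x)) ^ 4 ≤ b ^ 4 * e ^ 4 := by
    have := pow_le_pow_left₀ (abs_nonneg _) hz 4
    rwa [mul_pow, Even.pow_abs (by decide), Even.pow_abs (by decide), Even.pow_abs (by decide),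
      mul_comm (e ^ 4)] at this
  have h11 : |e| * (28 * α * e ^ 2) * (|e| * |b|) = 28 * α * |b| * e ^ 4 := by
    linear_combination (-(28 * α * e ^ 2 * |b|)) * he2
  have h12 : 1 + e * (U x + b * sin x - (U x0 + b * sin x0)) = e * (U x + b * sin x) := by
    linear_combination -he
  rw [h12] at h8
  generalize 2 * b * e * (a1 + 3 * a3) / 8 + 4 * b ^ 3 * e ^ 3 * (a1 + 5 * a3) / 16 = m at h4 ⊢
  have h13 : m * (e * U x) ^ 2 = -(Cub a0 a1 a2 a3 x * ((e * (U x + b * sin x)) ^ 2 -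
      (e * (U x + b * sin x) - e * (b * sin x)) ^ 2 * (1 + 2 * (e * (b * sin x)) +
        3 * (e * (b * sin x)) ^ 2 + 4 * (e * (b * sin x)) ^ 3))) := by
    have h14 : Cub a0 a1 a2 a3 x / U x ^ 2 * U x ^ 2 = Cub a0 a1 a2 a3 x :=
      div_mul_cancel₀ _ (pow_ne_zero 2 h5)
    push_cast at h4
    linear_combination (-(e * U x) ^ 2) * h4 - (e * (U x + b * sin x)) ^ 2 * h14
  have h14 := congrArg abs h13
  rw [abs_mul, abs_neg, abs_mul, abs_of_nonneg (sq_nonneg (e * U x))] at h14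
  have h15 := mul_le_mul (hA x) h8 (abs_nonneg _) hα
  have h16 := mul_le_mul_of_nonneg_left h6 (abs_nonneg m)
  have h17 := mul_le_mul_of_nonneg_left h9 hα
  have h18 := mul_le_mul_of_nonneg_left h10 hα
  rw [h11] at h17
  linarith

theorem poleS : PoleStmt := by
  rintro a0 a1 a2 a3 b hb ⟨x0, h⟩
  obtain ⟨α, hA⟩ : ∃ α, ∀ x, |Cub a0 a1 a2 a3 x| ≤ α := by
    obtain ⟨α, hα⟩ := isBounded_iff_forall_norm_le.1 ((sys_cub a0 a1 a2 a3 0 0).perA.isBounded_of_continuous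
      (by positivity) (Cub.an a0 a1 a2 a3).continuous)
    exact ⟨α, fun x => hα _ (mem_range_self x)⟩
  have hα := (abs_nonneg _).trans (hA 0)
  have hβ := abs_nonneg b
  have hB : ∀ x, |Lin b 0 x| ≤ |b| := fun x => by
    rw [Lin, zero_mul, add_zero, abs_mul]
    exact mul_le_of_le_one_right hβ (abs_cos_le_one x)
  have key := polef_fin (p := 2 * b * (a1 + 3 * a3) / 8) (q := 4 * b ^ 3 * (a1 + 5 * a3) / 16)
    (C := α * (4 * (9 * b ^ 4 + 23 * (28 * α * |b|)))) fun ε hε => by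
      obtain ⟨U, hU, h0⟩ := h (ε⁻¹ + 28 * (α + |b| + 1))
      have hε' := inv_pos.2 hε
      have hs : |b * sin x0| ≤ |b| := by
        rw [abs_mul]
        exact mul_le_of_le_one_right hβ (abs_sin_le_one x0)
      have h1 := abs_sub (U x0 + b * sin x0) (b * sin x0)
      have h2 := abs_add_le (U x0) (b * sin x0)
      rw [add_sub_cancel_right] at h1
      set y := U x0 + b * sin x0 with hy
      have h3 : 0 < |y| := by linarith
      have h4 : ∀ t : ℝ, t ≤ |y| → |y⁻¹| * t ≤ 1 := fun t ht => by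
        rwa [abs_inv, inv_mul_le_iff₀ h3, mul_one]
      refine ⟨y⁻¹, inv_ne_zero (abs_pos.1 h3), ?_, (le_of_eq (by congr 1; ring)).trans
        (polef_main hU hA (inv_mul_cancel₀ (abs_pos.1 h3)) ((mul_one _).symm.trans_le
          (h4 1 (by linarith))) (h4 _ (by linarith)) (h4 _ (by linarith)) fun x hx => ?_)⟩
      · rw [abs_inv]
        exact inv_le_of_inv_le₀ hε (by linarith)
      · have h5 := polef_low' hU.1 hA hB (by linarith) x hx
        have h6 : 1 ≤ 2 * |y⁻¹ * U x| := by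
          rw [abs_mul, abs_inv, mul_left_comm, le_inv_mul_iff₀ h3]
          linarith
        nlinarith [sq_abs (y⁻¹ * U x)]
  have h1 : a1 + 3 * a3 = 0 := by simpa [hb] using key.1
  have h2 : a1 + 5 * a3 = 0 := by simpa [hb] using key.2
  constructor <;> linarith

end Pool.Agent.MP_c2f0e4_an

end

section

open Set Filter Topology Real Asymptotics

namespace Pool.Agent.MP_c2f0e4_an

lemma sphcore_prim {c : ℝ → ℝ} (hc : Continuous c) (t : ℝ) :
    HasDerivAt (fun s => ∫ x in (0 : ℝ)..s, c x) (c t) t :=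
  (hc.integral_hasStrictDerivAt 0 t).hasDerivAt

lemma sphcore_lin {y c : ℝ → ℝ} (hc : Continuous c) (hy : ∀ t, HasDerivAt y (c t * y t) t)
    (t : ℝ) : y t = y 0 * exp (∫ x in (0 : ℝ)..t, c x) := by
  have h1 : ∀ s, HasDerivAt (fun s => y s * exp (-∫ x in (0 : ℝ)..s, c x)) 0 s := fun s =>
    ((hy s).mul (sphcore_prim hc s).neg.exp).congr_deriv (by simp only [Pi.neg_apply]; ring)
  have h2 := is_const_of_deriv_eq_zero (fun s => (h1 s).differentiableAt)
    (fun s => (h1 s).deriv) t 0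
  simp only [intervalIntegral.integral_same, neg_zero, exp_zero, mul_one] at h2
  rw [← h2, mul_assoc, ← exp_add, neg_add_cancel, exp_zero, mul_one]

lemma sphcore_gron {E E' c : ℝ → ℝ} (hc : Continuous c) (hE : ∀ t, HasDerivAt E (E' t) t)
    (hb : ∀ t, |E' t| ≤ c t * E t) {t1 : ℝ} (h1 : E t1 = 0) : E 0 ≤ 0 := by
  rcases le_total t1 0 with h | h
  · have h2 : ∀ s, HasDerivAt (fun s => E s * exp (-∫ x in (0 : ℝ)..s, c x))
        ((E' s - c s * E s) * exp (-∫ x in (0 : ℝ)..s, c x)) s := fun s =>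
      ((hE s).mul (sphcore_prim hc s).neg.exp).congr_deriv (by simp only [Pi.neg_apply]; ring)
    have h3 := antitone_of_deriv_nonpos (fun s => (h2 s).differentiableAt) (fun s => by
      rw [(h2 s).deriv]
      exact mul_nonpos_of_nonpos_of_nonneg (by linarith [(abs_le.1 (hb s)).2]) (exp_pos _).le) h
    simpa [h1] using h3
  · have h2 : ∀ s, HasDerivAt (fun s => E s * exp (∫ x in (0 : ℝ)..s, c x))
        ((E' s + c s * E s) * exp (∫ x in (0 : ℝ)..s, c x)) s := fun s =>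
      ((hE s).mul (sphcore_prim hc s).exp).congr_deriv (by ring)
    have h3 := monotone_of_deriv_nonneg (fun s => (h2 s).differentiableAt) (fun s => by
      rw [(h2 s).deriv]
      exact mul_nonneg (by linarith [(abs_le.1 (hb s)).1]) (exp_pos _).le) h
    simpa [h1] using h3

lemma sphcore_bound (u a B D : ℝ) :
    |2 * u * (-(a + B * u ^ 2) / (1 + u ^ 2)) + 2 * a * (D * (u ^ 2 / (1 + u ^ 2)))| ≤
      (1 + 2 * |B * u| + |D * u|) * (u ^ 2 + a ^ 2) := by
  have h0 : 0 < 1 + u ^ 2 := by positivity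
  have h1 : 2 * u * (-(a + B * u ^ 2) / (1 + u ^ 2)) + 2 * a * (D * (u ^ 2 / (1 + u ^ 2))) =
      (-(2 * u * a) - 2 * (B * u) * u ^ 2 + (D * u) * (2 * u * a)) / (1 + u ^ 2) := by
    field_simp
    ring
  have h2 : |2 * u * a| ≤ u ^ 2 + a ^ 2 :=
    abs_le.2 ⟨by nlinarith [sq_nonneg (u + a)], by nlinarith [sq_nonneg (u - a)]⟩
  have h3 : |2 * (B * u) * u ^ 2| ≤ 2 * |B * u| * (u ^ 2 + a ^ 2) := by
    rw [abs_mul, abs_mul, abs_two, abs_of_nonneg (sq_nonneg u)]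
    exact mul_le_mul_of_nonneg_left (by nlinarith [sq_nonneg a]) (by positivity)
  have h4 : |(D * u) * (2 * u * a)| ≤ |D * u| * (u ^ 2 + a ^ 2) := by
    rw [abs_mul]
    exact mul_le_mul_of_nonneg_left h2 (abs_nonneg _)
  have h5 : |-(2 * u * a) - 2 * (B * u) * u ^ 2 + (D * u) * (2 * u * a)| ≤
      (1 + 2 * |B * u| + |D * u|) * (u ^ 2 + a ^ 2) := by
    have := abs_le.1 h2
    have := abs_le.1 h3
    have := abs_le.1 h4
    exact abs_le.2 ⟨by linarith, by linarith⟩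
  rw [h1, abs_div, abs_of_pos h0]
  exact (div_le_self (abs_nonneg _) (by nlinarith [sq_nonneg u])).trans h5

/-- The part of the argument that only uses the reduced system. -/
lemma sphcore_red {A B θ u : ℝ → ℝ} (hA : ContDiff ℝ 1 A) (hB : Continuous B)
    (hθ : ∀ t, HasDerivAt θ (u t ^ 2 / (1 + u t ^ 2)) t)
    (hu : ∀ t, HasDerivAt u (-(A (θ t) + B (θ t) * u t ^ 2) / (1 + u t ^ 2)) t)
    (h0 : A (θ 0) = 0 → u 0 ≠ 0) : (∀ t, A (θ t) = 0 → u t ≠ 0) ∧ StrictMono θ := by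
  have cθ : Continuous θ := continuous_iff_continuousAt.2 fun t => (hθ t).continuousAt
  have cu : Continuous u := continuous_iff_continuousAt.2 fun t => (hu t).continuousAt
  have cD : Continuous (deriv A) := hA.continuous_deriv le_rfl
  have dA : ∀ x, HasDerivAt A (deriv A x) x := fun x =>
    (hA.differentiable one_ne_zero x).hasDerivAt
  have hns : ∀ t, A (θ t) = 0 → u t ≠ 0 := by
    intro t1 ha hu1
    have hE : ∀ t, HasDerivAt (fun t => u t ^ 2 + A (θ t) ^ 2)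
        (2 * u t * (-(A (θ t) + B (θ t) * u t ^ 2) / (1 + u t ^ 2)) +
          2 * A (θ t) * (deriv A (θ t) * (u t ^ 2 / (1 + u t ^ 2)))) t := fun t =>
      (((hu t).pow 2).add (((dA (θ t)).comp t (hθ t)).pow 2)).congr_deriv (by simp)
    have h1 := sphcore_gron (c := fun t => 1 + 2 * |B (θ t) * u t| + |deriv A (θ t) * u t|)
      (by fun_prop) hE (fun t => sphcore_bound _ _ _ _) (t1 := t1) (by simp [ha, hu1])
    have h2 : A (θ 0) = 0 := by nlinarith [sq_nonneg (u 0), sq_nonneg (A (θ 0))]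
    exact h0 h2 (by nlinarith [sq_nonneg (u 0), sq_nonneg (A (θ 0))])
  refine ⟨hns, ?_⟩
  have hmono : Monotone θ := monotone_of_deriv_nonneg (fun t => (hθ t).differentiableAt)
    fun t => by rw [(hθ t).deriv]; positivity
  intro t1 t2 h12
  refine (hmono h12.le).lt_of_ne fun heq => ?_
  have hconst : ∀ t ∈ Ioo t1 t2, θ t = θ t1 := fun t ht =>
    le_antisymm (heq ▸ hmono ht.2.le) (hmono ht.1.le)
  have hu0 : ∀ t ∈ Ioo t1 t2, u t = 0 := by
    intro t ht
    have h1 : HasDerivAt θ 0 t := (hasDerivAt_const t (θ t1)).congr_of_eventuallyEq (by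
      filter_upwards [Ioo_mem_nhds ht.1 ht.2] with s hs using hconst s hs)
    have h2 := (hθ t).unique h1
    rw [div_eq_zero_iff] at h2
    rcases h2 with h2 | h2
    · exact pow_eq_zero_iff two_ne_zero |>.1 h2
    · nlinarith [sq_nonneg (u t)]
  obtain ⟨t, ht1, ht2⟩ := exists_between h12
  have h1 : HasDerivAt u 0 t := (hasDerivAt_const t (0 : ℝ)).congr_of_eventuallyEq (by
    filter_upwards [Ioo_mem_nhds ht1 ht2] with s hs using hu0 s hs)
  have h2 := (hu t).unique h1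
  rw [hu0 t ⟨ht1, ht2⟩] at h2
  exact hns t (by simpa using h2) (hu0 t ⟨ht1, ht2⟩)

theorem sphCoreS : SphCoreStmt := by
  intro b1 b2 a1 a2 a3 γ θ0 u0 hγ h0 hns
  set z1 : ℝ → ℝ := fun t => (γ t).1 with hz1
  set z2 : ℝ → ℝ := fun t => (γ t).2.1 with hz2
  set z3 : ℝ → ℝ := fun t => (γ t).2.2 with hz3
  set G : ℝ → ℝ := fun t => polyG b1 b2 a1 a2 a3 (γ t) with hG
  have d1 : ∀ t, HasDerivAt z1 (z3 t * (-z2 t * z3 t + z1 t * G t)) t := fun t => (hγ t).fst
  have d2 : ∀ t, HasDerivAt z2 (z3 t * (z1 t * z3 t + z2 t * G t)) t := fun t => (hγ t).snd.fst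
  have d3 : ∀ t, HasDerivAt z3 ((z3 t ^ 2 - 1) * G t) t := fun t => (hγ t).snd.snd
  have c1 : Continuous z1 := continuous_iff_continuousAt.2 fun t => (d1 t).continuousAt
  have c2 : Continuous z2 := continuous_iff_continuousAt.2 fun t => (d2 t).continuousAt
  have c3 : Continuous z3 := continuous_iff_continuousAt.2 fun t => (d3 t).continuousAt
  have hG' : ∀ t, G t = b1 * z1 t * z3 t ^ 2 + b2 * z2 t * z3 t ^ 2 + a1 * z1 t ^ 3
      + a2 * z1 t ^ 2 * z2 t + a3 * z1 t * z2 t ^ 2 := fun t => rfl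
  have cG : Continuous G := by
    rw [show G = _ from funext hG']
    fun_prop
  have hs0 : 0 < √(1 + u0 ^ 2) := sqrt_pos.2 (by positivity)
  have hs2 : √(1 + u0 ^ 2) ^ 2 = 1 + u0 ^ 2 := sq_sqrt (by positivity)
  have e1 : z1 0 = cos θ0 / √(1 + u0 ^ 2) := by simp only [hz1, h0, Pt]
  have e2 : z2 0 = sin θ0 / √(1 + u0 ^ 2) := by simp only [hz2, h0, Pt]
  have e3 : z3 0 = u0 / √(1 + u0 ^ 2) := by simp only [hz3, h0, Pt]
  have hN : ∀ t, z1 t ^ 2 + z2 t ^ 2 + z3 t ^ 2 - 1 = 0 := by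
    intro t
    have h1 := sphcore_lin (y := fun t => z1 t ^ 2 + z2 t ^ 2 + z3 t ^ 2 - 1)
      (c := fun t => 2 * z3 t * G t) (by fun_prop) (fun s =>
        (((((d1 s).pow 2).add ((d2 s).pow 2)).add ((d3 s).pow 2)).sub_const 1).congr_deriv
          (by simp only [Nat.cast_ofNat, Nat.add_one_sub_one, pow_one]; ring)) t
    have h2 : z1 0 ^ 2 + z2 0 ^ 2 + z3 0 ^ 2 - 1 = 0 := by
      rw [e1, e2, e3, div_pow, div_pow, div_pow, hs2]
      field_simp
      nlinarith [sin_sq_add_cos_sq θ0]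
    simp only [h2, zero_mul] at h1
    exact h1
  set θ : ℝ → ℝ := fun t => θ0 + ∫ x in (0 : ℝ)..t, z3 x ^ 2 with hθ
  have dθ : ∀ t, HasDerivAt θ (z3 t ^ 2) t := fun t =>
    (sphcore_prim (c := fun x => z3 x ^ 2) (by fun_prop) t).const_add θ0
  have θ0' : θ 0 = θ0 := by simp [hθ]
  set f1 : ℝ → ℝ := fun t => z1 t * cos (θ t) + z2 t * sin (θ t) with hf1
  set f2 : ℝ → ℝ := fun t => -z1 t * sin (θ t) + z2 t * cos (θ t) with hf2
  have df1 : ∀ t, HasDerivAt f1 (z3 t * G t * f1 t) t := fun t =>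
    (((d1 t).mul (dθ t).cos).add ((d2 t).mul (dθ t).sin)).congr_deriv (by simp only [hf1]; ring)
  have df2 : ∀ t, HasDerivAt f2 (z3 t * G t * f2 t) t := fun t =>
    (((d1 t).neg.mul (dθ t).sin).add ((d2 t).mul (dθ t).cos)).congr_deriv
      (by simp only [hf2, Pi.neg_apply]; ring)
  have hf10 : f1 0 = 1 / √(1 + u0 ^ 2) := by
    simp only [hf1, θ0', e1, e2]
    field_simp
    nlinarith [sin_sq_add_cos_sq θ0]
  have hf20 : f2 0 = 0 := by
    simp only [hf2, θ0', e1, e2]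
    ring
  have f1pos : ∀ t, 0 < f1 t := fun t => by
    rw [sphcore_lin (c := fun t => z3 t * G t) (by fun_prop) df1 t, hf10]
    positivity
  have f2z : ∀ t, f2 t = 0 := fun t => by
    rw [sphcore_lin (c := fun t => z3 t * G t) (by fun_prop) df2 t, hf20, zero_mul]
  have p1 : ∀ t, z1 t = f1 t * cos (θ t) := fun t => by
    have h1 := f2z t
    simp only [hf2] at h1
    simp only [hf1]
    linear_combination (-z1 t) * sin_sq_add_cos_sq (θ t) - sin (θ t) * h1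
  have p2 : ∀ t, z2 t = f1 t * sin (θ t) := fun t => by
    have h1 := f2z t
    simp only [hf2] at h1
    simp only [hf1]
    linear_combination (-z2 t) * sin_sq_add_cos_sq (θ t) + cos (θ t) * h1
  clear_value f1 f2
  set u : ℝ → ℝ := fun t => z3 t / f1 t with hu
  have p3 : ∀ t, z3 t = f1 t * u t := fun t => by
    have := (f1pos t).ne'
    simp only [hu]
    field_simp
  have q1 : ∀ t, f1 t ^ 2 * (1 + u t ^ 2) = 1 := fun t => by
    have h1 := hN t
    rw [p1, p2, p3] at h1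
    linear_combination h1 - f1 t ^ 2 * sin_sq_add_cos_sq (θ t)
  have q2 : ∀ t, f1 t = 1 / √(1 + u t ^ 2) := fun t => by
    have h1 : 0 < √(1 + u t ^ 2) := sqrt_pos.2 (by positivity)
    have h2 : √(1 + u t ^ 2) ^ 2 = 1 + u t ^ 2 := sq_sqrt (by positivity)
    have h3 : (f1 t * √(1 + u t ^ 2)) ^ 2 = 1 ^ 2 := by rw [mul_pow, h2, q1, one_pow]
    have h4 := (pow_left_inj₀ (mul_pos (f1pos t) h1).le zero_le_one two_ne_zero).1 h3
    rw [eq_div_iff h1.ne', h4]
  have q3 : ∀ t, f1 t ^ 2 = 1 / (1 + u t ^ 2) := fun t => by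
    rw [eq_div_iff (by positivity), q1]
  have u0' : u 0 = u0 := by
    simp only [hu, e3, hf10]
    field_simp
  have dθ' : ∀ t, HasDerivAt θ (u t ^ 2 / (1 + u t ^ 2)) t := fun t =>
    (dθ t).congr_deriv (by rw [p3, mul_pow, q3]; ring)
  have du : ∀ t, HasDerivAt u
      (-(Cub a1 a2 a3 0 (θ t) + Lin b1 b2 (θ t) * u t ^ 2) / (1 + u t ^ 2)) t := fun t => by
    refine ((d3 t).div (df1 t) (f1pos t).ne').congr_deriv ?_
    have h1 := (f1pos t).ne'
    have h2 : G t = f1 t ^ 3 * (Cub a1 a2 a3 0 (θ t) + Lin b1 b2 (θ t) * u t ^ 2) := by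
      rw [hG', p1, p2, p3]
      simp only [Cub, Lin]
      ring
    rw [div_eq_mul_one_div _ (1 + u t ^ 2), ← q3, h2]
    field_simp
    ring
  have hred := sphcore_red (A := Cub a1 a2 a3 0) (B := Lin b1 b2)
    (by unfold Cub; fun_prop) (by unfold Lin; fun_prop) dθ' du (by rw [θ0', u0']; exact hns)
  refine ⟨θ, u, θ0', u0', hred.2, fun t => ?_, hred.1, dθ', du⟩
  refine Prod.ext ?_ (Prod.ext ?_ ?_)
  · change z1 t = cos (θ t) / √(1 + u t ^ 2)
    rw [p1, q2]; ring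
  · change z2 t = sin (θ t) / √(1 + u t ^ 2)
    rw [p2, q2]; ring
  · change z3 t = u t / √(1 + u t ^ 2)
    rw [p3 t]
    nth_rewrite 1 [q2 t]
    ring

end Pool.Agent.MP_c2f0e4_an

end

section

open Set Filter Topology Real Asymptotics

namespace Pool.Agent.MP_c2f0e4_an

lemma ratio_est {φ θ g w : ℝ → ℝ} (hθ : ∀ t, HasDerivAt θ (w t) t) (hw : ∀ t, 0 ≤ w t)
    (hφ : ∀ t, HasDerivAt φ (g t * w t) t) {k ε a b : ℝ} (hab : a ≤ b)
    (hg : ∀ t ∈ Ioo a b, |g t - k| ≤ ε) :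
    |φ b - φ a - k * (θ b - θ a)| ≤ ε * (θ b - θ a) := by
  have hd : ∀ c t, HasDerivAt (fun t => φ t - c * θ t) ((g t - c) * w t) t := fun c t =>
    ((hφ t).sub ((hθ t).const_mul c)).congr_deriv (by ring)
  have hc : ∀ c, ContinuousOn (fun t => φ t - c * θ t) (Icc a b) := fun c t _ =>
    (hd c t).continuousAt.continuousWithinAt
  have h1 := sub_le_of_deriv_le (c := 0) Set.finite_empty hab (hc (k + ε)) fun t ht _ =>
    ⟨_, hd _ t, mul_nonpos_of_nonpos_of_nonneg (by linarith [(abs_le.1 (hg t ht)).2]) (hw t)⟩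
  have h2 := le_sub_of_le_deriv (c := 0) Set.finite_empty hab (hc (k - ε)) fun t ht _ =>
    ⟨_, hd _ t, mul_nonneg (by linarith [(abs_le.1 (hg t ht)).1]) (hw t)⟩
  rw [abs_le]
  constructor <;> nlinarith

lemma ratio_ev {φ θ g w : ℝ → ℝ} (hθ : ∀ t, HasDerivAt θ (w t) t) (hw : ∀ t, 0 ≤ w t)
    (hφ : ∀ t, HasDerivAt φ (g t * w t) t) (hg : Continuous g) (t0 : ℝ) {ε : ℝ} (hε : 0 < ε) :
    ∀ᶠ t in 𝓝 t0, |φ t - φ t0 - g t0 * (θ t - θ t0)| ≤ ε * |θ t - θ t0| := by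
  obtain ⟨δ, hδ, hb⟩ := Metric.continuousAt_iff.1 (hg.continuousAt (x := t0)) ε hε
  filter_upwards [Metric.ball_mem_nhds t0 hδ] with t ht
  rw [Metric.mem_ball, Real.dist_eq, abs_lt] at ht
  have key : ∀ s, |s - t0| < δ → |g s - g t0| ≤ ε := fun s hs => (hb hs).le
  rcases le_total t0 t with h | h
  · refine (ratio_est hθ hw hφ h fun s hs => key s ?_).trans
      (mul_le_mul_of_nonneg_left (le_abs_self _) hε.le)
    rw [abs_lt]; constructor <;> linarith [hs.1, hs.2]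
  · have h1 := ratio_est hθ hw hφ (k := g t0) (ε := ε) h fun s hs => key s (by
      rw [abs_lt]; constructor <;> linarith [hs.1, hs.2])
    have h2 : φ t - φ t0 - g t0 * (θ t - θ t0) = -(φ t0 - φ t - g t0 * (θ t0 - θ t)) := by ring
    rw [h2, abs_neg, abs_sub_comm (θ t)]
    exact h1.trans (mul_le_mul_of_nonneg_left (le_abs_self _) hε.le)

theorem ratioS : RatioStmt := by
  intro A B θ u hA hB hmono hsurj hθ hu
  set e := hmono.orderIsoOfSurjective θ hsurj with he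
  have he1 : ∀ t, e.symm (θ t) = t := fun t => e.symm_apply_apply t
  have he2 : ∀ x, θ (e.symm x) = x := fun x => e.apply_symm_apply x
  have hec : Continuous e.symm := e.symm.continuous
  have huc : Continuous u := continuous_iff_continuousAt.2 fun t => (hu t).continuousAt
  have hθc : Continuous θ := continuous_iff_continuousAt.2 fun t => (hθ t).continuousAt
  refine ⟨fun x => u (e.symm x), ⟨huc.comp hec, fun x => ?_⟩, fun t => by simp only [he1]⟩
  have hφ : ∀ t, HasDerivAt (fun t => u t ^ 3)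
      ((-3 * (A (θ t) + B (θ t) * u t ^ 2)) * (u t ^ 2 / (1 + u t ^ 2))) t := fun t =>
    ((hu t).pow 3).congr_deriv (by push_cast; ring)
  have hg : Continuous fun t => -3 * (A (θ t) + B (θ t) * u t ^ 2) := by fun_prop
  rw [hasDerivAt_iff_isLittleO, isLittleO_iff]
  intro ε hε
  have h1 := ratio_ev hθ (fun t => by positivity) hφ hg (e.symm x) hε
  filter_upwards [hec.continuousAt.eventually h1] with y hy
  simp only [he2] at hy
  rw [Real.norm_eq_abs, Real.norm_eq_abs, smul_eq_mul, mul_comm (y - x)]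
  exact hy

end Pool.Agent.MP_c2f0e4_an

end

section

open Set Filter Topology Real Asymptotics

namespace Pool.Agent.MP_c2f0e4_an

lemma sph_not_eq {b1 b2 a1 a2 a3 : ℝ} {z : ℝ × ℝ × ℝ} (h : OnCycle (fieldS b1 b2 a1 a2 a3) z) :
    fieldS b1 b2 a1 a2 a3 z ≠ 0 := by
  intro h0
  obtain ⟨γ, hγ, hz, -, t, ht⟩ := h
  have hX : ContDiff ℝ 1 (fieldS b1 b2 a1 a2 a3) := by
    unfold fieldS polyG
    fun_prop
  have := Pool.Agent.MP_402458_gt.ode_unique hX (β := fun _ => z) hγ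
    (fun s => by rw [h0]; exact hasDerivAt_const s z) hz
  exact ht (congrFun this t)

lemma sph_sqrt_pos (u : ℝ) : 0 < √(1 + u ^ 2) := Real.sqrt_pos.2 (by positivity)

lemma sph_mem (θ u : ℝ) : Pt θ u ∈ sph := by
  have h1 := sph_sqrt_pos u
  have h2 : √(1 + u ^ 2) ^ 2 = 1 + u ^ 2 := Real.sq_sqrt (by positivity)
  have h3 := cos_sq_add_sin_sq θ
  simp only [sph, Pt, mem_ofPred_eq, div_pow, h2]
  field_simp
  linarith

lemma sph_inj {θ u θ' u' : ℝ} (h : Pt θ u = Pt θ' u') :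
    u = u' ∧ cos θ = cos θ' ∧ sin θ = sin θ' := by
  have h1 := sph_sqrt_pos u
  have h2 := sph_sqrt_pos u'
  simp only [Pt, Prod.mk.injEq] at h
  obtain ⟨e1, e2, e3⟩ := h
  set s := √(1 + u ^ 2)
  set s' := √(1 + u' ^ 2)
  have f1 := (div_eq_div_iff h1.ne' h2.ne').1 e1
  have f2 := (div_eq_div_iff h1.ne' h2.ne').1 e2
  have h3 := cos_sq_add_sin_sq θ
  have h4 := cos_sq_add_sin_sq θ'
  have e : s' ^ 2 = s ^ 2 := by
    calc s' ^ 2 = (cos θ * s') ^ 2 + (sin θ * s') ^ 2 := by linear_combination (-s' ^ 2) * h3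
      _ = s ^ 2 := by rw [f1, f2]; linear_combination (s ^ 2) * h4
  have e' : s' = s := (pow_left_inj₀ h2.le h1.le two_ne_zero).1 e
  rw [e'] at e1 e2 e3
  exact ⟨(div_left_inj' h1.ne').1 e3, (div_left_inj' h1.ne').1 e1, (div_left_inj' h1.ne').1 e2⟩

lemma sph_polar {z : ℝ × ℝ × ℝ} (hz : z ∈ sph) (h0 : ¬ (z.1 = 0 ∧ z.2.1 = 0)) :
    ∃ θ u, z = Pt θ u := by
  obtain ⟨x, y, w⟩ := z
  simp only [sph, mem_ofPred_eq] at hz h0
  let c : ℂ := ⟨x, y⟩
  have hc : c ≠ 0 := fun e => h0 ⟨congrArg Complex.re e, congrArg Complex.im e⟩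
  have hr : 0 < ‖c‖ := norm_pos_iff.2 hc
  have hr2 : ‖c‖ ^ 2 = x ^ 2 + y ^ 2 := by
    rw [Complex.sq_norm, Complex.normSq_apply]
    ring
  have hs : √(1 + (w / ‖c‖) ^ 2) = 1 / ‖c‖ := by
    rw [Real.sqrt_eq_iff_mul_self_eq (by positivity) (by positivity)]
    field_simp
    linarith
  refine ⟨c.arg, w / ‖c‖, ?_⟩
  simp only [Pt, hs, Complex.cos_arg hc, Complex.sin_arg, Prod.mk.injEq]
  refine ⟨?_, ?_, ?_⟩ <;> field_simp <;> rfl

lemma sph_good {b1 b2 a1 a2 a3 θ u : ℝ} (h : OnCycle (fieldS b1 b2 a1 a2 a3) (Pt θ u))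
    (hA : Cub a1 a2 a3 0 θ = 0) : u ≠ 0 := by
  rintro rfl
  apply sph_not_eq h
  simp only [Cub] at hA
  simp only [fieldS, polyG, Pt, Prod.mk_eq_zero]
  norm_num
  linarith

lemma sph_one (hSphCore : SphCoreStmt) (hRatio : RatioStmt) (hMul : MulStmt)
    {b1 b2 a1 a2 a3 θ0 u0 : ℝ} (h : OnCycle (fieldS b1 b2 a1 a2 a3) (Pt θ0 u0)) :
    ∃ U, GP (Cub a1 a2 a3 0) (Lin b1 b2) U ∧ U θ0 = u0 := by
  have hg := sph_good h
  obtain ⟨γ, hγ, hz, ⟨T, hT, hper⟩, -⟩ := h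
  obtain ⟨θ, u, t0, v0, hmono, hpt, hgood, hθ, hu⟩ :=
    hSphCore b1 b2 a1 a2 a3 γ θ0 u0 hγ hz hg
  have hinj : ∀ t, u (t + T) = u t ∧ cos (θ (t + T)) = cos (θ t) ∧ sin (θ (t + T)) = sin (θ t) :=
    fun t => sph_inj (by rw [← hpt, ← hpt, hper])
  have hd : ∀ t, HasDerivAt (fun s => θ (s + T) - θ s) 0 t := fun t => by
    have h1 := ((hθ (t + T)).comp_add_const t T).sub (hθ t)
    rw [(hinj t).1, sub_self] at h1
    exact h1
  set w := θ (0 + T) - θ 0 with hw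
  have hc : ∀ t, θ (t + T) - θ t = w := fun t =>
    is_const_of_deriv_eq_zero (f := fun s => θ (s + T) - θ s)
      (fun s => (hd s).differentiableAt) (fun s => (hd s).deriv) t 0
  have hw0 : 0 < w := sub_pos.2 (hmono (by linarith))
  have hcos : cos w = 1 := by
    rw [hw, cos_sub, (hinj 0).2.1, (hinj 0).2.2]
    linear_combination cos_sq_add_sin_sq (θ 0)
  obtain ⟨n, hn⟩ := (Real.cos_eq_one_iff w).1 hcos
  have hn0 : 0 < n := by
    have : (0 : ℝ) < n := by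
      rw [← hn] at hw0
      exact (mul_pos_iff_of_pos_right (by positivity)).1 hw0
    exact_mod_cast this
  obtain ⟨m, rfl⟩ := Int.eq_ofNat_of_zero_le hn0.le
  have hm0 : 0 < m := by exact_mod_cast hn0
  have hm : (m : ℝ) * (2 * π) = w := by exact_mod_cast hn
  have hgp : Function.Periodic (fun t => θ t - w / T * t) T := fun t => by
    have := hc t
    simp only [mul_add, div_mul_cancel₀ w hT.ne']
    linarith
  have hk : ∀ k : ℤ, θ (k * T) = θ 0 + k * w := fun k => by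
    have := hgp.int_mul_eq k
    simp only [mul_zero, sub_zero] at this
    have e : w / T * (k * T) = k * w := by field_simp
    linarith
  have hcont : Continuous θ := continuous_iff_continuousAt.2 fun t => (hθ t).continuousAt
  have hsurj : Function.Surjective θ := by
    refine hcont.surjective (tendsto_atTop_atTop_of_monotone hmono.monotone fun b => ?_)
      (tendsto_atBot_atBot_of_monotone hmono.monotone fun b => ?_)
    · refine ⟨(⌈(b - θ 0) / w⌉ : ℤ) * T, ?_⟩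
      rw [hk]
      have := (div_le_iff₀ hw0).1 (Int.le_ceil ((b - θ 0) / w))
      linarith
    · refine ⟨(⌊(b - θ 0) / w⌋ : ℤ) * T, ?_⟩
      rw [hk]
      have := (le_div_iff₀ hw0).1 (Int.floor_le ((b - θ 0) / w))
      linarith
  have hs := sys_cub a1 a2 a3 0 b1 b2
  obtain ⟨U, hU, hUθ⟩ := hRatio _ _ θ u hs.anA.continuous hs.anB.continuous hmono hsurj hθ hu
  refine ⟨U, hMul _ _ U hs hU (fun x _ hx => ?_) m hm0 fun x => ?_, by rw [← t0, hUθ, v0]⟩
  · obtain ⟨t, rfl⟩ := hsurj x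
    rw [hUθ]
    exact hgood t hx
  · obtain ⟨t, rfl⟩ := hsurj x
    rw [hm, ← hc t, add_sub_cancel, hUθ, hUθ, (hinj t).1]

theorem sphS (hSphCore : SphCoreStmt) (hRatio : RatioStmt) (hMul : MulStmt) : SphStmt := by
  intro b1 b2 a1 a2 a3 O hO ⟨z, hz⟩ hcyc
  have hpole : ¬ (z.1 = 0 ∧ z.2.1 = 0) := by
    rintro ⟨h1, h2⟩
    apply sph_not_eq (hcyc z hz)
    have h3 : z.1 ^ 2 + z.2.1 ^ 2 + z.2.2 ^ 2 = 1 := hz.2
    rw [h1, h2] at h3
    have h4 : z.2.2 ^ 2 - 1 = 0 := by linarith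
    simp only [fieldS, h1, h2, h4, Prod.mk_eq_zero]
    norm_num
  obtain ⟨θ0, u0, rfl⟩ := sph_polar hz.2 hpole
  have hcont : Continuous (Pt θ0) := by
    unfold Pt
    refine Continuous.prodMk ?_ (Continuous.prodMk ?_ ?_) <;>
      exact Continuous.div (by fun_prop) (by fun_prop) fun u => (sph_sqrt_pos u).ne'
  obtain ⟨p, q, hpq, hsub⟩ := mem_nhds_iff_exists_Ioo_subset.1
    ((hO.preimage hcont).mem_nhds (show u0 ∈ Pt θ0 ⁻¹' O from hz.1))
  exact ⟨θ0, p, q, hpq.1.trans hpq.2, fun u hu =>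
    sph_one hSphCore hRatio hMul (hcyc _ ⟨hsub hu, sph_mem _ _⟩)⟩

end Pool.Agent.MP_c2f0e4_an

end

section

open Set Filter Topology Real Asymptotics

namespace Pool.Agent.MP_c2f0e4_an

lemma chi_den_pos {x c s : ℝ} (hs : s = 1 ∨ s = -1) (hc : c ^ 3 = x ^ 3 + s) :
    0 < x ^ 2 + x * c + c ^ 2 := by
  by_contra h
  have h1 : x = 0 := by nlinarith [sq_nonneg (x + c), sq_nonneg x, sq_nonneg c]
  have h2 : c = 0 := by nlinarith [sq_nonneg (x + c), sq_nonneg x, sq_nonneg c]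
  rw [h1, h2] at hc
  rcases hs with rfl | rfl <;> norm_num at hc

lemma chi_alg {x c s : ℝ} (hs : s = 1 ∨ s = -1) (hc : c ^ 3 = x ^ 3 + s) (hx : 4 ≤ x) :
    |x * (x + c) / (x ^ 2 + x * c + c ^ 2) - 2 / 3| * x ^ 3 ≤ 4 ∧
      |x ^ 3 * (x * (x + c) / (x ^ 2 + x * c + c ^ 2) - 2 / 3) - -s / 9| * x ^ 3 ≤ 4 := by
  have hN := chi_den_pos hs hc
  have hx0 : 0 < x := by linarith
  have hx3 : 64 ≤ x ^ 3 := by
    have := pow_le_pow_left₀ (by norm_num : (0 : ℝ) ≤ 4) hx 3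
    linarith
  have hs1 : -1 ≤ s ∧ s ≤ 1 := by rcases hs with rfl | rfl <;> norm_num
  have hs2 : s * s = 1 := by rcases hs with rfl | rfl <;> norm_num
  have habs : |s| = 1 := by rcases hs with rfl | rfl <;> norm_num
  have hc0 : 0 ≤ c := cube_le.1 (by rw [hc]; linarith [hs1.1])
  have hc2 : c ≤ 2 * x := cube_le.1 (by rw [hc, mul_pow]; linarith [hs1.2])
  set N := x ^ 2 + x * c + c ^ 2 with hNdef
  have hNx : x ^ 2 ≤ N := by rw [hNdef]; nlinarith [mul_nonneg hx0.le hc0, sq_nonneg c]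
  have hd : c - x = s / N := by
    rw [eq_div_iff hN.ne', hNdef]; linarith
  have h1 : x * (x + c) / N - 2 / 3 = -s * ((x + 2 * c) / (3 * N ^ 2)) := by
    have : x * (x + c) / N - 2 / 3 = -(c - x) * (x + 2 * c) / (3 * N) := by
      field_simp
      rw [hNdef]; ring
    rw [this, hd]; field_simp
  have h2 : x ^ 3 * (-s * ((x + 2 * c) / (3 * N ^ 2))) - -s / 9 =
      (c ^ 3 + 3 * c ^ 2 * x + 6 * c * x ^ 2 + 2 * x ^ 3) / (9 * N ^ 3) := by
    have : x ^ 3 * (-s * ((x + 2 * c) / (3 * N ^ 2))) - -s / 9 =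
        s * ((c - x) * (c ^ 3 + 3 * c ^ 2 * x + 6 * c * x ^ 2 + 2 * x ^ 3)) / (9 * N ^ 2) := by
      field_simp
      rw [hNdef]; ring
    rw [this, hd]
    field_simp
    rw [sq, hs2]
  rw [h1, h2]
  constructor
  · rw [abs_mul, abs_neg, habs, one_mul, abs_of_nonneg (by positivity), div_mul_eq_mul_div,
      div_le_iff₀ (by positivity)]
    have h3 : (x ^ 2) ^ 2 ≤ N ^ 2 := pow_le_pow_left₀ (by positivity) hNx 2
    have h4 : (x + 2 * c) * x ^ 3 ≤ 5 * x * x ^ 3 :=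
      mul_le_mul_of_nonneg_right (by linarith) (by positivity)
    have h5 : 0 ≤ x ^ 4 := by positivity
    nlinarith
  · rw [abs_of_nonneg (by positivity), div_mul_eq_mul_div, div_le_iff₀ (by positivity)]
    have h3 : (x ^ 2) ^ 3 ≤ N ^ 3 := pow_le_pow_left₀ (by positivity) hNx 3
    have h4 : c ^ 3 ≤ (2 * x) ^ 3 := pow_le_pow_left₀ hc0 hc2 3
    have h5 : c ^ 2 * x ≤ (2 * x) ^ 2 * x :=
      mul_le_mul_of_nonneg_right (pow_le_pow_left₀ hc0 hc2 2) hx0.le
    have h6 : c * x ^ 2 ≤ 2 * x * x ^ 2 := mul_le_mul_of_nonneg_right hc2 (by positivity)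
    have h7 : (c ^ 3 + 3 * c ^ 2 * x + 6 * c * x ^ 2 + 2 * x ^ 3) * x ^ 3 ≤ 34 * x ^ 3 * x ^ 3 :=
      mul_le_mul_of_nonneg_right (by nlinarith) (by positivity)
    have h8 : 0 ≤ x ^ 6 := by positivity
    nlinarith

lemma chi_cube (s ρ : ℝ) : cb (ρ ^ 6 + s) ^ 3 = (ρ ^ 2) ^ 3 + s := by rw [cb_pow]; ring

lemma chi_eq (s ρ : ℝ) : chi s ρ = ρ ^ 2 * (ρ ^ 2 + cb (ρ ^ 6 + s)) /
    ((ρ ^ 2) ^ 2 + ρ ^ 2 * cb (ρ ^ 6 + s) + cb (ρ ^ 6 + s) ^ 2) - 2 / 3 := by
  rw [chi, ← pow_mul]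

lemma chi_cont {s : ℝ} (hs : s = 1 ∨ s = -1) : Continuous (chi s) := by
  have h1 : Continuous fun ρ : ℝ => cb (ρ ^ 6 + s) := cb_continuous.comp (by fun_prop)
  rw [show chi s = _ from funext (chi_eq s)]
  refine Continuous.sub (Continuous.div (by fun_prop) (by fun_prop) fun ρ => ?_) continuous_const
  exact (chi_den_pos hs (chi_cube s ρ)).ne'

lemma chi_bd {f : ℝ → ℝ} (hf : Continuous f) (h : ∀ ρ, 2 ≤ |ρ| → |f ρ| * ρ ^ 6 ≤ 4) :
    ∃ C : ℝ, ∀ ρ, |f ρ| * (1 + |ρ|) ^ 6 ≤ C := by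
  obtain ⟨C, hC⟩ := (isCompact_Icc (a := (-2 : ℝ)) (b := 2)).exists_bound_of_continuousOn
    (f := fun ρ => |f ρ| * (1 + |ρ|) ^ 6) (by fun_prop)
  refine ⟨max C 256, fun ρ => ?_⟩
  rcases le_total |ρ| 2 with h1 | h1
  · exact ((le_abs_self _).trans (hC ρ (abs_le.1 h1))).trans (le_max_left _ _)
  · refine le_trans ?_ (le_max_right _ _)
    have h2 : (1 + |ρ|) ^ 6 ≤ (2 * |ρ|) ^ 6 := pow_le_pow_left₀ (by positivity) (by linarith) 6
    rw [mul_pow, Even.pow_abs (by decide)] at h2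
    have h3 := mul_le_mul_of_nonneg_left h2 (abs_nonneg (f ρ))
    have h4 := h ρ h1
    nlinarith

theorem chiS : ChiStmt := by
  intro s hs
  have hc := chi_cont hs
  have key : ∀ ρ : ℝ, 2 ≤ |ρ| →
      |chi s ρ| * ρ ^ 6 ≤ 4 ∧ |ρ ^ 6 * chi s ρ - -s / 9| * ρ ^ 6 ≤ 4 := by
    intro ρ hρ
    have h1 : 4 ≤ ρ ^ 2 := by
      rw [← sq_abs]; nlinarith
    have h2 := chi_alg hs (chi_cube s ρ) h1
    rw [← chi_eq, ← pow_mul] at h2
    exact h2
  refine ⟨hc, fun ρ => ?_, ?_⟩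
  · simp only [chi, Even.neg_pow (show Even 2 by decide), Even.neg_pow (show Even 4 by decide),
      Even.neg_pow (show Even 6 by decide)]
  · obtain ⟨C1, h1⟩ := chi_bd hc fun ρ hρ => (key ρ hρ).1
    obtain ⟨C2, h2⟩ := chi_bd (f := fun ρ => ρ ^ 6 * chi s ρ - -s / 9) (by fun_prop)
      fun ρ hρ => (key ρ hρ).2
    exact ⟨max C1 C2, fun ρ => ⟨(h1 ρ).trans (le_max_left _ _), (h2 ρ).trans (le_max_right _ _)⟩⟩

end Pool.Agent.MP_c2f0e4_an

end

section

open Set Filter Topology Real Asymptotics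

namespace Pool.Agent.MP_c2f0e4_an

open MeasureTheory in
lemma chiint_int {f : ℝ → ℝ} (hf : Continuous f) (C : ℝ) (h : ∀ r, |f r| * (1 + |r|) ^ 6 ≤ C) :
    Integrable f := by
  refine (integrable_inv_one_add_sq.const_mul C).mono' hf.aestronglyMeasurable
    (Eventually.of_forall fun r => ?_)
  have h1 : 1 + r ^ 2 ≤ (1 + |r|) ^ 6 := by
    have h2 := abs_nonneg r
    calc 1 + r ^ 2 ≤ (1 + |r|) ^ 2 := by rw [← sq_abs r]; nlinarith
      _ ≤ (1 + |r|) ^ 6 := pow_le_pow_right₀ (by linarith) (by norm_num)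
  rw [Real.norm_eq_abs, ← div_eq_mul_inv, le_div_iff₀ (by positivity)]
  exact (mul_le_mul_of_nonneg_left h1 (abs_nonneg _)).trans (h r)

open MeasureTheory in
lemma chiint_bound {f : ℝ → ℝ} (hf : Integrable f) (he : ∀ r, f (-r) = f r) (a A B C : ℝ)
    (h0 : 0 ≤ a) (ha : a ≤ 1) (h1 : ∀ r ∈ Icc 0 a, f r ≤ A) (h2 : ∀ r ∈ Icc a 1, f r ≤ B)
    (h3 : ∀ r, 1 < r → f r * r ^ 6 ≤ C) : ∫ r, f r ≤ 2 * (a * A + (1 - a) * B + C / 5) := by
  have e0 : ∫ r, f r = 2 * ∫ r in Ioi (0 : ℝ), f r := by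
    rw [← integral_comp_abs]
    refine integral_congr_ae (Eventually.of_forall fun r => ?_)
    rcases abs_choice r with h | h <;> simp only [h, he]
  have e1 := intervalIntegral.integral_interval_add_Ioi (a := 0) (b := 1) (μ := volume)
    hf.integrableOn hf.integrableOn
  have e2 := intervalIntegral.integral_add_adjacent_intervals (a := 0) (b := a) (c := 1)
    hf.intervalIntegrable hf.intervalIntegrable
  have e3 := intervalIntegral.integral_mono_on h0 hf.intervalIntegrable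
    intervalIntegrable_const h1
  have e4 := intervalIntegral.integral_mono_on ha hf.intervalIntegrable
    intervalIntegrable_const h2
  have e5 : ∫ r in Ioi (1 : ℝ), f r ≤ ∫ r in Ioi (1 : ℝ), C * r ^ (-6 : ℝ) := by
    refine setIntegral_mono_on hf.integrableOn
      ((integrableOn_Ioi_rpow_of_lt (by norm_num) one_pos).const_mul C) measurableSet_Ioi
      fun r hr => ?_
    have hr0 : 0 < r := one_pos.trans hr
    rw [Real.rpow_neg hr0.le, ← div_eq_mul_inv, le_div_iff₀ (by positivity),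
      show (6 : ℝ) = ((6 : ℕ) : ℝ) by norm_num, Real.rpow_natCast]
    exact h3 r hr
  rw [integral_const_mul, integral_Ioi_rpow_of_lt (by norm_num) one_pos, Real.one_rpow] at e5
  simp only [intervalIntegral.integral_const, smul_eq_mul] at e3 e4
  linarith

lemma chiint_N {R c : ℝ} (h : c ^ 3 ≠ R ^ 3) : 0 < R ^ 2 + R * c + c ^ 2 := by
  rcases eq_or_ne c 0 with rfl | hc
  · have : R ≠ 0 := by rintro rfl; exact h rfl
    have := sq_pos_of_ne_zero this
    linarith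
  · have := sq_pos_of_ne_zero hc
    nlinarith [sq_nonneg (R + c / 2)]

lemma chiint_form (s r : ℝ) : ∃ R c : ℝ, R = r ^ 2 ∧ c ^ 3 = R ^ 3 + s ∧ r ^ 6 = R ^ 3 ∧
    chi s r = R * (R + c) / (R ^ 2 + R * c + c ^ 2) - 2 / 3 := by
  refine ⟨r ^ 2, cb (r ^ 6 + s), rfl, by rw [cb_pow]; ring, by ring, ?_⟩
  rw [chi, show (r ^ 2) ^ 2 = r ^ 4 by ring]

lemma chiint_one (r : ℝ) : chi 1 r < 0 ∧ 0 < r ^ 6 * chi 1 r - -1 / 9 := by
  obtain ⟨R, c, hR, hc, h6, e⟩ := chiint_form 1 r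
  have hR0 : 0 ≤ R := by rw [hR]; positivity
  have hN := chiint_N (R := R) (c := c) (by linarith)
  have h1 : R < c := cube_lt.1 (by linarith)
  have h2 : 0 < c - R := by linarith
  have h3 : 0 < c := by linarith
  rw [h6, e]
  constructor
  · rw [sub_neg, div_lt_iff₀ hN]
    nlinarith
  · have e1 : R ^ 3 * (R * (R + c) / (R ^ 2 + R * c + c ^ 2) - 2 / 3) - -(c ^ 3 - R ^ 3) / 9 =
        (c - R) ^ 2 * (c ^ 3 + 3 * c ^ 2 * R + 6 * c * R ^ 2 + 2 * R ^ 3) /
          (9 * (R ^ 2 + R * c + c ^ 2)) := by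
      field_simp
      ring
    rw [show c ^ 3 - R ^ 3 = 1 by linarith] at e1
    rw [e1]
    positivity

lemma chiint_a {r : ℝ} (hr : r ∈ Icc (0 : ℝ) (89 / 100)) : chi (-1) r ≤ -2 / 3 := by
  obtain ⟨R, c, hR, hc, h6, e⟩ := chiint_form (-1) r
  have hR0 : 0 ≤ R := by rw [hR]; positivity
  have hN := chiint_N (R := R) (c := c) (by linarith)
  have h1 : r ^ 6 ≤ (89 / 100) ^ 6 := pow_le_pow_left₀ hr.1 hr.2 6
  have h2 : c ≤ -R := cube_le.1 (by nlinarith)
  have h3 : R * (R + c) / (R ^ 2 + R * c + c ^ 2) ≤ 0 :=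
    div_nonpos_of_nonpos_of_nonneg (by nlinarith) hN.le
  linarith

lemma chiint_b (r : ℝ) : chi (-1) r ≤ 1 / 3 := by
  obtain ⟨R, c, hR, hc, h6, e⟩ := chiint_form (-1) r
  have hN := chiint_N (R := R) (c := c) (by linarith)
  have h3 : R * (R + c) / (R ^ 2 + R * c + c ^ 2) ≤ 1 := by
    rw [div_le_one hN]; nlinarith
  linarith

lemma chiint_c {r : ℝ} (hr : 1 < r) :
    chi (-1) r * r ^ 6 ≤ 1 / 3 ∧ (r ^ 6 * chi (-1) r - - -1 / 9) * r ^ 6 ≤ 2 / 9 := by
  obtain ⟨R, c, hR, hc, h6, e⟩ := chiint_form (-1) r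
  have hR0 : 0 ≤ R := by rw [hR]; positivity
  have hN := chiint_N (R := R) (c := c) (by linarith)
  have h1 : 1 ≤ r ^ 6 := one_le_pow₀ hr.le
  have h2 : 0 ≤ c := cube_le.1 (by linarith)
  have h4 : (R - c) * (R ^ 2 + R * c + c ^ 2) = 1 := by linarith
  set N := R ^ 2 + R * c + c ^ 2 with hNd
  have h5 : R - c = 1 / N := by rw [eq_div_iff hN.ne']; exact h4
  have e1 : R * (R + c) / N - 2 / 3 = (R - c) * (R + 2 * c) / (3 * N) := by
    field_simp
    rw [hNd]; ring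
  have e2 : R ^ 3 * (R * (R + c) / N - 2 / 3) - (R - c) * N / 9 =
      (R - c) ^ 2 * (c ^ 3 + 3 * c ^ 2 * R + 6 * c * R ^ 2 + 2 * R ^ 3) / (9 * N) := by
    field_simp
    rw [hNd]; ring
  rw [h4, h5] at e2
  rw [h6, e, neg_neg, e2, e1, h5]
  constructor
  · have e3 : 1 / N * (R + 2 * c) / (3 * N) * R ^ 3 = (R + 2 * c) * R ^ 3 / (3 * N ^ 2) := by
      field_simp
    rw [e3, div_le_iff₀ (by positivity), hNd]
    have : 0 ≤ 3 * R ^ 2 * c ^ 2 + 2 * R * c ^ 3 + c ^ 4 := by positivity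
    nlinarith
  · have e3 : (1 / N) ^ 2 * (c ^ 3 + 3 * c ^ 2 * R + 6 * c * R ^ 2 + 2 * R ^ 3) / (9 * N) * R ^ 3 =
        (c ^ 3 + 3 * c ^ 2 * R + 6 * c * R ^ 2 + 2 * R ^ 3) * R ^ 3 / (9 * N ^ 3) := by
      field_simp
    rw [e3, div_le_iff₀ (by positivity), hNd]
    have : 0 ≤ 9 * R ^ 4 * c ^ 2 + 13 * R ^ 3 * c ^ 3 + 12 * R ^ 2 * c ^ 4 + 6 * R * c ^ 5 +
      2 * c ^ 6 := by positivity
    nlinarith

theorem chiIntS (hChi : ChiStmt) : ChiIntStmt := by
  intro s hs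
  obtain ⟨hc, he, C, hC⟩ := hChi s hs
  have hc2 : Continuous fun ρ => ρ ^ 6 * chi s ρ - -s / 9 := by fun_prop
  have i1 := chiint_int hc C fun r => (hC r).1
  have i2 := chiint_int hc2 C fun r => (hC r).2
  rcases hs with rfl | rfl
  · constructor
    · have := MeasureTheory.integral_pos_of_integrable_nonneg_nonzero (x := 0) hc.neg i1.neg
        (fun r => by simpa using (chiint_one r).1.le) (by simpa using (chiint_one 0).1.ne)
      simp only [Pi.neg_apply, MeasureTheory.integral_neg] at this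
      linarith
    · exact (MeasureTheory.integral_pos_of_integrable_nonneg_nonzero (x := 0) hc2 i2
        (fun r => (chiint_one r).2.le) (chiint_one 0).2.ne').ne'
  · constructor
    · have := chiint_bound i1 he (89 / 100) _ _ _ (by norm_num) (by norm_num)
        (fun r hr => chiint_a hr) (fun r _ => chiint_b r) fun r hr => (chiint_c hr).1
      linarith
    · have := chiint_bound i2 (fun r => by rw [he]; ring) (89 / 100) (-1 / 9) (2 / 9) _
        (by norm_num) (by norm_num) (fun r hr => ?_) (fun r hr => ?_) fun r hr => (chiint_c hr).2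
      · exact (show _ < _ by linarith).ne
      · have h1 := chiint_a hr
        have h2 : 0 ≤ r ^ 6 := by positivity
        nlinarith
      · have h1 := chiint_b r
        have h2 : 0 ≤ r ^ 6 := by positivity
        have h3 : r ^ 6 ≤ 1 := pow_le_one₀ (by linarith [hr.1]) hr.2
        nlinarith

end Pool.Agent.MP_c2f0e4_an

end

section

open Set Filter Topology Real Asymptotics

namespace Pool.Agent.MP_c2f0e4_an

lemma tr_pos {f : ℝ → ℝ} {f' : ℝ} (hf : HasDerivAt f f' 0) (h0 : f 0 = 0) (hne : f' ≠ 0)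
    {s : ℕ → ℝ} (hs : Tendsto s atTop (𝓝 0)) (hp : ∀ n, 0 < s n)
    (hfp : ∀ᶠ n in atTop, 0 < f (s n)) : 0 < f' := by
  have h1 : Tendsto s atTop (𝓝[≠] 0) :=
    tendsto_nhdsWithin_iff.2 ⟨hs, Eventually.of_forall fun n => (hp n).ne'⟩
  have h2 := (hasDerivAt_iff_tendsto_slope.1 hf).comp h1
  refine lt_of_le_of_ne (ge_of_tendsto h2 ?_) hne.symm
  filter_upwards [hfp] with n hn
  rw [Function.comp_apply, slope_def_field, h0, sub_zero, sub_zero]
  exact (div_pos hn (hp n)).le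

lemma tr_two {f : ℝ → ℝ} (hf : AnalyticAt ℝ f 0) :
    ∃ G : ℝ → ℝ, AnalyticAt ℝ G 0 ∧ ∀ z, f z = f 0 + z * deriv f 0 + z ^ 2 * G z := by
  obtain ⟨G, hG, h⟩ := hf.exists_eq_sum_add_pow_mul 2
  refine ⟨G, hG, fun z => ?_⟩
  rw [h z]
  simp [Finset.sum_range_succ]

lemma tr_asy {f : ℝ → ℝ} (hf : AnalyticAt ℝ f 0) (h0 : f 0 = 0) (hd : 0 < deriv f 0)
    {s t : ℕ → ℝ} (hs : Tendsto s atTop (𝓝 0)) (hp : ∀ n, 0 < s n)
    (ht : ∀ᶠ n in atTop, t n = f (s n)) :
    ∃ lam c : ℝ, 0 < lam ∧ AsyP (fun n => s n ^ (-(1 / 6) : ℝ)) (fun n => t n ^ (-(1 / 6) : ℝ))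
      lam (fun i => if i = 5 then c else 0) 0 0 := by
  obtain ⟨G, hG, hfG⟩ := tr_two hf
  set g : ℝ → ℝ := fun z => deriv f 0 + z * G z with hg
  have hga : AnalyticAt ℝ g 0 := analyticAt_const.add (analyticAt_id.mul hG)
  have hg0 : 0 < g 0 := by simpa [hg] using hd
  have hfg : ∀ z, f z = z * g z := fun z => by rw [hfG z, h0, hg]; ring
  set h : ℝ → ℝ := fun z => Real.exp (Real.log (g z) * (-(1 / 6))) with hh
  have hha : AnalyticAt ℝ h 0 := ((hga.log hg0).mul analyticAt_const).rexp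
  have hh0 : 0 < h 0 := Real.exp_pos _
  obtain ⟨K, hK, hhK⟩ := tr_two hha
  refine ⟨h 0, deriv h 0 / h 0, hh0, ?_⟩
  set z : ℕ → ℝ := fun n => (s n ^ (-(1 / 6) : ℝ))⁻¹ with hz
  have hz' : ∀ n, z n = s n ^ (1 / 6 : ℝ) := fun n => by
    simp only [hz]
    rw [Real.rpow_neg (hp n).le, inv_inv]
  have hz6 : ∀ n, z n ^ 6 = s n := fun n => by
    rw [hz', ← Real.rpow_natCast, ← Real.rpow_mul (hp n).le]; norm_num
  have hz0 : ∀ n, z n ≠ 0 := fun n => by
    rw [hz']; exact (Real.rpow_pos_of_pos (hp n) _).ne'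
  have hzt : Tendsto z atTop (𝓝 0) := by
    have := hs.rpow_const (p := (1 / 6 : ℝ)) (Or.inr (by norm_num))
    rw [Real.zero_rpow (by norm_num)] at this
    exact this.congr fun n => (hz' n).symm
  have hb : (fun n => z n ^ 4 * K (s n)) =O[atTop] fun _ => (1 : ℝ) :=
    ((hzt.pow 4).mul (hK.continuousAt.tendsto.comp hs)).isBigO_one ℝ
  have hb' := (isBigO_refl (fun n => z n ^ 7) atTop).mul hb
  simp only [mul_one] at hb'
  refine IsBigO.congr' hb' ?_ EventuallyEq.rfl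
  have hgp : ∀ᶠ n in atTop, 0 < g (s n) :=
    (hga.continuousAt.tendsto.comp hs).eventually (lt_mem_nhds hg0)
  filter_upwards [ht, hgp] with n h1 h2
  have e1 : t n ^ (-(1 / 6) : ℝ) = (z n)⁻¹ * h (s n) := by
    rw [h1, hfg, Real.mul_rpow (hp n).le h2.le, Real.rpow_def_of_pos h2]
    simp only [hz, hh, inv_inv]
  have e2 : s n ^ (-(1 / 6) : ℝ) = (z n)⁻¹ := by simp only [hz, inv_inv]
  have e3 : h (s n) = h 0 + z n ^ 6 * deriv h 0 + (z n ^ 6) ^ 2 * K (s n) := by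
    rw [hz6]; exact hhK (s n)
  have e4 := hz0 n
  have e5 : ∑ i ∈ Finset.range 7, (if i = 5 then deriv h 0 / h 0 else 0) * z n ^ i =
      deriv h 0 / h 0 * z n ^ 5 := by
    simp
  show _ = t n ^ (-(1 / 6) : ℝ) - h 0 * (s n ^ (-(1 / 6) : ℝ) +
    ∑ i ∈ Finset.range 7, (if i = 5 then deriv h 0 / h 0 else 0) * z n ^ i + 0 * _ * _ + 0 * _ * _)
  rw [e5, e1, e2, e3]
  field_simp
  ring

theorem trS (hTransit : TransitStmt) : TrStmt := by
  intro A B V U a b hA hB hT hab hg ha hb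
  obtain ⟨R, hR, hRa, hR', η, hη, hRU⟩ := hTransit A B V hA hB hT.solV a b hab hg ha hb
  have hev : ∀ᶠ n in atTop, U n b = R (U n a) := by
    filter_upwards [Metric.tendstoUniformly_iff.1 hT.unif η hη] with n hn
    refine hRU _ (hT.solU n) fun x _ => ?_
    rw [abs_sub_comm]
    exact hn x
  have hRd := hR.differentiableAt.hasDerivAt
  constructor
  · have hs : Tendsto (fun n => V a ^ 3 - U n a ^ 3) atTop (𝓝 0) := by
      have := ((hT.tendsto a).pow 3).const_sub (V a ^ 3)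
      rwa [sub_self] at this
    have h3 : V a ^ 3 ≠ 0 := pow_ne_zero 3 ha
    have hi : AnalyticAt ℝ (fun s : ℝ => cb (V a ^ 3 - s)) 0 :=
      (cb_analyticAt h3).comp_of_eq (f := fun s : ℝ => V a ^ 3 - s) (by fun_prop) (by simp)
    have hi0 : cb (V a ^ 3 - 0) = V a := by rw [sub_zero, cb_cube]
    have hf : AnalyticAt ℝ (fun s => V b ^ 3 - R (cb (V a ^ 3 - s)) ^ 3) 0 :=
      analyticAt_const.sub ((hR.comp_of_eq hi hi0).pow 3)
    have hf0 : V b ^ 3 - R (cb (V a ^ 3 - 0)) ^ 3 = 0 := by rw [hi0, hRa, sub_self]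
    have hid : HasDerivAt (fun s : ℝ => cb (V a ^ 3 - s)) (1 / (3 * V a ^ 2) * -1) 0 := by
      have := (cb_hasDerivAt h3).comp_of_eq (0 : ℝ) ((hasDerivAt_id' (0 : ℝ)).const_sub (V a ^ 3))
        (by simp)
      rwa [cb_cube] at this
    have hfd := ((hRd.comp_of_eq (0 : ℝ) hid hi0.symm).fun_pow 3).const_sub (V b ^ 3)
    have hev' : ∀ᶠ n in atTop, V b ^ 3 - U n b ^ 3 =
        V b ^ 3 - R (cb (V a ^ 3 - (V a ^ 3 - U n a ^ 3))) ^ 3 := by
      filter_upwards [hev] with n hn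
      rw [sub_sub_cancel, cb_cube, hn]
    have hpos := tr_pos (f := fun s => V b ^ 3 - R (cb (V a ^ 3 - s)) ^ 3) hfd hf0 (by
      simp only [Function.comp_apply, hi0, hRa]
      exact neg_ne_zero.2 (mul_ne_zero (mul_ne_zero (by norm_num) (pow_ne_zero _ hb))
        (mul_ne_zero hR' (mul_ne_zero (by positivity) (by norm_num))))) hs (hT.cube_pos a)
      (hev'.mono fun n hn => hn ▸ hT.cube_pos b n)
    exact tr_asy hf hf0 (hpos.trans_eq (HasDerivAt.deriv hfd).symm) hs (hT.cube_pos a) hev'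
  · have hs : Tendsto (fun n => V a - U n a) atTop (𝓝 0) := by
      have := (hT.tendsto a).const_sub (V a)
      rwa [sub_self] at this
    have hf0 : V b - R (V a - 0) = 0 := by rw [sub_zero, hRa, sub_self]
    have hfd := (hRd.comp_of_eq (0 : ℝ) ((hasDerivAt_id' (0 : ℝ)).const_sub (V a))
      (by simp)).const_sub (V b)
    have hev' : ∀ᶠ n in atTop, V b - U n b = V b - R (V a - (V a - U n a)) := by
      filter_upwards [hev] with n hn
      rw [sub_sub_cancel, hn]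
    have hpos := tr_pos (f := fun s => V b - R (V a - s)) hfd hf0 (by simpa using hR') hs
      (fun n => sub_pos.2 (hT.lt n a)) (hev'.mono fun n hn => hn ▸ sub_pos.2 (hT.lt n b))
    exact ⟨fun s => V b - R (V a - s), analyticAt_const.sub
      (hR.comp_of_eq (f := fun s : ℝ => V a - s) (by fun_prop) (by simp)), hf0,
      hpos.trans_eq (HasDerivAt.deriv hfd).symm, hev'⟩

end Pool.Agent.MP_c2f0e4_an

end

section

open Set Filter Topology Real Asymptotics

namespace Pool.Agent.MP_c2f0e4_an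

lemma dblcore_an {f : ℝ → ℝ} (hf : AnalyticAt ℝ f 0) : AnalyticAt ℝ (dslope f 0) 0 := by
  obtain ⟨p, hp⟩ := hf
  exact hp.has_fpower_series_dslope_fslope.analyticAt

lemma dblcore_eq (f : ℝ → ℝ) (x : ℝ) : f x = f 0 + x * dslope f 0 x := by
  have := sub_smul_dslope f 0 x
  rw [sub_zero, smul_eq_mul] at this
  linarith

lemma dblcore_G (a a' : ℝ) : ∃ G : ℝ → ℝ, AnalyticAt ℝ G 0 ∧ G 0 = a ∧
    ∀ x, Cub 0 0 a a' x = x ^ 2 * G x := by
  have h : AnalyticAt ℝ (dslope sin 0) 0 := dblcore_an (by fun_prop)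
  refine ⟨fun x => dslope sin 0 x ^ 2 * (a * cos x + a' * sin x), (h.pow 2).mul (by fun_prop),
    by simp, fun x => ?_⟩
  have h1 := dblcore_eq sin x
  rw [sin_zero, zero_add] at h1
  simp only [Cub]
  rw [← mul_assoc, ← mul_pow, ← h1]
  ring

/-- the regular transit around the circle -/
lemma dblcore_tr (hTr : TrStmt) {A B V : ℝ → ℝ} {U : ℕ → ℝ → ℝ} (hA : An A) (hB : An B)
    (T : Top A B V U) (O : One A V 0) {x y : ℝ} (hx : 0 < x) (hx1 : x < 1) (hy : y < 0)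
    (hy1 : -1 < y) (hVx : V x ≠ 0) (hVy : V y ≠ 0) :
    ∃ Φ : ℝ → ℝ, AnalyticAt ℝ Φ 0 ∧ Φ 0 = 0 ∧ 0 < deriv Φ 0 ∧
      ∀ᶠ n in atTop, V y - U n y = Φ (V x - U n x) := by
  have := two_le_pi
  obtain ⟨-, Φ, h1, h2, h3, h4⟩ := hTr A B V U x (y + 2 * π) hA hB T.toTop0 (by linarith)
    (fun z hz h0 h1 => O.2 z ⟨by linarith [hz.1], by linarith [hz.2]⟩ ⟨h0, h1⟩) hVx
    (by rwa [T.perV y])
  refine ⟨Φ, h1, h2, h3, h4.mono fun n hn => ?_⟩
  rwa [T.perV y, T.perU n y] at hn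

lemma dblcore_left (hD1 : D1Stmt) (hTr : TrStmt) {A B V : ℝ → ℝ} {U : ℕ → ℝ → ℝ} (hA : An A)
    (hB : An B) (T : Top A B V U) (O : One A V 0) {δ c C : ℝ} (hδ : 0 < δ) (hδ1 : δ < 1)
    (hc : 0 < c) (hb : ∀ x ∈ Icc (-δ) δ, c * x ^ 2 ≤ A x ∧ A x ≤ C * x ^ 2) :
    ¬ ∀ x ∈ Icc (-δ) δ, x ≠ 0 → V x < 0 := by
  intro hV
  have h1 := hD1 A B V U δ c C hA.continuous hB.continuous T.toTop0 hδ hc hb O.1.2 hV (-δ)
    ⟨le_rfl, by linarith⟩ δ ⟨hδ, le_rfl⟩
  obtain ⟨Φ, p1, p2, -, p4⟩ := dblcore_tr hTr hA hB T O hδ hδ1 (y := -δ) (by linarith)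
    (by linarith) (hV δ ⟨by linarith, le_rfl⟩ hδ.ne').ne
    (hV (-δ) ⟨le_rfl, by linarith⟩ (by linarith)).ne
  have h2 : Tendsto (fun n => V δ - U n δ) atTop (𝓝 0) := by
    have := (T.toTop0.tendsto δ).const_sub (V δ)
    rwa [sub_self] at this
  have h3 := h1.mul ((dblcore_an p1).continuousAt.tendsto.comp h2)
  rw [zero_mul] at h3
  refine zero_ne_one (tendsto_nhds_unique h3 (tendsto_const_nhds.congr' ?_))
  filter_upwards [p4] with n hn
  have h4 : V (-δ) - U n (-δ) ≠ 0 := (sub_pos.2 (T.lt n _)).ne'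
  rw [dblcore_eq Φ, p2, zero_add] at hn
  simp only [Function.comp_def]
  rw [div_mul_eq_mul_div, ← hn, div_self h4]

theorem dblCoreS (hD1 : D1Stmt) (hKappa : KappaStmt) (hModel : ModelStmt) (hBar : BarStmt) (hCore : CoreStmt) (hJ1 : J1Stmt) (hJ2a : J2aStmt) (hJ2b : J2bStmt) (hJ2c : J2cStmt) (hTrig : TrigStmt) (hTr : TrStmt) : DblCoreStmt := by
  intro a a' b0 b1 V U ha T O
  have hA := Cub.an 0 0 a a'
  have hB := Lin.an b0 b1
  have V0 : V 0 = 0 := O.1.2
  obtain ⟨G, G1, G2, G3⟩ := dblcore_G a a'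
  obtain ⟨δ, hδ, hδ1, hG⟩ : ∃ δ : ℝ, 0 < δ ∧ δ < 1 ∧ ∀ x ∈ Icc (-δ) δ, a / 2 < G x ∧ G x < 2 * a := by
    have e1 : ∀ᶠ x in 𝓝 (0 : ℝ), a / 2 < G x ∧ G x < 2 * a :=
      G1.continuousAt.eventually (Ioo_mem_nhds (by linarith) (by linarith))
    obtain ⟨ε, hε, e2⟩ := Metric.eventually_nhds_iff.1 e1
    have m1 := min_le_left (ε / 2) (1 / 2)
    have m2 := min_le_right (ε / 2) (1 / 2)
    refine ⟨min (ε / 2) (1 / 2), by positivity, by linarith, fun x hx => e2 ?_⟩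
    rw [Real.dist_eq, sub_zero, abs_lt]
    exact ⟨by linarith [hx.1], by linarith [hx.2]⟩
  have hb : ∀ x ∈ Icc (-δ) δ, a / 2 * x ^ 2 ≤ Cub 0 0 a a' x ∧ Cub 0 0 a a' x ≤ 2 * a * x ^ 2 :=
    fun x hx => by
      rw [G3, mul_comm (x ^ 2)]
      exact ⟨mul_le_mul_of_nonneg_right (hG x hx).1.le (sq_nonneg x),
        mul_le_mul_of_nonneg_right (hG x hx).2.le (sq_nonneg x)⟩
  have hpos : ∀ x ∈ Icc (-δ) δ, x ≠ 0 → 0 < Cub 0 0 a a' x := fun x hx h0 =>
    lt_of_lt_of_le (by positivity) (hb x hx).1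
  have hR0 : ∀ x ∈ Ico 0 δ, V x ≤ 0 := fun x hx => T.toTop0.nonpos fun n =>
    (T.solU n).neg_of_neg_left (fun y hy => hpos y ⟨by linarith [hy.1], hy.2.le⟩ hy.1.ne')
      ((T.lt n 0).trans_eq V0) x hx
  have hR : ∀ x ∈ Ioo 0 δ, V x < 0 := fun x hx => not_le.1 fun h0 => by
    have h1 := T.solV.pos_backward (a := x / 2) (b := x) (fun y hy _ => hpos y
      ⟨by linarith [hy.1, hx.1], by linarith [hy.2, hx.2]⟩ (by linarith [hy.1, hx.1])) h0 (x / 2)
      ⟨le_rfl, by linarith [hx.1]⟩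
    exact absurd (hR0 (x / 2) ⟨by linarith [hx.1], by linarith [hx.1, hx.2]⟩) (not_le.2 h1)
  have hL : ∀ x ∈ Ioo (-δ) 0, 0 < V x := fun x hx => not_le.1 fun h0 => by
    obtain ⟨x1, x2⟩ := hx
    refine dblcore_left hD1 hTr hA hB T O (δ := -x / 2) (by linarith) (by linarith) (half_pos ha)
      (fun y hy => hb y ⟨by linarith [hy.1], by linarith [hy.2]⟩) fun y hy y0 => ?_
    rcases lt_or_gt_of_ne y0 with h | h
    · exact T.solV.neg_forward (a := x) (b := y) (fun z hz _ => hpos z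
        ⟨by linarith [hz.1], by linarith [hz.2]⟩ (by linarith [hz.2])) h0 y
        ⟨by linarith [hy.1], le_rfl⟩
    · exact hR y ⟨h, by linarith [hy.2]⟩
  have hS : ∀ᶠ x in 𝓝[≠] (0 : ℝ), x * V x < 0 := by
    filter_upwards [nhdsWithin_le_nhds (Ioo_mem_nhds (neg_lt_zero.2 hδ) hδ), self_mem_nhdsWithin]
      with x hx x0
    rcases lt_or_gt_of_ne (show x ≠ 0 from x0) with h | h
    · exact mul_neg_of_neg_of_pos h (hL x ⟨hx.1, h⟩)
    · exact mul_neg_of_pos_of_neg h (hR x ⟨h, hx.2⟩)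
  obtain ⟨κ, k1, k2, k3, k4⟩ := hKappa _ _ G V G1 (hB 0) (G2 ▸ ha) (Eventually.of_forall G3) T.solV
    V0 hS
  obtain ⟨m, h, d0, M, hh, hBm⟩ := hModel _ _ V κ U (hB 0) T.toTop0 k1 k2 k4
  have k5 : (fun x => x * κ x) =ᶠ[𝓝 0] V := k4.mono fun x hx => hx.symm
  have aV : AnalyticAt ℝ V 0 := (analyticAt_id.mul k1).congr k5
  have dV : deriv V 0 = κ 0 := by
    have := ((hasDerivAt_id' (0 : ℝ)).mul k1.differentiableAt.hasDerivAt).congr_of_eventuallyEq
      k5.symm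
    rw [this.deriv]; ring
  have m1 : -1 < m 0 := by
    have e1 := hBm.self_of_nhds
    rw [V0, dV] at e1
    rw [e1, G2] at k3
    have e2 : κ 0 ^ 3 < 0 := Odd.pow_neg (by decide) k2
    by_contra hn
    nlinarith [mul_nonneg_of_nonpos_of_nonpos e2.le (show 1 + m 0 ≤ 0 by linarith)]
  have m3 := hBar m d0 _ M
  have MT : ModelTr d0 fun n ξ => U n (h ξ) := fun d hd => by
    obtain ⟨p1, p2, p3⟩ := hh d ⟨by linarith [hd.1, hd.2], hd.2⟩
    obtain ⟨q1, q2, q3⟩ := hh (-d) ⟨by linarith [hd.2], by linarith [hd.1, hd.2]⟩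
    have p4 := p3 hd.1.ne'
    have q4 := q3 (neg_ne_zero.2 hd.1.ne')
    have := dblcore_tr hTr hA hB T O (x := h (-d)) (y := h d) (by nlinarith [hd.1])
      (abs_lt.1 q2).2 (by nlinarith [hd.1]) (abs_lt.1 p2).1
      (by rw [q1]; exact neg_ne_zero.2 hd.1.ne') (by rw [p1]; exact hd.1.ne')
    rwa [p1, q1] at this
  have amu := dblcore_an M.an
  have C1 := hCore m _ (m 0) d0 _ M MT m1 m3 amu (dblcore_eq m)
  have J1 := hJ1 m _ (m 0) d0 _ M m1 m3 amu (dblcore_eq m) C1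
  have amt := dblcore_an amu
  have emu : dslope m 0 = fun ξ => ξ * dslope (dslope m 0) 0 ξ := funext fun ξ => by
    rw [dblcore_eq (dslope m 0) ξ, J1, zero_add]
  have em : ∀ ξ, m ξ = m 0 + ξ * (ξ * dslope (dslope m 0) 0 ξ) := fun ξ => by
    rw [← congrFun emu ξ]; exact dblcore_eq m ξ
  rw [emu] at C1
  refine hTrig a a' b0 b1 (m 0) V m _ ha.ne' aV V0 (dV ▸ k2.ne) ?_ hBm amt em fun m0 => ?_
  · filter_upwards [aV.eventually_analyticAt] with x hx
    have := (hx.differentiableAt.hasDerivAt.pow 3).unique (T.solV.2 x)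
    norm_num at this
    linarith
  · rcases lt_trichotomy (m 0) (-1 / 2) with e | e | e
    · exact hJ2c m _ (m 0) d0 _ M MT m1 e amt em C1
    · exact hJ2b m _ d0 _ M amt (e ▸ C1)
    · exact hJ2a m _ (m 0) d0 _ M e m3 m0 amt em C1

end Pool.Agent.MP_c2f0e4_an

end

section

open Set Filter Topology Real Asymptotics

namespace Pool.Agent.MP_c2f0e4_an

lemma class_cot {x : ℝ} (hx : x ∈ Ioo 0 π) : ∃ t, π / 2 - arctan t = x ∧ cos x = t * sin x := by
  have hs := sin_pos_of_mem_Ioo hx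
  refine ⟨tan (π / 2 - x), ?_, ?_⟩
  · rw [arctan_tan (by linarith [hx.2]) (by linarith [hx.1])]
    ring
  · rw [tan_eq_sin_div_cos, sin_pi_div_two_sub, cos_pi_div_two_sub]
    field_simp

lemma class_mem (t : ℝ) : π / 2 - arctan t ∈ Ioo 0 π :=
  ⟨by linarith [arctan_lt_pi_div_two t], by linarith [neg_pi_div_two_lt_arctan t]⟩

lemma class_lt {s t : ℝ} : π / 2 - arctan t < π / 2 - arctan s ↔ s < t := by
  rw [sub_lt_sub_iff_left, arctan_strictMono.lt_iff_lt]

lemma class_cub (b0 b1 b2 b3 t : ℝ) : Cub b0 b1 b2 b3 (π / 2 - arctan t) =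
    sin (π / 2 - arctan t) ^ 3 * (b0 * t ^ 3 + b1 * t ^ 2 + b2 * t + b3) := by
  obtain ⟨s, h1, h2⟩ := class_cot (class_mem t)
  have : s = t := arctan_injective (by linarith)
  rw [Cub, h2, this]
  ring

lemma class_zero (a1 a2 a3 : ℝ) (h1 : a1 ≠ 0) (hs : Simple (Cub 0 a1 a2 a3)) :
    (∀ x ∈ Ioo 0 π, 0 < a1 * Cub 0 a1 a2 a3 x) ∨
      ∃ z' z'' : ℝ, 0 < z' ∧ z' < z'' ∧ z'' < π ∧ Cub 0 a1 a2 a3 z' = 0 ∧ Cub 0 a1 a2 a3 z'' = 0 ∧
        a1 * deriv (Cub 0 a1 a2 a3) z' < 0 ∧ 0 < a1 * deriv (Cub 0 a1 a2 a3) z'' ∧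
        (∀ x ∈ Ioo 0 z', 0 < a1 * Cub 0 a1 a2 a3 x) ∧
        (∀ x ∈ Ioo z' z'', a1 * Cub 0 a1 a2 a3 x < 0) ∧
        ∀ x ∈ Ioo z'' π, 0 < a1 * Cub 0 a1 a2 a3 x := by
  have hp : ∀ t, 0 < sin (π / 2 - arctan t) ^ 3 := fun t =>
    pow_pos (sin_pos_of_mem_Ioo (class_mem t)) 3
  have h2 : 0 < a1 ^ 2 := by positivity
  rcases lt_or_ge (a2 ^ 2 - 4 * a1 * a3) 0 with hD | hD
  · refine Or.inl fun x hx => ?_
    obtain ⟨t, rfl, -⟩ := class_cot hx
    rw [class_cub, mul_left_comm]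
    exact mul_pos (hp t) (by nlinarith [sq_nonneg (2 * a1 * t + a2)])
  obtain ⟨t1, t2, h12, rfl, rfl⟩ : ∃ t1 t2 : ℝ, t2 ≤ t1 ∧ a2 = -(a1 * (t1 + t2)) ∧
      a3 = a1 * t1 * t2 := by
    have hq := Real.sq_sqrt hD
    set s := √(a2 ^ 2 - 4 * a1 * a3)
    have e1 : a2 = -(a1 * ((-a2 + s) / (2 * a1) + (-a2 - s) / (2 * a1))) := by
      field_simp
      ring
    have e2 : a3 = a1 * ((-a2 + s) / (2 * a1)) * ((-a2 - s) / (2 * a1)) := by
      field_simp
      linarith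
    rcases le_total ((-a2 - s) / (2 * a1)) ((-a2 + s) / (2 * a1)) with h | h
    · exact ⟨_, _, h, e1, e2⟩
    · exact ⟨_, _, h, by rwa [add_comm], by rwa [mul_right_comm]⟩
  have hv : ∀ t, a1 * Cub 0 a1 (-(a1 * (t1 + t2))) (a1 * t1 * t2) (π / 2 - arctan t) =
      sin (π / 2 - arctan t) ^ 3 * a1 ^ 2 * ((t - t1) * (t - t2)) := fun t => by
    rw [class_cub]
    ring
  have z1 : Cub 0 a1 (-(a1 * (t1 + t2))) (a1 * t1 * t2) (π / 2 - arctan t1) = 0 := by
    rw [class_cub]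
    ring
  have z2 : Cub 0 a1 (-(a1 * (t1 + t2))) (a1 * t1 * t2) (π / 2 - arctan t2) = 0 := by
    rw [class_cub]
    ring
  have d1 : a1 * deriv (Cub 0 a1 (-(a1 * (t1 + t2))) (a1 * t1 * t2)) (π / 2 - arctan t1) =
      -(sin (π / 2 - arctan t1) ^ 3 * a1 ^ 2 * (t1 ^ 2 + 1) * (t1 - t2)) := by
    rw [Cub.deriv, class_cub]
    ring
  have d2 : a1 * deriv (Cub 0 a1 (-(a1 * (t1 + t2))) (a1 * t1 * t2)) (π / 2 - arctan t2) =
      sin (π / 2 - arctan t2) ^ 3 * a1 ^ 2 * (t2 ^ 2 + 1) * (t1 - t2) := by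
    rw [Cub.deriv, class_cub]
    ring
  have hlt : t2 < t1 := by
    refine lt_of_le_of_ne h12 fun h => hs _ z2 ?_
    rw [h, sub_self, mul_zero] at d2
    rw [h]
    exact (mul_eq_zero.1 d2).resolve_left h1
  have h3 : 0 < t1 - t2 := sub_pos.2 hlt
  refine Or.inr ⟨π / 2 - arctan t1, π / 2 - arctan t2, (class_mem _).1, class_lt.2 hlt,
    (class_mem _).2, z1, z2, ?_, ?_, fun x hx => ?_, fun x hx => ?_, fun x hx => ?_⟩
  · rw [d1, neg_lt_zero]
    have := hp t1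
    positivity
  · rw [d2]
    have := hp t2
    positivity
  · obtain ⟨t, rfl, -⟩ := class_cot ⟨hx.1, hx.2.trans (class_mem _).2⟩
    have := class_lt.1 hx.2
    rw [hv]
    exact mul_pos (mul_pos (hp t) h2) (mul_pos (by linarith) (by linarith))
  · obtain ⟨t, rfl, -⟩ := class_cot ⟨(class_mem _).1.trans hx.1, hx.2.trans (class_mem _).2⟩
    have := class_lt.1 hx.1
    have := class_lt.1 hx.2
    rw [hv]
    exact mul_neg_of_pos_of_neg (mul_pos (hp t) h2)
      (mul_neg_of_neg_of_pos (by linarith) (by linarith))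
  · obtain ⟨t, rfl, -⟩ := class_cot ⟨(class_mem _).1.trans hx.1, hx.2⟩
    have := class_lt.1 hx.1
    rw [hv]
    exact mul_pos (mul_pos (hp t) h2) (mul_pos_of_neg_of_neg (by linarith) (by linarith))

theorem classS : ClassStmt := by
  intro A z hA hs hz
  obtain ⟨a3, h⟩ := hA.shift_eq z
  rw [hz] at h
  set a2 := (deriv (deriv A) z + 3 * 0) / 2
  have hv : ∀ x, Cub 0 (deriv A z) a2 a3 x = A (x + z) := fun x => (congrFun h x).symm
  have hd : ∀ x, deriv (Cub 0 (deriv A z) a2 a3) x = deriv A (x + z) := fun x => by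
    rw [← h, deriv_comp_add_const]
  have hs' : Simple (Cub 0 (deriv A z) a2 a3) := fun x hx => by
    rw [hd]
    exact hs _ (by rwa [← hv])
  rcases class_zero _ a2 a3 (hs z hz) hs' with h1 | ⟨p, q, h1, h2, h3, h4, h5, h6, h7, h8, h9, h10⟩
  · refine Or.inl fun x hx => ?_
    have := h1 (x - z) ⟨by linarith [hx.1], by linarith [hx.2]⟩
    rwa [hv, sub_add_cancel] at this
  · rw [hv] at h4 h5
    rw [hd] at h6 h7
    refine Or.inr ⟨p + z, q + z, by linarith, by linarith, by linarith, h4, h5, h6, h7,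
      fun x hx => ?_, fun x hx => ?_, fun x hx => ?_⟩
    · have := h8 (x - z) ⟨by linarith [hx.1], by linarith [hx.2]⟩
      rwa [hv, sub_add_cancel] at this
    · have := h9 (x - z) ⟨by linarith [hx.1], by linarith [hx.2]⟩
      rwa [hv, sub_add_cancel] at this
    · have := h10 (x - z) ⟨by linarith [hx.1], by linarith [hx.2]⟩
      rwa [hv, sub_add_cancel] at this

theorem gamS : GamStmt := by
  intro a0 a1 a2 a3 b z hb hc h0
  have hs : sin z = tan z * cos z := by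
    rw [tan_eq_sin_div_cos]
    field_simp
  have h1 : cos z ^ 2 * (1 + tan z ^ 2) = 1 := by
    have := sin_sq_add_cos_sq z
    rw [hs] at this
    linarith
  generalize tan z = t at hs h1 ⊢
  have h2 : a0 + a1 * t + a2 * t ^ 2 + a3 * t ^ 3 = 0 := by
    have : cos z ^ 3 * (a0 + a1 * t + a2 * t ^ 2 + a3 * t ^ 3) = 0 := by
      rw [← h0, Cub, hs]
      ring
    exact (mul_eq_zero.1 this).resolve_left (pow_ne_zero 3 hc)
  obtain rfl : a0 = -(a1 * t + a2 * t ^ 2 + a3 * t ^ 3) := by linarith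
  refine ⟨?_, h2, ?_⟩
  · simp only [gam, Cub.deriv, Lin.deriv, Cub, Lin, Gp, hs, zero_mul, add_zero, zero_add]
    congr 1
    field_simp
    ring
  · rw [Cub.deriv, Cub, hs]
    linear_combination (cos z * (a1 + 2 * a2 * t + 3 * a3 * t ^ 2)) * h1

lemma class_dl {a0 a1 a2 a3 b : ℝ} {V : ℝ → ℝ} (h : Sol (Cub a0 a1 a2 a3) (Lin b 0) V) {x : ℝ}
    (hx : V x ^ 3 - V (π - x) ^ 3 = 0) : HasDerivAt (fun y => V y ^ 3 - V (π - y) ^ 3)
      (-6 * sin x * (a1 * cos x ^ 2 + a3 * sin x ^ 2)) x := by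
  have he : V (π - x) = V x := cube_inj (by linarith)
  refine ((h.2 x).sub ((h.refl π).2 x)).congr_deriv ?_
  simp only [he, Cub, Lin, cos_pi_sub, sin_pi_sub]
  ring

theorem deltaS : DeltaStmt := by
  intro a0 a1 a2 a3 b V h1 h3 hV hper x hx hx0
  have hc : Continuous fun y => V y ^ 3 - V (π - y) ^ 3 :=
    (hV.1.pow 3).sub ((hV.1.comp (by fun_prop)).pow 3)
  have hq : ∀ y, sin y ≠ 0 → 0 < a1 * cos y ^ 2 + a3 * sin y ^ 2 := fun y hy => by positivity
  rw [← cube_lt, ← sub_pos]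
  rcases lt_or_gt_of_ne hx0 with h | h
  · refine pos_of_deriv_pos_at_zeros (f := fun y => V y ^ 3 - V (π - y) ^ 3) (a := -(π / 2))
      (b := x) hc.continuousOn ?_ (fun y hy h0 => ⟨_, class_dl hV h0, ?_⟩) x ⟨hx.1, le_rfl⟩
    · rw [show π - -(π / 2) = -(π / 2) + 2 * π by ring, hper, sub_self]
    · have hs : sin y < 0 := sin_neg_of_neg_of_neg_pi_lt (hy.2.trans_lt h)
        (by linarith [hy.1, pi_pos])
      exact mul_pos (by linarith) (hq y hs.ne)
  · have := pos_of_deriv_pos_at_zeros (f := fun y => V (-y) ^ 3 - V (π - -y) ^ 3)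
      (a := -(π / 2)) (b := -x) (hc.comp continuous_neg).continuousOn ?_
      (fun y hy h0 => ⟨_, (class_dl hV h0).comp y (hasDerivAt_neg y), ?_⟩) (-x)
      ⟨by linarith [hx.2], le_rfl⟩
    · simpa only [neg_neg] using this
    · rw [neg_neg, show π - π / 2 = π / 2 by ring, sub_self]
    · have hs : 0 < sin (-y) := sin_pos_of_pos_of_lt_pi (by linarith [hy.2])
        (by linarith [hy.1, pi_pos])
      have := mul_pos hs (hq _ hs.ne')
      linarith

end Pool.Agent.MP_c2f0e4_an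

end

section

open Set Filter Topology Real Asymptotics

namespace Pool.Agent.MP_c2f0e4_an

section RedAux
variable {A B V W : ℝ → ℝ} {U : ℕ → ℝ → ℝ}

lemma red_deriv_anti (hs : Sys A B) (x : ℝ) : deriv A (x + π) = -deriv A x := by
  rw [← deriv_comp_add_const, show (fun x => A (x + π)) = fun x => -A x from funext hs.antiA,
    deriv.fun_neg]

lemma red_deriv_per (hs : Sys A B) : Function.Periodic (deriv A) (2 * π) := fun x => by
  rw [two_mul, ← add_assoc, red_deriv_anti hs, red_deriv_anti hs, neg_neg]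

lemma red_window (z x : ℝ) : ∃ y ∈ Ico z (z + 2 * π),
    ∀ f : ℝ → ℝ, Function.Periodic f (2 * π) → f y = f x :=
  ⟨toIcoMod two_pi_pos z x, toIcoMod_mem_Ico _ _ _, fun f hf => by
    rw [← self_sub_toIcoDiv_zsmul]; exact hf.sub_zsmul_eq _⟩

lemma red_half (hs : Sys A B) {z : ℝ} {Q : ℝ → Prop} (h : ∀ x ∈ Ioo z (z + π), A x = 0 → Q x)
    {x : ℝ} (hx : x ∈ Ioo z (z + 2 * π)) (h0 : A x = 0) : Q x ∨ x = z + π ∨ Q (x - π) := by
  rcases lt_trichotomy x (z + π) with h1 | h1 | h1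
  · exact Or.inl (h x ⟨hx.1, h1⟩ h0)
  · exact Or.inr (Or.inl h1)
  · refine Or.inr (Or.inr (h _ ⟨by linarith, by linarith [hx.2]⟩ ?_))
    have := hs.antiA (x - π)
    rw [sub_add_cancel, h0] at this
    linarith

lemma red_zeros1 (hs : Sys A B) {z d : ℝ} (h : ∀ x ∈ Ioo z (z + π), 0 < d * A x)
    {x : ℝ} (hx : x ∈ Ioo z (z + 2 * π)) (h0 : A x = 0) : x = z + π := by
  have := red_half hs (Q := fun _ => False) (fun x hx h0 => by
    have := h x hx
    rw [h0, mul_zero] at this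
    exact lt_irrefl _ this) hx h0
  tauto

lemma red_zeros2 (hs : Sys A B) {z z' z'' d : ℝ} (h1 : ∀ x ∈ Ioo z z', 0 < d * A x)
    (h2 : ∀ x ∈ Ioo z' z'', d * A x < 0) (h3 : ∀ x ∈ Ioo z'' (z + π), 0 < d * A x)
    {x : ℝ} (hx : x ∈ Ioo z (z + 2 * π)) (h0 : A x = 0) :
    x = z' ∨ x = z'' ∨ x = z + π ∨ x = z' + π ∨ x = z'' + π := by
  have := red_half hs (Q := fun x => x = z' ∨ x = z'') (fun x hx h0 => by
    by_contra hn
    push Not at hn
    rcases lt_or_gt_of_ne hn.1 with h4 | h4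
    · have := h1 x ⟨hx.1, h4⟩
      rw [h0, mul_zero] at this
      exact lt_irrefl _ this
    · rcases lt_or_gt_of_ne hn.2 with h5 | h5
      · have := h2 x ⟨h4, h5⟩
        rw [h0, mul_zero] at this
        exact lt_irrefl _ this
      · have := h3 x ⟨h5, hx.2⟩
        rw [h0, mul_zero] at this
        exact lt_irrefl _ this) hx h0
  rcases this with (h | h) | h | h | h
  · exact Or.inl h
  · exact Or.inr (Or.inl h)
  · exact Or.inr (Or.inr (Or.inl h))
  · exact Or.inr (Or.inr (Or.inr (Or.inl (by linarith))))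
  · exact Or.inr (Or.inr (Or.inr (Or.inr (by linarith))))

lemma red_count (hClass : ClassStmt) (hA : IsCub A) (hs : Sys A B) (hsim : Simple A)
    (h : Top A B V U) (hneg : ∀ x, Touch A V x → deriv A x < 0) :
    (∃ z, One A V z) ∨ (∃ z1 z2, Two A V z1 z2) ∨ ∃ z1 z2 z3, Three A V z1 z2 z3 := by
  obtain ⟨y, hy⟩ := h.touch
  have hd := hneg y hy
  have hpi : ¬ Touch A V (y + π) := fun ht => by
    have := hneg _ ht
    rw [red_deriv_anti hs] at this
    linarith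
  rcases hClass A y hA hsim hy.1 with h1 | ⟨y', y'', a1, a2, a3, -, -, a6, a7, a8, a9, a10⟩
  · refine Or.inl ⟨y, hy, fun x hx ht => hpi ?_⟩
    rw [← red_zeros1 hs h1 hx ht.1]; exact ht
  · have b1 : 0 < deriv A y' := by nlinarith
    have b2 : deriv A y'' < 0 := by nlinarith
    have key : ∀ x ∈ Ioo y (y + 2 * π), Touch A V x → x = y'' ∨ x = y' + π := by
      intro x hx ht
      have b3 := hneg x ht
      rcases red_zeros2 hs a8 a9 a10 hx ht.1 with e | e | e | e | e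
      · rw [e] at b3; linarith
      · exact Or.inl e
      · exact absurd (e ▸ ht) hpi
      · exact Or.inr e
      · rw [e, red_deriv_anti hs] at b3; linarith
    have hp := pi_pos
    by_cases t1 : Touch A V y'' <;> by_cases t2 : Touch A V (y' + π)
    · exact Or.inr (Or.inr ⟨y, y'', y' + π, by linarith, by linarith, by linarith, hy, t1, t2, hd,
        b2, hneg _ t2, key⟩)
    · exact Or.inr (Or.inl ⟨y, y'', by linarith, by linarith, hy, t1, hd, b2, fun x hx ht =>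
        (key x hx ht).resolve_right fun e => t2 (e ▸ ht)⟩)
    · exact Or.inr (Or.inl ⟨y, y' + π, by linarith, by linarith, hy, t2, hd, hneg _ t2,
        fun x hx ht => (key x hx ht).resolve_left fun e => t1 (e ▸ ht)⟩)
    · exact Or.inl ⟨y, hy, fun x hx ht =>
        (key x hx ht).elim (fun e => t1 (e ▸ ht)) fun e => t2 (e ▸ ht)⟩

lemma red_fwd (h : Sol A B W) (hg : GoodOn A W univ) {a b : ℝ} (hab : a < b)
    (hA : ∀ x ∈ Ioo a b, 0 < A x) (hb : A b = 0) (ha : W a < 0) : W b < 0 := by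
  refine h.neg_forward (a := a) (b := b) (fun x hx h0 => ?_) ha.le b ⟨hab, le_rfl⟩
  refine hA x ⟨lt_of_le_of_ne hx.1 ?_, lt_of_le_of_ne hx.2 ?_⟩
  · rintro rfl; exact ha.ne h0
  · rintro rfl; exact hg _ (mem_univ _) hb h0

lemma red_bwd (h : Sol A B W) (hg : GoodOn A W univ) {a b : ℝ} (hab : a < b)
    (hA : ∀ x ∈ Ioo a b, A x < 0) (ha : A a = 0) (hb : W b < 0) : W a < 0 := by
  refine h.neg_backward (a := a) (b := b) (fun x hx h0 => ?_) hb.le a ⟨le_rfl, hab⟩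
  refine hA x ⟨lt_of_le_of_ne hx.1 ?_, lt_of_le_of_ne hx.2 ?_⟩
  · rintro rfl; exact hg _ (mem_univ _) ha h0
  · rintro rfl; exact hb.ne h0

end RedAux

theorem redS (hSign : SignStmt) (hClass : ClassStmt) : RedStmt := by
  rintro A B hA hB hsim ⟨V, U, V2, U2, h1, h2, hlink⟩
  have hs := sys_of hA hB
  have hp := pi_pos
  by_cases hneg : ∀ x, Touch A V x → deriv A x < 0
  · exact ⟨V, U, h1, red_count hClass hA hs hsim h1 hneg⟩
  push Not at hneg
  obtain ⟨z, hz, hd⟩ := hneg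
  have hd' : 0 < deriv A z := lt_of_le_of_ne hd (hsim z hz.1).symm
  have Pz : U 0 z < 0 := by have := h1.lt 0 z; rwa [hz.2] at this
  have hnP : ∀ y, Touch A V2 y → 0 < U 0 (y + π) := fun y hy =>
    (hlink y hy.1).1 (by have := h2.lt 0 y; rwa [hy.2] at this)
  have hwin : ∀ y, Touch A V2 y → ∃ y0 ∈ Ico z (z + 2 * π), Touch A V2 y0 ∧
      deriv A y0 = deriv A y := by
    intro y hy
    obtain ⟨y0, hy0, hf⟩ := red_window z y
    exact ⟨y0, hy0, ⟨by rw [hf A hs.perA]; exact hy.1, by rw [hf V2 h2.perV]; exact hy.2⟩,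
      hf _ (red_deriv_per hs)⟩
  have hper : ∀ x, U 0 (x + π + π) = U 0 x := fun x => by
    rw [add_assoc, ← two_mul]; exact h1.perU 0 x
  have hzpi : A (z + π) = 0 := by rw [hs.antiA, hz.1, neg_zero]
  rcases hClass A z hA hsim hz.1 with c1 | ⟨z', z'', a1, a2, a3, a4, a5, a6, a7, a8, a9, a10⟩
  · exfalso
    have Pz1 : U 0 (z + π) < 0 := red_fwd (h1.solU 0) (h1.good 0) (by linarith)
      (fun x hx => (pos_iff_pos_of_mul_pos (c1 x hx)).1 hd') hzpi Pz
    obtain ⟨y, hy⟩ := h2.touch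
    obtain ⟨y0, hy0, ht, -⟩ := hwin y hy
    have b1 := hnP y0 ht
    rcases hy0.1.eq_or_lt with e | e
    · rw [← e] at b1; linarith
    · rw [red_zeros1 hs c1 ⟨e, hy0.2⟩ ht.1, hper] at b1; linarith
  · have b1 : deriv A z' < 0 := by nlinarith
    have b2 : 0 < deriv A z'' := by nlinarith
    have p1 : ∀ x ∈ Ioo z z', 0 < A x := fun x hx => (pos_iff_pos_of_mul_pos (a8 x hx)).1 hd'
    have p2 : ∀ x ∈ Ioo (z'' - π) z, A x < 0 := fun x hx => by
      have := (pos_iff_pos_of_mul_pos (a10 (x + π) ⟨by linarith [hx.1], by linarith [hx.2]⟩)).1 hd'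
      rw [hs.antiA] at this
      linarith
    have z0 : A (z'' - π) = 0 := by
      have := hs.antiA (z'' - π)
      rw [sub_add_cancel, a5] at this
      linarith
    have d0 : deriv A (z'' - π) < 0 := by
      have := red_deriv_anti hs (z'' - π)
      rw [sub_add_cancel] at this
      linarith
    have P1 : U 0 z' < 0 := red_fwd (h1.solU 0) (h1.good 0) a1 p1 a4 Pz
    have P2 : U 0 (z'' + π) < 0 := by
      have := red_bwd (h1.solU 0) (h1.good 0) (by linarith) p2 z0 Pz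
      rwa [← hper, sub_add_cancel] at this
    have key : ∀ x ∈ Ioo z (z + 2 * π), Touch A V2 x → x = z' ∨ x = z'' + π := by
      intro x hx ht
      have b3 := hnP x ht
      rcases red_zeros2 hs a8 a9 a10 hx ht.1 with e | e | e | e | e
      · exact Or.inl e
      · rw [e] at b3; linarith
      · rw [e, hper] at b3; linarith
      · rw [e, hper] at b3; linarith
      · exact Or.inr e
    refine ⟨V2, U2, h2, ?_⟩
    by_cases tz : Touch A V2 z
    · have n0 : ∀ n, U2 n z < 0 := fun n => by have := h2.lt n z; rwa [tz.2] at this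
      refine Or.inl ⟨z, tz, fun x hx ht => ?_⟩
      rcases key x hx ht with e | e
      · rw [e] at ht
        have s1 := (hSign A B V2 hs.anA hs.anB.continuous h2.solV z' ht b1.ne).filter_mono
          (nhdsLT_le_nhdsNE z')
        obtain ⟨w, w1, w2⟩ := (s1.and (Ioo_mem_nhdsLT a1)).exists
        have := h2.toTop0.nonpos fun n => (h2.solU n).neg_of_neg_left p1 (n0 n) w ⟨w2.1.le, w2.2⟩
        nlinarith
      · have ht' : Touch A V2 (z'' - π) := ⟨z0, by
          rw [← h2.perV, show z'' - π + 2 * π = z'' + π by ring, ← e]; exact ht.2⟩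
        have s1 := (hSign A B V2 hs.anA hs.anB.continuous h2.solV _ ht' d0.ne).filter_mono
          (nhdsGT_le_nhdsNE _)
        obtain ⟨w, w1, w2⟩ := (s1.and (Ioo_mem_nhdsGT (show z'' - π < z by linarith))).exists
        have := h2.toTop0.nonpos fun n => (h2.solU n).neg_of_neg_right p2 (n0 n) w ⟨w2.1, w2.2.le⟩
        nlinarith
    · refine red_count hClass hA hs hsim h2 fun y hy => ?_
      obtain ⟨y0, hy0, ht, hdy⟩ := hwin y hy
      rw [← hdy]
      rcases hy0.1.eq_or_lt with e | e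
      · exact absurd (e ▸ ht) tz
      · rcases key y0 ⟨e, hy0.2⟩ ht with e' | e'
        · rw [e']; exact b1
        · rw [e', red_deriv_anti hs]; linarith

end Pool.Agent.MP_c2f0e4_an

end

section

open Set Filter Topology Real Asymptotics

namespace Pool.Agent.MP_c2f0e4_an

theorem singleS (hC1 : C1Stmt) : SingleStmt := by
  intro A B V U z hA hB hT h1 hd
  have hs := sys_of hA hB
  obtain ⟨e1, e2⟩ := hC1 A B V U z hs.anA hs.anB hT h1 hs.perA hd
  have e3 : deriv (deriv B) z = -B z := by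
    obtain ⟨b1, b2, rfl⟩ := hB
    simp only [Lin.deriv, Lin]; ring
  rw [e3, e1, neg_zero, mul_zero] at e2
  obtain ⟨a3, e4⟩ := hA.shift_eq z
  refine Concl.of_shift (c := z) ?_
  rw [e4, hB.shift_eq z, e1, h1.1.1]
  rcases mul_eq_zero.1 e2 with h | h
  · rw [h]
    exact Or.inr ⟨0, by simpa using rev_zero (deriv A z) a3 (deriv B z)⟩
  · rw [h]
    exact Or.inl fun x => by simp [Lin]

section
variable {A B V : ℝ → ℝ} {U : ℕ → ℝ → ℝ}

lemma fin_fwd (h : Top A B V U) {p q : ℝ} (hpq : p < q) (hA : ∀ x ∈ Ioo p q, 0 < A x)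
    (hq : A q = 0) (hp : U 0 p < 0) : U 0 q < 0 := by
  refine lt_of_le_of_ne ?_ (h.good 0 q (mem_univ _) hq)
  refine le_of_tendsto ((h.solU 0).1.continuousAt.tendsto.mono_left
    (nhdsWithin_le_nhds (s := Iio q))) ?_
  filter_upwards [Ioo_mem_nhdsLT hpq] with x hx
  exact ((h.solU 0).neg_of_neg_left hA hp x ⟨hx.1.le, hx.2⟩).le

lemma fin_bwd (h : Top A B V U) {p q : ℝ} (hpq : p < q) (hA : ∀ x ∈ Ioo p q, A x < 0)
    (hp : A p = 0) (hq : U 0 q < 0) : U 0 p < 0 := by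
  refine lt_of_le_of_ne ?_ (h.good 0 p (mem_univ _) hp)
  refine le_of_tendsto ((h.solU 0).1.continuousAt.tendsto.mono_left
    (nhdsWithin_le_nhds (s := Ioi p))) ?_
  filter_upwards [Ioo_mem_nhdsGT hpq] with x hx
  exact ((h.solU 0).neg_of_neg_right hA hq x ⟨hx.1, hx.2.le⟩).le

lemma fin_touch (h : Top A B V U) {z : ℝ} (hz : Touch A V z) : U 0 z < 0 := hz.2 ▸ h.lt 0 z

lemma fin_window (h : Top A B V U) (hA : Function.Periodic A (2 * π)) (z : ℝ) :
    ∃ y ∈ Ico z (z + 2 * π), Touch A V y := by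
  obtain ⟨y, hy⟩ := h.touch
  refine ⟨toIcoMod two_pi_pos z y, toIcoMod_mem_Ico _ _ _, ?_⟩
  rw [Touch, ← self_sub_toIcoDiv_zsmul, hA.sub_zsmul_eq, h.perV.sub_zsmul_eq]
  exact hy

lemma fin_one (h : Top A B V U) (hA : Function.Periodic A (2 * π)) {z : ℝ}
    (hz : ∀ x ∈ Ioo z (z + 2 * π), ¬ Touch A V x) : One A V z := by
  obtain ⟨y, hy, ht⟩ := fin_window h hA z
  rcases hy.1.eq_or_lt with e | e
  · exact ⟨e ▸ ht, hz⟩
  · exact absurd ht (hz y ⟨e, hy.2⟩)

end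

lemma fin_sin {x : ℝ} (h : sin x = 0) (h0 : 0 < x) (h3 : x < 3 * π) : x = π ∨ x = 2 * π := by
  rcases lt_or_ge x (2 * π) with h1 | h1
  · have := (sin_eq_zero_iff_of_lt_of_lt (x := x - π) (by linarith) (by linarith)).1
      (by rw [sin_sub_pi, h, neg_zero])
    exact Or.inl (by linarith)
  · have := (sin_eq_zero_iff_of_lt_of_lt (x := x - 2 * π) (by linarith [pi_pos]) (by linarith)).1
      (by rw [sin_sub_two_pi, h])
    exact Or.inr (by linarith)

lemma fin_dbl (hSign : SignStmt) (hSingle : SingleStmt) (hDblCore : DblCoreStmt) {a a' b0 b1 : ℝ}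
    (ha : 0 < a) (hC : Conf (Cub 0 0 a a') (Lin b0 b1)) : Concl (Cub 0 0 a a') (Lin b0 b1) := by
  obtain ⟨V, U, V2, U2, T, T2, hm⟩ := hC
  have hpi := pi_pos
  obtain ⟨s, ⟨s0, s1⟩, hs⟩ : ∃ s ∈ Ioo 0 π, a * cos s + a' * sin s = 0 :=
    intermediate_value_Ioo' (f := fun x => a * cos x + a' * sin x) hpi.le (by fun_prop)
      (by simpa using ha)
  have hsin : 0 < sin s := sin_pos_of_pos_of_lt_pi s0 s1
  have hS := sys_cub 0 0 a a' b0 b1
  have hF : ∀ x, Cub 0 0 a a' x = sin x ^ 2 * (a * sin (s - x)) / sin s := fun x => by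
    rw [eq_div_iff hsin.ne', Cub, sin_sub]
    linear_combination sin x ^ 3 * hs
  have hd : deriv (Cub 0 0 a a') s < 0 := by
    have : deriv (Cub 0 0 a a') s = -(a * sin s) := by
      rw [Cub.deriv, Cub]
      linear_combination 3 * cos s * sin s * hs - a * sin s * sin_sq_add_cos_sq s
    rw [this, neg_lt_zero]; positivity
  set A := Cub 0 0 a a' with hAdef
  have z0 : A 0 = 0 := by simp [hF]
  have zs : A s = 0 := by simp [hF]
  have zp : A π = 0 := by simp [hF]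
  have z2 : A (2 * π) = 0 := by simp [hF]
  have hz : ∀ x, A x = 0 → 0 < x → x < 3 * π →
      x = π ∨ x = 2 * π ∨ x = s ∨ x = s + π ∨ x = s + 2 * π := by
    intro x hx h0 h3
    rw [hF] at hx
    have h1 : sin x = 0 ∨ sin (s - x) = 0 := by simpa [hsin.ne', ha.ne'] using hx
    rcases h1 with h1 | h1
    · rcases fin_sin h1 h0 h3 with h | h <;> simp [h]
    · rcases lt_or_ge s x with h2 | h2
      · rcases fin_sin (x := x - s) (by rw [← neg_sub, sin_neg, h1, neg_zero]) (by linarith)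
          (by linarith) with h | h
        · exact Or.inr (Or.inr (Or.inr (Or.inl (by linarith))))
        · exact Or.inr (Or.inr (Or.inr (Or.inr (by linarith))))
      · have := (sin_eq_zero_iff_of_lt_of_lt (by linarith) (by linarith)).1 h1
        exact Or.inr (Or.inr (Or.inl (by linarith)))
  have hne : ∀ x, 0 < x → x < 2 * π → x ≠ π → sin x ≠ 0 := fun x h0 h2 h1 h => by
    rcases fin_sin h h0 (by linarith) with h | h
    · exact h1 h
    · exact h2.ne h
  have A1 : ∀ x ∈ Ioo 0 s, 0 < A x := fun x hx => by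
    have h1 := hne x hx.1 (by linarith [hx.2]) (by linarith [hx.2])
    have h2 := sin_pos_of_pos_of_lt_pi (x := s - x) (by linarith [hx.2]) (by linarith [hx.1])
    rw [hF]; positivity
  have A23 : ∀ x ∈ Ioo s (s + π), x ≠ π → A x < 0 := fun x hx hp => by
    have h1 := hne x (by linarith [hx.1]) (by linarith [hx.2]) hp
    have h2 := sin_pos_of_pos_of_lt_pi (x := x - s) (by linarith [hx.1]) (by linarith [hx.2])
    rw [hF, ← neg_sub, sin_neg, mul_neg, mul_neg, neg_div, neg_lt_zero]; positivity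
  have A2 : ∀ x ∈ Ioo s π, A x < 0 := fun x hx => A23 x ⟨hx.1, by linarith [hx.2]⟩ hx.2.ne
  have A3 : ∀ x ∈ Ioo π (s + π), A x < 0 := fun x hx => A23 x ⟨by linarith [hx.1], hx.2⟩ hx.1.ne'
  have A4 : ∀ x ∈ Ioo (s + π) (2 * π), 0 < A x := fun x hx => by
    have := A2 (x - π) ⟨by linarith [hx.1], by linarith [hx.2]⟩
    have h1 := hS.antiA (x - π)
    rw [sub_add_cancel] at h1
    linarith
  have u2 : U 0 (2 * π) = U 0 0 := by simpa using T.perU 0 0
  have i1 : U 0 0 < 0 → U 0 s < 0 := fin_fwd T s0 A1 zs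
  have i2 : U 0 π < 0 → U 0 s < 0 := fin_bwd T s1 A2 zs
  have i3 : U 0 (s + π) < 0 → U 0 π < 0 := fin_bwd T (by linarith) A3 zp
  have i4 : U 0 (s + π) < 0 → U 0 0 < 0 := fun h => u2 ▸ fin_fwd T (by linarith) A4 z2 h
  have t2 : ∀ y, Touch A V2 y → 0 < U 0 (y + π) := fun y hy => (hm y hy.1).1 (fin_touch T2 hy)
  have us : U 0 (s + π + π) = U 0 s := by rw [add_assoc, ← two_mul, T.perU 0]
  have up : U 0 (π + π) = U 0 0 := by rw [← two_mul, u2]
  have us2 : U 0 (s + 2 * π) = U 0 s := T.perU 0 s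
  have Ps : U 0 s < 0 := by
    obtain ⟨y, hy, ht⟩ := fin_window T hS.perA 0
    have h1 := fin_touch T ht
    rcases hy.1.eq_or_lt with rfl | h0
    · exact i1 h1
    · rcases hz y ht.1 h0 (by linarith [hy.2]) with rfl | rfl | rfl | rfl | rfl
      exacts [i2 h1, i1 (u2 ▸ h1), h1, i2 (i3 h1), us2 ▸ h1]
  have Q : ¬ U 0 (s + π) < 0 := fun h => by
    obtain ⟨y, hy, ht⟩ := fin_window T2 hS.perA 0
    have h1 := t2 y ht
    rcases hy.1.eq_or_lt with rfl | h0
    · rw [zero_add] at h1; linarith [i3 h]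
    · rcases hz y ht.1 h0 (by linarith [hy.2]) with rfl | rfl | rfl | rfl | rfl <;>
        linarith [hy.2, i4 h]
  have hV : Touch A V s → ∀ᶠ x in 𝓝[≠] s, 0 < V x := fun ht =>
    (hSign A _ V hS.anA hS.anB.continuous T.solV s ht hd.ne).mono fun x hx =>
      pos_of_mul_neg_right hx hd.le
  have hA : IsCub A := ⟨_, _, _, _, rfl⟩
  have hB : IsLin (Lin b0 b1) := ⟨_, _, rfl⟩
  have fin : (b0 = 0 ∧ b1 = 0) ∨ (b1 = 0 ∧ a' = 0) → Concl A (Lin b0 b1) := by
    rintro (⟨rfl, rfl⟩ | ⟨rfl, rfl⟩)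
    · exact Or.inl fun x => by simp [Lin]
    · exact Or.inr ⟨_, rev_pi_div_two 0 a b0⟩
  by_cases P0 : U 0 0 < 0 <;> by_cases Pp : U 0 π < 0
  · refine hSingle A _ V2 U2 s hA hB T2 (fin_one T2 hS.perA fun x hx ht => ?_) hd.ne
    have h1 := t2 x ht
    have h2 : U 0 (2 * π + π) = U 0 π := by rw [add_comm, T.perU 0]
    rcases hz x ht.1 (by linarith [hx.1]) (by linarith [hx.2]) with rfl | rfl | rfl | rfl | rfl <;>
      linarith [hx.1, hx.2]
  · refine fin (hDblCore a a' b0 b1 V U ha T (fin_one T hS.perA fun x hx ht => ?_))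
    have h1 := fin_touch T ht
    rcases hz x ht.1 hx.1 (by linarith [hx.2]) with rfl | rfl | rfl | rfl | rfl
    · exact Pp h1
    · linarith [hx.2]
    · obtain ⟨y, h2, h3⟩ := (((hV ht).filter_mono (nhdsLT_le_nhdsNE x)).and (Ioo_mem_nhdsLT s0)).exists
      exact (T.nonpos fun n => (T.solU n).neg_of_neg_left A1 ((T.sgn 0 z0 n).2 P0) y
        ⟨h3.1.le, h3.2⟩).not_gt h2
    · exact Q h1
    · linarith [hx.2]
  · have h0 : One A V π := fin_one T hS.perA fun x hx ht => by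
      have h1 := fin_touch T ht
      rcases hz x ht.1 (by linarith [hx.1]) (by linarith [hx.2]) with rfl | rfl | rfl | rfl | rfl
      · exact hx.1.false
      · exact P0 (u2 ▸ h1)
      · linarith [hx.1]
      · exact Q h1
      · have ht' : Touch A V s := ⟨zs, T.perV s ▸ ht.2⟩
        obtain ⟨y, h2, h3⟩ := (((hV ht').filter_mono (nhdsGT_le_nhdsNE s)).and
          (Ioo_mem_nhdsGT s1)).exists
        exact (T.nonpos fun n => (T.solU n).neg_of_neg_right A2 ((T.sgn π zp n).2 Pp) y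
          ⟨h3.1, h3.2.le⟩).not_gt h2
    have h1 := T.refl π
    have h2 := h0.refl hS.perA T.perV π
    rw [hAdef, Cub.refl_pi, neg_zero] at h1 h2
    rw [Lin.refl_pi] at h1
    rw [sub_self] at h2
    exact fin (by simpa using hDblCore a (-a') b0 (-b1) _ _ ha h1 h2)
  · refine hSingle A _ V U s hA hB T (fin_one T hS.perA fun x hx ht => ?_) hd.ne
    have h1 := fin_touch T ht
    rcases hz x ht.1 (by linarith [hx.1]) (by linarith [hx.2]) with rfl | rfl | rfl | rfl | rfl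
    exacts [Pp h1, P0 (u2 ▸ h1), hx.1.false, Q h1, hx.2.false]

theorem dblFinS (hSign : SignStmt) (hSingle : SingleStmt) (hDblCore : DblCoreStmt) : DblFinStmt := by
  intro a a' b0 b1 ha hC
  rcases lt_or_gt_of_ne ha with h | h
  · have h1 := hC.shift π
    refine Concl.of_shift (c := π) ?_
    rw [Cub.shift_pi, Lin.shift_pi, neg_zero] at h1 ⊢
    exact fin_dbl hSign hSingle hDblCore (neg_pos.2 h) h1
  · exact fin_dbl hSign hSingle hDblCore h hC

lemma fin_tpl (hTplCore : TplCoreStmt) {K b0 b1 : ℝ} (hK : K < 0) (hb : b0 ≠ 0)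
    (hC : Conf (Cub 0 0 0 K) (Lin b0 b1)) : False := by
  obtain ⟨V, U, V2, U2, T, T2, hm⟩ := hC
  have hpi := pi_pos
  have hS := sys_cub 0 0 0 K b0 b1
  have hF : ∀ x, Cub 0 0 0 K x = K * sin x ^ 3 := fun x => by simp [Cub]
  have hz : ∀ x, Cub 0 0 0 K x = 0 → 0 < x → x < 0 + 2 * π → x = π := fun x hx h0 h2 =>
    (fin_sin (by simpa [hF, hK.ne] using hx) h0 (by linarith)).resolve_right (by linarith)
  have i1 : U 0 π < 0 → U 0 0 < 0 := fin_bwd T hpi (fun x hx => by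
    rw [hF]
    exact mul_neg_of_neg_of_pos hK (pow_pos (sin_pos_of_pos_of_lt_pi hx.1 hx.2) 3)) (by simp [hF])
  have Q : ¬ U 0 π < 0 := fun h => by
    obtain ⟨y, hy, ht⟩ := fin_window T2 hS.perA 0
    have h1 := (hm y ht.1).1 (fin_touch T2 ht)
    rcases hy.1.eq_or_lt with rfl | h0
    · rw [zero_add] at h1; linarith
    · rw [hz y ht.1 h0 hy.2, ← two_mul, ← zero_add (2 * π), T.perU 0] at h1
      linarith [i1 h]
  have h0 : One (Cub 0 0 0 K) V 0 := fin_one T hS.perA fun x hx ht =>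
    Q (hz x ht.1 hx.1 hx.2 ▸ fin_touch T ht)
  rcases lt_or_gt_of_ne hb with h | h
  · exact hTplCore K b0 b1 V U hK h T h0
  · have h1 := T.refl 0
    have h2 := h0.refl hS.perA T.perV 0
    rw [Cub.refl_zero, neg_zero] at h1 h2
    rw [Lin.refl_zero] at h1
    rw [sub_self] at h2
    exact hTplCore K (-b0) b1 _ _ hK (neg_lt_zero.2 h) h1 h2

theorem tplFinS (hTplCore : TplCoreStmt) : TplFinStmt := by
  intro K b0 b1 hK hC
  by_cases hb : b0 = 0
  · subst hb
    exact Or.inr ⟨0, rev_zero 0 K b1⟩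
  · rcases lt_or_gt_of_ne hK with h | h
    · exact (fin_tpl hTplCore h hb hC).elim
    · have h1 := hC.shift π
      rw [Cub.shift_pi, Lin.shift_pi, neg_zero] at h1
      exact (fin_tpl hTplCore (neg_lt_zero.2 h) (neg_ne_zero.2 hb) h1).elim

end Pool.Agent.MP_c2f0e4_an

end

section

open Set Filter Topology Real Asymptotics

namespace Pool.Agent.MP_c2f0e4_an

/-- a touch at which `A` decreases -/
def nonGood (A V : ℝ → ℝ) (y : ℝ) : Prop := V y = 0 ∧ A y = 0 ∧ deriv A y < 0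

lemma non_L (hSign : SignStmt) {A B V : ℝ → ℝ} (hA : An A) (hB : Continuous B) (hV : Sol A B V)
    {l y r : ℝ} (hl : l < y) (hr : y < r) (hy : nonGood A V y) (h1 : ∀ x ∈ Ioo l y, 0 < A x)
    (h2 : ∀ x ∈ Ioo y r, A x < 0) : ∀ x ∈ Icc l r, 0 ≤ V x := by
  have hs : ∀ᶠ x in 𝓝[≠] y, 0 < V x :=
    (hSign A B V hA hB hV y ⟨hy.2.1, hy.1⟩ hy.2.2.ne).mono fun x hx =>
      pos_of_mul_neg_right hx hy.2.2.le
  have key : Ioo l r ⊆ {x | 0 ≤ V x} := by
    intro x hx
    rcases lt_trichotomy x y with h | h | h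
    · obtain ⟨t, ht, ht'⟩ := ((hs.filter_mono (nhdsLT_le_nhdsNE y)).and (Ioo_mem_nhdsLT h)).exists
      exact (hV.pos_backward (a := x) (b := t)
        (fun s hs _ => h1 s ⟨hx.1.trans_le hs.1, hs.2.trans_lt ht'.2⟩) ht.le x ⟨le_rfl, ht'.1⟩).le
    · rw [h]; exact hy.1.ge
    · obtain ⟨t, ht, ht'⟩ := ((hs.filter_mono (nhdsGT_le_nhdsNE y)).and (Ioo_mem_nhdsGT h)).exists
      exact (hV.pos_forward (a := t) (b := x)
        (fun s hs _ => h2 s ⟨ht'.1.trans_le hs.1, hs.2.trans_lt hx.2⟩) ht.le x ⟨ht'.2, le_rfl⟩).le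
  have := closure_minimal key (isClosed_le continuous_const hV.1)
  rw [closure_Ioo (hl.trans hr).ne] at this
  exact fun x hx => this hx

lemma non_red {f : ℝ → ℝ} (hf : Function.Periodic f (2 * π)) {z : ℝ} (hz : 0 < cos z) :
    f (arctan (tan z)) = f z := by
  have h1 : cos (arctan (tan z)) = cos z := by
    rw [cos_arctan, one_div, inv_sqrt_one_add_tan_sq hz]
  have h2 : sin (arctan (tan z)) = sin z := by
    rw [← tan_mul_cos (cos_arctan_pos _).ne', tan_arctan, h1, tan_mul_cos hz.ne']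
  have h3 : cos (z - arctan (tan z)) = 1 := by
    rw [cos_sub, h1, h2]; linarith [sin_sq_add_cos_sq z]
  obtain ⟨n, hn⟩ := (cos_eq_one_iff _).1 h3
  rw [← hf.int_mul n (arctan (tan z)), hn, add_sub_cancel]

lemma non_red' {f : ℝ → ℝ} (hf : Function.Periodic f (2 * π)) {z : ℝ} (hz : cos z < 0) :
    f (arctan (tan z) + π) = f z := by
  have := non_red (periodic_shift hf π) (z := z - π) (by rw [cos_sub_pi]; linarith)
  simpa only [tan_sub_pi, sub_add_cancel] using this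

lemma non_per (a0 a1 a2 a3 : ℝ) : Function.Periodic (Cub a0 a1 a2 a3) (2 * π) :=
  (sys_cub a0 a1 a2 a3 0 0).perA

lemma non_per' (a0 a1 a2 a3 : ℝ) : Function.Periodic (deriv (Cub a0 a1 a2 a3)) (2 * π) := by
  rw [Cub.deriv]; exact non_per _ _ _ _

variable {a0 a1 a2 a3 b : ℝ} {V : ℝ → ℝ}

lemma non_good_pos (hV : Function.Periodic V (2 * π)) {z : ℝ}
    (h : nonGood (Cub a0 a1 a2 a3) V z) (hz : 0 < cos z) :
    nonGood (Cub a0 a1 a2 a3) V (arctan (tan z)) := by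
  unfold nonGood
  rwa [non_red hV hz, non_red (non_per _ _ _ _) hz, non_red (non_per' _ _ _ _) hz]

lemma non_good_neg (hV : Function.Periodic V (2 * π)) {z : ℝ}
    (h : nonGood (Cub a0 a1 a2 a3) V z) (hz : cos z < 0) :
    nonGood (Cub a0 a1 a2 a3) V (arctan (tan z) + π) := by
  unfold nonGood
  rwa [non_red' hV hz, non_red' (non_per _ _ _ _) hz, non_red' (non_per' _ _ _ _) hz]

lemma non_good_sub (hV : Function.Periodic V (2 * π)) {z : ℝ}
    (h : nonGood (Cub a0 a1 a2 a3) V (z + π)) : nonGood (Cub a0 a1 a2 a3) V (z - π) := by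
  unfold nonGood at h ⊢
  rwa [show z + π = z - π + 2 * π by ring, hV, non_per, non_per'] at h

lemma non_cos_ne (h3 : 0 < a3) {z : ℝ} (h : Cub a0 a1 a2 a3 z = 0) : cos z ≠ 0 := by
  intro h0
  have h1 := sin_sq_add_cos_sq z
  rw [Cub, h0] at h
  rw [h0] at h1
  have h2 : sin z ^ 3 = 0 := by
    have : a3 * sin z ^ 3 = 0 := by linarith
    exact (mul_eq_zero.1 this).resolve_left h3.ne'
  rw [pow_eq_zero_iff (by norm_num)] at h2
  rw [h2] at h1
  norm_num at h1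

lemma non_s (p x : ℝ) : (sin x - p * cos x) * cos (arctan p) = sin (x - arctan p) := by
  rw [sin_sub, ← tan_mul_cos (cos_arctan_pos p).ne', tan_arctan]; ring

lemma non_s1 {p x : ℝ} (h1 : arctan p < x) (h2 : x < arctan p + π) : 0 < sin x - p * cos x :=
  pos_of_mul_pos_left (by
    rw [non_s]; exact sin_pos_of_pos_of_lt_pi (by linarith) (by linarith)) (cos_arctan_pos p).le

lemma non_s2 {p x : ℝ} (h1 : arctan p - π < x) (h2 : x < arctan p) : sin x - p * cos x < 0 := by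
  have := non_s1 (p := p) (x := x + π) (by linarith) (by linarith)
  rw [sin_add_pi, cos_add_pi] at this
  linarith

lemma non_s3 {p x : ℝ} (h1 : arctan p + π < x) (h2 : x < arctan p + 2 * π) :
    sin x - p * cos x < 0 := by
  have := non_s1 (p := p) (x := x - π) (by linarith) (by linarith)
  rw [sin_sub_pi, cos_sub_pi] at this
  linarith

lemma non_s4 {p x : ℝ} (h1 : arctan p - 2 * π < x) (h2 : x < arctan p - π) :
    0 < sin x - p * cos x := by
  have := non_s2 (p := p) (x := x + π) (by linarith) (by linarith)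
  rw [sin_add_pi, cos_add_pi] at this
  linarith

/-- three real roots in increasing order -/
structure nonRoots (a0 a1 a2 a3 p q r : ℝ) : Prop where
  pos : 0 < a3
  pq : p < q
  qr : q < r
  e0 : a0 = -(a3 * (p * q * r))
  e1 : a1 = a3 * (p * q + p * r + q * r)
  e2 : a2 = -(a3 * (p + q + r))

lemma non_three (hSign : SignStmt) {p q r : ℝ} (h : nonRoots a0 a1 a2 a3 p q r)
    (hV : Sol (Cub a0 a1 a2 a3) (Lin b 0) V) :
    (nonGood (Cub a0 a1 a2 a3) V (arctan q) → ∀ x ∈ Icc (arctan p) (arctan r), 0 ≤ V x) ∧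
    (nonGood (Cub a0 a1 a2 a3) V (arctan p + π) →
      ∀ x ∈ Icc (arctan r) (arctan q + π), 0 ≤ V x) ∧
    (nonGood (Cub a0 a1 a2 a3) V (arctan r - π) →
      ∀ x ∈ Icc (arctan q - π) (arctan p), 0 ≤ V x) := by
  have hA : ∀ x, Cub a0 a1 a2 a3 x =
      a3 * ((sin x - p * cos x) * (sin x - q * cos x) * (sin x - r * cos x)) := fun x => by
    rw [Cub]
    conv_lhs => rw [h.e0, h.e1, h.e2]
    ring
  have k1 := arctan_strictMono h.pq
  have k2 := arctan_strictMono h.qr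
  have k3 := neg_pi_div_two_lt_arctan p
  have k4 := arctan_lt_pi_div_two r
  have k5 := pi_pos
  have hL := fun l y r => non_L hSign (Cub.an a0 a1 a2 a3) (Lin.an b 0).continuous hV
    (l := l) (y := y) (r := r)
  refine ⟨fun hy => hL _ _ _ k1 k2 hy ?_ ?_,
    fun hy => hL _ _ _ (by linarith) (by linarith) hy ?_ ?_,
    fun hy => hL _ _ _ (by linarith) (by linarith) hy ?_ ?_⟩ <;> intro x ⟨h1, h2⟩ <;> rw [hA]
  · exact mul_pos h.pos (mul_pos_of_neg_of_neg (mul_neg_of_pos_of_neg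
      (non_s1 h1 (by linarith)) (non_s2 (by linarith) h2)) (non_s2 (by linarith) (by linarith)))
  · exact mul_neg_of_pos_of_neg h.pos (mul_neg_of_pos_of_neg (mul_pos
      (non_s1 (by linarith) (by linarith)) (non_s1 h1 (by linarith))) (non_s2 (by linarith) h2))
  · exact mul_pos h.pos (mul_pos (mul_pos
      (non_s1 (by linarith) h2) (non_s1 (by linarith) (by linarith))) (non_s1 h1 (by linarith)))
  · exact mul_neg_of_pos_of_neg h.pos (mul_neg_of_neg_of_pos (mul_neg_of_neg_of_pos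
      (non_s3 h1 (by linarith)) (non_s1 (by linarith) h2)) (non_s1 (by linarith) (by linarith)))
  · exact mul_pos h.pos (mul_pos (mul_pos_of_neg_of_neg
      (non_s2 (by linarith) (by linarith)) (non_s2 h1 (by linarith))) (non_s4 (by linarith) h2))
  · exact mul_neg_of_pos_of_neg h.pos (mul_neg_of_pos_of_neg (mul_pos_of_neg_of_neg
      (non_s2 (by linarith) h2) (non_s2 (by linarith) (by linarith))) (non_s2 h1 (by linarith)))

/-- two touches to the right: the middle root is not positive -/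
lemma non_right (hDelta : DeltaStmt) (hSign : SignStmt) {p q r : ℝ}
    (h : nonRoots a0 a1 a2 a3 p q r) (h1 : 0 ≤ a1) (hV : Sol (Cub a0 a1 a2 a3) (Lin b 0) V)
    (hp : Function.Periodic V (2 * π)) (g2 : nonGood (Cub a0 a1 a2 a3) V (arctan q))
    (g1 : nonGood (Cub a0 a1 a2 a3) V (arctan p + π)) : q ≤ 0 := by
  by_contra hq
  have k0 : 0 < arctan q := arctan_pos.2 (not_le.1 hq)
  have k1 := arctan_lt_pi_div_two q
  have k2 := arctan_lt_pi_div_two r
  have k3 := hDelta a0 a1 a2 a3 b V h1 h.pos hV hp (arctan q)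
    ⟨neg_pi_div_two_lt_arctan q, k1⟩ k0.ne'
  have k4 := (non_three hSign h hV).2.1 g1 (π - arctan q) ⟨by linarith, by linarith⟩
  linarith [g2.1]

/-- two touches to the left: the middle root is not negative -/
lemma non_left (hDelta : DeltaStmt) (hSign : SignStmt) {p q r : ℝ}
    (h : nonRoots a0 a1 a2 a3 p q r) (h1 : 0 ≤ a1) (hV : Sol (Cub a0 a1 a2 a3) (Lin b 0) V)
    (hp : Function.Periodic V (2 * π)) (g2 : nonGood (Cub a0 a1 a2 a3) V (arctan q))
    (g3 : nonGood (Cub a0 a1 a2 a3) V (arctan r + π)) : 0 ≤ q := by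
  by_contra hq
  have k0 : arctan q < 0 := arctan_lt_zero.2 (not_le.1 hq)
  have k1 := neg_pi_div_two_lt_arctan q
  have k2 := neg_pi_div_two_lt_arctan p
  have k3 := hDelta a0 a1 a2 a3 b V h1 h.pos hV hp (arctan q)
    ⟨k1, arctan_lt_pi_div_two q⟩ k0.ne
  have k4 := (non_three hSign h hV).2.2 (non_good_sub hp g3) (-π - arctan q)
    ⟨by linarith, by linarith⟩
  rw [← hp, show -π - arctan q + 2 * π = π - arctan q by ring] at k4
  linarith [g2.1]

/-- Vieta's formulas from two distinct roots -/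
lemma non_vieta (h3 : 0 < a3) {p q : ℝ} (hne : p ≠ q)
    (hp : a0 + a1 * p + a2 * p ^ 2 + a3 * p ^ 3 = 0)
    (hq : a0 + a1 * q + a2 * q ^ 2 + a3 * q ^ 3 = 0) :
    ∃ r, a0 = -(a3 * (p * q * r)) ∧ a1 = a3 * (p * q + p * r + q * r) ∧
      a2 = -(a3 * (p + q + r)) := by
  obtain ⟨r, e2⟩ : ∃ r, a2 = -(a3 * (p + q + r)) := ⟨-a2 / a3 - p - q, by field_simp; ring⟩
  have e1 : a1 = a3 * (p * q + p * r + q * r) :=
    mul_left_cancel₀ (sub_ne_zero.2 hne) (by rw [e2] at hp hq; linear_combination hp - hq)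
  exact ⟨r, by rw [e1, e2] at hp; linear_combination hp, e1, e2⟩

lemma non_alg (h3 : 0 < a3) {p q e : ℝ} (hne : p ≠ q) (hpq : 0 ≤ p * q) (h1 : a1 = a3 * e)
    (he : e ≤ p ^ 2 + p * q + q ^ 2) : Gp a0 a1 a2 a3 p ≠ Gp a0 a1 a2 a3 q := by
  intro hG
  have k1 : e * (3 + (p ^ 2 + p * q + q ^ 2)) = 6 + 7 * (p ^ 2 + p * q + q ^ 2)
      + 3 * (p ^ 4 + p ^ 3 * q + p ^ 2 * q ^ 2 + p * q ^ 3 + q ^ 4) :=
    mul_left_cancel₀ (mul_ne_zero h3.ne' (sub_ne_zero.2 hne)) (by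
      unfold Gp at hG; rw [h1] at hG; linear_combination -hG)
  have k2 : 0 ≤ p ^ 2 + p * q + q ^ 2 := by positivity
  have k3 := mul_le_mul_of_nonneg_right he (show 0 ≤ 3 + (p ^ 2 + p * q + q ^ 2) by linarith)
  have k4 : 0 ≤ p * q * (p ^ 2 + q ^ 2) := by positivity
  have k5 : 0 ≤ p ^ 4 + q ^ 4 := by positivity
  nlinarith

lemma non_two (hGam : GamStmt) (hDelta : DeltaStmt) (hSign : SignStmt) (h3 : 0 < a3)
    (h1 : 0 ≤ a1) (hV : Sol (Cub a0 a1 a2 a3) (Lin b 0) V) (hp : Function.Periodic V (2 * π))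
    {y y' : ℝ} (g : nonGood (Cub a0 a1 a2 a3) V y) (g' : nonGood (Cub a0 a1 a2 a3) V y')
    (c : 0 < cos y) (c' : cos y' < 0) : Gp a0 a1 a2 a3 (tan y) ≠ Gp a0 a1 a2 a3 (tan y') := by
  obtain ⟨-, r1, d1⟩ := hGam a0 a1 a2 a3 1 y one_ne_zero c.ne' g.2.1
  obtain ⟨-, r2, d2⟩ := hGam a0 a1 a2 a3 1 y' one_ne_zero c'.ne g'.2.1
  have s1 := neg_of_mul_neg_right (d1 ▸ g.2.2) c.le
  have s2 := pos_of_mul_neg_right (d2 ▸ g'.2.2) c'.le
  have G := non_good_pos hp g c
  have G' := non_good_neg hp g' c'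
  generalize tan y = p at *
  generalize tan y' = q at *
  have hne : p ≠ q := fun h => by rw [h] at s1; linarith
  obtain ⟨r, e0, e1, e2⟩ := non_vieta h3 hne r1 r2
  have s3 : (p - q) * (p - r) < 0 :=
    neg_of_mul_neg_right (by rw [e1, e2] at s1; linarith) h3.le
  rcases mul_neg_iff.1 s3 with ⟨u, v⟩ | ⟨u, v⟩
  · have k := non_right hDelta hSign (p := q) (q := p) (r := r)
      ⟨h3, by linarith, by linarith, by linarith, by linarith, by linarith⟩ h1 hV hp G G'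
    exact non_alg h3 hne (mul_nonneg_of_nonpos_of_nonpos k (by linarith)) e1 (by nlinarith)
  · have k := non_left hDelta hSign (p := r) (q := p) (r := q)
      ⟨h3, by linarith, by linarith, by linarith, by linarith, by linarith⟩ h1 hV hp G G'
    exact non_alg h3 hne (mul_nonneg k (by linarith)) e1 (by nlinarith)

theorem non2S (hGam : GamStmt) (hDelta : DeltaStmt) (hSign : SignStmt) : Non2Stmt := by
  rintro a0 a1 a2 a3 b z1 z2 V hb h3 h1 hV hp ⟨-, -, t1, t2, d1, d2, -⟩ ⟨w1, w2, hw1, hw2, e, hg⟩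
  have c1 := non_cos_ne h3 t1.1
  have c2 := non_cos_ne h3 t2.1
  have hG : Gp a0 a1 a2 a3 (tan z1) = Gp a0 a1 a2 a3 (tan z2) := by
    have := hg (by simpa [Lin, hb] using c1)
    rw [(hGam a0 a1 a2 a3 b z1 hb c1 t1.1).1, (hGam a0 a1 a2 a3 b z2 hb c2 t2.1).1,
      add_left_inj, div_left_inj' (by positivity)] at this
    exact this
  have e' : w1 * cos z1 + w2 * cos z2 = 0 :=
    mul_left_cancel₀ hb (by simp only [Lin] at e; linear_combination e)
  rcases lt_or_gt_of_ne c1 with c | c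
  · have c' : 0 < cos z2 := pos_of_mul_pos_right (by nlinarith) hw2.le
    exact non_two hGam hDelta hSign h3 (by linarith) hV hp ⟨t2.2, t2.1, d2⟩ ⟨t1.2, t1.1, d1⟩ c' c
      hG.symm
  · have c' : cos z2 < 0 := neg_of_mul_neg_right (by nlinarith) hw2.le
    exact non_two hGam hDelta hSign h3 (by linarith) hV hp ⟨t1.2, t1.1, d1⟩ ⟨t2.2, t2.1, d2⟩ c c'
      hG

lemma non_sorted (hGam : GamStmt) (hDelta : DeltaStmt) (hSign : SignStmt) (h3 : 0 < a3)
    (h1 : 0 ≤ a1) (hV : Sol (Cub a0 a1 a2 a3) (Lin b 0) V) (hp : Function.Periodic V (2 * π))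
    {x y z : ℝ} (gx : nonGood (Cub a0 a1 a2 a3) V x) (gy : nonGood (Cub a0 a1 a2 a3) V y)
    (gz : nonGood (Cub a0 a1 a2 a3) V z) (hxy : tan x < tan y) (hyz : tan y < tan z) : False := by
  obtain ⟨-, r1, d1⟩ := hGam a0 a1 a2 a3 1 x one_ne_zero (non_cos_ne h3 gx.2.1) gx.2.1
  obtain ⟨-, r2, d2⟩ := hGam a0 a1 a2 a3 1 y one_ne_zero (non_cos_ne h3 gy.2.1) gy.2.1
  obtain ⟨-, r3, d3⟩ := hGam a0 a1 a2 a3 1 z one_ne_zero (non_cos_ne h3 gz.2.1) gz.2.1
  have s1 := d1 ▸ gx.2.2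
  have s2 := d2 ▸ gy.2.2
  have s3 := d3 ▸ gz.2.2
  have G1 := non_good_neg hp gx
  have G2 := non_good_pos hp gy
  have G3 := non_good_neg hp gz
  generalize tan x = p at *
  generalize tan y = q at *
  generalize tan z = r at *
  obtain ⟨r', e0, e1, e2⟩ := non_vieta h3 hxy.ne r1 r2
  have hpr : 0 < r - p := by linarith
  have hqr : 0 < r - q := by linarith
  have hpq : 0 < q - p := by linarith
  have hr : r' = r := by
    have : a3 * (r - p) * (r - q) * (r - r') = 0 := by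
      rw [e0, e1, e2] at r3; linear_combination r3
    exact (sub_eq_zero.1 ((mul_eq_zero.1 this).resolve_left (by positivity))).symm
  subst hr
  have f1 : a1 + 2 * a2 * p + 3 * a3 * p ^ 2 = a3 * (q - p) * (r' - p) := by rw [e1, e2]; ring
  have f2 : a1 + 2 * a2 * q + 3 * a3 * q ^ 2 = -(a3 * (q - p) * (r' - q)) := by rw [e1, e2]; ring
  have f3 : a1 + 2 * a2 * r' + 3 * a3 * r' ^ 2 = a3 * (r' - p) * (r' - q) := by rw [e1, e2]; ring
  have f4 : 0 < a3 * (q - p) * (r' - q) := by positivity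
  have c1 : cos x < 0 := neg_of_mul_neg_left s1 (by rw [f1]; positivity)
  have c2 : 0 < cos y := pos_of_mul_neg_left s2 (by rw [f2]; linarith)
  have c3 : cos z < 0 := neg_of_mul_neg_left s3 (by rw [f3]; positivity)
  have R : nonRoots a0 a1 a2 a3 p q r' := ⟨h3, hxy, hyz, e0, e1, e2⟩
  have q0 : q = 0 := le_antisymm (non_right hDelta hSign R h1 hV hp (G2 c2) (G1 c1))
    (non_left hDelta hSign R h1 hV hp (G2 c2) (G3 c3))
  subst q0
  linarith

lemma non_tan_ne (h3 : 0 < a3) {x y : ℝ} (hxy : x < y) (hyx : y < x + 2 * π)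
    (gx : nonGood (Cub a0 a1 a2 a3) V x) (gy : nonGood (Cub a0 a1 a2 a3) V y) :
    tan x ≠ tan y := by
  intro h
  have cx := non_cos_ne h3 gx.2.1
  have cy := non_cos_ne h3 gy.2.1
  have h1 : sin (y - x - π) = 0 := by
    rw [sin_sub_pi, sin_sub, ← tan_mul_cos cx, ← tan_mul_cos cy, h]; ring
  rw [sin_eq_zero_iff_of_lt_of_lt (by linarith) (by linarith)] at h1
  have h2 := gy.2.2
  have h4 := gx.2.2
  rw [show y = x + π by linarith, Cub.deriv, Cub.anti] at h2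
  rw [Cub.deriv] at h4
  linarith

theorem non3S (hGam : GamStmt) (hDelta : DeltaStmt) (hSign : SignStmt) : Non3Stmt := by
  rintro a0 a1 a2 a3 b z1 z2 z3 V h3 h1 hV hp ⟨l1, l2, l3, t1, t2, t3, d1, d2, d3, -⟩
  have g1 : nonGood (Cub a0 a1 a2 a3) V z1 := ⟨t1.2, t1.1, d1⟩
  have g2 : nonGood (Cub a0 a1 a2 a3) V z2 := ⟨t2.2, t2.1, d2⟩
  have g3 : nonGood (Cub a0 a1 a2 a3) V z3 := ⟨t3.2, t3.1, d3⟩
  have key := fun x y z => non_sorted hGam hDelta hSign h3 h1 hV hp (x := x) (y := y) (z := z)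
  rcases lt_or_gt_of_ne (non_tan_ne h3 l1 (by linarith) g1 g2) with a | a <;>
    rcases lt_or_gt_of_ne (non_tan_ne h3 l2 (by linarith) g2 g3) with c | c <;>
    rcases lt_or_gt_of_ne (non_tan_ne h3 (l1.trans l2) l3 g1 g3) with d | d
  · exact key _ _ _ g1 g2 g3 a c
  · exact key _ _ _ g1 g2 g3 a c
  · exact key _ _ _ g1 g3 g2 d c
  · exact key _ _ _ g3 g1 g2 d a
  · exact key _ _ _ g2 g1 g3 a d
  · exact key _ _ _ g2 g3 g1 c d
  · exact key _ _ _ g3 g2 g1 c a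
  · exact key _ _ _ g3 g2 g1 c a

end Pool.Agent.MP_c2f0e4_an

end

section

namespace Pool.Agent.MP_c2f0e4_an

theorem allSup : SupStmt := supS
theorem allFP : FPStmt := fpS allSup
theorem allAF : AFStmt := afS allFP
theorem allBB : BBStmt := bbS allFP
theorem allLoc : LocStmt := locS allAF
theorem allUniq : UniqStmt := uniqS allLoc
theorem allExt : ExtStmt := extS allUniq
theorem allPer : PerStmt := perS allUniq allExt
theorem allMul : MulStmt := mulS allUniq allExt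
theorem allBound : BoundStmt := boundS
theorem allLim : LimStmt := limS
theorem allDep : DepStmt := depS allUniq
theorem allExist : ExistStmt := existS
theorem allTransit : TransitStmt := transitS allLoc
theorem allMax : MaxStmt := maxS allUniq allBound allLim allExist allDep allTransit allExt
theorem allPole : PoleStmt := poleS
theorem allSphCore : SphCoreStmt := sphCoreS
theorem allRatio : RatioStmt := ratioS
theorem allSph : SphStmt := sphS allSphCore allRatio allMul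
theorem allCentre : CentreStmt := centreS allExist allPer
theorem allGlob : GlobStmt := globS allSphCore allRatio allPer
theorem allAsyComp : AsyCompStmt := asyCompS
theorem allAsyId : AsyIdStmt := asyIdS
theorem allAsyBTr : AsyBTrStmt := asyBTrS
theorem allAsyScale : AsyScaleStmt := asyScaleS
theorem allPData : PDataStmt := pDataS
theorem allPEst : PEstStmt := pEstS
theorem allPBd : PBdStmt := pBdS
theorem allPInv : PInvStmt := pInvS
theorem allChi : ChiStmt := chiS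
theorem allChiInt : ChiIntStmt := chiIntS allChi
theorem allBoot : BootStmt := bootS
theorem allSign : SignStmt := signS
theorem allCuspW : CuspWStmt := cuspWS allBB
theorem allCuspXD : CuspXDStmt := cuspXDS allCuspW allBB
theorem allCuspODE : CuspODEStmt := cuspODES
theorem allJet : JetStmt := jetS
theorem allTr : TrStmt := trS allTransit
theorem allD1 : D1Stmt := d1S
theorem allKappa : KappaStmt := kappaS allBB
theorem allModel : ModelStmt := modelS
theorem allBar : BarStmt := barS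
theorem allLLder : LLderStmt := llderS
theorem allPi2 : Pi2Stmt := pi2S
theorem allLLbd : LLbdStmt := llbdS
theorem allCore : CoreStmt := coreS allLLder allLLbd
theorem allJ1 : J1Stmt := j1S allLLder
theorem allJ2a : J2aStmt := j2aS allLLder allPi2
theorem allJ2b : J2bStmt := j2bS allLLder
theorem allJ2c : J2cStmt := j2cS allLLder allPi2 allBB
theorem allTrig : TrigStmt := trigS
theorem allDblCore : DblCoreStmt := dblCoreS allD1 allKappa allModel allBar allCore allJ1 allJ2a allJ2b allJ2c allTrig allTr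
theorem allT1 : T1Stmt := t1S
theorem allTSeq : TSeqStmt := tSeqS
theorem allT2a : T2aStmt := t2aS
theorem allT2b : T2bStmt := t2bS
theorem allTplCore : TplCoreStmt := tplCoreS allTSeq allT2a allTr
theorem allClass : ClassStmt := classS
theorem allGam : GamStmt := gamS
theorem allDelta : DeltaStmt := deltaS
theorem allRed : RedStmt := redS allSign allClass
theorem allTplFin : TplFinStmt := tplFinS allTplCore
theorem allMono2 : Mono2Stmt := mono2S allGam
theorem allMono3 : Mono3Stmt := mono3S allGam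
theorem allNon2 : Non2Stmt := non2S allGam allDelta allSign
theorem allNon3 : Non3Stmt := non3S allGam allDelta allSign
theorem allPass : PassStmt := passS allPData allPEst allPInv
theorem allCusp : CuspStmt := cuspS allCuspXD allCuspODE allJet allPass allChi allChiInt allAsyScale
theorem allC1 : C1Stmt := c1S allCusp allTr allAsyComp allAsyId allAsyBTr
theorem allC2 : C2Stmt := c2S allCusp allTr allAsyComp allAsyId
theorem allC3 : C3Stmt := c3S allCusp allTr allAsyComp allAsyId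
theorem allSingle : SingleStmt := singleS allC1
theorem allDblFin : DblFinStmt := dblFinS allSign allSingle allDblCore
theorem allMain : MainStmt :=
  mainS allMax allPole allRed allSingle allDblFin allTplFin allC2 allC3 allMono2 allMono3 allNon2
    allNon3

end Pool.Agent.MP_c2f0e4_an

end
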