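import Pool.Agent.MP_402458_gt.Defs
import Pool.Agent.MP_402458_gt.ODE

section

/-! The explicit polynomial metric on `ℝ^4` and its geodesic equation. -/

set_option maxSynthPendingDepth 3

open Set Filter Topology

namespace Pool.Agent.MP_402458_gt

abbrev E4 := EuclideanSpace ℝ (Fin 4)

noncomputable def pr (i : Fin 4) : E4 →L[ℝ] ℝ := EuclideanSpace.proj i

@[simp] lemma pr_apply (i : Fin 4) (x : E4) : pr i x = x i := rfl

noncomputable def sqf (i : Fin 4) : E4 →L[ℝ] E4 →L[ℝ] ℝ := (pr i).smulRight (pr i)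

@[simp] lemma sqf_apply (i : Fin 4) (v w : E4) : sqf i v w = v i * w i := by
  simp [sqf]

def fA (y : ℝ) : ℝ := 1 - y ^ 2 + y ^ 4
def fA' (y : ℝ) : ℝ := -2 * y + 4 * y ^ 3
def fF (s : ℝ) : ℝ := 3 * s ^ 2 - 7 * s + 5
def fF' (s : ℝ) : ℝ := 6 * s - 7

lemma fA_ge (y : ℝ) : 3 / 4 ≤ fA y := by
  unfold fA; nlinarith [sq_nonneg (y ^ 2 - 1 / 2)]

lemma fF_ge (s : ℝ) : 3 / 4 ≤ fF s := by
  unfold fF; nlinarith [sq_nonneg (s - 7 / 6)]

lemma fA_pos (y : ℝ) : 0 < fA y := lt_of_lt_of_le (by norm_num) (fA_ge y)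
lemma fF_pos (y : ℝ) : 0 < fF y := lt_of_lt_of_le (by norm_num) (fF_ge y)

lemma hasDerivAt_fA (y : ℝ) : HasDerivAt fA (fA' y) y := by
  unfold fA fA'
  have h := ((hasDerivAt_const y (1 : ℝ)).sub (hasDerivAt_pow 2 y)).add (hasDerivAt_pow 4 y)
  refine HasDerivAt.congr_deriv h ?_
  norm_num

lemma hasDerivAt_fF (s : ℝ) : HasDerivAt fF (fF' s) s := by
  unfold fF fF'
  have h := ((((hasDerivAt_pow 2 s).const_mul 3)).sub ((hasDerivAt_id s).const_mul 7)).add
    (hasDerivAt_const s (5 : ℝ))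
  refine HasDerivAt.congr_deriv h ?_
  norm_num; ring

/-- The metric `A(x₁) dx₀² + dx₁² + F(x₂² + x₃²) (dx₂² + dx₃²)`. -/
noncomputable def gm (x : E4) : E4 →L[ℝ] E4 →L[ℝ] ℝ :=
  fA (x 1) • sqf 0 + sqf 1 + fF (x 2 ^ 2 + x 3 ^ 2) • (sqf 2 + sqf 3)

lemma gm_apply (x v w : E4) : gm x v w = fA (x 1) * (v 0 * w 0) + v 1 * w 1
    + fF (x 2 ^ 2 + x 3 ^ 2) * (v 2 * w 2 + v 3 * w 3) := by
  simp [gm]; ring

lemma contDiff_coord {n : WithTop ℕ∞} (i : Fin 4) : ContDiff ℝ n (fun x : E4 => x i) :=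
  (pr i).contDiff

lemma contDiff_gm {n : WithTop ℕ∞} : ContDiff ℝ n gm := by
  have h1 := contDiff_coord (n := n) 1
  have h2 := contDiff_coord (n := n) 2
  have h3 := contDiff_coord (n := n) 3
  unfold gm fA fF
  fun_prop

lemma norm_sq_E4 (v : E4) : ‖v‖ ^ 2 = v 0 ^ 2 + v 1 ^ 2 + v 2 ^ 2 + v 3 ^ 2 := by
  rw [EuclideanSpace.norm_sq_eq]
  simp [Fin.sum_univ_four]

lemma gm_coercive (x v : E4) : ‖v‖ ^ 2 ≤ 4 / 3 * gm x v v := by
  rw [norm_sq_E4, gm_apply]
  have h1 := fA_ge (x 1)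
  have h2 := fF_ge (x 2 ^ 2 + x 3 ^ 2)
  nlinarith [mul_self_nonneg (v 0), mul_self_nonneg (v 1), mul_self_nonneg (v 2),
    mul_self_nonneg (v 3)]

lemma gm_nonneg (x v : E4) : 0 ≤ gm x v v := by
  have := gm_coercive x v
  nlinarith [sq_nonneg ‖v‖]

lemma isRiemannianMetric_gm : IsRiemannianMetric gm := by
  refine ⟨contDiff_gm, fun x v w => ?_, fun x v hv => ?_⟩
  · rw [gm_apply, gm_apply]; ring
  · have := gm_coercive x v
    have h : 0 < ‖v‖ := norm_pos_iff.2 hv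
    nlinarith [sq_pos_of_pos h]

lemma hasFDerivAt_gm (x : E4) : HasFDerivAt gm
    ((fA' (x 1) • pr 1).smulRight (sqf 0) +
      (fF' (x 2 ^ 2 + x 3 ^ 2) • ((2 * x 2) • pr 2 + (2 * x 3) • pr 3)).smulRight (sqf 2 + sqf 3))
    x := by
  have h1 : HasFDerivAt (fun x : E4 => fA (x 1)) (fA' (x 1) • pr 1) x :=
    HasDerivAt.comp_hasFDerivAt (h₂ := fA) (f := pr 1) x (hasDerivAt_fA (x 1)) (pr 1).hasFDerivAt
  have h2 : HasFDerivAt (fun x : E4 => x 2 ^ 2 + x 3 ^ 2) ((2 * x 2) • pr 2 + (2 * x 3) • pr 3) x := by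
    have a2 : HasFDerivAt (fun x : E4 => x 2 ^ 2) ((2 * x 2) • pr 2) x := by
      have := HasDerivAt.comp_hasFDerivAt (h₂ := fun t : ℝ => t ^ 2) (f := pr 2) x
        (hasDerivAt_pow 2 (x 2)) (pr 2).hasFDerivAt
      simp only [Nat.cast_ofNat, Nat.add_one_sub_one, pow_one] at this
      exact this
    have a3 : HasFDerivAt (fun x : E4 => x 3 ^ 2) ((2 * x 3) • pr 3) x := by
      have := HasDerivAt.comp_hasFDerivAt (h₂ := fun t : ℝ => t ^ 2) (f := pr 3) x
        (hasDerivAt_pow 2 (x 3)) (pr 3).hasFDerivAt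
      simp only [Nat.cast_ofNat, Nat.add_one_sub_one, pow_one] at this
      exact this
    exact a2.add a3
  have h3 : HasFDerivAt (fun x : E4 => fF (x 2 ^ 2 + x 3 ^ 2))
      (fF' (x 2 ^ 2 + x 3 ^ 2) • ((2 * x 2) • pr 2 + (2 * x 3) • pr 3)) x :=
    (hasDerivAt_fF _).comp_hasFDerivAt x h2
  have h4 := ((h1.smul_const (sqf 0)).add_const (sqf 1)).add (h3.smul_const (sqf 2 + sqf 3))
  exact h4

lemma fderiv_gm_apply (x u v w : E4) : fderiv ℝ gm x u v w =
    fA' (x 1) * u 1 * (v 0 * w 0)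
      + fF' (x 2 ^ 2 + x 3 ^ 2) * (2 * x 2 * u 2 + 2 * x 3 * u 3) * (v 2 * w 2 + v 3 * w 3) := by
  rw [(hasFDerivAt_gm x).fderiv]
  simp; ring

/-- The acceleration field of the geodesic equation. -/
noncomputable def acc (y : E4 × E4) : E4 :=
  !₂[-(fA' (y.1 1) / fA (y.1 1)) * (y.2 1 * y.2 0), (1 / 2) * fA' (y.1 1) * y.2 0 ^ 2,
    fF' (y.1 2 ^ 2 + y.1 3 ^ 2) / fF (y.1 2 ^ 2 + y.1 3 ^ 2) *
      (y.1 2 * (y.2 2 ^ 2 + y.2 3 ^ 2) - 2 * (y.1 2 * y.2 2 + y.1 3 * y.2 3) * y.2 2),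
    fF' (y.1 2 ^ 2 + y.1 3 ^ 2) / fF (y.1 2 ^ 2 + y.1 3 ^ 2) *
      (y.1 3 * (y.2 2 ^ 2 + y.2 3 ^ 2) - 2 * (y.1 2 * y.2 2 + y.1 3 * y.2 3) * y.2 3)]

lemma contDiff_acc {n : WithTop ℕ∞} : ContDiff ℝ n acc := by
  have h (i : Fin 4) : ContDiff ℝ n (fun y : E4 × E4 => y.1 i) :=
    (contDiff_coord i).comp contDiff_fst
  have h' (i : Fin 4) : ContDiff ℝ n (fun y : E4 × E4 => y.2 i) :=
    (contDiff_coord i).comp contDiff_snd
  have hA : ContDiff ℝ n (fun y : E4 × E4 => fA (y.1 1)) := by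
    have := h 1; unfold fA; fun_prop
  have hA' : ContDiff ℝ n (fun y : E4 × E4 => fA' (y.1 1)) := by
    have := h 1; unfold fA'; fun_prop
  have hF : ContDiff ℝ n (fun y : E4 × E4 => fF (y.1 2 ^ 2 + y.1 3 ^ 2)) := by
    have := h 2; have := h 3; unfold fF; fun_prop
  have hF' : ContDiff ℝ n (fun y : E4 × E4 => fF' (y.1 2 ^ 2 + y.1 3 ^ 2)) := by
    have := h 2; have := h 3; unfold fF'; fun_prop
  have hAA := hA'.div hA (fun y => (fA_pos _).ne')
  have hFF := hF'.div hF (fun y => (fF_pos _).ne')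
  rw [contDiff_euclidean]
  intro i
  have := h 0; have := h 1; have := h 2; have := h 3
  have := h' 0; have := h' 1; have := h' 2; have := h' 3
  fin_cases i
  · exact hAA.neg.mul (by fun_prop)
  · exact (contDiff_const.mul hA').mul (by fun_prop)
  · exact hFF.mul (by fun_prop)
  · exact hFF.mul (by fun_prop)

lemma geod_eq_iff (x v a : E4) :
    (∀ w : E4, gm x a w + fderiv ℝ gm x v v w - (1 / 2) * fderiv ℝ gm x w v v = 0) ↔
      a = acc (x, v) := by
  have hA := (fA_pos (x 1)).ne'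
  have hF := (fF_pos (x 2 ^ 2 + x 3 ^ 2)).ne'
  constructor
  · intro h
    have h0 := h (EuclideanSpace.single 0 1)
    have h1 := h (EuclideanSpace.single 1 1)
    have h2 := h (EuclideanSpace.single 2 1)
    have h3 := h (EuclideanSpace.single 3 1)
    simp only [gm_apply, fderiv_gm_apply] at h0 h1 h2 h3
    simp at h0 h1 h2 h3
    ext i
    fin_cases i
    · simp [acc]; field_simp; linarith
    · simp [acc]; linarith
    · simp [acc]; field_simp; linarith
    · simp [acc]; field_simp; linarith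
  · rintro rfl w
    simp only [gm_apply, fderiv_gm_apply]
    simp [acc]
    field_simp
    ring

lemma isGeodesic_iff (γ : ℝ → E4) :
    IsGeodesic gm γ ↔ ContDiff ℝ 2 γ ∧ ∀ t, deriv (deriv γ) t = acc (γ t, deriv γ t) := by
  unfold IsGeodesic
  simp only [geod_eq_iff]

end Pool.Agent.MP_402458_gt

end

section

/-! Existence and uniqueness of geodesics, the exponential map, explicit geodesics. -/

set_option maxSynthPendingDepth 3

open Set Filter Topology

namespace Pool.Agent.MP_402458_gt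

lemma contDiff_two_hasDerivAt {γ : ℝ → E4} (h : ContDiff ℝ 2 γ) (t : ℝ) :
    HasDerivAt γ (deriv γ t) t ∧ HasDerivAt (deriv γ) (deriv (deriv γ) t) t := by
  have h' : ContDiff ℝ (1 + 1) γ := by rw [one_add_one_eq_two]; exact h
  rw [contDiff_succ_iff_deriv] at h'
  exact ⟨(h'.1 t).hasDerivAt, ((h'.2.2.differentiable (by simp)) t).hasDerivAt⟩

lemma IsGeodesic.hasDerivAt_lift {γ : ℝ → E4} (h : IsGeodesic gm γ) (t : ℝ) :
    HasDerivAt (fun t => (γ t, deriv γ t)) (deriv γ t, acc (γ t, deriv γ t)) t := by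
  rw [isGeodesic_iff] at h
  have h1 := contDiff_two_hasDerivAt h.1 t
  rw [← h.2 t]
  exact h1.1.prodMk h1.2

lemma geodesic_unique {γ δ : ℝ → E4} (hγ : IsGeodesic gm γ) (hδ : IsGeodesic gm δ)
    (h0 : γ 0 = δ 0) (h1 : deriv γ 0 = deriv δ 0) : γ = δ := by
  have hX : ContDiff ℝ 1 (fun y : E4 × E4 => (y.2, acc y)) := contDiff_snd.prodMk contDiff_acc
  have := ode_unique (X := fun y : E4 × E4 => (y.2, acc y)) hX
    (α := fun t => (γ t, deriv γ t)) (β := fun t => (δ t, deriv δ t))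
    hγ.hasDerivAt_lift hδ.hasDerivAt_lift (by simp [h0, h1])
  funext t
  exact congrArg Prod.fst (congrFun this t)

lemma isGeodesic_of_hasDerivAt {γ v : ℝ → E4} (h1 : ∀ t, HasDerivAt γ (v t) t)
    (h2 : ∀ t, HasDerivAt v (acc (γ t, v t)) t) : IsGeodesic gm γ := by
  have e1 : deriv γ = v := funext fun t => (h1 t).deriv
  have e2 : deriv v = fun t => acc (γ t, v t) := funext fun t => (h2 t).deriv
  have c1 : Continuous γ := continuous_iff_continuousAt.2 fun t => (h1 t).continuousAt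
  have c2 : Continuous v := continuous_iff_continuousAt.2 fun t => (h2 t).continuousAt
  rw [isGeodesic_iff]
  refine ⟨?_, fun t => by rw [e1, e2]⟩
  suffices h' : ContDiff ℝ (1 + 1) γ by rwa [one_add_one_eq_two] at h'
  rw [contDiff_succ_iff_deriv]
  refine ⟨fun t => (h1 t).differentiableAt, by simp, ?_⟩
  rw [e1, contDiff_one_iff_deriv]
  refine ⟨fun t => (h2 t).differentiableAt, ?_⟩
  rw [e2]
  exact (contDiff_acc (n := 0)).continuous.comp (c1.prodMk c2)

lemma hasFDerivAt_energy (y : E4 × E4) : ∃ D : E4 × E4 →L[ℝ] ℝ,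
    HasFDerivAt (fun y : E4 × E4 => gm y.1 y.2 y.2) D y ∧
      ∀ z : E4 × E4, D z = fderiv ℝ gm y.1 z.1 y.2 y.2 + gm y.1 z.2 y.2 + gm y.1 y.2 z.2 := by
  have h1 : HasFDerivAt (fun y : E4 × E4 => gm y.1)
      ((fderiv ℝ gm y.1).comp (ContinuousLinearMap.fst ℝ E4 E4)) y :=
    (((contDiff_gm (n := 1)).differentiable (by simp)) y.1).hasFDerivAt.comp y hasFDerivAt_fst
  have h2 : HasFDerivAt (fun y : E4 × E4 => y.2) (ContinuousLinearMap.snd ℝ E4 E4) y :=
    hasFDerivAt_snd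
  refine ⟨_, (h1.clm_apply h2).clm_apply h2, fun z => ?_⟩
  simp
  ring

lemma energy_conserved (y : E4 × E4) :
    fderiv ℝ (fun y : E4 × E4 => gm y.1 y.2 y.2) y (y.2, acc y) = 0 := by
  obtain ⟨D, hD, hD'⟩ := hasFDerivAt_energy y
  rw [hD.fderiv, hD']
  have h := (geod_eq_iff y.1 y.2 (acc y)).2 rfl y.2
  have hs := isRiemannianMetric_gm.2.1 y.1 y.2 (acc y)
  simp only at h hs ⊢
  linarith

lemma geodesic_exists (p v : E4) : ∃ γ : ℝ → E4, IsGeodesic gm γ ∧ γ 0 = p ∧ deriv γ 0 = v := by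
  obtain ⟨α, h0, hα⟩ := second_order_global (a := acc) contDiff_acc
    (H := fun y : E4 × E4 => gm y.1 y.2 y.2)
    (fun y => (hasFDerivAt_energy y).choose_spec.1.differentiableAt) energy_conserved
    (C := 4 / 3) (fun y => gm_coercive y.1 y.2) (p, v)
  have h1 : ∀ t, HasDerivAt (fun t => (α t).1) ((α t).2) t := fun t =>
    (ContinuousLinearMap.fst ℝ E4 E4).hasFDerivAt.comp_hasDerivAt t (hα t)
  have h2 : ∀ t, HasDerivAt (fun t => (α t).2) (acc (α t)) t := fun t =>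
    (ContinuousLinearMap.snd ℝ E4 E4).hasFDerivAt.comp_hasDerivAt t (hα t)
  refine ⟨fun t => (α t).1, isGeodesic_of_hasDerivAt h1 h2, by simp [h0], ?_⟩
  rw [(h1 0).deriv, h0]

lemma geodesic_existsUnique (p v : E4) :
    ∃! γ : ℝ → E4, IsGeodesic gm γ ∧ γ 0 = p ∧ deriv γ 0 = v := by
  obtain ⟨γ, hγ⟩ := geodesic_exists p v
  exact ⟨γ, hγ, fun δ hδ => geodesic_unique hδ.1 hγ.1 (hδ.2.1.trans hγ.2.1.symm)
    (hδ.2.2.trans hγ.2.2.symm)⟩

lemma expMap_eq {γ : ℝ → E4} (hγ : IsGeodesic gm γ) : expMap gm (γ 0) (deriv γ 0) = γ 1 := by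
  unfold expMap
  have h := Classical.epsilon_spec (geodesic_exists (γ 0) (deriv γ 0))
  rw [geodesic_unique h.1 hγ h.2.1 h.2.2]

/-- The base point. -/
noncomputable def p0 : E4 := !₂[0, 0, 1, 0]

/-- Explicit curves from the base point. -/
noncomputable def hel (a b c : ℝ) (t : ℝ) : E4 := !₂[a * t, b * t, Real.cos (c * t), Real.sin (c * t)]

noncomputable def hel' (a b c : ℝ) (t : ℝ) : E4 :=
  !₂[a, b, -(c * Real.sin (c * t)), c * Real.cos (c * t)]

lemma hasDerivAt_E4 {γ : ℝ → E4} {v : E4} {t : ℝ} :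
    HasDerivAt γ v t ↔ ∀ i, HasDerivAt (fun s => γ s i) (v i) t := by
  constructor
  · intro h i
    exact (pr i).hasFDerivAt.comp_hasDerivAt t h
  · intro h
    have h1 : HasDerivAt (fun s => (EuclideanSpace.equiv (Fin 4) ℝ) (γ s))
        ((EuclideanSpace.equiv (Fin 4) ℝ) v) t := hasDerivAt_pi.2 h
    exact (EuclideanSpace.equiv (Fin 4) ℝ).symm.hasFDerivAt.comp_hasDerivAt t h1

lemma hasDerivAt_hel (a b c t : ℝ) : HasDerivAt (hel a b c) (hel' a b c t) t := by
  rw [hasDerivAt_E4]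
  intro i
  have hc : HasDerivAt (fun s => c * s) c t := by simpa using (hasDerivAt_id t).const_mul c
  fin_cases i
  · simpa [hel, hel'] using (hasDerivAt_id t).const_mul a
  · simpa [hel, hel'] using (hasDerivAt_id t).const_mul b
  · simp only [hel, hel']
    exact hc.cos.congr_deriv (by simp; ring)
  · simp only [hel, hel']
    exact hc.sin.congr_deriv (by simp; ring)

lemma deriv_hel (a b c : ℝ) : deriv (hel a b c) = hel' a b c :=
  funext fun t => (hasDerivAt_hel a b c t).deriv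

lemma isGeodesic_hel {a b : ℝ} (hab : a * b = 0) (c : ℝ) : IsGeodesic gm (hel a b c) := by
  refine isGeodesic_of_hasDerivAt (hasDerivAt_hel a b c) (fun t => ?_)
  rw [hasDerivAt_E4]
  intro i
  have hc : HasDerivAt (fun s => c * s) c t := by simpa using (hasDerivAt_id t).const_mul c
  have hs := Real.cos_sq_add_sin_sq (c * t)
  fin_cases i
  · simp only [hel, hel', acc]
    refine (hasDerivAt_const t a).congr_deriv ?_
    simp [mul_comm b a, hab]
  · simp only [hel, hel', acc]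
    refine (hasDerivAt_const t b).congr_deriv ?_
    rcases mul_eq_zero.1 hab with h | h <;> simp [h, fA']
  · simp only [hel, hel', acc]
    refine (hc.sin.const_mul c).neg.congr_deriv ?_
    simp [hs, fF, fF']
    linear_combination (c ^ 2 * Real.cos (c * t)) * hs
  · simp only [hel, hel', acc]
    refine (hc.cos.const_mul c).congr_deriv ?_
    simp [hs, fF, fF']
    linear_combination (c ^ 2 * Real.sin (c * t)) * hs

lemma hel_zero (a b c : ℝ) : hel a b c 0 = p0 := by simp [hel, p0]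

lemma hel'_zero (a b c : ℝ) : hel' a b c 0 = !₂[a, b, 0, c] := by simp [hel']

lemma expMap_hel {a b : ℝ} (hab : a * b = 0) (c : ℝ) :
    expMap gm p0 !₂[a, b, 0, c] = !₂[a, b, Real.cos c, Real.sin c] := by
  have := expMap_eq (isGeodesic_hel hab c)
  rw [hel_zero, deriv_hel, hel'_zero] at this
  rw [this]; simp [hel]

end Pool.Agent.MP_402458_gt

end

section

/-! Lower bounds for lengths by comparison with two round spheres. -/

set_option maxSynthPendingDepth 3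

open Set Filter Topology Real

namespace Pool.Agent.MP_402458_gt

lemma arccos_sub_le {h h' k : ℝ → ℝ} (hd : ∀ t, HasDerivAt h (h' t) t) (hk : Continuous k)
    (hk0 : ∀ t, 0 ≤ k t) (h1 : ∀ t, h t ^ 2 ≤ 1) (hb : ∀ t, h' t ^ 2 ≤ (1 - h t ^ 2) * k t ^ 2)
    {T : ℝ} (hT : 0 ≤ T) : arccos (h T) - arccos (h 0) ≤ ∫ t in (0 : ℝ)..T, k t := by
  have key : ∀ r ∈ Ioo (0 : ℝ) 1,
      arccos (r * h T) - arccos (r * h 0) ≤ ∫ t in (0 : ℝ)..T, k t := by
    intro r hr
    have hr2 : r ^ 2 < 1 := by nlinarith [hr.1, hr.2]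
    have hlt : ∀ t, (r * h t) ^ 2 < 1 := by
      intro t
      have := h1 t
      rw [mul_pow]
      nlinarith [sq_nonneg r, sq_nonneg (h t)]
    have hD : ∀ t, HasDerivAt (fun u => (∫ t in (0 : ℝ)..u, k t) - arccos (r * h u))
        (k t - (-(1 / √(1 - (r * h t) ^ 2)) * (r * h' t))) t := by
      intro t
      have a1 := (hk.integral_hasStrictDerivAt 0 t).hasDerivAt
      have n1 : r * h t ≠ -1 := fun e => by have := hlt t; rw [e] at this; norm_num at this
      have n2 : r * h t ≠ 1 := fun e => by have := hlt t; rw [e] at this; norm_num at this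
      have a2 := (hasDerivAt_arccos n1 n2).comp t ((hd t).const_mul r)
      exact a1.sub a2
    have hmono := monotone_of_hasDerivAt_nonneg hD (fun t => by
      have hp : 0 < 1 - (r * h t) ^ 2 := by linarith [hlt t]
      have hs : 0 < √(1 - (r * h t) ^ 2) := Real.sqrt_pos.2 hp
      have hs2 : √(1 - (r * h t) ^ 2) ^ 2 = 1 - (r * h t) ^ 2 := Real.sq_sqrt hp.le
      have hb' : (r * h' t) ^ 2 ≤ (√(1 - (r * h t) ^ 2) * k t) ^ 2 := by
        rw [mul_pow, mul_pow _ (k t), hs2, mul_pow]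
        have e1 := hb t
        have e2 : r ^ 2 * h' t ^ 2 ≤ h' t ^ 2 := by nlinarith [sq_nonneg (h' t)]
        have e3 : (1 - h t ^ 2) * k t ^ 2 ≤ (1 - r ^ 2 * h t ^ 2) * k t ^ 2 := by
          apply mul_le_mul_of_nonneg_right _ (sq_nonneg _)
          nlinarith [sq_nonneg (h t)]
        linarith
      have hb'' := abs_le_of_sq_le_sq' hb' (mul_nonneg hs.le (hk0 t))
      have e : k t - -(1 / √(1 - (r * h t) ^ 2)) * (r * h' t) =
          (√(1 - (r * h t) ^ 2) * k t + r * h' t) / √(1 - (r * h t) ^ 2) := by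
        generalize √(1 - (r * h t) ^ 2) = w at hs
        field_simp; ring
      change 0 ≤ k t - -(1 / √(1 - (r * h t) ^ 2)) * (r * h' t)
      rw [e]
      apply div_nonneg _ hs.le
      linarith [hb''.1])
    have := hmono hT
    simp only [intervalIntegral.integral_same] at this
    linarith
  have hc : Continuous fun r : ℝ => arccos (r * h T) - arccos (r * h 0) := by fun_prop
  have ht : Tendsto (fun r : ℝ => arccos (r * h T) - arccos (r * h 0)) (𝓝[<] 1)
      (𝓝 (arccos (1 * h T) - arccos (1 * h 0))) :=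
    (hc.tendsto 1).mono_left nhdsWithin_le_nhds
  rw [one_mul, one_mul] at ht
  refine le_of_tendsto ht ?_
  filter_upwards [Ioo_mem_nhdsLT (zero_lt_one' ℝ)] with r hr using key r hr

lemma cos_sq_lt_fA {y : ℝ} (hy : y ≠ 0) : cos y ^ 2 < fA y := by
  have key : ∀ y : ℝ, 0 < y → cos y ^ 2 < fA y := by
    intro y hy
    unfold fA
    rw [cos_sq']
    by_cases h1 : 1 < y
    · have : 0 < y ^ 2 * (y ^ 2 - 1) := by
        apply mul_pos (by positivity); nlinarith
      nlinarith [sq_nonneg (sin y)]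
    · push Not at h1
      have h2 := sin_gt_sub_cube hy
      have h3 : 0 < y - y ^ 3 / 6 := by
        have : y ^ 2 ≤ 1 := by nlinarith
        nlinarith
      have h4 : (y - y ^ 3 / 6) ^ 2 < sin y ^ 2 := by nlinarith
      have h5 : 0 < y ^ 4 := by positivity
      have h6 : 0 < y ^ 6 := by positivity
      nlinarith
  rcases lt_or_gt_of_ne hy with h | h
  · have := key (-y) (by linarith)
    rw [cos_neg] at this
    unfold fA at this ⊢
    nlinarith
  · exact key y h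

lemma cos_sq_le_fA (y : ℝ) : cos y ^ 2 ≤ fA y := by
  by_cases hy : y = 0
  · simp [hy, fA]
  · exact (cos_sq_lt_fA hy).le

lemma fF_identity (s : ℝ) : fF s * (1 + s) ^ 2 - 4 = (s - 1) ^ 2 * (3 * s ^ 2 + 5 * s + 1) := by
  unfold fF; ring

/-- Speed of the image in the first comparison sphere. -/
noncomputable def ka (x v : E4) : ℝ := √(cos (x 1) ^ 2 * v 0 ^ 2 + v 1 ^ 2)
/-- Speed of the image in the second comparison sphere. -/
noncomputable def kb (x v : E4) : ℝ := √(4 / (1 + (x 2 ^ 2 + x 3 ^ 2)) ^ 2 * (v 2 ^ 2 + v 3 ^ 2))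
noncomputable def aa (x v : E4) : ℝ := √(fA (x 1) * v 0 ^ 2 + v 1 ^ 2)
noncomputable def bb (x v : E4) : ℝ := √(fF (x 2 ^ 2 + x 3 ^ 2) * (v 2 ^ 2 + v 3 ^ 2))

lemma four_div_le_fF {s : ℝ} (hs : 0 ≤ s) : 4 / (1 + s) ^ 2 ≤ fF s := by
  rw [div_le_iff₀ (by positivity)]
  have := fF_identity s
  have h : 0 ≤ (s - 1) ^ 2 * (3 * s ^ 2 + 5 * s + 1) := by positivity
  linarith

lemma ka_le (x v : E4) : ka x v ≤ aa x v := by
  apply Real.sqrt_le_sqrt
  have := cos_sq_le_fA (x 1)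
  nlinarith [sq_nonneg (v 0)]

lemma kb_le (x v : E4) : kb x v ≤ bb x v := by
  apply Real.sqrt_le_sqrt
  exact mul_le_mul_of_nonneg_right (four_div_le_fF (by positivity)) (by positivity)

lemma aa_sq (x v : E4) : aa x v ^ 2 = fA (x 1) * v 0 ^ 2 + v 1 ^ 2 :=
  Real.sq_sqrt (by have := fA_pos (x 1); positivity)

lemma bb_sq (x v : E4) : bb x v ^ 2 = fF (x 2 ^ 2 + x 3 ^ 2) * (v 2 ^ 2 + v 3 ^ 2) :=
  Real.sq_sqrt (by have := fF_pos (x 2 ^ 2 + x 3 ^ 2); positivity)

lemma ka_sq (x v : E4) : ka x v ^ 2 = cos (x 1) ^ 2 * v 0 ^ 2 + v 1 ^ 2 :=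
  Real.sq_sqrt (by positivity)

lemma kb_sq (x v : E4) :
    kb x v ^ 2 = 4 / (1 + (x 2 ^ 2 + x 3 ^ 2)) ^ 2 * (v 2 ^ 2 + v 3 ^ 2) :=
  Real.sq_sqrt (by positivity)

lemma gm_eq_aa_bb (x v : E4) : gm x v v = aa x v ^ 2 + bb x v ^ 2 := by
  rw [aa_sq, bb_sq, gm_apply]; ring

section curve

variable {c v : ℝ → E4} (hc : ∀ t, HasDerivAt c (v t) t) (hv : Continuous v)
include hc hv

lemma continuous_ka : Continuous fun t => ka (c t) (v t) := by
  have c1 : Continuous c := continuous_iff_continuousAt.2 fun t => (hc t).continuousAt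
  unfold ka; fun_prop

lemma continuous_kb : Continuous fun t => kb (c t) (v t) := by
  have c1 : Continuous c := continuous_iff_continuousAt.2 fun t => (hc t).continuousAt
  unfold kb
  refine Continuous.sqrt (Continuous.mul (Continuous.div (by fun_prop) (by fun_prop) ?_)
    (by fun_prop))
  intro t; positivity

lemma continuous_speed : Continuous fun t => √(gm (c t) (v t) (v t)) := by
  have c1 : Continuous c := continuous_iff_continuousAt.2 fun t => (hc t).continuousAt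
  simp only [gm_apply, fA, fF]
  fun_prop

lemma lower_a {T : ℝ} (hT : 0 ≤ T) :
    arccos (cos (c T 1) * cos (c T 0)) - arccos (cos (c 0 1) * cos (c 0 0)) ≤
      ∫ t in (0 : ℝ)..T, ka (c t) (v t) := by
  have h0 := fun t => hasDerivAt_E4.1 (hc t) 0
  have h1 := fun t => hasDerivAt_E4.1 (hc t) 1
  refine arccos_sub_le (h := fun t => cos (c t 1) * cos (c t 0))
    (fun t => (h1 t).cos.mul (h0 t).cos) (continuous_ka hc hv) (fun t => Real.sqrt_nonneg _)
    (fun t => ?_) (fun t => ?_) hT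
  · rw [mul_pow]
    exact mul_le_one₀ (cos_sq_le_one _) (sq_nonneg _) (cos_sq_le_one _)
  · rw [ka_sq]
    have e0 := sin_sq_add_cos_sq (c t 0)
    have e1 := sin_sq_add_cos_sq (c t 1)
    generalize sin (c t 0) = s0 at *
    generalize cos (c t 0) = c0 at *
    generalize sin (c t 1) = s1 at *
    generalize cos (c t 1) = c1 at *
    have e2 : 1 - (c1 * c0) ^ 2 = (s1 * c0) ^ 2 + s0 ^ 2 := by
      linear_combination (-1 : ℝ) * e0 - c0 ^ 2 * e1
    rw [e2]
    nlinarith [sq_nonneg (s1 * c0 * (c1 * v t 0) - s0 * v t 1)]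

lemma lower_b {T : ℝ} (hT : 0 ≤ T) :
    arccos (2 * c T 2 / (1 + (c T 2 ^ 2 + c T 3 ^ 2)))
      - arccos (2 * c 0 2 / (1 + (c 0 2 ^ 2 + c 0 3 ^ 2))) ≤
      ∫ t in (0 : ℝ)..T, kb (c t) (v t) := by
  have h2 := fun t => hasDerivAt_E4.1 (hc t) 2
  have h3 := fun t => hasDerivAt_E4.1 (hc t) 3
  have hne : ∀ t, 1 + (c t 2 ^ 2 + c t 3 ^ 2) ≠ 0 := fun t => by positivity
  refine arccos_sub_le (h := fun t => 2 * c t 2 / (1 + (c t 2 ^ 2 + c t 3 ^ 2)))
    (fun t => ((h2 t).const_mul 2).div ((((h2 t).pow 2).add ((h3 t).pow 2)).const_add 1) (hne t))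
    (continuous_kb hc hv) (fun t => Real.sqrt_nonneg _)
    (fun t => ?_) (fun t => ?_) hT
  · rw [div_pow, div_le_one (by positivity)]
    nlinarith [sq_nonneg (c t 2 ^ 2 - 1), sq_nonneg (c t 3), sq_nonneg (c t 2),
      sq_nonneg (c t 3 ^ 2), mul_nonneg (sq_nonneg (c t 2)) (sq_nonneg (c t 3))]
  · rw [kb_sq]
    simp only [Pi.add_apply, Pi.pow_apply, Nat.cast_ofNat, Nat.add_one_sub_one, pow_one]
    have := hne t
    generalize c t 2 = x at *
    generalize c t 3 = y at *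
    generalize v t 2 = a at *
    generalize v t 3 = b at *
    have hp : 0 < 1 + (x ^ 2 + y ^ 2) := by positivity
    rw [← sub_nonneg]
    have e : (1 - (2 * x / (1 + (x ^ 2 + y ^ 2))) ^ 2) * (4 / (1 + (x ^ 2 + y ^ 2)) ^ 2 * (a ^ 2 + b ^ 2)) -
        ((2 * a * (1 + (x ^ 2 + y ^ 2)) - 2 * x * (2 * x * a + 2 * y * b)) / (1 + (x ^ 2 + y ^ 2)) ^ 2) ^ 2
        = 4 * ((1 - x ^ 2 + y ^ 2) * b + 2 * x * y * a) ^ 2 / (1 + (x ^ 2 + y ^ 2)) ^ 4 := by
      field_simp; ring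
    rw [e]; positivity

end curve

end Pool.Agent.MP_402458_gt

end

section

/-! Distances from the base point to the points `(a, 0, cos c, sin c)`. -/

set_option maxSynthPendingDepth 3

open Set Filter Topology Real

namespace Pool.Agent.MP_402458_gt

lemma riemDist_le {c : ℝ → E4} (hc : ContDiff ℝ 1 c) :
    riemDist gm (c 0) (c 1) ≤ ∫ t in (0 : ℝ)..1, √(gm (c t) (deriv c t) (deriv c t)) := by
  apply csInf_le
  · refine ⟨0, ?_⟩
    rintro L ⟨c, -, -, -, rfl⟩
    exact intervalIntegral.integral_nonneg zero_le_one fun t _ => Real.sqrt_nonneg _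
  · exact ⟨c, hc, rfl, rfl, rfl⟩

lemma le_riemDist {p q : E4} {L : ℝ}
    (h : ∀ c v : ℝ → E4, (∀ t, HasDerivAt c (v t) t) → Continuous v → c 0 = p → c 1 = q →
      L ≤ ∫ t in (0 : ℝ)..1, √(gm (c t) (v t) (v t))) : L ≤ riemDist gm p q := by
  apply le_csInf
  · refine ⟨_, fun t => p + t • (q - p), by fun_prop, by simp, by simp, rfl⟩
  · rintro L ⟨c, hc, h0, h1, rfl⟩
    exact h c (deriv c) (fun t => (hc.differentiable (by simp) t).hasDerivAt)
      hc.continuous_deriv_one h0 h1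

lemma norm_le_riemDist (p q : E4) : ‖q - p‖ / 2 ≤ riemDist gm p q := by
  refine le_riemDist fun c v hc hv h0 h1 => ?_
  have e := intervalIntegral.integral_eq_sub_of_hasDerivAt (a := 0) (b := 1)
    (fun t _ => hc t) (hv.intervalIntegrable 0 1)
  rw [h0, h1] at e
  rw [← e, div_le_iff₀ two_pos, ← intervalIntegral.integral_mul_const]
  refine intervalIntegral.norm_integral_le_of_norm_le zero_le_one (Eventually.of_forall fun t _ => ?_)
    (((continuous_speed hc hv).mul continuous_const).intervalIntegrable 0 1)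
  have h1 := gm_coercive (c t) (v t)
  have h2 := gm_nonneg (c t) (v t)
  have h3 := Real.sq_sqrt h2
  have h4 := Real.sqrt_nonneg (gm (c t) (v t) (v t))
  refine (abs_le_of_sq_le_sq' ?_ (by positivity)).2
  rw [mul_pow, h3]; linarith

lemma isCompleteMetric_gm : IsCompleteMetric gm := by
  refine ⟨fun u hu => ?_, geodesic_existsUnique⟩
  apply cauchySeq_tendsto_of_complete
  rw [Metric.cauchySeq_iff]
  intro ε hε
  obtain ⟨N, hN⟩ := hu (ε / 2) (by positivity)
  refine ⟨N, fun m hm n hn => ?_⟩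
  have := norm_le_riemDist (u n) (u m)
  have := hN n hn m hm
  rw [dist_eq_norm]; linarith

/-- The target points. -/
noncomputable def qq (a c : ℝ) : E4 := !₂[a, 0, cos c, sin c]

lemma cs_bound {a b A B θ s : ℝ} (hθ : 0 ≤ θ) (ha : a ≤ A) (hb : b ≤ B) (hs0 : 0 ≤ s)
    (hs : s ^ 2 = A ^ 2 + B ^ 2) : π * a + θ * b ≤ √(π ^ 2 + θ ^ 2) * s := by
  have hl : √(π ^ 2 + θ ^ 2) ^ 2 = π ^ 2 + θ ^ 2 := Real.sq_sqrt (by positivity)
  have h1 : π * a + θ * b ≤ π * A + θ * B :=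
    add_le_add (mul_le_mul_of_nonneg_left ha pi_pos.le) (mul_le_mul_of_nonneg_left hb hθ)
  refine h1.trans (abs_le_of_sq_le_sq' ?_ (by positivity)).2
  rw [mul_pow, hl, hs]
  nlinarith [sq_nonneg (π * B - θ * A)]

section curve

variable {c v : ℝ → E4} (hc : ∀ t, HasDerivAt c (v t) t) (hv : Continuous v)
include hc hv

lemma lower_ab {T θ : ℝ} (hT : 0 ≤ T) (hθ : θ ∈ Icc 0 π) (h0 : c 0 = p0) (h1 : c T = qq π θ) :
    π ^ 2 + θ ^ 2 ≤ ∫ t in (0 : ℝ)..T, (π * ka (c t) (v t) + θ * kb (c t) (v t)) := by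
  have ha := lower_a hc hv hT
  have hb := lower_b hc hv hT
  rw [h0, h1] at ha hb
  simp [p0, qq] at ha
  simp [p0, qq] at hb
  have e : 2 * cos θ / (1 + 1) = cos θ := by ring
  have e' : (2 : ℝ) / (1 + 1) = 1 := by ring
  rw [e, e', arccos_cos hθ.1 hθ.2, arccos_one] at hb
  rw [intervalIntegral.integral_add
    (((continuous_ka hc hv).intervalIntegrable _ _).const_mul _)
    (((continuous_kb hc hv).intervalIntegrable _ _).const_mul _),
    intervalIntegral.integral_const_mul, intervalIntegral.integral_const_mul]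
  nlinarith [mul_le_mul_of_nonneg_left ha pi_pos.le, mul_le_mul_of_nonneg_left hb hθ.1]

end curve

lemma pointwise_bound (x v : E4) {θ : ℝ} (hθ : 0 ≤ θ) :
    π * ka x v + θ * kb x v ≤ √(π ^ 2 + θ ^ 2) * √(gm x v v) :=
  cs_bound hθ (ka_le x v) (kb_le x v) (Real.sqrt_nonneg _)
    (by rw [Real.sq_sqrt (gm_nonneg x v), gm_eq_aa_bb])

lemma ell_pos (θ : ℝ) : 0 < √(π ^ 2 + θ ^ 2) :=
  Real.sqrt_pos.2 (by have := pi_pos; positivity)

lemma ell_sq (θ : ℝ) : √(π ^ 2 + θ ^ 2) ^ 2 = π ^ 2 + θ ^ 2 := Real.sq_sqrt (by positivity)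

lemma dist_lower {θ : ℝ} (hθ : θ ∈ Icc 0 π) : √(π ^ 2 + θ ^ 2) ≤ riemDist gm p0 (qq π θ) := by
  refine le_riemDist fun c v hc hv h0 h1 => ?_
  have h := lower_ab hc hv zero_le_one hθ h0 h1
  have h2 : ∫ t in (0 : ℝ)..1, (π * ka (c t) (v t) + θ * kb (c t) (v t)) ≤
      ∫ t in (0 : ℝ)..1, √(π ^ 2 + θ ^ 2) * √(gm (c t) (v t) (v t)) :=
    intervalIntegral.integral_mono_on zero_le_one
      (((continuous_const.mul (continuous_ka hc hv)).add
        (continuous_const.mul (continuous_kb hc hv))).intervalIntegrable _ _)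
      ((continuous_const.mul (continuous_speed hc hv)).intervalIntegrable _ _)
      (fun t _ => pointwise_bound _ _ hθ.1)
  rw [intervalIntegral.integral_const_mul] at h2
  have h3 := ell_pos θ
  have h4 := ell_sq θ
  apply le_of_mul_le_mul_left _ h3
  nlinarith

/-- Competitor curves. -/
noncomputable def cmp (a c δ : ℝ) (s : ℝ) : E4 :=
  !₂[a * s, δ * sin (π * s), cos (c * s), sin (c * s)]

noncomputable def cmp' (a c δ : ℝ) (s : ℝ) : E4 :=
  !₂[a, δ * (π * cos (π * s)), -(c * sin (c * s)), c * cos (c * s)]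

lemma hasDerivAt_cmp (a c δ t : ℝ) : HasDerivAt (cmp a c δ) (cmp' a c δ t) t := by
  rw [hasDerivAt_E4]
  intro i
  have hc : HasDerivAt (fun s => c * s) c t := by simpa using (hasDerivAt_id t).const_mul c
  have hp : HasDerivAt (fun s => π * s) π t := by simpa using (hasDerivAt_id t).const_mul π
  fin_cases i
  · simpa [cmp, cmp'] using (hasDerivAt_id t).const_mul a
  · simp only [cmp, cmp']
    exact (hp.sin.const_mul δ).congr_deriv (by simp [mul_comm])
  · simp only [cmp, cmp']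
    exact hc.cos.congr_deriv (by simp; ring)
  · simp only [cmp, cmp']
    exact hc.sin.congr_deriv (by simp; ring)

lemma contDiff_cmp (a c δ : ℝ) : ContDiff ℝ 1 (cmp a c δ) := by
  rw [contDiff_euclidean]
  intro i
  fin_cases i <;> simp [cmp] <;> fun_prop

lemma dist_upper_aux (a c δ : ℝ) {l : ℝ} (hl : 0 < l) (hl2 : l ^ 2 = a ^ 2 + c ^ 2) :
    riemDist gm p0 (qq a c) ≤ l + δ ^ 2 / (4 * l) * (π ^ 2 - a ^ 2 * (1 - δ ^ 2)) := by
  have h := riemDist_le (contDiff_cmp a c δ)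
  have e0 : cmp a c δ 0 = p0 := by simp [cmp, p0]
  have e1 : cmp a c δ 1 = qq a c := by simp [cmp, qq]
  have ed : deriv (cmp a c δ) = cmp' a c δ := funext fun t => (hasDerivAt_cmp a c δ t).deriv
  rw [e0, e1, ed] at h
  refine h.trans ?_
  have hv : Continuous (cmp' a c δ) := by
    rw [← ed]; exact (contDiff_cmp a c δ).continuous_deriv_one
  have hmono : ∫ t in (0 : ℝ)..1, √(gm (cmp a c δ t) (cmp' a c δ t) (cmp' a c δ t)) ≤
      ∫ t in (0 : ℝ)..1, (l + δ ^ 2 / (4 * l) * (π ^ 2 - a ^ 2 * (1 - δ ^ 2))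
        + δ ^ 2 / (4 * l) * (π ^ 2 + a ^ 2 * (1 - δ ^ 2)) * cos (2 * π * t)) := by
    refine intervalIntegral.integral_mono_on zero_le_one
      ((continuous_speed (hasDerivAt_cmp a c δ) hv).intervalIntegrable _ _)
      (Continuous.intervalIntegrable (by fun_prop) _ _) (fun t _ => ?_)
    have hg : gm (cmp a c δ t) (cmp' a c δ t) (cmp' a c δ t) =
        fA (δ * sin (π * t)) * a ^ 2 + (δ * (π * cos (π * t))) ^ 2 + c ^ 2 := by
      have hs := cos_sq_add_sin_sq (c * t)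
      simp [gm_apply, cmp, cmp', hs, fF]
      linear_combination c ^ 2 * hs
    have h2 : cos (2 * π * t) = 1 - 2 * sin (π * t) ^ 2 := by
      rw [mul_assoc, cos_two_mul, cos_sq']; ring
    have h3 : cos (π * t) ^ 2 = 1 - sin (π * t) ^ 2 := cos_sq' _
    have h4 : sin (π * t) ^ 2 ≤ 1 := sin_sq_le_one _
    have hsq : ∀ u : ℝ, 0 ≤ u → √u ≤ l + (u - l ^ 2) / (2 * l) := by
      intro u hu
      have := Real.sq_sqrt hu
      rw [← sub_le_iff_le_add', le_div_iff₀ (by positivity)]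
      nlinarith [sq_nonneg (√u - l)]
    refine (hsq _ (gm_nonneg _ _)).trans ?_
    rw [hg, h2, mul_pow, mul_pow, h3, hl2, fA]
    generalize sin (π * t) = s at *
    have e : l + δ ^ 2 / (4 * l) * (π ^ 2 - a ^ 2 * (1 - δ ^ 2)) +
        δ ^ 2 / (4 * l) * (π ^ 2 + a ^ 2 * (1 - δ ^ 2)) * (1 - 2 * s ^ 2) =
        l + (δ ^ 2 * (π ^ 2 * (1 - s ^ 2) - a ^ 2 * (1 - δ ^ 2) * s ^ 2)) / (2 * l) := by
      field_simp; ring
    rw [e]
    gcongr
    have h5 : 0 ≤ a ^ 2 * δ ^ 4 * s ^ 2 * (1 - s ^ 2) :=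
      mul_nonneg (by positivity) (by linarith)
    nlinarith
  refine hmono.trans (le_of_eq ?_)
  have hI : ∫ t in (0 : ℝ)..1, cos (2 * π * t) = 0 := by
    rw [intervalIntegral.integral_comp_mul_left (fun x => cos x) (by positivity)]
    simp
  rw [intervalIntegral.integral_add (Continuous.intervalIntegrable (by fun_prop) _ _)
    (Continuous.intervalIntegrable (by fun_prop) _ _), intervalIntegral.integral_const_mul, hI]
  simp

lemma dist_upper (a c : ℝ) {l : ℝ} (hl : 0 < l) (hl2 : l ^ 2 = a ^ 2 + c ^ 2) :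
    riemDist gm p0 (qq a c) ≤ l := by
  simpa using dist_upper_aux a c 0 hl hl2

lemma dist_upper_lt {a : ℝ} (ha : π < a) (c : ℝ) {l : ℝ} (hl : 0 < l)
    (hl2 : l ^ 2 = a ^ 2 + c ^ 2) : riemDist gm p0 (qq a c) < l := by
  have hp := pi_pos
  have ha0 : 0 < a := by linarith
  have h1 : π ^ 2 < a ^ 2 := by nlinarith
  set η := (a ^ 2 - π ^ 2) / (2 * a ^ 2) with hη
  have hη0 : 0 < η := div_pos (by linarith) (by positivity)
  have h := dist_upper_aux a c (√η) hl hl2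
  rw [Real.sq_sqrt hη0.le] at h
  have h2 : a ^ 2 * η = (a ^ 2 - π ^ 2) / 2 := by rw [hη]; field_simp
  have h3 : π ^ 2 - a ^ 2 * (1 - η) < 0 := by nlinarith
  have h4 : η / (4 * l) * (π ^ 2 - a ^ 2 * (1 - η)) < 0 :=
    mul_neg_of_pos_of_neg (by positivity) h3
  linarith

lemma dist_eq {θ : ℝ} (hθ : θ ∈ Icc 0 π) : riemDist gm p0 (qq π θ) = √(π ^ 2 + θ ^ 2) :=
  le_antisymm (dist_upper π θ (ell_pos θ) (ell_sq θ)) (dist_lower hθ)

end Pool.Agent.MP_402458_gt

end
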