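import Pool.Agent.Mg.F402458.G63badd

/-! Uniqueness of segments, cut times, and the two counterexamples. -/

set_option maxSynthPendingDepth 3

open Set Filter Topology Real
open scoped NNReal ENNReal

namespace Pool.Agent.MP_402458_gt

lemma deriv_zero_of_const {f : ℝ → ℝ} {f' l c : ℝ} (hl : 0 < l) (hf : HasDerivAt f f' 0)
    (hc : ∀ t ∈ Icc 0 l, f t = c) : f' = 0 := by
  have h1 : HasDerivWithinAt f f' (Icc 0 l) 0 := hf.hasDerivWithinAt
  have h2 : HasDerivWithinAt f 0 (Icc 0 l) 0 :=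
    (hasDerivWithinAt_const 0 (Icc 0 l) c).congr hc (hc 0 ⟨le_rfl, hl.le⟩)
  exact (uniqueDiffOn_Icc hl 0 ⟨le_rfl, hl.le⟩).eq_deriv _ h1 h2

lemma segment_unique {θ : ℝ} (hθ : θ ∈ Ioo 0 π) {γ : ℝ → E4} {l : ℝ} (hγ : IsSegment gm p0 γ l)
    (hq : γ l = qq π θ) : γ = hel (π / √(π ^ 2 + θ ^ 2)) 0 (θ / √(π ^ 2 + θ ^ 2)) := by
  obtain ⟨hgeo, hunit, h0, hl0, hd⟩ := hγ
  have hθ' : θ ∈ Icc 0 π := Ioo_subset_Icc_self hθ
  rw [hq, dist_eq hθ'] at hd
  have hlpos : 0 < l := hd ▸ ell_pos θ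
  have hl2 : l ^ 2 = π ^ 2 + θ ^ 2 := hd ▸ ell_sq θ
  rw [hd]
  have hc := fun t => (contDiff_two_hasDerivAt hgeo.1 t).1
  have hc2 := fun t => (contDiff_two_hasDerivAt hgeo.1 t).2
  set v := deriv γ with hvdef
  have hv : Continuous v := continuous_iff_continuousAt.2 fun t => (hc2 t).continuousAt
  have hlow := lower_ab hc hv hl0 hθ' h0 hq
  have hcont : Continuous fun t => π * ka (γ t) (v t) + θ * kb (γ t) (v t) :=
    (continuous_const.mul (continuous_ka hc hv)).add (continuous_const.mul (continuous_kb hc hv))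
  have hpt : ∀ t, π * ka (γ t) (v t) + θ * kb (γ t) (v t) ≤ l := by
    intro t
    have := pointwise_bound (γ t) (v t) hθ'.1
    rwa [hunit t, hd, Real.sqrt_one, mul_one] at this
  have heq : ∀ t ∈ Icc 0 l, π * ka (γ t) (v t) + θ * kb (γ t) (v t) = l := by
    intro t ht
    by_contra hne
    have hlt := lt_of_le_of_ne (hpt t) hne
    have := intervalIntegral.integral_lt_integral_of_continuousOn_of_le_of_exists_lt hlpos
      hcont.continuousOn (continuousOn_const (c := l)) (fun t _ => hpt t) ⟨t, ht, hlt⟩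
    simp only [intervalIntegral.integral_const, sub_zero, smul_eq_mul] at this
    nlinarith
  have hall : ∀ t ∈ Icc 0 l, γ t 1 * v t 0 = 0 ∧ γ t 2 ^ 2 + γ t 3 ^ 2 = 1 ∧
      l * bb (γ t) (v t) = θ := by
    intro t ht
    have e := heq t ht
    have ha := ka_le (γ t) (v t)
    have hb := kb_le (γ t) (v t)
    have hu := hunit t
    rw [gm_eq_aa_bb] at hu
    have hp := pi_pos
    have ha' := mul_le_mul_of_nonneg_left ha pi_pos.le
    have hb' := mul_le_mul_of_nonneg_left hb hθ'.1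
    have hS : l ≤ π * aa (γ t) (v t) + θ * bb (γ t) (v t) := by linarith
    have hsq : (π - l * aa (γ t) (v t)) ^ 2 + (θ - l * bb (γ t) (v t)) ^ 2 ≤ 0 := by
      have : (π - l * aa (γ t) (v t)) ^ 2 + (θ - l * bb (γ t) (v t)) ^ 2 =
          2 * l * (l - (π * aa (γ t) (v t) + θ * bb (γ t) (v t))) := by
        linear_combination (-1 : ℝ) * hl2 + l ^ 2 * hu
      rw [this]
      exact mul_nonpos_of_nonneg_of_nonpos (by positivity) (by linarith)
    have hA : l * aa (γ t) (v t) = π := by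
      nlinarith [sq_nonneg (π - l * aa (γ t) (v t)), sq_nonneg (θ - l * bb (γ t) (v t))]
    have hB : l * bb (γ t) (v t) = θ := by
      nlinarith [sq_nonneg (π - l * aa (γ t) (v t)), sq_nonneg (θ - l * bb (γ t) (v t))]
    have hS' : π * aa (γ t) (v t) + θ * bb (γ t) (v t) = l := by
      apply mul_left_cancel₀ hlpos.ne'
      linear_combination π * hA + θ * hB - hl2
    have hka : ka (γ t) (v t) = aa (γ t) (v t) :=
      mul_left_cancel₀ pi_pos.ne' (by linarith)
    have hkb : kb (γ t) (v t) = bb (γ t) (v t) :=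
      mul_left_cancel₀ hθ.1.ne' (by linarith)
    refine ⟨?_, ?_, hB⟩
    · have h1 := ka_sq (γ t) (v t)
      rw [hka, aa_sq] at h1
      by_contra hne
      have h2 := cos_sq_lt_fA (left_ne_zero_of_mul hne)
      have h3 : 0 < v t 0 ^ 2 := by have := right_ne_zero_of_mul hne; positivity
      nlinarith
    · have h1 := kb_sq (γ t) (v t)
      rw [hkb] at h1
      have h2 := bb_sq (γ t) (v t)
      have h3 : 0 < bb (γ t) (v t) := by
        by_contra h
        have : l * bb (γ t) (v t) ≤ 0 := mul_nonpos_of_nonneg_of_nonpos hl0 (not_lt.1 h)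
        linarith [hθ.1]
      have hs : 0 ≤ γ t 2 ^ 2 + γ t 3 ^ 2 := by positivity
      generalize γ t 2 ^ 2 + γ t 3 ^ 2 = s at *
      have hW : v t 2 ^ 2 + v t 3 ^ 2 ≠ 0 := by
        intro h
        rw [h, mul_zero] at h2
        exact (pow_pos h3 2).ne' h2
      have h4 : fF s = 4 / (1 + s) ^ 2 := mul_right_cancel₀ hW (h2.symm.trans h1)
      rw [eq_div_iff (by positivity)] at h4
      have h5 := fF_identity s
      rw [h4, sub_self] at h5
      have h6 : (s - 1) ^ 2 = 0 :=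
        (mul_eq_zero.1 h5.symm).resolve_right (by positivity)
      have := pow_eq_zero_iff (two_ne_zero) |>.1 h6
      linarith
  have g1 : γ 0 1 = 0 := by rw [h0]; simp [p0]
  have g2 : γ 0 2 = 1 := by rw [h0]; simp [p0]
  have g3 : γ 0 3 = 0 := by rw [h0]; simp [p0]
  have d1 := deriv_zero_of_const hlpos
    ((hasDerivAt_E4.1 (hc 0) 1).mul (hasDerivAt_E4.1 (hc2 0) 0)) (fun t ht => (hall t ht).1)
  have d2 := deriv_zero_of_const hlpos
    (((hasDerivAt_E4.1 (hc 0) 2).pow 2).add ((hasDerivAt_E4.1 (hc 0) 3).pow 2))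
    (fun t ht => (hall t ht).2.1)
  simp only [g1, zero_mul, add_zero] at d1
  simp [g2, g3] at d2
  have hab : v 0 0 * v 0 1 = 0 := by rw [mul_comm]; exact d1
  have hγ : γ = hel (v 0 0) (v 0 1) (v 0 3) := by
    refine geodesic_unique hgeo (isGeodesic_hel hab _) (by rw [h0, hel_zero]) ?_
    rw [deriv_hel, hel'_zero]
    ext i
    fin_cases i <;> simp [← hvdef, d2]
  have hB := (hall 0 ⟨le_rfl, hl0⟩).2.2
  have hB2 := bb_sq (γ 0) (v 0)
  rw [g2, g3, d2] at hB2
  simp [fF] at hB2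
  have hB3 : (l * v 0 3) ^ 2 = θ ^ 2 := by
    rw [← hB, mul_pow, mul_pow, hB2]; norm_num
  have q0 : v 0 0 * l = π := by
    have := congrArg (fun x : E4 => x 0) hq
    rw [hγ] at this
    simpa [hel, qq] using this
  have q1 : v 0 1 * l = 0 := by
    have := congrArg (fun x : E4 => x 1) hq
    rw [hγ] at this
    simpa [hel, qq] using this
  have q3 : sin (v 0 3 * l) = sin θ := by
    have := congrArg (fun x : E4 => x 3) hq
    rw [hγ] at this
    simpa [hel, qq] using this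
  have r0 : v 0 0 = π / l := by rw [eq_div_iff hlpos.ne', q0]
  have r1 : v 0 1 = 0 := (mul_eq_zero.1 q1).resolve_right hlpos.ne'
  have r3 : v 0 3 = θ / l := by
    rw [eq_div_iff hlpos.ne']
    rcases sq_eq_sq_iff_eq_or_eq_neg.1 hB3 with h | h
    · linarith
    · exfalso
      rw [mul_comm, h, sin_neg] at q3
      have := sin_pos_of_pos_of_lt_pi hθ.1 hθ.2
      linarith
  rw [hγ, r0, r1, r3]

lemma not_mem_separatingSet {θ : ℝ} (hθ : θ ∈ Ioo 0 π) : qq π θ ∉ separatingSet gm p0 := by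
  rintro ⟨γ₁, γ₂, l, h1, h2, e1, e2, hne⟩
  apply hne
  rw [segment_unique hθ h1 e1, segment_unique hθ h2 e2]
  exact fun _ _ => rfl

lemma gm_hel (a c t : ℝ) : gm (hel a 0 c t) (hel' a 0 c t) (hel' a 0 c t) = a ^ 2 + c ^ 2 := by
  have hs := cos_sq_add_sin_sq (c * t)
  simp [gm_apply, hel, hel', hs, fF, fA]
  linear_combination c ^ 2 * hs

lemma mem_separatingSet : qq π π ∈ separatingSet gm p0 := by
  have hl := ell_pos π
  have hl2 := ell_sq π
  have hd := dist_eq (θ := π) ⟨pi_pos.le, le_rfl⟩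
  set l := √(π ^ 2 + π ^ 2) with hldef
  have e : π / l * l = π := by field_simp
  have e1 : hel (π / l) 0 (π / l) l = qq π π := by simp [hel, qq, e]
  have e2 : hel (π / l) 0 (-(π / l)) l = qq π π := by simp [hel, qq, e]
  have hu : (π / l) ^ 2 + (π / l) ^ 2 = 1 := by
    rw [div_pow, ← add_div, ← hl2]; field_simp
  refine ⟨hel (π / l) 0 (π / l), hel (π / l) 0 (-(π / l)), l,
    ⟨isGeodesic_hel (mul_zero _) _, fun t => ?_, hel_zero _ _ _, hl.le, by rw [e1, hd]⟩,
    ⟨isGeodesic_hel (mul_zero _) _, fun t => ?_, hel_zero _ _ _, hl.le, by rw [e2, hd]⟩,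
    e1, e2, fun h => ?_⟩
  · rw [deriv_hel, gm_hel, hu]
  · rw [deriv_hel, gm_hel, neg_sq, hu]
  · have h1 := congrArg (fun x : E4 => x 3) (h (x := l / 2) ⟨by positivity, by linarith⟩)
    have e3 : π / l * (l / 2) = π / 2 := by field_simp
    simp [hel, e3] at h1
    norm_num at h1

/-- The tangent cut points. -/
noncomputable def uu (θ : ℝ) : E4 := !₂[π, 0, 0, θ]

lemma expMap_uu (θ : ℝ) : expMap gm p0 (uu θ) = qq π θ := expMap_hel (mul_zero _) θ

lemma uu_mem {θ : ℝ} (hθ : θ ∈ Icc 0 π) : uu θ ∈ tangentCutLocus gm p0 := by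
  have hl := ell_pos θ
  have hl2 := ell_sq θ
  have hd := dist_eq hθ
  set l := √(π ^ 2 + θ ^ 2) with hldef
  have hu : (π / l) ^ 2 + (θ / l) ^ 2 = 1 := by
    rw [div_pow, div_pow, ← add_div, ← hl2]; field_simp
  have hexp : ∀ t : ℝ, expMap gm p0 (t • !₂[π / l, 0, 0, θ / l]) = qq (t * (π / l)) (t * (θ / l)) := by
    intro t
    have : (t • !₂[π / l, 0, 0, θ / l] : E4) = !₂[t * (π / l), 0, 0, t * (θ / l)] := by
      ext i; fin_cases i <;> simp
    rw [this]
    exact expMap_hel (mul_zero _) _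
  have hcut : cutTime gm p0 !₂[π / l, 0, 0, θ / l] = ((NNReal.mk l hl.le : ℝ≥0) : ℝ≥0∞) := by
    unfold cutTime
    apply le_antisymm
    · refine iSup₂_le fun t ht => ?_
      rw [ENNReal.coe_le_coe, ← NNReal.coe_le_coe]
      by_contra hlt
      have hlt' : l < (t : ℝ) := not_le.1 hlt
      have ht' : riemDist gm p0 (expMap gm p0 ((t : ℝ) • !₂[π / l, 0, 0, θ / l])) = t := ht
      rw [hexp] at ht'
      have := dist_upper_lt (a := t * (π / l)) ?_ (t * (θ / l)) (l := t) (hl.trans hlt') ?_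
      · exact this.ne ht'
      · rw [mul_div_assoc', lt_div_iff₀ hl]
        nlinarith [pi_pos]
      · rw [mul_pow, mul_pow, ← mul_add, hu, mul_one]
    · refine le_iSup₂_of_le (NNReal.mk l hl.le) ?_ le_rfl
      change riemDist gm p0 (expMap gm p0 (l • !₂[π / l, 0, 0, θ / l])) = l
      rw [hexp, mul_div_cancel₀ _ hl.ne', mul_div_cancel₀ _ hl.ne', hd]
  refine ⟨!₂[π / l, 0, 0, θ / l], ?_, ?_, ?_⟩
  · simp [gm_apply, p0, fA, fF]
    linear_combination hu
  · rw [hcut]; exact ENNReal.coe_lt_top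
  · rw [hcut]
    change uu θ = l • _
    ext i
    fin_cases i <;> simp [uu] <;> field_simp

lemma continuous_uu : Continuous uu := by
  unfold uu
  fun_prop

lemma continuous_qq : Continuous (qq π) := by
  unfold qq
  fun_prop

theorem tangent_counterexample : uu π ∈ tangentSeparatingSet gm p0 ∧
    uu π ∈ closure (tangentCutLocus gm p0 \ tangentSeparatingSet gm p0) := by
  refine ⟨⟨uu_mem ⟨pi_pos.le, le_rfl⟩, expMap_uu π ▸ mem_separatingSet⟩, ?_⟩
  refine mem_closure_of_tendsto (f := uu) (b := 𝓝[<] π)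
    ((continuous_uu.tendsto π).mono_left nhdsWithin_le_nhds) ?_
  filter_upwards [Ioo_mem_nhdsLT pi_pos] with θ hθ
  exact ⟨uu_mem (Ioo_subset_Icc_self hθ), fun h => not_mem_separatingSet hθ (expMap_uu θ ▸ h.2)⟩

theorem base_counterexample : qq π π ∈ separatingSet gm p0 ∩ cutLocus gm p0 ∧
    qq π π ∈ closure (cutLocus gm p0 \ separatingSet gm p0) := by
  refine ⟨⟨mem_separatingSet, uu π, uu_mem ⟨pi_pos.le, le_rfl⟩, expMap_uu π⟩, ?_⟩
  refine mem_closure_of_tendsto (f := qq π) (b := 𝓝[<] π)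
    ((continuous_qq.tendsto π).mono_left nhdsWithin_le_nhds) ?_
  filter_upwards [Ioo_mem_nhdsLT pi_pos] with θ hθ
  exact ⟨⟨uu θ, uu_mem (Ioo_subset_Icc_self hθ), expMap_uu θ⟩, not_mem_separatingSet hθ⟩

end Pool.Agent.MP_402458_gt
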